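import Pool.Agent.Lib.MP_9dbb0e_al.D.MLc

/-!
# JOB MInd: independent leading parts give free families

PROOFS.
`Sm_inj`: induction on `k` (generalizing `g`). `k = 0`: `u = []`, `Sm s N dl 0 g [] = g [] * dl [] = g []`. `k + 1`: `u = j :: u'`, `j ∈ s`. For words `m` of length `d` and `v` of length `d * k`:
 `0 = Sm s N dl (k + 1) g (m ++ v) = ∑ i ∈ s, N i (Sm s N dl k (g (i :: ·))) (m ++ v) = ∑ i ∈ s, mu (x i) dl m * Sm s N dl k (g (i :: ·)) v`: `N i f = mu (x i) f - f` and `lead_app` for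
 `f = Sm s N dl k (g (i :: ·)) ∈ Lo (d * k)` (`Sm_lo` with `e = 0`, `hN`: `S d (x i)`). So `hind` with `c i = Sm s N dl k (g (i :: ·)) v` gives `Sm s N dl k (g (j :: ·)) v = 0` for all such `v`; induction hypothesis.
`free_of_indep`: `injective_iff_map_eq_one`. Let `lift x v = 1` and `v ≠ 1`. `exists_lead`: `e ≥ 1`, `S e v`, `u₀` of length `e` with `mu v dl u₀ ≠ 0`. `s` from `exists_supp v u₀.toFinset`. `ev_main s N dl φ`, `φ = mu.comp (lift x)`, `D = e + 1`:
 `Lo (0 + d * (e + 1)) (φ v dl - ∑ k < e + 1, Sm s N dl k (mu v dl))`; `φ v dl = dl`; the terms `0 < k < e` vanish (`S_iff`, `Sm_congr`, `Sm_zero`), the term `0` is `dl` (`mu_nil`). So `Sm s N dl e (mu v dl) ∈ Lo (d * e + d)`, in particular it is `0` on the words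
 of length `d * e`; `Sm_inj` gives `mu v dl u₀ = 0`, contradiction.
`FreeTwo.pow'`: in `FreeGroup (Fin 2)` the family `![of 0 ^ i, of 1 ^ j]` is free by `free_of_indep` with `d = 1` (`S_one_all`; `mu (of a ^ i) dl [b] = if a = b then i else 0`: `lc_mul`, induction on `i`); `FreeGroup.lift ![a ^ i, b ^ j] = (FreeGroup.lift ![a, b]).comp (FreeGroup.lift ![of 0 ^ i, of 1 ^ j])`.
`FreeTwo.mul_right`: `FreeGroup.lift ![a, a * b] = (FreeGroup.lift ![a, b]).comp (FreeGroup.lift ![of 0, of 0 * of 1])`, and `FreeGroup.lift ![of 0, of 0 * of 1]` has the left inverse `FreeGroup.lift ![of 0, (of 0)⁻¹ * of 1]`.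
-/

set_option autoImplicit false

namespace Pool.Agent.Lib.MP_9dbb0e_al.DF

open Pool.Agent.Lib.MP_106261_lc.Magnus FreeGroup

variable {I J : Type} [DecidableEq I] [DecidableEq J]

/-- the operator `w - 1` -/
def Nw (w : FreeGroup I) : PS I →ₗ[ℤ] PS I := (mu w).toLinearMap - LinearMap.id

theorem Nw_apply (w : FreeGroup I) (f : PS I) : Nw w f = mu w f - f := rfl

private theorem MInd_dl_nil : (dl : PS I) [] = 1 := if_pos rfl

theorem Sm_inj (x : J → FreeGroup I) {d : ℕ} (hd : 1 ≤ d) (hx : ∀ j, S d (x j))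
    (hind : ∀ (s : Finset J) (c : J → ℤ), (∀ u : List I, u.length = d →
      ∑ j ∈ s, mu (x j) dl u * c j = 0) → ∀ j ∈ s, c j = 0) (s : Finset J) (k : ℕ) (g : PS J)
    (h0 : ∀ v : List I, v.length = d * k → Sm s (fun j => Nw (x j)) dl k g v = 0) (u : List J)
    (hu : u.length = k) (hs : ∀ j ∈ u, j ∈ s) : g u = 0 := by
  induction k generalizing g u with
  | zero =>
    obtain rfl := List.length_eq_zero_iff.1 hu
    have h1 := h0 [] (by rw [Nat.mul_zero]; rfl)
    have h2 : g [] * (dl : PS I) [] = 0 := h1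
    rw [MInd_dl_nil, mul_one] at h2
    exact h2
  | succ k ih =>
    cases u with
    | nil => exact absurd hu (by simp)
    | cons j u =>
      rw [List.length_cons] at hu
      refine ih (fun w => g (j :: w)) (fun v hv => ?_) u (by omega) (fun i hi => hs i (List.mem_cons_of_mem _ hi))
      refine hind s (fun i => Sm s (fun j => Nw (x j)) dl k (fun w => g (i :: w)) v) (fun m hm => ?_) j
        (hs j List.mem_cons_self)
      have h1 := h0 (m ++ v) (by rw [List.length_append, hm, hv, Nat.mul_succ, Nat.add_comm])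
      have h2 : (∑ i ∈ s, Nw (x i) (Sm s (fun j => Nw (x j)) dl k (fun w => g (i :: w)))) (m ++ v) = 0 := h1
      rw [Finset.sum_apply] at h2
      rw [← h2]
      refine Finset.sum_congr rfl fun i _ => ?_
      have h3 : Lo (d * k) (Sm s (fun j => Nw (x j)) dl k (fun w => g (i :: w))) := by
        have h4 := Sm_lo s (fun j => Nw (x j)) dl (d := d) (e := 0) (fun i _ e f hf => hx i e f hf)
          (fun u hu => absurd hu (Nat.not_lt_zero _)) k (fun w => g (i :: w))
        rw [Nat.zero_add] at h4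
        exact h4
      exact (lead_app hd (hx i) h3 m v hm hv).symm

theorem free_of_indep (x : J → FreeGroup I) {d : ℕ} (hd : 1 ≤ d) (hx : ∀ j, S d (x j))
    (hind : ∀ (s : Finset J) (c : J → ℤ), (∀ u : List I, u.length = d →
      ∑ j ∈ s, mu (x j) dl u * c j = 0) → ∀ j ∈ s, c j = 0) :
    Function.Injective (FreeGroup.lift x : FreeGroup J →* FreeGroup I) := by
  refine (injective_iff_map_eq_one _).2 fun v hv => ?_
  by_contra hne
  obtain ⟨e, he, hS, u0, hu0, hne0⟩ := exists_lead hne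
  obtain ⟨s, hs1, hs2⟩ := exists_supp v u0.toFinset
  have h1 := ev_main s (fun j => Nw (x j)) (dl : PS I) ((mu : FreeGroup I →* _).comp (FreeGroup.lift x))
    (fun i _ f => by
      rw [MonoidHom.comp_apply, FreeGroup.lift_apply_of, Nw_apply]
      abel) hd (fun i _ e f hf => hx i e f hf) v hs2 (e := 0) (fun u hu => absurd hu (Nat.not_lt_zero _)) (e + 1)
  have h2 : ((mu : FreeGroup I →* _).comp (FreeGroup.lift x)) v (dl : PS I) = dl := by
    rw [MonoidHom.comp_apply, hv]
    exact mu_one _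
  have h3 : ∑ k ∈ Finset.range e, Sm s (fun j => Nw (x j)) (dl : PS I) k (mu v dl) = dl := by
    rw [Finset.sum_eq_single 0]
    · change (mu v dl) [] • (dl : PS I) = dl
      rw [mu_nil, MInd_dl_nil, one_smul]
    · intro k hk hk0
      rw [Finset.mem_range] at hk
      rw [Sm_congr s (fun j => Nw (x j)) (dl : PS I) k (mu v dl) 0, Sm_zero]
      intro u hu _
      exact (S_iff he v).1 hS u (by rintro rfl; exact hk0 hu.symm) (by omega)
    · intro h4
      exact absurd (Finset.mem_range.2 he) h4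
  rw [h2, Finset.sum_range_succ, h3, Nat.zero_add] at h1
  refine hne0 (Sm_inj x hd hx hind s e (mu v dl) (fun w hw => ?_) u0 hu0 (fun j hj => hs1 (List.mem_toFinset.2 hj)))
  have h4 := h1 w (by rw [hw, Nat.mul_succ]; omega)
  rw [Pi.sub_apply, Pi.add_apply] at h4
  linarith

private theorem MInd_pow (a b : I) (n : ℕ) : mu (of a ^ n) dl [b] = if b = a then (n : ℤ) else 0 := by
  induction n with
  | zero =>
    rw [pow_zero, mu_one]
    have h1 : (dl : PS I) [b] = 0 := if_neg (by simp)
    rw [h1]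
    split_ifs <;> rfl
  | succ n ih =>
    rw [pow_succ, lc_mul le_rfl (S_one_all _) (S_one_all _) [b] rfl, ih, mu_of]
    have h1 : (dl : PS I) [b] = 0 := if_neg (by simp)
    have h2 : Xm a (dl : PS I) [b] = if b = a then (dl : PS I) [] else 0 := rfl
    rw [h1, h2, MInd_dl_nil]
    split_ifs
    · push_cast
      ring
    · ring

theorem FreeTwo_pow {G : Type*} [Group G] {a b : G}
    (h : Function.Injective (FreeGroup.lift ![a, b] : FreeGroup (Fin 2) →* G)) (i j : ℕ)
    (hi : 0 < i) (hj : 0 < j) :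
    Function.Injective (FreeGroup.lift ![a ^ i, b ^ j] : FreeGroup (Fin 2) →* G) := by
  have h1 : (FreeGroup.lift ![a ^ i, b ^ j] : FreeGroup (Fin 2) →* G) =
      (FreeGroup.lift ![a, b]).comp (FreeGroup.lift ![(of 0 : FreeGroup (Fin 2)) ^ i, of 1 ^ j]) := by
    refine FreeGroup.ext_hom _ _ fun k => ?_
    rw [MonoidHom.comp_apply, FreeGroup.lift_apply_of, FreeGroup.lift_apply_of]
    refine Fin.cases ?_ (fun k => ?_) k
    · change a ^ i = FreeGroup.lift ![a, b] (of 0 ^ i)
      rw [_root_.map_pow, FreeGroup.lift_apply_of]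
      rfl
    · obtain rfl : k = 0 := Subsingleton.elim _ _
      change b ^ j = FreeGroup.lift ![a, b] (of 1 ^ j)
      rw [_root_.map_pow, FreeGroup.lift_apply_of]
      rfl
  rw [h1, MonoidHom.coe_comp]
  refine h.comp ?_
  have h2 : ∀ k : Fin 2, ![(of 0 : FreeGroup (Fin 2)) ^ i, of 1 ^ j] k = of k ^ (![i, j] k) := by
    intro k
    refine Fin.cases rfl (fun k => ?_) k
    obtain rfl : k = 0 := Subsingleton.elim _ _
    rfl
  have h3 : ∀ k : Fin 2, 0 < ![i, j] k := by
    intro k
    refine Fin.cases hi (fun k => ?_) k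
    obtain rfl : k = 0 := Subsingleton.elim _ _
    exact hj
  refine free_of_indep _ (d := 1) le_rfl (fun k => S_one_all _) ?_
  intro s c hc k hk
  have h4 := hc [k] rfl
  rw [Finset.sum_eq_single k] at h4
  · rw [h2, MInd_pow, if_pos rfl] at h4
    rcases mul_eq_zero.1 h4 with h5 | h5
    · exact absurd (Nat.cast_eq_zero.1 h5) (h3 k).ne'
    · exact h5
  · intro l _ hl
    rw [h2, MInd_pow, if_neg hl.symm, zero_mul]
  · intro h5
    exact absurd hk h5

theorem FreeTwo_mul {G : Type*} [Group G] {a b : G}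
    (h : Function.Injective (FreeGroup.lift ![a, b] : FreeGroup (Fin 2) →* G)) :
    Function.Injective (FreeGroup.lift ![a, a * b] : FreeGroup (Fin 2) →* G) := by
  have h1 : (FreeGroup.lift ![a, a * b] : FreeGroup (Fin 2) →* G) =
      (FreeGroup.lift ![a, b]).comp (FreeGroup.lift ![(of 0 : FreeGroup (Fin 2)), of 0 * of 1]) := by
    refine FreeGroup.ext_hom _ _ fun k => ?_
    rw [MonoidHom.comp_apply, FreeGroup.lift_apply_of, FreeGroup.lift_apply_of]
    refine Fin.cases ?_ (fun k => ?_) k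
    · change a = FreeGroup.lift ![a, b] (of 0)
      rw [FreeGroup.lift_apply_of]
      rfl
    · obtain rfl : k = 0 := Subsingleton.elim _ _
      change a * b = FreeGroup.lift ![a, b] (of 0 * of 1)
      rw [_root_.map_mul, FreeGroup.lift_apply_of, FreeGroup.lift_apply_of]
      rfl
  rw [h1, MonoidHom.coe_comp]
  refine h.comp ?_
  have h2 : (FreeGroup.lift ![(of 0 : FreeGroup (Fin 2)), (of 0)⁻¹ * of 1]).comp
      (FreeGroup.lift ![(of 0 : FreeGroup (Fin 2)), of 0 * of 1]) = MonoidHom.id _ := by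
    refine FreeGroup.ext_hom _ _ fun k => ?_
    rw [MonoidHom.comp_apply, FreeGroup.lift_apply_of, MonoidHom.id_apply]
    refine Fin.cases ?_ (fun k => ?_) k
    · change FreeGroup.lift ![(of 0 : FreeGroup (Fin 2)), (of 0)⁻¹ * of 1] (of 0) = of 0
      rw [FreeGroup.lift_apply_of]
      rfl
    · obtain rfl : k = 0 := Subsingleton.elim _ _
      change FreeGroup.lift ![(of 0 : FreeGroup (Fin 2)), (of 0)⁻¹ * of 1] (of 0 * of 1) = of 1
      rw [_root_.map_mul, FreeGroup.lift_apply_of, FreeGroup.lift_apply_of]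
      change of 0 * ((of 0)⁻¹ * of 1) = (of 1 : FreeGroup (Fin 2))
      group
  intro v w hvw
  have h3 := congrArg (FreeGroup.lift ![(of 0 : FreeGroup (Fin 2)), (of 0)⁻¹ * of 1]) hvw
  rw [← MonoidHom.comp_apply, ← MonoidHom.comp_apply, h2] at h3
  exact h3

end Pool.Agent.Lib.MP_9dbb0e_al.DF
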