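import Pool.Agent.Lib.MP_9dbb0e_al.U
import Pool.Agent.Lib.MP_9dbb0e_al.D.MInd

/-!
# JOB AAlt: the alternative for a pair

PROOFS. `FreeTwo a b` is by definition the injectivity of `FreeGroup.lift ![a, b]`.
`FreeTwo.symm'`: compose with the automorphism exchanging the generators (`FreeGroup.freeGroupCongr (Equiv.swap 0 1)`; copy from T9.lean: `FreeGroup.lift ![b, a] = (FreeGroup.lift ![a, b]).comp (FreeGroup.freeGroupCongr (Equiv.swap (0 : Fin 2) 1)).toMonoidHom` by `FreeGroup.ext_hom`, `fin_cases i <;> simp`).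
`FreeTwo.inv'`: the same with `FreeGroup.lift ![(of 0)⁻¹, of 1]`, an involution.
`Alt.symm`, `Alt.inv`: (`(a⁻¹) ^ n = (a ^ n)⁻¹`, `Commute.inv_left`).
`Alt.pow`: `n` for `(a ^ i, b ^ j)`; take `N = n * (i * j)`: `a ^ N = ((a ^ i) ^ n) ^ j`, `b ^ N = ((b ^ j) ^ n) ^ i`; `Commute.pow_pow`, `FreeTwo_pow` (MInd.lean).
`Alt.conj`: `(g a g⁻¹) ^ n = g a ^ n g⁻¹` (`conj_pow`), `MulAut.conj g` is an injective homomorphism: `FreeTwo.of_map (MulAut.conj g).toMonoidHom`; `Commute` by injectivity.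
`Alt.of_map`: `f (a ^ n) = (f a) ^ n`, `FreeTwo.of_map f`; if `f (a ^ n)`, `f (b ^ n)` commute then `f (a ^ n * b ^ n * (a ^ n)⁻¹ * (b ^ n)⁻¹) = 1`, so `a ^ n, b ^ n` commute by the hypothesis.
`Alt.mul`: `n = 1` version: `Alt a (a * u)` if `a u = u a` or `FreeTwo a u` (`FreeTwo_mul` in MInd.lean; `pow_one`).
-/

set_option autoImplicit false

namespace Pool.Agent.Lib.MP_9dbb0e_al.DF

/-- some powers commute or are free -/
def Alt {G : Type*} [Group G] (a b : G) : Prop :=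
  ∃ n : ℕ, 0 < n ∧ (Commute (a ^ n) (b ^ n) ∨ FreeTwo (a ^ n) (b ^ n))

theorem PA_iff {G : Type*} [Group G] : PA G ↔ ∀ a b : G, Alt a b := Iff.rfl

theorem FreeTwo_symm {G : Type*} [Group G] {a b : G} (h : FreeTwo a b) : FreeTwo b a := by
  unfold FreeTwo at h ⊢
  have e : (FreeGroup.lift ![b, a] : FreeGroup (Fin 2) →* G) =
      (FreeGroup.lift ![a, b]).comp
        (FreeGroup.freeGroupCongr (Equiv.swap (0 : Fin 2) 1)).toMonoidHom := by
    refine FreeGroup.ext_hom _ _ ?_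
    intro i
    fin_cases i <;> simp
  rw [e]
  exact h.comp (FreeGroup.freeGroupCongr (Equiv.swap (0 : Fin 2) 1)).injective

theorem FreeTwo_inv {G : Type*} [Group G] {a b : G} (h : FreeTwo a⁻¹ b) : FreeTwo a b := by
  unfold FreeTwo at h ⊢
  obtain ⟨s, hs⟩ : ∃ s : FreeGroup (Fin 2) →* FreeGroup (Fin 2),
    s = FreeGroup.lift ![(FreeGroup.of 0)⁻¹, FreeGroup.of 1] := ⟨_, rfl⟩
  have s0 : s (FreeGroup.of 0) = (FreeGroup.of 0)⁻¹ := by rw [hs]; simp
  have s1 : s (FreeGroup.of 1) = FreeGroup.of 1 := by rw [hs]; simp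
  have hss : s.comp s = MonoidHom.id _ := by
    refine FreeGroup.ext_hom _ _ ?_
    rw [Fin.forall_fin_two]
    refine ⟨?_, ?_⟩
    · rw [MonoidHom.comp_apply, s0, map_inv, s0, inv_inv]; rfl
    · rw [MonoidHom.comp_apply, s1, s1]; rfl
  have hinj : Function.Injective s := by
    refine Function.LeftInverse.injective (g := s) fun x => ?_
    exact DFunLike.congr_fun hss x
  have e : (FreeGroup.lift ![a, b] : FreeGroup (Fin 2) →* G) =
      (FreeGroup.lift ![a⁻¹, b] : FreeGroup (Fin 2) →* G).comp s := by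
    refine FreeGroup.ext_hom _ _ ?_
    rw [Fin.forall_fin_two]
    refine ⟨?_, ?_⟩
    · rw [MonoidHom.comp_apply, s0, map_inv]; simp
    · rw [MonoidHom.comp_apply, s1]; simp
  rw [e]
  exact h.comp hinj

theorem Alt.symm {G : Type*} [Group G] {a b : G} (h : Alt a b) : Alt b a := by
  obtain ⟨n, hn, h⟩ := h
  exact ⟨n, hn, h.imp Commute.symm FreeTwo_symm⟩

theorem Alt.inv {G : Type*} [Group G] {a b : G} (h : Alt a⁻¹ b) : Alt a b := by
  obtain ⟨n, hn, h⟩ := h
  rw [inv_pow] at h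
  exact ⟨n, hn, h.imp Commute.inv_left_iff.1 FreeTwo_inv⟩

theorem Alt.pow {G : Type*} [Group G] {a b : G} (i j : ℕ) (hi : 0 < i) (hj : 0 < j)
    (h : Alt (a ^ i) (b ^ j)) : Alt a b := by
  obtain ⟨n, hn, h⟩ := h
  refine ⟨n * (i * j), Nat.mul_pos hn (Nat.mul_pos hi hj), ?_⟩
  have e1 : a ^ (n * (i * j)) = ((a ^ i) ^ n) ^ j := by
    rw [← pow_mul, ← pow_mul]
    congr 1
    ring
  have e2 : b ^ (n * (i * j)) = ((b ^ j) ^ n) ^ i := by
    rw [← pow_mul, ← pow_mul]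
    congr 1
    ring
  rw [e1, e2]
  rcases h with h | h
  · exact Or.inl (h.pow_pow j i)
  · exact Or.inr (FreeTwo_pow h j i hj hi)

theorem Alt.conj {G : Type*} [Group G] {a b : G} (g : G) (h : Alt (g * a * g⁻¹) (g * b * g⁻¹)) :
    Alt a b := by
  obtain ⟨n, hn, h⟩ := h
  rw [conj_pow, conj_pow] at h
  refine ⟨n, hn, ?_⟩
  rcases h with h | h
  · left
    have h1 : MulAut.conj g (a ^ n * b ^ n) = MulAut.conj g (b ^ n * a ^ n) := by
      rw [map_mul, map_mul]
      exact h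
    exact (MulAut.conj g).injective h1
  · right
    exact FreeTwo.of_map (MulAut.conj g).toMonoidHom h

theorem Alt.of_map {G H : Type*} [Group G] [Group H] (f : G →* H)
    (hf : ∀ a b : G, f (a * b * a⁻¹ * b⁻¹) = 1 → a * b = b * a) {a b : G} (h : Alt (f a) (f b)) :
    Alt a b := by
  obtain ⟨n, hn, h⟩ := h
  rw [← map_pow, ← map_pow] at h
  refine ⟨n, hn, ?_⟩
  rcases h with h | h
  · left
    refine hf _ _ ?_
    rw [map_mul, map_mul, map_mul, map_inv, map_inv, h.eq, mul_inv_cancel_right, mul_inv_cancel]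
  · right
    exact FreeTwo.of_map f h

theorem Alt.of_mul {G : Type*} [Group G] {a u : G} (h : a * u = u * a ∨ FreeTwo a u) :
    Alt a (a * u) := by
  refine ⟨1, one_pos, ?_⟩
  rw [pow_one, pow_one]
  rcases h with h | h
  · left
    exact (Commute.refl a).mul_right h
  · right
    exact FreeTwo_mul h

theorem Alt.of_comm_or {G : Type*} [Group G] {a u : G} (h : a * u = u * a ∨ FreeTwo a u) :
    Alt a u := by
  refine ⟨1, one_pos, ?_⟩
  rw [pow_one, pow_one]
  exact h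

end Pool.Agent.Lib.MP_9dbb0e_al.DF
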