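import Pool.Agent.Lib.MP_9dbb0e_al.D.NTr

/-!
# JOB NPar: parabolic matrices

`Tz k = (1, k; 0, 1)`.

PROOFS. `exists_par`: `A = (a b; c d)`, `a + d = 2`, `a d - b c = 1`. If `A = 1`: `g = 1`, `k = 0`. Otherwise there is a primitive vector `v = (p, q)` with `A v = v`: `(a - 1) p + b q = 0`, `c p + (d - 1) q = 0`, where `(a - 1)(d - 1) = b c`, `d - 1 = -(a - 1)`: so `(a - 1) ^ 2 = - b c`. If `b = 0` then `a = 1`, `v = (0, 1)`. If `b ≠ 0`:
 `v = (b, 1 - a) / gcd (b, 1 - a)`. (`c b + (d - 1) (1 - a) = b c - (1 - a) ^ 2.. = 0`: check.) By Bezout there are `r, s` with `p s - q r = 1` (`Int.gcd_eq_gcd_ab`, `Int.isCoprime_iff_gcd_eq_one`); `g⁻¹ = (p, r; q, s)`, so `g⁻¹ e₀ = v`, and `g A g⁻¹ e₀ = e₀`: first column `(1, 0)`; determinant one: `g A g⁻¹ = (1, k; 0, 1)`.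
`comm_Tz`: `B = (a b; c d)` commuting with `Tz k`, `k ≠ 0`: `(B Tz k) = (a, a k + b; c, c k + d)`, `(Tz k B) = (a + k c, b + k d; c, d)`: `k c = 0`, `a k = k d`: `c = 0`, `a = d`, `a + d = 2` gives `a = d = 1`: `B = Tz b`.
`par_pair`: if `A = B = 1`: `g = 1`. Otherwise (symmetric in `A, B`) let `A ≠ 1`: `exists_par` for `A` gives `k ≠ 0` (if `k = 0` then `A = 1`), `g B g⁻¹` commutes with `Tz k` and has trace `2` (`trZ_conj`).
-/

set_option autoImplicit false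

namespace Pool.Agent.Lib.MP_9dbb0e_al.DF

open Matrix

/-- the parabolic matrices -/
def Tz (k : ℤ) : Matrix.SpecialLinearGroup (Fin 2) ℤ := ⟨!![1, k; 0, 1], by simp⟩

private theorem NPar_Tz_zero : Tz 0 = 1 := by
  apply Subtype.ext
  ext i j
  fin_cases i <;> fin_cases j <;> simp [Tz]

private theorem NPar_ext (A B : Matrix.SpecialLinearGroup (Fin 2) ℤ) (h00 : A.1 0 0 = B.1 0 0)
    (h01 : A.1 0 1 = B.1 0 1) (h10 : A.1 1 0 = B.1 1 0) (h11 : A.1 1 1 = B.1 1 1) : A = B := by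
  apply Subtype.ext
  ext i j
  fin_cases i <;> fin_cases j
  · exact h00
  · exact h01
  · exact h10
  · exact h11

private theorem NPar_mul (A B : Matrix.SpecialLinearGroup (Fin 2) ℤ) (i j : Fin 2) :
    (A * B).1 i j = A.1 i 0 * B.1 0 j + A.1 i 1 * B.1 1 j := by
  change (A.1 * B.1) i j = _
  rw [Matrix.mul_apply, Fin.sum_univ_two]

/-- a primitive fixed vector -/
private theorem NPar_vec (n b c : ℤ) (h : n ^ 2 + b * c = 0) :
    ∃ p q r s : ℤ, p * s - q * r = 1 ∧ n * p + b * q = 0 ∧ c * p - n * q = 0 := by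
  by_cases hb : b = 0
  · subst hb
    have hn : n = 0 := by
      have h1 : n ^ 2 = 0 := by linarith
      exact pow_eq_zero_iff (two_ne_zero) |>.1 h1
    subst hn
    exact ⟨0, 1, -1, 0, by ring, by ring, by ring⟩
  · have hg : 0 < Int.gcd b n := Int.gcd_pos_of_ne_zero_left _ hb
    obtain ⟨b', n', h1, h2, h3⟩ := Int.exists_gcd_one hg
    obtain ⟨g, hgd⟩ : ∃ g : ℤ, g = (Int.gcd b n : ℤ) := ⟨_, rfl⟩
    have hg0 : g ≠ 0 := by
      rw [hgd]
      exact_mod_cast hg.ne'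
    rw [← hgd] at h2 h3
    have h4 : (Int.gcd b' n' : ℤ) = b' * Int.gcdA b' n' + n' * Int.gcdB b' n' :=
      Int.gcd_eq_gcd_ab b' n'
    rw [h1] at h4
    refine ⟨b', -n', Int.gcdB b' n', Int.gcdA b' n', ?_, ?_, ?_⟩
    · push_cast at h4
      linear_combination -h4
    · rw [h2, h3]; ring
    · have h5 : g * (c * b' - n * -n') = 0 := by
        have h6 : g * (c * b' - n * -n') = c * (b' * g) + n * (n' * g) := by ring
        rw [h6, ← h2, ← h3]
        linear_combination h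
      exact (mul_eq_zero.1 h5).resolve_left hg0

theorem exists_par (A : Matrix.SpecialLinearGroup (Fin 2) ℤ) (h : trZ A = 2) :
    ∃ (g : Matrix.SpecialLinearGroup (Fin 2) ℤ) (k : ℤ), g * A * g⁻¹ = Tz k := by
  have hdet : A.1 0 0 * A.1 1 1 - A.1 0 1 * A.1 1 0 = 1 := by
    have h1 := A.2
    rwa [Matrix.det_fin_two] at h1
  unfold trZ at h
  obtain ⟨p, q, r, s, h1, h2, h3⟩ := NPar_vec (A.1 0 0 - 1) (A.1 0 1) (A.1 1 0) (by
    have hd : A.1 1 1 = 2 - A.1 0 0 := by linarith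
    rw [hd] at hdet
    linear_combination -hdet)
  have hd : A.1 1 1 = 2 - A.1 0 0 := by linarith
  refine ⟨⟨!![s, -r; -q, p], ?_⟩, s * (s * A.1 0 1 - r * (A.1 1 1 - 1)) +
    r * (s * (A.1 0 0 - 1) - r * A.1 1 0), ?_⟩
  · rw [Matrix.det_fin_two]
    change s * p - -r * -q = 1
    linear_combination h1
  · rw [mul_inv_eq_iff_eq_mul]
    obtain ⟨g, hg⟩ : ∃ g : Matrix.SpecialLinearGroup (Fin 2) ℤ, g = ⟨!![s, -r; -q, p], by
      rw [Matrix.det_fin_two]
      change s * p - -r * -q = 1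
      linear_combination h1⟩ := ⟨_, rfl⟩
    rw [← hg]
    have g00 : g.1 0 0 = s := by rw [hg]; rfl
    have g01 : g.1 0 1 = -r := by rw [hg]; rfl
    have g10 : g.1 1 0 = -q := by rw [hg]; rfl
    have g11 : g.1 1 1 = p := by rw [hg]; rfl
    obtain ⟨k, hk⟩ : ∃ k : ℤ, k = s * (s * A.1 0 1 - r * (A.1 1 1 - 1)) +
      r * (s * (A.1 0 0 - 1) - r * A.1 1 0) := ⟨_, rfl⟩
    rw [← hk]
    have t00 : (Tz k).1 0 0 = 1 := rfl
    have t01 : (Tz k).1 0 1 = k := rfl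
    have t10 : (Tz k).1 1 0 = 0 := rfl
    have t11 : (Tz k).1 1 1 = 1 := rfl
    apply NPar_ext
    · rw [NPar_mul, NPar_mul, g00, g01, g10, t00, t01, hk, hd]
      linear_combination (s * (A.1 0 0 - 1) - r * A.1 1 0) * (-h1) + s * (s * h2 - r * h3) + 0 * h1
    · rw [NPar_mul, NPar_mul, g00, g01, g11, t00, t01, hk, hd]
      linear_combination (s * A.1 0 1 - r * (1 - A.1 0 0)) * (-h1) - r * (s * h2 - r * h3) + 0 * h1
    · rw [NPar_mul, NPar_mul, g10, g11, g00, t10, t11]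
      linear_combination h3
    · rw [NPar_mul, NPar_mul, g10, g11, g01, t10, t11, hd]
      linear_combination -h2

theorem comm_Tz (B : Matrix.SpecialLinearGroup (Fin 2) ℤ) (h : trZ B = 2) (k : ℤ) (hk : k ≠ 0)
    (hc : B * Tz k = Tz k * B) : ∃ l, B = Tz l := by
  have t00 : (Tz k).1 0 0 = 1 := rfl
  have t01 : (Tz k).1 0 1 = k := rfl
  have t10 : (Tz k).1 1 0 = 0 := rfl
  have t11 : (Tz k).1 1 1 = 1 := rfl
  have h00 := congrArg (fun X : Matrix.SpecialLinearGroup (Fin 2) ℤ => X.1 0 0) hc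
  have h01 := congrArg (fun X : Matrix.SpecialLinearGroup (Fin 2) ℤ => X.1 0 1) hc
  simp only [NPar_mul, t00, t01, t10, t11] at h00 h01
  unfold trZ at h
  have hc0 : B.1 1 0 = 0 := by
    have h1 : k * B.1 1 0 = 0 := by linarith
    exact (mul_eq_zero.1 h1).resolve_left hk
  have had : B.1 0 0 = B.1 1 1 := by
    have h1 : k * (B.1 0 0 - B.1 1 1) = 0 := by linarith
    have h2 := (mul_eq_zero.1 h1).resolve_left hk
    linarith
  refine ⟨B.1 0 1, NPar_ext _ _ ?_ rfl ?_ ?_⟩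
  · change B.1 0 0 = 1
    linarith
  · exact hc0
  · change B.1 1 1 = 1
    linarith

theorem par_pair (A B : Matrix.SpecialLinearGroup (Fin 2) ℤ) (hA : trZ A = 2) (hB : trZ B = 2)
    (hc : A * B = B * A) : ∃ (g : Matrix.SpecialLinearGroup (Fin 2) ℤ) (k l : ℤ),
      g * A * g⁻¹ = Tz k ∧ g * B * g⁻¹ = Tz l := by
  by_cases h1 : A = 1
  · obtain ⟨g, k, hk⟩ := exists_par B hB
    refine ⟨g, 0, k, ?_, hk⟩
    rw [h1, mul_one, mul_inv_cancel, NPar_Tz_zero]
  · obtain ⟨g, k, hk⟩ := exists_par A hA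
    have hk0 : k ≠ 0 := by
      rintro rfl
      apply h1
      rw [NPar_Tz_zero] at hk
      have h2 : g * A = g := by
        rw [mul_inv_eq_iff_eq_mul, one_mul] at hk
        exact hk
      exact mul_eq_left.1 h2
    have hcom : (g * B * g⁻¹) * Tz k = Tz k * (g * B * g⁻¹) := by
      rw [← hk]
      have e1 : g * B * g⁻¹ * (g * A * g⁻¹) = g * (B * A) * g⁻¹ := by group
      have e2 : g * A * g⁻¹ * (g * B * g⁻¹) = g * (A * B) * g⁻¹ := by group
      rw [e1, e2, hc]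
    obtain ⟨l, hl⟩ := comm_Tz (g * B * g⁻¹) (by rw [trZ_conj]; exact hB) k hk0 hcom
    exact ⟨g, k, l, hk, hl⟩

end Pool.Agent.Lib.MP_9dbb0e_al.DF
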