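import Mathlib

/-!
# JOB HAr: the form of a hyperbolic integral matrix has no integral zeros

PROOF. Let `Q = c w₀ ^ 2 + (d - a) w₀ w₁ - b w₁ ^ 2 = 0`, `w ≠ 0`. `4 c Q = (2 c w₀ + (d - a) w₁) ^ 2 - D w₁ ^ 2`, `D = (d - a) ^ 2 + 4 b c = (a + d) ^ 2 - 4`. If `w₁ = 0`: `c w₀ ^ 2 = 0`, `c = 0`, `a d = 1`, so `a + d = 2` or `-2` (`Int.mul_eq_one_iff_eq_one_or_neg_one`), contradiction. If `w₁ ≠ 0`:
`w₁ ^ 2 ∣ (..) ^ 2`, so `w₁ ∣ 2 c w₀ + (d - a) w₁` (`Int.pow_dvd_pow_iff`), `2 c w₀ + (d - a) w₁ = s w₁`, `D = s ^ 2`: `(a + d) ^ 2 - s ^ 2 = 4`; with `t = a + d ≥ 3` and `S = |s|`: `S < t`, so `S ≤ t - 1`, `t ^ 2 - S ^ 2 ≥ 2 t - 1 ≥ 5 > 4`, contradiction (`nlinarith`).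
-/

set_option autoImplicit false

namespace Pool.Agent.Lib.MP_9dbb0e_al.DF

theorem form_ne_zero (a b c d w₀ w₁ : ℤ) (h : a * d - b * c = 1) (ht : 2 < a + d)
    (hw : w₀ ≠ 0 ∨ w₁ ≠ 0) : w₀ * (c * w₀ + d * w₁) - w₁ * (a * w₀ + b * w₁) ≠ 0 := by
  intro hQ
  by_cases h1 : w₁ = 0
  · subst h1
    have h2 : w₀ ≠ 0 := hw.resolve_right fun h => h rfl
    have h3 : w₀ * w₀ * c = 0 := by linear_combination hQ
    have h4 : c = 0 := (mul_eq_zero.1 h3).resolve_left (mul_ne_zero h2 h2)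
    rw [h4, mul_zero, sub_zero] at h
    rcases Int.mul_eq_one_iff_eq_one_or_neg_one.1 h with ⟨h5, h6⟩ | ⟨h5, h6⟩ <;> omega
  · have h2 : (2 * c * w₀ + (d - a) * w₁) ^ 2 = ((a + d) ^ 2 - 4) * w₁ ^ 2 := by
      linear_combination 4 * c * hQ - 4 * w₁ ^ 2 * h
    have h3 : w₁ ∣ 2 * c * w₀ + (d - a) * w₁ := by
      rw [← Int.pow_dvd_pow_iff (n := 2) (by norm_num), h2]
      exact Dvd.intro_left _ rfl
    obtain ⟨s, hs⟩ := h3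
    have h4 : w₁ ^ 2 * (s ^ 2 - ((a + d) ^ 2 - 4)) = 0 := by
      rw [hs] at h2
      linear_combination h2
    have h5 : s ^ 2 - ((a + d) ^ 2 - 4) = 0 :=
      (mul_eq_zero.1 h4).resolve_left (pow_ne_zero 2 h1)
    have h6 : |s| ^ 2 = (a + d) ^ 2 - 4 := by
      rw [sq_abs]; linear_combination h5
    have h7 : 0 ≤ |s| := abs_nonneg s
    have h8 : |s| < a + d := by nlinarith
    have h9 : |s| ≤ a + d - 1 := by omega
    nlinarith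

end Pool.Agent.Lib.MP_9dbb0e_al.DF
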