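import Pool.Agent.Lib.MP_9dbb0e_al.D.HDefs

/-!
# JOB HFib: the representation in the fibre over a fixed point

PROOF. `H = {g | (T g (τ, 0)).1 = τ}` is a subgroup: every `T g` is the map of a bundle map `B`, so `(T g (x, v)).1 = B.β x` does not depend on `v`; `T (g * h) = T g * T h`; for the inverse: `T g⁻¹ (τ, 0)`: `(T g⁻¹ (τ, 0)).1 = (T g⁻¹ (T g (τ, v))).1` where `T g (τ, v) = (τ, ..)`, and the first component does not depend on the vector.
`F g`: the matrix `B.M τ` for a bundle map `B` of `g` (`Classical.choose`); it does not depend on `B`: `B.M τ *ᵥ v = (T g (τ, v)).2` for all `v` (`Matrix.ext_of_mulVec_single` or `Matrix.toLin'.injective`). It is multiplicative: `T (g * h) (τ, v) = T g (τ, (F h) *ᵥ v) = (τ, F g *ᵥ (F h *ᵥ v))`. Invertible: `det = 1`: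
use `Matrix.GeneralLinearGroup.mkOfDetNeZero` or `MonoidHom.toHomUnits` for the monoid homomorphism `H →* Mt` (every monoid homomorphism from a group to a monoid goes into the units: `MonoidHom.toHomUnits`).
-/

set_option autoImplicit false

namespace Pool.Agent.Lib.MP_9dbb0e_al.DF

open Matrix

private theorem HFib_ext (A A' : Mt) (h : ∀ v, A *ᵥ v = A' *ᵥ v) : A = A' :=
  Matrix.ext_of_mulVec_single fun _ => h _

theorem exists_fib {G : Type} [Group G] (T : G →* Equiv.Perm (V3 × V3))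
    (hT : ∀ g, ∃ B : Bun, ∀ p, T g p = B.app p) (τ : V3) :
    ∃ (H : Subgroup G) (F : H →* GL (Fin 3) ℝ), (∀ g, g ∈ H ↔ (T g (τ, 0)).1 = τ) ∧
      ∀ (g : H) (B : Bun), (∀ p, T g.1 p = B.app p) → (F g : Mt) = B.M τ := by
  choose Bn hB using hT
  have h1 : ∀ g x v, (T g (x, v)).1 = (Bn g).β x := fun g x v => by
    rw [hB]
    rfl
  have h2 : ∀ g x v, (T g (x, v)).2 = (Bn g).M x *ᵥ v := fun g x v => by
    rw [hB]
    rfl
  obtain ⟨H, hH⟩ : ∃ H : Subgroup G, ∀ g, g ∈ H ↔ (T g (τ, 0)).1 = τ := by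
    refine ⟨{ carrier := {g | (T g (τ, 0)).1 = τ}, mul_mem' := ?_, one_mem' := ?_, inv_mem' := ?_ }, fun _ => Iff.rfl⟩
    · intro g h hg hh
      simp only [Set.mem_ofPred_eq] at hg hh ⊢
      have h3 : T (g * h) (τ, 0) = T g (T h (τ, 0)) := by
        rw [map_mul]
        rfl
      have h4 : T h (τ, 0) = (τ, (T h (τ, 0)).2) := Prod.ext hh rfl
      rw [h3, h4, h1]
      rw [h1] at hg
      exact hg
    · simp only [Set.mem_ofPred_eq]
      rw [map_one]
      rfl
    · intro g hg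
      simp only [Set.mem_ofPred_eq] at hg ⊢
      have h4 : T g (τ, 0) = (τ, (T g (τ, 0)).2) := Prod.ext hg rfl
      have h5 : T g⁻¹ (T g (τ, 0)) = (τ, 0) := by
        rw [map_inv]
        exact (T g).symm_apply_apply _
      have h6 := congrArg Prod.fst h5
      rw [h4, h1] at h6
      rw [h1]
      exact h6
  have h3 : ∀ g : H, ∀ v, T g.1 (τ, v) = (τ, (Bn g.1).M τ *ᵥ v) := by
    intro g v
    refine Prod.ext ?_ (h2 _ _ _)
    have h4 := (hH g.1).1 g.2
    rw [h1] at h4
    rw [h1]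
    exact h4
  obtain ⟨F0, hF0⟩ : ∃ F0 : H →* Mt, ∀ g, F0 g = (Bn g.1).M τ := by
    refine ⟨{ toFun := fun g => (Bn g.1).M τ, map_one' := ?_, map_mul' := ?_ }, fun _ => rfl⟩
    · refine HFib_ext _ _ fun v => ?_
      have h4 := congrArg Prod.snd (h3 1 v)
      rw [Matrix.one_mulVec]
      refine h4.symm.trans ?_
      rw [OneMemClass.coe_one, map_one]
      rfl
    · intro g h
      refine HFib_ext _ _ fun v => ?_
      have h4 := congrArg Prod.snd (h3 (g * h) v)
      rw [← Matrix.mulVec_mulVec]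
      refine h4.symm.trans ?_
      have h5 : T (g * h).1 (τ, v) = T g.1 (T h.1 (τ, v)) := by
        rw [Subgroup.coe_mul, map_mul]
        rfl
      rw [h5, h3, h3]
  refine ⟨H, MonoidHom.toHomUnits F0, hH, fun g B hg => ?_⟩
  rw [MonoidHom.coe_toHomUnits, hF0]
  refine HFib_ext _ _ fun v => ?_
  rw [← h2, hg]
  rfl

end Pool.Agent.Lib.MP_9dbb0e_al.DF
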