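import Pool.Agent.Lib.MP_9dbb0e_al.D.HEig

/-!
# JOB HCom: a common isotropic eigenvector makes the trace of the commutator three

PROOF. Let `P` be the matrix with the columns `p, e, m` (`P = Matrix.of ![p, e, m]` transposed). `P` is invertible: its columns span (`Eig.span`), or: `Pᵀ * B * P = B'` with `B' = [[0, 0, s], [0, r, 0], [s, 0, 0]]`, `s = bl B p m ≠ 0`, `r = bl B e e ≠ 0`, has determinant `- s ^ 2 r ≠ 0`, so `det P ≠ 0`.
`g' = P⁻¹ g P = diag (l, 1, l⁻¹)`. `k' = P⁻¹ k P`; first column `(ν, 0, 0)`. `k'ᵀ B' k' = B'` (from `kᵀ B k = B`): with `k' = [[ν, a, b], [0, c, d], [0, x, y]]`: entry (0,1): `ν s x = 0`, so `x = 0`; entry (1,1): `r c ^ 2 = r` (with `x = 0`), so `c ^ 2 = 1`; entry (0,2): `ν s y = s`, so `y = ν⁻¹`; `det k' = det k = 1`: `ν c y = 1`, so `c = 1`.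
Then `c' = P⁻¹ c P` satisfies `c' k' g' = g' k'`, so `c' = g' k' (k' g')⁻¹`. Both `g' k'` and `k' g'` are upper triangular with the diagonal `(l ν, 1, (l ν)⁻¹)`: so `c'` is upper triangular with diagonal `(1, 1, 1)`: from `c' * (k' g') = g' k'` compare the entries column by column: column 0: `c' i 0 * (l ν) = (g' k') i 0`: `c' 0 0 = 1`, `c' 1 0 = c' 2 0 = 0`;
 column 1: `c' i 0 * (k' g') 0 1 + c' i 1 * 1 = (g' k') i 1`: `c' 1 1 = 1`, `c' 2 1 = 0`; column 2: `c' 2 2 * (l ν)⁻¹ = (l ν)⁻¹`. So `trace c = trace c' = 3` (`Matrix.trace_mul_comm`).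
-/

set_option autoImplicit false

namespace Pool.Agent.Lib.MP_9dbb0e_al.DF

open Matrix

/-- the matrix with the columns `p, e, m` -/
private def HCom_P (p e m : V3) : Mt := Matrix.of fun i j => (![p, e, m] : Fin 3 → V3) j i

private theorem HCom_P_mulVec (p e m w : V3) : HCom_P p e m *ᵥ w = w 0 • p + w 1 • e + w 2 • m := by
  funext i
  simp only [HCom_P, Matrix.mulVec, dotProduct, Fin.sum_univ_three, Matrix.of_apply, Matrix.cons_val_zero,
    Matrix.cons_val_one, Matrix.cons_val, Pi.add_apply, Pi.smul_apply, smul_eq_mul]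
  ring

private theorem HCom_mul (A K : Mt) (p e m : V3) (h0 : A *ᵥ p = K 0 0 • p + K 1 0 • e + K 2 0 • m)
    (h1 : A *ᵥ e = K 0 1 • p + K 1 1 • e + K 2 1 • m) (h2 : A *ᵥ m = K 0 2 • p + K 1 2 • e + K 2 2 • m) :
    A * HCom_P p e m = HCom_P p e m * K := by
  ext i j
  have hl : (A * HCom_P p e m) i j = (A *ᵥ ((![p, e, m] : Fin 3 → V3) j)) i := rfl
  have hr : (HCom_P p e m * K) i j = (HCom_P p e m *ᵥ (fun t => K t j)) i := rfl
  rw [hl, hr, HCom_P_mulVec]
  fin_cases j
  · exact congrFun h0 i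
  · exact congrFun h1 i
  · exact congrFun h2 i

private theorem HCom_unit {B g : Mt} {l : ℝ} {p e m : V3} (h : Eig B g l p e m) : IsUnit (HCom_P p e m) := by
  rw [← Matrix.mulVec_surjective_iff_isUnit]
  intro v
  obtain ⟨x, y, z, hv⟩ := h.span v
  refine ⟨![x, z, y], ?_⟩
  rw [HCom_P_mulVec, hv]
  simp only [Matrix.cons_val_zero, Matrix.cons_val_one, Matrix.cons_val]
  abel

theorem trace_comm {B g k c : Mt} (hs : Bᵀ = B) (hk : kᵀ * B * k = B) (hd : k.det = 1) {l : ℝ}
    {p e m : V3} (h : Eig B g l p e m) {ν : ℝ} (hν : ν ≠ 0) (hp : k *ᵥ p = ν • p)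
    (hc : c * (k * g) = g * k) : c.trace = 3 := by
  have hP := HCom_unit h
  have hPd : (HCom_P p e m).det ≠ 0 := ((Matrix.isUnit_iff_isUnit_det _).1 hP).ne_zero
  obtain ⟨a1, x1, b1, he⟩ := h.span (k *ᵥ e)
  obtain ⟨a2, y2, d2, hm⟩ := h.span (k *ᵥ m)
  have hx1 : x1 = 0 := by
    have h1 := bl_g hk p e
    rw [hp, he, bl_smul_left, bl_add_right, bl_add_right, bl_smul_right, bl_smul_right, bl_smul_right, h.pp, h.pe,
      mul_zero, mul_zero, zero_add, add_zero] at h1
    rcases mul_eq_zero.1 h1 with h2 | h2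
    · exact absurd h2 hν
    · rcases mul_eq_zero.1 h2 with h3 | h3
      · exact h3
      · exact absurd h3 h.pm
  have hy2 : ν * y2 = 1 := by
    have h1 := bl_g hk p m
    rw [hp, hm, bl_smul_left, bl_add_right, bl_add_right, bl_smul_right, bl_smul_right, bl_smul_right, h.pp, h.pe,
      mul_zero, mul_zero, zero_add, add_zero, ← mul_assoc] at h1
    exact mul_right_cancel₀ h.pm (h1.trans (one_mul _).symm)
  have hb1 : b1 = 1 := by
    have h1 := HCom_mul k !![ν, a1, a2; 0, b1, d2; 0, x1, y2] p e m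
      (by
        rw [hp]
        simp)
      (by
        rw [he]
        simp only [Matrix.of_apply, Matrix.cons_val', Matrix.cons_val_zero, Matrix.cons_val_one, Matrix.cons_val]
        abel)
      (by
        rw [hm]
        simp only [Matrix.of_apply, Matrix.cons_val', Matrix.cons_val_zero, Matrix.cons_val_one, Matrix.cons_val]
        abel)
    have h2 := congrArg Matrix.det h1
    rw [Matrix.det_mul, Matrix.det_mul, hd, one_mul, Matrix.det_fin_three !![ν, a1, a2; 0, b1, d2; 0, x1, y2]] at h2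
    simp only [Matrix.of_apply, Matrix.cons_val', Matrix.cons_val_zero, Matrix.cons_val_one, Matrix.cons_val] at h2
    rw [hx1] at h2
    have h3 : (HCom_P p e m).det * (ν * y2 * b1) = (HCom_P p e m).det * 1 := by
      rw [mul_one]
      refine Eq.trans ?_ h2.symm
      ring
    have h4 := mul_left_cancel₀ hPd h3
    rw [hy2, one_mul] at h4
    exact h4
  have hy0 : y2 ≠ 0 := by
    intro h1
    rw [h1, mul_zero] at hy2
    exact zero_ne_one hy2
  rw [hx1, hb1, zero_smul, add_zero, one_smul] at he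
  have hv : ∀ v : V3, c *ᵥ (k *ᵥ (g *ᵥ v)) = g *ᵥ (k *ᵥ v) := by
    intro v
    rw [Matrix.mulVec_mulVec, Matrix.mulVec_mulVec, Matrix.mulVec_mulVec, Matrix.mul_assoc, hc]
  have cp : c *ᵥ p = p := by
    have h1 := hv p
    rw [h.gp, Matrix.mulVec_smul, hp, Matrix.mulVec_smul, Matrix.mulVec_smul, Matrix.mulVec_smul, h.gp, smul_smul,
      smul_smul, mul_comm ν l] at h1
    exact smul_right_injective _ (mul_ne_zero h.l0 hν) h1
  have ce : c *ᵥ e = e + (a1 * l - a1) • p := by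
    have h1 := hv e
    rw [h.ge, he, Matrix.mulVec_add, Matrix.mulVec_add, Matrix.mulVec_smul, Matrix.mulVec_smul, cp, h.gp, h.ge,
      smul_smul] at h1
    rw [sub_smul]
    have h2 : c *ᵥ e = a1 • p + c *ᵥ e - a1 • p := by abel
    rw [h2, h1]
    abel
  obtain ⟨α, hα⟩ : ∃ α, α = a1 * l - a1 := ⟨_, rfl⟩
  rw [← hα] at ce
  have cm : ∃ X Y : ℝ, c *ᵥ m = m + X • p + Y • e := by
    have h1 := hv m
    rw [h.gm, Matrix.mulVec_smul, hm, Matrix.mulVec_smul, Matrix.mulVec_add, Matrix.mulVec_add, Matrix.mulVec_add,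
      Matrix.mulVec_add, Matrix.mulVec_smul, Matrix.mulVec_smul, Matrix.mulVec_smul, Matrix.mulVec_smul,
      Matrix.mulVec_smul, Matrix.mulVec_smul, cp, ce, h.gp, h.gm, h.ge] at h1
    refine ⟨y2⁻¹ * (l * a2 * l - a2 - d2 * α), y2⁻¹ * (l * d2 - d2), ?_⟩
    funext i
    have h2 := congrFun h1 i
    simp only [Pi.add_apply, Pi.smul_apply, smul_eq_mul] at h2 ⊢
    have hl := mul_inv_cancel₀ h.l0
    have hy := mul_inv_cancel₀ hy0
    apply mul_left_cancel₀ hy0
    have h3 := congrArg (fun t => l * t) h2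
    linear_combination h3 - (a2 * p i + y2 * (c *ᵥ m) i + d2 * (e i + α * p i) - y2 * m i) * hl
      - ((l * a2 * l - a2 - d2 * α) * p i + (l * d2 - d2) * e i) * hy
  obtain ⟨X, Y, cm⟩ := cm
  have h1 := HCom_mul c !![1, α, X; 0, 1, Y; 0, 0, 1] p e m
    (by
      rw [cp]
      simp)
    (by
      rw [ce]
      simp only [Matrix.of_apply, Matrix.cons_val', Matrix.cons_val_zero, Matrix.cons_val_one, Matrix.cons_val,
        one_smul, zero_smul]
      abel)
    (by
      rw [cm]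
      simp only [Matrix.of_apply, Matrix.cons_val', Matrix.cons_val_zero, Matrix.cons_val_one, Matrix.cons_val,
        one_smul]
      abel)
  have hu : IsUnit (HCom_P p e m).det := (Matrix.isUnit_iff_isUnit_det _).1 hP
  have h2 : c = HCom_P p e m * !![1, α, X; 0, 1, Y; 0, 0, 1] * (HCom_P p e m)⁻¹ := by
    rw [← h1, Matrix.mul_assoc, Matrix.mul_nonsing_inv _ hu, Matrix.mul_one]
  rw [h2, Matrix.trace_mul_comm, ← Matrix.mul_assoc, Matrix.nonsing_inv_mul _ hu, Matrix.one_mul,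
    Matrix.trace_fin_three]
  simp only [Matrix.of_apply, Matrix.cons_val', Matrix.cons_val_zero, Matrix.cons_val_one, Matrix.cons_val]
  norm_num

/-- the eigenvectors with `p` and `m` exchanged -/
theorem Eig.swap {B g : Mt} (hs : Bᵀ = B) {l : ℝ} {p e m : V3} (h : Eig B g l p e m) :
    Eig B g l⁻¹ m e p := by
  refine ⟨inv_ne_zero h.l0, h.gm, ?_, h.ge, h.mm, h.pp, h.me, h.pe, ?_, h.ee, fun v => ?_⟩
  · rw [inv_inv]
    exact h.gp
  · rw [bl_symm hs]
    exact h.pm
  · obtain ⟨x, y, z, hv⟩ := h.span v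
    refine ⟨y, x, z, ?_⟩
    rw [hv, add_comm (x • p) (y • m)]

end Pool.Agent.Lib.MP_9dbb0e_al.DF
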