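import Pool.Agent.Lib.MP_9dbb0e_al.D.HPp
import Pool.Agent.Lib.MP_9dbb0e_al.D.HCom

/-!
# JOB HSo: two isometries with traces bigger than three whose commutator has not trace three

PROOF. `exists_eig` for `g` and `k`: `l, p, e, m` and `l', q, f, n`. `pp_core`: the conditions `h1 .. h4`: suppose `q = s • p`; then `s ≠ 0` (`Eig.ne`) and `k *ᵥ p = l' • p`; with `c = g k g⁻¹ k⁻¹`, `c * (k * g) = g * k`, `trace_comm` gives `trace c = 3`, contradiction.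
`n = s • p`: `k *ᵥ p = l'⁻¹ • p`. `q = s • m`, `n = s • m`: use `Eig.swap` for `g`.
-/

set_option autoImplicit false

namespace Pool.Agent.Lib.MP_9dbb0e_al.DF

open Matrix

private theorem HSo_ev (K : Mt) (v w : V3) (s ν : ℝ) (hv : v ≠ 0) (h : v = s • w)
    (hK : K *ᵥ v = ν • v) : K *ᵥ w = ν • w := by
  have hs : s ≠ 0 := by
    rintro rfl
    exact hv (by rw [h, zero_smul])
  have hw : w = s⁻¹ • v := by rw [h, smul_smul, inv_mul_cancel₀ hs, one_smul]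
  rw [hw, mulVec_smul, hK, smul_comm]

theorem pp_SO (B : Mt) (hs : Bᵀ = B) (hB : B.det ≠ 0) (g k : GL (Fin 3) ℝ)
    (hg : (g : Mt)ᵀ * B * (g : Mt) = B) (hk : (k : Mt)ᵀ * B * (k : Mt) = B)
    (hgd : (g : Mt).det = 1) (hkd : (k : Mt).det = 1) (hgt : 3 < (g : Mt).trace)
    (hkt : 3 < (k : Mt).trace) (hc : ((g * k * g⁻¹ * k⁻¹ : GL (Fin 3) ℝ) : Mt).trace ≠ 3) :
    ∃ N : ℕ, 0 < N ∧ FreeTwo (g ^ N) (k ^ N) := by
  obtain ⟨l, p, e, m, hl, h⟩ := exists_eig B g hs hB hg hgd hgt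
  obtain ⟨l', q, f, n, hl', h'⟩ := exists_eig B k hs hB hk hkd hkt
  have hcc : ((g * k * g⁻¹ * k⁻¹ : GL (Fin 3) ℝ) : Mt) * ((k : Mt) * (g : Mt)) =
      (g : Mt) * (k : Mt) := by
    have h1 : (g * k * g⁻¹ * k⁻¹) * (k * g) = g * k := by group
    have h2 := congrArg (fun x : GL (Fin 3) ℝ => (x : Mt)) h1
    simpa only [Units.val_mul] using h2
  have key : ∀ (L : ℝ) (P E M : V3), Eig B (g : Mt) L P E M → ∀ ν : ℝ, ν ≠ 0 →
      (k : Mt) *ᵥ P = ν • P → False := fun L P E M hE ν hν hP =>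
    hc (trace_comm hs hk hkd hE hν hP hcc)
  have hsw := h.swap hs
  have hne := h'.ne
  refine pp_core hs g k hg hk h hl h' hl' ?_ ?_ ?_ ?_
  · intro s hq
    exact key l p e m h l' h'.l0 (HSo_ev _ q p s l' hne.1 hq h'.gp)
  · intro s hq
    exact key l⁻¹ m e p hsw l' h'.l0 (HSo_ev _ q m s l' hne.1 hq h'.gp)
  · intro s hn
    exact key l p e m h l'⁻¹ (inv_ne_zero h'.l0) (HSo_ev _ n p s l'⁻¹ hne.2.1 hn h'.gm)
  · intro s hn
    exact key l⁻¹ m e p hsw l'⁻¹ (inv_ne_zero h'.l0) (HSo_ev _ n m s l'⁻¹ hne.2.1 hn h'.gm)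

end Pool.Agent.Lib.MP_9dbb0e_al.DF
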