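import Pool.Agent.Lib.MP_9dbb0e_al.D.HMa
import Pool.Agent.Lib.MP_9dbb0e_al.D.HAr
import Pool.Agent.Lib.MP_9dbb0e_al.D.HSo
import Pool.Agent.Lib.MP_9dbb0e_al.D.HFib

/-!
# JOB HMb: PART H, a hyperbolic element and an element with the same or trivial linear part, whose commutator is a nontrivial translation

`Lg g` is the integral matrix of `g` at `t0`. `embZ`, `smZ`, `lmZ` are the integral versions of `emb`, `sm`, `lm`.

PROOF. Cast to the reals: `toR v i = (v i : ℝ)`; `(L.map Int.cast) *ᵥ toR v = toR (L *ᵥ v)`; the real vectors with integral coordinates span, so the identities `hσ`, `ha`, `hb`, `hc` hold over `ℝ` too (they are linear in `v`: check on `Pi.single i 1`; for `emb w` on `w = (1, 0), (0, 1)`): private lemmas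
 `sm (A *ᵥ v) = sm v`, `A *ᵥ emb w = emb (lm x y z u w)`, `C *ᵥ v = v + sm v • emb (t)`.
(1) `trace (Lg a) = 1 + x + u > 3` (over ℝ): the trace of a 3x3 matrix `A` with `sm (A v) = sm v` and `A emb w = emb (lm w)`: from `A (1,-1,0) = (x, z - x, -z)`, `A (0,1,-1) = (y, u - y, -u)`, column sums one: `A 0 0 - A 0 1 = x`, `A 1 0 - A 1 1 = z - x`, `A 2 0 - A 2 1 = - z`, `A 0 1 - A 0 2 = y`, `A 1 1 - A 1 2 = u - y`, `A 2 1 - A 2 2 = - u`,
  so `trace = A 0 0 + A 1 1 + A 2 2 = (x + A 0 1) + A 1 1 + (u + A 2 1) = x + u + 1`.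
(2) `exists_fixed_curve` for the bundle map of `a` (`δ = dl0 x y z u`, `h`, `ht` cast): `X : ℝ → V3`. For small `ε ≠ 0`: `β_a (X ε) = X ε` (E1), `det (Gm (X ε)) ≠ 0` (E2), hence `β_b (X ε) = X ε` (by `hb`: `(T b p).1 = (T a p).1` or `= p.1`), hence `a, b ∈ H` for the subgroup `H` of `exists_fib` at `τ = X ε`, so the commutator `c ∈ H`: `β_c (X ε) = X ε` (E3).
(3) `trace_curve` for the bundle map of `c` with `v = emb t`: derivative `- qf δ (emb t) ≠ 0` (`qf_dl0` and `form_ne_zero`, cast): so `trace (M_c (X ε)) ≠ 3` for small `ε ≠ 0` (E4) (`HasDerivAt.eventually_ne`).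
(4) `trace_tendsto`: `trace (M_a (X ε)) > 3` for small `ε` (E5).
(5) `trace (M_b (X ε)) > 3` frequently: first case of `hb`: as in (4), eventually. Second case: `Lg b v = v + smZ v • s`, `s = Lg b e₀ - e₀ = embZ t'` with `smZ s = 0` (`Lg b` is the identity on the `embZ w`, so `Lg b v - v` depends only on `smZ v`, linearly). `t' ≠ 0`, otherwise `Lg b = 1` and `Lg c = Lg a * Lg b * Lg a⁻¹ * Lg b⁻¹ = 1`, so `embZ t = 0`. `trace_curve` for `b`: the function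
 `ε ↦ trace (M_b (X ε))` has at `0` the value `3` and the derivative `ρ = - qf δ (emb t') ≠ 0`: if `ρ > 0` it is `> 3` for small `ε > 0`, if `ρ < 0` for small `ε < 0` (`HasDerivAt.tendsto_slope`, or `hasDerivAt_iff_isLittleO`): `∃ᶠ ε in 𝓝[≠] 0, 3 < ..`. (The second case of (E3): `β_b = id`.)
(6) So there is one `ε ≠ 0` with (E1)..(E5) and (5) (`Filter.Frequently.and_eventually`, `.exists`). At `τ = X ε`: `exists_fib` gives `F : H →* GL`; `F a = M_a τ`, `F b = M_b τ`, `F c = M_c τ` are isometries of `Gm τ` (`Bun.iso` with `β τ = τ`), determinant one; `(Gm τ)ᵀ = Gm τ`. `pp_SO` gives `N > 0` with `FreeTwo ((F a) ^ N) ((F b) ^ N)`; `FreeTwo.of_map F` and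
 `FreeTwo.map H.subtype` (U.lean) give the claim.
-/

set_option autoImplicit false

namespace Pool.Agent.Lib.MP_9dbb0e_al.DF

open Matrix Filter Topology

/-- integral coordinates of the plane with sum zero -/
def embZ (w : Fin 2 → ℤ) : Fin 3 → ℤ := ![w 0, w 1 - w 0, - w 1]

/-- the sum of the coordinates -/
def smZ (v : Fin 3 → ℤ) : ℤ := v 0 + v 1 + v 2

/-- the matrix `(a, b; c, d)` applied to `w` -/
def lmZ (a b c d : ℤ) (w : Fin 2 → ℤ) : Fin 2 → ℤ := ![a * w 0 + b * w 1, c * w 0 + d * w 1]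

private theorem HMb_rows (L : Matrix (Fin 3) (Fin 3) ℤ) (v : Fin 3 → ℤ) (i : Fin 3) :
    (L *ᵥ v) i = L i 0 * v 0 + L i 1 * v 1 + L i 2 * v 2 := by
  rw [Matrix.mulVec, dotProduct, Fin.sum_univ_three]

private theorem HMb_rowsR (A : Mt) (v : V3) (i : Fin 3) :
    (A *ᵥ v) i = A i 0 * v 0 + A i 1 * v 1 + A i 2 * v 2 := by
  rw [Matrix.mulVec, dotProduct, Fin.sum_univ_three]

private theorem HMb_cols {L : Matrix (Fin 3) (Fin 3) ℤ} (h : ∀ v, smZ (L *ᵥ v) = smZ v) :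
    L 0 0 + L 1 0 + L 2 0 = 1 ∧ L 0 1 + L 1 1 + L 2 1 = 1 ∧ L 0 2 + L 1 2 + L 2 2 = 1 := by
  have h0 := h ![1, 0, 0]
  have h1 := h ![0, 1, 0]
  have h2 := h ![0, 0, 1]
  unfold smZ at h0 h1 h2
  rw [HMb_rows, HMb_rows, HMb_rows] at h0 h1 h2
  simp at h0 h1 h2
  exact ⟨h0, h1, h2⟩

private theorem HMb_lin {L : Matrix (Fin 3) (Fin 3) ℤ} {x y z u : ℤ}
    (h : ∀ w, L *ᵥ embZ w = embZ (lmZ x y z u w)) :
    (L 0 0 - L 0 1 = x ∧ L 1 0 - L 1 1 = z - x ∧ L 2 0 - L 2 1 = -z) ∧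
      L 0 1 - L 0 2 = y ∧ L 1 1 - L 1 2 = u - y ∧ L 2 1 - L 2 2 = -u := by
  have h0 : ∀ i, (L *ᵥ embZ ![1, 0]) i = embZ (lmZ x y z u ![1, 0]) i := fun i => congrFun (h _) i
  have h1 : ∀ i, (L *ᵥ embZ ![0, 1]) i = embZ (lmZ x y z u ![0, 1]) i := fun i => congrFun (h _) i
  have a0 := h0 0
  have a1 := h0 1
  have a2 := h0 2
  have b0 := h1 0
  have b1 := h1 1
  have b2 := h1 2
  rw [HMb_rows] at a0 a1 a2 b0 b1 b2
  simp [embZ, lmZ] at a0 a1 a2 b0 b1 b2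
  refine ⟨⟨?_, ?_, ?_⟩, ?_, ?_, ?_⟩ <;> linarith

private theorem HMb_smR {L : Matrix (Fin 3) (Fin 3) ℤ} (h : ∀ v, smZ (L *ᵥ v) = smZ v) (v : V3) :
    sm (L.map (Int.cast : ℤ → ℝ) *ᵥ v) = sm v := by
  obtain ⟨h0, h1, h2⟩ := HMb_cols h
  have k0 : (L 0 0 : ℝ) + L 1 0 + L 2 0 = 1 := by exact_mod_cast h0
  have k1 : (L 0 1 : ℝ) + L 1 1 + L 2 1 = 1 := by exact_mod_cast h1
  have k2 : (L 0 2 : ℝ) + L 1 2 + L 2 2 = 1 := by exact_mod_cast h2
  unfold sm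
  rw [HMb_rowsR, HMb_rowsR, HMb_rowsR]
  simp only [Matrix.map_apply]
  linear_combination v 0 * k0 + v 1 * k1 + v 2 * k2

private theorem HMb_linR {L : Matrix (Fin 3) (Fin 3) ℤ} {x y z u : ℤ}
    (h : ∀ w, L *ᵥ embZ w = embZ (lmZ x y z u w)) (w : Fin 2 → ℝ) :
    L.map (Int.cast : ℤ → ℝ) *ᵥ emb w = emb (lm x y z u w) := by
  obtain ⟨⟨a0, a1, a2⟩, b0, b1, b2⟩ := HMb_lin h
  have c0 : (L 0 0 : ℝ) - L 0 1 = x := by exact_mod_cast a0
  have c1 : (L 1 0 : ℝ) - L 1 1 = z - x := by exact_mod_cast a1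
  have c2 : (L 2 0 : ℝ) - L 2 1 = -z := by exact_mod_cast a2
  have d0 : (L 0 1 : ℝ) - L 0 2 = y := by exact_mod_cast b0
  have d1 : (L 1 1 : ℝ) - L 1 2 = u - y := by exact_mod_cast b1
  have d2 : (L 2 1 : ℝ) - L 2 2 = -u := by exact_mod_cast b2
  have e0 : (L.map (Int.cast : ℤ → ℝ) *ᵥ emb w) 0 = emb (lm x y z u w) 0 := by
    rw [HMb_rowsR]
    simp only [Matrix.map_apply]
    show (L 0 0 : ℝ) * w 0 + (L 0 1 : ℝ) * (w 1 - w 0) + (L 0 2 : ℝ) * (- w 1) = (x : ℝ) * w 0 + y * w 1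
    linear_combination w 0 * c0 + w 1 * d0
  have e1 : (L.map (Int.cast : ℤ → ℝ) *ᵥ emb w) 1 = emb (lm x y z u w) 1 := by
    rw [HMb_rowsR]
    simp only [Matrix.map_apply]
    show (L 1 0 : ℝ) * w 0 + (L 1 1 : ℝ) * (w 1 - w 0) + (L 1 2 : ℝ) * (- w 1) =
      ((z : ℝ) * w 0 + u * w 1) - ((x : ℝ) * w 0 + y * w 1)
    linear_combination w 0 * c1 + w 1 * d1
  have e2 : (L.map (Int.cast : ℤ → ℝ) *ᵥ emb w) 2 = emb (lm x y z u w) 2 := by
    rw [HMb_rowsR]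
    simp only [Matrix.map_apply]
    show (L 2 0 : ℝ) * w 0 + (L 2 1 : ℝ) * (w 1 - w 0) + (L 2 2 : ℝ) * (- w 1) = - ((z : ℝ) * w 0 + u * w 1)
    linear_combination w 0 * c2 + w 1 * d2
  funext i
  fin_cases i
  · exact e0
  · exact e1
  · exact e2

private theorem HMb_trace {L : Matrix (Fin 3) (Fin 3) ℤ} {x y z u : ℤ} (hσ : ∀ v, smZ (L *ᵥ v) = smZ v)
    (h : ∀ w, L *ᵥ embZ w = embZ (lmZ x y z u w)) :
    (L.map (Int.cast : ℤ → ℝ)).trace = 1 + x + u := by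
  obtain ⟨⟨a0, a1, a2⟩, b0, b1, b2⟩ := HMb_lin h
  obtain ⟨h0, h1, h2⟩ := HMb_cols hσ
  rw [Matrix.trace_fin_three]
  simp only [Matrix.map_apply]
  have : L 0 0 + L 1 1 + L 2 2 = 1 + x + u := by linarith
  exact_mod_cast this

private theorem HMb_trR {L : Matrix (Fin 3) (Fin 3) ℤ} {s : Fin 3 → ℤ} (h : ∀ v, L *ᵥ v = v + smZ v • s)
    (w : V3) : L.map (Int.cast : ℤ → ℝ) *ᵥ w = w + sm w • (fun i => (s i : ℝ)) := by
  have key : ∀ i, L i 0 = (![1, 0, 0] : Fin 3 → ℤ) i + s i ∧ L i 1 = (![0, 1, 0] : Fin 3 → ℤ) i + s i ∧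
      L i 2 = (![0, 0, 1] : Fin 3 → ℤ) i + s i := by
    intro i
    have h0 := congrFun (h ![1, 0, 0]) i
    have h1 := congrFun (h ![0, 1, 0]) i
    have h2 := congrFun (h ![0, 0, 1]) i
    rw [HMb_rows] at h0 h1 h2
    simp only [smZ, Pi.add_apply, Pi.smul_apply, smul_eq_mul] at h0 h1 h2
    simp at h0 h1 h2
    exact ⟨h0, h1, h2⟩
  funext i
  rw [HMb_rowsR]
  simp only [Matrix.map_apply]
  obtain ⟨k0, k1, k2⟩ := key i
  rw [k0, k1, k2]
  push_cast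
  show _ = w i + (w 0 + w 1 + w 2) * (s i : ℝ)
  fin_cases i <;> simp <;> ring

private theorem HMb_emb (t : Fin 2 → ℤ) : (fun i => (embZ t i : ℝ)) = emb (fun i => (t i : ℝ)) := by
  funext i
  fin_cases i <;> simp [embZ, emb]

private theorem HMb_qf {x y z u : ℤ} (hdet : x * u - y * z = 1) (htr : 2 < x + u) {t : Fin 2 → ℤ} (ht : t ≠ 0) :
    - qf (dl0 x y z u) (emb (fun i => (t i : ℝ))) ≠ 0 := by
  rw [qf_dl0]
  have h1 : t 0 ≠ 0 ∨ t 1 ≠ 0 := by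
    by_contra hcon
    push Not at hcon
    apply ht
    funext i
    fin_cases i
    · exact hcon.1
    · exact hcon.2
  have h2 := form_ne_zero x y z u (t 0) (t 1) hdet htr h1
  have h3 : (t 0 : ℝ) * (z * t 0 + u * t 1) - t 1 * (x * t 0 + y * t 1) ≠ 0 := by exact_mod_cast h2
  exact neg_ne_zero.2 h3

private theorem HMb_freq {f : ℝ → ℝ} {ρ : ℝ} (h : HasDerivAt f ρ 0) (hρ : ρ ≠ 0) (h0 : f 0 = 3) :
    ∃ᶠ ε in 𝓝[≠] (0 : ℝ), 3 < f ε := by
  intro hcon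
  apply hρ
  have h1 : IsLocalMax f 0 := by
    show ∀ᶠ ε in 𝓝 (0 : ℝ), f ε ≤ f 0
    have h2 := eventually_nhdsWithin_iff.1 hcon
    refine h2.mono fun ε hε => ?_
    by_cases he : ε = 0
    · rw [he]
    · rw [h0]
      exact not_lt.1 (hε he)
  exact h1.hasDerivAt_eq_zero h

private theorem HMb_Gm (t : V3) : (Gm t)ᵀ = Gm t := by
  ext i j
  fin_cases i <;> fin_cases j <;> rfl

theorem partH {G : Type} [Group G] (T : G →* Equiv.Perm (V3 × V3))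
    (Lg : G →* Matrix (Fin 3) (Fin 3) ℤ)
    (hT : ∀ g, ∃ B : Bun, (∀ p, T g p = B.app p) ∧ B.M t0 = (Lg g).map (Int.cast : ℤ → ℝ))
    (hσ : ∀ g v, smZ (Lg g *ᵥ v) = smZ v) (a b : G) (x y z u : ℤ) (hdet : x * u - y * z = 1)
    (htr : 2 < x + u) (ha : ∀ w, Lg a *ᵥ embZ w = embZ (lmZ x y z u w))
    (hb : ((∀ w, Lg b *ᵥ embZ w = embZ (lmZ x y z u w)) ∧ ∀ p, (T b p).1 = (T a p).1) ∨
      ((∀ w, Lg b *ᵥ embZ w = embZ w) ∧ ∀ p, (T b p).1 = p.1))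
    (t : Fin 2 → ℤ) (ht : t ≠ 0)
    (hc : ∀ v, Lg (a * b * a⁻¹ * b⁻¹) *ᵥ v = v + smZ v • embZ t) :
    ∃ N : ℕ, 0 < N ∧ FreeTwo (a ^ N) (b ^ N) := by
  obtain ⟨Ba, hBa, hMa⟩ := hT a
  obtain ⟨Bb, hBb, hMb⟩ := hT b
  obtain ⟨Bc, hBc, hMc⟩ := hT (a * b * a⁻¹ * b⁻¹)
  have hdet' : (x : ℝ) * u - y * z = 1 := by exact_mod_cast hdet
  have htr' : (2 : ℝ) < x + u := by exact_mod_cast htr
  obtain ⟨X, hX0, hX, E1, E2⟩ := exists_fixed_curve Ba _ hMa (HMb_smR (hσ a)) x y z u hdet' htr' (HMb_linR ha)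
  -- the curve is fixed by `b` and the commutator
  have hbase : ∀ τ, Ba.β τ = τ → Bb.β τ = τ := by
    intro τ hτ
    have h1 : ∀ p, (T b p).1 = Bb.β p.1 := fun p => by rw [hBb]; rfl
    rcases hb with ⟨-, h2⟩ | ⟨-, h2⟩
    · have h3 := h2 (τ, 0)
      rw [h1, hBa] at h3
      exact h3.trans hτ
    · have h3 := h2 (τ, 0)
      rw [h1] at h3
      exact h3
  have hT' : ∀ g, ∃ B : Bun, ∀ p, T g p = B.app p := fun g => by
    obtain ⟨B, h1, -⟩ := hT g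
    exact ⟨B, h1⟩
  have hmem : ∀ (τ : V3) (g : G) (B : Bun), (∀ p, T g p = B.app p) → ((T g (τ, 0)).1 = τ ↔ B.β τ = τ) := by
    intro τ g B h1
    rw [h1]
    exact Iff.rfl
  have hcomm : ∀ τ, Ba.β τ = τ → Bc.β τ = τ := by
    intro τ hτ
    obtain ⟨H, F, hH, -⟩ := exists_fib T hT' τ
    have h1 : a ∈ H := (hH a).2 ((hmem τ a Ba hBa).2 hτ)
    have h2 : b ∈ H := (hH b).2 ((hmem τ b Bb hBb).2 (hbase τ hτ))
    have h3 : a * b * a⁻¹ * b⁻¹ ∈ H := H.mul_mem (H.mul_mem (H.mul_mem h1 h2) (H.inv_mem h1)) (H.inv_mem h2)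
    exact (hmem τ _ Bc hBc).1 ((hH _).1 h3)
  have E1b : ∀ᶠ ε in 𝓝[≠] (0 : ℝ), Bb.β (X ε) = X ε := E1.mono fun ε hε => hbase _ hε
  have E3 : ∀ᶠ ε in 𝓝[≠] (0 : ℝ), Bc.β (X ε) = X ε := E1.mono fun ε hε => hcomm _ hε
  have E4 : ∀ᶠ ε in 𝓝[≠] (0 : ℝ), (Bc.M (X ε)).trace ≠ 3 := by
    have h1 := (trace_curve Bc X _ hX0 hX E3 (emb (fun i => (t i : ℝ))) (sm_emb _) (fun w => by
      rw [hMc, HMb_trR hc, HMb_emb])).1
    exact h1.eventually_ne (HMb_qf hdet htr ht)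
  have hgt : ∀ (B : Bun) (L : Matrix (Fin 3) (Fin 3) ℤ), B.M t0 = L.map (Int.cast : ℤ → ℝ) →
      (∀ v, smZ (L *ᵥ v) = smZ v) → (∀ w, L *ᵥ embZ w = embZ (lmZ x y z u w)) →
      ∀ᶠ ε in 𝓝[≠] (0 : ℝ), 3 < (B.M (X ε)).trace := by
    intro B L h1 h2 h3
    have h4 := trace_tendsto B X _ hX0 hX
    rw [h1, HMb_trace h2 h3] at h4
    have h5 : (3 : ℝ) < 1 + x + u := by linarith
    exact (h4.eventually (lt_mem_nhds h5)).filter_mono nhdsWithin_le_nhds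
  have E5 : ∀ᶠ ε in 𝓝[≠] (0 : ℝ), 3 < (Ba.M (X ε)).trace := hgt Ba _ hMa (hσ a) ha
  have E6 : ∃ᶠ ε in 𝓝[≠] (0 : ℝ), 3 < (Bb.M (X ε)).trace := by
    rcases hb with ⟨h1, -⟩ | ⟨h1, -⟩
    · exact (hgt Bb _ hMb (hσ b) h1).frequently
    · obtain ⟨s, hs⟩ : ∃ s : Fin 3 → ℤ, s = Lg b *ᵥ ![1, 0, 0] - ![1, 0, 0] := ⟨_, rfl⟩
      have hs0 : smZ s = 0 := by
        have h2 := hσ b ![1, 0, 0]
        rw [hs]
        unfold smZ at h2 ⊢
        simp only [Pi.sub_apply]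
        linarith
      obtain ⟨t', ht'⟩ : ∃ t' : Fin 2 → ℤ, s = embZ t' := by
        refine ⟨![s 0, - s 2], ?_⟩
        unfold smZ at hs0
        funext i
        fin_cases i
        · rfl
        · show s 1 = - s 2 - s 0
          linarith
        · show s 2 = - - s 2
          rw [neg_neg]
      have hv : ∀ v, Lg b *ᵥ v = v + smZ v • embZ t' := by
        intro v
        obtain ⟨w, hw⟩ : ∃ w : Fin 2 → ℤ, v - smZ v • ![1, 0, 0] = embZ w := by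
          refine ⟨![v 0 - smZ v, - v 2], ?_⟩
          funext i
          fin_cases i
          · show v 0 - smZ v • (1 : ℤ) = v 0 - smZ v
            rw [smul_eq_mul, mul_one]
          · show v 1 - smZ v • (0 : ℤ) = - v 2 - (v 0 - smZ v)
            unfold smZ
            simp only [smul_eq_mul]
            ring
          · show v 2 - smZ v • (0 : ℤ) = - - v 2
            simp only [smul_eq_mul]
            ring
        have h2 : v = smZ v • ![1, 0, 0] + embZ w := by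
          rw [← hw]
          abel
        have h3 : Lg b *ᵥ v = smZ v • (Lg b *ᵥ ![1, 0, 0]) + embZ w := by
          conv_lhs => rw [h2]
          rw [Matrix.mulVec_add, Matrix.mulVec_smul, h1]
        have h4 : Lg b *ᵥ ![1, 0, 0] = ![1, 0, 0] + embZ t' := by
          rw [← ht', hs]
          abel
        rw [h3, h4, smul_add]
        conv_rhs => rw [h2]
        have h5 : smZ (smZ v • ![1, 0, 0] + embZ w) = smZ v := by rw [← h2]
        rw [h5]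
        abel
      have ht0 : t' ≠ 0 := by
        intro h2
        have h3 : embZ t' = 0 := by
          rw [h2]
          funext i
          fin_cases i <;> simp [embZ]
        have h4 : Lg b = 1 := by
          refine Matrix.ext_of_mulVec_single fun i => ?_
          rw [hv, h3, smul_zero, add_zero, Matrix.one_mulVec]
        have h5 : Lg b⁻¹ = 1 := by
          have h6 : Lg b * Lg b⁻¹ = 1 := by rw [← map_mul, mul_inv_cancel, map_one]
          rwa [h4, one_mul] at h6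
        have h7 : Lg (a * b * a⁻¹ * b⁻¹) = 1 := by
          rw [map_mul, map_mul, map_mul, h4, h5, mul_one, mul_one, ← map_mul, mul_inv_cancel, map_one]
        have h8 := hc ![1, 0, 0]
        rw [h7, Matrix.one_mulVec] at h8
        have h9 : smZ ![1, 0, 0] = 1 := by simp [smZ]
        rw [h9, one_smul] at h8
        have h10 : embZ t = 0 := left_eq_add.1 h8
        apply ht
        have k0 := congrFun h10 0
        have k2 := congrFun h10 2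
        funext i
        fin_cases i
        · exact k0
        · exact neg_eq_zero.1 k2
      obtain ⟨h2, h3⟩ := trace_curve Bb X _ hX0 hX E1b (emb (fun i => (t' i : ℝ))) (sm_emb _) (fun w => by
        rw [hMb, HMb_trR hv, HMb_emb])
      exact HMb_freq h2 (HMb_qf hdet htr ht0) h3
  obtain ⟨ε, hb3, h1, h2, h3, h4⟩ := (E6.and_eventually (E1.and (E2.and (E4.and E5)))).exists
  obtain ⟨H, F, hH, hF⟩ := exists_fib T hT' (X ε)
  have ma : a ∈ H := (hH a).2 ((hmem _ a Ba hBa).2 h1)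
  have mb : b ∈ H := (hH b).2 ((hmem _ b Bb hBb).2 (hbase _ h1))
  have fa : (F ⟨a, ma⟩ : Mt) = Ba.M (X ε) := hF ⟨a, ma⟩ Ba hBa
  have fb : (F ⟨b, mb⟩ : Mt) = Bb.M (X ε) := hF ⟨b, mb⟩ Bb hBb
  have fc : ((F ⟨a, ma⟩ * F ⟨b, mb⟩ * (F ⟨a, ma⟩)⁻¹ * (F ⟨b, mb⟩)⁻¹ : GL (Fin 3) ℝ) : Mt) = Bc.M (X ε) := by
    have h5 := hF (⟨a, ma⟩ * ⟨b, mb⟩ * ⟨a, ma⟩⁻¹ * ⟨b, mb⟩⁻¹) Bc hBc
    rw [map_mul, map_mul, map_mul, map_inv, map_inv] at h5
    exact h5
  have ia := Ba.iso (X ε)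
  have ib := Bb.iso (X ε)
  rw [h1] at ia
  rw [hbase _ h1] at ib
  obtain ⟨N, hN, hfree⟩ := pp_SO (Gm (X ε)) (HMb_Gm _) h2 (F ⟨a, ma⟩) (F ⟨b, mb⟩) (by rw [fa]; exact ia)
    (by rw [fb]; exact ib) (by rw [fa]; exact Ba.det _) (by rw [fb]; exact Bb.det _) (by rw [fa]; exact h4)
    (by rw [fb]; exact hb3) (by rw [fc]; exact h3)
  refine ⟨N, hN, ?_⟩
  rw [← map_pow, ← map_pow] at hfree
  exact FreeTwo.map H.subtype H.subtype_injective (FreeTwo.of_map F hfree)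

end Pool.Agent.Lib.MP_9dbb0e_al.DF
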