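import Pool.Agent.Lib.MP_9dbb0e_al.D.TBun
import Pool.Agent.Lib.MP_9dbb0e_al.D.HMb

/-!
# JOB TLin: sum and linear parts of the integral matrices

`LG`: the pairs `(L, A)` in `SL(3, ℤ) × SL(2, ℤ)` such that `L` preserves the sum of the coordinates and acts on the plane with sum zero by `A`.

PROOFS. `LG` is a subgroup: multiplication: `Matrix.mulVec_mulVec`; inverse: `L *ᵥ (L⁻¹ *ᵥ v) = v`, so `smZ (L⁻¹ v) = smZ (L (L⁻¹ v)) = smZ v`; `embZ (A⁻¹ w)`: `L *ᵥ embZ (A⁻¹ *ᵥ w) = embZ (A *ᵥ A⁻¹ *ᵥ w) = embZ w`, apply `L⁻¹`.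
The five members: check `smZ (L *ᵥ v) = smZ v` by `simp [smZ, Matrix.mulVec, ..]; ring` (`Matrix.mulVec`, `dotProduct`, `Fin.sum_univ_three`), and `L *ᵥ embZ w = embZ (A *ᵥ w)` by `ext i; fin_cases i; simp; ring`.
`TrZ`: `translation`: if `(L, 1) ∈ LG` then `L *ᵥ v = v + smZ v • embZ t` for some `t`: `e = ![1, 0, 0]`, `s = L *ᵥ e - e`, `smZ s = 0`, `s = embZ ![s 0, s 0 + s 1]`; `v = smZ v • e + embZ w` with `w = ![v 0 - smZ v, ..]` (`v - smZ v • e` has sum zero), `L *ᵥ embZ w = embZ w`.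
-/

set_option autoImplicit false

namespace Pool.Agent.Lib.MP_9dbb0e_al.DF

open Matrix

/-- the special linear group of rank two -/
abbrev SL2 : Type := Matrix.SpecialLinearGroup (Fin 2) ℤ

def As : SL2 := ⟨!![1, 1; 0, 1], by simp⟩

def At : SL2 := ⟨!![1, 0; -1, 1], by simp⟩

private theorem TLin_mv3 (M : Matrix (Fin 3) (Fin 3) ℤ) (v : Fin 3 → ℤ) (i : Fin 3) :
    (M *ᵥ v) i = M i 0 * v 0 + M i 1 * v 1 + M i 2 * v 2 := by
  simp [Matrix.mulVec, dotProduct, Fin.sum_univ_three]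

private theorem TLin_mv2 (M : Matrix (Fin 2) (Fin 2) ℤ) (v : Fin 2 → ℤ) (i : Fin 2) :
    (M *ᵥ v) i = M i 0 * v 0 + M i 1 * v 1 := by
  simp [Matrix.mulVec, dotProduct, Fin.sum_univ_two]

private theorem TLin_e0 (w : Fin 2 → ℤ) : embZ w 0 = w 0 := rfl
private theorem TLin_e1 (w : Fin 2 → ℤ) : embZ w 1 = w 1 - w 0 := rfl
private theorem TLin_e2 (w : Fin 2 → ℤ) : embZ w 2 = - w 1 := rfl

private theorem TLin_inv3 (L : SL3) (v : Fin 3 → ℤ) : (L : Matrix (Fin 3) (Fin 3) ℤ) *ᵥ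
    (((L⁻¹ : SL3) : Matrix (Fin 3) (Fin 3) ℤ) *ᵥ v) = v := by
  rw [Matrix.mulVec_mulVec, ← Matrix.SpecialLinearGroup.coe_mul, mul_inv_cancel, Matrix.SpecialLinearGroup.coe_one,
    Matrix.one_mulVec]

private theorem TLin_inv3' (L : SL3) (v : Fin 3 → ℤ) : ((L⁻¹ : SL3) : Matrix (Fin 3) (Fin 3) ℤ) *ᵥ
    ((L : Matrix (Fin 3) (Fin 3) ℤ) *ᵥ v) = v := by
  rw [Matrix.mulVec_mulVec, ← Matrix.SpecialLinearGroup.coe_mul, inv_mul_cancel, Matrix.SpecialLinearGroup.coe_one,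
    Matrix.one_mulVec]

private theorem TLin_inv2 (L : SL2) (v : Fin 2 → ℤ) : (L : Matrix (Fin 2) (Fin 2) ℤ) *ᵥ
    (((L⁻¹ : SL2) : Matrix (Fin 2) (Fin 2) ℤ) *ᵥ v) = v := by
  rw [Matrix.mulVec_mulVec, ← Matrix.SpecialLinearGroup.coe_mul, mul_inv_cancel, Matrix.SpecialLinearGroup.coe_one,
    Matrix.one_mulVec]

/-- pairs of an affine matrix and its linear part -/
def LG : Subgroup (SL3 × SL2) where
  carrier := {q | (∀ v : Fin 3 → ℤ, smZ ((q.1 : Matrix (Fin 3) (Fin 3) ℤ) *ᵥ v) = smZ v) ∧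
    ∀ w : Fin 2 → ℤ, (q.1 : Matrix (Fin 3) (Fin 3) ℤ) *ᵥ embZ w =
      embZ ((q.2 : Matrix (Fin 2) (Fin 2) ℤ) *ᵥ w)}
  one_mem' := by
    refine ⟨fun v => ?_, fun w => ?_⟩
    · rw [Prod.fst_one, Matrix.SpecialLinearGroup.coe_one, Matrix.one_mulVec]
    · rw [Prod.fst_one, Prod.snd_one, Matrix.SpecialLinearGroup.coe_one, Matrix.SpecialLinearGroup.coe_one,
        Matrix.one_mulVec, Matrix.one_mulVec]
  mul_mem' := by
    rintro q q' ⟨h1, h2⟩ ⟨h3, h4⟩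
    refine ⟨fun v => ?_, fun w => ?_⟩
    · rw [Prod.fst_mul, Matrix.SpecialLinearGroup.coe_mul, ← Matrix.mulVec_mulVec, h1, h3]
    · rw [Prod.fst_mul, Prod.snd_mul, Matrix.SpecialLinearGroup.coe_mul, Matrix.SpecialLinearGroup.coe_mul,
        ← Matrix.mulVec_mulVec, ← Matrix.mulVec_mulVec, h4, h2]
  inv_mem' := by
    rintro q ⟨h1, h2⟩
    refine ⟨fun v => ?_, fun w => ?_⟩
    · rw [Prod.fst_inv]
      have h3 := h1 (((q.1⁻¹ : SL3) : Matrix (Fin 3) (Fin 3) ℤ) *ᵥ v)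
      rw [TLin_inv3] at h3
      exact h3.symm
    · rw [Prod.fst_inv, Prod.snd_inv]
      have h3 := h2 (((q.2⁻¹ : SL2) : Matrix (Fin 2) (Fin 2) ℤ) *ᵥ w)
      rw [TLin_inv2] at h3
      rw [← h3, TLin_inv3']

private theorem TLin_neg : ((-1 : SL2) : Matrix (Fin 2) (Fin 2) ℤ) = !![-1, 0; 0, -1] := by
  ext a b
  fin_cases a <;> fin_cases b <;> simp

private theorem TLin_mem (q : SL3 × SL2) (M : Matrix (Fin 3) (Fin 3) ℤ) (N : Matrix (Fin 2) (Fin 2) ℤ)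
    (hM : (q.1 : Matrix (Fin 3) (Fin 3) ℤ) = M) (hN : (q.2 : Matrix (Fin 2) (Fin 2) ℤ) = N)
    (h0 : M 0 0 + M 1 0 + M 2 0 = 1) (h1 : M 0 1 + M 1 1 + M 2 1 = 1) (h2 : M 0 2 + M 1 2 + M 2 2 = 1)
    (a0 : M 0 0 - M 0 1 = N 0 0) (a1 : M 1 0 - M 1 1 = N 1 0 - N 0 0) (a2 : M 2 0 - M 2 1 = - N 1 0)
    (b0 : M 0 1 - M 0 2 = N 0 1) (b1 : M 1 1 - M 1 2 = N 1 1 - N 0 1) (b2 : M 2 1 - M 2 2 = - N 1 1) :
    q ∈ LG := by
  refine ⟨fun v => ?_, fun w => funext fun i => ?_⟩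
  · rw [hM]
    unfold smZ
    rw [TLin_mv3, TLin_mv3, TLin_mv3]
    linear_combination v 0 * h0 + v 1 * h1 + v 2 * h2
  · rw [hM, hN, TLin_mv3]
    fin_cases i
    · change M 0 0 * w 0 + M 0 1 * (w 1 - w 0) + M 0 2 * - w 1 = (N *ᵥ w) 0
      rw [TLin_mv2]
      linear_combination w 0 * a0 + w 1 * b0
    · change M 1 0 * w 0 + M 1 1 * (w 1 - w 0) + M 1 2 * - w 1 = (N *ᵥ w) 1 - (N *ᵥ w) 0
      rw [TLin_mv2, TLin_mv2]
      linear_combination w 0 * a1 + w 1 * b1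
    · change M 2 0 * w 0 + M 2 1 * (w 1 - w 0) + M 2 2 * - w 1 = - (N *ᵥ w) 1
      rw [TLin_mv2]
      linear_combination w 0 * a2 + w 1 * b2

theorem LS1_mem : (LS1, As) ∈ LG :=
  TLin_mem (LS1, As) _ _ rfl rfl (by rfl) (by rfl) (by rfl) (by rfl) (by rfl) (by rfl) (by rfl) (by rfl) (by rfl)

theorem LS2_mem : (LS2, At) ∈ LG :=
  TLin_mem (LS2, At) _ _ rfl rfl (by rfl) (by rfl) (by rfl) (by rfl) (by rfl) (by rfl) (by rfl) (by rfl) (by rfl)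

theorem LU0_mem : (LU0, -1) ∈ LG :=
  TLin_mem (LU0, -1) _ !![-1, 0; 0, -1] rfl TLin_neg (by rfl) (by rfl) (by rfl) (by rfl) (by rfl) (by rfl) (by rfl)
    (by rfl) (by rfl)

theorem LU1_mem : (LU1, -1) ∈ LG :=
  TLin_mem (LU1, -1) _ !![-1, 0; 0, -1] rfl TLin_neg (by rfl) (by rfl) (by rfl) (by rfl) (by rfl) (by rfl) (by rfl)
    (by rfl) (by rfl)

theorem LU2_mem : (LU2, -1) ∈ LG :=
  TLin_mem (LU2, -1) _ !![-1, 0; 0, -1] rfl TLin_neg (by rfl) (by rfl) (by rfl) (by rfl) (by rfl) (by rfl) (by rfl)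
    (by rfl) (by rfl)

theorem TrZ {L : SL3} (h : (L, (1 : SL2)) ∈ LG) : ∃ t : Fin 2 → ℤ, ∀ v : Fin 3 → ℤ,
    (L : Matrix (Fin 3) (Fin 3) ℤ) *ᵥ v = v + smZ v • embZ t := by
  obtain ⟨h1, h2⟩ := h
  have h2' : ∀ w : Fin 2 → ℤ, (L : Matrix (Fin 3) (Fin 3) ℤ) *ᵥ embZ w = embZ w := by
    intro w
    have h3 := h2 w
    change (L : Matrix (Fin 3) (Fin 3) ℤ) *ᵥ embZ w = embZ (((1 : SL2) : Matrix (Fin 2) (Fin 2) ℤ) *ᵥ w) at h3
    rwa [Matrix.SpecialLinearGroup.coe_one, Matrix.one_mulVec] at h3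
  have hem : ∀ s : Fin 3 → ℤ, smZ s = 0 → s = embZ ![s 0, - s 2] := by
    intro s hs
    unfold smZ at hs
    funext i
    fin_cases i
    · rfl
    · change s 1 = - s 2 - s 0
      linarith
    · change s 2 = - - s 2
      ring
  obtain ⟨e, he⟩ : ∃ e : Fin 3 → ℤ, e = ![1, 0, 0] := ⟨_, rfl⟩
  have hse : smZ e = 1 := by
    rw [he]
    rfl
  obtain ⟨s, hs⟩ : ∃ s : Fin 3 → ℤ, s = (L : Matrix (Fin 3) (Fin 3) ℤ) *ᵥ e - e := ⟨_, rfl⟩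
  have hs0 : smZ s = 0 := by
    have h3 := h1 e
    change smZ ((L : Matrix (Fin 3) (Fin 3) ℤ) *ᵥ e) = smZ e at h3
    have h4 : smZ s = smZ ((L : Matrix (Fin 3) (Fin 3) ℤ) *ᵥ e) - smZ e := by
      rw [hs]
      unfold smZ
      simp only [Pi.sub_apply]
      ring
    rw [h4, h3, sub_self]
  refine ⟨![s 0, - s 2], fun v => ?_⟩
  rw [← hem s hs0]
  have h5 : smZ (v - smZ v • e) = 0 := by
    have h6 : smZ (v - smZ v • e) = smZ v - smZ v * smZ e := by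
      unfold smZ
      simp only [Pi.sub_apply, Pi.smul_apply, smul_eq_mul]
      ring
    rw [h6, hse, mul_one, sub_self]
  have h7 := hem _ h5
  have h8 : v = smZ v • e + (v - smZ v • e) := by abel
  have h9 : (L : Matrix (Fin 3) (Fin 3) ℤ) *ᵥ (v - smZ v • e) = v - smZ v • e := by
    rw [h7]
    exact h2' _
  calc (L : Matrix (Fin 3) (Fin 3) ℤ) *ᵥ v = (L : Matrix (Fin 3) (Fin 3) ℤ) *ᵥ (smZ v • e + (v - smZ v • e)) := by
        rw [← h8]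
    _ = smZ v • ((L : Matrix (Fin 3) (Fin 3) ℤ) *ᵥ e) + (v - smZ v • e) := by
        rw [Matrix.mulVec_add, Matrix.mulVec_smul, h9]
    _ = v + smZ v • s := by
        rw [hs, smul_sub]
        abel

theorem mulVec_lmZ (A : SL2) (w : Fin 2 → ℤ) :
    (A : Matrix (Fin 2) (Fin 2) ℤ) *ᵥ w = lmZ (A.1 0 0) (A.1 0 1) (A.1 1 0) (A.1 1 1) w := by
  funext i
  rw [TLin_mv2]
  fin_cases i
  · rfl
  · rfl

end Pool.Agent.Lib.MP_9dbb0e_al.DF
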