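import Pool.Agent.Lib.MP_9dbb0e_al.D.AAlt
import Pool.Agent.Lib.MP_9dbb0e_al.D.TLin
import Pool.Agent.Lib.MP_9dbb0e_al.D.NPar

/-!
# The data of the abstract theorem

`T`: action by bundle maps; `L`: the integral matrices at the base point (the action on the affine plane); `lin`: linear part; `ρ`: the action on the free group on `I`, permuting the letters by `π` up to conjugation;
`pt`: the letters as integral points of a plane; `inn`: elements acting trivially on the plane act by inner automorphisms; `ker`, `par` (parabolic pairs), `dich` (dichotomy for the linear parts).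
-/

set_option autoImplicit false

namespace Pool.Agent.Lib.MP_9dbb0e_al.DF

open FreeGroup
open scoped Matrix

structure AD (G I : Type) [Group G] where
  T : G →* Equiv.Perm (V3 × V3)
  L : G →* SL3
  lin : G →* SL2
  hT : ∀ g, (T g, L g) ∈ BG
  hL : ∀ g, (L g, lin g) ∈ LG
  lin_surj : Function.Surjective lin
  base : ∀ g, lin g = 1 → ∀ p, (T g p).1 = p.1
  ρ : G →* MulAut (FreeGroup I)
  π : G →* Equiv.Perm I
  hρ : ∀ g i, ∃ k, ρ g (of i) = k * of (π g i) * k⁻¹
  pt : I → Fin 3 → ℤ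
  pt_inj : Function.Injective pt
  s : ℤ
  pt_s : ∀ i, smZ (pt i) = s
  hπ : ∀ g i, pt (π g i) = (L g : Matrix (Fin 3) (Fin 3) ℤ) *ᵥ pt i
  inn : ∀ g, L g = 1 → ∃ k, ρ g = MulAut.conj k
  ker : ∀ a b, ρ (a * b * a⁻¹ * b⁻¹) = 1 → a * b = b * a
  par : ∀ a b, (∃ k, lin a = Tz k) → (∃ k, lin b = Tz k) → Alt a b
  dich : ∀ a b, ∃ n : ℕ, 0 < n ∧
    (lin (a ^ n) * lin (b ^ n) = lin (b ^ n) * lin (a ^ n) ∨ FreeTwo (a ^ n) (b ^ n))

end Pool.Agent.Lib.MP_9dbb0e_al.DF
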