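import Pool.Agent.Lib.MP_9dbb0e_al.D.MRs

/-!
# JOB MMb: the restriction of an automorphism to the kernel of an exponent

`g` maps every letter `i` to a conjugate of `τ i`, `τ x = x`; `c s` is the exponent sum of `x` in a conjugator for `s`. Then `g` induces an automorphism of the kernel of `wd x`, which
has the basis `x ^ n s x ^ (-n)`, and the letter `(n, s)` goes to a conjugate of `(n + c s, τ s)`.

PROOFS. (`open FreeGroup` makes `map_mul` ambiguous: write `_root_.map_mul`.)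
`wd_g`: `(wd x).comp g = wd x` by `FreeGroup.ext_hom`: `wd x (k * of (τ i) * k⁻¹) = wd x (of (τ i))` (commutative target), and `τ i = x ↔ i = x`.
`step`: `g (of x ^ n * of s * of x ^ (-n)) = (g (of x)) ^ n * g (of s) * (g (of x)) ^ (-n) = h * of (τ s) * h⁻¹` with `h = (g (of x)) ^ n * k`, `g (of s) = k * of (τ s) * k⁻¹`, `wd x k = ofAdd (c s)`. `wd x h = ofAdd (n + c s)` (`wd_g`). By `rs_norm`, `h = rs x y * of x ^ m`; `wd x (rs x y) = 1` (`rs_range`), so
 `m = n + c s`; `h * of (τ s) * h⁻¹ = rs x y * (of x ^ m * of (τ s) * of x ^ (-m)) * (rs x y)⁻¹ = rs x (y * of (m, τ s) * y⁻¹)`.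
`exists_res`: `g' : FreeGroup (ℤ × _) →* FreeGroup (ℤ × _)` is `FreeGroup.lift` of the elements `y * of .. * y⁻¹` chosen by `step`; `rs x (g' v) = g (rs x v)` (`ext_hom`). For the inverse: `g⁻¹` preserves the kernel of `wd x` as well (`wd x (g⁻¹ v) = wd x (g (g⁻¹ v)) = wd x v`), so for every `v` there is (`rs_range`) a unique (`rs_inj`)
 `v'` with `rs x v' = g⁻¹ (rs x v)`; so `g'` is bijective: injective: `rs x (g' v) = g (rs x v)` and `rs_inj`; surjective: `v = g' v'`. `MulEquiv.ofBijective g'`.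
-/

set_option autoImplicit false

namespace Pool.Agent.Lib.MP_9dbb0e_al.DF

open FreeGroup

variable {I : Type} [DecidableEq I]

private theorem MMb_wd_of (x i : I) : wd x (of i) = if i = x then Multiplicative.ofAdd 1 else 1 := by
  unfold wd
  rw [FreeGroup.lift_apply_of]

theorem wd_g (x : I) (g : MulAut (FreeGroup I)) (τ : Equiv.Perm I)
    (hg : ∀ i, ∃ k, g (of i) = k * of (τ i) * k⁻¹) (hx : τ x = x) (v : FreeGroup I) :
    wd x (g v) = wd x v := by
  have h1 : (wd x).comp (g : FreeGroup I →* FreeGroup I) = wd x := by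
    refine FreeGroup.ext_hom _ _ fun i => ?_
    rw [MonoidHom.comp_apply]
    obtain ⟨k, hk⟩ := hg i
    have h2 : wd x (g (of i)) = wd x (of i) := by
      rw [hk, _root_.map_mul, _root_.map_mul, _root_.map_inv, mul_inv_cancel_comm, MMb_wd_of, MMb_wd_of]
      by_cases hi : i = x
      · rw [hi, hx]
      · have h3 : τ i ≠ x := fun h => hi (τ.injective (h.trans hx.symm))
        rw [if_neg hi, if_neg h3]
    exact h2
  exact congrArg (fun f : FreeGroup I →* Multiplicative ℤ => f v) h1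

private theorem MMb_all (x : I) (g : MulAut (FreeGroup I)) (τ : Equiv.Perm I)
    (c : {s : I // s ≠ x} → ℤ) (hgx : ∃ k, g (of x) = k * of (τ x) * k⁻¹)
    (hg : ∀ s : {s : I // s ≠ x}, ∃ k, g (of s.1) = k * of (τ s) * k⁻¹ ∧
      wd x k = Multiplicative.ofAdd (c s)) (i : I) : ∃ k, g (of i) = k * of (τ i) * k⁻¹ := by
  by_cases hi : i = x
  · rw [hi]
    exact hgx
  · obtain ⟨k, hk, _⟩ := hg ⟨i, hi⟩
    exact ⟨k, hk⟩

omit [DecidableEq I] in
private theorem MMb_rs_of (x : I) (n : ℤ) (s : {s : I // s ≠ x}) :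
    rs x (of (n, s)) = of x ^ n * of s.1 * of x ^ (-n) := by
  unfold rs
  rw [FreeGroup.lift_apply_of]

private theorem MMb_wd_pow (x : I) (n : ℤ) : (wd x (of x)) ^ n = Multiplicative.ofAdd n := by
  rw [MMb_wd_of, if_pos rfl, ← ofAdd_zsmul, smul_eq_mul, mul_one]

/-- the restriction to the kernel of an automorphism which preserves the exponent -/
private theorem MMb_res (x : I) (g : MulAut (FreeGroup I)) (h : ∀ v, wd x (g v) = wd x v) :
    ∃ f : FreeGroup (ℤ × {s : I // s ≠ x}) →* FreeGroup (ℤ × {s : I // s ≠ x}), ∀ v, rs x (f v) = g (rs x v) := by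
  have h1 : ∀ v, ∃ v', rs x v' = g (rs x v) := by
    intro v
    rw [rs_range, h]
    exact (rs_range x _).1 ⟨v, rfl⟩
  choose f hf using h1
  refine ⟨⟨⟨f, ?_⟩, ?_⟩, hf⟩
  · apply rs_inj x
    rw [hf, _root_.map_one, _root_.map_one]
  · intro v w
    apply rs_inj x
    show rs x (f (v * w)) = rs x (f v * f w)
    rw [_root_.map_mul, hf, hf, hf, _root_.map_mul, _root_.map_mul]

theorem step (x : I) (g : MulAut (FreeGroup I)) (τ : Equiv.Perm I) (hx : τ x = x)
    (c : {s : I // s ≠ x} → ℤ) (hgx : ∃ k, g (of x) = k * of (τ x) * k⁻¹)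
    (hg : ∀ s : {s : I // s ≠ x}, ∃ k, g (of s.1) = k * of (τ s) * k⁻¹ ∧
      wd x k = Multiplicative.ofAdd (c s)) (τ' : {s : I // s ≠ x} → {s : I // s ≠ x})
    (hτ : ∀ s, (τ' s).1 = τ s.1) (n : ℤ) (s : {s : I // s ≠ x}) :
    ∃ y, rs x (y * of (n + c s, τ' s) * y⁻¹) = g (rs x (of (n, s))) := by
  obtain ⟨k, hk, hkc⟩ := hg s
  have hw := wd_g x g τ (MMb_all x g τ c hgx hg) hx
  obtain ⟨h, hh⟩ : ∃ h, h = g (of x) ^ n * k := ⟨_, rfl⟩
  have hwh : wd x h = Multiplicative.ofAdd (n + c s) := by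
    rw [hh, _root_.map_mul, map_zpow, hw, hkc, MMb_wd_pow, ← ofAdd_add]
  obtain ⟨y, m, hy⟩ := rs_norm x h
  have hm : m = n + c s := by
    have h1 := hwh
    rw [hy, _root_.map_mul, (rs_range x _).1 ⟨y, rfl⟩, one_mul, map_zpow, MMb_wd_pow] at h1
    exact Multiplicative.ofAdd.injective h1
  have h2 : g (rs x (of (n, s))) = h * of (τ s) * h⁻¹ := by
    rw [MMb_rs_of, _root_.map_mul, _root_.map_mul, map_zpow, map_zpow, hk, hh]
    group
  refine ⟨y, ?_⟩
  rw [h2, _root_.map_mul, _root_.map_mul, _root_.map_inv, MMb_rs_of, hτ, hy, hm]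
  group

theorem exists_res (x : I) (g : MulAut (FreeGroup I)) (τ : Equiv.Perm I) (hx : τ x = x)
    (c : {s : I // s ≠ x} → ℤ) (hgx : ∃ k, g (of x) = k * of (τ x) * k⁻¹)
    (hg : ∀ s : {s : I // s ≠ x}, ∃ k, g (of s.1) = k * of (τ s) * k⁻¹ ∧
      wd x k = Multiplicative.ofAdd (c s)) (τ' : {s : I // s ≠ x} → {s : I // s ≠ x})
    (hτ : ∀ s, (τ' s).1 = τ s.1) :
    ∃ g' : MulAut (FreeGroup (ℤ × {s : I // s ≠ x})), (∀ v, rs x (g' v) = g (rs x v)) ∧
      ∀ p : ℤ × {s : I // s ≠ x}, ∃ y, g' (of p) = y * of (p.1 + c p.2, τ' p.2) * y⁻¹ := by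
  have hw := wd_g x g τ (MMb_all x g τ c hgx hg) hx
  have hw' : ∀ v, wd x (g⁻¹ v) = wd x v := by
    intro v
    rw [← hw (g⁻¹ v), MulAut.apply_inv_self]
  obtain ⟨f, hf⟩ := MMb_res x g hw
  obtain ⟨f', hf'⟩ := MMb_res x g⁻¹ hw'
  have h1 : f'.comp f = MonoidHom.id _ := by
    refine MonoidHom.ext fun v => rs_inj x ?_
    rw [MonoidHom.comp_apply, hf', hf, MulAut.inv_apply_self, MonoidHom.id_apply]
  have h2 : f.comp f' = MonoidHom.id _ := by
    refine MonoidHom.ext fun v => rs_inj x ?_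
    rw [MonoidHom.comp_apply, hf, hf', MulAut.apply_inv_self, MonoidHom.id_apply]
  refine ⟨MonoidHom.toMulEquiv f f' h1 h2, hf, fun p => ?_⟩
  obtain ⟨y, hy⟩ := step x g τ hx c hgx hg τ' hτ p.1 p.2
  refine ⟨y, rs_inj x ?_⟩
  rw [hy]
  exact hf (of p)

end Pool.Agent.Lib.MP_9dbb0e_al.DF
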