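import Pool.Agent.Lib.MP_9dbb0e_al.D.MMa
import Pool.Agent.Lib.MP_9dbb0e_al.D.MMb

/-!
# JOB MMc: an automorphism with at most one periodic letter and an inner automorphism

PROOF. (`open FreeGroup` makes `map_mul` ambiguous: write `_root_.map_mul`.)
If there is no `i` and `m ≠ 0` with `(π ^ m) i = i`: `partM_free`. Otherwise let `x`, `m₀ ≠ 0` with `(π ^ m₀) x = x`. Every periodic letter is `x` (`hπ`). `π x = x`, since `π x` is periodic. `K = FreeGroup (ℤ × {s // s ≠ x})`.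
`τ' s = ⟨π s, _⟩` (a permutation of `{s // s ≠ x}`; `(τ' ^ j) s` has the value `(π ^ j) s`). Choose `k s` with `ψ (of s) = k s * of (π s) * (k s)⁻¹` and put `c s = toAdd (wd x (k s))`. `exists_res`: `ψ₁ : MulAut K`, `rs x (ψ₁ v) = ψ (rs x v)`, `ψ₁ (of p)` conjugate to `of (Π₁ p)`, with
`Π₁ : Equiv.Perm (ℤ × _)`, `Π₁ (n, s) = (n + c s, τ' s)` (inverse `(n, s) ↦ (n - c (τ'⁻¹ s), τ'⁻¹ s)`). By induction `rs x ((ψ₁ ^ j) v) = (ψ ^ j) (rs x v)` (`j : ℤ`). `((Π₁ ^ j) (n, s)).2 = (τ' ^ j) s`; `(τ' ^ j) s = s` implies `(π ^ j) s = s`, so `j = 0` (`s ≠ x` is not periodic).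
`r = toAdd (wd x w)`.
Case `r = 0`: `w = rs x w'` (`rs_range`). If `w' = 1`: `w = 1`, left. Otherwise `free_orbit` for `K`, `J = ℤ`, `π j = Π₁ ^ j`, `ψ j = (ψ₁ ^ j).toMonoidHom` (`zpow_perm`), `w'`: the family `j ↦ (ψ₁ ^ j) w'` is free, hence so is `j ↦ (ψ ^ j) w = rs x ((ψ₁ ^ j) w')` (`rs_inj`; `FreeGroup.lift (fun j => rs x (f j)) = (rs x).comp (FreeGroup.lift f)`).
 Now as in the proof of `partM_free`: `freeTwo_of_fam` for `a = ψ`, `u = conj w` (`conj_inj`: the letters `x` and `s`, where `s ≠ x` exists because `w' ≠ 1`). `h2`: `ψ ^ m = conj v` applied to `of s`: `(π ^ m) s = s`, so `m = 0`.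
Case `r ≠ 0`: `c₀ = ψ w * w⁻¹`, `wd x c₀ = 1` (`wd_g`), `c₀ = rs x c'`. If `c' = 1`: left. Otherwise let `w₁ : MulAut K` be given by `exists_res` for `g = conj w`, `τ = 1`, `τ' = id`, `c = fun _ => r` (conjugator `w`): `rs x (w₁ v) = w * rs x v * w⁻¹`, `w₁ (of p)` conjugate to `of (Π₂ p)`, `Π₂ (n, s) = (n + r, s)`.
 `Π₁ * Π₂ = Π₂ * Π₁`. `free_orbit` for `K`, `J = ℤ ×ₗ ℤ`, `π t = Π₁ ^ (ofLex t).1 * Π₂ ^ (ofLex t).2` (`hadd`: they commute: `Commute.zpow_zpow`), `ψ t = (ψ₁ ^ (ofLex t).1 * w₁ ^ (ofLex t).2).toMonoidHom` (`mul_perm`, `zpow_perm`), `w := c'`.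
 `hfree`: `Π₁ ^ j * Π₂ ^ l` maps `(n, s)` to a pair with second component `(τ' ^ j) s`, so `j = 0`; then `n + l * r = n`, `l = 0`.
 So the family `p ↦ (ψ ^ p.1) (w ^ p.2 * c₀ * w ^ (-p.2))`, `p : ℤ × ℤ`, is free (compose with `rs x`, and with `FreeGroup.map toLex`, injective).
 `freeTwo_of_fam2` for `a = ψ`, `b = conj w`: `a * b * a⁻¹ * b⁻¹ = conj (ψ w * w⁻¹) = conj c₀` and `a ^ j * b ^ l * conj c₀ * b ^ (-l) * a ^ (-j) = conj ((ψ ^ j) (w ^ l * c₀ * w ^ (-l)))` (`g * conj v * g⁻¹ = conj (g v)`), `fam_conj`, `conj_inj`.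
 `h2`: `ψ ^ m * conj w ^ n = conj v` with `wd x v = 1` (`v` is in the range of `rs x`). Apply both sides to `of s`, `s ≠ x`: the left side is conjugate to `of ((π ^ m) s)` (`mul_perm` or directly: `(ψ ^ m) (w ^ n * of s * w ^ (-n))`), so `(π ^ m) s = s`, `m = 0`; then `conj (w ^ n) = conj v`, `w ^ n = v` (`conj_inj`), `ofAdd (n * r) = 1`, `n = 0`.
-/

set_option autoImplicit false

namespace Pool.Agent.Lib.MP_9dbb0e_al.DF

open Pool.Agent.Lib.MP_106261_lc.Magnus FreeGroup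

variable {I : Type} [DecidableEq I]

private theorem MMc_zpow {G H A B : Type*} [Group G] [Group H] [MulAction G A] [MulAction H B] (f : A → B)
    (g : G) (h : H) (hf : ∀ a, f (g • a) = h • f a) (j : ℤ) (a : A) : f (g ^ j • a) = h ^ j • f a := by
  have hn : ∀ (n : ℕ) (a : A), f (g ^ n • a) = h ^ n • f a := by
    intro n
    induction n with
    | zero =>
      intro a
      rw [pow_zero, pow_zero, one_smul, one_smul]
    | succ n ih =>
      intro a
      rw [pow_succ, mul_smul, ih, hf, pow_succ, mul_smul]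
  obtain ⟨n, rfl | rfl⟩ := j.eq_nat_or_neg
  · rw [zpow_natCast, zpow_natCast]
    exact hn n a
  · have h1 := hn n (g ^ (-(n : ℤ)) • a)
    rw [zpow_neg, zpow_natCast, smul_inv_smul] at h1
    rw [zpow_neg, zpow_natCast, zpow_neg, zpow_natCast, h1, inv_smul_smul]

private theorem MMc_aut {K L : Type*} [Group K] [Group L] (f : K →* L) (g : MulAut K) (h : MulAut L)
    (hf : ∀ a, f (g a) = h (f a)) (j : ℤ) (a : K) : f ((g ^ j) a) = (h ^ j) (f a) :=
  MMc_zpow (f : K → L) g h hf j a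

private theorem MMc_fun {A B : Type*} (f : A → B) (g : Equiv.Perm A) (h : Equiv.Perm B)
    (hf : ∀ a, f (g a) = h (f a)) (j : ℤ) (a : A) : f ((g ^ j) a) = (h ^ j) (f a) :=
  MMc_zpow f g h hf j a

private theorem MMc_add (r l a : ℤ) : ((Equiv.addRight r : Equiv.Perm ℤ) ^ l) a = a + l * r := by
  induction l using Int.induction_on generalizing a with
  | zero => rw [zpow_zero, Equiv.Perm.one_apply, zero_mul, add_zero]
  | succ i ih =>
    rw [zpow_add_one, Equiv.Perm.mul_apply, ih]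
    show a + r + i * r = _
    ring
  | pred i ih =>
    rw [zpow_sub_one, Equiv.Perm.mul_apply, ih]
    show a + -r + -i * r = _
    ring

private theorem MMc_conj {G : Type*} [Group G] (g : MulAut G) (w : G) :
    g * MulAut.conj w * g⁻¹ = MulAut.conj (g w) := by
  refine MulEquiv.ext fun y => ?_
  rw [MulAut.mul_apply, MulAut.mul_apply, MulAut.conj_apply, MulAut.conj_apply, _root_.map_mul, _root_.map_mul,
    MulAut.apply_inv_self, _root_.map_inv]

private theorem MMc_let {a b : I} (u k : FreeGroup I) (h : u * of a * u⁻¹ = k * of b * k⁻¹) : a = b := by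
  refine of_conj_of (k⁻¹ * u) ?_
  calc k⁻¹ * u * of a * (k⁻¹ * u)⁻¹ = k⁻¹ * (u * of a * u⁻¹) * k := by group
    _ = k⁻¹ * (k * of b * k⁻¹) * k := by rw [h]
    _ = of b := by group

theorem partM (ψ : MulAut (FreeGroup I)) (π : Equiv.Perm I)
    (hψ : ∀ i, ∃ k, ψ (of i) = k * of (π i) * k⁻¹)
    (hπ : ∀ (i j : I) (m n : ℤ), m ≠ 0 → n ≠ 0 → (π ^ m) i = i → (π ^ n) j = j → i = j)
    (w : FreeGroup I) :
    ψ w = w ∨ Function.Injective (FreeGroup.lift ![ψ, MulAut.conj w] :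
      FreeGroup (Fin 2) →* MulAut (FreeGroup I)) := by
  classical
  by_cases hper : ∃ (x : I) (m : ℤ), m ≠ 0 ∧ (π ^ m) x = x
  swap
  · refine partM_free ψ π hψ (fun i m hm => ?_) w
    by_contra hne
    exact hper ⟨i, m, hne, hm⟩
  obtain ⟨x, m₀, hm₀, hx₀⟩ := hper
  have hx : π x = x := by
    refine hπ (π x) x m₀ m₀ hm₀ hm₀ ?_ hx₀
    have h1 : (π ^ m₀) (π x) = (π ^ m₀ * π) x := rfl
    rw [h1, (Commute.refl π).zpow_left m₀, Equiv.Perm.mul_apply, hx₀]
  have hfr : ∀ s : {s : I // s ≠ x}, ∀ m : ℤ, (π ^ m) s.1 = s.1 → m = 0 := by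
    intro s m hm
    by_contra hne
    exact s.2 (hπ s.1 x m m₀ hne hm₀ hm hx₀)
  choose k hk using hψ
  have hψ' : ∀ i, ∃ k, ψ (of i) = k * of (π i) * k⁻¹ := fun i => ⟨k i, hk i⟩
  obtain ⟨τ, hτ⟩ : ∃ τ : Equiv.Perm {s : I // s ≠ x}, ∀ s, (τ s).1 = π s.1 := by
    have h1 : ∀ s : I, π s ≠ x ↔ s ≠ x := by
      intro s
      constructor
      · rintro h rfl
        exact h hx
      · intro h h2
        apply h
        rw [← hx] at h2
        exact π.injective h2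
    refine ⟨⟨fun s => ⟨π s.1, (h1 s.1).2 s.2⟩, fun s => ⟨π.symm s.1, ?_⟩, ?_, ?_⟩, fun s => rfl⟩
    · rw [← h1, Equiv.apply_symm_apply]
      exact s.2
    · intro s
      exact Subtype.ext (π.symm_apply_apply s.1)
    · intro s
      exact Subtype.ext (π.apply_symm_apply s.1)
  obtain ⟨c, hc⟩ : ∃ c : {s : I // s ≠ x} → ℤ, ∀ s, c s = Multiplicative.toAdd (wd x (k s.1)) := ⟨_, fun _ => rfl⟩
  obtain ⟨ψ₁, hr1, hp1⟩ := exists_res x ψ π hx c ⟨k x, hk x⟩ (fun s => ⟨k s.1, hk s.1, by rw [hc]; rfl⟩) τ hτ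
  obtain ⟨P, hP⟩ : ∃ P : Equiv.Perm (ℤ × {s : I // s ≠ x}), ∀ p, P p = (p.1 + c p.2, τ p.2) := by
    refine ⟨⟨fun p => (p.1 + c p.2, τ p.2), fun p => (p.1 - c (τ.symm p.2), τ.symm p.2), ?_, ?_⟩, fun p => rfl⟩
    · intro p
      simp
    · intro p
      simp
  have hp1' : ∀ p, ∃ y, ψ₁ (of p) = y * of (P p) * y⁻¹ := by
    intro p
    obtain ⟨y, hy⟩ := hp1 p
    exact ⟨y, by rw [hy, hP]⟩
  have hP2 : ∀ (j : ℤ) (p : ℤ × {s : I // s ≠ x}), ((P ^ j) p).2.1 = (π ^ j) p.2.1 :=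
    MMc_fun (fun p : ℤ × {s : I // s ≠ x} => p.2.1) P π (fun p => by
      show (P p).2.1 = π p.2.1
      rw [hP]
      exact hτ p.2)
  have hrs : ∀ (j : ℤ) v, rs x ((ψ₁ ^ j) v) = (ψ ^ j) (rs x v) := MMc_aut (rs x) ψ₁ ψ hr1
  have hne : ∀ v : FreeGroup (ℤ × {s : I // s ≠ x}), v ≠ 1 → ∃ s : I, s ≠ x := by
    intro v hv
    by_contra hcon
    push Not at hcon
    have : IsEmpty (ℤ × {s : I // s ≠ x}) := ⟨fun p => p.2.2 (hcon p.2.1)⟩
    exact hv (Subsingleton.elim v 1)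
  by_cases hw : wd x w = 1
  · obtain ⟨w', hw'⟩ := (rs_range x w).2 hw
    by_cases hw1 : w' = 1
    · left
      rw [hw1, _root_.map_one] at hw'
      rw [← hw', _root_.map_one]
    right
    obtain ⟨s, hs⟩ := hne w' hw1
    have F := free_orbit (J := ℤ) (fun j => P ^ j) (zpow_zero P) (zpow_add P) (fun j p hp => by
      have h1 := hP2 j p
      rw [show (P ^ j) p = p from hp] at h1
      exact hfr p.2 j h1.symm) (fun j => (ψ₁ ^ j).toMonoidHom) (fun j p => zpow_perm ψ₁ P hp1' j p) w' hw1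
    have F1 : Function.Injective (FreeGroup.lift (fun j : ℤ => (ψ ^ j) w) : FreeGroup ℤ →* FreeGroup I) := by
      have e : (FreeGroup.lift (fun j : ℤ => (ψ ^ j) w) : FreeGroup ℤ →* FreeGroup I) =
          (rs x).comp (FreeGroup.lift (fun j : ℤ => (ψ₁ ^ j).toMonoidHom w')) := by
        refine FreeGroup.ext_hom _ _ fun j => ?_
        rw [FreeGroup.lift_apply_of, MonoidHom.comp_apply, FreeGroup.lift_apply_of, ← hw']
        exact (hrs j w').symm
      rw [e]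
      exact (rs_inj x).comp F
    have e1 : (fun j : ℤ => ψ ^ j * MulAut.conj w * ψ ^ (-j)) = fun j => MulAut.conj ((ψ ^ j) w) := by
      funext j
      rw [zpow_neg]
      exact MMc_conj _ _
    refine freeTwo_of_fam ψ (MulAut.conj w) ?_ ?_
    · rw [e1, fam_conj]
      exact (conj_inj hs).comp F1
    · intro m hm
      rw [e1, fam_conj] at hm
      obtain ⟨v, hv⟩ := hm
      obtain ⟨q, hq⟩ := zpow_perm ψ π hψ' m s
      refine hfr ⟨s, hs⟩ m ?_
      rw [← hv, MonoidHom.comp_apply, MulAut.conj_apply] at hq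
      exact (MMc_let _ _ hq).symm
  · obtain ⟨c₀, hc₀⟩ : ∃ c₀, c₀ = ψ w * w⁻¹ := ⟨_, rfl⟩
    have hwc : wd x c₀ = 1 := by
      rw [hc₀, _root_.map_mul, _root_.map_inv, wd_g x ψ π hψ' hx, mul_inv_cancel]
    obtain ⟨c', hc'⟩ := (rs_range x c₀).2 hwc
    by_cases hc1 : c' = 1
    · left
      rw [hc1, _root_.map_one, hc₀] at hc'
      exact (mul_inv_eq_one.1 hc'.symm)
    right
    obtain ⟨s, hs⟩ := hne c' hc1
    obtain ⟨r, hr⟩ : ∃ r : ℤ, r = Multiplicative.toAdd (wd x w) := ⟨_, rfl⟩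
    have hr0 : r ≠ 0 := by
      intro h
      apply hw
      rw [hr] at h
      exact Multiplicative.toAdd.injective h
    have hwr : wd x w = Multiplicative.ofAdd r := by rw [hr]; rfl
    obtain ⟨w₁, hr2, hp2⟩ := exists_res x (MulAut.conj w) 1 rfl (fun _ => r) ⟨w, MulAut.conj_apply _ _⟩
      (fun s => ⟨w, MulAut.conj_apply _ _, hwr⟩) id (fun _ => rfl)
    obtain ⟨R, hR⟩ : ∃ R : Equiv.Perm (ℤ × {s : I // s ≠ x}), ∀ p, R p = (p.1 + r, p.2) := by
      refine ⟨⟨fun p => (p.1 + r, p.2), fun p => (p.1 - r, p.2), ?_, ?_⟩, fun p => rfl⟩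
      · intro p
        simp
      · intro p
        simp
    have hp2' : ∀ p, ∃ y, w₁ (of p) = y * of (R p) * y⁻¹ := by
      intro p
      obtain ⟨y, hy⟩ := hp2 p
      exact ⟨y, by rw [hy, hR]; rfl⟩
    have hcom : Commute P R := by
      refine Equiv.ext fun p => ?_
      rw [Equiv.Perm.mul_apply, Equiv.Perm.mul_apply, hP, hR, hR, hP]
      refine Prod.ext ?_ rfl
      show p.1 + r + c p.2 = p.1 + c p.2 + r
      ring
    have hR2 : ∀ (l : ℤ) (p : ℤ × {s : I // s ≠ x}), ((R ^ l) p).2 = p.2 := by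
      intro l p
      have h1 := MMc_fun (fun p : ℤ × {s : I // s ≠ x} => p.2) R 1 (fun p => by
        show (R p).2 = p.2
        rw [hR]) l p
      rw [one_zpow] at h1
      exact h1
    have hR1 : ∀ (l : ℤ) (p : ℤ × {s : I // s ≠ x}), ((R ^ l) p).1 = p.1 + l * r := by
      intro l p
      have h1 := MMc_fun (fun p : ℤ × {s : I // s ≠ x} => p.1) R (Equiv.addRight r) (fun p => by
        show (R p).1 = p.1 + r
        rw [hR]) l p
      rw [MMc_add] at h1
      exact h1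
    have hrs2 : ∀ (l : ℤ) v, rs x ((w₁ ^ l) v) = ((MulAut.conj w) ^ l) (rs x v) := MMc_aut (rs x) w₁ (MulAut.conj w) hr2
    have F := free_orbit (J := ℤ ×ₗ ℤ) (fun t => P ^ (ofLex t).1 * R ^ (ofLex t).2) (by
        show P ^ (0 : ℤ) * R ^ (0 : ℤ) = 1
        rw [zpow_zero, zpow_zero, mul_one])
      (fun t t' => by
        show P ^ ((ofLex t).1 + (ofLex t').1) * R ^ ((ofLex t).2 + (ofLex t').2) = _
        rw [zpow_add, zpow_add, mul_assoc, mul_assoc]
        have h1 := (hcom.zpow_zpow (ofLex t').1 (ofLex t).2).eq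
        rw [← mul_assoc (P ^ (ofLex t').1), h1, mul_assoc])
      (fun t p hp => by
        simp only [Equiv.Perm.mul_apply] at hp
        have h1 := hP2 (ofLex t).1 ((R ^ (ofLex t).2) p)
        rw [hp, hR2] at h1
        have h2 := hfr p.2 _ h1.symm
        rw [h2, zpow_zero, Equiv.Perm.one_apply] at hp
        have h3 := hR1 (ofLex t).2 p
        rw [hp] at h3
        have h4 : (ofLex t).2 * r = 0 := by linarith
        have h5 : (ofLex t).2 = 0 := (mul_eq_zero.1 h4).resolve_right hr0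
        exact ofLex.injective (Prod.ext h2 h5))
      (fun t => (ψ₁ ^ (ofLex t).1 * w₁ ^ (ofLex t).2).toMonoidHom)
      (fun t p => mul_perm _ _ _ _ (zpow_perm ψ₁ P hp1' _) (zpow_perm w₁ R hp2' _) p) c' hc1
    obtain ⟨G, hG⟩ : ∃ G : ℤ × ℤ → FreeGroup I, ∀ p, G p = (ψ ^ p.1 * (MulAut.conj w) ^ p.2) c₀ := ⟨_, fun _ => rfl⟩
    have e2 : (FreeGroup.lift G : FreeGroup (ℤ × ℤ) →* FreeGroup I) =
        (rs x).comp ((FreeGroup.lift (fun t : ℤ ×ₗ ℤ => (ψ₁ ^ (ofLex t).1 * w₁ ^ (ofLex t).2).toMonoidHom c')).comp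
          (FreeGroup.freeGroupCongr toLex).toMonoidHom) := by
      refine FreeGroup.ext_hom _ _ fun p => ?_
      rw [FreeGroup.lift_apply_of, hG, MonoidHom.comp_apply, MonoidHom.comp_apply]
      have h1 : (FreeGroup.freeGroupCongr (toLex : ℤ × ℤ ≃ ℤ ×ₗ ℤ)).toMonoidHom (of p) = of (toLex p) := by
        simp
      rw [h1, FreeGroup.lift_apply_of, MulAut.mul_apply, ← hc', ← hrs2, ← hrs]
      rfl
    have F1 : Function.Injective (FreeGroup.lift G : FreeGroup (ℤ × ℤ) →* FreeGroup I) := by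
      rw [e2]
      exact (rs_inj x).comp (F.comp (FreeGroup.freeGroupCongr toLex).injective)
    have e1 : (fun p : ℤ × ℤ => ψ ^ p.1 * MulAut.conj w ^ p.2 * (ψ * MulAut.conj w * ψ⁻¹ * (MulAut.conj w)⁻¹) *
        MulAut.conj w ^ (-p.2) * ψ ^ (-p.1)) = fun p => MulAut.conj (G p) := by
      funext p
      rw [hG, MMc_conj, ← _root_.map_inv MulAut.conj w, ← _root_.map_mul, ← hc₀, ← MMc_conj, mul_inv_rev, zpow_neg,
        zpow_neg]
      simp only [mul_assoc]
    refine freeTwo_of_fam2 ψ (MulAut.conj w) ?_ ?_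
    · rw [e1, fam_conj]
      exact (conj_inj hs).comp F1
    · intro m n hmn
      rw [e1, fam_conj] at hmn
      obtain ⟨v, hv⟩ := hmn
      rw [MonoidHom.comp_apply] at hv
      obtain ⟨V, hV⟩ : ∃ V, V = FreeGroup.lift G v := ⟨_, rfl⟩
      rw [← hV] at hv
      have hwV : wd x V = 1 := by
        refine (rs_range x V).1 ?_
        rw [hV, e2]
        exact ⟨_, rfl⟩
      have hm : m = 0 := by
        obtain ⟨q, hq⟩ := zpow_perm ψ π hψ' m s
        refine hfr ⟨s, hs⟩ m ?_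
        have h1 := DFunLike.congr_fun hv (of s)
        rw [MulAut.conj_apply, MulAut.mul_apply, ← _root_.map_zpow, MulAut.conj_apply, _root_.map_mul, _root_.map_mul,
          hq, _root_.map_inv] at h1
        have h2 : V * of s * V⁻¹ = ((ψ ^ m) (w ^ n) * q) * of ((π ^ m) s) * ((ψ ^ m) (w ^ n) * q)⁻¹ := by
          rw [h1, mul_inv_rev]
          simp only [mul_assoc]
        exact (MMc_let _ _ h2).symm
      refine ⟨hm, ?_⟩
      rw [hm, zpow_zero, one_mul, ← _root_.map_zpow] at hv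
      have h3 : V = w ^ n := conj_inj hs hv
      rw [h3, _root_.map_zpow, hwr, ← ofAdd_zsmul] at hwV
      have h4 : n • r = 0 := Multiplicative.ofAdd.injective hwV
      rw [smul_eq_mul] at h4
      exact (mul_eq_zero.1 h4).resolve_right hr0

end Pool.Agent.Lib.MP_9dbb0e_al.DF
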