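import Pool.Agent.Lib.MP_9dbb0e_al.D.ADefs
import Pool.Agent.Lib.MP_9dbb0e_al.D.MMc

/-!
# JOB AHyp: hyperbolic pairs

PROOFS. `A = lin a = (x, y; z, u)`, `trZ A = x + u > 2`.
`triv`: let `g` have `lin g = 1` and let `L g` commute with `L a`. `TrZ` (from `D.hL g`, with `lin g = 1`): `L g *ᵥ v = v + smZ v • embZ t`. `L a *ᵥ (L g *ᵥ v) = L g *ᵥ (L a *ᵥ v)`; with `v = ![1, 0, 0]` (`smZ v = 1`, `smZ (L a v) = 1`): `L a v + L a *ᵥ embZ t = L a v + embZ t`, so `embZ (A *ᵥ t) = embZ t`, `A *ᵥ t = t` (`embZ` is injective), `t = 0`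
 (`fix_zero`). So `L g *ᵥ v = v` for all `v`, `L g = 1` (`Matrix.ext_of_mulVec_single`, or the entries via `Pi.single`; `Subtype.ext`).
`periodic`: the letters: if `(π a ^ m) i = i` and `(π a ^ n) j = j` with `m, n ≠ 0` then `i = j`: `(π a) ^ m = π (a ^ m)`; with `k = m * n`: `π (a ^ k)` fixes `i` and `j`, so `L (a ^ k)` fixes `pt i`, `pt j` (`hπ`) and the difference `pt i - pt j = embZ w` (sum zero); so `lin (a ^ k) *ᵥ w = w` (`hL`), `lin (a ^ k) = A ^ k`, `trZ (A ^ k) > 2` (`tr_zpow_gt`), `w = 0` (`fix_zero`),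
 `pt i = pt j`, `pt_inj`.
`inner_case`: let `L u = 1`. `inn u`: `ρ u = conj k`. `partM` for `ψ = ρ a`, `π = π a` (`periodic`), `w = k`: either `ρ a k = k`: then `ρ a * conj k * (ρ a)⁻¹ = conj (ρ a k) = conj k`, so `ρ (a u a⁻¹ u⁻¹) = 1`, `a u = u a` (`ker`); or `FreeTwo (ρ a) (conj k) = FreeTwo (ρ a) (ρ u)`, so `FreeTwo a u` (`FreeTwo.of_map`). (`DecidableEq I`: `classical`.)
`hyp_pair`: `c = a * b * a⁻¹ * b⁻¹`, `lin c = 1` (both cases). `TrZ`: `L c *ᵥ v = v + smZ v • embZ t`.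
 If `t ≠ 0`: `partH` for `T`, `Lg = (the matrix homomorphism) g ↦ (L g : Matrix)` (`Matrix.SpecialLinearGroup.toLin`.. simply `(Matrix.SpecialLinearGroup.coeToGL ..)`; define `Lg : G →* Matrix _ _ ℤ := { toFun := fun g => (D.L g).1, map_one' := by simp, map_mul' := by simp }`), entries `x, y, z, u` of `A`; `hT`: from `D.hT g` (`BG`, `IsB`); `ha`: `D.hL a` and `mulVec_lmZ`;
  `hb`: if `lin b = lin a`: the first alternative: `T b = T a * T (a⁻¹ * b)` and `base (a⁻¹ * b)` (`lin (a⁻¹ * b) = 1`); `(T a p).1` depends only on `p.1` (bundle map): `(T b p).1 = (T a (T (a⁻¹ b) p)).1 = B.β ((T (a⁻¹ b) p).1) = B.β p.1 = (T a p).1`. If `lin b = 1`: second alternative, `base b`. So `FreeTwo (a ^ N) (b ^ N)`: `Alt a b`.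
 If `t = 0`: `L c = 1`, so `L a`, `L b` commute. If `lin b = lin a`: `u = a⁻¹ * b`: `L u` commutes with `L a`, `lin u = 1`: `triv`: `L u = 1`; `inner_case`, `Alt.of_mul`, `b = a * u`. If `lin b = 1`: `triv` for `b`, `inner_case`, `Alt.of_comm_or`.
-/

set_option autoImplicit false

namespace Pool.Agent.Lib.MP_9dbb0e_al.DF

open Matrix FreeGroup

variable {G I : Type} [Group G] (D : AD G I)

private theorem AHyp_embZ {w w' : Fin 2 → ℤ} (h : embZ w = embZ w') : w = w' := by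
  have h0 : w 0 = w' 0 := congrFun h 0
  have h2 : - w 1 = - w' 1 := congrFun h 2
  funext i
  fin_cases i
  · exact h0
  · exact neg_injective h2

private theorem AHyp_one {L : SL3} (h : ∀ v : Fin 3 → ℤ, (L : Matrix (Fin 3) (Fin 3) ℤ) *ᵥ v = v) : L = 1 := by
  apply Subtype.ext
  refine Matrix.ext_of_mulVec_single fun i => ?_
  rw [h]
  exact (Matrix.one_mulVec _).symm

private theorem AHyp_mul (L L' : SL3) (v : Fin 3 → ℤ) : ((L * L' : SL3) : Matrix (Fin 3) (Fin 3) ℤ) *ᵥ v =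
    (L : Matrix (Fin 3) (Fin 3) ℤ) *ᵥ ((L' : Matrix (Fin 3) (Fin 3) ℤ) *ᵥ v) := by
  rw [Matrix.mulVec_mulVec]
  rfl

theorem triv (a g : G) (ha : 2 < trZ (D.lin a)) (hg : D.lin g = 1)
    (hc : D.L a * D.L g = D.L g * D.L a) : D.L g = 1 := by
  have hL := D.hL g
  rw [hg] at hL
  obtain ⟨t, ht⟩ := TrZ hL
  have h1 : ∀ v : Fin 3 → ℤ, (D.L a : Matrix (Fin 3) (Fin 3) ℤ) *ᵥ ((D.L g : Matrix (Fin 3) (Fin 3) ℤ) *ᵥ v) =
      (D.L g : Matrix (Fin 3) (Fin 3) ℤ) *ᵥ ((D.L a : Matrix (Fin 3) (Fin 3) ℤ) *ᵥ v) := by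
    intro v
    rw [← AHyp_mul, ← AHyp_mul, hc]
  have h2 := h1 ![1, 0, 0]
  have h3 : smZ ![1, 0, 0] = 1 := by
    simp [smZ]
  rw [ht, ht, (D.hL a).1, h3, one_smul, Matrix.mulVec_add, (D.hL a).2] at h2
  have h4 := AHyp_embZ (add_left_cancel h2)
  have h5 := fix_zero (D.lin a) ha t h4
  refine AHyp_one fun v => ?_
  rw [ht, h5]
  have h6 : embZ 0 = 0 := by
    funext i
    fin_cases i <;> simp [embZ]
  rw [h6, smul_zero, add_zero]

theorem periodic (a : G) (ha : 2 < trZ (D.lin a)) (i j : I) (m n : ℤ) (hm : m ≠ 0) (hn : n ≠ 0)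
    (hi : (D.π a ^ m) i = i) (hj : (D.π a ^ n) j = j) : i = j := by
  have hk : m * n ≠ 0 := mul_ne_zero hm hn
  have fi : (D.π a ^ (m * n)) i = i := by
    rw [_root_.zpow_mul]
    exact Equiv.Perm.zpow_apply_eq_self_of_apply_eq_self hi n
  have fj : (D.π a ^ (m * n)) j = j := by
    rw [mul_comm, _root_.zpow_mul]
    exact Equiv.Perm.zpow_apply_eq_self_of_apply_eq_self hj m
  rw [← map_zpow] at fi fj
  have gi := D.hπ (a ^ (m * n)) i
  have gj := D.hπ (a ^ (m * n)) j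
  rw [fi] at gi
  rw [fj] at gj
  obtain ⟨d, hd⟩ : ∃ d, d = D.pt i - D.pt j := ⟨_, rfl⟩
  have hsm : d 0 + d 1 + d 2 = 0 := by
    have h1 := D.pt_s i
    have h2 := D.pt_s j
    unfold smZ at h1 h2
    rw [hd]
    simp only [Pi.sub_apply]
    linarith
  have hw : d = embZ ![d 0, d 0 + d 1] := by
    funext r
    fin_cases r
    · simp [embZ]
    · simp [embZ]
    · simp only [embZ, Fin.reduceFinMk, Matrix.cons_val, Matrix.cons_val_one, Matrix.cons_val_zero]
      linarith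
  have hfix : (D.L (a ^ (m * n)) : Matrix (Fin 3) (Fin 3) ℤ) *ᵥ d = d := by
    rw [hd, Matrix.mulVec_sub, ← gi, ← gj]
  rw [hw, (D.hL (a ^ (m * n))).2] at hfix
  have h1 := AHyp_embZ hfix
  have h2 := fix_zero (D.lin (a ^ (m * n))) (by
    rw [map_zpow]
    exact tr_zpow_gt _ ha _ hk) _ h1
  have h3 : d = 0 := by
    rw [hw, h2]
    funext r
    fin_cases r <;> simp [embZ]
  rw [h3] at hd
  exact D.pt_inj (sub_eq_zero.1 hd.symm)

theorem inner_case (a u : G) (ha : 2 < trZ (D.lin a)) (hu : D.L u = 1) :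
    a * u = u * a ∨ FreeTwo a u := by
  classical
  obtain ⟨k, hk⟩ := D.inn u hu
  rcases partM (D.ρ a) (D.π a) (D.hρ a) (periodic D a ha) k with h | h
  · left
    refine D.ker a u ?_
    have h1 : D.ρ a * MulAut.conj k * (D.ρ a)⁻¹ = MulAut.conj k := by
      refine MulEquiv.ext fun v => ?_
      rw [MulAut.mul_apply, MulAut.mul_apply, MulAut.conj_apply, MulAut.conj_apply, _root_.map_mul, _root_.map_mul,
        _root_.map_inv, MulAut.apply_inv_self, h]
    rw [_root_.map_mul, _root_.map_mul, _root_.map_mul, _root_.map_inv, _root_.map_inv, hk, h1, mul_inv_cancel]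
  · right
    refine FreeTwo.of_map D.ρ ?_
    rw [hk]
    exact h

theorem hyp_pair (a b : G) (ha : 2 < trZ (D.lin a)) (hb : D.lin b = D.lin a ∨ D.lin b = 1) :
    Alt a b := by
  obtain ⟨c, hce⟩ : ∃ c, c = a * b * a⁻¹ * b⁻¹ := ⟨_, rfl⟩
  have hlc : D.lin c = 1 := by
    rw [hce, _root_.map_mul, _root_.map_mul, _root_.map_mul, _root_.map_inv, _root_.map_inv]
    rcases hb with h | h
    · rw [h]
      group
    · rw [h]
      group
  have hLc := D.hL c
  rw [hlc] at hLc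
  obtain ⟨t, ht⟩ := TrZ hLc
  by_cases ht0 : t = 0
  · have hL1 : D.L c = 1 := by
      refine AHyp_one fun v => ?_
      rw [ht, ht0]
      have h6 : embZ 0 = 0 := by
        funext i
        fin_cases i <;> simp [embZ]
      rw [h6, smul_zero, add_zero]
    have hcomm : D.L a * D.L b = D.L b * D.L a := by
      rw [hce, _root_.map_mul, _root_.map_mul, _root_.map_mul, _root_.map_inv, _root_.map_inv] at hL1
      rw [mul_inv_eq_one, mul_inv_eq_iff_eq_mul] at hL1
      exact hL1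
    rcases hb with h | h
    · have h1 : D.L (a⁻¹ * b) = 1 := by
        refine triv D a (a⁻¹ * b) ha ?_ ?_
        · rw [_root_.map_mul, _root_.map_inv, h, inv_mul_cancel]
        · rw [_root_.map_mul, _root_.map_inv, mul_inv_cancel_left, mul_assoc, ← hcomm, inv_mul_cancel_left]
      have h2 := Alt.of_mul (inner_case D a (a⁻¹ * b) ha h1)
      rwa [mul_inv_cancel_left] at h2
    · exact Alt.of_comm_or (inner_case D a b ha (triv D a b ha h hcomm))
  · obtain ⟨Lg, hLg⟩ : ∃ Lg : G →* Matrix (Fin 3) (Fin 3) ℤ, ∀ g, Lg g = (D.L g : Matrix (Fin 3) (Fin 3) ℤ) :=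
      ⟨{ toFun := fun g => (D.L g).1
         map_one' := by
          rw [_root_.map_one]
          rfl
         map_mul' := fun g h => by
          rw [_root_.map_mul]
          rfl }, fun _ => rfl⟩
    have hdet : (D.lin a).1 0 0 * (D.lin a).1 1 1 - (D.lin a).1 0 1 * (D.lin a).1 1 0 = 1 := by
      have h1 := (D.lin a).2
      rw [Matrix.det_fin_two] at h1
      exact h1
    have hbase : ∀ (x v v' : V3), (D.T a (x, v)).1 = (D.T a (x, v')).1 := by
      intro x v v'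
      obtain ⟨B, hB, _⟩ := (D.hT a).1
      rw [show D.T a (x, v) = B.app (x, v) from hB _, show D.T a (x, v') = B.app (x, v') from hB _]
      rfl
    have hbb : ((∀ w, Lg b *ᵥ embZ w =
        embZ (lmZ ((D.lin a).1 0 0) ((D.lin a).1 0 1) ((D.lin a).1 1 0) ((D.lin a).1 1 1) w)) ∧
          ∀ p, (D.T b p).1 = (D.T a p).1) ∨
        ((∀ w, Lg b *ᵥ embZ w = embZ w) ∧ ∀ p, (D.T b p).1 = p.1) := by
      rcases hb with h | h
      · left
        refine ⟨fun w => ?_, fun p => ?_⟩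
        · rw [hLg, (D.hL b).2, h, mulVec_lmZ]
        · have h1 : D.T b p = D.T a (D.T (a⁻¹ * b) p) := by
            have h2 : b = a * (a⁻¹ * b) := by group
            nth_rewrite 1 [h2]
            rw [_root_.map_mul]
            rfl
          have h3 : (D.T (a⁻¹ * b) p).1 = p.1 := by
            refine D.base _ ?_ p
            rw [_root_.map_mul, _root_.map_inv, h, inv_mul_cancel]
          have h4 : D.T (a⁻¹ * b) p = (p.1, (D.T (a⁻¹ * b) p).2) := Prod.ext h3 rfl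
          rw [h1, h4]
          exact hbase _ _ _
      · right
        refine ⟨fun w => ?_, D.base b h⟩
        rw [hLg, (D.hL b).2, h]
        congr 1
        exact Matrix.one_mulVec w
    obtain ⟨N, hN, hF⟩ := partH D.T Lg (fun g => by
        rw [hLg]
        exact (D.hT g).1) (fun g v => by
        rw [hLg]
        exact (D.hL g).1 v) a b ((D.lin a).1 0 0) ((D.lin a).1 0 1) ((D.lin a).1 1 0) ((D.lin a).1 1 1) hdet ha
      (fun w => by rw [hLg, (D.hL a).2, mulVec_lmZ]) hbb t ht0 (fun v => by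
        rw [hLg, ← hce]
        exact ht v)
    exact ⟨N, hN, Or.inr hF⟩

end Pool.Agent.Lib.MP_9dbb0e_al.DF
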