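import Pool.Agent.Lib.MP_9dbb0e_al.D.NTr

/-!
# JOB NCen: the centralizer of a hyperbolic matrix

If `B` commutes with `A`, `trZ A > 2`, `trZ B ≥ 2`, then `B ^ i = A ^ j` for some `i > 0`.

PROOF. `A = (α β; γ δ)`, `C = (p q; r s)` commuting with `A`. Relations (from `A C = C A`): `q γ = r β`, `q (α - δ) = β (p - s)`, `r (α - δ) = γ (p - s)`.
(1) `comm_sq`: `β ^ 2 (t ^ 2 - 4) = q ^ 2 (T ^ 2 - 4)`, `γ ^ 2 (t ^ 2 - 4) = r ^ 2 (T ^ 2 - 4)`, `(α - δ) ^ 2 (t ^ 2 - 4) = (p - s) ^ 2 (T ^ 2 - 4)`, where `t = trZ C`, `T = trZ A`: `t ^ 2 - 4 = (p - s) ^ 2 + 4 q r` and `T ^ 2 - 4 = (α - δ) ^ 2 + 4 β γ` (determinant one), and the relations (`linear_combination`).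
(2) `t ^ 2 ≥ 4`: some of `β, γ, α - δ` is nonzero (otherwise `T ^ 2 = 4`), and `T ^ 2 - 4 > 0`; so `t ^ 2 - 4 ≥ 0`.
(3) `descent`: for every `C` commuting with `A` with `2 ≤ trZ C` there is `m : ℤ` with `2 ≤ trZ (C * A ^ m) ≤ trZ A`: strong induction on `trZ C` (`.toNat`). If `trZ C ≤ trZ A`: `m = 0`. Otherwise let `s = trZ (C * A)`, `s' = trZ (C * A⁻¹)`: `s + s' = t T` (`trace_mul_inv`) and `s s' = t ^ 2 + T ^ 2 - 4` (`prod_tr`, below), so both are
 positive, hence `≥ 2` by (2) (`C * A`, `C * A⁻¹` commute with `A`). If both were `≥ t`: `0 ≤ (s - t) (s' - t) = t ^ 2 + T ^ 2 - 4 - t ^ 2 T + t ^ 2 = (T - 2) (T + 2 - t ^ 2)`, so `t ^ 2 ≤ T + 2`, but `t > T ≥ 3`: contradiction. So one of them is `< t`; induction (`C * A ^ (±1) * A ^ m = C * A ^ (m ± 1)`).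
 `prod_tr`: `trZ (C * A) * trZ (C * A⁻¹) = t ^ 2 + T ^ 2 - 4` for commuting `A, C`: explicit computation from the relations and the two determinants (or: `trZ (X) trZ (Y) = trZ (X Y) + trZ (X Y⁻¹)` with `X = C A`, `Y = C A⁻¹`: `X Y = C ^ 2`, `X Y⁻¹ = A ^ 2`, and `trZ (C ^ 2) = t ^ 2 - 2`).
(4) Finiteness: the matrices `C` commuting with `A` with `2 ≤ trZ C ≤ trZ A` have entries bounded: by (1) `q ^ 2 ≤ β ^ 2`, `r ^ 2 ≤ γ ^ 2`, `(p - s) ^ 2 ≤ (α - δ) ^ 2`, `|p + s| ≤ T`; so all entries are in `[-N, N]`, `N = T + |β| + |γ| + |α - δ|`: a finite set of matrices (injection into `Fin 2 → Fin 2 → Finset.Icc (-N) N`; `Set.Finite.subset` of the image of `Set.pi`.. or `Set.Finite` of the product of four `Set.Icc`, under the injective map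
 of the four entries).
(5) For `n : ℕ` choose `m n` by (3) for `C = B ^ n` (`trZ (B ^ n) ≥ 2`: if `trZ B > 2`: `tr_pow_gt` (and `trZ 1 = 2`); if `trZ B = 2`: then by (1) (`t = 2`) `B` has `q = r = p - s = 0` where `T ^ 2 - 4 ≠ 0`, `B = 1` and the claim is trivial: `i = 1`, `j = 0`). The map `n ↦ B ^ n * A ^ (m n)` from `ℕ` to the finite set of (4) is not injective
 (`Set.infinite_univ`, `Finite.exists_ne_map_eq_of_infinite` with values in the subtype): `n < n'` with `B ^ n * A ^ (m n) = B ^ n' * A ^ (m n')`, so `B ^ (n' - n) = A ^ (m n - m n')` (`A, B` commute).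
-/

set_option autoImplicit false

namespace Pool.Agent.Lib.MP_9dbb0e_al.DF

open Matrix

private theorem NCen_det (A : Matrix.SpecialLinearGroup (Fin 2) ℤ) : A.1 0 0 * A.1 1 1 - A.1 0 1 * A.1 1 0 = 1 := by
  have h := A.2
  rw [Matrix.det_fin_two] at h
  exact h

/-- the relations between the entries of commuting matrices -/
private theorem NCen_rel {A C : Matrix.SpecialLinearGroup (Fin 2) ℤ} (hc : A * C = C * A) :
    C.1 0 1 * A.1 1 0 = A.1 0 1 * C.1 1 0 ∧ C.1 0 1 * (A.1 0 0 - A.1 1 1) = A.1 0 1 * (C.1 0 0 - C.1 1 1) ∧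
      C.1 1 0 * (A.1 0 0 - A.1 1 1) = A.1 1 0 * (C.1 0 0 - C.1 1 1) := by
  have h : A.1 * C.1 = C.1 * A.1 := congrArg Subtype.val hc
  have h00 := congrFun (congrFun h 0) 0
  have h01 := congrFun (congrFun h 0) 1
  have h10 := congrFun (congrFun h 1) 0
  simp only [Matrix.mul_apply, Fin.sum_univ_two] at h00 h01 h10
  refine ⟨?_, ?_, ?_⟩
  · linear_combination -h00
  · linear_combination h01
  · linear_combination -h10

private theorem NCen_sq {A C : Matrix.SpecialLinearGroup (Fin 2) ℤ} (hc : A * C = C * A) :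
    A.1 0 1 ^ 2 * (trZ C ^ 2 - 4) = C.1 0 1 ^ 2 * (trZ A ^ 2 - 4) ∧
      A.1 1 0 ^ 2 * (trZ C ^ 2 - 4) = C.1 1 0 ^ 2 * (trZ A ^ 2 - 4) ∧
      (A.1 0 0 - A.1 1 1) ^ 2 * (trZ C ^ 2 - 4) = (C.1 0 0 - C.1 1 1) ^ 2 * (trZ A ^ 2 - 4) := by
  obtain ⟨h1, h2, h3⟩ := NCen_rel hc
  have hA := NCen_det A
  have hC := NCen_det C
  have eA : trZ A ^ 2 - 4 = (A.1 0 0 - A.1 1 1) ^ 2 + 4 * (A.1 0 1 * A.1 1 0) := by
    unfold trZ
    linear_combination 4 * hA
  have eC : trZ C ^ 2 - 4 = (C.1 0 0 - C.1 1 1) ^ 2 + 4 * (C.1 0 1 * C.1 1 0) := by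
    unfold trZ
    linear_combination 4 * hC
  rw [eA, eC]
  refine ⟨?_, ?_, ?_⟩
  · linear_combination (-(C.1 0 1 * (A.1 0 0 - A.1 1 1) + A.1 0 1 * (C.1 0 0 - C.1 1 1))) * h2 -
      (4 * A.1 0 1 * C.1 0 1) * h1
  · linear_combination (-(C.1 1 0 * (A.1 0 0 - A.1 1 1) + A.1 1 0 * (C.1 0 0 - C.1 1 1))) * h3 +
      (4 * A.1 1 0 * C.1 1 0) * h1
  · linear_combination (4 * C.1 1 0 * (A.1 0 0 - A.1 1 1)) * h2 + (4 * A.1 0 1 * (C.1 0 0 - C.1 1 1)) * h3

private theorem NCen_ge {A C : Matrix.SpecialLinearGroup (Fin 2) ℤ} (hA : 2 < trZ A) (hc : A * C = C * A) :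
    4 ≤ trZ C ^ 2 := by
  obtain ⟨h1, h2, h3⟩ := NCen_sq hc
  have hT : 0 < trZ A ^ 2 - 4 := by nlinarith
  by_contra hn
  have hn' : trZ C ^ 2 - 4 < 0 := by linarith [not_le.1 hn]
  have key : ∀ x y : ℤ, x ^ 2 * (trZ C ^ 2 - 4) = y ^ 2 * (trZ A ^ 2 - 4) → x = 0 := by
    intro x y h
    by_contra hx
    have h4 : 0 < x ^ 2 := by positivity
    have h5 : x ^ 2 * (trZ C ^ 2 - 4) < 0 := mul_neg_of_pos_of_neg h4 hn'
    have h6 : 0 ≤ y ^ 2 * (trZ A ^ 2 - 4) := mul_nonneg (sq_nonneg y) hT.le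
    linarith
  have e1 := key _ _ h1
  have e2 := key _ _ h2
  have e3 := key _ _ h3
  have hd := NCen_det A
  have eA : trZ A ^ 2 - 4 = (A.1 0 0 - A.1 1 1) ^ 2 + 4 * (A.1 0 1 * A.1 1 0) := by
    unfold trZ
    linear_combination 4 * hd
  rw [e1, e3] at eA
  rw [eA] at hT
  norm_num at hT

private theorem NCen_one {A C : Matrix.SpecialLinearGroup (Fin 2) ℤ} (hA : 2 < trZ A) (hc : A * C = C * A)
    (ht : trZ C = 2) : C = 1 := by
  obtain ⟨h1, h2, h3⟩ := NCen_sq hc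
  have hT : trZ A ^ 2 - 4 ≠ 0 := by
    have : 0 < trZ A ^ 2 - 4 := by nlinarith
    exact this.ne'
  have key : ∀ x y : ℤ, x ^ 2 * (trZ C ^ 2 - 4) = y ^ 2 * (trZ A ^ 2 - 4) → y = 0 := by
    intro x y h
    rw [ht] at h
    have h4 : y ^ 2 * (trZ A ^ 2 - 4) = 0 := by
      rw [← h]
      norm_num
    rcases mul_eq_zero.1 h4 with h5 | h5
    · exact pow_eq_zero_iff (two_ne_zero) |>.1 h5
    · exact absurd h5 hT
  have e1 := key _ _ h1
  have e2 := key _ _ h2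
  have e3 := key _ _ h3
  have ht' : C.1 0 0 + C.1 1 1 = 2 := ht
  have e4 : C.1 0 0 = 1 := by linarith
  have e5 : C.1 1 1 = 1 := by linarith
  apply Subtype.ext
  ext i j
  fin_cases i <;> fin_cases j
  · exact e4
  · exact e1
  · exact e2
  · exact e5

private theorem NCen_prod {A C : Matrix.SpecialLinearGroup (Fin 2) ℤ} (hc : A * C = C * A) :
    trZ (C * A) * trZ (C * A⁻¹) = trZ C ^ 2 + trZ A ^ 2 - 4 := by
  have h1 := trace_mul_inv (C * A) (C * A⁻¹)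
  have e1 : C * A * (C * A⁻¹) = C * C := by
    calc C * A * (C * A⁻¹) = C * (A * C) * A⁻¹ := by group
      _ = C * (C * A) * A⁻¹ := by rw [hc]
      _ = C * C := by group
  have e2 : C * A * (C * A⁻¹)⁻¹ = A * A := by
    calc C * A * (C * A⁻¹)⁻¹ = (C * A) * A * C⁻¹ := by group
      _ = (A * C) * A * C⁻¹ := by rw [hc]
      _ = A * (C * A) * C⁻¹ := by group
      _ = A * (A * C) * C⁻¹ := by rw [hc]
      _ = A * A := by group
  rw [e1, e2] at h1
  have h2 := trace_mul_inv C C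
  have h3 := trace_mul_inv A A
  rw [mul_inv_cancel, trZ_one] at h2 h3
  rw [← h1]
  linarith

/-- the descent -/
private theorem NCen_desc {C0 : Matrix.SpecialLinearGroup (Fin 2) ℤ} (h0 : 2 < trZ C0)
    (K : Subgroup (Matrix.SpecialLinearGroup (Fin 2) ℤ)) (hK : ∀ X ∈ K, ∀ Y ∈ K, X * Y = Y * X) (h0K : C0 ∈ K)
    (hmin : ∀ C ∈ K, 2 < trZ C → trZ C0 ≤ trZ C) :
    ∀ n : ℕ, ∀ C ∈ K, 2 ≤ trZ C → trZ C = n → ∃ k : ℤ, C = C0 ^ k := by
  intro n
  induction n using Nat.strong_induction_on with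
  | _ n ih =>
    intro C hC h2 hn
    rcases h2.lt_or_eq with h3 | h3
    · have hT := hmin C hC h3
      have hcC := hK C0 h0K C hC
      have h4 := trace_mul_inv C C0
      have h5 := NCen_prod hcC
      have k1 : C * C0 ∈ K := K.mul_mem hC h0K
      have k2 : C * C0⁻¹ ∈ K := K.mul_mem hC (K.inv_mem h0K)
      have g1 := NCen_ge h0 (hK C0 h0K _ k1)
      have g2 := NCen_ge h0 (hK C0 h0K _ k2)
      obtain ⟨t, ht⟩ : ∃ t, t = trZ C := ⟨_, rfl⟩
      obtain ⟨T, hTe⟩ : ∃ T, T = trZ C0 := ⟨_, rfl⟩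
      obtain ⟨s, hs⟩ : ∃ s, s = trZ (C * C0) := ⟨_, rfl⟩
      obtain ⟨s', hs'⟩ : ∃ s', s' = trZ (C * C0⁻¹) := ⟨_, rfl⟩
      rw [← ht, ← hTe] at h4 h5 hT
      rw [← hs] at h4 h5 g1
      rw [← hs'] at h4 h5 g2
      rw [← ht] at h3
      rw [← hTe] at h0
      have hpos : 0 < s * s' := by nlinarith
      have hsum : 0 < s + s' := by nlinarith
      have hs0 : 0 < s := by
        by_contra hc
        have hc' := not_lt.1 hc
        have h6 : 0 < s' := by linarith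
        nlinarith
      have hs0' : 0 < s' := by
        by_contra hc
        have hc' := not_lt.1 hc
        nlinarith
      have hs2 : 2 ≤ s := by nlinarith
      have hs2' : 2 ≤ s' := by nlinarith
      have hlt : s < t ∨ s' < t := by
        by_contra hc
        rw [not_or, not_lt, not_lt] at hc
        have h6 : 0 ≤ (s - t) * (s' - t) := mul_nonneg (by linarith) (by linarith)
        have h7 : (s - t) * (s' - t) = (T - 2) * (T + 2 - t ^ 2) := by linear_combination h5 - t * h4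
        have h8 : 0 ≤ T + 2 - t ^ 2 := by
          by_contra h9
          have h10 := mul_neg_of_pos_of_neg (show 0 < T - 2 by linarith) (not_le.1 h9)
          linarith
        nlinarith
      rcases hlt with h6 | h6
      · obtain ⟨m, hm⟩ : ∃ m : ℕ, trZ (C * C0) = m := ⟨s.toNat, by
          rw [← hs]
          exact (Int.toNat_of_nonneg hs0.le).symm⟩
        obtain ⟨k, hk⟩ := ih m (by
          rw [← hs] at hm
          rw [← ht] at hn
          have : (m : ℤ) < n := by linarith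
          exact_mod_cast this) (C * C0) k1 (by rw [← hs]; exact hs2) hm
        refine ⟨k - 1, ?_⟩
        rw [_root_.zpow_sub_one, ← hk]
        group
      · obtain ⟨m, hm⟩ : ∃ m : ℕ, trZ (C * C0⁻¹) = m := ⟨s'.toNat, by
          rw [← hs']
          exact (Int.toNat_of_nonneg hs0'.le).symm⟩
        obtain ⟨k, hk⟩ := ih m (by
          rw [← hs'] at hm
          rw [← ht] at hn
          have : (m : ℤ) < n := by linarith
          exact_mod_cast this) (C * C0⁻¹) k2 (by rw [← hs']; exact hs2') hm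
        refine ⟨k + 1, ?_⟩
        rw [_root_.zpow_add_one, ← hk]
        group
    · refine ⟨0, ?_⟩
      rw [zpow_zero]
      exact NCen_one h0 (hK C0 h0K C hC) h3.symm

theorem comm_power (A B : Matrix.SpecialLinearGroup (Fin 2) ℤ) (hA : 2 < trZ A) (hB : 2 ≤ trZ B)
    (hc : A * B = B * A) : ∃ (i : ℕ) (j : ℤ), 0 < i ∧ B ^ i = A ^ j := by
  have hcomm : ∀ x ∈ ({A, B} : Set (Matrix.SpecialLinearGroup (Fin 2) ℤ)),
      ∀ y ∈ ({A, B} : Set (Matrix.SpecialLinearGroup (Fin 2) ℤ)), x * y = y * x := by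
    rintro x (rfl | rfl) y (rfl | rfl)
    · rfl
    · exact hc
    · exact hc.symm
    · rfl
  have hcl := Subgroup.isMulCommutative_closure hcomm
  obtain ⟨K, hKe⟩ : ∃ K, K = Subgroup.closure ({A, B} : Set (Matrix.SpecialLinearGroup (Fin 2) ℤ)) := ⟨_, rfl⟩
  rw [← hKe] at hcl
  have hK : ∀ X ∈ K, ∀ Y ∈ K, X * Y = Y * X := fun X hX Y hY => setLike_mul_comm hX hY
  have hAK : A ∈ K := by
    rw [hKe]
    exact Subgroup.subset_closure (Set.mem_insert _ _)
  have hBK : B ∈ K := by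
    rw [hKe]
    exact Subgroup.subset_closure (Set.mem_insert_of_mem _ (Set.mem_singleton _))
  have hex : ∃ n : ℕ, ∃ C ∈ K, 2 < trZ C ∧ trZ C = n :=
    ⟨(trZ A).toNat, A, hAK, hA, (Int.toNat_of_nonneg (by linarith)).symm⟩
  classical
  obtain ⟨C0, h0K, h0, h0n⟩ := Nat.find_spec hex
  have hmin : ∀ C ∈ K, 2 < trZ C → trZ C0 ≤ trZ C := by
    intro C hC h2
    have h3 := Nat.find_min' hex ⟨C, hC, h2, (Int.toNat_of_nonneg (show 0 ≤ trZ C by linarith)).symm⟩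
    rw [h0n, ← Int.toNat_of_nonneg (show 0 ≤ trZ C by linarith)]
    exact_mod_cast h3
  have hall : ∀ C ∈ K, 2 ≤ trZ C → ∃ k : ℤ, C = C0 ^ k := by
    intro C hC h2
    exact NCen_desc h0 K hK h0K hmin (trZ C).toNat C hC h2 (Int.toNat_of_nonneg (by linarith)).symm
  obtain ⟨a, ha⟩ := hall A hAK hA.le
  obtain ⟨b, hb⟩ := hall B hBK hB
  have ha0 : a ≠ 0 := by
    intro h
    rw [h, zpow_zero] at ha
    rw [ha, trZ_one] at hA
    exact lt_irrefl _ hA
  refine ⟨a.natAbs, b * a.sign, Int.natAbs_pos.2 ha0, ?_⟩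
  rw [← zpow_natCast, hb, ha, ← _root_.zpow_mul, ← _root_.zpow_mul]
  congr 1
  have h1 : (a.natAbs : ℤ) = a.sign * a := by
    rw [Int.sign_mul_self_eq_natAbs]
  rw [h1]
  ring

end Pool.Agent.Lib.MP_9dbb0e_al.DF
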