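import Pool.Agent.Lib.MP_9dbb0e_al.D.AHyp
import Pool.Agent.Lib.MP_9dbb0e_al.D.NCen

/-!
# JOB AMain: the abstract theorem

PROOFS.
`hyp_comm`: `lin a`, `lin b` commute, `trZ (lin a) > 2`, `trZ (lin b) ≥ 2`. `comm_power`: `(lin b) ^ i = (lin a) ^ j`, `i > 0`. If `j = 0`: `lin (b ^ i) = 1`, `hyp_pair a (b ^ i)`, `Alt.pow 1 i`. If `j > 0` (`j = (n : ℤ)`): `a' = a ^ n`, `b' = b ^ i`: `lin b' = lin a'`, `trZ (lin a') > 2` (`tr_pow_gt`), `hyp_pair`, `Alt.pow n i`.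
 If `j < 0` (`j = - n`): `a' = (a⁻¹) ^ n`: `lin a' = (lin a) ^ (-n) = lin b'`, `trZ (lin a⁻¹) = trZ (lin a)` (`trZ_inv`); `hyp_pair`, `Alt.pow n i` for `a⁻¹`, `b`, then `Alt.inv`.
`comm_case`: `lin a`, `lin b` commute. `a' = a ^ 12`, `b' = b ^ 12`: traces `≥ 2` (`tr_pow12`), linear parts commute. If `trZ (lin a') > 2`: `hyp_comm`. If `trZ (lin b') > 2`: `hyp_comm b' a'`, `Alt.symm`. Otherwise both are `2`: `par_pair` gives `g₀ ∈ SL2`, `k, l`; `lin_surj`: `g₀ = lin g`; `par (g a' g⁻¹) (g b' g⁻¹)`, `Alt.conj`. Finally `Alt.pow 12 12`.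
`AD_PA`: `dich` gives `n`: if `FreeTwo (a ^ n) (b ^ n)`: done. Otherwise `comm_case (a ^ n) (b ^ n)` and `Alt.pow n n`.
-/

set_option autoImplicit false

namespace Pool.Agent.Lib.MP_9dbb0e_al.DF

open Matrix FreeGroup

variable {G I : Type} [Group G] (D : AD G I)

theorem hyp_comm (a b : G) (ha : 2 < trZ (D.lin a)) (hb : 2 ≤ trZ (D.lin b))
    (hc : D.lin a * D.lin b = D.lin b * D.lin a) : Alt a b := by
  obtain ⟨i, j, hi, hij⟩ := comm_power (D.lin a) (D.lin b) ha hb hc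
  rcases lt_trichotomy j 0 with hj | hj | hj
  · obtain ⟨n, hn⟩ : ∃ n : ℕ, j = -(n : ℤ) := ⟨(-j).toNat, by
      rw [Int.toNat_of_nonneg (by linarith), neg_neg]⟩
    have hn0 : 0 < n := by
      rw [hn] at hj
      have h1 : (0 : ℤ) < n := by linarith
      exact_mod_cast h1
    refine Alt.inv (Alt.pow n i hn0 hi (hyp_pair D (a⁻¹ ^ n) (b ^ i) ?_ (Or.inl ?_)))
    · rw [map_pow, _root_.map_inv]
      exact tr_pow_gt _ (by rw [trZ_inv]; exact ha) n hn0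
    · rw [map_pow, map_pow, _root_.map_inv, hij, hn, _root_.zpow_neg, zpow_natCast, inv_pow]
  · refine Alt.pow 1 i one_pos hi ?_
    rw [pow_one]
    refine hyp_pair D a (b ^ i) ha (Or.inr ?_)
    rw [map_pow, hij, hj, zpow_zero]
  · obtain ⟨n, hn⟩ : ∃ n : ℕ, j = (n : ℤ) := ⟨j.toNat, (Int.toNat_of_nonneg hj.le).symm⟩
    have hn0 : 0 < n := by
      rw [hn] at hj
      exact_mod_cast hj
    refine Alt.pow n i hn0 hi (hyp_pair D (a ^ n) (b ^ i) ?_ (Or.inl ?_))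
    · rw [map_pow]
      exact tr_pow_gt _ ha n hn0
    · rw [map_pow, map_pow, hij, hn, zpow_natCast]

theorem comm_case (a b : G) (hc : D.lin a * D.lin b = D.lin b * D.lin a) : Alt a b := by
  have hA : 2 ≤ trZ (D.lin (a ^ 12)) := by
    rw [map_pow]
    exact tr_pow12 _
  have hB : 2 ≤ trZ (D.lin (b ^ 12)) := by
    rw [map_pow]
    exact tr_pow12 _
  have hcomm : D.lin (a ^ 12) * D.lin (b ^ 12) = D.lin (b ^ 12) * D.lin (a ^ 12) := by
    rw [map_pow, map_pow]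
    exact (Commute.pow_pow (show Commute (D.lin a) (D.lin b) from hc) 12 12).eq
  refine Alt.pow 12 12 (by norm_num) (by norm_num) ?_
  rcases hA.lt_or_eq with h1 | h1
  · exact hyp_comm D _ _ h1 hB hcomm
  rcases hB.lt_or_eq with h2 | h2
  · exact Alt.symm (hyp_comm D _ _ h2 hA hcomm.symm)
  obtain ⟨g0, k, l, hk, hl⟩ := par_pair _ _ h1.symm h2.symm hcomm
  obtain ⟨g, hg⟩ := D.lin_surj g0
  refine Alt.conj g (D.par _ _ ⟨k, ?_⟩ ⟨l, ?_⟩)
  · rw [_root_.map_mul, _root_.map_mul, _root_.map_inv, hg]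
    exact hk
  · rw [_root_.map_mul, _root_.map_mul, _root_.map_inv, hg]
    exact hl

include D in
theorem AD_PA : PA G := by
  refine PA_iff.2 fun a b => ?_
  obtain ⟨n, hn, h | h⟩ := D.dich a b
  · exact Alt.pow n n hn hn (comm_case D _ _ h)
  · exact ⟨n, hn, Or.inr h⟩

end Pool.Agent.Lib.MP_9dbb0e_al.DF
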