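import Pool.Agent.Lib.MP_9dbb0e_al.D.TRel
import Pool.Agent.Lib.MP_9dbb0e_al.D.TLin

/-!
# JOB BDefs: the braid group on four strands, abstractly, and its homomorphisms

`B4 G`: generators `a, b, c`, braid relations, universal property. `F2 = FreeGroup (Fin 2)`, `x = of 0`, `y = of 1`.
`αa : x ↦ x, y ↦ x y`, `αb : x ↦ x y⁻¹, y ↦ y`, `αc : x ↦ x, y ↦ y x`.

PROOFS. The inverses: `αa⁻¹ : y ↦ x⁻¹ y`, `αb⁻¹ : x ↦ x y`, `αc⁻¹ : y ↦ y x⁻¹`: both compositions are the identity: `FreeGroup.ext_hom`, on the two letters (`fin_cases`, `simp [FreeGroup.lift_apply_of]`).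
`α_braid`: `MulEquiv.ext`, enough on the two letters: two automorphisms of a free group which agree on the letters are equal (private lemma via `FreeGroup.ext_hom`); compute both sides on the letters: `αa αb αa`: etc. (`simp`, `group`).
`exists_T` etc.: from `D.lift` with the relations `S_braid, c3_comm, c3_braid` (TRel.lean). For `SL3`, `SL2`: the relations by `decide` or `Subtype.ext` and `ext i j; fin_cases i; fin_cases j; simp [..]`/`decide`. For `ε`: `Multiplicative ℤ` is commutative.
-/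

set_option autoImplicit false

namespace Pool.Agent.Lib.MP_9dbb0e_al.DF

open FreeGroup
open scoped Matrix

/-- the braid group on four strands: generators and universal property -/
structure B4 (G : Type) [Group G] where
  a : G
  b : G
  c : G
  hab : a * b * a = b * a * b
  hac : a * c = c * a
  hbc : b * c * b = c * b * c
  gen : Subgroup.closure ({a, b, c} : Set G) = ⊤
  lift : ∀ {H : Type} [Group H] (x y z : H), x * y * x = y * x * y → x * z = z * x →
    y * z * y = z * y * z → ∃ F : G →* H, F a = x ∧ F b = y ∧ F c = z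

/-- the free group of rank two -/
abbrev F2 : Type := FreeGroup (Fin 2)

private theorem BDefs_inv (f g : F2 →* F2) (h0 : f (g (of 0)) = of 0) (h1 : f (g (of 1)) = of 1) (x : F2) :
    f (g x) = x := by
  have h : f.comp g = MonoidHom.id F2 := by
    refine FreeGroup.ext_hom _ _ ?_
    rw [Fin.forall_fin_two]
    exact ⟨h0, h1⟩
  exact DFunLike.congr_fun h x

def αa : MulAut F2 where
  toFun := FreeGroup.lift ![of 0, of 0 * of 1]
  invFun := FreeGroup.lift ![of 0, (of 0)⁻¹ * of 1]
  left_inv := by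
    intro x
    exact BDefs_inv (FreeGroup.lift ![of 0, (of 0)⁻¹ * of 1]) (FreeGroup.lift ![of 0, of 0 * of 1]) (by simp)
      (by simp) x
  right_inv := by
    intro x
    exact BDefs_inv (FreeGroup.lift ![of 0, of 0 * of 1]) (FreeGroup.lift ![of 0, (of 0)⁻¹ * of 1]) (by simp)
      (by simp) x
  map_mul' := fun x y => _root_.map_mul _ x y

def αb : MulAut F2 where
  toFun := FreeGroup.lift ![of 0 * (of 1)⁻¹, of 1]
  invFun := FreeGroup.lift ![of 0 * of 1, of 1]
  left_inv := by
    intro x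
    exact BDefs_inv (FreeGroup.lift ![of 0 * of 1, of 1]) (FreeGroup.lift ![of 0 * (of 1)⁻¹, of 1]) (by simp)
      (by simp) x
  right_inv := by
    intro x
    exact BDefs_inv (FreeGroup.lift ![of 0 * (of 1)⁻¹, of 1]) (FreeGroup.lift ![of 0 * of 1, of 1]) (by simp)
      (by simp) x
  map_mul' := fun x y => _root_.map_mul _ x y

def αc : MulAut F2 where
  toFun := FreeGroup.lift ![of 0, of 1 * of 0]
  invFun := FreeGroup.lift ![of 0, of 1 * (of 0)⁻¹]
  left_inv := by
    intro x
    exact BDefs_inv (FreeGroup.lift ![of 0, of 1 * (of 0)⁻¹]) (FreeGroup.lift ![of 0, of 1 * of 0]) (by simp)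
      (by simp) x
  right_inv := by
    intro x
    exact BDefs_inv (FreeGroup.lift ![of 0, of 1 * of 0]) (FreeGroup.lift ![of 0, of 1 * (of 0)⁻¹]) (by simp)
      (by simp) x
  map_mul' := fun x y => _root_.map_mul _ x y

theorem αa_x : αa (of 0) = of 0 := by
  show (FreeGroup.lift ![of 0, of 0 * of 1] : F2 →* F2) (of 0) = of 0
  simp

theorem αa_y : αa (of 1) = of 0 * of 1 := by
  show (FreeGroup.lift ![of 0, of 0 * of 1] : F2 →* F2) (of 1) = of 0 * of 1
  simp

theorem αb_x : αb (of 0) = of 0 * (of 1)⁻¹ := by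
  show (FreeGroup.lift ![of 0 * (of 1)⁻¹, of 1] : F2 →* F2) (of 0) = of 0 * (of 1)⁻¹
  simp

theorem αb_y : αb (of 1) = of 1 := by
  show (FreeGroup.lift ![of 0 * (of 1)⁻¹, of 1] : F2 →* F2) (of 1) = of 1
  simp

theorem αc_x : αc (of 0) = of 0 := by
  show (FreeGroup.lift ![of 0, of 1 * of 0] : F2 →* F2) (of 0) = of 0
  simp

theorem αc_y : αc (of 1) = of 1 * of 0 := by
  show (FreeGroup.lift ![of 0, of 1 * of 0] : F2 →* F2) (of 1) = of 1 * of 0
  simp

/-- automorphisms are determined by the two letters -/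
theorem aut2_ext {g h : MulAut F2} (h0 : g (of 0) = h (of 0)) (h1 : g (of 1) = h (of 1)) :
    g = h := by
  have h2 : g.toMonoidHom = h.toMonoidHom := by
    refine FreeGroup.ext_hom _ _ ?_
    rw [Fin.forall_fin_two]
    exact ⟨h0, h1⟩
  exact MulEquiv.ext fun x => DFunLike.congr_fun h2 x

variable {G : Type} [Group G] (D : B4 G)

theorem exists_T : ∃ F : G →* Equiv.Perm (V3 × V3), F D.a = S1 ∧ F D.b = S2 ∧
    F D.c = U1 * U0 * S1 := D.lift S1 S2 (U1 * U0 * S1) S_braid c3_comm c3_braid

theorem exists_L : ∃ F : G →* SL3, F D.a = LS1 ∧ F D.b = LS2 ∧ F D.c = LU1 * LU0 * LS1 := by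
  refine D.lift LS1 LS2 (LU1 * LU0 * LS1) ?_ ?_ ?_
  · apply Subtype.ext
    show LS1.1 * LS2.1 * LS1.1 = LS2.1 * LS1.1 * LS2.1
    ext i j
    fin_cases i <;> fin_cases j <;> simp [LS1, LS2, Matrix.mul_apply, Fin.sum_univ_three]
  · apply Subtype.ext
    show LS1.1 * (LU1.1 * LU0.1 * LS1.1) = (LU1.1 * LU0.1 * LS1.1) * LS1.1
    ext i j
    fin_cases i <;> fin_cases j <;> simp [LS1, LU0, LU1, Matrix.mul_apply, Fin.sum_univ_three]
  · apply Subtype.ext
    show LS2.1 * (LU1.1 * LU0.1 * LS1.1) * LS2.1 = (LU1.1 * LU0.1 * LS1.1) * LS2.1 * (LU1.1 * LU0.1 * LS1.1)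
    ext i j
    fin_cases i <;> fin_cases j <;> simp [LS1, LS2, LU0, LU1, Matrix.mul_apply, Fin.sum_univ_three]

theorem exists_lin : ∃ F : G →* SL2, F D.a = As ∧ F D.b = At ∧ F D.c = As := by
  have h : As * At * As = At * As * At := by
    apply Subtype.ext
    show As.1 * At.1 * As.1 = At.1 * As.1 * At.1
    ext i j
    fin_cases i <;> fin_cases j <;> simp [As, At, Matrix.mul_apply, Fin.sum_univ_two]
  exact D.lift As At As h rfl h.symm

theorem exists_ρ : ∃ F : G →* MulAut F2, F D.a = αa ∧ F D.b = αb ∧ F D.c = αc := by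
  refine D.lift αa αb αc ?_ ?_ ?_
  · refine aut2_ext ?_ ?_
    · simp only [MulAut.mul_apply, _root_.map_mul, _root_.map_inv, αa_x, αa_y, αb_x, αb_y]
      group
    · simp only [MulAut.mul_apply, _root_.map_mul, _root_.map_inv, αa_x, αa_y, αb_x, αb_y]
      group
  · refine aut2_ext ?_ ?_
    · simp only [MulAut.mul_apply, αa_x, αc_x]
    · simp only [MulAut.mul_apply, _root_.map_mul, αa_x, αa_y, αc_x, αc_y]
      group
  · refine aut2_ext ?_ ?_
    · simp only [MulAut.mul_apply, _root_.map_mul, _root_.map_inv, αc_x, αc_y, αb_x, αb_y]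
      group
    · simp only [MulAut.mul_apply, _root_.map_mul, _root_.map_inv, αc_x, αc_y, αb_x, αb_y]
      group

theorem exists_ε : ∃ F : G →* Multiplicative ℤ, F D.a = Multiplicative.ofAdd 1 ∧
    F D.b = Multiplicative.ofAdd 1 ∧ F D.c = Multiplicative.ofAdd 1 :=
  D.lift (Multiplicative.ofAdd 1) (Multiplicative.ofAdd 1) (Multiplicative.ofAdd 1) rfl rfl rfl

/-- the action by bundle maps -/
noncomputable def B4.T : G →* Equiv.Perm (V3 × V3) := (exists_T D).choose

theorem B4.T_spec : D.T D.a = S1 ∧ D.T D.b = S2 ∧ D.T D.c = U1 * U0 * S1 := (exists_T D).choose_spec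

/-- the integral matrices -/
noncomputable def B4.L : G →* SL3 := (exists_L D).choose

theorem B4.L_spec : D.L D.a = LS1 ∧ D.L D.b = LS2 ∧ D.L D.c = LU1 * LU0 * LS1 :=
  (exists_L D).choose_spec

/-- the linear part -/
noncomputable def B4.lin : G →* SL2 := (exists_lin D).choose

theorem B4.lin_spec : D.lin D.a = As ∧ D.lin D.b = At ∧ D.lin D.c = As := (exists_lin D).choose_spec

/-- the action on the free group of rank two -/
noncomputable def B4.r : G →* MulAut F2 := (exists_ρ D).choose

theorem B4.r_spec : D.r D.a = αa ∧ D.r D.b = αb ∧ D.r D.c = αc := (exists_ρ D).choose_spec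

/-- the exponent sum -/
noncomputable def B4.ε : G →* Multiplicative ℤ := (exists_ε D).choose

theorem B4.ε_spec : D.ε D.a = Multiplicative.ofAdd 1 ∧ D.ε D.b = Multiplicative.ofAdd 1 ∧
    D.ε D.c = Multiplicative.ofAdd 1 := (exists_ε D).choose_spec

/-- a subgroup which contains the generators -/
theorem B4.mem_of (H : Subgroup G) (ha : D.a ∈ H) (hb : D.b ∈ H) (hc : D.c ∈ H) (g : G) : g ∈ H := by
  have h : Subgroup.closure ({D.a, D.b, D.c} : Set G) ≤ H := by
    rw [Subgroup.closure_le]
    rintro x (rfl | rfl | hx)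
    · exact ha
    · exact hb
    · rw [Set.mem_singleton_iff] at hx
      rw [hx]
      exact hc
  rw [D.gen] at h
  exact h (Subgroup.mem_top g)

end Pool.Agent.Lib.MP_9dbb0e_al.DF
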