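import Pool.Agent.Lib.MP_9dbb0e_al.D.BRho

/-!
# JOB BInn: elements acting trivially

PROOFS. `L_lin`: `(D.L g, D.lin g) ∈ LG`: the set of these `g` is a subgroup (preimage of `LG` under `D.L.prod D.lin`), generators: `LS1_mem`, `LS2_mem`, and `(LU1 * LU0 * LS1, As) = (LU1, -1) * (LU0, -1) * (LS1, As)`. `T_L`: the same for `(D.T g, D.L g) ∈ BG` (`S1_mem` ..).
`lin_surj4`: `SL(2, ℤ)` is generated by `S = (0, -1; 1, 0)` and `T = (1, 1; 0, 1)` (`Matrix.SpecialLinearGroup.SL2Z_generators` or `ModularGroup`: `SpecialLinearGroup.SL2Z_generators : Subgroup.closure {S, T} = ⊤`): the range of `lin` contains `T = As = lin a` and `S = lin (a b a)⁻¹` (`As * At * As = (0, 1; -1, 0) = S⁻¹`).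
`L_ι`: `D.L (D.ι f) *ᵥ v = v + smZ v • embZ ![2 * (ab f).1, 2 * (ab f).2]`: the matrices `L` with `L *ᵥ v = v + smZ v • embZ ![2 m, 2 n]` (all `v`) multiply by adding `(m, n)` (`smZ (embZ w) = 0`); on the letters: `LU0 * LU1`: `(1, 0)`, `LU1 * LU2`: `(0, 1)`; `FreeGroup.induction_on` (or: the hom `f ↦ L (ι f)` and closure).
`inn4`: `L g = 1` implies `lin g = 1` (from `L_lin`: `embZ w = embZ (lin g *ᵥ w)` for all `w`, `embZ` injective; entries from `w = ![1, 0], ![0, 1]`). `lin_one`: `g = ι f * Z ^ m` (`Z = (a b) ^ 6`). `L (ι f) = 1` (`L_Z`), so `ab f = 0` (`L_ι` at `v = ![1, 0, 0]`). `D.r g = conj f * conj k0 ^ m = conj (f * k0 ^ m)` (`r_ι`, `r_Z`), `ab (f * k0 ^ m) = 0` (`ab k0 = 0`), so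
 `f * k0 ^ m = P2 k`. `P2 (ρ g v) = P2 k * P2 v * (P2 k)⁻¹`, `P2_inj`: `ρ g = conj k`.
`ker4`: `c = g h g⁻¹ h⁻¹`, `ρ c = 1`: `D.r c (P2 v) = P2 v`, so `D.r c = 1` (`fix_all`). `ab w = act2 (lin c) (ab w)` (`ab_r`) for all `w`, so `lin c = 1` (take `w = of 0, of 1`: `ab = (1, 0), (0, 1)`). `lin_one`: `c = ι f * Z ^ m`; `ε c = 1` (the target is commutative), `ε (ι f) = 1`, `ε Z = ofAdd 12`: `12 m = 0`, `m = 0`. `conj f = 1`: `f = 1` (`conj_inj`, letters `0 ≠ 1`). So `c = 1`.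
`ker4'`: the same with `D.r` instead of `D.ρ`.
-/

set_option autoImplicit false

namespace Pool.Agent.Lib.MP_9dbb0e_al.DF

open FreeGroup
open scoped Matrix

variable {G : Type} [Group G] (D : B4 G)

theorem L_lin (g : G) : (D.L g, D.lin g) ∈ LG := by
  refine D.mem_of (LG.comap (D.L.prod D.lin)) ?_ ?_ ?_ g
  · show (D.L D.a, D.lin D.a) ∈ LG
    rw [D.L_spec.1, D.lin_spec.1]
    exact LS1_mem
  · show (D.L D.b, D.lin D.b) ∈ LG
    rw [D.L_spec.2.1, D.lin_spec.2.1]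
    exact LS2_mem
  · show (D.L D.c, D.lin D.c) ∈ LG
    rw [D.L_spec.2.2, D.lin_spec.2.2]
    have h1 := LG.mul_mem (LG.mul_mem LU1_mem LU0_mem) LS1_mem
    have h2 : ((LU1, -1) * (LU0, -1) * (LS1, As) : SL3 × SL2) = (LU1 * LU0 * LS1, As) :=
      Prod.ext rfl (by
        show (-1) * (-1) * As = As
        rw [neg_mul_neg, one_mul, one_mul])
    rw [h2] at h1
    exact h1

theorem T_L (g : G) : (D.T g, D.L g) ∈ BG := by
  refine D.mem_of (BG.comap (D.T.prod D.L)) ?_ ?_ ?_ g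
  · show (D.T D.a, D.L D.a) ∈ BG
    rw [D.T_spec.1, D.L_spec.1]
    exact S1_mem
  · show (D.T D.b, D.L D.b) ∈ BG
    rw [D.T_spec.2.1, D.L_spec.2.1]
    exact S2_mem
  · show (D.T D.c, D.L D.c) ∈ BG
    rw [D.T_spec.2.2, D.L_spec.2.2]
    exact BG.mul_mem (BG.mul_mem U1_mem U0_mem) S1_mem

theorem lin_surj4 : Function.Surjective D.lin := by
  rw [← MonoidHom.range_eq_top, eq_top_iff, ← SpecialLinearGroup.SL2Z_generators,
    Subgroup.closure_le]
  rintro x (rfl | hx)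
  · refine ⟨(D.a * D.b * D.a)⁻¹, ?_⟩
    rw [_root_.map_inv, _root_.map_mul, _root_.map_mul, D.lin_spec.1, D.lin_spec.2.1]
    refine inv_eq_of_mul_eq_one_right ?_
    refine Subtype.ext ?_
    ext i j
    fin_cases i <;> fin_cases j <;>
      simp [As, At, ModularGroup.S, Matrix.mul_apply, Fin.sum_univ_two]
  · rw [Set.mem_singleton_iff] at hx
    subst hx
    refine ⟨D.a, ?_⟩
    rw [D.lin_spec.1]
    rfl

private theorem bInn_smZ (w : Fin 2 → ℤ) : smZ (embZ w) = 0 := by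
  simp [smZ, embZ]

private theorem bInn_smZ_add (v v' : Fin 3 → ℤ) : smZ (v + v') = smZ v + smZ v' := by
  simp only [smZ, Pi.add_apply]
  ring

private theorem bInn_smZ_smul (c : ℤ) (v : Fin 3 → ℤ) : smZ (c • v) = c * smZ v := by
  simp only [smZ, Pi.smul_apply, smul_eq_mul]
  ring

private theorem bInn_embZ_add (w w' : Fin 2 → ℤ) : embZ (w + w') = embZ w + embZ w' := by
  funext i
  fin_cases i <;> simp [embZ] <;> ring

private theorem bInn_embZ_inj {w w' : Fin 2 → ℤ} (h : embZ w = embZ w') : w = w' := by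
  have h0 := congrFun h 0
  have h2 := congrFun h 2
  have e0 : w 0 = w' 0 := h0
  have e2 : -w 1 = -w' 1 := h2
  funext i
  fin_cases i
  · exact e0
  · exact neg_injective e2

private theorem bInn_vec (p q : ℤ × ℤ) : (![2 * (p + q).1, 2 * (p + q).2] : Fin 2 → ℤ) =
    ![2 * p.1, 2 * p.2] + ![2 * q.1, 2 * q.2] := by
  funext i
  fin_cases i
  · show 2 * (p.1 + q.1) = 2 * p.1 + 2 * q.1
    ring
  · show 2 * (p.2 + q.2) = 2 * p.2 + 2 * q.2
    ring

private theorem bInn_ab0 : ab (of 0) = (1, 0) := by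
  simp [ab, wd]

private theorem bInn_ab1 : ab (of 1) = (0, 1) := by
  simp [ab, wd]

private theorem bInn_ab_one : ab 1 = 0 := by
  have h := ab_mul 1 1
  rw [one_mul] at h
  exact left_eq_add.1 h

theorem L_ι (f : F2) (v : Fin 3 → ℤ) : (D.L (D.ι f) : Matrix (Fin 3) (Fin 3) ℤ) *ᵥ v =
    v + smZ v • embZ ![2 * (ab f).1, 2 * (ab f).2] := by
  have hinv : ∀ f : F2, (∀ v : Fin 3 → ℤ, (D.L (D.ι f) : Matrix (Fin 3) (Fin 3) ℤ) *ᵥ v =
      v + smZ v • embZ ![2 * (ab f).1, 2 * (ab f).2]) →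
      ∀ v : Fin 3 → ℤ, (D.L (D.ι f⁻¹) : Matrix (Fin 3) (Fin 3) ℤ) *ᵥ v =
      v + smZ v • embZ ![2 * (ab f⁻¹).1, 2 * (ab f⁻¹).2] := by
    intro f hf v
    have h1 := hf (v + smZ v • embZ ![2 * (ab f⁻¹).1, 2 * (ab f⁻¹).2])
    rw [bInn_smZ_add, bInn_smZ_smul, bInn_smZ, mul_zero, add_zero, add_assoc, ← smul_add,
      ← bInn_embZ_add, ← bInn_vec, ab_inv, neg_add_cancel] at h1
    have h2 : embZ ![2 * (0 : ℤ × ℤ).1, 2 * (0 : ℤ × ℤ).2] = 0 := by
      funext i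
      fin_cases i <;> simp [embZ]
    rw [h2, smul_zero, add_zero] at h1
    have h3 : (D.L (D.ι f⁻¹) : Matrix (Fin 3) (Fin 3) ℤ) *
        (D.L (D.ι f) : Matrix (Fin 3) (Fin 3) ℤ) = 1 := by
      rw [← Matrix.SpecialLinearGroup.coe_mul, ← _root_.map_mul, ← _root_.map_mul, inv_mul_cancel,
        _root_.map_one, _root_.map_one]
      rfl
    rw [ab_inv]
    conv_lhs => rw [← h1]
    rw [Matrix.mulVec_mulVec, h3, Matrix.one_mulVec]
  refine FreeGroup.induction_on (C := fun f => ∀ v : Fin 3 → ℤ,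
    (D.L (D.ι f) : Matrix (Fin 3) (Fin 3) ℤ) *ᵥ v =
      v + smZ v • embZ ![2 * (ab f).1, 2 * (ab f).2]) f ?_ ?_ ?_ ?_ v
  · intro v
    rw [_root_.map_one, _root_.map_one, bInn_ab_one]
    have h2 : embZ ![2 * (0 : ℤ × ℤ).1, 2 * (0 : ℤ × ℤ).2] = 0 := by
      funext i
      fin_cases i <;> simp [embZ]
    rw [h2, smul_zero, add_zero]
    exact Matrix.one_mulVec v
  · intro x v
    fin_cases x
    · show (D.L (D.ι (of 0)) : Matrix (Fin 3) (Fin 3) ℤ) *ᵥ v =
        v + smZ v • embZ ![2 * (ab (of 0)).1, 2 * (ab (of 0)).2]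
      have h1 : D.ι (of 0) = D.X := FreeGroup.lift_apply_of
      rw [h1, L_X, bInn_ab0]
      funext i
      fin_cases i <;> simp [LU0, LU1, smZ, embZ, Matrix.mulVec, dotProduct, Matrix.mul_apply,
        Fin.sum_univ_three] <;> ring
    · show (D.L (D.ι (of 1)) : Matrix (Fin 3) (Fin 3) ℤ) *ᵥ v =
        v + smZ v • embZ ![2 * (ab (of 1)).1, 2 * (ab (of 1)).2]
      have h1 : D.ι (of 1) = D.Y := FreeGroup.lift_apply_of
      rw [h1, L_Y, bInn_ab1]
      funext i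
      fin_cases i <;> simp [LU1, LU2, smZ, embZ, Matrix.mulVec, dotProduct, Matrix.mul_apply,
        Fin.sum_univ_three] <;> ring
  · intro x hx
    exact hinv _ hx
  · intro f f' hf hf' v
    rw [_root_.map_mul, _root_.map_mul, Matrix.SpecialLinearGroup.coe_mul, ← Matrix.mulVec_mulVec,
      hf', hf, bInn_smZ_add, bInn_smZ_smul, bInn_smZ, mul_zero, add_zero, add_assoc, ← smul_add,
      ← bInn_embZ_add, ← bInn_vec, ab_mul, add_comm (ab f')]

theorem inn4 (g : G) (hg : D.L g = 1) : ∃ k, D.ρ g = MulAut.conj k := by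
  have hlin : D.lin g = 1 := by
    have h1 := (L_lin D g).2
    have h2 : ∀ w : Fin 2 → ℤ, (D.lin g : Matrix (Fin 2) (Fin 2) ℤ) *ᵥ w = w := by
      intro w
      have h3 := h1 w
      have h4 : (D.L g : Matrix (Fin 3) (Fin 3) ℤ) *ᵥ embZ w =
        embZ ((D.lin g : Matrix (Fin 2) (Fin 2) ℤ) *ᵥ w) := h3
      rw [hg, Matrix.SpecialLinearGroup.coe_one, Matrix.one_mulVec] at h4
      exact (bInn_embZ_inj h4).symm
    refine Subtype.ext ?_
    have h3 : (D.lin g : Matrix (Fin 2) (Fin 2) ℤ) = 1 := by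
      refine Matrix.ext_of_mulVec_single fun i => ?_
      rw [h2, Matrix.one_mulVec]
    exact h3
  obtain ⟨f, m, hfm⟩ := lin_one D g hlin
  have hLf : D.L (D.ι f) = 1 := by
    have h1 := hg
    rw [hfm, _root_.map_mul, map_zpow, L_Z, one_zpow, mul_one] at h1
    exact h1
  have habf : ab f = 0 := by
    have h1 := L_ι D f ![1, 0, 0]
    rw [hLf, Matrix.SpecialLinearGroup.coe_one, Matrix.one_mulVec] at h1
    have h2 : smZ ![1, 0, 0] = 1 := by simp [smZ]
    rw [h2, one_smul] at h1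
    have h3 := left_eq_add.1 h1
    have h4 : 2 * (ab f).1 = 0 := congrFun h3 0
    have h5 : -(2 * (ab f).2) = 0 := congrFun h3 2
    exact Prod.ext (by show (ab f).1 = 0; omega) (by show (ab f).2 = 0; omega)
  have hk0 : ab (k0 ^ m) = 0 := by
    refine (P2_range (k0 ^ m)).1 ⟨of (0, 0) ^ m, ?_⟩
    have h1 : P2 (of (0, 0)) = k0 := by simp [P2]
    rw [map_zpow, h1]
  obtain ⟨k, hk⟩ := (P2_range (f * k0 ^ m)).2 (by rw [ab_mul, habf, hk0, add_zero])
  have hr : D.r g = MulAut.conj (f * k0 ^ m) := by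
    rw [hfm, _root_.map_mul, map_zpow, r_ι, r_Z]
    show MulAut.conj f * MulAut.conj k0 ^ m = MulAut.conj (f * k0 ^ m)
    rw [_root_.map_mul MulAut.conj f, map_zpow]
  refine ⟨k, MulEquiv.ext fun v => P2_inj ?_⟩
  rw [D.ρ_spec, hr, MulAut.conj_apply, ← hk, MulAut.conj_apply, _root_.map_mul, _root_.map_mul,
    _root_.map_inv]

theorem ker4' (g h : G) (hc : D.r (g * h * g⁻¹ * h⁻¹) = 1) : g * h = h * g := by
  have hlin : D.lin (g * h * g⁻¹ * h⁻¹) = 1 := by
    have h0 := ab_r D (g * h * g⁻¹ * h⁻¹) (of 0)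
    have h1 := ab_r D (g * h * g⁻¹ * h⁻¹) (of 1)
    rw [hc, MulAut.one_apply] at h0 h1
    rw [bInn_ab0] at h0
    rw [bInn_ab1] at h1
    unfold act2 at h0 h1
    rw [Prod.mk.injEq] at h0 h1
    refine Subtype.ext ?_
    ext i j
    fin_cases i <;> fin_cases j
    · have := h0.1
      simp at this ⊢
      exact this.symm
    · have := h1.1
      simp at this ⊢
      exact this.symm
    · have := h0.2
      simp at this ⊢
      exact this.symm
    · have := h1.2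
      simp at this ⊢
      exact this.symm
  obtain ⟨f, m, hfm⟩ := lin_one D _ hlin
  have hε : D.ε (g * h * g⁻¹ * h⁻¹) = 1 := by
    rw [_root_.map_mul, _root_.map_mul, _root_.map_mul, _root_.map_inv, _root_.map_inv,
      mul_comm (D.ε g), mul_inv_cancel_right, mul_inv_cancel]
  rw [hfm, _root_.map_mul, map_zpow, ε_ι, ε_Z, one_mul, ← ofAdd_zsmul, smul_eq_mul] at hε
  have hm : m = 0 := by
    have h1 : m * 12 = 0 := Multiplicative.ofAdd.injective hε
    omega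
  rw [hfm, hm, zpow_zero, mul_one, r_ι] at hc
  have hf : f = 1 := by
    refine conj_inj (show (0 : Fin 2) ≠ 1 by decide) ?_
    rw [hc, _root_.map_one]
  rw [hf, hm, zpow_zero, mul_one, _root_.map_one] at hfm
  have h1 : g * h * g⁻¹ = h := mul_inv_eq_one.1 hfm
  exact mul_inv_eq_iff_eq_mul.1 h1

theorem ker4 (g h : G) (hc : D.ρ (g * h * g⁻¹ * h⁻¹) = 1) : g * h = h * g := by
  refine ker4' D g h (fix_all _ fun v => ?_)
  rw [← D.ρ_spec, hc, MulAut.one_apply]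

end Pool.Agent.Lib.MP_9dbb0e_al.DF
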