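import Mathlib

/-!
# JOB NB3: the kernel of the braid group on three strands modulo the sign

`G` is generated by `s, t` with `s t s = t s t`, `L : G → SL(2, ℤ)` with `L s = (1, 1; 0, 1)`, `L t = (1, 0; -1, 1)`. If `L g = 1` or `L g = -1` then `g` is a power of `(s t) ^ 3`.

PROOF. `v = s * t`, `u = s * t * s`, `Z = v ^ 3`. `Z = u ^ 2` (`s t s t s t = (s t s) (t s t) = (s t s) (s t s)`), `Z` commutes with `u` and `v`, hence is central. `s = v⁻¹ * u`, `t = s⁻¹ * v = u⁻¹ * v * v`.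
`L u = (0, 1; -1, 0)`, `L v = (0, 1; -1, 1)`, `L v⁻¹ = (1, -1; 1, 0)`; `L (v * u) = - (1, 0; 1, 1)`, `L (v⁻¹ * u) = (1, 1; 0, 1)`.
Normal form: let `W` be the set of the products of elements `v * u`, `v⁻¹ * u` (a list `l : List Bool`, `w l = (l.map (fun b => if b then v * u else v⁻¹ * u)).prod`). Claim: every `g` is `Z ^ k * u ^ a * w l * v ^ c` with `k : ℤ`, `a ∈ {0, 1}` (`Bool`/`ℕ`), `c ∈ {0, 1, -1}` (as integers).
 The set `NF` of these elements is closed under left multiplication by `Z ^ (±1)` (central), `u`, `v`, hence by `u⁻¹ = u * Z⁻¹`, `v⁻¹ = v * v * Z⁻¹`, hence by `s, t, s⁻¹, t⁻¹`, and contains `1`: `Subgroup.closure_induction_left`.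
 `u`: `a = 0`: put `a = 1`. `a = 1`: `u * u = Z`.
 `v`: `a = 1`: `v * u * w l * v ^ c = w (true :: l) * v ^ c`. `a = 0`, `l = []`: `v * v ^ c`: `c = 0 ↦ 1`, `c = -1 ↦ 0`, `c = 1 ↦ v ^ 2 = Z * v⁻¹`. `a = 0`, `l = true :: l'`: `v * (v * u) * w l' = Z * v⁻¹ * u * w l' = Z * w (false :: l')`; `l = false :: l'`: `v * v⁻¹ * u * w l' = u * w l'`.
 Positivity: `L (w l) = ± P`, where `P` is a product of matrices `(1, 0; 1, 1)`, `(1, 1; 0, 1)`: all entries are `≥ 0`, the diagonal entries are `≥ 1`, and if `l ≠ []` one off-diagonal entry is `≥ 1` (induction on `l`, multiplication on the left by one of the two matrices preserves: entries `≥ 0`, diagonal `≥ 1`, sum of all entries grows).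
 Let `g = Z ^ k * u ^ a * w l * v ^ c` with `L g = ± 1`; `L Z = -1`. So `L (w l) = ± L (u ^ (-a) * v ^ (-c))`, i.e. `P = ± M`, `M = L (u⁻¹) ^ a * L (v) ^ (-c)`. Cases: `a = 0, c = 0`: `M = 1`, so `P = ± 1`, `l = []`, `g = Z ^ k`. In the other five cases `± M` has not all (entries `≥ 0` and diagonal `≥ 1`): `a = 0, c = 1`: `M = (1, -1; 1, 0)`;
 `a = 0, c = -1`: `M = (0, 1; -1, 1)`; `a = 1, c = 0`: `M = L u⁻¹ = (0, -1; 1, 0)`; `a = 1, c = 1`: `M = L (v * u)⁻¹ = - (1, 0; -1, 1)`; `a = 1, c = -1`: `M = L (v⁻¹ * u)⁻¹ = (1, -1; 0, 1)`.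
-/

set_option autoImplicit false

namespace Pool.Agent.Lib.MP_9dbb0e_al.DF

open Matrix

private def NB3_w {G : Type*} [Group G] (x y : G) : List Bool → G
  | [] => 1
  | b :: l => (if b then x else y) * NB3_w x y l

private def NB3_nf {G : Type*} [Group G] (u v Z g : G) : Prop :=
  ∃ (k : ℤ) (A : G) (l : List Bool) (C : G), (A = 1 ∨ A = u) ∧ (C = 1 ∨ C = v ∨ C = v⁻¹) ∧
    g = Z ^ k * (A * (NB3_w (v * u) (v⁻¹ * u) l * C))

private theorem NB3_nfZ {G : Type*} [Group G] {u v Z g : G} (h : NB3_nf u v Z g) (j : ℤ) : NB3_nf u v Z (Z ^ j * g) := by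
  obtain ⟨k, A, l, C, hA, hC, rfl⟩ := h
  refine ⟨j + k, A, l, C, hA, hC, ?_⟩
  rw [_root_.zpow_add, mul_assoc]

private theorem NB3_nfu {G : Type*} [Group G] {u v Z g : G} (hu : Z = u * u) (h : NB3_nf u v Z g) :
    NB3_nf u v Z (u * g) := by
  obtain ⟨k, A, l, C, hA, hC, rfl⟩ := h
  have hc : Commute u Z := by
    rw [hu]
    exact (Commute.refl u).mul_right (Commute.refl u)
  have hck : u * Z ^ k = Z ^ k * u := (hc.zpow_right k).eq
  rcases hA with rfl | rfl
  · refine ⟨k, u, l, C, Or.inr rfl, hC, ?_⟩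
    rw [← mul_assoc, hck, one_mul, mul_assoc]
  · refine ⟨k + 1, 1, l, C, Or.inl rfl, hC, ?_⟩
    rw [← mul_assoc, hck, _root_.zpow_add_one, one_mul, mul_assoc, mul_assoc]
    congr 1
    rw [← mul_assoc, ← hu]

private theorem NB3_nfv {G : Type*} [Group G] {u v Z g : G} (hv : Z = v * (v * v)) (h : NB3_nf u v Z g) :
    NB3_nf u v Z (v * g) := by
  obtain ⟨k, A, l, C, hA, hC, rfl⟩ := h
  have hc : Commute v Z := by
    rw [hv]
    exact (Commute.refl v).mul_right ((Commute.refl v).mul_right (Commute.refl v))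
  have hck : v * Z ^ k = Z ^ k * v := (hc.zpow_right k).eq
  have hvv : v * v = Z * v⁻¹ := by
    rw [hc.symm.inv_right.eq, hv]
    group
  rw [← mul_assoc, hck, mul_assoc]
  refine NB3_nfZ ?_ k
  rcases hA with rfl | rfl
  · rw [one_mul]
    rcases l with _ | ⟨b, l⟩
    · rcases hC with hC | hC | hC
      · refine ⟨0, 1, [], v, Or.inl rfl, Or.inr (Or.inl rfl), ?_⟩
        rw [hC]
        simp [NB3_w]
      · refine ⟨1, 1, [], v⁻¹, Or.inl rfl, Or.inr (Or.inr rfl), ?_⟩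
        rw [hC]
        simp only [NB3_w, one_mul, _root_.zpow_one]
        exact hvv
      · refine ⟨0, 1, [], 1, Or.inl rfl, Or.inl rfl, ?_⟩
        rw [hC]
        simp [NB3_w]
    · cases b
      · refine ⟨0, u, l, C, Or.inr rfl, hC, ?_⟩
        simp only [NB3_w, Bool.false_eq_true, if_false, zpow_zero, one_mul]
        group
      · refine ⟨1, 1, false :: l, C, Or.inl rfl, hC, ?_⟩
        simp only [NB3_w, Bool.false_eq_true, if_false, if_true, zpow_one, one_mul]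
        have h5 : v * (v * u * NB3_w (v * u) (v⁻¹ * u) l * C) = v * v * (u * NB3_w (v * u) (v⁻¹ * u) l * C) := by
          group
        rw [h5, hvv]
        group
  · refine ⟨0, 1, true :: l, C, Or.inl rfl, hC, ?_⟩
    simp only [NB3_w, if_true, zpow_zero, one_mul]
    group

private theorem NB3_all {G : Type*} [Group G] (s t : G) (h : s * t * s = t * s * t)
    (hgen : Subgroup.closure ({s, t} : Set G) = ⊤) (g : G) : NB3_nf (s * t * s) (s * t) ((s * t) ^ 3) g := by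
  set u := s * t * s with hu
  set v := s * t with hv
  set Z := v ^ 3 with hZ
  have hZv : Z = v * (v * v) := by
    rw [hZ, pow_succ, pow_two, mul_assoc]
  have hZu : Z = u * u := by
    have h1 : u * u = s * t * s * (t * s * t) := by
      rw [← h]
    rw [h1, hZv, hv]
    group
  have hsv : s = v⁻¹ * u := by
    rw [hv, hu, hv]
    group
  have htv : t = u⁻¹ * (v * v) := by
    rw [hu, hv]
    group
  let S : Set G := {x | ∀ y, NB3_nf u v Z y → NB3_nf u v Z (x * y)}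
  have Sm : ∀ {a b : G}, a ∈ S → b ∈ S → a * b ∈ S := by
    intro a b ha hb y hy
    rw [mul_assoc]
    exact ha _ (hb _ hy)
  have Su : u ∈ S := fun y hy => NB3_nfu hZu hy
  have Sv : v ∈ S := fun y hy => NB3_nfv hZv hy
  have SZ : Z⁻¹ ∈ S := fun y hy => by
    have h2 := NB3_nfZ hy (-1)
    rw [_root_.zpow_neg_one] at h2
    exact h2
  have Sui : u⁻¹ ∈ S := by
    have h2 : u⁻¹ = Z⁻¹ * u := by
      rw [hZu]
      group
    rw [h2]
    exact Sm SZ Su
  have Svi : v⁻¹ ∈ S := by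
    have h2 : v⁻¹ = Z⁻¹ * (v * v) := by
      rw [hZv]
      group
    rw [h2]
    exact Sm SZ (Sm Sv Sv)
  have Ss : s ∈ S ∧ s⁻¹ ∈ S := by
    have h2 : s⁻¹ = u⁻¹ * v := by
      rw [hu, hv]
      group
    constructor
    · rw [hsv]
      exact Sm Svi Su
    · rw [h2]
      exact Sm Sui Sv
  have St : t ∈ S ∧ t⁻¹ ∈ S := by
    have h2 : t⁻¹ = v⁻¹ * (v⁻¹ * u) := by
      rw [hu, hv]
      group
    constructor
    · rw [htv]
      exact Sm Sui (Sm Sv Sv)
    · rw [h2]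
      exact Sm Svi (Sm Svi Su)
  have key : ∀ x, x ∈ Subgroup.closure ({s, t} : Set G) → x ∈ S ∧ x⁻¹ ∈ S := by
    intro x hx
    refine Subgroup.closure_induction (p := fun x _ => x ∈ S ∧ x⁻¹ ∈ S) ?_ ?_ ?_ ?_ hx
    · intro y hy
      rcases hy with rfl | hy
      · exact Ss
      · rw [Set.mem_singleton_iff] at hy
        rw [hy]
        exact St
    · refine ⟨fun y hy => ?_, fun y hy => ?_⟩
      · rw [one_mul]
        exact hy
      · rw [inv_one, one_mul]
        exact hy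
    · rintro a b - - ⟨ha, ha'⟩ ⟨hb, hb'⟩
      refine ⟨Sm ha hb, ?_⟩
      rw [_root_.mul_inv_rev]
      exact Sm hb' ha'
    · rintro a - ⟨ha, ha'⟩
      refine ⟨ha', ?_⟩
      rw [inv_inv]
      exact ha
  have h3 : NB3_nf u v Z 1 := ⟨0, 1, [], 1, Or.inl rfl, Or.inl rfl, by simp [NB3_w]⟩
  have h4 := (key g (by rw [hgen]; trivial)).1 1 h3
  rw [mul_one] at h4
  exact h4

private def NB3_Pos (P : Matrix (Fin 2) (Fin 2) ℤ) : Prop :=
  1 ≤ P 0 0 ∧ 0 ≤ P 0 1 ∧ 0 ≤ P 1 0 ∧ 1 ≤ P 1 1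

private theorem NB3_posx {P : Matrix (Fin 2) (Fin 2) ℤ} (h : NB3_Pos P) :
    NB3_Pos (!![1, 0; 1, 1] * P) ∧ 1 ≤ (!![1, 0; 1, 1] * P : Matrix (Fin 2) (Fin 2) ℤ) 0 1 + (!![1, 0; 1, 1] * P : Matrix (Fin 2) (Fin 2) ℤ) 1 0 := by
  obtain ⟨h1, h2, h3, h4⟩ := h
  unfold NB3_Pos
  simp [Matrix.mul_apply, Fin.sum_univ_two]
  omega

private theorem NB3_posy {P : Matrix (Fin 2) (Fin 2) ℤ} (h : NB3_Pos P) :
    NB3_Pos (!![1, 1; 0, 1] * P) ∧ 1 ≤ (!![1, 1; 0, 1] * P : Matrix (Fin 2) (Fin 2) ℤ) 0 1 + (!![1, 1; 0, 1] * P : Matrix (Fin 2) (Fin 2) ℤ) 1 0 := by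
  obtain ⟨h1, h2, h3, h4⟩ := h
  unfold NB3_Pos
  simp [Matrix.mul_apply, Fin.sum_univ_two]
  omega

private theorem NB3_w_pos {G : Type*} [Group G] (L : G →* Matrix.SpecialLinearGroup (Fin 2) ℤ) (x y : G)
    (hx : (L x).1 = -!![1, 0; 1, 1]) (hy : (L y).1 = !![1, 1; 0, 1]) (l : List Bool) :
    ∃ P, NB3_Pos P ∧ (l ≠ [] → 1 ≤ P 0 1 + P 1 0) ∧ ((L (NB3_w x y l)).1 = P ∨ (L (NB3_w x y l)).1 = -P) := by
  induction l with
  | nil =>
    refine ⟨1, ?_, fun h => absurd rfl h, Or.inl ?_⟩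
    · unfold NB3_Pos
      simp
    · simp [NB3_w]
  | cons b l ih =>
    obtain ⟨P, hP, -, hL⟩ := ih
    cases b
    · obtain ⟨h1, h2⟩ := NB3_posy hP
      refine ⟨!![1, 1; 0, 1] * P, h1, fun _ => h2, ?_⟩
      simp only [NB3_w, Bool.false_eq_true, if_false, _root_.map_mul]
      have h3 : (L y * L (NB3_w x y l)).1 = (L y).1 * (L (NB3_w x y l)).1 := rfl
      rw [h3, hy]
      rcases hL with hL | hL
      · left
        rw [hL]
      · right
        rw [hL, Matrix.mul_neg]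
    · obtain ⟨h1, h2⟩ := NB3_posx hP
      refine ⟨!![1, 0; 1, 1] * P, h1, fun _ => h2, ?_⟩
      simp only [NB3_w, if_true, _root_.map_mul]
      have h3 : (L x * L (NB3_w x y l)).1 = (L x).1 * (L (NB3_w x y l)).1 := rfl
      rw [h3, hx]
      rcases hL with hL | hL
      · right
        rw [hL, Matrix.neg_mul]
      · left
        rw [hL, Matrix.neg_mul, Matrix.mul_neg, neg_neg]

theorem b3_ker {G : Type*} [Group G] (s t : G) (h : s * t * s = t * s * t)
    (hgen : Subgroup.closure ({s, t} : Set G) = ⊤)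
    (L : G →* Matrix.SpecialLinearGroup (Fin 2) ℤ) (hs : (L s).1 = !![1, 1; 0, 1])
    (ht : (L t).1 = !![1, 0; -1, 1]) (g : G) (hg : L g = 1 ∨ L g = -1) :
    ∃ k : ℤ, g = ((s * t) ^ 3) ^ k := by
  have hm : ∀ a b : G, (L (a * b)).1 = (L a).1 * (L b).1 := by
    intro a b
    rw [_root_.map_mul]
    rfl
  have hv : (L (s * t)).1 = !![0, 1; -1, 1] := by
    rw [hm, hs, ht]
    simp
  have hu : (L (s * t * s)).1 = !![0, 1; -1, 0] := by
    rw [hm, hv, hs]
    simp
  have hvi : (L (s * t)⁻¹).1 = !![1, -1; 1, 0] := by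
    rw [_root_.map_inv]
    have h1 := Matrix.SpecialLinearGroup.coe_inv (L (s * t))
    rw [h1, hv, Matrix.adjugate_fin_two_of]
    simp
  have hx : (L (s * t * (s * t * s))).1 = -!![1, 0; 1, 1] := by
    rw [hm, hv, hu]
    ext i j
    fin_cases i <;> fin_cases j <;> simp [Matrix.mul_apply, Fin.sum_univ_two]
  have hy : (L ((s * t)⁻¹ * (s * t * s))).1 = !![1, 1; 0, 1] := by
    rw [hm, hvi, hu]
    simp
  have hZ : L ((s * t) ^ 3) = -1 := by
    apply Subtype.ext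
    have h1 : (s * t) ^ 3 = (s * t) * ((s * t) * (s * t)) := by
      rw [pow_succ, pow_two, mul_assoc]
    rw [h1, hm (s * t), hm (s * t), hv]
    ext i j
    fin_cases i <;> fin_cases j <;> simp [Matrix.mul_apply, Fin.sum_univ_two]
  have hZk : ∀ k : ℤ, L (((s * t) ^ 3) ^ k) = 1 ∨ L (((s * t) ^ 3) ^ k) = -1 := by
    intro k
    rw [_root_.map_zpow, hZ]
    rcases Int.even_or_odd k with hk | hk
    · left
      obtain ⟨j, rfl⟩ := hk
      rw [_root_.zpow_add, ← (Commute.refl (-1 : Matrix.SpecialLinearGroup (Fin 2) ℤ)).mul_zpow j]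
      simp
    · right
      obtain ⟨j, rfl⟩ := hk
      rw [_root_.zpow_add_one, _root_.two_mul, _root_.zpow_add,
        ← (Commute.refl (-1 : Matrix.SpecialLinearGroup (Fin 2) ℤ)).mul_zpow j]
      simp
  obtain ⟨k, A, l, C, hA, hC, rfl⟩ := NB3_all s t h hgen g
  obtain ⟨P, ⟨p1, p2, p3, p4⟩, hl, hP⟩ := NB3_w_pos L _ _ hx hy l
  have hM : ((L A).1 * (P * (L C).1)) 0 1 = 0 ∧ ((L A).1 * (P * (L C).1)) 1 0 = 0 := by
    have h1 : (L (((s * t) ^ 3) ^ k * (A * (NB3_w (s * t * (s * t * s)) ((s * t)⁻¹ * (s * t * s)) l * C)))).1 =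
        (L A).1 * (P * (L C).1) ∨
        (L (((s * t) ^ 3) ^ k * (A * (NB3_w (s * t * (s * t * s)) ((s * t)⁻¹ * (s * t * s)) l * C)))).1 =
        -((L A).1 * (P * (L C).1)) := by
      rw [hm, hm, hm]
      rcases hZk k with h2 | h2 <;> rcases hP with h3 | h3 <;> rw [h2, h3]
      · left
        simp
      · right
        simp
      · right
        simp
      · left
        simp
    rcases hg with hg | hg
    · rw [hg] at h1
      rcases h1 with h1 | h1
      · rw [← h1]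
        simp
      · rw [← neg_neg ((L A).1 * (P * (L C).1)), ← h1]
        simp
    · rw [hg] at h1
      rcases h1 with h1 | h1
      · rw [← h1]
        simp
      · rw [← neg_neg ((L A).1 * (P * (L C).1)), ← h1]
        simp
  obtain ⟨m1, m2⟩ := hM
  rcases hA with rfl | rfl <;> rcases hC with rfl | rfl | rfl
  · rw [_root_.map_one] at m1 m2
    simp at m1 m2
    have hl0 : l = [] := by
      by_contra hne
      have := hl hne
      omega
    refine ⟨k, ?_⟩
    rw [hl0]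
    simp [NB3_w]
  · exfalso
    rw [_root_.map_one, hv] at m1 m2
    simp [Matrix.mul_apply, Fin.sum_univ_two] at m1 m2
    omega
  · exfalso
    rw [_root_.map_one, hvi] at m1 m2
    simp [Matrix.mul_apply, Fin.sum_univ_two] at m1 m2
    omega
  · exfalso
    rw [hu, _root_.map_one] at m1 m2
    simp [Matrix.mul_apply, Fin.sum_univ_two] at m1 m2
    omega
  · exfalso
    rw [hu, hv] at m1 m2
    simp [Matrix.mul_apply, Fin.sum_univ_two] at m1 m2
    omega
  · exfalso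
    rw [hu, hvi] at m1 m2
    simp [Matrix.mul_apply, Fin.sum_univ_two] at m1 m2
    omega

end Pool.Agent.Lib.MP_9dbb0e_al.DF
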