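import Pool.Agent.Lib.MP_9dbb0e_al.D.BDefs
import Pool.Agent.Lib.MP_9dbb0e_al.D.NB3

/-!
# JOB BIota: the normal free subgroup

`ι : F2 →* G`, `x ↦ X = a c⁻¹`, `y ↦ Y = b X⁻¹ b⁻¹ X`. `Z = (a b) ^ 3`.

PROOFS.
`ι_conj`: it is enough to check on the letters (`FreeGroup.ext_hom` for the homs `w ↦ g * ι w * g⁻¹` and `w ↦ ι (α w)`). `a X a⁻¹ = X` (`a c = c a`); `a Y a⁻¹ = X Y`: since `X` commutes with `a`: this says `a b X⁻¹ b⁻¹ a⁻¹ = X b X⁻¹ b⁻¹`, i.e. `(a b c) (a⁻¹ b⁻¹ a⁻¹) = a c⁻¹ b c a⁻¹ b⁻¹`; `a⁻¹ b⁻¹ a⁻¹ = b⁻¹ a⁻¹ b⁻¹` and `c⁻¹ b c = b c b⁻¹`.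
 `b X b⁻¹ = X Y⁻¹`: by definition `Y⁻¹ = X⁻¹ b X b⁻¹`. `b Y b⁻¹ = Y`: `b b X⁻¹ b⁻¹ X b⁻¹ = b X⁻¹ b⁻¹ X`, i.e. `b X⁻¹ b⁻¹ X b⁻¹ = X⁻¹ b⁻¹ X`, i.e. `X b X⁻¹ b⁻¹ X = b⁻¹ X b`: with `X = a c⁻¹`, `X⁻¹ = c a⁻¹`: `a c⁻¹ b c a⁻¹ b⁻¹ a c⁻¹ = b⁻¹ a c⁻¹ b`:
  `c⁻¹ b c = b c b⁻¹`, `a⁻¹ b⁻¹ a = b a⁻¹ b⁻¹`: left side `= a b c b⁻¹ (b a⁻¹ b⁻¹) c⁻¹ = a b c a⁻¹ b⁻¹ c⁻¹ = (a b a⁻¹) (c b⁻¹ c⁻¹) = (b⁻¹ a b) (b⁻¹ c⁻¹ b) = b⁻¹ a c⁻¹ b`.
 `c X c⁻¹ = X`; `c Y c⁻¹ = Y X`: `c b X⁻¹ b⁻¹ c⁻¹ = b X⁻¹ b⁻¹ X`: `c b c a⁻¹ b⁻¹ c⁻¹ = b c b a⁻¹ b⁻¹ c⁻¹ = b c (a⁻¹ b⁻¹ a) c⁻¹`. (A general way to do such proofs: `calc` with `group` steps; or multiply out and use the relations in the forms `b * a⁻¹ * b⁻¹ = a⁻¹ * b⁻¹ * a`.)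
`decomp`: the set of the products `ι f * h`, `h ∈ closure {a, b}`, is a subgroup (`ι F2` is normalised by everything, by `ι_conj` and its version for `g⁻¹`: `g⁻¹ * ι w * g = ι ((D.r g)⁻¹ w)`) which contains `a`, `b`, `c = X⁻¹ * a` (`X = a c⁻¹ = c⁻¹ a`).
`r_ι`: on the letters of `f` (hom ext): `r X = αa αc⁻¹ = conj x`: on `x`: `x`; on `y`: `αa (y x⁻¹) = x y x⁻¹`. `r Y = αb (conj x)⁻¹ αb⁻¹ conj x = conj ((αb x)⁻¹) * conj x = conj (y x⁻¹ x)`.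
`lin_ι`: `lin X = 1`, `lin Y = 1`. `T_ι_X`: `T X = S1 * (U1 * U0 * S1)⁻¹ = U0 * U1`; `T Y = S2 * (U0 * U1)⁻¹ * S2⁻¹ * (U0 * U1) = U1 * U2` (`S2_U0`, `S2_U1`, squares). `L X = LU0 * LU1`, `L Y = LU1 * LU2` (`decide`). `ε (ι f) = 1`.
`r_Z`: `(αa αb) ^ 6 = conj (x y⁻¹ x⁻¹ y)`: `aut2_ext` and computation: `αa αb : x ↦ x y⁻¹ x⁻¹, y ↦ x y`; its cube: `x ↦ x y⁻¹ x⁻¹ y x⁻¹, y ↦ x y⁻¹ x⁻¹`.
`lin_one`: `decomp`: `g = ι f * h`, `lin h = 1`. Apply `b3_ker` to the group `H₀ = closure {a, b}` with the generators `⟨a, _⟩, ⟨b, _⟩` (they generate `H₀`: `Subgroup.closure_closure_coe_preimage`) and `L = lin` restricted: `h = Z ^ k`. `lin Z = -1`, so `(-1) ^ k = 1` in `SL(2, ℤ)`, `k` is even, `k = 2 m`.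
-/

set_option autoImplicit false

namespace Pool.Agent.Lib.MP_9dbb0e_al.DF

open FreeGroup
open scoped Matrix

variable {G : Type} [Group G] (D : B4 G)

/-- image of the first letter -/
def B4.X : G := D.a * D.c⁻¹

/-- image of the second letter -/
def B4.Y : G := D.b * D.X⁻¹ * D.b⁻¹ * D.X

/-- the embedding of the free group -/
def B4.ι : F2 →* G := FreeGroup.lift ![D.X, D.Y]

private theorem BIota_r1 {x y : G} (h : x * y * x = y * x * y) : x * y * x⁻¹ = y⁻¹ * x * y := by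
  calc x * y * x⁻¹ = y⁻¹ * (y * x * y) * x⁻¹ := by group
    _ = y⁻¹ * (x * y * x) * x⁻¹ := by rw [h]
    _ = y⁻¹ * x * y := by group

private theorem BIota_r2 {x y : G} (h : x * y * x = y * x * y) : x⁻¹ * y * x = y * x * y⁻¹ := by
  calc x⁻¹ * y * x = x⁻¹ * (y * x * y) * y⁻¹ := by group
    _ = x⁻¹ * (x * y * x) * y⁻¹ := by rw [h]
    _ = y * x * y⁻¹ := by group

private theorem BIota_r3 {x y : G} (h : x * y * x = y * x * y) :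
    x⁻¹ * y⁻¹ * x = y * x⁻¹ * y⁻¹ := by
  calc x⁻¹ * y⁻¹ * x = (x⁻¹ * y * x)⁻¹ := by group
    _ = (y * x * y⁻¹)⁻¹ := by rw [BIota_r2 h]
    _ = y * x⁻¹ * y⁻¹ := by group

private theorem BIota_r4 {x y : G} (h : x * y * x = y * x * y) :
    x * y⁻¹ * x⁻¹ = y⁻¹ * x⁻¹ * y := by
  calc x * y⁻¹ * x⁻¹ = (x * y * x⁻¹)⁻¹ := by group
    _ = (y⁻¹ * x * y)⁻¹ := by rw [BIota_r1 h]
    _ = y⁻¹ * x⁻¹ * y := by group

private theorem BIota_r5 {x y : G} (h : x * y * x = y * x * y) :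
    x⁻¹ * y⁻¹ * x⁻¹ = y⁻¹ * x⁻¹ * y⁻¹ := by
  calc x⁻¹ * y⁻¹ * x⁻¹ = (x * y * x)⁻¹ := by group
    _ = (y * x * y)⁻¹ := by rw [h]
    _ = y⁻¹ * x⁻¹ * y⁻¹ := by group

private theorem BIota_aX : D.a * D.X * D.a⁻¹ = D.X := by
  unfold B4.X
  calc D.a * (D.a * D.c⁻¹) * D.a⁻¹ = D.a * (D.a * (D.a * D.c)⁻¹) := by group
    _ = D.a * (D.a * (D.c * D.a)⁻¹) := by rw [D.hac]
    _ = D.a * D.c⁻¹ := by group

private theorem BIota_cX : D.c * D.X * D.c⁻¹ = D.X := by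
  unfold B4.X
  calc D.c * (D.a * D.c⁻¹) * D.c⁻¹ = (D.c * D.a) * D.c⁻¹ * D.c⁻¹ := by group
    _ = (D.a * D.c) * D.c⁻¹ * D.c⁻¹ := by rw [D.hac]
    _ = D.a * D.c⁻¹ := by group

private theorem BIota_aY : D.a * D.Y * D.a⁻¹ = D.X * D.Y := by
  have h1 : D.X * D.a⁻¹ = D.a⁻¹ * D.X := by
    have h := BIota_aX D
    calc D.X * D.a⁻¹ = D.a⁻¹ * (D.a * D.X * D.a⁻¹) := by group
      _ = D.a⁻¹ * D.X := by rw [h]
  have h2 : D.a * D.b * D.X⁻¹ * D.b⁻¹ * D.a⁻¹ = D.X * D.b * D.X⁻¹ * D.b⁻¹ := by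
    have hX : D.X⁻¹ = D.c * D.a⁻¹ := by unfold B4.X; group
    rw [hX]
    unfold B4.X
    calc D.a * D.b * (D.c * D.a⁻¹) * D.b⁻¹ * D.a⁻¹ = D.a * D.b * D.c * (D.a⁻¹ * D.b⁻¹ * D.a⁻¹) := by
          group
      _ = D.a * D.b * D.c * (D.b⁻¹ * D.a⁻¹ * D.b⁻¹) := by rw [BIota_r5 D.hab]
      _ = D.a * (D.b * D.c * D.b⁻¹) * D.a⁻¹ * D.b⁻¹ := by group
      _ = D.a * (D.c⁻¹ * D.b * D.c) * D.a⁻¹ * D.b⁻¹ := by rw [BIota_r2 D.hbc.symm]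
      _ = D.a * D.c⁻¹ * D.b * (D.c * D.a⁻¹) * D.b⁻¹ := by group
  calc D.a * D.Y * D.a⁻¹ = D.a * D.b * D.X⁻¹ * D.b⁻¹ * (D.X * D.a⁻¹) := by unfold B4.Y; group
    _ = D.a * D.b * D.X⁻¹ * D.b⁻¹ * (D.a⁻¹ * D.X) := by rw [h1]
    _ = (D.a * D.b * D.X⁻¹ * D.b⁻¹ * D.a⁻¹) * D.X := by group
    _ = D.X * D.b * D.X⁻¹ * D.b⁻¹ * D.X := by rw [h2]
    _ = D.X * D.Y := by unfold B4.Y; group

private theorem BIota_bX : D.b * D.X * D.b⁻¹ = D.X * D.Y⁻¹ := by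
  unfold B4.Y
  group

private theorem BIota_bY : D.b * D.Y * D.b⁻¹ = D.Y := by
  have hX : D.X⁻¹ = D.c * D.a⁻¹ := by unfold B4.X; group
  have hca : D.c * D.a⁻¹ = D.a⁻¹ * D.c := by
    calc D.c * D.a⁻¹ = D.a⁻¹ * (D.a * D.c) * D.a⁻¹ := by group
      _ = D.a⁻¹ * (D.c * D.a) * D.a⁻¹ := by rw [D.hac]
      _ = D.a⁻¹ * D.c := by group
  have h2 : D.X * D.b * D.X⁻¹ * D.b⁻¹ * D.X = D.b⁻¹ * D.X * D.b := by
    rw [hX]
    unfold B4.X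
    calc D.a * D.c⁻¹ * D.b * (D.c * D.a⁻¹) * D.b⁻¹ * (D.a * D.c⁻¹)
        = D.a * (D.c⁻¹ * D.b * D.c) * (D.a⁻¹ * D.b⁻¹ * D.a) * D.c⁻¹ := by group
      _ = D.a * (D.b * D.c * D.b⁻¹) * (D.b * D.a⁻¹ * D.b⁻¹) * D.c⁻¹ := by
          rw [BIota_r2 D.hbc.symm, BIota_r3 D.hab]
      _ = D.a * D.b * (D.c * D.a⁻¹) * D.b⁻¹ * D.c⁻¹ := by group
      _ = D.a * D.b * (D.a⁻¹ * D.c) * D.b⁻¹ * D.c⁻¹ := by rw [hca]
      _ = (D.a * D.b * D.a⁻¹) * (D.c * D.b⁻¹ * D.c⁻¹) := by group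
      _ = (D.b⁻¹ * D.a * D.b) * (D.b⁻¹ * D.c⁻¹ * D.b) := by
          rw [BIota_r1 D.hab, BIota_r4 D.hbc.symm]
      _ = D.b⁻¹ * (D.a * D.c⁻¹) * D.b := by group
  calc D.b * D.Y * D.b⁻¹ = D.b * (D.X⁻¹ * (D.X * D.b * D.X⁻¹ * D.b⁻¹ * D.X)) * D.b⁻¹ := by
        unfold B4.Y; group
    _ = D.b * (D.X⁻¹ * (D.b⁻¹ * D.X * D.b)) * D.b⁻¹ := by rw [h2]
    _ = D.Y := by unfold B4.Y; group

private theorem BIota_cY : D.c * D.Y * D.c⁻¹ = D.Y * D.X := by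
  have h1 : D.X * D.c⁻¹ = D.c⁻¹ * D.X := by
    have h := BIota_cX D
    calc D.X * D.c⁻¹ = D.c⁻¹ * (D.c * D.X * D.c⁻¹) := by group
      _ = D.c⁻¹ * D.X := by rw [h]
  have h2 : D.c * D.b * D.X⁻¹ * D.b⁻¹ * D.c⁻¹ = D.b * D.X⁻¹ * D.b⁻¹ * D.X := by
    have hX : D.X⁻¹ = D.c * D.a⁻¹ := by unfold B4.X; group
    rw [hX]
    unfold B4.X
    calc D.c * D.b * (D.c * D.a⁻¹) * D.b⁻¹ * D.c⁻¹
        = (D.c * D.b * D.c) * D.a⁻¹ * D.b⁻¹ * D.c⁻¹ := by group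
      _ = (D.b * D.c * D.b) * D.a⁻¹ * D.b⁻¹ * D.c⁻¹ := by rw [D.hbc]
      _ = D.b * D.c * (D.b * D.a⁻¹ * D.b⁻¹) * D.c⁻¹ := by group
      _ = D.b * D.c * (D.a⁻¹ * D.b⁻¹ * D.a) * D.c⁻¹ := by rw [BIota_r3 D.hab]
      _ = D.b * (D.c * D.a⁻¹) * D.b⁻¹ * (D.a * D.c⁻¹) := by group
  calc D.c * D.Y * D.c⁻¹ = D.c * D.b * D.X⁻¹ * D.b⁻¹ * (D.X * D.c⁻¹) := by unfold B4.Y; group
    _ = D.c * D.b * D.X⁻¹ * D.b⁻¹ * (D.c⁻¹ * D.X) := by rw [h1]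
    _ = (D.c * D.b * D.X⁻¹ * D.b⁻¹ * D.c⁻¹) * D.X := by group
    _ = D.b * D.X⁻¹ * D.b⁻¹ * D.X * D.X := by rw [h2]
    _ = D.Y * D.X := by unfold B4.Y; group

private theorem BIota_ι0 : D.ι (of 0) = D.X := by
  unfold B4.ι
  simp

private theorem BIota_ι1 : D.ι (of 1) = D.Y := by
  unfold B4.ι
  simp

private theorem BIota_conj_of (g : G) (φ : MulAut F2) (h0 : g * D.X * g⁻¹ = D.ι (φ (of 0)))
    (h1 : g * D.Y * g⁻¹ = D.ι (φ (of 1))) (w : F2) : g * D.ι w * g⁻¹ = D.ι (φ w) := by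
  have e : (MulAut.conj g).toMonoidHom.comp D.ι = D.ι.comp φ.toMonoidHom := by
    refine FreeGroup.ext_hom _ _ ?_
    rw [Fin.forall_fin_two]
    refine ⟨?_, ?_⟩
    · change g * D.ι (of 0) * g⁻¹ = D.ι (φ (of 0))
      rw [BIota_ι0, h0]
    · change g * D.ι (of 1) * g⁻¹ = D.ι (φ (of 1))
      rw [BIota_ι1, h1]
  exact DFunLike.congr_fun e w

/-- the group of the elements acting on the image of `ι` as prescribed -/
private def BIota_N : Subgroup G where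
  carrier := {g | ∀ w : F2, g * D.ι w * g⁻¹ = D.ι (D.r g w)}
  one_mem' := by
    intro w
    rw [_root_.map_one, one_mul, inv_one, mul_one]
    rfl
  mul_mem' := by
    intro g h hg hh w
    have e : g * h * D.ι w * (g * h)⁻¹ = g * (h * D.ι w * h⁻¹) * g⁻¹ := by group
    rw [e, hh w, hg (D.r h w), _root_.map_mul]
    rfl
  inv_mem' := by
    intro g hg w
    have h1 := hg ((D.r g)⁻¹ w)
    rw [MulAut.apply_inv_self] at h1
    rw [_root_.map_inv, ← h1]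
    group

theorem ι_conj (g : G) (w : F2) : g * D.ι w * g⁻¹ = D.ι (D.r g w) := by
  refine B4.mem_of D (BIota_N D) ?_ ?_ ?_ g w
  · intro w
    refine BIota_conj_of D D.a (D.r D.a) ?_ ?_ w
    · rw [D.r_spec.1, αa_x, BIota_ι0, BIota_aX]
    · rw [D.r_spec.1, αa_y, _root_.map_mul, BIota_ι0, BIota_ι1, BIota_aY]
  · intro w
    refine BIota_conj_of D D.b (D.r D.b) ?_ ?_ w
    · rw [D.r_spec.2.1, αb_x, _root_.map_mul, _root_.map_inv, BIota_ι0, BIota_ι1, BIota_bX]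
    · rw [D.r_spec.2.1, αb_y, BIota_ι1, BIota_bY]
  · intro w
    refine BIota_conj_of D D.c (D.r D.c) ?_ ?_ w
    · rw [D.r_spec.2.2, αc_x, BIota_ι0, BIota_cX]
    · rw [D.r_spec.2.2, αc_y, _root_.map_mul, BIota_ι0, BIota_ι1, BIota_cY]

/-- the group of the products -/
private def BIota_P : Subgroup G where
  carrier := {g | ∃ f : F2, ∃ h ∈ Subgroup.closure ({D.a, D.b} : Set G), g = D.ι f * h}
  one_mem' := ⟨1, 1, Subgroup.one_mem _, by rw [_root_.map_one, mul_one]⟩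
  mul_mem' := by
    rintro _ _ ⟨f, h, hh, rfl⟩ ⟨f', h', hh', rfl⟩
    refine ⟨f * D.r h f', h * h', Subgroup.mul_mem _ hh hh', ?_⟩
    rw [_root_.map_mul, ← ι_conj]
    group
  inv_mem' := by
    rintro _ ⟨f, h, hh, rfl⟩
    refine ⟨D.r h⁻¹ f⁻¹, h⁻¹, Subgroup.inv_mem _ hh, ?_⟩
    rw [← ι_conj, _root_.map_inv]
    group

theorem decomp (g : G) : ∃ f : F2, ∃ h ∈ Subgroup.closure ({D.a, D.b} : Set G), g = D.ι f * h := by
  refine B4.mem_of D (BIota_P D) ?_ ?_ ?_ g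
  · exact ⟨1, D.a, Subgroup.subset_closure (by simp), by rw [_root_.map_one, one_mul]⟩
  · exact ⟨1, D.b, Subgroup.subset_closure (by simp), by rw [_root_.map_one, one_mul]⟩
  · refine ⟨(of 0)⁻¹, D.a, Subgroup.subset_closure (by simp), ?_⟩
    rw [_root_.map_inv, BIota_ι0]
    unfold B4.X
    group

private theorem BIota_hom {H : Type} [Group H] (F : G →* H) (K : F2 →* H) (h0 : F D.X = K (of 0))
    (h1 : F D.Y = K (of 1)) (f : F2) : F (D.ι f) = K f := by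
  have e : F.comp D.ι = K := by
    refine FreeGroup.ext_hom _ _ ?_
    rw [Fin.forall_fin_two]
    refine ⟨?_, ?_⟩
    · change F (D.ι (of 0)) = K (of 0)
      rw [BIota_ι0, h0]
    · change F (D.ι (of 1)) = K (of 1)
      rw [BIota_ι1, h1]
  exact DFunLike.congr_fun e f

private theorem BIota_FX {H : Type} [Group H] (F : G →* H) : F D.X = F D.a * (F D.c)⁻¹ := by
  unfold B4.X
  rw [_root_.map_mul, _root_.map_inv]

private theorem BIota_FY {H : Type} [Group H] (F : G →* H) :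
    F D.Y = F D.b * (F D.X)⁻¹ * (F D.b)⁻¹ * F D.X := by
  unfold B4.Y
  rw [_root_.map_mul, _root_.map_mul, _root_.map_mul, _root_.map_inv, _root_.map_inv]

private theorem BIota_aut_conj (φ : MulAut F2) (g : F2) :
    φ * MulAut.conj g * φ⁻¹ = MulAut.conj (φ g) := by
  refine MulEquiv.ext fun w => ?_
  change φ (g * (φ⁻¹ w) * g⁻¹) = φ g * w * (φ g)⁻¹
  rw [_root_.map_mul, _root_.map_mul, _root_.map_inv, MulAut.apply_inv_self]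

private theorem BIota_ac : αa * αc⁻¹ = MulAut.conj (of 0) := by
  rw [mul_inv_eq_iff_eq_mul]
  refine aut2_ext ?_ ?_
  · rw [αa_x]
    change of 0 = of 0 * αc (of 0) * (of 0)⁻¹
    rw [αc_x]
    group
  · rw [αa_y]
    change of 0 * of 1 = of 0 * αc (of 1) * (of 0)⁻¹
    rw [αc_y]
    group

theorem r_ι (f : F2) : D.r (D.ι f) = MulAut.conj f := by
  refine BIota_hom D D.r MulAut.conj ?_ ?_ f
  · rw [BIota_FX, D.r_spec.1, D.r_spec.2.2, BIota_ac]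
  · rw [BIota_FY, BIota_FX, D.r_spec.1, D.r_spec.2.2, D.r_spec.2.1, BIota_ac, ← _root_.map_inv,
      BIota_aut_conj, ← _root_.map_mul, _root_.map_inv, αb_x]
    congr 1
    group

theorem lin_ι (f : F2) : D.lin (D.ι f) = 1 := by
  have hX : D.lin D.X = 1 := by
    rw [BIota_FX, D.lin_spec.1, D.lin_spec.2.2, mul_inv_cancel]
  have h := BIota_hom D D.lin (1 : F2 →* SL2) (by rw [hX]; rfl) (by
    rw [BIota_FY, hX, inv_one, mul_one, mul_one, mul_inv_cancel]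
    rfl) f
  rw [h]
  rfl

theorem ε_ι (f : F2) : D.ε (D.ι f) = 1 := by
  have hX : D.ε D.X = 1 := by
    rw [BIota_FX, D.ε_spec.1, D.ε_spec.2.2, mul_inv_cancel]
  have h := BIota_hom D D.ε (1 : F2 →* Multiplicative ℤ) (by rw [hX]; rfl) (by
    rw [BIota_FY, hX, inv_one, mul_one, mul_one, mul_inv_cancel]
    rfl) f
  rw [h]
  rfl

private theorem BIota_sq {H : Type} [Group H] {u : H} (h : u * u = 1) : u⁻¹ = u :=
  inv_eq_of_mul_eq_one_left h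

private theorem BIota_gX {H : Type} [Group H] (s u0 u1 : H) (h0 : u0 * u0 = 1) (h1 : u1 * u1 = 1) :
    s * (u1 * u0 * s)⁻¹ = u0 * u1 := by
  have e : s * (u1 * u0 * s)⁻¹ = u0⁻¹ * u1⁻¹ := by group
  rw [e, BIota_sq h0, BIota_sq h1]

private theorem BIota_gY {H : Type} [Group H] (s u0 u1 u2 : H) (h0 : u0 * u0 = 1)
    (h1 : u1 * u1 = 1) (h2 : s * u0 = u0 * s) (h3 : s * u1 = u1 * u2 * u1 * s) :
    s * (u0 * u1)⁻¹ * s⁻¹ * (u0 * u1) = u1 * u2 := by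
  have e : s * (u0 * u1)⁻¹ * s⁻¹ * (u0 * u1) = (s * u1⁻¹) * u0⁻¹ * s⁻¹ * (u0 * u1) := by group
  rw [e, BIota_sq h0, BIota_sq h1, h3]
  calc u1 * u2 * u1 * s * u0 * s⁻¹ * (u0 * u1) = u1 * u2 * u1 * (s * u0) * s⁻¹ * (u0 * u1) := by
        group
    _ = u1 * u2 * u1 * (u0 * s) * s⁻¹ * (u0 * u1) := by rw [h2]
    _ = u1 * u2 * (u1 * (u0 * u0) * u1) := by group
    _ = u1 * u2 := by rw [h0, mul_one, h1, mul_one]

theorem T_X : D.T D.X = U0 * U1 := by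
  rw [BIota_FX, D.T_spec.1, D.T_spec.2.2]
  exact BIota_gX S1 U0 U1 U0_sq U1_sq

theorem T_Y : D.T D.Y = U1 * U2 := by
  rw [BIota_FY, T_X, D.T_spec.2.1]
  exact BIota_gY S2 U0 U1 U2 U0_sq U1_sq S2_U0 S2_U1

private theorem BIota_L0 : LU0 * LU0 = 1 := by decide

private theorem BIota_L1 : LU1 * LU1 = 1 := by decide

private theorem BIota_L20 : LS2 * LU0 = LU0 * LS2 := by decide

private theorem BIota_L21 : LS2 * LU1 = LU1 * LU2 * LU1 * LS2 := by decide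

theorem L_X : D.L D.X = LU0 * LU1 := by
  rw [BIota_FX, D.L_spec.1, D.L_spec.2.2]
  exact BIota_gX LS1 LU0 LU1 BIota_L0 BIota_L1

theorem L_Y : D.L D.Y = LU1 * LU2 := by
  rw [BIota_FY, L_X, D.L_spec.2.1]
  exact BIota_gY LS2 LU0 LU1 LU2 BIota_L0 BIota_L1 BIota_L20 BIota_L21

private theorem BIota_Z6 {H : Type} [Group H] (F : G →* H) :
    F ((D.a * D.b) ^ 6) = (F D.a * F D.b) ^ 6 := by
  rw [_root_.map_pow, _root_.map_mul]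

private theorem BIota_cube_x : ((αa * αb) ^ 3 : MulAut F2) (of 0) =
    of 0 * (of 1)⁻¹ * (of 0)⁻¹ * of 1 * (of 0)⁻¹ := by
  have e : ((αa * αb) ^ 3 : MulAut F2) (of 0) = αa (αb (αa (αb (αa (αb (of 0)))))) := rfl
  rw [e, αb_x]
  simp only [_root_.map_mul, _root_.map_inv, αa_x, αa_y, αb_x, αb_y]
  group

private theorem BIota_cube_y : ((αa * αb) ^ 3 : MulAut F2) (of 1) =
    of 0 * (of 1)⁻¹ * (of 0)⁻¹ := by
  have e : ((αa * αb) ^ 3 : MulAut F2) (of 1) = αa (αb (αa (αb (αa (αb (of 1)))))) := rfl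
  rw [e, αb_y]
  simp only [_root_.map_mul, _root_.map_inv, αa_x, αa_y, αb_x, αb_y]
  group

theorem r_Z : D.r ((D.a * D.b) ^ 6) = MulAut.conj (of 0 * (of 1)⁻¹ * (of 0)⁻¹ * of 1) := by
  rw [BIota_Z6, D.r_spec.1, D.r_spec.2.1]
  have e6 : ((αa * αb) ^ 6 : MulAut F2) = (αa * αb) ^ 3 * (αa * αb) ^ 3 := by rw [← pow_add]
  have hx := BIota_cube_x
  have hy := BIota_cube_y
  obtain ⟨φ, hφ⟩ : ∃ φ : MulAut F2, φ = (αa * αb) ^ 3 := ⟨_, rfl⟩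
  rw [← hφ] at hx hy e6
  rw [e6]
  refine aut2_ext ?_ ?_
  · rw [MulAut.mul_apply, MulAut.conj_apply, hx]
    simp only [_root_.map_mul, _root_.map_inv, hx, hy]
    group
  · rw [MulAut.mul_apply, MulAut.conj_apply, hy]
    simp only [_root_.map_mul, _root_.map_inv, hx, hy]
    group

theorem L_Z : D.L ((D.a * D.b) ^ 6) = 1 := by
  rw [BIota_Z6, D.L_spec.1, D.L_spec.2.1]
  have e3 : (LS1 * LS2) ^ 3 = LU0 * LU1 * LU2 := by decide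
  have e6 : (LS1 * LS2) ^ 6 = (LS1 * LS2) ^ 3 * (LS1 * LS2) ^ 3 := by rw [← pow_add]
  rw [e6, e3]
  decide

/-- the permutations which fix the base -/
private def BIota_B : Subgroup (Equiv.Perm (V3 × V3)) where
  carrier := {q | ∀ p, (q p).1 = p.1}
  one_mem' := fun p => rfl
  mul_mem' := by
    intro q q' h h' p
    change (q (q' p)).1 = p.1
    rw [h, h']
  inv_mem' := by
    intro q h p
    have h1 := h (q⁻¹ p)
    have h2 : q (q⁻¹ p) = p := q.apply_symm_apply p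
    rw [h2] at h1
    exact h1.symm

private theorem BIota_U0 : U0 ∈ BIota_B := fun _ => rfl

private theorem BIota_U1 : U1 ∈ BIota_B := fun _ => rfl

private theorem BIota_U2 : U2 ∈ BIota_B := fun _ => rfl

private theorem BIota_TZ : D.T ((D.a * D.b) ^ 6) ∈ BIota_B := by
  rw [BIota_Z6, D.T_spec.1, D.T_spec.2.1]
  have e6 : (S1 * S2) ^ 6 = (S1 * S2) ^ 3 * (S1 * S2) ^ 3 := by rw [← pow_add]
  have hu : U0 * U1 * U2 ∈ BIota_B :=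
    Subgroup.mul_mem _ (Subgroup.mul_mem _ BIota_U0 BIota_U1) BIota_U2
  rw [e6, S_cube]
  exact Subgroup.mul_mem _ hu hu

theorem T_Z (p : V3 × V3) : (D.T ((D.a * D.b) ^ 6) p).1 = p.1 := by
  exact BIota_TZ D p

theorem ε_Z : D.ε ((D.a * D.b) ^ 6) = Multiplicative.ofAdd 12 := by
  rw [BIota_Z6, D.ε_spec.1, D.ε_spec.2.1]
  rfl

theorem lin_Z : D.lin ((D.a * D.b) ^ 3) = -1 := by
  rw [_root_.map_pow, _root_.map_mul, D.lin_spec.1, D.lin_spec.2.1]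
  decide

theorem lin_one (g : G) (hg : D.lin g = 1) :
    ∃ (f : F2) (m : ℤ), g = D.ι f * ((D.a * D.b) ^ 6) ^ m := by
  obtain ⟨f, h, hh, rfl⟩ := decomp D g
  have hl : D.lin h = 1 := by
    rw [_root_.map_mul, lin_ι, one_mul] at hg
    exact hg
  obtain ⟨K, hK⟩ : ∃ K : Subgroup G, K = Subgroup.closure ({D.a, D.b} : Set G) := ⟨_, rfl⟩
  have haK : D.a ∈ Subgroup.closure ({D.a, D.b} : Set G) := Subgroup.subset_closure (by simp)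
  have hbK : D.b ∈ Subgroup.closure ({D.a, D.b} : Set G) := Subgroup.subset_closure (by simp)
  have hgen : Subgroup.closure ({⟨D.a, haK⟩, ⟨D.b, hbK⟩} :
      Set (Subgroup.closure ({D.a, D.b} : Set G))) = ⊤ := by
    have e : ({⟨D.a, haK⟩, ⟨D.b, hbK⟩} : Set (Subgroup.closure ({D.a, D.b} : Set G))) =
        ((↑) : Subgroup.closure ({D.a, D.b} : Set G) → G) ⁻¹' {D.a, D.b} := by
      ext x
      simp only [Set.mem_insert_iff, Set.mem_singleton_iff, Set.mem_preimage, Subtype.ext_iff]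
    rw [e]
    exact Subgroup.closure_closure_coe_preimage
  obtain ⟨k, hk⟩ := b3_ker (⟨D.a, haK⟩ : Subgroup.closure ({D.a, D.b} : Set G)) ⟨D.b, hbK⟩
    (Subtype.ext D.hab) hgen (D.lin.comp (Subgroup.closure ({D.a, D.b} : Set G)).subtype)
    (by
      change (D.lin D.a).1 = _
      rw [D.lin_spec.1]; rfl)
    (by
      change (D.lin D.b).1 = _
      rw [D.lin_spec.2.1]; rfl) ⟨h, hh⟩ (Or.inl hl)
  have hk' : h = ((D.a * D.b) ^ 3) ^ k := by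
    have h1 := congrArg (fun x : Subgroup.closure ({D.a, D.b} : Set G) => (x : G)) hk
    simpa using h1
  have h2 : (-1 : SL2) ^ k = 1 := by
    rw [hk', _root_.map_zpow, lin_Z] at hl
    exact hl
  have hs : (-1 : SL2) ^ (2 : ℤ) = 1 := by decide
  rcases Int.even_or_odd k with hev | hod
  · obtain ⟨m, hm⟩ := hev.two_dvd
    refine ⟨f, m, ?_⟩
    rw [hk', hm, zpow_mul]
    congr 2
    rw [zpow_ofNat, ← pow_mul]
  · exfalso
    obtain ⟨m, hm⟩ := hod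
    rw [hm, zpow_add, zpow_mul, hs, one_zpow, one_mul, zpow_one] at h2
    exact absurd h2 (by decide)

/-- the base is fixed -/
theorem base_one (g : G) (hg : D.lin g = 1) (p : V3 × V3) : (D.T g p).1 = p.1 := by
  obtain ⟨f, m, rfl⟩ := lin_one D g hg
  have h1 : D.T (D.ι f) ∈ BIota_B := by
    refine FreeGroup.induction_on f ?_ ?_ ?_ ?_
    · rw [_root_.map_one, _root_.map_one]
      exact Subgroup.one_mem _
    · intro i
      fin_cases i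
      · change D.T (D.ι (of 0)) ∈ BIota_B
        rw [BIota_ι0, T_X]
        exact Subgroup.mul_mem _ BIota_U0 BIota_U1
      · change D.T (D.ι (of 1)) ∈ BIota_B
        rw [BIota_ι1, T_Y]
        exact Subgroup.mul_mem _ BIota_U1 BIota_U2
    · intro i hi
      rw [_root_.map_inv, _root_.map_inv]
      exact Subgroup.inv_mem _ hi
    · intro x y hx hy
      rw [_root_.map_mul, _root_.map_mul]
      exact Subgroup.mul_mem _ hx hy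
  have h2 : D.T (D.ι f * ((D.a * D.b) ^ 6) ^ m) ∈ BIota_B := by
    rw [_root_.map_mul, _root_.map_zpow]
    exact Subgroup.mul_mem _ h1 (Subgroup.zpow_mem _ (BIota_TZ D) m)
  exact h2 p

end Pool.Agent.Lib.MP_9dbb0e_al.DF
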