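import Mathlib

/-!
# JOB MCt: centralizers in free groups

PROOFS.
`comm_of`: if `v` commutes with `of a` then `v` is a power of `of a`. Let `v` be a counterexample with `v.toWord` of minimal length (or strong induction on `v.norm`). `v ≠ 1`. Multiplying `v` on the left by a power of `of a` we may assume that the reduced word of `v` does not begin with
 `a` or `a⁻¹`: strong induction: if `v.toWord = (a, b) :: L` then `v' = (of a)^(∓1) * v` has the word `L` (shorter), commutes with `of a`, so `v' = of a ^ m`. If the word `L` of `v ≠ 1` does not begin with `(a, _)`: then `(a, true) :: L` and `(a, false) :: L` are reduced, so `(of a * v).norm = L.length + 1`, and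
 `of a * v = v * of a`; the word of `v * of a` is obtained from `L ++ [(a, true)]` by cancelling at most the last two letters; as the norm is `L.length + 1` there is no cancelling: the word is `L ++ [(a, true)]`; it equals `(a, true) :: L`; so `L` begins with `(a, true)`, contradiction (`L ≠ []`).
 OTHER PROOF (perhaps easier in Lean): let `kill a` be the endomorphism killing `a`; Pool/Agent/Lib/MP_9dbb0e_al/GT/FG.lean proves `kill_of_comm : W * of a * W⁻¹ = of a → kill a W = 1` (you may import that file: `import Pool.Agent.Lib.MP_9dbb0e_al.GT.FG`); it is enough to show: the same for powers. A third proof: the tree action. Use what works.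
`center_free`: two different letters `a ≠ b`: `v = of a ^ m = of b ^ n` (`comm_of`); the homomorphism `FreeGroup.lift (fun i => if i = a then ofAdd 1 else 1)` to `Multiplicative ℤ` gives `m = 0`.
`conj_inj`: `MulAut.conj v = 1` means `v x v⁻¹ = x` for all `x`; `center_free`.
-/

set_option autoImplicit false

namespace Pool.Agent.Lib.MP_9dbb0e_al.DF

open FreeGroup

variable {I : Type} [DecidableEq I]

/-- the exponent of the letter `a` -/
private def MCt_ea (a : I) : FreeGroup I →* Multiplicative ℤ :=
  FreeGroup.lift fun i => if i = a then Multiplicative.ofAdd (1 : ℤ) else 1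

private theorem MCt_ea_self (a : I) : MCt_ea a (of a) = Multiplicative.ofAdd (1 : ℤ) := by
  unfold MCt_ea
  rw [FreeGroup.lift_apply_of, if_pos rfl]

private theorem MCt_ea_ne {a b : I} (h : b ≠ a) : MCt_ea a (of b) = 1 := by
  unfold MCt_ea
  rw [FreeGroup.lift_apply_of, if_neg h]

/-- commutative free groups are cyclic (Nielsen-Schreier is used for the subgroup generated by two elements) -/
private theorem MCt_cyclic (H : Type) [Group H] [IsFreeGroup H] (hc : ∀ x y : H, x * y = y * x) :
    ∃ g : H, ∀ h : H, ∃ n : ℤ, h = g ^ n := by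
  classical
  have hsub : ∀ x y : IsFreeGroup.Generators H, x = y := by
    intro x y
    by_contra hxy
    obtain ⟨F, hF⟩ : ∃ F : H →* Equiv.Perm (Fin 3), ∀ z, F (IsFreeGroup.of z) =
        if z = x then Equiv.swap 0 1 else Equiv.swap 1 2 :=
      ⟨IsFreeGroup.lift fun z => if z = x then Equiv.swap 0 1 else Equiv.swap 1 2, fun z => IsFreeGroup.lift_of _ z⟩
    have h1 := congrArg F (hc (IsFreeGroup.of x) (IsFreeGroup.of y))
    rw [_root_.map_mul, _root_.map_mul, hF, hF, if_pos rfl, if_neg (Ne.symm hxy)] at h1
    exact absurd h1 (by decide)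
  rcases isEmpty_or_nonempty (IsFreeGroup.Generators H) with he | ⟨⟨x⟩⟩
  · refine ⟨1, fun h => ⟨0, ?_⟩⟩
    rw [zpow_zero]
    exact (IsFreeGroup.toFreeGroup H).injective (Subsingleton.elim _ _)
  · refine ⟨(IsFreeGroup.toFreeGroup H).symm (of x), fun h => ?_⟩
    have h1 : IsFreeGroup.toFreeGroup H h ∈ Subgroup.closure (Set.range (of : _ → FreeGroup (IsFreeGroup.Generators H))) := by
      rw [FreeGroup.closure_range_of]
      exact Subgroup.mem_top _
    have h2 : Set.range (of : _ → FreeGroup (IsFreeGroup.Generators H)) = {of x} := by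
      ext z
      constructor
      · rintro ⟨y, rfl⟩
        rw [hsub y x]
        exact Set.mem_singleton _
      · rintro rfl
        exact ⟨x, rfl⟩
    rw [h2] at h1
    obtain ⟨n, hn⟩ := Subgroup.mem_closure_singleton.1 h1
    refine ⟨n, ?_⟩
    rw [← map_zpow, hn, MulEquiv.symm_apply_apply]

theorem comm_of (a : I) (v : FreeGroup I) (h : of a * v = v * of a) : ∃ m : ℤ, v = of a ^ m := by
  have hcomm : ∀ x ∈ ({of a, v} : Set (FreeGroup I)), ∀ y ∈ ({of a, v} : Set (FreeGroup I)), x * y = y * x := by
    rintro x (rfl | rfl) y (rfl | rfl)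
    · rfl
    · exact h
    · exact h.symm
    · rfl
  have hc := Subgroup.isMulCommutative_closure hcomm
  obtain ⟨g, hg⟩ := MCt_cyclic (Subgroup.closure ({of a, v} : Set (FreeGroup I))) fun x y => mul_comm' x y
  have ha : of a ∈ Subgroup.closure ({of a, v} : Set (FreeGroup I)) := Subgroup.subset_closure (Set.mem_insert _ _)
  have hv : v ∈ Subgroup.closure ({of a, v} : Set (FreeGroup I)) :=
    Subgroup.subset_closure (Set.mem_insert_of_mem _ (Set.mem_singleton _))
  obtain ⟨n, hn⟩ := hg ⟨of a, ha⟩
  obtain ⟨m, hm⟩ := hg ⟨v, hv⟩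
  have hn' : of a = (g : FreeGroup I) ^ n := congrArg Subtype.val hn
  have hm' : v = (g : FreeGroup I) ^ m := congrArg Subtype.val hm
  have h1 := congrArg (fun x => Multiplicative.toAdd (MCt_ea a x)) hn'
  simp only [MCt_ea_self, map_zpow, toAdd_ofAdd, toAdd_zpow, smul_eq_mul] at h1
  have h2 : IsUnit n := IsUnit.of_mul_eq_one _ h1.symm
  rcases Int.isUnit_iff.1 h2 with h3 | h3
  · rw [h3, zpow_one] at hn'
    exact ⟨m, by rw [hn']; exact hm'⟩
  · rw [h3, zpow_neg_one] at hn'
    refine ⟨-m, ?_⟩
    rw [hn', inv_zpow, zpow_neg, inv_inv]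
    exact hm'

theorem center_free {a b : I} (hab : a ≠ b) (v : FreeGroup I) (ha : of a * v = v * of a)
    (hb : of b * v = v * of b) : v = 1 := by
  obtain ⟨m, hm⟩ := comm_of a v ha
  obtain ⟨n, hn⟩ := comm_of b v hb
  have h1 : MCt_ea a v = Multiplicative.ofAdd m := by
    rw [hm, map_zpow, MCt_ea_self, ← ofAdd_zsmul, smul_eq_mul, mul_one]
  have h2 : MCt_ea a v = 1 := by
    rw [hn, map_zpow, MCt_ea_ne (Ne.symm hab), one_zpow]
  have h3 : m = 0 := Multiplicative.ofAdd.injective (h1.symm.trans h2)
  rw [hm, h3, zpow_zero]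

theorem conj_inj {a b : I} (hab : a ≠ b) :
    Function.Injective (MulAut.conj : FreeGroup I →* MulAut (FreeGroup I)) := by
  rw [injective_iff_map_eq_one]
  intro v hv
  have h1 : ∀ x : FreeGroup I, x * v = v * x := by
    intro x
    have h2 : MulAut.conj v x = x := by
      rw [hv]
      rfl
    rw [MulAut.conj_apply] at h2
    nth_rewrite 1 [← h2]
    group
  exact center_free hab v (h1 _) (h1 _)

/-- conjugate letters are equal -/
theorem of_conj_of {a b : I} (g : FreeGroup I) (h : g * of a * g⁻¹ = of b) : a = b := by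
  have h1 := congrArg (FreeGroup.lift (fun i => if i = a then Multiplicative.ofAdd (1 : ℤ) else 1)) h
  rw [_root_.map_mul, _root_.map_mul, _root_.map_inv, mul_right_comm, mul_inv_cancel, one_mul,
    FreeGroup.lift_apply_of, FreeGroup.lift_apply_of, if_pos rfl] at h1
  by_contra hne
  rw [if_neg (Ne.symm hne)] at h1
  exact absurd h1 (by decide)

end Pool.Agent.Lib.MP_9dbb0e_al.DF
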