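import Pool.Agent.Lib.MP_9dbb0e_al.D.KBas
import Pool.Agent.Lib.MP_9dbb0e_al.D.MCt
import Pool.Agent.Lib.MP_9dbb0e_al.D.BDefs

/-!
# JOB BKer: the commutator subgroup of the free group of rank two

`k0 = x y⁻¹ x⁻¹ y`. `P2 : FreeGroup (ℤ × ℤ) →* F2`, `(m, n) ↦ x ^ m y ^ n k0 y ^ (-n) x ^ (-m)`. `ab w = (exponent of x, exponent of y)`.

PROOFS. (`open FreeGroup` makes `map_mul` ambiguous: write `_root_.map_mul`.)
`P2_inj`, `P2_range`: transport `kb Empty` (KBas.lean) along the equivalences `ℤ × ℤ ≃ ℤ × (ℤ × Option Empty)` and `Fin 2 ≃ Option (Option Empty)` (`0 ↦ some none`, `1 ↦ none`) (`FreeGroup.freeGroupCongr`): `P2 = (freeGroupCongr e).symm ∘ kb Empty ∘ freeGroupCongr e'` by `FreeGroup.ext_hom`; `ab` corresponds to the two exponents `wd (some none)`, `wd none`.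
`conj_k0`: `f * k0 * f⁻¹ = P2 (k * of (ab f) * k⁻¹)` for some `k`: `g = f * (x ^ m * y ^ n)⁻¹` with `(m, n) = ab f` has `ab g = (0, 0)`, so `g = P2 k` (`P2_range`), and `f * k0 * f⁻¹ = g * (x ^ m y ^ n k0 y ^ (-n) x ^ (-m)) * g⁻¹`.
`αa_k0`, `αb_k0`, `αc_k0`: `αa k0 = x (x y)⁻¹ x⁻¹ (x y) = x y⁻¹ x⁻¹ y`; `αb k0 = x y⁻¹ y⁻¹ (y x⁻¹) y = k0`; `αc k0 = x (y x)⁻¹ x⁻¹ y x = x⁻¹ k0 x` (`αc_k0 : αc k0 = (of 0)⁻¹ * k0 * of 0`).
`ab_α`: the action of `αa, αb, αc` on exponents: `ab (αa w) = (m + n, n)`, `ab (αb w) = (m, n - m)`, `ab (αc w) = (m + n, n)` for `ab w = (m, n)`: both sides additive: check on the letters (induction over `w` with `FreeGroup.induction_on` or compare homs to `Multiplicative ℤ`).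
`fix_all`: `g : MulAut F2` with `g (P2 v) = P2 v` for all `v` is `1`: for `f : F2` and every `v`: `f * P2 v * f⁻¹` has exponents zero, so it is in the range and fixed by `g`: `g f * P2 v * (g f)⁻¹ = f * P2 v * f⁻¹`: `h = f⁻¹ * g f` commutes with all `P2 v`. `ab h`.. Show `h = 1`: `h` commutes with `u = P2 (of (0, 0))` and `u' = P2 (of (1, 0))`. Let `ab h = (m, n)`:
 `h * u * h⁻¹ = P2 (k * of (m, n) * k⁻¹)` (`conj_k0`) and `= P2 (of (0, 0))`, so `k * of (m, n) * k⁻¹ = of (0, 0)` (`P2_inj`), `(m, n) = (0, 0)` (`of_conj_of`); so `h = P2 h'`, and `h'` commutes with `of (0, 0)` and `of (1, 0)`: `center_free`, `h' = 1`.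
-/

set_option autoImplicit false

namespace Pool.Agent.Lib.MP_9dbb0e_al.DF

open FreeGroup

/-- the commutator -/
def k0 : F2 := of 0 * (of 1)⁻¹ * (of 0)⁻¹ * of 1

/-- the basis of the commutator subgroup -/
def P2 : FreeGroup (ℤ × ℤ) →* F2 :=
  FreeGroup.lift fun p => of 0 ^ p.1 * of 1 ^ p.2 * k0 * (of 1 ^ p.2)⁻¹ * (of 0 ^ p.1)⁻¹

/-- the exponents -/
def ab (w : F2) : ℤ × ℤ :=
  (Multiplicative.toAdd (wd (0 : Fin 2) w), Multiplicative.toAdd (wd (1 : Fin 2) w))

theorem ab_mul (v w : F2) : ab (v * w) = ab v + ab w := by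
  exact Prod.ext (congrArg Multiplicative.toAdd (_root_.map_mul (wd 0) v w))
    (congrArg Multiplicative.toAdd (_root_.map_mul (wd 1) v w))

theorem ab_inv (w : F2) : ab w⁻¹ = - ab w := by
  exact Prod.ext (congrArg Multiplicative.toAdd (_root_.map_inv (wd 0) w))
    (congrArg Multiplicative.toAdd (_root_.map_inv (wd 1) w))

private theorem BKer_wd {I : Type} [DecidableEq I] (x i : I) :
    wd x (of i) = if i = x then Multiplicative.ofAdd 1 else 1 := FreeGroup.lift_apply_of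

private theorem BKer_w00 : wd (0 : Fin 2) (of 0) = Multiplicative.ofAdd 1 := by
  rw [BKer_wd, if_pos rfl]

private theorem BKer_w01 : wd (0 : Fin 2) (of 1) = 1 := by
  rw [BKer_wd, if_neg (by decide)]

private theorem BKer_w10 : wd (1 : Fin 2) (of 0) = 1 := by
  rw [BKer_wd, if_neg (by decide)]

private theorem BKer_w11 : wd (1 : Fin 2) (of 1) = Multiplicative.ofAdd 1 := by
  rw [BKer_wd, if_pos rfl]

/-- the normal form -/
private theorem BKer_nf (m n : ℤ) : ab (of 0 ^ m * of 1 ^ n) = (m, n) := by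
  have h0 : wd 0 ((of 0 : F2) ^ m * of 1 ^ n) = (Multiplicative.ofAdd (1 : ℤ)) ^ m := by
    rw [_root_.map_mul, _root_.map_zpow, _root_.map_zpow, BKer_w00, BKer_w01, one_zpow, mul_one]
  have h1 : wd 1 ((of 0 : F2) ^ m * of 1 ^ n) = (Multiplicative.ofAdd (1 : ℤ)) ^ n := by
    rw [_root_.map_mul, _root_.map_zpow, _root_.map_zpow, BKer_w10, BKer_w11, one_zpow, one_mul]
  unfold ab
  rw [h0, h1]
  refine Prod.ext ?_ ?_
  · show Multiplicative.toAdd ((Multiplicative.ofAdd (1 : ℤ)) ^ m) = m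
    rw [toAdd_zpow, toAdd_ofAdd, smul_eq_mul, mul_one]
  · show Multiplicative.toAdd ((Multiplicative.ofAdd (1 : ℤ)) ^ n) = n
    rw [toAdd_zpow, toAdd_ofAdd, smul_eq_mul, mul_one]

/-- the equivalence of the letters -/
private def BKer_e : Fin 2 ≃ Option (Option Empty) where
  toFun i := if i = 0 then some none else none
  invFun o := match o with
    | none => 1
    | some _ => 0
  left_inv i := by
    fin_cases i <;> rfl
  right_inv o := by
    rcases o with _ | _ | x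
    · rfl
    · rfl
    · exact x.elim

/-- the equivalence of the indices -/
private def BKer_f : ℤ × ℤ ≃ ℤ × (ℤ × Option Empty) where
  toFun p := (p.1, (p.2, none))
  invFun q := (q.1, q.2.1)
  left_inv _ := rfl
  right_inv q := by
    rcases q with ⟨m, n, _ | x⟩
    · rfl
    · exact x.elim

private theorem BKer_e0 : freeGroupCongr BKer_e (of 0) = of (some none) := FreeGroup.map.of

private theorem BKer_e1 : freeGroupCongr BKer_e (of 1) = of none := FreeGroup.map.of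

private theorem BKer_P2 (p : ℤ × ℤ) :
    P2 (of p) = of 0 ^ p.1 * of 1 ^ p.2 * k0 * (of 1 ^ p.2)⁻¹ * (of 0 ^ p.1)⁻¹ := FreeGroup.lift_apply_of

private theorem BKer_kb (p : ℤ × (ℤ × Option Empty)) :
    kb Empty (of p) = of (some none) ^ p.1 * of none ^ p.2.1 * kbF Empty p.2.2 *
    (of none ^ p.2.1)⁻¹ * (of (some none) ^ p.1)⁻¹ := FreeGroup.lift_apply_of

private theorem BKer_k0 : freeGroupCongr BKer_e k0 = kbF Empty none := by
  unfold k0
  rw [_root_.map_mul, _root_.map_mul, _root_.map_mul, _root_.map_inv, _root_.map_inv, BKer_e0, BKer_e1]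
  rfl

private theorem BKer_eq (v : FreeGroup (ℤ × ℤ)) :
    freeGroupCongr BKer_e (P2 v) = kb Empty (freeGroupCongr BKer_f v) := by
  have h : ((freeGroupCongr BKer_e).toMonoidHom.comp P2) =
      ((kb Empty).comp (freeGroupCongr BKer_f).toMonoidHom) := by
    refine FreeGroup.ext_hom _ _ fun p => ?_
    show freeGroupCongr BKer_e (P2 (of p)) = kb Empty (freeGroupCongr BKer_f (of p))
    have h1 : freeGroupCongr BKer_f (of p) = of (p.1, (p.2, none)) := FreeGroup.map.of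
    rw [h1, BKer_P2, BKer_kb, _root_.map_mul, _root_.map_mul, _root_.map_mul, _root_.map_mul, _root_.map_inv,
      _root_.map_inv, _root_.map_zpow, _root_.map_zpow, BKer_e0, BKer_e1, BKer_k0]
  exact DFunLike.congr_fun h v

private theorem BKer_wde (w : F2) : wd (some none) (freeGroupCongr BKer_e w) = wd 0 w ∧
    wd none (freeGroupCongr BKer_e w) = wd 1 w := by
  have h : ((wd (some (none : Option Empty))).comp (freeGroupCongr BKer_e).toMonoidHom) = wd 0 := by
    refine FreeGroup.ext_hom _ _ fun p => ?_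
    show wd (some none) (freeGroupCongr BKer_e (of p)) = wd 0 (of p)
    fin_cases p
    · show wd (some none) (freeGroupCongr BKer_e (of 0)) = wd 0 (of 0)
      rw [BKer_e0, BKer_w00, BKer_wd, if_pos rfl]
    · show wd (some none) (freeGroupCongr BKer_e (of 1)) = wd 0 (of 1)
      rw [BKer_e1, BKer_w01, BKer_wd, if_neg (by decide)]
  have h' : ((wd (none : Option (Option Empty))).comp (freeGroupCongr BKer_e).toMonoidHom) = wd 1 := by
    refine FreeGroup.ext_hom _ _ fun p => ?_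
    show wd none (freeGroupCongr BKer_e (of p)) = wd 1 (of p)
    fin_cases p
    · show wd none (freeGroupCongr BKer_e (of 0)) = wd 1 (of 0)
      rw [BKer_e0, BKer_w10, BKer_wd, if_neg (by decide)]
    · show wd none (freeGroupCongr BKer_e (of 1)) = wd 1 (of 1)
      rw [BKer_e1, BKer_w11, BKer_wd, if_pos rfl]
  exact ⟨DFunLike.congr_fun h w, DFunLike.congr_fun h' w⟩

theorem P2_inj : Function.Injective P2 := by
  intro v w h
  have h1 := congrArg (freeGroupCongr BKer_e) h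
  rw [BKer_eq, BKer_eq] at h1
  exact (freeGroupCongr BKer_f).injective (kb_inj Empty h1)

theorem P2_range (w : F2) : (∃ v, P2 v = w) ↔ ab w = 0 := by
  have h1 : (∃ v, P2 v = w) ↔ ∃ v, kb Empty v = freeGroupCongr BKer_e w := by
    constructor
    · rintro ⟨v, hv⟩
      refine ⟨freeGroupCongr BKer_f v, ?_⟩
      rw [← BKer_eq, hv]
    · rintro ⟨v, hv⟩
      refine ⟨(freeGroupCongr BKer_f).symm v, ?_⟩
      apply (freeGroupCongr BKer_e).injective
      rw [BKer_eq, MulEquiv.apply_symm_apply, hv]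
  obtain ⟨e0, e1⟩ := BKer_wde w
  rw [h1, kb_range, e0, e1]
  unfold ab
  constructor
  · rintro ⟨a, b⟩
    rw [a, b]
    rfl
  · intro h
    have a := congrArg Prod.fst h
    have b := congrArg Prod.snd h
    exact ⟨b, a⟩

theorem conj_k0 (f : F2) : ∃ k, f * k0 * f⁻¹ = P2 (k * of (ab f) * k⁻¹) := by
  obtain ⟨k, hk⟩ := (P2_range (f * (of 0 ^ (ab f).1 * of 1 ^ (ab f).2)⁻¹)).2 (by
    rw [ab_mul, ab_inv, BKer_nf]
    exact add_neg_cancel _)
  refine ⟨k, ?_⟩
  rw [_root_.map_mul, _root_.map_mul, _root_.map_inv, hk, BKer_P2]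
  group

theorem αa_k0 : αa k0 = k0 := by
  unfold k0
  rw [_root_.map_mul, _root_.map_mul, _root_.map_mul, _root_.map_inv, _root_.map_inv, αa_x, αa_y]
  group

theorem αb_k0 : αb k0 = k0 := by
  unfold k0
  rw [_root_.map_mul, _root_.map_mul, _root_.map_mul, _root_.map_inv, _root_.map_inv, αb_x, αb_y]
  group

theorem αc_k0 : αc k0 = (of 0)⁻¹ * k0 * of 0 := by
  unfold k0
  rw [_root_.map_mul, _root_.map_mul, _root_.map_mul, _root_.map_inv, _root_.map_inv, αc_x, αc_y]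
  group

private theorem BKer_hom {g : MulAut F2} {φ ψ : F2 →* Multiplicative ℤ} (h0 : φ (g (of 0)) = ψ (of 0))
    (h1 : φ (g (of 1)) = ψ (of 1)) (w : F2) : φ (g w) = ψ w := by
  have h : φ.comp g.toMonoidHom = ψ := by
    refine FreeGroup.ext_hom _ _ fun p => ?_
    fin_cases p
    · exact h0
    · exact h1
  exact DFunLike.congr_fun h w

theorem ab_αa (w : F2) : ab (αa w) = ((ab w).1 + (ab w).2, (ab w).2) := by
  have h0 : wd 0 (αa w) = (wd 0 * wd 1 : F2 →* Multiplicative ℤ) w := by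
    refine BKer_hom ?_ ?_ w
    · rw [αa_x, MonoidHom.mul_apply, BKer_w10, mul_one]
    · rw [αa_y, MonoidHom.mul_apply, BKer_w01, BKer_w11, _root_.map_mul, BKer_w00, BKer_w01, one_mul, mul_one]
  have h1 : wd 1 (αa w) = wd 1 w := by
    refine BKer_hom ?_ ?_ w
    · rw [αa_x]
    · rw [αa_y, _root_.map_mul, BKer_w10, one_mul]
  unfold ab
  rw [h0, h1]
  rfl

theorem ab_αb (w : F2) : ab (αb w) = ((ab w).1, (ab w).2 - (ab w).1) := by
  have h0 : wd 0 (αb w) = wd 0 w := by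
    refine BKer_hom ?_ ?_ w
    · rw [αb_x, _root_.map_mul, _root_.map_inv, BKer_w01, inv_one, mul_one]
    · rw [αb_y]
  have h1 : wd 1 (αb w) = (wd 1 / wd 0 : F2 →* Multiplicative ℤ) w := by
    refine BKer_hom ?_ ?_ w
    · rw [αb_x, MonoidHom.div_apply, BKer_w10, BKer_w00, _root_.map_mul, _root_.map_inv, BKer_w10, BKer_w11, one_mul,
        one_div]
    · rw [αb_y, MonoidHom.div_apply, BKer_w01, div_one]
  unfold ab
  rw [h0, h1]
  rfl

theorem ab_αc (w : F2) : ab (αc w) = ((ab w).1 + (ab w).2, (ab w).2) := by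
  have h0 : wd 0 (αc w) = (wd 0 * wd 1 : F2 →* Multiplicative ℤ) w := by
    refine BKer_hom ?_ ?_ w
    · rw [αc_x, MonoidHom.mul_apply, BKer_w10, mul_one]
    · rw [αc_y, MonoidHom.mul_apply, BKer_w01, BKer_w11, _root_.map_mul, BKer_w00, BKer_w01]
  have h1 : wd 1 (αc w) = wd 1 w := by
    refine BKer_hom ?_ ?_ w
    · rw [αc_x]
    · rw [αc_y, _root_.map_mul, BKer_w10, mul_one]
  unfold ab
  rw [h0, h1]
  rfl

theorem fix_all (g : MulAut F2) (hg : ∀ v, g (P2 v) = P2 v) : g = 1 := by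
  refine MulEquiv.ext fun f => ?_
  show g f = f
  have hc : ∀ v, (f⁻¹ * g f) * P2 v * (f⁻¹ * g f)⁻¹ = P2 v := by
    intro v
    obtain ⟨v', hv'⟩ := (P2_range (f * P2 v * f⁻¹)).2 (by
      have h0 : ab (P2 v) = 0 := (P2_range _).1 ⟨v, rfl⟩
      rw [ab_mul, ab_mul, ab_inv, h0, add_zero]
      exact add_neg_cancel _)
    have h1 := hg v'
    rw [hv', _root_.map_mul, _root_.map_mul, _root_.map_inv, hg v] at h1
    have h2 : (f⁻¹ * g f) * P2 v * (f⁻¹ * g f)⁻¹ = f⁻¹ * (g f * P2 v * (g f)⁻¹) * f := by group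
    rw [h2, h1]
    group
  obtain ⟨h, hh⟩ : ∃ h, h = f⁻¹ * g f := ⟨_, rfl⟩
  rw [← hh] at hc
  have hk : P2 (of (0, 0)) = k0 := by
    rw [BKer_P2]
    show of 0 ^ (0 : ℤ) * of 1 ^ (0 : ℤ) * k0 * (of 1 ^ (0 : ℤ))⁻¹ * (of 0 ^ (0 : ℤ))⁻¹ = k0
    rw [zpow_zero, zpow_zero, inv_one, mul_one, mul_one, one_mul, one_mul]
  obtain ⟨k, hk2⟩ := conj_k0 h
  have h3 := hc (of (0, 0))
  rw [hk, hk2, ← hk] at h3
  have h4 : ab h = (0, 0) := of_conj_of k (P2_inj h3)
  obtain ⟨h', hh'⟩ := (P2_range h).2 h4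
  have h5 : ∀ v, v * h' = h' * v := by
    intro v
    apply P2_inj
    have h6 := hc v
    rw [← hh'] at h6
    rw [_root_.map_mul, _root_.map_mul]
    rw [mul_inv_eq_iff_eq_mul] at h6
    exact h6.symm
  have h6 : h' = 1 := center_free (a := ((0, 0) : ℤ × ℤ)) (b := (1, 0)) (by decide) h' (h5 _) (h5 _)
  rw [h6, _root_.map_one] at hh'
  rw [← hh'] at hh
  exact (inv_mul_eq_one.1 hh.symm).symm

end Pool.Agent.Lib.MP_9dbb0e_al.DF
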