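import Pool.Agent.Lib.MP_9dbb0e_al.D.BPo
import Pool.Agent.Lib.MP_9dbb0e_al.D.BInn
import Pool.Agent.Lib.MP_9dbb0e_al.D.NPar
import Pool.Agent.Lib.MP_9dbb0e_al.D.AAlt

/-!
# JOB BPar: parabolic pairs in `B_4`

PROOFS. `Alt.map`: `f (a ^ n) = (f a) ^ n`, `FreeTwo.map f hf` (U.lean), `Commute.map`.
`As_zpow`: `As ^ k = Tz k` (`Int.induction_on`; `Tz k * Tz l = Tz (k + l)`).
`r_par`: `lin g = Tz (2 * k)`: `lin (g * a ^ (-2 k)) = 1` (`lin a = As`), `lin_one`: `g = ι f * Z ^ m * a ^ (2 k)`; `r g = conj f * conj k0 ^ m * αa ^ (2 k) = conj (f * k0 ^ m) * tt ^ k` (`r_ι`, `r_Z`, `tt = αa ^ 2`), `= j2 ⟨f * k0 ^ m, ofAdd k⟩`.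
`par4`: `g ^ 2`, `h ^ 2` have the linear parts `Tz (2 k)`, `Tz (2 l)`. `r_par` gives `p, q : E2` with `j2 p = r (g ^ 2)`, `j2 q = r (h ^ 2)`. `PA_E2 p q : Alt p q`; `Alt.map j2 j2_inj`; `Alt.of_map D.r ker4'`; `Alt.pow 2 2`.
-/

set_option autoImplicit false

namespace Pool.Agent.Lib.MP_9dbb0e_al.DF

open FreeGroup
open scoped Matrix

theorem Alt.map {G H : Type*} [Group G] [Group H] (f : G →* H) (hf : Function.Injective f)
    {a b : G} (h : Alt a b) : Alt (f a) (f b) := by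
  obtain ⟨n, hn, h1⟩ := h
  refine ⟨n, hn, ?_⟩
  rw [← _root_.map_pow, ← _root_.map_pow]
  rcases h1 with h1 | h1
  · exact Or.inl (h1.map f)
  · exact Or.inr (FreeTwo.map f hf h1)

theorem Tz_mul (k l : ℤ) : Tz k * Tz l = Tz (k + l) := by
  apply Subtype.ext
  simp only [Tz, Matrix.SpecialLinearGroup.coe_mul, Matrix.mul_fin_two]
  ext i j
  fin_cases i <;> fin_cases j <;> simp [add_comm]

theorem As_zpow (k : ℤ) : As ^ k = Tz k := by
  have h1 : As = Tz 1 := rfl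
  have h0 : (1 : SL2) = Tz 0 := by
    apply Subtype.ext
    ext i j
    fin_cases i <;> fin_cases j <;> simp [Tz]
  have hinv : As⁻¹ = Tz (-1) := by
    rw [inv_eq_iff_mul_eq_one, h1, Tz_mul, h0]
    rfl
  induction k using Int.induction_on with
  | zero => rw [zpow_zero, h0]
  | succ n ih => rw [zpow_add_one, ih, h1, Tz_mul]
  | pred n ih => rw [zpow_sub_one, ih, hinv, Tz_mul, sub_eq_add_neg]

variable {G : Type} [Group G] (D : B4 G)

theorem r_par (g : G) (k : ℤ) (hg : D.lin g = Tz (2 * k)) : ∃ p : E2, j2 p = D.r g := by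
  have h1 : D.lin (g * (D.a ^ (2 * k))⁻¹) = 1 := by
    rw [_root_.map_mul, _root_.map_inv, _root_.map_zpow, D.lin_spec.1, As_zpow, hg, mul_inv_cancel]
  obtain ⟨f, m, h2⟩ := lin_one D _ h1
  have h3 : g = D.ι f * ((D.a * D.b) ^ 6) ^ m * D.a ^ (2 * k) := by
    rw [← h2, inv_mul_cancel_right]
  refine ⟨⟨f * k0 ^ m, Multiplicative.ofAdd k⟩, ?_⟩
  rw [j2_apply, h3, _root_.map_mul D.r, _root_.map_mul D.r, _root_.map_zpow D.r,
    _root_.map_zpow D.r, r_ι, r_Z, D.r_spec.1, _root_.map_mul, _root_.map_zpow]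
  have h4 : ttH (Multiplicative.ofAdd k) = αa ^ (2 * k) := by
    show tt ^ k = αa ^ (2 * k)
    rw [zpow_mul]
    rfl
  rw [h4]
  rfl

theorem par4 (g h : G) (hg : ∃ k, D.lin g = Tz k) (hh : ∃ k, D.lin h = Tz k) : Alt g h := by
  obtain ⟨k, hk⟩ := hg
  obtain ⟨l, hl⟩ := hh
  have hk2 : D.lin (g ^ 2) = Tz (2 * k) := by
    rw [_root_.map_pow, hk, pow_two, Tz_mul, two_mul]
  have hl2 : D.lin (h ^ 2) = Tz (2 * l) := by
    rw [_root_.map_pow, hl, pow_two, Tz_mul, two_mul]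
  obtain ⟨p, hp⟩ := r_par D _ k hk2
  obtain ⟨q, hq⟩ := r_par D _ l hl2
  have h1 : Alt (j2 p) (j2 q) := Alt.map j2 j2_inj (PA_E2 p q)
  rw [hp, hq] at h1
  exact Alt.pow 2 2 two_pos two_pos (Alt.of_map D.r (ker4' D) h1)

end Pool.Agent.Lib.MP_9dbb0e_al.DF
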