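import Pool.Agent.Lib.MP_9dbb0e_al.D3
import Pool.Agent.Lib.MP_9dbb0e_al.GT.L3
import Pool.Agent.Lib.MP_9dbb0e_al.D.AMain
import Pool.Agent.Lib.MP_9dbb0e_al.D.BPar

/-!
# JOB BMain: the power alternative for the braid group on four strands

PROOFS. `dich4`: `M = CoxeterMatrix.A 2` (on `Fin 2`), `s = σ M 0`, `t = σ M 1`; `M.M 0 1 = 3` (`rfl`/`decide`); `s t s = t s t` (`GT.rel_three` or `braid`, `alt`); `PA (Art M)` by `PA_dih_odd M 0 1 _ _ 1 _`. `r : G →* Art M` by `D.lift s t s`; `l : Art M →* SL2` by `exists_lift` (A1.lean) with `0 ↦ As`, `1 ↦ At` (`As At As = At As At`: `decide`);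
 `D.lin = l.comp r` (they agree on `a, b, c`; `B4.mem_of` for `MonoidHom.eqLocus`). `PA (Art M)` for `r g`, `r h`: `n`; if they commute apply `l`; if `FreeTwo`: `FreeTwo.of_map r`.
`exists_AD4`: the fields: `T, L, lin, ρ, π`, `hT := T_L`, `hL := L_lin`, `lin_surj4`, `base := base_one`, `hρ := ρ_π`, `pt4`, `pt4_inj`, `s := 1`, `pt4_sum`, `hπ := pt4_π`, `inn4`, `ker4`, `par4`, `dich4`.
`PA_B4`: `AD_PA`.
`B4_of`: the structure `B4 (Art M)` for a Coxeter matrix with three generators of type `A₃`: `a = σ M a` etc., `GT.rel_three`, `GT.rel_two`, `GT.closure3`, `GT.lift3` (with `alt x y 3 = x * y * x`, `alt x y 2 = x * y`: `alt_two` in A1.lean, `GT.alt_three`).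
-/

set_option autoImplicit false

namespace Pool.Agent.Lib.MP_9dbb0e_al.DF

open FreeGroup
open scoped Matrix

variable {G : Type} [Group G] (D : B4 G)

theorem dich4 (g h : G) : ∃ n : ℕ, 0 < n ∧
    (D.lin (g ^ n) * D.lin (h ^ n) = D.lin (h ^ n) * D.lin (g ^ n) ∨ FreeTwo (g ^ n) (h ^ n)) := by
  obtain ⟨M, hM⟩ : ∃ M : CoxeterMatrix (Fin 2), M = CoxeterMatrix.A 2 := ⟨_, rfl⟩
  have h01 : M.M 0 1 = 3 := by
    rw [hM]
    rfl
  have h10 : M.M 1 0 = 3 := by
    rw [hM]
    rfl
  have hPA : PA (Art M) := PA_dih_odd M 0 1 (by decide) (by decide) 1 (by rw [h01])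
  have hst : σ M 0 * σ M 1 * σ M 0 = σ M 1 * σ M 0 * σ M 1 := GT.rel_three M (by decide) h01
  obtain ⟨r, ra, rb, rc⟩ := D.lift (σ M 0) (σ M 1) (σ M 0) hst rfl hst.symm
  have hA : As * At * As = At * As * At := by decide
  obtain ⟨l, hl⟩ := exists_lift M ![As, At] (by
    intro i j hij _
    fin_cases i <;> fin_cases j
    · exact absurd rfl hij
    · show alt As At (M.M 0 1) = alt At As (M.M 0 1)
      rw [h01, GT.alt_three, GT.alt_three, hA]
    · show alt At As (M.M 1 0) = alt As At (M.M 1 0)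
      rw [h10, GT.alt_three, GT.alt_three, hA]
    · exact absurd rfl hij)
  have l0 : l (σ M 0) = As := hl 0
  have l1 : l (σ M 1) = At := hl 1
  have hlin : ∀ x, D.lin x = l (r x) := by
    intro x
    refine D.mem_of (MonoidHom.eqLocus D.lin (l.comp r)) ?_ ?_ ?_ x
    · show D.lin D.a = l (r D.a)
      rw [D.lin_spec.1, ra, l0]
    · show D.lin D.b = l (r D.b)
      rw [D.lin_spec.2.1, rb, l1]
    · show D.lin D.c = l (r D.c)
      rw [D.lin_spec.2.2, rc, l0]
  obtain ⟨n, hn, h1⟩ := hPA (r g) (r h)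
  refine ⟨n, hn, ?_⟩
  rw [← _root_.map_pow r, ← _root_.map_pow r] at h1
  rcases h1 with h1 | h1
  · left
    rw [hlin, hlin, ← _root_.map_mul l, ← _root_.map_mul l, h1.eq]
  · right
    exact FreeTwo.of_map r h1

include D in
theorem exists_AD4 : Nonempty (AD G (ℤ × ℤ)) :=
  ⟨{ T := D.T
     L := D.L
     lin := D.lin
     hT := T_L D
     hL := L_lin D
     lin_surj := lin_surj4 D
     base := base_one D
     ρ := D.ρ
     π := D.π
     hρ := ρ_π D
     pt := pt4
     pt_inj := pt4_inj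
     s := 1
     pt_s := pt4_sum
     hπ := pt4_π D
     inn := inn4 D
     ker := ker4 D
     par := par4 D
     dich := dich4 D }⟩

include D in
theorem PA_B4 : PA G := by
  obtain ⟨E⟩ := exists_AD4 D
  exact AD_PA E

theorem B4_of {B : Type} (M : CoxeterMatrix B) {a b c : B} (hu : ∀ i, i = a ∨ i = b ∨ i = c)
    (hab : M.M a b = 3) (hac : M.M a c = 2) (hbc : M.M b c = 3) : Nonempty (B4 (Art M)) := by
  have nab : a ≠ b := by
    rintro rfl
    rw [M.diagonal] at hab
    exact absurd hab (by decide)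
  have nac : a ≠ c := by
    rintro rfl
    rw [M.diagonal] at hac
    exact absurd hac (by decide)
  have nbc : b ≠ c := by
    rintro rfl
    rw [M.diagonal] at hbc
    exact absurd hbc (by decide)
  exact ⟨{ a := σ M a
           b := σ M b
           c := σ M c
           hab := GT.rel_three M nab hab
           hac := GT.rel_two M nac hac
           hbc := GT.rel_three M nbc hbc
           gen := GT.closure3 M hu
           lift := fun x y z h1 h2 h3 => GT.lift3 M nab nac nbc hu x y z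
             (fun _ => by rw [hab, GT.alt_three, GT.alt_three, h1])
             (fun _ => by rw [hac, alt_two, alt_two, h2])
             (fun _ => by rw [hbc, GT.alt_three, GT.alt_three, h3]) }⟩

theorem PA_braid4 : PA (Art (CoxeterMatrix.A 3)) := by
  obtain ⟨E⟩ := B4_of (CoxeterMatrix.A 3) (a := 0) (b := 1) (c := 2) (by decide) rfl rfl rfl
  exact PA_B4 E

end Pool.Agent.Lib.MP_9dbb0e_al.DF
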