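import Pool.Agent.Lib.MP_9dbb0e_al.D.BDefs
import Pool.Agent.Lib.MP_9dbb0e_al.D.BKer

/-!
# JOB BU: the reflections of the free group of rank two

`u0 : x ↦ x⁻¹, y ↦ x y⁻¹ x⁻¹`, `u1 : x ↦ x⁻¹, y ↦ y⁻¹`, `u2 : x ↦ y⁻¹ x⁻¹ y, y ↦ y⁻¹`; `tt = αa ^ 2 : x ↦ x, y ↦ x x y`.

PROOFS. All identities: `aut2_ext` and computation on the letters. `q_hom`: let `W` be the subgroup of the `g` such that there are `s = 1` or `-1` and `k` with `ab (g w) = (s * ((ab w).1 + k * (ab w).2), s * (ab w).2)` for all `w`; `g ↦ k` is a homomorphism `W →* Multiplicative ℤ` (`k` is unique: take `w = of 1`; composition adds the `k`).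
 The elements `u0, u1, u2` are in `W` with `k = 0`, `tt` with `k = 2`.
-/

set_option autoImplicit false
set_option linter.unusedSimpArgs false

namespace Pool.Agent.Lib.MP_9dbb0e_al.DF

open FreeGroup

private theorem BU_l0 (a b : F2) : FreeGroup.lift ![a, b] (of 0) = a := by
  rw [FreeGroup.lift_apply_of]
  rfl

private theorem BU_l1 (a b : F2) : FreeGroup.lift ![a, b] (of 1) = b := by
  rw [FreeGroup.lift_apply_of]
  rfl

private theorem BU_li {a b c d : F2} (h0 : FreeGroup.lift ![a, b] c = of 0) (h1 : FreeGroup.lift ![a, b] d = of 1) :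
    Function.LeftInverse (FreeGroup.lift ![a, b]) (FreeGroup.lift ![c, d]) := by
  have h : (FreeGroup.lift ![a, b]).comp (FreeGroup.lift ![c, d]) = MonoidHom.id F2 := by
    refine FreeGroup.ext_hom _ _ fun i => ?_
    fin_cases i
    · show FreeGroup.lift ![a, b] (FreeGroup.lift ![c, d] (of 0)) = of 0
      rw [BU_l0, h0]
    · show FreeGroup.lift ![a, b] (FreeGroup.lift ![c, d] (of 1)) = of 1
      rw [BU_l1, h1]
  exact fun w => DFunLike.congr_fun h w

private theorem BU_i0 : Function.LeftInverse (FreeGroup.lift ![(of 0 : F2)⁻¹, of 0 * (of 1)⁻¹ * (of 0)⁻¹])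
    (FreeGroup.lift ![(of 0 : F2)⁻¹, of 0 * (of 1)⁻¹ * (of 0)⁻¹]) := by
  refine BU_li ?_ ?_
  · simp only [_root_.map_inv, _root_.map_mul, BU_l0, BU_l1]
    group
  · simp only [_root_.map_inv, _root_.map_mul, BU_l0, BU_l1]
    group

private theorem BU_i1 : Function.LeftInverse (FreeGroup.lift ![(of 0 : F2)⁻¹, (of 1)⁻¹])
    (FreeGroup.lift ![(of 0 : F2)⁻¹, (of 1)⁻¹]) := by
  refine BU_li ?_ ?_
  · simp only [_root_.map_inv, BU_l0, BU_l1]
    group
  · simp only [_root_.map_inv, BU_l0, BU_l1]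
    group

private theorem BU_i2 : Function.LeftInverse (FreeGroup.lift ![(of 1 : F2)⁻¹ * (of 0)⁻¹ * of 1, (of 1)⁻¹])
    (FreeGroup.lift ![(of 1 : F2)⁻¹ * (of 0)⁻¹ * of 1, (of 1)⁻¹]) := by
  refine BU_li ?_ ?_
  · simp only [_root_.map_inv, _root_.map_mul, BU_l0, BU_l1]
    group
  · simp only [_root_.map_inv, _root_.map_mul, BU_l0, BU_l1]
    group

def u0 : MulAut F2 where
  toFun := FreeGroup.lift ![(of 0)⁻¹, of 0 * (of 1)⁻¹ * (of 0)⁻¹]
  invFun := FreeGroup.lift ![(of 0)⁻¹, of 0 * (of 1)⁻¹ * (of 0)⁻¹]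
  left_inv := BU_i0
  right_inv := BU_i0
  map_mul' := fun x y => _root_.map_mul _ x y

def u1 : MulAut F2 where
  toFun := FreeGroup.lift ![(of 0)⁻¹, (of 1)⁻¹]
  invFun := FreeGroup.lift ![(of 0)⁻¹, (of 1)⁻¹]
  left_inv := BU_i1
  right_inv := BU_i1
  map_mul' := fun x y => _root_.map_mul _ x y

def u2 : MulAut F2 where
  toFun := FreeGroup.lift ![(of 1)⁻¹ * (of 0)⁻¹ * of 1, (of 1)⁻¹]
  invFun := FreeGroup.lift ![(of 1)⁻¹ * (of 0)⁻¹ * of 1, (of 1)⁻¹]
  left_inv := BU_i2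
  right_inv := BU_i2
  map_mul' := fun x y => _root_.map_mul _ x y

/-- the square of `αa` -/
def tt : MulAut F2 := αa ^ 2

private theorem BU_u0x : u0 (of 0) = (of 0)⁻¹ := by
  show FreeGroup.lift ![(of 0 : F2)⁻¹, of 0 * (of 1)⁻¹ * (of 0)⁻¹] (of 0) = _
  exact BU_l0 _ _

private theorem BU_u0y : u0 (of 1) = of 0 * (of 1)⁻¹ * (of 0)⁻¹ := by
  show FreeGroup.lift ![(of 0 : F2)⁻¹, of 0 * (of 1)⁻¹ * (of 0)⁻¹] (of 1) = _
  exact BU_l1 _ _

private theorem BU_u1x : u1 (of 0) = (of 0)⁻¹ := by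
  show FreeGroup.lift ![(of 0 : F2)⁻¹, (of 1)⁻¹] (of 0) = _
  exact BU_l0 _ _

private theorem BU_u1y : u1 (of 1) = (of 1)⁻¹ := by
  show FreeGroup.lift ![(of 0 : F2)⁻¹, (of 1)⁻¹] (of 1) = _
  exact BU_l1 _ _

private theorem BU_u2x : u2 (of 0) = (of 1)⁻¹ * (of 0)⁻¹ * of 1 := by
  show FreeGroup.lift ![(of 1 : F2)⁻¹ * (of 0)⁻¹ * of 1, (of 1)⁻¹] (of 0) = _
  exact BU_l0 _ _

private theorem BU_u2y : u2 (of 1) = (of 1)⁻¹ := by
  show FreeGroup.lift ![(of 1 : F2)⁻¹ * (of 0)⁻¹ * of 1, (of 1)⁻¹] (of 1) = _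
  exact BU_l1 _ _

private theorem BU_tx : tt (of 0) = of 0 := by
  unfold tt
  rw [pow_two, MulAut.mul_apply, αa_x, αa_x]

private theorem BU_ty : tt (of 1) = of 0 * of 0 * of 1 := by
  unfold tt
  rw [pow_two, MulAut.mul_apply, αa_y, _root_.map_mul, αa_x, αa_y, mul_assoc]

theorem u0_sq : u0 * u0 = 1 := by
  refine aut2_ext ?_ ?_
  · simp only [MulAut.mul_apply, MulAut.one_apply, _root_.map_inv, _root_.map_mul, BU_u0x, BU_u0y]
    group
  · simp only [MulAut.mul_apply, MulAut.one_apply, _root_.map_inv, _root_.map_mul, BU_u0x, BU_u0y]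
    group

theorem u1_sq : u1 * u1 = 1 := by
  refine aut2_ext ?_ ?_
  · simp only [MulAut.mul_apply, MulAut.one_apply, _root_.map_inv, _root_.map_mul, BU_u1x, BU_u1y]
    group
  · simp only [MulAut.mul_apply, MulAut.one_apply, _root_.map_inv, _root_.map_mul, BU_u1x, BU_u1y]
    group

theorem u2_sq : u2 * u2 = 1 := by
  refine aut2_ext ?_ ?_
  · simp only [MulAut.mul_apply, MulAut.one_apply, _root_.map_inv, _root_.map_mul, BU_u2x, BU_u2y]
    group
  · simp only [MulAut.mul_apply, MulAut.one_apply, _root_.map_inv, _root_.map_mul, BU_u2x, BU_u2y]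
    group

theorem u0_u1 : u0 * u1 = MulAut.conj (of 0) := by
  refine aut2_ext ?_ ?_
  · simp only [MulAut.mul_apply, MulAut.conj_apply, _root_.map_inv, _root_.map_mul, BU_u0x, BU_u0y, BU_u1x, BU_u1y]
    group
  · simp only [MulAut.mul_apply, MulAut.conj_apply, _root_.map_inv, _root_.map_mul, BU_u0x, BU_u0y, BU_u1x, BU_u1y]
    group

theorem u1_u2 : u1 * u2 = MulAut.conj (of 1) := by
  refine aut2_ext ?_ ?_
  · simp only [MulAut.mul_apply, MulAut.conj_apply, _root_.map_inv, _root_.map_mul, BU_u1x, BU_u1y, BU_u2x, BU_u2y]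
    group
  · simp only [MulAut.mul_apply, MulAut.conj_apply, _root_.map_inv, _root_.map_mul, BU_u1x, BU_u1y, BU_u2x, BU_u2y]
    group

theorem tt_u2 : tt * u2 = u2 * tt := by
  refine aut2_ext ?_ ?_
  · simp only [MulAut.mul_apply, _root_.map_inv, _root_.map_mul, BU_tx, BU_ty, BU_u2x, BU_u2y]
    group
  · simp only [MulAut.mul_apply, _root_.map_inv, _root_.map_mul, BU_tx, BU_ty, BU_u2x, BU_u2y]
    group

theorem tt_u1 : tt * u1 = MulAut.conj (of 0) ^ 2 * u1 * tt := by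
  refine aut2_ext ?_ ?_
  · simp only [pow_two, MulAut.mul_apply, MulAut.conj_apply, _root_.map_inv, _root_.map_mul, BU_tx, BU_ty, BU_u1x, BU_u1y]
    group
  · simp only [pow_two, MulAut.mul_apply, MulAut.conj_apply, _root_.map_inv, _root_.map_mul, BU_tx, BU_ty, BU_u1x, BU_u1y]
    group

theorem tt_u0 : tt * u0 = MulAut.conj (of 0) ^ 2 * u0 * tt := by
  refine aut2_ext ?_ ?_
  · simp only [pow_two, MulAut.mul_apply, MulAut.conj_apply, _root_.map_inv, _root_.map_mul, BU_tx, BU_ty, BU_u0x, BU_u0y]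
    group
  · simp only [pow_two, MulAut.mul_apply, MulAut.conj_apply, _root_.map_inv, _root_.map_mul, BU_tx, BU_ty, BU_u0x, BU_u0y]
    group

theorem tt_x : tt (of 0) = of 0 := BU_tx

theorem tt_y : tt (of 1) = of 0 * of 0 * of 1 := BU_ty

/-- `g` acts on the exponents by `s` and the shear `k` -/
private def BU_P (g : MulAut F2) (s k : ℤ) : Prop :=
  ∀ w, ab (g w) = (s * ((ab w).1 + k * (ab w).2), s * (ab w).2)

private theorem BU_ab1 : ab 1 = 0 := by
  have h := ab_mul 1 1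
  rw [one_mul] at h
  exact add_eq_left.1 h.symm

private theorem BU_abx : ab (of 0) = (1, 0) := by
  unfold ab wd
  rw [FreeGroup.lift_apply_of, FreeGroup.lift_apply_of]
  rfl

private theorem BU_aby : ab (of 1) = (0, 1) := by
  unfold ab wd
  rw [FreeGroup.lift_apply_of, FreeGroup.lift_apply_of]
  rfl

private theorem BU_of (g : MulAut F2) (s k : ℤ) (h0 : ab (g (of 0)) = (s, 0)) (h1 : ab (g (of 1)) = (s * k, s)) :
    BU_P g s k := by
  have hof : ∀ i : Fin 2, ab (g (of i)) = (s * ((ab (of i)).1 + k * (ab (of i)).2), s * (ab (of i)).2) := by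
    intro i
    fin_cases i
    · show ab (g (of 0)) = (s * ((ab (of 0)).1 + k * (ab (of 0)).2), s * (ab (of 0)).2)
      rw [h0, BU_abx]
      simp
    · show ab (g (of 1)) = (s * ((ab (of 1)).1 + k * (ab (of 1)).2), s * (ab (of 1)).2)
      rw [h1, BU_aby]
      simp
  intro w
  induction w using FreeGroup.induction_on with
  | C1 =>
    rw [_root_.map_one, BU_ab1]
    ext
    · simp
    · simp
  | of i => exact hof i
  | inv_of i _ =>
    rw [_root_.map_inv, ab_inv, ab_inv, hof i]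
    ext
    · simp; ring
    · simp
  | mul v w hv hw =>
    rw [_root_.map_mul, ab_mul, ab_mul, hv, hw]
    ext
    · simp; ring
    · simp; ring

private theorem BU_Pmul {g g' : MulAut F2} {s k s' k' : ℤ} (h : BU_P g s k) (h' : BU_P g' s' k') :
    BU_P (g * g') (s * s') (k + k') := by
  intro w
  rw [MulAut.mul_apply, h, h']
  ext
  · simp; ring
  · simp; ring

private theorem BU_Pone : BU_P 1 1 0 := by
  intro w
  rw [MulAut.one_apply]
  ext
  · simp
  · simp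

private theorem BU_Pinv {g : MulAut F2} {s k : ℤ} (hs : s * s = 1) (h : BU_P g s k) : BU_P g⁻¹ s (-k) := by
  intro w
  have h1 := h (g⁻¹ w)
  rw [MulAut.apply_inv_self] at h1
  rw [h1]
  ext
  · simp
    linear_combination (-(ab (g⁻¹ w)).1) * hs
  · simp
    linear_combination (-(ab (g⁻¹ w)).2) * hs

private theorem BU_Puniq {g : MulAut F2} {s k s' k' : ℤ} (hs : s * s = 1) (_hs' : s' * s' = 1)
    (h : BU_P g s k) (h' : BU_P g s' k') : k = k' := by
  have h1 := (h (of 1)).symm.trans (h' (of 1))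
  rw [BU_aby] at h1
  have h2 := congrArg Prod.fst h1
  have h3 := congrArg Prod.snd h1
  simp at h2 h3
  rw [← h3] at h2
  have hs0 : s ≠ 0 := by
    intro hh
    rw [hh] at hs
    norm_num at hs
  exact mul_left_cancel₀ hs0 h2

private def BU_W : Subgroup (MulAut F2) where
  carrier := {g | ∃ s k : ℤ, s * s = 1 ∧ BU_P g s k}
  mul_mem' := by
    rintro g g' ⟨s, k, hs, h⟩ ⟨s', k', hs', h'⟩
    exact ⟨s * s', k + k', by linear_combination hs' + s' * s' * hs, BU_Pmul h h'⟩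
  one_mem' := ⟨1, 0, by norm_num, BU_Pone⟩
  inv_mem' := by
    rintro g ⟨s, k, hs, h⟩
    exact ⟨s, -k, hs, BU_Pinv hs h⟩

private noncomputable def BU_k (g : BU_W) : ℤ := g.2.choose_spec.choose

private theorem BU_k_spec (g : BU_W) : ∃ s : ℤ, s * s = 1 ∧ BU_P g.1 s (BU_k g) :=
  ⟨g.2.choose, g.2.choose_spec.choose_spec.1, g.2.choose_spec.choose_spec.2⟩

private theorem BU_k_eq (g : BU_W) {s k : ℤ} (hs : s * s = 1) (h : BU_P g.1 s k) : BU_k g = k := by
  obtain ⟨s', hs', h'⟩ := BU_k_spec g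
  exact BU_Puniq hs' hs h' h

private noncomputable def BU_q : BU_W →* Multiplicative ℤ where
  toFun g := Multiplicative.ofAdd (BU_k g)
  map_one' := by
    rw [BU_k_eq 1 (s := 1) (k := 0) (by norm_num) BU_Pone]
    rfl
  map_mul' := by
    intro g g'
    obtain ⟨s, hs, h⟩ := BU_k_spec g
    obtain ⟨s', hs', h'⟩ := BU_k_spec g'
    rw [← ofAdd_add]
    congr 1
    exact BU_k_eq (g * g') (s := s * s') (by linear_combination hs' + s' * s' * hs) (BU_Pmul h h')

private theorem BU_tP : BU_P tt 1 2 := by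
  refine BU_of tt 1 2 ?_ ?_
  · rw [BU_tx, BU_abx]
  · rw [BU_ty, ab_mul, ab_mul, BU_abx, BU_aby]
    rfl

private theorem BU_tW : tt ∈ BU_W := ⟨1, 2, by norm_num, BU_tP⟩

private theorem BU_qt : BU_q ⟨tt, BU_tW⟩ = Multiplicative.ofAdd 2 := by
  show Multiplicative.ofAdd (BU_k ⟨tt, BU_tW⟩) = Multiplicative.ofAdd 2
  rw [BU_k_eq ⟨tt, BU_tW⟩ (s := 1) (k := 2) (by norm_num) BU_tP]

private theorem BU_u0W : u0 ∈ BU_W := by
  refine ⟨-1, 0, by norm_num, BU_of u0 (-1) 0 ?_ ?_⟩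
  · rw [BU_u0x, ab_inv, BU_abx]
    rfl
  · rw [BU_u0y, ab_mul, ab_mul, ab_inv, ab_inv, BU_abx, BU_aby]
    rfl

private theorem BU_u1W : u1 ∈ BU_W := by
  refine ⟨-1, 0, by norm_num, BU_of u1 (-1) 0 ?_ ?_⟩
  · rw [BU_u1x, ab_inv, BU_abx]
    rfl
  · rw [BU_u1y, ab_inv, BU_aby]
    rfl

private theorem BU_u2W : u2 ∈ BU_W := by
  refine ⟨-1, 0, by norm_num, BU_of u2 (-1) 0 ?_ ?_⟩
  · rw [BU_u2x, ab_mul, ab_mul, ab_inv, ab_inv, BU_abx, BU_aby]
    rfl
  · rw [BU_u2y, ab_inv, BU_aby]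
    rfl

theorem tt_zpow (k : ℤ) (h : tt ^ k = 1) : k = 0 := by
  have h1 : (⟨tt, BU_tW⟩ : BU_W) ^ k = 1 := Subtype.ext (by
    rw [Subgroup.coe_zpow, h]
    rfl)
  have h2 := congrArg BU_q h1
  rw [_root_.map_zpow, BU_qt, _root_.map_one, ← ofAdd_zsmul] at h2
  have h3 : k • (2 : ℤ) = 0 := Multiplicative.ofAdd.injective h2
  rw [smul_eq_mul] at h3
  omega

/-- the parabolic quotient -/
theorem q_hom : ∃ (W : Subgroup (MulAut F2)) (q : W →* Multiplicative ℤ), u0 ∈ W ∧ u1 ∈ W ∧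
    u2 ∈ W ∧ ∃ h : tt ∈ W, q ⟨tt, h⟩ = Multiplicative.ofAdd 2 :=
  ⟨BU_W, BU_q, BU_u0W, BU_u1W, BU_u2W, BU_tW, BU_qt⟩

end Pool.Agent.Lib.MP_9dbb0e_al.DF
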