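import Pool.Agent.Lib.MP_9dbb0e_al.G3
import Pool.Agent.Lib.MP_9dbb0e_al.D.BU
import Pool.Agent.Lib.MP_9dbb0e_al.D.MCt

/-!
# JOB BPo: the power alternative for the group of a parabolic automorphism

`E2 = F2 ⋊ ℤ`, the generator of `ℤ` acts as `tt`.

PROOF. `G₀ = closure {u0, u1, tt}`, `G₁ = closure {u2, tt}` (subgroups of `MulAut F2`), `H = Multiplicative ℤ`, `φ i : H →* G i`, `ofAdd k ↦ tt ^ k` (`zpowersHom`), injective by `tt_zpow`. `Π = Monoid.PushoutI φ` (index type `Bool` or `Fin 2`, `G i = ↥(Gs i)`, `Gs : Fin 2 → Subgroup (MulAut F2)`, `Gs = ![G₀, G₁]`).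
(1) `PA Π` by `pushout_PA` (G3.lean): `Φ : Π →* Multiplicative ℤ` induced (`PushoutI.lift`) by `q : W →* Multiplicative ℤ` of `q_hom` restricted to `G i ≤ W`; `Φ ∘ base : ofAdd k ↦ ofAdd (2 k)` is injective. `PA (Multiplicative ℤ)`: `PA_comm`. `PA G₁`: commutative (`Subgroup.closure` of commuting elements: `tt_u2`): `PA_comm`.
 `PA G₀`: squares commute (`n = 2`): with `c = conj (of 0) = u0 * u1` and `A = closure {c, tt}` (commutative: `tt * conj (of 0) * tt⁻¹ = conj (tt (of 0)) = c`), every `g ∈ G₀` is in `A` or `g * u1 ∈ A`: closed under left multiplication by `u1` (`u1 c u1⁻¹ = c⁻¹`, `u1 tt u1⁻¹ = c ^ (-2) * tt` by `tt_u1`: so `u1` normalises `A`), `u0 = c * u1⁻¹ = c * u1`, `tt`;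
   `Subgroup.closure_induction_left`. So `g ^ 2 ∈ A`: if `g = a * u1` then `g ^ 2 = a * (u1 * a * u1⁻¹) * u1 ^ 2 = a * (u1 a u1⁻¹) ∈ A`.
(2) `Θ : E2 →* Π`, `SemidirectProduct.lift f₁ f₂`, `f₁ : F2 →* Π`, `of 0 ↦ of₀ u0 * of₀ u1`, `of 1 ↦ of₀ u1 * of₁ u2`, `f₂ = base`. Compatibility (`f₁ (φ k w) = f₂ k * f₁ w * (f₂ k)⁻¹`): enough for the generator `k = ofAdd 1` (then for all integral powers, or use `zpowersHom` and `Int.induction_on`) and the letters `w`: `base (ofAdd 1) = of₀ tt = of₁ tt`: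
  `f₁ (tt x) = f₁ x = of₀ c` and `of₀ tt * of₀ c * (of₀ tt)⁻¹ = of₀ c`. `f₁ (tt y) = f₁ (x x y) = of₀ (c * c * u1) * of₁ u2`; the right side: `of₀ (tt u1 tt⁻¹) * of₁ (tt u2 tt⁻¹) = of₀ (c ^ 2 * u1) * of₁ u2` (`tt_u1`, `tt_u2`).
(3) `Ψ : Π →* MulAut F2` induced by the inclusions of the `G i` (`PushoutI.lift` with `base ↦ zpowersHom tt`). `Ψ ∘ Θ = j2`, `j2 (f, k) = conj f * tt ^ k` (hom ext: `u0 * u1 = conj x`, `u1 * u2 = conj y`). `j2` is injective (`j2_inj`): `conj f * tt ^ k = 1`: apply to `of 1` and take `ab`: `(2 k, 1) = (0, 1)`, `k = 0`; `conj f = 1`, `f = 1` (`conj_inj`). So `Θ` is injective.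
`PA_of_injective Θ`.
-/

set_option autoImplicit false

namespace Pool.Agent.Lib.MP_9dbb0e_al.DF

open FreeGroup

/-- the action of the integers on the free group -/
def ttH : Multiplicative ℤ →* MulAut F2 := zpowersHom (MulAut F2) tt

/-- the parabolic group -/
abbrev E2 : Type := F2 ⋊[ttH] Multiplicative ℤ

/-- the parabolic group acts on the free group -/
def j2 : E2 →* MulAut F2 := SemidirectProduct.lift MulAut.conj ttH (by
  intro k
  refine MonoidHom.ext fun w => ?_
  refine MulEquiv.ext fun v => ?_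
  simp [MulAut.conj_apply])

theorem j2_apply (f : F2) (k : Multiplicative ℤ) : j2 ⟨f, k⟩ = MulAut.conj f * ttH k := rfl

private theorem BPo_ttH (k : Multiplicative ℤ) : ttH k = tt ^ (Multiplicative.toAdd k) := zpowersHom_apply _ _ _

private theorem BPo_abtt (w : F2) : ab (tt w) = ((ab w).1 + 2 * (ab w).2, (ab w).2) := by
  have h : tt w = αa (αa w) := by
    show (αa ^ 2) w = αa (αa w)
    rw [pow_two]
    rfl
  rw [h, ab_αa, ab_αa]
  refine Prod.ext ?_ rfl
  show (ab w).1 + (ab w).2 + (ab w).2 = (ab w).1 + 2 * (ab w).2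
  ring

private theorem BPo_abz (k : ℤ) : ∀ w : F2, ab ((tt ^ k) w) = ((ab w).1 + 2 * k * (ab w).2, (ab w).2) := by
  induction k using Int.induction_on with
  | zero =>
    intro w
    rw [zpow_zero]
    refine Prod.ext ?_ rfl
    show (ab w).1 = (ab w).1 + 2 * 0 * (ab w).2
    ring
  | succ i ih =>
    intro w
    have h : (tt ^ ((i : ℤ) + 1)) w = (tt ^ (i : ℤ)) (tt w) := by
      rw [zpow_add_one]
      rfl
    rw [h, ih, BPo_abtt]
    refine Prod.ext ?_ rfl
    show (ab w).1 + 2 * (ab w).2 + 2 * (i : ℤ) * (ab w).2 = (ab w).1 + 2 * ((i : ℤ) + 1) * (ab w).2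
    ring
  | pred i ih =>
    intro w
    have h : (tt ^ (-(i : ℤ) - 1)) (tt w) = (tt ^ (-(i : ℤ))) w := by
      have h1 : tt ^ (-(i : ℤ) - 1) * tt = tt ^ (-(i : ℤ)) := by
        rw [zpow_sub_one, inv_mul_cancel_right]
      rw [← h1]
      rfl
    have h2 : ∀ v : F2, (tt ^ (-(i : ℤ) - 1)) v = (tt ^ (-(i : ℤ))) (tt⁻¹ v) := by
      intro v
      rw [zpow_sub_one]
      rfl
    have h3 : ab (tt⁻¹ w) = ((ab w).1 - 2 * (ab w).2, (ab w).2) := by
      have h4 := BPo_abtt (tt⁻¹ w)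
      have h5 : tt (tt⁻¹ w) = w := MulAut.apply_inv_self _ _ _
      rw [h5] at h4
      have h6 := congrArg Prod.fst h4
      have h7 := congrArg Prod.snd h4
      simp only at h6 h7
      refine Prod.ext ?_ h7.symm
      show (ab (tt⁻¹ w)).1 = (ab w).1 - 2 * (ab w).2
      rw [h6, h7]
      ring
    rw [h2, ih, h3]
    refine Prod.ext ?_ rfl
    show (ab w).1 - 2 * (ab w).2 + 2 * -(i : ℤ) * (ab w).2 = (ab w).1 + 2 * (-(i : ℤ) - 1) * (ab w).2
    ring

private theorem BPo_ker (f : F2) (k : Multiplicative ℤ) (h : MulAut.conj f * ttH k = 1) : f = 1 ∧ k = 1 := by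
  rw [BPo_ttH] at h
  have h1 := congrArg (fun g : MulAut F2 => ab (g (of 1))) h
  have h2 : ab ((MulAut.conj f * tt ^ (Multiplicative.toAdd k)) (of 1)) =
      ab ((tt ^ (Multiplicative.toAdd k)) (of 1)) := by
    show ab (f * (tt ^ (Multiplicative.toAdd k)) (of 1) * f⁻¹) = _
    rw [ab_mul, ab_mul, ab_inv]
    abel
  have h3 : ab ((tt ^ (Multiplicative.toAdd k)) (of 1)) = ab (of 1) := h2.symm.trans h1
  rw [BPo_abz] at h3
  have h4 := congrArg Prod.fst h3
  have h5 : (ab (of 1)).2 = 1 := by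
    show Multiplicative.toAdd (wd (1 : Fin 2) (of 1)) = 1
    have h6 : wd (1 : Fin 2) (of 1) = Multiplicative.ofAdd 1 := by
      unfold wd
      rw [FreeGroup.lift_apply_of, if_pos rfl]
    rw [h6]
    rfl
  simp only at h4
  rw [h5] at h4
  have h6 : Multiplicative.toAdd k = 0 := by linarith
  rw [h6, zpow_zero, mul_one] at h
  refine ⟨conj_inj (a := (0 : Fin 2)) (b := 1) (by decide) (h.trans (_root_.map_one _).symm), ?_⟩
  exact Multiplicative.toAdd.injective h6

theorem j2_inj : Function.Injective j2 := by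
  rw [injective_iff_map_eq_one]
  rintro ⟨f, k⟩ h
  rw [j2_apply] at h
  obtain ⟨h1, h2⟩ := BPo_ker f k h
  rw [h1, h2]
  rfl

/-! the amalgam -/

private theorem BPo_comm {G : Type*} [Group G] {s : Set G} (h : ∀ x ∈ s, ∀ y ∈ s, Commute x y) {a b : G}
    (ha : a ∈ Subgroup.closure s) (hb : b ∈ Subgroup.closure s) : Commute a b := by
  have h1 : ∀ x ∈ s, Commute a x := by
    intro x hx
    refine Subgroup.closure_induction (p := fun a _ => Commute a x) ?_ ?_ ?_ ?_ ha
    · intro y hy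
      exact h y hy x hx
    · exact Commute.one_left _
    · intro a b _ _ ha hb
      exact ha.mul_left hb
    · intro a _ ha
      exact ha.inv_left
  refine Subgroup.closure_induction (p := fun b _ => Commute a b) ?_ ?_ ?_ ?_ hb
  · exact h1
  · exact Commute.one_right _
  · intro b c _ _ hb hc
    exact hb.mul_right hc
  · intro b _ hb
    exact hb.inv_right

/-- the two factors -/
private def BPo_S : Bool → Set (MulAut F2)
  | true => {u0, u1, tt}
  | false => {u2, tt}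

/-- the two factors -/
private def BPo_Gs (b : Bool) : Subgroup (MulAut F2) := Subgroup.closure (BPo_S b)

private theorem BPo_tt (b : Bool) : tt ∈ BPo_Gs b := by
  refine Subgroup.subset_closure ?_
  cases b
  · exact Or.inr rfl
  · exact Or.inr (Or.inr rfl)

/-- the maps of the amalgam -/
private def BPo_phi (b : Bool) : Multiplicative ℤ →* BPo_Gs b := zpowersHom _ ⟨tt, BPo_tt b⟩

private theorem BPo_phi_coe (b : Bool) (k : Multiplicative ℤ) :
    ((BPo_phi b k : BPo_Gs b) : MulAut F2) = tt ^ (Multiplicative.toAdd k) := by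
  unfold BPo_phi
  rw [zpowersHom_apply]
  rfl

private theorem BPo_phi_inj (b : Bool) : Function.Injective (BPo_phi b) := by
  rw [injective_iff_map_eq_one]
  intro k h
  have h1 := congrArg (Subtype.val : BPo_Gs b → MulAut F2) h
  rw [BPo_phi_coe] at h1
  exact Multiplicative.toAdd.injective (tt_zpow _ h1)

private theorem BPo_PA0 : PA (BPo_Gs false) := by
  refine PA_comm fun a b => ?_
  have h : Commute (a : MulAut F2) b := by
    refine BPo_comm ?_ a.2 b.2
    rintro x (rfl | rfl) y (rfl | rfl)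
    · exact Commute.refl _
    · exact tt_u2.symm
    · exact tt_u2
    · exact Commute.refl _
  exact Subtype.ext h

/-- the commutative subgroup of the first factor -/
private def BPo_A : Subgroup (MulAut F2) := Subgroup.closure {MulAut.conj (of 0), tt}

private theorem BPo_cA : MulAut.conj (of 0) ∈ BPo_A := Subgroup.subset_closure (Or.inl rfl)

private theorem BPo_tA : tt ∈ BPo_A := Subgroup.subset_closure (Or.inr rfl)

private theorem BPo_ct : tt * MulAut.conj (of 0) = MulAut.conj (of 0) * tt := by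
  refine MulEquiv.ext fun w => ?_
  show tt (of 0 * w * (of 0)⁻¹) = of 0 * tt w * (of 0)⁻¹
  rw [_root_.map_mul, _root_.map_mul, _root_.map_inv, tt_x]

private theorem BPo_Acomm {a b : MulAut F2} (ha : a ∈ BPo_A) (hb : b ∈ BPo_A) : Commute a b := by
  refine BPo_comm ?_ ha hb
  rintro x (rfl | rfl) y (rfl | rfl)
  · exact Commute.refl _
  · exact BPo_ct.symm
  · exact BPo_ct
  · exact Commute.refl _

private theorem BPo_u1inv : u1⁻¹ = u1 := inv_eq_of_mul_eq_one_left u1_sq

private theorem BPo_u0inv : u0⁻¹ = u0 := inv_eq_of_mul_eq_one_left u0_sq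

private theorem BPo_norm {a : MulAut F2} (ha : a ∈ BPo_A) : u1 * a * u1 ∈ BPo_A := by
  refine Subgroup.closure_induction (p := fun a _ => u1 * a * u1 ∈ BPo_A) ?_ ?_ ?_ ?_ ha
  · rintro x (rfl | rfl)
    · have h : u1 * MulAut.conj (of 0) * u1 = (MulAut.conj (of 0))⁻¹ := by
        rw [← u0_u1, mul_inv_rev, BPo_u1inv, BPo_u0inv, mul_assoc, mul_assoc, u1_sq, mul_one]
      rw [h]
      exact BPo_A.inv_mem BPo_cA
    · have h : u1 * tt * u1 = (MulAut.conj (of 0) ^ 2)⁻¹ * tt := by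
        have h1 : u1 * tt = (MulAut.conj (of 0) ^ 2)⁻¹ * (tt * u1) := by
          rw [tt_u1]
          group
        rw [h1, mul_assoc, mul_assoc, u1_sq, mul_one]
      rw [h]
      exact BPo_A.mul_mem (BPo_A.inv_mem (BPo_A.pow_mem BPo_cA 2)) BPo_tA
  · rw [mul_one, u1_sq]
    exact BPo_A.one_mem
  · intro a b _ _ ha hb
    have h : u1 * (a * b) * u1 = (u1 * a * u1) * (u1 * b * u1) := by
      have h1 : (u1 * a * u1) * (u1 * b * u1) = u1 * a * (u1 * u1) * b * u1 := by group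
      rw [h1, u1_sq]
      group
    rw [h]
    exact BPo_A.mul_mem ha hb
  · intro a _ ha
    have h : u1 * a⁻¹ * u1 = (u1 * a * u1)⁻¹ := by
      rw [mul_inv_rev, mul_inv_rev, BPo_u1inv, mul_assoc]
    rw [h]
    exact BPo_A.inv_mem ha

private theorem BPo_mem {g : MulAut F2} (hg : g ∈ BPo_Gs true) : g ∈ BPo_A ∨ g * u1 ∈ BPo_A := by
  refine Subgroup.closure_induction (p := fun g _ => g ∈ BPo_A ∨ g * u1 ∈ BPo_A) ?_ ?_ ?_ ?_ hg
  · rintro x (rfl | rfl | rfl)
    · right
      rw [u0_u1]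
      exact BPo_cA
    · right
      rw [u1_sq]
      exact BPo_A.one_mem
    · exact Or.inl BPo_tA
  · exact Or.inl BPo_A.one_mem
  · rintro a b _ _ (ha | ha) (hb | hb)
    · exact Or.inl (BPo_A.mul_mem ha hb)
    · right
      rw [mul_assoc]
      exact BPo_A.mul_mem ha hb
    · right
      have h : a * b * u1 = (a * u1) * (u1 * b * u1) := by
        have h1 : (a * u1) * (u1 * b * u1) = a * (u1 * u1) * b * u1 := by group
        rw [h1, u1_sq, mul_one]
      rw [h]
      exact BPo_A.mul_mem ha (BPo_norm hb)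
    · left
      have h : a * b = (a * u1) * (u1 * (b * u1) * u1) := by
        have h1 : (a * u1) * (u1 * (b * u1) * u1) = a * (u1 * u1) * b * (u1 * u1) := by group
        rw [h1, u1_sq, mul_one, mul_one]
      rw [h]
      exact BPo_A.mul_mem ha (BPo_norm hb)
  · rintro a _ (ha | ha)
    · exact Or.inl (BPo_A.inv_mem ha)
    · right
      have h : a⁻¹ * u1 = u1 * (a * u1)⁻¹ * u1 := by
        rw [mul_inv_rev, BPo_u1inv]
        have h1 : u1 * (u1 * a⁻¹) * u1 = (u1 * u1) * a⁻¹ * u1 := by group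
        rw [h1, u1_sq, one_mul]
      rw [h]
      exact BPo_norm (BPo_A.inv_mem ha)

private theorem BPo_sq {g : MulAut F2} (hg : g ∈ BPo_Gs true) : g ^ 2 ∈ BPo_A := by
  rcases BPo_mem hg with h | h
  · exact BPo_A.pow_mem h 2
  · have e : g ^ 2 = (g * u1) * (u1 * (g * u1) * u1) := by
      have h1 : (g * u1) * (u1 * (g * u1) * u1) = g * (u1 * u1) * g * (u1 * u1) := by group
      rw [h1, u1_sq, mul_one, mul_one, pow_two]
    rw [e]
    exact BPo_A.mul_mem h (BPo_norm h)

private theorem BPo_PA1 : PA (BPo_Gs true) := by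
  intro a b
  refine ⟨2, two_pos, Or.inl ?_⟩
  have h : Commute ((a : MulAut F2) ^ 2) ((b : MulAut F2) ^ 2) := BPo_Acomm (BPo_sq a.2) (BPo_sq b.2)
  exact Subtype.ext h

private theorem BPo_PA : PA (Monoid.PushoutI BPo_phi) := by
  have hc : PA (Multiplicative ℤ) := PA_comm fun a b => Commute.all a b
  obtain ⟨W, q, h0, h1, h2, ht, hq⟩ := q_hom
  have hW : ∀ b : Bool, BPo_Gs b ≤ W := by
    intro b
    unfold BPo_Gs
    rw [Subgroup.closure_le]
    cases b
    · rintro x (rfl | rfl)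
      · exact h2
      · exact ht
    · rintro x (rfl | rfl | rfl)
      · exact h0
      · exact h1
      · exact ht
  have hcompat : ∀ b : Bool, (q.comp (Subgroup.inclusion (hW b))).comp (BPo_phi b) =
      zpowersHom _ (Multiplicative.ofAdd (2 : ℤ)) := by
    intro b
    refine MonoidHom.ext fun k => ?_
    have h3 : Subgroup.inclusion (hW b) (BPo_phi b k) = (⟨tt, ht⟩ : W) ^ (Multiplicative.toAdd k) := by
      refine Subtype.ext ?_
      show ((BPo_phi b k : BPo_Gs b) : MulAut F2) = tt ^ (Multiplicative.toAdd k)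
      exact BPo_phi_coe b k
    show q (Subgroup.inclusion (hW b) (BPo_phi b k)) = _
    rw [h3, _root_.map_zpow, hq, zpowersHom_apply]
  refine pushout_PA BPo_phi BPo_phi_inj (Monoid.PushoutI.lift _ _ hcompat) ?_ hc ?_ hc
  · intro x y h
    rw [MonoidHom.comp_apply, MonoidHom.comp_apply, Monoid.PushoutI.lift_base, Monoid.PushoutI.lift_base,
      zpowersHom_apply, zpowersHom_apply] at h
    have h3 := congrArg Multiplicative.toAdd h
    rw [toAdd_zpow, toAdd_zpow, toAdd_ofAdd, smul_eq_mul, smul_eq_mul] at h3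
    exact Multiplicative.toAdd.injective (by linarith)
  · intro b
    cases b
    · exact BPo_PA0
    · exact BPo_PA1

private theorem BPo_m0 : u0 ∈ BPo_Gs true := Subgroup.subset_closure (Or.inl rfl)

private theorem BPo_m1 : u1 ∈ BPo_Gs true := Subgroup.subset_closure (Or.inr (Or.inl rfl))

private theorem BPo_m2 : u2 ∈ BPo_Gs false := Subgroup.subset_closure (Or.inl rfl)

/-- the elements of the amalgam -/
private def BPo_X0 : Monoid.PushoutI BPo_phi := Monoid.PushoutI.of true ⟨u0, BPo_m0⟩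

private def BPo_X1 : Monoid.PushoutI BPo_phi := Monoid.PushoutI.of true ⟨u1, BPo_m1⟩

private def BPo_X2 : Monoid.PushoutI BPo_phi := Monoid.PushoutI.of false ⟨u2, BPo_m2⟩

private def BPo_T : Monoid.PushoutI BPo_phi := Monoid.PushoutI.base BPo_phi (Multiplicative.ofAdd 1)

private theorem BPo_Tb (b : Bool) : BPo_T = Monoid.PushoutI.of b ⟨tt, BPo_tt b⟩ := by
  unfold BPo_T
  rw [← Monoid.PushoutI.of_apply_eq_base BPo_phi b]
  have h : BPo_phi b (Multiplicative.ofAdd 1) = ⟨tt, BPo_tt b⟩ := by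
    refine Subtype.ext ?_
    rw [BPo_phi_coe, toAdd_ofAdd, zpow_one]
  rw [h]

private theorem BPo_r0 : BPo_T * (BPo_X0 * BPo_X1) = BPo_X0 * BPo_X1 * BPo_T := by
  unfold BPo_X0 BPo_X1
  rw [BPo_Tb true, ← _root_.map_mul, ← _root_.map_mul, ← _root_.map_mul]
  congr 1
  refine Subtype.ext ?_
  show tt * (u0 * u1) = u0 * u1 * tt
  rw [u0_u1, BPo_ct]

private theorem BPo_r1 : BPo_T * BPo_X1 = (BPo_X0 * BPo_X1) ^ 2 * BPo_X1 * BPo_T := by
  unfold BPo_X0 BPo_X1
  rw [BPo_Tb true, ← _root_.map_mul, ← _root_.map_mul, ← _root_.map_pow, ← _root_.map_mul, ← _root_.map_mul]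
  congr 1
  refine Subtype.ext ?_
  show tt * u1 = (u0 * u1) ^ 2 * u1 * tt
  rw [u0_u1, tt_u1]

private theorem BPo_r2 : BPo_T * BPo_X2 = BPo_X2 * BPo_T := by
  unfold BPo_X2
  rw [BPo_Tb false, ← _root_.map_mul, ← _root_.map_mul]
  congr 1
  refine Subtype.ext ?_
  show tt * u2 = u2 * tt
  exact tt_u2

/-- the map of the free group -/
private def BPo_f : F2 →* Monoid.PushoutI BPo_phi :=
  FreeGroup.lift ![BPo_X0 * BPo_X1, BPo_X1 * BPo_X2]

private theorem BPo_f0 : BPo_f (of 0) = BPo_X0 * BPo_X1 := FreeGroup.lift_apply_of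

private theorem BPo_f1 : BPo_f (of 1) = BPo_X1 * BPo_X2 := FreeGroup.lift_apply_of

private theorem BPo_ftt (w : F2) : BPo_f (tt w) = BPo_T * BPo_f w * BPo_T⁻¹ := by
  have h : BPo_f.comp tt.toMonoidHom = (MulAut.conj BPo_T).toMonoidHom.comp BPo_f := by
    refine FreeGroup.ext_hom _ _ fun p => ?_
    fin_cases p
    · show BPo_f (tt (of 0)) = BPo_T * BPo_f (of 0) * BPo_T⁻¹
      rw [tt_x, BPo_f0, BPo_r0, mul_inv_cancel_right]
    · show BPo_f (tt (of 1)) = BPo_T * BPo_f (of 1) * BPo_T⁻¹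
      have h1 : BPo_T * (BPo_X1 * BPo_X2) * BPo_T⁻¹ = (BPo_X0 * BPo_X1) ^ 2 * BPo_X1 * BPo_X2 := by
        rw [← mul_assoc BPo_T, BPo_r1, mul_assoc _ BPo_T BPo_X2, BPo_r2, ← mul_assoc _ BPo_X2 BPo_T,
          mul_inv_cancel_right]
      rw [tt_y, _root_.map_mul, _root_.map_mul, BPo_f0, BPo_f1, h1, pow_two]
      simp only [mul_assoc]
  exact DFunLike.congr_fun h w

private theorem BPo_fz (k : ℤ) : ∀ w : F2, BPo_f ((tt ^ k) w) = BPo_T ^ k * BPo_f w * (BPo_T ^ k)⁻¹ := by
  induction k using Int.induction_on with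
  | zero =>
    intro w
    rw [zpow_zero, zpow_zero, one_mul, inv_one, mul_one]
    rfl
  | succ i ih =>
    intro w
    have h : (tt ^ ((i : ℤ) + 1)) w = (tt ^ (i : ℤ)) (tt w) := by
      rw [zpow_add_one]
      rfl
    rw [h, ih, BPo_ftt, zpow_add_one, mul_inv_rev]
    simp only [mul_assoc]
  | pred i ih =>
    intro w
    have h2 : (tt ^ (-(i : ℤ) - 1)) w = (tt ^ (-(i : ℤ))) (tt⁻¹ w) := by
      rw [zpow_sub_one]
      rfl
    have h3 : BPo_f (tt⁻¹ w) = BPo_T⁻¹ * BPo_f w * BPo_T := by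
      have h4 := BPo_ftt (tt⁻¹ w)
      have h5 : tt (tt⁻¹ w) = w := MulAut.apply_inv_self _ _ _
      rw [h5] at h4
      rw [h4]
      group
    rw [h2, ih, h3, zpow_sub_one, mul_inv_rev, inv_inv]
    simp only [mul_assoc]

/-- the map of the parabolic group -/
private def BPo_Th : E2 →* Monoid.PushoutI BPo_phi :=
  SemidirectProduct.lift BPo_f (zpowersHom _ BPo_T) (by
    intro k
    refine MonoidHom.ext fun w => ?_
    show BPo_f (ttH k w) = zpowersHom _ BPo_T k * BPo_f w * (zpowersHom _ BPo_T k)⁻¹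
    rw [BPo_ttH, zpowersHom_apply, BPo_fz])

private theorem BPo_Th_apply (f : F2) (k : Multiplicative ℤ) :
    BPo_Th ⟨f, k⟩ = BPo_f f * zpowersHom _ BPo_T k := rfl

private theorem BPo_compat (b : Bool) : (BPo_Gs b).subtype.comp (BPo_phi b) = ttH := by
  refine MonoidHom.ext fun k => ?_
  show ((BPo_phi b k : BPo_Gs b) : MulAut F2) = ttH k
  rw [BPo_phi_coe, BPo_ttH]

/-- the map to the automorphisms -/
private def BPo_Psi : Monoid.PushoutI BPo_phi →* MulAut F2 :=
  Monoid.PushoutI.lift (fun b => (BPo_Gs b).subtype) ttH BPo_compat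

private theorem BPo_Psi_T : BPo_Psi BPo_T = tt := by
  unfold BPo_Psi BPo_T
  rw [Monoid.PushoutI.lift_base, BPo_ttH, toAdd_ofAdd, zpow_one]

private theorem BPo_Psi_f (f : F2) : BPo_Psi (BPo_f f) = MulAut.conj f := by
  have h : BPo_Psi.comp BPo_f = (MulAut.conj : F2 →* MulAut F2) := by
    refine FreeGroup.ext_hom _ _ fun p => ?_
    fin_cases p
    · show BPo_Psi (BPo_f (of 0)) = MulAut.conj (of 0)
      rw [BPo_f0, _root_.map_mul, ← u0_u1]
      unfold BPo_Psi BPo_X0 BPo_X1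
      rw [Monoid.PushoutI.lift_of, Monoid.PushoutI.lift_of]
      rfl
    · show BPo_Psi (BPo_f (of 1)) = MulAut.conj (of 1)
      rw [BPo_f1, _root_.map_mul, ← u1_u2]
      unfold BPo_Psi BPo_X1 BPo_X2
      rw [Monoid.PushoutI.lift_of, Monoid.PushoutI.lift_of]
      rfl
  exact DFunLike.congr_fun h f

theorem PA_E2 : PA E2 := by
  refine PA_of_injective BPo_Th ?_ BPo_PA
  rw [injective_iff_map_eq_one]
  rintro ⟨f, k⟩ h
  have h1 := congrArg BPo_Psi h
  rw [BPo_Th_apply, _root_.map_mul, BPo_Psi_f, zpowersHom_apply, _root_.map_zpow, BPo_Psi_T, _root_.map_one,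
    ← BPo_ttH] at h1
  obtain ⟨h2, h3⟩ := BPo_ker f k h1
  rw [h2, h3]
  rfl

end Pool.Agent.Lib.MP_9dbb0e_al.DF
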