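import Mathlib

/-!
# JOB KRes: restriction of an action by automorphisms to an invariant subgroup

PROOF. For `g : G`, `v : A` there is a unique (`hP`) `v'` with `P v' = r g (P v)`: call it `f g v` (`Classical.choose`). `f 1 v = v`, `f (g * g') v = f g (f g' v)`, `f g (v * w) = f g v * f g w`: apply `P` and use `hP`. So `ρ g = {toFun := f g, invFun := f g⁻¹, ..}` and `ρ` is multiplicative (`MonoidHom.mk'`).
-/

set_option autoImplicit false

namespace Pool.Agent.Lib.MP_9dbb0e_al.DF

theorem exists_restrict {A F G : Type} [Group A] [Group F] [Group G] (P : A →* F)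
    (hP : Function.Injective P) (r : G →* MulAut F) (h : ∀ g v, ∃ v', P v' = r g (P v)) :
    ∃ ρ : G →* MulAut A, ∀ g v, P (ρ g v) = r g (P v) := by
  choose f hf using h
  have h1 : ∀ v, f 1 v = v := fun v => hP (by rw [hf, map_one, MulAut.one_apply])
  have hm : ∀ g g' v, f (g * g') v = f g (f g' v) := fun g g' v =>
    hP (by rw [hf, hf, hf, map_mul, MulAut.mul_apply])
  have hv : ∀ g v w, f g (v * w) = f g v * f g w := fun g v w =>
    hP (by rw [hf, map_mul, map_mul, map_mul, hf, hf])
  let e : G → MulAut A := fun g =>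
    { toFun := f g
      invFun := f g⁻¹
      left_inv := fun v => by rw [← hm, inv_mul_cancel, h1]
      right_inv := fun v => by rw [← hm, mul_inv_cancel, h1]
      map_mul' := hv g }
  refine ⟨MonoidHom.mk' e fun g g' => MulEquiv.ext fun v => hm g g' v, fun g v => hf g v⟩

end Pool.Agent.Lib.MP_9dbb0e_al.DF
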