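import Mathlib

/-!
# JOB MFz: free groups of rank two from free families of conjugates

PROOFS.
`norm1`: every `w : FreeGroup (Fin 2)` is `s1 v * of 0 ^ m`, where `s1 : FreeGroup ℤ →* FreeGroup (Fin 2)`, `of j ↦ of 0 ^ j * of 1 * of 0 ^ (-j)`: `FreeGroup.induction_on w` is awkward; better: the set of the `w` of this form is closed under
 left multiplication by `of 0 ^ (±1)` and by `s1 (..)`: use `Subgroup.closure_induction_left` over `Subgroup.closure (Set.range of) = ⊤` (`FreeGroup.closure_range_of`), or: it contains `1` and is closed under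
 `w ↦ w * of 0 ^ (±1)` (trivial), `w ↦ w * of 1 ^ (±1)`: `s1 v * of 0 ^ m * of 1 = s1 (v * of m) * of 0 ^ m`. (`Subgroup.closure_induction_right`.)
`freeTwo_of_fam`: `injective_iff_map_eq_one`; `w = s1 v * of 0 ^ m`; `lift ![a, u] (s1 v) = lift (fun j => a ^ j * u * a ^ (-j)) v` (`FreeGroup.ext_hom`) `=: x`. So `x * a ^ m = 1`, `a ^ (-m) = x` is in the closure (`FreeGroup.range_lift_eq_closure` or `FreeGroup.lift.range_eq_closure`:
 the range of `lift` is the closure of the range), so `m = 0` by `h2`, `x = 1`, `v = 1` by `h1`, `w = 1`.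
`norm2`: the same for `s2 : FreeGroup (ℤ × ℤ) →* FreeGroup (Fin 2)`, `of (j, k) ↦ of 0 ^ j * of 1 ^ k * c * of 1 ^ (-k) * of 0 ^ (-j)`, `c = of 0 * of 1 * (of 0)⁻¹ * (of 1)⁻¹`: every `w` is `s2 v * of 0 ^ m * of 1 ^ n`. Closed under right multiplication by `of 1 ^ (±1)`: trivial. By
 `of 0 ^ (±1)`: it is enough that for all `n : ℤ` there is `v'` with `of 1 ^ n * of 0 = s2 v' * of 0 * of 1 ^ n` and the same for `(of 0)⁻¹`, and that `of 0 ^ m * s2 v' * of 0 ^ (-m)` is in the range of `s2` (clear on generators: `of (j, k) ↦ of (j + m, k)`, `FreeGroup.map`).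
 With `x = of 0`, `y = of 1`: `y ^ n * x * y ^ (-n) * x⁻¹ = r n`: `r 0 = 1`, `r (n + 1) = y * r n * y⁻¹ * (y * x * y⁻¹ * x⁻¹)`; so it is better to show by induction on `n` (`Int.induction_on`) that `r n ∈ range s2`:
 `r (n + 1) = y ^ n * (y * x * y⁻¹ * x⁻¹) * x * y ^ (-n) * x⁻¹ = (y ^ n * (x * y * x⁻¹ * y⁻¹)⁻¹ * y ^ (-n)) * r n = s2 (of (0, n))⁻¹ * r n`. For `x⁻¹`: `y ^ n * x⁻¹ = x⁻¹ * (x * y ^ n * x⁻¹) = x⁻¹ * (r n)⁻¹ * y ^ n`, and `x⁻¹ * range * x ⊆ range`.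
`freeTwo_of_fam2`: as `freeTwo_of_fam`: `lift ![a, b] (s2 v) = lift fam v = x`, `x * a ^ m * b ^ n = 1`, `a ^ m * b ^ n = x⁻¹` in the closure.
-/

set_option autoImplicit false

namespace Pool.Agent.Lib.MP_9dbb0e_al.DF

open FreeGroup

private theorem MFz_two (p : FreeGroup (Fin 2) → Prop) (h1 : p 1)
    (ha : ∀ x, p x → p (x * of 0)) (ha' : ∀ x, p x → p (x * (of 0)⁻¹))
    (hb : ∀ x, p x → p (x * of 1)) (hb' : ∀ x, p x → p (x * (of 1)⁻¹)) (w : FreeGroup (Fin 2)) : p w := by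
  have hw : w ∈ Subgroup.closure (Set.range (of : Fin 2 → FreeGroup (Fin 2))) := by
    rw [FreeGroup.closure_range_of]
    exact Subgroup.mem_top w
  refine Subgroup.closure_induction_right (p := fun x _ => p x) h1 ?_ ?_ hw
  · rintro x hx y ⟨i, rfl⟩ h
    fin_cases i
    · exact ha x h
    · exact hb x h
  · rintro x hx y ⟨i, rfl⟩ h
    fin_cases i
    · exact ha' x h
    · exact hb' x h

private theorem MFz_norm1 (K : Subgroup (FreeGroup (Fin 2)))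
    (hK : ∀ k ∈ K, ∀ m : ℤ, (of 0 : FreeGroup (Fin 2)) ^ m * k * of 0 ^ (-m) ∈ K) (hb : of 1 ∈ K)
    (w : FreeGroup (Fin 2)) : ∃ k ∈ K, ∃ m : ℤ, w = k * of 0 ^ m := by
  refine MFz_two (fun w => ∃ k ∈ K, ∃ m : ℤ, w = k * of 0 ^ m) ⟨1, K.one_mem, 0, by simp⟩ ?_ ?_ ?_ ?_ w
  · rintro _ ⟨k, hk, m, rfl⟩
    exact ⟨k, hk, m + 1, by group⟩
  · rintro _ ⟨k, hk, m, rfl⟩
    exact ⟨k, hk, m - 1, by group⟩
  · rintro _ ⟨k, hk, m, rfl⟩
    exact ⟨k * (of 0 ^ m * of 1 * of 0 ^ (-m)), K.mul_mem hk (hK _ hb m), m, by group⟩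
  · rintro _ ⟨k, hk, m, rfl⟩
    exact ⟨k * (of 0 ^ m * (of 1)⁻¹ * of 0 ^ (-m)), K.mul_mem hk (hK _ (K.inv_mem hb) m), m, by group⟩

private theorem MFz_norm2 (K : Subgroup (FreeGroup (Fin 2)))
    (hK : ∀ k ∈ K, ∀ m : ℤ, (of 0 : FreeGroup (Fin 2)) ^ m * k * of 0 ^ (-m) ∈ K)
    (hr : ∀ n : ℤ, (of 1 : FreeGroup (Fin 2)) ^ n * of 0 * of 1 ^ (-n) * (of 0)⁻¹ ∈ K)
    (w : FreeGroup (Fin 2)) : ∃ k ∈ K, ∃ m n : ℤ, w = k * of 0 ^ m * of 1 ^ n := by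
  refine MFz_two (fun w => ∃ k ∈ K, ∃ m n : ℤ, w = k * of 0 ^ m * of 1 ^ n) ⟨1, K.one_mem, 0, 0, by simp⟩
    ?_ ?_ ?_ ?_ w
  · rintro _ ⟨k, hk, m, n, rfl⟩
    exact ⟨k * (of 0 ^ m * (of 1 ^ n * of 0 * of 1 ^ (-n) * (of 0)⁻¹) * of 0 ^ (-m)),
      K.mul_mem hk (hK _ (hr n) m), m + 1, n, by group⟩
  · rintro _ ⟨k, hk, m, n, rfl⟩
    exact ⟨k * (of 0 ^ (m - 1) * (of 1 ^ n * of 0 * of 1 ^ (-n) * (of 0)⁻¹)⁻¹ * of 0 ^ (-(m - 1))),
      K.mul_mem hk (hK _ (K.inv_mem (hr n)) (m - 1)), m - 1, n, by group⟩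
  · rintro _ ⟨k, hk, m, n, rfl⟩
    exact ⟨k, hk, m, n + 1, by group⟩
  · rintro _ ⟨k, hk, m, n, rfl⟩
    exact ⟨k, hk, m, n - 1, by group⟩

private theorem MFz_conj {α : Type*} (f : α → FreeGroup (Fin 2))
    (hf : ∀ i, ∀ m : ℤ, (of 0 : FreeGroup (Fin 2)) ^ m * f i * of 0 ^ (-m) ∈
      (FreeGroup.lift f : FreeGroup α →* FreeGroup (Fin 2)).range) :
    ∀ k ∈ (FreeGroup.lift f : FreeGroup α →* FreeGroup (Fin 2)).range, ∀ m : ℤ,
      (of 0 : FreeGroup (Fin 2)) ^ m * k * of 0 ^ (-m) ∈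
        (FreeGroup.lift f : FreeGroup α →* FreeGroup (Fin 2)).range := by
  rintro _ ⟨v, rfl⟩ m
  induction v using FreeGroup.induction_on with
  | C1 =>
    rw [_root_.map_one, mul_one, ← zpow_add, add_neg_cancel, zpow_zero]
    exact Subgroup.one_mem _
  | of i =>
    rw [FreeGroup.lift_apply_of]
    exact hf i m
  | inv_of i h =>
    rw [_root_.map_inv]
    have h1 := Subgroup.inv_mem _ h
    have h2 : ((of 0 : FreeGroup (Fin 2)) ^ m * (FreeGroup.lift f) (of i) * of 0 ^ (-m))⁻¹ =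
        of 0 ^ m * ((FreeGroup.lift f) (of i))⁻¹ * of 0 ^ (-m) := by group
    rw [h2] at h1
    exact h1
  | mul x y hx hy =>
    rw [_root_.map_mul]
    have h1 := Subgroup.mul_mem _ hx hy
    have h2 : ((of 0 : FreeGroup (Fin 2)) ^ m * (FreeGroup.lift f) x * of 0 ^ (-m)) *
        (of 0 ^ m * (FreeGroup.lift f) y * of 0 ^ (-m)) =
        of 0 ^ m * ((FreeGroup.lift f) x * (FreeGroup.lift f) y) * of 0 ^ (-m) := by group
    rw [h2] at h1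
    exact h1

theorem freeTwo_of_fam {G : Type*} [Group G] (a u : G)
    (h1 : Function.Injective (FreeGroup.lift (fun j : ℤ => a ^ j * u * a ^ (-j)) :
      FreeGroup ℤ →* G))
    (h2 : ∀ m : ℤ, a ^ m ∈ (FreeGroup.lift (fun j : ℤ => a ^ j * u * a ^ (-j)) :
      FreeGroup ℤ →* G).range → m = 0) :
    Function.Injective (FreeGroup.lift ![a, u] : FreeGroup (Fin 2) →* G) := by
  have hcomp : (FreeGroup.lift ![a, u] : FreeGroup (Fin 2) →* G).comp (FreeGroup.lift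
      (fun j : ℤ => (of 0 : FreeGroup (Fin 2)) ^ j * of 1 * of 0 ^ (-j)) : FreeGroup ℤ →* FreeGroup (Fin 2)) =
      FreeGroup.lift (fun j : ℤ => a ^ j * u * a ^ (-j)) := by
    refine FreeGroup.ext_hom _ _ fun j => ?_
    rw [MonoidHom.comp_apply, FreeGroup.lift_apply_of, FreeGroup.lift_apply_of]
    simp only [_root_.map_mul, map_zpow, FreeGroup.lift_apply_of]
    rfl
  rw [injective_iff_map_eq_one]
  intro w hw
  obtain ⟨k, ⟨v, rfl⟩, m, rfl⟩ := MFz_norm1 (FreeGroup.lift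
      (fun j : ℤ => (of 0 : FreeGroup (Fin 2)) ^ j * of 1 * of 0 ^ (-j)) : FreeGroup ℤ →* FreeGroup (Fin 2)).range
    (MFz_conj _ fun i m => ⟨of (m + i), by
      rw [FreeGroup.lift_apply_of]
      group⟩)
    ⟨of 0, by
      rw [FreeGroup.lift_apply_of]
      simp⟩ w
  have h3 : (FreeGroup.lift ![a, u]) ((FreeGroup.lift
      (fun j : ℤ => (of 0 : FreeGroup (Fin 2)) ^ j * of 1 * of 0 ^ (-j))) v) =
      FreeGroup.lift (fun j : ℤ => a ^ j * u * a ^ (-j)) v := by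
    rw [← hcomp, MonoidHom.comp_apply]
  rw [_root_.map_mul, h3, map_zpow, FreeGroup.lift_apply_of] at hw
  have hw' : FreeGroup.lift (fun j : ℤ => a ^ j * u * a ^ (-j)) v * a ^ m = 1 := hw
  have hm : m = 0 := by
    refine h2 m ⟨v⁻¹, ?_⟩
    rw [_root_.map_inv]
    exact inv_eq_of_mul_eq_one_right hw'
  rw [hm, zpow_zero, mul_one] at hw' ⊢
  have hv : v = 1 := h1 (hw'.trans (_root_.map_one _).symm)
  rw [hv, _root_.map_one]

theorem freeTwo_of_fam2 {G : Type*} [Group G] (a b : G)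
    (h1 : Function.Injective (FreeGroup.lift (fun p : ℤ × ℤ =>
      a ^ p.1 * b ^ p.2 * (a * b * a⁻¹ * b⁻¹) * b ^ (-p.2) * a ^ (-p.1)) :
      FreeGroup (ℤ × ℤ) →* G))
    (h2 : ∀ m n : ℤ, a ^ m * b ^ n ∈ (FreeGroup.lift (fun p : ℤ × ℤ =>
      a ^ p.1 * b ^ p.2 * (a * b * a⁻¹ * b⁻¹) * b ^ (-p.2) * a ^ (-p.1)) :
      FreeGroup (ℤ × ℤ) →* G).range → m = 0 ∧ n = 0) :
    Function.Injective (FreeGroup.lift ![a, b] : FreeGroup (Fin 2) →* G) := by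
  obtain ⟨s, hs⟩ : ∃ s : FreeGroup (ℤ × ℤ) →* FreeGroup (Fin 2), s = FreeGroup.lift
      (fun p : ℤ × ℤ => (of 0 : FreeGroup (Fin 2)) ^ p.1 * of 1 ^ p.2 * (of 0 * of 1 * (of 0)⁻¹ * (of 1)⁻¹) *
        of 1 ^ (-p.2) * of 0 ^ (-p.1)) := ⟨_, rfl⟩
  have hso : ∀ p : ℤ × ℤ, s (of p) = (of 0 : FreeGroup (Fin 2)) ^ p.1 * of 1 ^ p.2 *
      (of 0 * of 1 * (of 0)⁻¹ * (of 1)⁻¹) * of 1 ^ (-p.2) * of 0 ^ (-p.1) := by
    intro p
    rw [hs, FreeGroup.lift_apply_of]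
  have hcomp : (FreeGroup.lift ![a, b] : FreeGroup (Fin 2) →* G).comp s =
      FreeGroup.lift (fun p : ℤ × ℤ =>
        a ^ p.1 * b ^ p.2 * (a * b * a⁻¹ * b⁻¹) * b ^ (-p.2) * a ^ (-p.1)) := by
    refine FreeGroup.ext_hom _ _ fun p => ?_
    rw [MonoidHom.comp_apply, FreeGroup.lift_apply_of, hso]
    simp only [_root_.map_mul, _root_.map_inv, map_zpow, FreeGroup.lift_apply_of]
    rfl
  have hK : ∀ k ∈ s.range, ∀ m : ℤ, (of 0 : FreeGroup (Fin 2)) ^ m * k * of 0 ^ (-m) ∈ s.range := by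
    have h3 := MFz_conj (fun p : ℤ × ℤ => (of 0 : FreeGroup (Fin 2)) ^ p.1 * of 1 ^ p.2 *
      (of 0 * of 1 * (of 0)⁻¹ * (of 1)⁻¹) * of 1 ^ (-p.2) * of 0 ^ (-p.1)) (fun p m => by
        rw [← hs]
        exact ⟨of (m + p.1, p.2), by
          rw [hso]
          group⟩)
    rw [← hs] at h3
    exact h3
  have hstep : ∀ n : ℤ, (of 1 : FreeGroup (Fin 2)) ^ (n + 1) * of 0 * of 1 ^ (-(n + 1)) * (of 0)⁻¹ =
      (s (of (0, n)))⁻¹ * (of 1 ^ n * of 0 * of 1 ^ (-n) * (of 0)⁻¹) := by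
    intro n
    rw [hso]
    group
  have hr : ∀ n : ℤ, (of 1 : FreeGroup (Fin 2)) ^ n * of 0 * of 1 ^ (-n) * (of 0)⁻¹ ∈ s.range := by
    intro n
    induction n using Int.induction_on with
    | zero =>
      have : (of 1 : FreeGroup (Fin 2)) ^ (0 : ℤ) * of 0 * of 1 ^ (-(0 : ℤ)) * (of 0)⁻¹ = 1 := by group
      rw [this]
      exact Subgroup.one_mem _
    | succ n ih =>
      rw [hstep]
      exact Subgroup.mul_mem _ (Subgroup.inv_mem _ ⟨_, rfl⟩) ih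
    | pred n ih =>
      have h3 := hstep (-(n : ℤ) - 1)
      rw [sub_add_cancel] at h3
      have h4 : (of 1 : FreeGroup (Fin 2)) ^ (-(n : ℤ) - 1) * of 0 * of 1 ^ (-(-(n : ℤ) - 1)) * (of 0)⁻¹ =
          s (of (0, -(n : ℤ) - 1)) * (of 1 ^ (-(n : ℤ)) * of 0 * of 1 ^ (-(-(n : ℤ))) * (of 0)⁻¹) := by
        rw [h3, mul_inv_cancel_left]
      rw [h4]
      exact Subgroup.mul_mem _ ⟨_, rfl⟩ ih
  rw [injective_iff_map_eq_one]
  intro w hw
  obtain ⟨k, ⟨v, rfl⟩, m, n, rfl⟩ := MFz_norm2 s.range hK hr w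
  have h3 : (FreeGroup.lift ![a, b]) (s v) = FreeGroup.lift (fun p : ℤ × ℤ =>
      a ^ p.1 * b ^ p.2 * (a * b * a⁻¹ * b⁻¹) * b ^ (-p.2) * a ^ (-p.1)) v := by
    rw [← hcomp, MonoidHom.comp_apply]
  rw [_root_.map_mul, _root_.map_mul, h3, map_zpow, map_zpow, FreeGroup.lift_apply_of,
    FreeGroup.lift_apply_of] at hw
  have hw' : FreeGroup.lift (fun p : ℤ × ℤ =>
      a ^ p.1 * b ^ p.2 * (a * b * a⁻¹ * b⁻¹) * b ^ (-p.2) * a ^ (-p.1)) v * (a ^ m * b ^ n) = 1 := by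
    rw [← mul_assoc]
    exact hw
  obtain ⟨hm, hn⟩ := h2 m n ⟨v⁻¹, by
    rw [_root_.map_inv]
    exact inv_eq_of_mul_eq_one_right hw'⟩
  rw [hm, hn, zpow_zero, zpow_zero, mul_one, mul_one] at hw'
  rw [hm, hn, zpow_zero, zpow_zero, mul_one, mul_one]
  have hv : v = 1 := h1 (hw'.trans (_root_.map_one _).symm)
  rw [hv, _root_.map_one]

end Pool.Agent.Lib.MP_9dbb0e_al.DF
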