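import Pool.Agent.Lib.MP_9dbb0e_al.D.MML
import Pool.Agent.Lib.MP_9dbb0e_al.D.MFz
import Pool.Agent.Lib.MP_9dbb0e_al.D.MCt

/-!
# JOB MMa: an automorphism without periodic letters and an inner automorphism

PROOFS. (`open FreeGroup` makes `map_mul` ambiguous: write `_root_.map_mul`.)
`zpow_perm`: first for natural powers by induction: `ψ (k * of i' * k⁻¹) = ψ k * (k' * of (π i') * k'⁻¹) * (ψ k)⁻¹`. For the inverse: from `ψ (of (π⁻¹ i)) = k * of i * k⁻¹` we get `ψ⁻¹ (of i) = (ψ⁻¹ k)⁻¹ * of (π⁻¹ i) * ψ⁻¹ k`. So both `ψ` and `ψ⁻¹` have the property and `j = n` or `j = -n`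
 (or show that `{ψ | ∃ π, ..}`: the pairs `(ψ, π)` with the property form a subgroup of `MulAut (FreeGroup I) × Equiv.Perm I`, and use `Subgroup.zpow_mem` for `(ψ, π)`; this is the cleanest way).
`fam_conj`: `FreeGroup.lift (fun j => conj (g j)) = MulAut.conj.comp (FreeGroup.lift g)` (`ext_hom`).
`partM_free`: if `w = 1`: left. Otherwise `free_orbit` with `J = ℤ`, `π j = π ^ j`, `ψ j = (ψ ^ j).toMonoidHom` (`zpow_add`, `hψ`: `zpow_perm`, `hfree`: `hπ`): the family `j ↦ (ψ ^ j) w` is free. `freeTwo_of_fam` for `a = ψ`, `u = MulAut.conj w` in `MulAut (FreeGroup I)`: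
 `ψ ^ j * conj w * ψ ^ (-j) = conj ((ψ ^ j) w)` (`MulAut` : `g * conj w * g⁻¹ = conj (g w)`), so the family is `conj ∘ (fun j => (ψ ^ j) w)`: injective by `fam_conj` and `conj_inj` (`I` has two different letters: `w ≠ 1`, so there is a letter `i` (otherwise `FreeGroup I` is trivial), and `π i ≠ i` by `hπ i 1`).
 `h2`: if `ψ ^ m = conj v` (elements of the range, `fam_conj`) then `(ψ ^ m) (of i) = v * of i * v⁻¹` and `= k * of ((π ^ m) i) * k⁻¹`, so `(π ^ m) i = i` (`of_conj_of`), `m = 0`.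
-/

set_option autoImplicit false

namespace Pool.Agent.Lib.MP_9dbb0e_al.DF

open Pool.Agent.Lib.MP_106261_lc.Magnus FreeGroup

variable {I : Type} [DecidableEq I]

omit [DecidableEq I] in
private theorem MMa_mul (ψ ψ' : MulAut (FreeGroup I)) (π π' : Equiv.Perm I)
    (hψ : ∀ i, ∃ k, ψ (of i) = k * of (π i) * k⁻¹) (hψ' : ∀ i, ∃ k, ψ' (of i) = k * of (π' i) * k⁻¹)
    (i : I) : ∃ k, (ψ * ψ') (of i) = k * of ((π * π') i) * k⁻¹ := by
  obtain ⟨k', hk'⟩ := hψ' i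
  obtain ⟨k, hk⟩ := hψ (π' i)
  refine ⟨ψ k' * k, ?_⟩
  rw [MulAut.mul_apply, hk', _root_.map_mul, _root_.map_mul, _root_.map_inv, hk, Equiv.Perm.mul_apply]
  group

omit [DecidableEq I] in
private theorem MMa_inv (ψ : MulAut (FreeGroup I)) (π : Equiv.Perm I)
    (hψ : ∀ i, ∃ k, ψ (of i) = k * of (π i) * k⁻¹) (i : I) : ∃ k, ψ⁻¹ (of i) = k * of (π⁻¹ i) * k⁻¹ := by
  obtain ⟨k, hk⟩ := hψ (π⁻¹ i)
  have h0 : π (π⁻¹ i) = i := π.apply_symm_apply i
  rw [h0] at hk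
  have h1 := congrArg (fun v => ψ⁻¹ v) hk
  simp only [MulAut.inv_apply_self] at h1
  rw [_root_.map_mul, _root_.map_mul, _root_.map_inv] at h1
  refine ⟨(ψ⁻¹ k)⁻¹, ?_⟩
  rw [h1]
  group

theorem zpow_perm (ψ : MulAut (FreeGroup I)) (π : Equiv.Perm I)
    (hψ : ∀ i, ∃ k, ψ (of i) = k * of (π i) * k⁻¹) (j : ℤ) (i : I) :
    ∃ k, (ψ ^ j) (of i) = k * of ((π ^ j) i) * k⁻¹ := by
  revert i
  induction j using Int.induction_on with
  | zero =>
    intro i
    refine ⟨1, ?_⟩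
    rw [zpow_zero, zpow_zero, MulAut.one_apply, Equiv.Perm.one_apply, one_mul, inv_one, mul_one]
  | succ n ih =>
    intro i
    rw [zpow_add_one, zpow_add_one]
    exact MMa_mul _ _ _ _ ih hψ i
  | pred n ih =>
    intro i
    rw [zpow_sub_one, zpow_sub_one]
    exact MMa_mul _ _ _ _ ih (MMa_inv ψ π hψ) i

theorem mul_perm (ψ ψ' : MulAut (FreeGroup I)) (π π' : Equiv.Perm I)
    (hψ : ∀ i, ∃ k, ψ (of i) = k * of (π i) * k⁻¹) (hψ' : ∀ i, ∃ k, ψ' (of i) = k * of (π' i) * k⁻¹)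
    (i : I) : ∃ k, (ψ * ψ') (of i) = k * of ((π * π') i) * k⁻¹ := by
  exact MMa_mul ψ ψ' π π' hψ hψ' i

theorem fam_conj {J : Type} (g : J → FreeGroup I) :
    (FreeGroup.lift (fun j => MulAut.conj (g j)) : FreeGroup J →* MulAut (FreeGroup I)) =
      MulAut.conj.comp (FreeGroup.lift g) := by
  refine FreeGroup.ext_hom _ _ fun j => ?_
  rw [FreeGroup.lift_apply_of, MonoidHom.comp_apply, FreeGroup.lift_apply_of]

theorem partM_free (ψ : MulAut (FreeGroup I)) (π : Equiv.Perm I)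
    (hψ : ∀ i, ∃ k, ψ (of i) = k * of (π i) * k⁻¹)
    (hπ : ∀ (i : I) (m : ℤ), (π ^ m) i = i → m = 0) (w : FreeGroup I) :
    ψ w = w ∨ Function.Injective (FreeGroup.lift ![ψ, MulAut.conj w] :
      FreeGroup (Fin 2) →* MulAut (FreeGroup I)) := by
  by_cases hw : w = 1
  · left
    rw [hw, _root_.map_one]
  right
  have hI : Nonempty I := by
    by_contra hc
    have h1 : IsEmpty I := not_nonempty_iff.1 hc
    exact hw (Subsingleton.elim _ _)
  obtain ⟨i0⟩ := hI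
  have hne : i0 ≠ π i0 := by
    intro h1
    have h2 := hπ i0 1 (by rw [zpow_one]; exact h1.symm)
    exact one_ne_zero h2
  have hfree := free_orbit (I := I) (J := ℤ) (fun j => π ^ j) (zpow_zero π) (fun j j' => zpow_add π j j')
    (fun j i h => hπ i j h) (fun j => (ψ ^ j).toMonoidHom) (fun j i => zpow_perm ψ π hψ j i) w hw
  have hfam : (fun j : ℤ => ψ ^ j * MulAut.conj w * ψ ^ (-j)) = fun j : ℤ => MulAut.conj ((ψ ^ j) w) := by
    funext j
    refine MulEquiv.ext fun v => ?_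
    rw [MulAut.mul_apply, MulAut.mul_apply, MulAut.conj_apply, MulAut.conj_apply, _root_.map_mul, _root_.map_mul,
      _root_.map_inv, zpow_neg, MulAut.apply_inv_self]
  have hfam' := fam_conj (fun j : ℤ => (ψ ^ j) w)
  refine freeTwo_of_fam ψ (MulAut.conj w) ?_ ?_
  · rw [hfam, hfam']
    exact (conj_inj hne).comp hfree
  · intro m hm
    rw [hfam, hfam'] at hm
    obtain ⟨v, hv⟩ := hm
    obtain ⟨V, hV⟩ : ∃ V, V = FreeGroup.lift (fun j : ℤ => (ψ ^ j) w) v := ⟨_, rfl⟩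
    rw [MonoidHom.comp_apply, ← hV] at hv
    obtain ⟨k, hk⟩ := zpow_perm ψ π hψ m i0
    rw [← hv, MulAut.conj_apply] at hk
    refine hπ i0 m (of_conj_of (k⁻¹ * V) ?_).symm
    have h1 : k⁻¹ * V * of i0 * (k⁻¹ * V)⁻¹ = k⁻¹ * (V * of i0 * V⁻¹) * k := by group
    rw [h1, hk]
    group

end Pool.Agent.Lib.MP_9dbb0e_al.DF
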