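import Pool.Agent.Lib.MP_9dbb0e_al.D.BKer
import Pool.Agent.Lib.MP_9dbb0e_al.D.BIota
import Pool.Agent.Lib.MP_9dbb0e_al.D.KRes
import Pool.Agent.Lib.MP_9dbb0e_al.D.MMa

/-!
# JOB BRho: the action of `B_4` on the commutator subgroup of `F2`, the letters as points

PROOFS. (`open FreeGroup` makes `map_mul` ambiguous: write `_root_.map_mul`.)
`ab_r`: `{g | ∀ w, ab (D.r g w) = act2 (D.lin g) (ab w)}` is a subgroup (inverse: `w = D.r g (D.r g⁻¹ w)`, `act2` is an action: `act2 (A * B) p = act2 A (act2 B p)`, `act2 1 p = p`) containing `a, b, c` (`ab_αa` ..; `As = (1, 1; 0, 1)`, `At = (1, 0; -1, 1)`): `B4.mem_of`.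
`exists_ρ4`: `exists_restrict P2 P2_inj D.r`: `ab (P2 v) = 0` (`P2_range`), `ab (D.r g (P2 v)) = act2 _ 0 = 0`.
`exists_π4`: `D.lift` for the permutations `(m, n) ↦ (m + n, n)`, `(m, n - m)`, `(m + n - 1, n)` of `ℤ × ℤ` (relations: `Equiv.ext`, `Prod.ext`, `ring`/`omega`).
`ρ_π`: the pairs of an automorphism and a permutation with `∀ i, ∃ k, α (of i) = k * of (τ i) * k⁻¹` are closed under products (`mul_perm`, MMa.lean) and inverses (from `α (of (τ⁻¹ i)) = k * of i * k⁻¹`: `α⁻¹ (of i) = (α⁻¹ k)⁻¹ * of (τ⁻¹ i) * α⁻¹ k`), so `{g | ..}` is a subgroup; generators: `P2 (ρ a (of (m, n))) = αa (x ^ m y ^ n) * αa k0 * (..)⁻¹ = f * k0 * f⁻¹` with `f = αa (x ^ m y ^ n)`,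
 `ab f = (m + n, n)`: `conj_k0` and `P2_inj`. For `b` the same; for `c`: `f = αc (x ^ m y ^ n) * x⁻¹` (`αc_k0`), `ab f = (m + n - 1, n)`.
`pt4_π`: subgroup argument (`L` and `π` are homomorphisms, `Matrix.mulVec_mulVec`), generators: `![..]` computation: `LS1 *ᵥ (p, q, r) = (2 p + q, - p, r)`, `LS2 *ᵥ (p, q, r) = (p, 2 q + r, - q)`, `(LU1 LU0) *ᵥ v = v + (-2, 2, 0)` if the sum of `v` is one.
-/

set_option autoImplicit false

namespace Pool.Agent.Lib.MP_9dbb0e_al.DF

open FreeGroup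
open scoped Matrix

/-- the action on exponents -/
def act2 (A : SL2) (p : ℤ × ℤ) : ℤ × ℤ :=
  (A.1 0 0 * p.1 + A.1 0 1 * p.2, A.1 1 0 * p.1 + A.1 1 1 * p.2)

/-- the letters as points of the plane with sum one -/
def pt4 (p : ℤ × ℤ) : Fin 3 → ℤ := ![1 + 2 * p.1, -1 - 2 * p.1 + 2 * p.2, 1 - 2 * p.2]

theorem pt4_inj : Function.Injective pt4 := by
  rintro ⟨m, n⟩ ⟨m', n'⟩ h
  have h0 := congrFun h 0
  have h2 := congrFun h 2
  simp only [pt4, Matrix.cons_val_zero] at h0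
  simp [pt4] at h2
  refine Prod.ext ?_ ?_
  · show m = m'
    omega
  · exact h2

theorem pt4_sum (p : ℤ × ℤ) : smZ (pt4 p) = 1 := by
  simp [smZ, pt4]
  ring

private theorem BRho_act2_mul (A B : SL2) (p : ℤ × ℤ) : act2 (A * B) p = act2 A (act2 B p) := by
  have h : ∀ i j, (A * B).1 i j = A.1 i 0 * B.1 0 j + A.1 i 1 * B.1 1 j := by
    intro i j
    show (A.1 * B.1) i j = _
    rw [Matrix.mul_apply, Fin.sum_univ_two]
  refine Prod.ext ?_ ?_
  · simp only [act2, h]
    ring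
  · simp only [act2, h]
    ring

private theorem BRho_act2_one (p : ℤ × ℤ) : act2 1 p = p := by
  refine Prod.ext ?_ ?_
  · simp [act2]
  · simp [act2]

private theorem BRho_act2_zero (A : SL2) : act2 A 0 = 0 := by
  refine Prod.ext ?_ ?_
  · simp [act2]
  · simp [act2]

private theorem BRho_ab_pow (m n : ℤ) : ab (of 0 ^ m * of 1 ^ n) = (m, n) := by
  refine Prod.ext ?_ ?_
  · simp [ab, wd]
  · simp [ab, wd]

private theorem BRho_ab_x : ab (of 0) = (1, 0) := by
  refine Prod.ext ?_ ?_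
  · simp [ab, wd]
  · simp [ab, wd]

variable {G : Type} [Group G] (D : B4 G)

theorem ab_r (g : G) (w : F2) : ab (D.r g w) = act2 (D.lin g) (ab w) := by
  let K : Subgroup G :=
    { carrier := {g | ∀ w, ab (D.r g w) = act2 (D.lin g) (ab w)}
      one_mem' := by
        intro w
        rw [_root_.map_one, _root_.map_one, BRho_act2_one]
        rfl
      mul_mem' := by
        intro g h hg hh w
        have h1 : D.r (g * h) w = D.r g (D.r h w) := by
          rw [_root_.map_mul]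
          rfl
        rw [h1, _root_.map_mul, BRho_act2_mul]
        have h2 : ab (D.r g (D.r h w)) = act2 (D.lin g) (ab (D.r h w)) := hg (D.r h w)
        have h3 : ab (D.r h w) = act2 (D.lin h) (ab w) := hh w
        rw [h2, h3]
      inv_mem' := by
        intro g hg w
        have h1 : D.r g (D.r g⁻¹ w) = w := by
          have h : D.r (g * g⁻¹) w = w := by
            rw [mul_inv_cancel, _root_.map_one]
            rfl
          rw [_root_.map_mul] at h
          exact h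
        have h2 : ab (D.r g (D.r g⁻¹ w)) = act2 (D.lin g) (ab (D.r g⁻¹ w)) := hg (D.r g⁻¹ w)
        rw [h1] at h2
        show ab (D.r g⁻¹ w) = act2 (D.lin g⁻¹) (ab w)
        rw [h2, ← BRho_act2_mul, ← _root_.map_mul, inv_mul_cancel, _root_.map_one, BRho_act2_one] }
  refine D.mem_of K ?_ ?_ ?_ g w
  · intro w
    rw [D.r_spec.1, D.lin_spec.1, ab_αa]
    refine Prod.ext ?_ ?_
    · simp [act2, As]
    · simp [act2, As]
  · intro w
    rw [D.r_spec.2.1, D.lin_spec.2.1, ab_αb]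
    refine Prod.ext ?_ ?_
    · simp [act2, At]
    · simp [act2, At]
      ring
  · intro w
    rw [D.r_spec.2.2, D.lin_spec.2.2, ab_αc]
    refine Prod.ext ?_ ?_
    · simp [act2, As]
    · simp [act2, As]

theorem exists_ρ4 : ∃ ρ : G →* MulAut (FreeGroup (ℤ × ℤ)), ∀ g v, P2 (ρ g v) = D.r g (P2 v) := by
  refine exists_restrict P2 P2_inj D.r ?_
  intro g v
  rw [P2_range, ab_r, (P2_range (P2 v)).1 ⟨v, rfl⟩, BRho_act2_zero]

private def BRho_pa : Equiv.Perm (ℤ × ℤ) where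
  toFun p := (p.1 + p.2, p.2)
  invFun p := (p.1 - p.2, p.2)
  left_inv := by
    rintro ⟨m, n⟩
    simp
  right_inv := by
    rintro ⟨m, n⟩
    simp

private def BRho_pb : Equiv.Perm (ℤ × ℤ) where
  toFun p := (p.1, p.2 - p.1)
  invFun p := (p.1, p.2 + p.1)
  left_inv := by
    rintro ⟨m, n⟩
    simp
  right_inv := by
    rintro ⟨m, n⟩
    simp

private def BRho_pc : Equiv.Perm (ℤ × ℤ) where
  toFun p := (p.1 + p.2 - 1, p.2)
  invFun p := (p.1 - p.2 + 1, p.2)
  left_inv := by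
    rintro ⟨m, n⟩
    refine Prod.ext ?_ rfl
    show m + n - 1 - n + 1 = m
    ring
  right_inv := by
    rintro ⟨m, n⟩
    refine Prod.ext ?_ rfl
    show m - n + 1 + n - 1 = m
    ring

theorem exists_π4 : ∃ π : G →* Equiv.Perm (ℤ × ℤ),
    (∀ p, π D.a p = (p.1 + p.2, p.2)) ∧ (∀ p, π D.b p = (p.1, p.2 - p.1)) ∧
      ∀ p, π D.c p = (p.1 + p.2 - 1, p.2) := by
  have e1 : BRho_pa * BRho_pb * BRho_pa = BRho_pb * BRho_pa * BRho_pb := by
    refine Equiv.ext ?_
    rintro ⟨m, n⟩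
    simp only [Equiv.Perm.mul_apply]
    refine Prod.ext ?_ ?_
    · show m + n + (n - (m + n)) = m + (n - m)
      ring
    · show n - (m + n) = n - m - (m + (n - m))
      ring
  have e2 : BRho_pa * BRho_pc = BRho_pc * BRho_pa := by
    refine Equiv.ext ?_
    rintro ⟨m, n⟩
    simp only [Equiv.Perm.mul_apply]
    refine Prod.ext ?_ rfl
    show m + n - 1 + n = m + n + n - 1
    ring
  have e3 : BRho_pb * BRho_pc * BRho_pb = BRho_pc * BRho_pb * BRho_pc := by
    refine Equiv.ext ?_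
    rintro ⟨m, n⟩
    simp only [Equiv.Perm.mul_apply]
    refine Prod.ext ?_ ?_
    · show m + (n - m) - 1 = m + n - 1 + (n - (m + n - 1)) - 1
      ring
    · show n - m - (m + (n - m) - 1) = n - (m + n - 1)
      ring
  obtain ⟨F, h1, h2, h3⟩ := D.lift BRho_pa BRho_pb BRho_pc e1 e2 e3
  refine ⟨F, ?_, ?_, ?_⟩
  · intro p
    rw [h1]
    rfl
  · intro p
    rw [h2]
    rfl
  · intro p
    rw [h3]
    rfl

/-- the action on the letters -/
noncomputable def B4.ρ : G →* MulAut (FreeGroup (ℤ × ℤ)) := (exists_ρ4 D).choose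

theorem B4.ρ_spec (g : G) (v : FreeGroup (ℤ × ℤ)) : P2 (D.ρ g v) = D.r g (P2 v) :=
  (exists_ρ4 D).choose_spec g v

/-- the permutation of the letters -/
noncomputable def B4.π : G →* Equiv.Perm (ℤ × ℤ) := (exists_π4 D).choose

theorem B4.π_spec : (∀ p, D.π D.a p = (p.1 + p.2, p.2)) ∧ (∀ p, D.π D.b p = (p.1, p.2 - p.1)) ∧
    ∀ p, D.π D.c p = (p.1 + p.2 - 1, p.2) := (exists_π4 D).choose_spec

private theorem BRho_key (g : G) (m n : ℤ) (f : F2)
    (hf : D.r g (of 0 ^ m * of 1 ^ n * k0 * (of 1 ^ n)⁻¹ * (of 0 ^ m)⁻¹) = f * k0 * f⁻¹) :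
    ∃ k, D.ρ g (of (m, n)) = k * of (ab f) * k⁻¹ := by
  obtain ⟨k, hk⟩ := conj_k0 f
  refine ⟨k, P2_inj ?_⟩
  rw [D.ρ_spec, ← hk, ← hf]
  simp [P2]

private theorem BRho_gen (g : G) (α : MulAut F2) (hα : D.r g = α) (m n : ℤ) :
    D.r g (of 0 ^ m * of 1 ^ n * k0 * (of 1 ^ n)⁻¹ * (of 0 ^ m)⁻¹) =
      α (of 0 ^ m * of 1 ^ n) * α k0 * (α (of 0 ^ m * of 1 ^ n))⁻¹ := by
  rw [hα]
  simp only [_root_.map_mul, _root_.map_inv, mul_inv_rev]
  group

theorem ρ_π (g : G) (i : ℤ × ℤ) : ∃ k, D.ρ g (of i) = k * of (D.π g i) * k⁻¹ := by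
  let K : Subgroup G :=
    { carrier := {g | ∀ i, ∃ k, D.ρ g (of i) = k * of (D.π g i) * k⁻¹}
      one_mem' := by
        intro i
        refine ⟨1, ?_⟩
        rw [_root_.map_one, _root_.map_one, one_mul, inv_one, mul_one]
        rfl
      mul_mem' := by
        intro g h hg hh i
        have h1 := mul_perm (D.ρ g) (D.ρ h) (D.π g) (D.π h) hg hh i
        rw [← _root_.map_mul, ← _root_.map_mul] at h1
        exact h1
      inv_mem' := by
        intro g hg i
        obtain ⟨k, hk⟩ := hg (D.π g⁻¹ i)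
        have h1 : D.π g (D.π g⁻¹ i) = i := by
          have h : D.π (g * g⁻¹) i = i := by
            rw [mul_inv_cancel, _root_.map_one]
            rfl
          rw [_root_.map_mul] at h
          exact h
        have h2 : ∀ w, D.ρ g⁻¹ (D.ρ g w) = w := by
          intro w
          have h : D.ρ (g⁻¹ * g) w = w := by
            rw [inv_mul_cancel, _root_.map_one]
            rfl
          rw [_root_.map_mul] at h
          exact h
        rw [h1] at hk
        have h3 := congrArg (D.ρ g⁻¹) hk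
        rw [h2] at h3
        have h4 : D.ρ g⁻¹ (k * of i * k⁻¹) = D.ρ g⁻¹ k * D.ρ g⁻¹ (of i) * (D.ρ g⁻¹ k)⁻¹ := by
          rw [MulEquiv.map_mul, MulEquiv.map_mul, MulEquiv.map_inv]
        rw [h4] at h3
        refine ⟨(D.ρ g⁻¹ k)⁻¹, ?_⟩
        rw [h3]
        group }
  refine D.mem_of K ?_ ?_ ?_ g i
  · rintro ⟨m, n⟩
    have h1 := BRho_key D D.a m n (αa (of 0 ^ m * of 1 ^ n)) (by
      rw [BRho_gen D D.a αa D.r_spec.1, αa_k0])
    rw [ab_αa, BRho_ab_pow] at h1
    rw [D.π_spec.1]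
    exact h1
  · rintro ⟨m, n⟩
    have h1 := BRho_key D D.b m n (αb (of 0 ^ m * of 1 ^ n)) (by
      rw [BRho_gen D D.b αb D.r_spec.2.1, αb_k0])
    rw [ab_αb, BRho_ab_pow] at h1
    rw [D.π_spec.2.1]
    exact h1
  · rintro ⟨m, n⟩
    have h1 := BRho_key D D.c m n (αc (of 0 ^ m * of 1 ^ n) * (of 0)⁻¹) (by
      rw [BRho_gen D D.c αc D.r_spec.2.2, αc_k0]
      group)
    rw [ab_mul, ab_inv, ab_αc, BRho_ab_pow, BRho_ab_x] at h1
    rw [D.π_spec.2.2]
    have h2 : ((m + n, n) + -((1 : ℤ), (0 : ℤ)) : ℤ × ℤ) = (m + n - 1, n) := by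
      refine Prod.ext ?_ ?_
      · show m + n + -1 = m + n - 1
        ring
      · show n + -0 = n
        ring
    have h3 : (((m, n) : ℤ × ℤ).1 + ((m, n) : ℤ × ℤ).2, ((m, n) : ℤ × ℤ).2) = (m + n, n) := rfl
    rw [h3, h2] at h1
    exact h1

theorem pt4_π (g : G) (i : ℤ × ℤ) :
    pt4 (D.π g i) = (D.L g : Matrix (Fin 3) (Fin 3) ℤ) *ᵥ pt4 i := by
  let K : Subgroup G :=
    { carrier := {g | ∀ i, pt4 (D.π g i) = (D.L g).1 *ᵥ pt4 i}
      one_mem' := by
        intro i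
        rw [_root_.map_one, _root_.map_one]
        show pt4 i = (1 : Matrix (Fin 3) (Fin 3) ℤ) *ᵥ pt4 i
        rw [Matrix.one_mulVec]
      mul_mem' := by
        intro g h hg hh i
        have h1 : pt4 (D.π g (D.π h i)) = (D.L g).1 *ᵥ pt4 (D.π h i) := hg _
        have h2 : pt4 (D.π h i) = (D.L h).1 *ᵥ pt4 i := hh i
        rw [h2, Matrix.mulVec_mulVec] at h1
        rw [_root_.map_mul, _root_.map_mul]
        exact h1
      inv_mem' := by
        intro g hg i
        have h1 : pt4 (D.π g (D.π g⁻¹ i)) = (D.L g).1 *ᵥ pt4 (D.π g⁻¹ i) := hg _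
        have h2 : D.π g (D.π g⁻¹ i) = i := by
          have h : D.π (g * g⁻¹) i = i := by
            rw [mul_inv_cancel, _root_.map_one]
            rfl
          rw [_root_.map_mul] at h
          exact h
        have h3 : (D.L g⁻¹).1 * (D.L g).1 = 1 := by
          have h : D.L (g⁻¹ * g) = 1 := by
            rw [inv_mul_cancel, _root_.map_one]
          rw [_root_.map_mul] at h
          exact congrArg Subtype.val h
        rw [h2] at h1
        show pt4 (D.π g⁻¹ i) = (D.L g⁻¹).1 *ᵥ pt4 i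
        rw [h1, Matrix.mulVec_mulVec, h3, Matrix.one_mulVec] }
  refine D.mem_of K ?_ ?_ ?_ g i
  · rintro ⟨m, n⟩
    show pt4 (D.π D.a (m, n)) = (D.L D.a).1 *ᵥ pt4 (m, n)
    rw [D.π_spec.1, D.L_spec.1]
    funext j
    fin_cases j
    · simp [pt4, LS1, Matrix.mulVec, dotProduct, Fin.sum_univ_three]
      ring
    · simp [pt4, LS1, Matrix.mulVec, dotProduct, Fin.sum_univ_three]
      ring
    · simp [pt4, LS1, Matrix.mulVec, dotProduct, Fin.sum_univ_three]
  · rintro ⟨m, n⟩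
    show pt4 (D.π D.b (m, n)) = (D.L D.b).1 *ᵥ pt4 (m, n)
    rw [D.π_spec.2.1, D.L_spec.2.1]
    funext j
    fin_cases j
    · simp [pt4, LS2, Matrix.mulVec, dotProduct, Fin.sum_univ_three]
    · simp [pt4, LS2, Matrix.mulVec, dotProduct, Fin.sum_univ_three]
      ring
    · simp [pt4, LS2, Matrix.mulVec, dotProduct, Fin.sum_univ_three]
      ring
  · rintro ⟨m, n⟩
    show pt4 (D.π D.c (m, n)) = (D.L D.c).1 *ᵥ pt4 (m, n)
    have hc : (D.L D.c).1 = !![0, -1, -2; 1, 2, 2; 0, 0, 1] := by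
      rw [D.L_spec.2.2]
      show LU1.1 * LU0.1 * LS1.1 = _
      decide
    rw [D.π_spec.2.2, hc]
    funext j
    fin_cases j
    · simp [pt4, Matrix.mulVec, dotProduct, Fin.sum_univ_three]
      ring
    · simp [pt4, Matrix.mulVec, dotProduct, Fin.sum_univ_three]
      ring
    · simp [pt4, Matrix.mulVec, dotProduct, Fin.sum_univ_three]

end Pool.Agent.Lib.MP_9dbb0e_al.DF
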