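import Pool.Agent.Lib.MP_9dbb0e_al.D.GPi

/-!
# JOB GInn: elements acting trivially

READ GPi.lean, GLin.lean, GIota.lean first.

PROOFS. (`open FreeGroup` makes `map_mul`, `mul_inv_rev` ambiguous: write `_root_.map_mul`.)
`fix_all7`: let `g (PP v) = PP v` for all `v`. Let `f : F7`. For every `v`: `φL (f * PP v * f⁻¹) = 1` (`PP_ker`), so `f * PP v * f⁻¹ = PP v'` and `g` fixes it: `g f * PP v * (g f)⁻¹ = f * PP v * f⁻¹`, so `h = f⁻¹ * g f` commutes with `PP v`. `PP (of (0, (0, some 0))) = x7 0` and `PP (of (0, (0, some 10))) = x7 6` (`PP_of`, `q7`, `s7`; `simp` / `decide +kernel`); `center_free` (MCt.lean): `h = 1`, `g f = f`.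
`inn7`: `L g = 1` implies `lin g = 1` (`L_lin7 g`: `embZ w = embZ (lin g *ᵥ w)` for all `w`, `embZ` injective; entries from `w = ![1, 0], ![0, 1]`; see `inn4` in `/team-store/MP_9dbb0e_al_DF_BInn.lean`). `lin_pm`: `g = ι f`; `φL f = L (ι f) = 1`, so `f = PP k` (`PP_ker`); `PP (ρ g v) = conj f (PP v) = PP (k * v * k⁻¹)`, `PP_inj`.
`span7`: the letters `i = (0, (0, some 1))`: `pt7 i = ![3, 0, 0]`; `(1, (0, some 1))`: `![9, -6, 0]`; `(0, (1, some 1))`: `![3, 6, -6]`. So `M` fixes `3 e0`, `9 e0 - 6 e1`, `3 e0 + 6 e1 - 6 e2`: compute the entries of `M` (three equations with three coordinates each, `Matrix.mulVec`, `dotProduct`, `Fin.sum_univ_three`; `omega`/`linarith`).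
`ker7'`: `c = g h g⁻¹ h⁻¹`, `D.ρ c = 1`: `D.r c (PP v) = PP v`, so `D.r c = 1` (`fix_all7`). For every `i`: `of i = ρ c (of i) = k * of (π c i) * k⁻¹` (`ρ_π7`), so `π c i = i` (`of_conj_of`, MCt.lean); `pt7 i = L c *ᵥ pt7 i` (`D.π_spec`); `span7`: `L c = 1`; `lin c = 1`, `c = ι f` (`lin_pm`), `conj f = D.r c = 1`, `f = 1` (`conj_inj`, letters `0 ≠ 1`); `c = 1`, so `g h = h g`.
`ker7r`: the same with `D.r c = 1` as hypothesis: `ρ c = 1` follows (`PP (ρ c v) = r c (PP v) = PP v`, `PP_inj`).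
-/

set_option autoImplicit false
set_option maxRecDepth 100000

namespace Pool.Agent.Lib.MP_9dbb0e_al.DF

open FreeGroup
open scoped Matrix

theorem fix_all7 (g : MulAut F7) (hg : ∀ v, g (PP v) = PP v) : g = 1 := by
  have hcomm : ∀ (f : F7) (v : FreeGroup I7), PP v * (f⁻¹ * g f) = f⁻¹ * g f * PP v := by
    intro f v
    obtain ⟨v', hv'⟩ : ∃ v', PP v' = f * PP v * f⁻¹ := by
      rw [PP_ker]
      have h1 : φL (PP v) = 1 := (PP_ker _).1 ⟨v, rfl⟩
      rw [_root_.map_mul, _root_.map_mul, h1, mul_one, ← _root_.map_mul, mul_inv_cancel,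
        _root_.map_one]
    have h2 := hg v'
    rw [hv', _root_.map_mul, _root_.map_mul, _root_.map_inv, hg] at h2
    have h3 : g f * PP v = f * PP v * f⁻¹ * g f := by
      rw [← h2]
      group
    rw [mul_assoc f⁻¹, h3]
    group
  have e0 : PP (of (0, (0, some 0))) = of (0 : Fin 7) := by
    rw [PP_of, zpow_zero, zpow_zero, one_mul, _root_.map_one, one_mul, inv_one, mul_one]
    rfl
  have e6 : PP (of (0, (0, some 10))) = of (6 : Fin 7) := by
    rw [PP_of, zpow_zero, zpow_zero, one_mul, _root_.map_one, one_mul, inv_one, mul_one]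
    rfl
  refine aut7_ext fun i => ?_
  have h1 : (x7 i)⁻¹ * g (x7 i) = 1 := by
    refine center_free (a := (0 : Fin 7)) (b := 6) (by decide) _ ?_ ?_
    · rw [← e0]
      exact hcomm _ _
    · rw [← e6]
      exact hcomm _ _
  rw [inv_mul_eq_one] at h1
  exact h1.symm

theorem span7 (M : SL3) (h : ∀ i, (M : Matrix (Fin 3) (Fin 3) ℤ) *ᵥ pt7 i = pt7 i) : M = 1 := by
  have p1 : pt7 (0, (0, some 1)) = ![3, 0, 0] := by
    funext i
    fin_cases i <;> rfl
  have p2 : pt7 (1, (0, some 1)) = ![9, -6, 0] := by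
    funext i
    fin_cases i <;> rfl
  have p3 : pt7 (0, (1, some 1)) = ![3, 6, -6] := by
    funext i
    fin_cases i <;> rfl
  have h1 := h (0, (0, some 1))
  have h2 := h (1, (0, some 1))
  have h3 := h (0, (1, some 1))
  rw [p1] at h1
  rw [p2] at h2
  rw [p3] at h3
  have key : ∀ i : Fin 3, M.1 i 0 * 3 = (![3, 0, 0] : Fin 3 → ℤ) i ∧
      M.1 i 0 * 9 - M.1 i 1 * 6 = (![9, -6, 0] : Fin 3 → ℤ) i ∧
      M.1 i 0 * 3 + M.1 i 1 * 6 - M.1 i 2 * 6 = (![3, 6, -6] : Fin 3 → ℤ) i := by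
    intro i
    have a := congrFun h1 i
    have b := congrFun h2 i
    have c := congrFun h3 i
    simp only [Matrix.mulVec, dotProduct, Fin.sum_univ_three] at a b c
    refine ⟨?_, ?_, ?_⟩
    · rw [← a]
      simp
    · rw [← b]
      simp
      ring
    · rw [← c]
      simp
      ring
  refine Subtype.ext ?_
  have k0 := key 0
  have k1 := key 1
  have k2 := key 2
  simp at k0 k1 k2
  ext i j
  fin_cases i <;> fin_cases j <;> simp <;> omega

private theorem gInn_embZ_inj {w w' : Fin 2 → ℤ} (h : embZ w = embZ w') : w = w' := by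
  have h0 := congrFun h 0
  have h2 := congrFun h 2
  have e0 : w 0 = w' 0 := h0
  have e2 : -w 1 = -w' 1 := h2
  funext i
  fin_cases i
  · exact e0
  · exact neg_injective e2

variable {G : Type} [Group G] (D : G2A G)

private theorem gInn_lin (g : G) (hg : D.L g = 1) : D.lin g = 1 := by
  have h1 := (L_lin7 D g).2
  have h2 : ∀ w : Fin 2 → ℤ, (D.lin g : Matrix (Fin 2) (Fin 2) ℤ) *ᵥ w = w := by
    intro w
    have h3 := h1 w
    have h4 : (D.L g : Matrix (Fin 3) (Fin 3) ℤ) *ᵥ embZ w =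
      embZ ((D.lin g : Matrix (Fin 2) (Fin 2) ℤ) *ᵥ w) := h3
    rw [hg, Matrix.SpecialLinearGroup.coe_one, Matrix.one_mulVec] at h4
    exact (gInn_embZ_inj h4).symm
  refine Subtype.ext ?_
  have h3 : (D.lin g : Matrix (Fin 2) (Fin 2) ℤ) = 1 := by
    refine Matrix.ext_of_mulVec_single fun i => ?_
    rw [h2, Matrix.one_mulVec]
  exact h3

theorem inn7 (g : G) (hg : D.L g = 1) : ∃ k, D.ρ g = MulAut.conj k := by
  obtain ⟨f, hf⟩ := lin_pm D g (Or.inl (gInn_lin D g hg))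
  have h1 : φL f = 1 := by
    rw [← L_ι7 D f, ← hf, hg]
  obtain ⟨k, hk⟩ := (PP_ker f).2 h1
  refine ⟨k, MulEquiv.ext fun v => PP_inj ?_⟩
  rw [D.ρ_spec, hf, r7_ι, MulAut.conj_apply, ← hk, MulAut.conj_apply, _root_.map_mul,
    _root_.map_mul, _root_.map_inv]

theorem ker7 (g h : G) (hc : D.ρ (g * h * g⁻¹ * h⁻¹) = 1) : g * h = h * g := by
  have hr : D.r (g * h * g⁻¹ * h⁻¹) = 1 := fix_all7 _ fun v => by
    rw [← D.ρ_spec, hc, MulAut.one_apply]
  have hL : D.L (g * h * g⁻¹ * h⁻¹) = 1 := by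
    refine span7 _ fun i => ?_
    obtain ⟨k, hk⟩ := ρ_π7 D (g * h * g⁻¹ * h⁻¹) i
    rw [hc, MulAut.one_apply] at hk
    have h1 := of_conj_of k hk.symm
    rw [← D.π_spec, h1]
  obtain ⟨f, hf⟩ := lin_pm D _ (Or.inl (gInn_lin D _ hL))
  rw [hf, r7_ι] at hr
  have hf1 : f = 1 := by
    refine conj_inj (show (0 : Fin 7) ≠ 1 by decide) ?_
    rw [hr, _root_.map_one]
  rw [hf1, _root_.map_one] at hf
  have h1 : g * h * g⁻¹ = h := mul_inv_eq_one.1 hf
  exact mul_inv_eq_iff_eq_mul.1 h1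

theorem ker7r (g h : G) (hc : D.r (g * h * g⁻¹ * h⁻¹) = 1) : g * h = h * g := by
  refine ker7 D g h (MulEquiv.ext fun v => PP_inj ?_)
  rw [D.ρ_spec, hc, MulAut.one_apply, MulAut.one_apply]

end Pool.Agent.Lib.MP_9dbb0e_al.DF
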