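import Pool.Agent.Lib.MP_9dbb0e_al.D.GPar
import Pool.Agent.Lib.MP_9dbb0e_al.D.GInn
import Pool.Agent.Lib.MP_9dbb0e_al.D.BPar

/-!
# JOB GPr: parabolic pairs in the Artin group of type `G₂~`

READ GTw.lean, GPar.lean, GInn.lean, GLin.lean (`lin_pm`), GIota.lean (`r7_ι`), BPar.lean (`Alt.map`, `Tz_mul`, `As_zpow`) first.

PROOFS. `r_par7`: `lin g = Tz (6 * k)`: `lin (g * (a ^ (6 * k))⁻¹) = 1` (`lin a = As`, `As_zpow`), `lin_pm`: `g = ι f * a ^ (6 * k)`; `r g = conj f * αA ^ (6 * k) = conj f * t7 ^ k` (`r7_ι`, `t7_pow`, `zpow_mul`), `= j7 ⟨f, ofAdd k⟩`.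
`par7`: `g ^ 6`, `h ^ 6` have the linear parts `Tz (6 * k)`, `Tz (6 * l)` (`Tz_mul`). `r_par7` gives `p, q : E7` with `j7 p = r (g ^ 6)`, `j7 q = r (h ^ 6)`. `PA_E7 p q : Alt p q`; `Alt.map j7 j7_inj`; `Alt.of_map D.r (ker7r D)`; `Alt.pow 6 6`.
-/

set_option autoImplicit false

namespace Pool.Agent.Lib.MP_9dbb0e_al.DF

open FreeGroup
open scoped Matrix

variable {G : Type} [Group G] (D : G2A G)

theorem r_par7 (g : G) (k : ℤ) (hg : D.lin g = Tz (6 * k)) : ∃ p : E7, j7 p = D.r g := by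
  have h1 : D.lin (g * (D.a ^ (6 * k))⁻¹) = 1 := by
    rw [_root_.map_mul, _root_.map_inv, map_zpow, hg, D.lin_spec.1, As_zpow, mul_inv_cancel]
  obtain ⟨f, hf⟩ := lin_pm D _ (Or.inl h1)
  have h2 : g = D.ι f * D.a ^ (6 * k) := by
    rw [← hf, inv_mul_cancel_right]
  have h3 : αA ^ (6 * k) = t7 ^ k := by
    rw [zpow_mul, t7_pow]
    congr 1
  refine ⟨⟨f, Multiplicative.ofAdd k⟩, ?_⟩
  rw [j7_apply, h2, _root_.map_mul, map_zpow, D.r_spec.1, r7_ι, h3]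
  rfl

private theorem GPr_pow (k : ℤ) (n : ℕ) : (Tz k) ^ n = Tz (n * k) := by
  rw [← As_zpow, ← As_zpow, ← zpow_natCast, ← zpow_mul, mul_comm]

theorem par7 (g h : G) (hg : ∃ k, D.lin g = Tz k) (hh : ∃ k, D.lin h = Tz k) : Alt g h := by
  obtain ⟨k, hk⟩ := hg
  obtain ⟨l, hl⟩ := hh
  have h1 : D.lin (g ^ 6) = Tz (6 * k) := by
    rw [map_pow, hk, GPr_pow]
    rfl
  have h2 : D.lin (h ^ 6) = Tz (6 * l) := by
    rw [map_pow, hl, GPr_pow]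
    rfl
  obtain ⟨p, hp⟩ := r_par7 D _ _ h1
  obtain ⟨q, hq⟩ := r_par7 D _ _ h2
  have h3 : Alt p q := PA_iff.mp PA_E7 p q
  have h4 := Alt.map j7 j7_inj h3
  rw [hp, hq] at h4
  exact Alt.pow 6 6 (by norm_num) (by norm_num) (Alt.of_map D.r (ker7r D) h4)

end Pool.Agent.Lib.MP_9dbb0e_al.DF
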