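import Pool.Agent.Lib.MP_9dbb0e_al.D.GDi
import Pool.Agent.Lib.MP_9dbb0e_al.D.GPr

/-!
# The power alternative for the Artin group of type `G₂~`
-/

set_option autoImplicit false

namespace Pool.Agent.Lib.MP_9dbb0e_al.DF

open FreeGroup
open scoped Matrix

variable {G : Type} [Group G] (D : G2A G)

include D in
theorem exists_AD7 : Nonempty (AD G I7) :=
  ⟨{ T := D.T
     L := D.L
     lin := D.lin
     hT := T_L7 D
     hL := L_lin7 D
     lin_surj := lin_surj7 D
     base := base7 D
     ρ := D.ρ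
     π := D.π
     hρ := ρ_π7 D
     pt := pt7
     pt_inj := pt7_inj
     s := 3
     pt_s := pt7_sum
     hπ := D.π_spec
     inn := inn7 D
     ker := ker7 D
     par := par7 D
     dich := dich7 D }⟩

include D in
theorem PA_G2A : PA G := by
  obtain ⟨E⟩ := exists_AD7 D
  exact AD_PA E

theorem PA_G2 {B : Type} (M : CoxeterMatrix B) {a b c : B} (hu : ∀ i, i = a ∨ i = b ∨ i = c)
    (hab : M.M a b = 3) (hac : M.M a c = 2) (hbc : M.M b c = 6) : PA (Art M) := by
  obtain ⟨D⟩ := G2A_of M hu hab hac hbc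
  exact PA_G2A D

end Pool.Agent.Lib.MP_9dbb0e_al.DF
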