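import Pool.Agent.Lib.MP_9dbb0e_al.GT.Main
import Pool.Agent.Lib.MP_9dbb0e_al.D.GMain
import Pool.Agent.Lib.MP_9dbb0e_al.D.BMain

/-!
# The power alternative for five types with three generators, without hypotheses
-/

set_option autoImplicit false

namespace Pool.Agent.Lib.MP_9dbb0e_al.DF

/-- The types `A₃`, `B₃`, `G₂~`, `C₂~`, `A₂~`. -/
theorem PA_five {B : Type} (M : CoxeterMatrix B) {a b c : B} (hu : ∀ i, i = a ∨ i = b ∨ i = c)
    (h : (M.M a b = 3 ∧ M.M b c = 3 ∧ M.M a c = 2) ∨ (M.M a b = 3 ∧ M.M b c = 4 ∧ M.M a c = 2) ∨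
      (M.M a b = 3 ∧ M.M b c = 6 ∧ M.M a c = 2) ∨ (M.M a b = 4 ∧ M.M b c = 4 ∧ M.M a c = 2) ∨
      (M.M a b = 3 ∧ M.M b c = 3 ∧ M.M a c = 3)) : PA (Art M) := by
  rcases h with h | h | h | h | h
  · obtain ⟨F, hF⟩ := GT.A3_embeds M hu h.1 h.2.2 h.2.1
    exact PA_of_injective F hF PA_braid4
  · obtain ⟨F, hF⟩ := GT.B3_embeds M hu h.1 h.2.2 h.2.1
    exact PA_of_injective F hF PA_braid4
  · exact PA_G2 M hu h.1 h.2.2 h.2.1
  · obtain ⟨F, hF⟩ := GT.C2_embeds M hu h.1 h.2.2 h.2.1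
    exact PA_of_injective F hF PA_braid4
  · obtain ⟨F, hF⟩ := GT.A2t_embeds M hu h.1 h.2.2 h.2.1
    exact PA_of_injective F hF PA_braid4

end Pool.Agent.Lib.MP_9dbb0e_al.DF
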