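import Pool.Agent.Lib.MP_9dbb0e_al.G3

/-!
# JOB GAm: amalgamated products over `ℤ × ℤ` with the power alternative

`Zm = Multiplicative ℤ`. `PA_amalg`: the amalgam `P` of `A` and `B` along `φA, φB : Zm × Zm →* A, B` with left inverses `ΦA, ΦB`.

PROOFS.
`exists_fz`: `F = MonoidHom.noncommCoprod (FreeGroup.lift f) (zpowersHom M u) comm` (`comm`: `Commute (FreeGroup.lift f w) (u ^ k)`: the subgroup of the elements commuting with `u` contains the `f i`; `FreeGroup.induction_on`). `F (w, k) = FreeGroup.lift f w * u ^ (toAdd k)`.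
`exists_zz`: the same with `zpowersHom M u`, `zpowersHom M v`.
`zz_ext`: `x : Zm × Zm`, `x = (ofAdd 1, 1) ^ m * (1, ofAdd 1) ^ n` with `m = toAdd x.1`, `n = toAdd x.2` (`Prod.ext`; `ofAdd_zsmul` / `Int` powers), `map_zpow`.
`fz_ext`: `(w, k) = (w, 1) * (1, ofAdd 1) ^ k`; `w ↦ F (w, 1)` is a hom of the free group: `FreeGroup.ext_hom`.
`PA_amalg`: `P = Monoid.PushoutI φ` (`G3.lean`: `pushout_PA`) for the family `G : Bool → Type`, `G = fun i => if i then A else B`: groups: use `Bool.rec`: `G i = Bool.rec B A i` with instance by cases; simpler: the family over `Fin 2` or `Bool` defined by `match`; `φ : ∀ i, Zm × Zm →* G i` by cases. Alternative without casts: index type `Option Unit`.. any way is fine; see how `E2`/`PushoutI` is used in `/team-store/MP_9dbb0e_al_DF_BPo.lean`.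
 A way which avoids dependent families: use `Bool` and `G i := A × B` for both? NO: use the `Bool.rec` family, `instance : ∀ i, Group (G i) | true => .. | false => ..`.
 `Φ : P →* Zm × Zm` by `PushoutI.lift` from `ΦA, ΦB` and `base ↦ id`; `Φ.comp (base φ) = id`, so injective. `φ i` injective by the left inverses. `PA (Zm × Zm)`: `PA_comm` (U.lean). `iA = PushoutI.of true`, `iB = PushoutI.of false`; `iA.comp φA = base = iB.comp φB` (`PushoutI.of_comp_eq_base`). The universal property: `PushoutI.lift` with `k = f.comp φA`.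
-/

set_option autoImplicit false

namespace Pool.Agent.Lib.MP_9dbb0e_al.DF

open Multiplicative

/-- the integers, multiplicatively -/
abbrev Zm : Type := Multiplicative ℤ

private theorem GAm_comm {n : ℕ} {M : Type} [Group M] (f : Fin n → M) (u : M)
    (h : ∀ i, u * f i = f i * u) (w : FreeGroup (Fin n)) : Commute (FreeGroup.lift f w) u := by
  induction w using FreeGroup.induction_on with
  | C1 => rw [map_one]; exact Commute.one_left u
  | of i => rw [FreeGroup.lift_apply_of]; exact (h i).symm
  | inv_of i _ => rw [map_inv, FreeGroup.lift_apply_of]; exact Commute.inv_left (h i).symm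
  | mul v w hv hw => rw [map_mul]; exact hv.mul_left hw

theorem exists_fz {n : ℕ} {M : Type} [Group M] (f : Fin n → M) (u : M)
    (h : ∀ i, u * f i = f i * u) :
    ∃ F : FreeGroup (Fin n) × Zm →* M, (∀ w, F (w, 1) = FreeGroup.lift f w) ∧
      (∀ i, F (FreeGroup.of i, 1) = f i) ∧ F (1, ofAdd 1) = u := by
  have hc : ∀ (w : FreeGroup (Fin n)) (k : Zm), Commute (FreeGroup.lift f w) (zpowersHom M u k) := by
    intro w k
    rw [zpowersHom_apply]
    exact (GAm_comm f u h w).zpow_right _
  have h1 : ∀ (w : FreeGroup (Fin n)) (k : Zm), MonoidHom.noncommCoprod (FreeGroup.lift f)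
      (zpowersHom M u) hc (w, k) = FreeGroup.lift f w * zpowersHom M u k := fun w k => rfl
  refine ⟨MonoidHom.noncommCoprod (FreeGroup.lift f) (zpowersHom M u) hc, fun w => ?_,
    fun i => ?_, ?_⟩
  · rw [h1, map_one, mul_one]
  · rw [h1, map_one, mul_one, FreeGroup.lift_apply_of]
  · rw [h1, map_one (FreeGroup.lift f), one_mul, zpowersHom_apply, toAdd_ofAdd, zpow_one]

theorem exists_zz {M : Type} [Group M] (u v : M) (h : u * v = v * u) :
    ∃ F : Zm × Zm →* M, F (ofAdd 1, 1) = u ∧ F (1, ofAdd 1) = v := by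
  have hc : ∀ j k : Zm, Commute (zpowersHom M u j) (zpowersHom M v k) := by
    intro j k
    rw [zpowersHom_apply, zpowersHom_apply]
    exact Commute.zpow_zpow h _ _
  have h1 : ∀ j k : Zm, MonoidHom.noncommCoprod (zpowersHom M u) (zpowersHom M v) hc (j, k) =
      zpowersHom M u j * zpowersHom M v k := fun j k => rfl
  refine ⟨MonoidHom.noncommCoprod (zpowersHom M u) (zpowersHom M v) hc, ?_, ?_⟩
  · rw [h1, map_one (zpowersHom M v), mul_one, zpowersHom_apply, toAdd_ofAdd, zpow_one]
  · rw [h1, map_one (zpowersHom M u), one_mul, zpowersHom_apply, toAdd_ofAdd, zpow_one]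

private theorem GAm_zm {M : Type} [Group M] {F F' : Zm →* M} (h : F (ofAdd 1) = F' (ofAdd 1)) :
    F = F' := MonoidHom.ext_mint h

private theorem GAm_prod {X Y M : Type} [Group X] [Group Y] [Group M] {F F' : X × Y →* M}
    (h1 : F.comp (MonoidHom.inl X Y) = F'.comp (MonoidHom.inl X Y))
    (h2 : F.comp (MonoidHom.inr X Y) = F'.comp (MonoidHom.inr X Y)) : F = F' := by
  refine MonoidHom.ext fun p => ?_
  obtain ⟨x, y⟩ := p
  have h3 : ((x, y) : X × Y) = (x, 1) * (1, y) := by
    rw [Prod.mk_mul_mk, mul_one, one_mul]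
  rw [h3, map_mul, map_mul]
  exact congrArg₂ (· * ·) (DFunLike.congr_fun h1 x) (DFunLike.congr_fun h2 y)

theorem zz_ext {M : Type} [Group M] {F F' : Zm × Zm →* M} (h1 : F (ofAdd 1, 1) = F' (ofAdd 1, 1))
    (h2 : F (1, ofAdd 1) = F' (1, ofAdd 1)) : F = F' :=
  GAm_prod (GAm_zm h1) (GAm_zm h2)

theorem fz_ext {n : ℕ} {M : Type} [Group M] {F F' : FreeGroup (Fin n) × Zm →* M}
    (h1 : ∀ i, F (FreeGroup.of i, 1) = F' (FreeGroup.of i, 1))
    (h2 : F (1, ofAdd 1) = F' (1, ofAdd 1)) : F = F' :=
  GAm_prod (FreeGroup.ext_hom _ _ h1) (GAm_zm h2)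

/-- the family of the two groups -/
private def GAm_G (A B : Type) : Bool → Type
  | true => A
  | false => B

private instance GAm_grp (A B : Type) [hA : Group A] [hB : Group B] : ∀ i, Group (GAm_G A B i)
  | true => hA
  | false => hB

private def GAm_φ {A B : Type} [Group A] [Group B] {H : Type} [Group H] (φA : H →* A) (φB : H →* B) :
    ∀ i, H →* GAm_G A B i
  | true => φA
  | false => φB

private def GAm_f {A B : Type} [Group A] [Group B] {M : Type} [Group M] (f : A →* M) (g : B →* M) :
    ∀ i, GAm_G A B i →* M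
  | true => f
  | false => g

open Monoid.PushoutI in
theorem PA_amalg {A B : Type} [Group A] [Group B] (φA : Zm × Zm →* A) (φB : Zm × Zm →* B)
    (ΦA : A →* Zm × Zm) (ΦB : B →* Zm × Zm) (hA : ΦA.comp φA = MonoidHom.id _)
    (hB : ΦB.comp φB = MonoidHom.id _) (hPA : PA A) (hPB : PA B) :
    ∃ (P : Type) (_ : Group P) (iA : A →* P) (iB : B →* P), PA P ∧ iA.comp φA = iB.comp φB ∧
      ∀ (M : Type) [Group M] (f : A →* M) (g : B →* M), f.comp φA = g.comp φB →
        ∃ F : P →* M, F.comp iA = f ∧ F.comp iB = g := by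
  obtain ⟨φ, hφ⟩ : ∃ φ : ∀ i, Zm × Zm →* GAm_G A B i, φ = GAm_φ φA φB := ⟨_, rfl⟩
  have hφt : φ true = φA := by rw [hφ]; rfl
  have hφf : φ false = φB := by rw [hφ]; rfl
  have hinj : ∀ i, Function.Injective (φ i) := by
    intro i
    cases i with
    | true =>
      rw [hφt]
      exact Function.LeftInverse.injective (g := ΦA) fun x => DFunLike.congr_fun hA x
    | false =>
      rw [hφf]
      exact Function.LeftInverse.injective (g := ΦB) fun x => DFunLike.congr_fun hB x
  have hlift : ∀ (M : Type) [Group M] (f : A →* M) (g : B →* M), f.comp φA = g.comp φB →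
      ∃ F : Monoid.PushoutI φ →* M, F.comp (of (φ := φ) true) = f ∧ F.comp (of (φ := φ) false) = g ∧
        F.comp (base φ) = f.comp φA := by
    intro M _ f g hfg
    have h1 : ∀ i, (GAm_f f g i).comp (φ i) = f.comp φA := by
      intro i
      cases i with
      | true => rw [hφt]; rfl
      | false => rw [hφf]; exact hfg.symm
    refine ⟨lift (GAm_f f g) (f.comp φA) h1, ?_, ?_, ?_⟩
    · refine MonoidHom.ext fun x => ?_
      exact lift_of (GAm_f f g) (f.comp φA) h1 x
    · refine MonoidHom.ext fun x => ?_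
      exact lift_of (GAm_f f g) (f.comp φA) h1 x
    · refine MonoidHom.ext fun x => ?_
      exact lift_base (GAm_f f g) (f.comp φA) h1 x
  have hcomm : ∀ x y : Zm × Zm, Commute x y := fun x y => mul_comm x y
  have hPG : ∀ i, PA (GAm_G A B i) := by
    intro i
    cases i with
    | true => exact hPA
    | false => exact hPB
  obtain ⟨Φ, -, -, hΦ⟩ := hlift (Zm × Zm) ΦA ΦB (hA.trans hB.symm)
  have hPP : PA (Monoid.PushoutI φ) := by
    refine pushout_PA φ hinj Φ ?_ (PA_comm hcomm) hPG (PA_comm hcomm)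
    rw [hΦ, hA]
    exact Function.injective_id
  refine ⟨Monoid.PushoutI φ, inferInstance, of (φ := φ) true, of (φ := φ) false, hPP, ?_, ?_⟩
  · have h1 : (of (φ := φ) true).comp (φ true) = base φ := of_comp_eq_base true
    have h2 : (of (φ := φ) false).comp (φ false) = base φ := of_comp_eq_base false
    rw [hφt] at h1
    rw [hφf] at h2
    exact h1.trans h2.symm
  · intro M _ f g hfg
    obtain ⟨F, h1, h2, -⟩ := hlift M f g hfg
    exact ⟨F, h1, h2⟩

end Pool.Agent.Lib.MP_9dbb0e_al.DF
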