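import Mathlib

/-!
# JOB KTh: a change of basis

Letters `x n = (n, none)` (`n : ℤ`) and `(n, some s)`. New basis: `none = x 0`, `d n = some (n, none) = x n * (x (n - 1))⁻¹`, and `some (n, some s) = (n, some s)`.

PROOFS. `th_surj`: the range contains `x 0` and all `x n` (`Int.induction_on`: `x n = d n * x (n - 1)`, `x (n - 1) = (d n)⁻¹ * x n`) and the `(n, some s)`.
`th_inj`: a left inverse: `z : ℤ → FreeGroup (Option (ℤ × Option S))` with `z 0 = of none`, `z n = of (some (n, none)) * z (n - 1)` for all `n`. Existence of `z`: for `n : ℕ` define `u 0 = of none`, `u (n + 1) = of (some (n + 1, none)) * u n` and `v 0 = of none`, `v (n + 1) = (of (some (- n, none)))⁻¹ * v n` (`v n` stands for `z (- n)`), and `z n = u n` for `n ≥ 0`,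
 `z (- n) = v n` (`Int.rec` or `if 0 ≤ n then u n.toNat else v (-n).toNat`). Then `FreeGroup.lift (fun p => match p.2 with | none => z p.1 | some s => of (some (p.1, some s)))` composed with `th` is the identity on the letters.
-/

set_option autoImplicit false

namespace Pool.Agent.Lib.MP_9dbb0e_al.DF

open FreeGroup

variable (S : Type)

/-- the images of the new basis -/
def thF : Option (ℤ × Option S) → FreeGroup (ℤ × Option S)
  | none => of (0, none)
  | some (n, none) => of (n, none) * (of (n - 1, none))⁻¹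
  | some (n, some s) => of (n, some s)

/-- the change of basis -/
def th : FreeGroup (Option (ℤ × Option S)) →* FreeGroup (ℤ × Option S) := FreeGroup.lift (thF S)

private theorem KTh_z {G : Type*} [Group G] (d : ℤ → G) (x0 : G) :
    ∃ z : ℤ → G, z 0 = x0 ∧ ∀ n, z n = d n * z (n - 1) := by
  obtain ⟨u, hu0, hu⟩ : ∃ u : ℕ → G, u 0 = x0 ∧ ∀ n : ℕ, u (n + 1) = d ((n : ℤ) + 1) * u n :=
    ⟨fun n => Nat.rec x0 (fun n x => d ((n : ℤ) + 1) * x) n, rfl, fun n => rfl⟩
  obtain ⟨v, hv0, hv⟩ : ∃ v : ℕ → G, v 0 = x0 ∧ ∀ n : ℕ, v (n + 1) = (d (-(n : ℤ)))⁻¹ * v n :=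
    ⟨fun n => Nat.rec x0 (fun n x => (d (-(n : ℤ)))⁻¹ * x) n, rfl, fun n => rfl⟩
  refine ⟨fun n => if 0 ≤ n then u n.toNat else v (-n).toNat, ?_, ?_⟩
  · simp [hu0]
  · intro n
    change (if 0 ≤ n then u n.toNat else v (-n).toNat) =
      d n * (if 0 ≤ n - 1 then u (n - 1).toNat else v (-(n - 1)).toNat)
    rcases lt_trichotomy n 0 with h | h | h
    · rw [if_neg (by omega), if_neg (by omega)]
      obtain ⟨k, hk⟩ : ∃ k : ℕ, k = (-n).toNat := ⟨_, rfl⟩
      have e1 : (-(n - 1)).toNat = k + 1 := by omega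
      have e2 : n = -(k : ℤ) := by omega
      rw [e1, ← hk, hv, ← e2, mul_inv_cancel_left]
    · subst h
      rw [if_pos (by omega), if_neg (by omega)]
      have e1 : (-((0 : ℤ) - 1)).toNat = 0 + 1 := by omega
      have e2 : (0 : ℤ).toNat = 0 := rfl
      rw [e1, e2, hv, hv0, hu0]
      simp
    · rw [if_pos (by omega), if_pos (by omega)]
      obtain ⟨k, hk⟩ : ∃ k : ℕ, k = (n - 1).toNat := ⟨_, rfl⟩
      have e1 : n.toNat = k + 1 := by omega
      have e2 : (k : ℤ) + 1 = n := by omega
      rw [← hk, e1, hu, e2]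

theorem exists_z : ∃ z : ℤ → FreeGroup (Option (ℤ × Option S)), z 0 = of none ∧
    ∀ n, z n = of (some (n, none)) * z (n - 1) := by
  exact KTh_z (fun n => of (some (n, none))) (of none)

theorem th_inj : Function.Injective (th S) := by
  obtain ⟨z, hz0, hz⟩ := exists_z S
  obtain ⟨g, hg⟩ : ∃ g : ℤ × Option S → FreeGroup (Option (ℤ × Option S)),
      (∀ n, g (n, none) = z n) ∧ ∀ n s, g (n, some s) = of (some (n, some s)) :=
    ⟨fun p => Option.rec (z p.1) (fun s => of (some (p.1, some s))) p.2, fun n => rfl,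
      fun n s => rfl⟩
  have e : (FreeGroup.lift g).comp (th S) = MonoidHom.id _ := by
    refine FreeGroup.ext_hom _ _ ?_
    intro o
    rw [MonoidHom.comp_apply, MonoidHom.id_apply]
    unfold th
    rw [FreeGroup.lift_apply_of]
    rcases o with _ | ⟨n, _ | s⟩
    · change FreeGroup.lift g (of (0, none)) = _
      rw [FreeGroup.lift_apply_of, hg.1, hz0]
    · change FreeGroup.lift g (of (n, none) * (of (n - 1, none))⁻¹) = _
      rw [_root_.map_mul, _root_.map_inv, FreeGroup.lift_apply_of, FreeGroup.lift_apply_of, hg.1,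
        hg.1, hz n, mul_inv_cancel_right]
    · change FreeGroup.lift g (of (n, some s)) = _
      rw [FreeGroup.lift_apply_of, hg.2]
  refine Function.LeftInverse.injective (g := FreeGroup.lift g) fun x => ?_
  exact DFunLike.congr_fun e x

theorem th_surj : Function.Surjective (th S) := by
  have h1 : ∀ o, th S (of o) = thF S o := by
    intro o
    unfold th
    rw [FreeGroup.lift_apply_of]
  have hx : ∀ n : ℤ, (of (n, none) : FreeGroup (ℤ × Option S)) ∈ (th S).range := by
    intro n
    have hd : ∀ m : ℤ, (of (m, none) * (of (m - 1, none))⁻¹ : FreeGroup (ℤ × Option S)) ∈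
        (th S).range := fun m => ⟨of (some (m, none)), h1 _⟩
    induction n using Int.induction_on with
    | zero => exact ⟨of none, h1 _⟩
    | succ i ih =>
      have h2 := Subgroup.mul_mem _ (hd ((i : ℤ) + 1)) ih
      rw [add_sub_cancel_right, inv_mul_cancel_right] at h2
      exact h2
    | pred i ih =>
      have h2 := Subgroup.mul_mem _ (Subgroup.inv_mem _ (hd (-(i : ℤ)))) ih
      rw [_root_.mul_inv_rev, inv_inv, inv_mul_cancel_right] at h2
      exact h2
  have hall : ∀ w : FreeGroup (ℤ × Option S), w ∈ (th S).range := by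
    intro w
    refine FreeGroup.induction_on w (Subgroup.one_mem _) ?_ ?_ ?_
    · rintro ⟨n, _ | s⟩
      · exact hx n
      · exact ⟨of (some (n, some s)), h1 _⟩
    · intro p hp
      exact Subgroup.inv_mem _ hp
    · intro x y hx hy
      exact Subgroup.mul_mem _ hx hy
  intro w
  exact hall w

end Pool.Agent.Lib.MP_9dbb0e_al.DF
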