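import Pool.Agent.Lib.MP_9dbb0e_al.D.KRs
import Pool.Agent.Lib.MP_9dbb0e_al.D.KTh

/-!
# JOB KBas: the basis of the kernel of the map to `ℤ ^ 2`

Letters of `FreeGroup (Option (Option S))`: `y = none`, `x = some none`, `some (some s)`. `kb`: `(m, (n, none)) ↦ x ^ m y ^ n (x y⁻¹ x⁻¹ y) y ^ (-n) x ^ (-m)`, `(m, (n, some s)) ↦ x ^ m y ^ n s y ^ (-n) x ^ (-m)`.

PROOFS. (`open FreeGroup` makes `map_mul` ambiguous: write `_root_.map_mul`.)
`kb_eq`: `kb S = (rsO (Option S)).comp ((th S).comp (rsO (ℤ × Option S)))`: `FreeGroup.ext_hom` on `(m, (n, t))`: `rsO (ℤ × Option S) (of (m, (n, t))) = of none ^ m * of (some (n, t)) * of none ^ (-m)`; `th`: `of (0, none) ^ m * thF (some (n, t)) * ..`; `rsO (Option S)`: `of (0, none) ↦ y ^ 0 * x * y ^ 0 = x`,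
 `of (n, none) * (of (n - 1, none))⁻¹ ↦ y ^ n x y ^ (-n) (y ^ (n - 1) x y ^ (-(n - 1)))⁻¹ = y ^ n (x y⁻¹ x⁻¹ y) y ^ (-n)`; `group` may need help with the exponents (`zpow_sub_one`, `zpow_neg`).
`kb_inj`: composition of injective maps.
`kb_range`: `←`: `wd none w = 1`: `w = rsO w₁`; `w₁ = th w₂` (`th_surj`); claim `wd none w₂ = wd (some none) w`: both sides are homs in `w₂` (`wd (some none) ∘ rsO ∘ th` and `wd none`): on the letters: `none ↦ x`: exponent one; `some (n, none)`: exponent `1 - 1 = 0`; `some (n, some s)`: `0`. So `w₂ = rsO w₃`. `→`: `kb` of every letter has both exponents `0`.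
-/

set_option autoImplicit false

namespace Pool.Agent.Lib.MP_9dbb0e_al.DF

open FreeGroup

variable (S : Type) [DecidableEq S]

/-- the central words -/
def kbF : Option S → FreeGroup (Option (Option S))
  | none => of (some none) * (of none)⁻¹ * (of (some none))⁻¹ * of none
  | some s => of (some (some s))

/-- the basis of the kernel -/
def kb : FreeGroup (ℤ × (ℤ × Option S)) →* FreeGroup (Option (Option S)) :=
  FreeGroup.lift fun p => of (some none) ^ p.1 * of none ^ p.2.1 * kbF S p.2.2 *
    (of none ^ p.2.1)⁻¹ * (of (some none) ^ p.1)⁻¹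

private theorem KBas_g {G : Type*} [Group G] (X Y : G) (n : ℤ) :
    Y ^ n * X * Y ^ (-n) * (Y ^ (n - 1) * X * Y ^ (-(n - 1)))⁻¹ =
      Y ^ n * (X * Y⁻¹ * X⁻¹ * Y) * (Y ^ n)⁻¹ := by
  have e1 : Y ^ (n - 1) = Y ^ n * Y⁻¹ := zpow_sub_one Y n
  rw [zpow_neg, zpow_neg, e1]
  group

private theorem KBas_z {G : Type*} [Group G] (X Y : G) : Y ^ (0 : ℤ) * X * Y ^ (-(0 : ℤ)) = X := by
  simp

private theorem KBas_rs (T : Type) [DecidableEq T] (p : ℤ × T) :
    rsO T (of p) = of none ^ p.1 * of (some p.2) * of none ^ (-p.1) := by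
  unfold rsO
  rw [FreeGroup.lift_apply_of]

private theorem KBas_th (o : Option (ℤ × Option S)) : th S (of o) = thF S o := by
  unfold th
  rw [FreeGroup.lift_apply_of]

private theorem KBas_kb (p : ℤ × (ℤ × Option S)) : kb S (of p) =
    of (some none) ^ p.1 * of none ^ p.2.1 * kbF S p.2.2 *
      (of none ^ p.2.1)⁻¹ * (of (some none) ^ p.1)⁻¹ := by
  unfold kb
  rw [FreeGroup.lift_apply_of]

private theorem KBas_wd {I : Type} [DecidableEq I] (x i : I) :
    wd x (of i) = if i = x then Multiplicative.ofAdd 1 else 1 := by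
  unfold wd
  rw [FreeGroup.lift_apply_of]

theorem kb_eq : kb S = (rsO (Option S)).comp ((th S).comp (rsO (ℤ × Option S))) := by
  refine FreeGroup.ext_hom _ _ ?_
  rintro ⟨m, n, t⟩
  have e0 : rsO (Option S) (of ((0 : ℤ), none)) = of (some none) := by
    rw [KBas_rs]
    exact KBas_z _ _
  have e1 : th S (of none) = of (0, none) := KBas_th S none
  rw [MonoidHom.comp_apply, MonoidHom.comp_apply, KBas_rs, KBas_kb]
  simp only [_root_.map_mul, _root_.map_zpow, e1, e0]
  rw [KBas_th]
  change of (some none) ^ m * of none ^ n * kbF S t * (of none ^ n)⁻¹ * (of (some none) ^ m)⁻¹ =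
    of (some none) ^ m * rsO (Option S) (thF S (some (n, t))) * of (some none) ^ (-m)
  have e2 : rsO (Option S) (thF S (some (n, t))) = of none ^ n * kbF S t * (of none ^ n)⁻¹ := by
    rcases t with _ | s
    · change rsO (Option S) (of (n, none) * (of (n - 1, none))⁻¹) = _
      rw [_root_.map_mul, _root_.map_inv, KBas_rs, KBas_rs]
      exact KBas_g _ _ n
    · change rsO (Option S) (of (n, some s)) = _
      rw [KBas_rs, zpow_neg]
      rfl
  rw [e2, zpow_neg]
  group

theorem kb_inj : Function.Injective (kb S) := by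
  rw [kb_eq, MonoidHom.coe_comp, MonoidHom.coe_comp]
  exact (rsO_inj _).comp ((th_inj S).comp (rsO_inj _))

theorem kb_range (w : FreeGroup (Option (Option S))) :
    (∃ v, kb S v = w) ↔ wd none w = 1 ∧ wd (some none) w = 1 := by
  constructor
  · rintro ⟨v, rfl⟩
    have h1 : (wd (none : Option (Option S))).comp (kb S) = 1 := by
      refine FreeGroup.ext_hom _ _ ?_
      rintro ⟨m, n, t⟩
      rw [MonoidHom.comp_apply, KBas_kb]
      have e : wd (none : Option (Option S)) (kbF S t) = 1 := by
        rcases t with _ | s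
        · change wd none (of (some none) * (of none)⁻¹ * (of (some none))⁻¹ * of none) = _
          simp only [_root_.map_mul, _root_.map_inv, KBas_wd]
          simp
        · change wd none (of (some (some s))) = _
          rw [KBas_wd]
          simp
      simp only [_root_.map_mul, _root_.map_inv, _root_.map_zpow, KBas_wd, e]
      simp
    have h2 : (wd (some none : Option (Option S))).comp (kb S) = 1 := by
      refine FreeGroup.ext_hom _ _ ?_
      rintro ⟨m, n, t⟩
      rw [MonoidHom.comp_apply, KBas_kb]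
      have e : wd (some none : Option (Option S)) (kbF S t) = 1 := by
        rcases t with _ | s
        · change wd (some none) (of (some none) * (of none)⁻¹ * (of (some none))⁻¹ * of none) = _
          simp only [_root_.map_mul, _root_.map_inv, KBas_wd]
          simp
        · change wd (some none) (of (some (some s))) = _
          rw [KBas_wd]
          simp
      simp only [_root_.map_mul, _root_.map_inv, _root_.map_zpow, KBas_wd, e]
      simp
    exact ⟨DFunLike.congr_fun h1 v, DFunLike.congr_fun h2 v⟩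
  · rintro ⟨h1, h2⟩
    obtain ⟨w1, rfl⟩ := (rsO_range (Option S) w).2 h1
    obtain ⟨w2, rfl⟩ := th_surj S w1
    have h3 : wd (none : Option (ℤ × Option S)) =
        (wd (some none : Option (Option S))).comp ((rsO (Option S)).comp (th S)) := by
      refine FreeGroup.ext_hom _ _ ?_
      intro o
      rw [MonoidHom.comp_apply, MonoidHom.comp_apply, KBas_wd, KBas_th]
      rcases o with _ | ⟨n, _ | s⟩
      · change _ = wd (some none) (rsO (Option S) (of (0, none)))
        rw [KBas_rs]
        simp only [_root_.map_mul, _root_.map_zpow, KBas_wd]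
        simp
      · change _ = wd (some none) (rsO (Option S) (of (n, none) * (of (n - 1, none))⁻¹))
        rw [_root_.map_mul, _root_.map_inv, KBas_rs, KBas_rs]
        simp only [_root_.map_mul, _root_.map_inv, _root_.map_zpow, KBas_wd]
        simp
      · change _ = wd (some none) (rsO (Option S) (of (n, some s)))
        rw [KBas_rs]
        simp only [_root_.map_mul, _root_.map_zpow, KBas_wd]
        simp
    have h4 : wd (none : Option (ℤ × Option S)) w2 = 1 := by
      rw [h3]
      exact h2
    obtain ⟨w3, rfl⟩ := (rsO_range (ℤ × Option S) w2).2 h4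
    exact ⟨w3, by rw [kb_eq]; rfl⟩

end Pool.Agent.Lib.MP_9dbb0e_al.DF
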