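import Pool.Agent.Lib.MP_9dbb0e_al.D.GDefs
import Pool.Agent.Lib.MP_9dbb0e_al.D.KBas

/-!
# Words in the free group of rank seven

`sg`: the sign (odd letters `-1`). `j13`: the basis of its kernel, with the letters `none` (`Y`), `some none` (`X`), `some (some s)`.
`q7`: the twelve classes, `PP`: the basis of the kernel of the action on the plane. `pt7`: the points. `Rl`: the relation between conjugates of letters and points.
-/

set_option autoImplicit false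
set_option maxRecDepth 100000

namespace Pool.Agent.Lib.MP_9dbb0e_al.DF

open FreeGroup
open scoped Matrix

/-- the free group of rank thirteen -/
abbrev F13 : Type := FreeGroup (Option (Option (Fin 11)))

def X13 : F13 := of (some none)

def Y13 : F13 := of none

def s13 (s : Fin 11) : F13 := of (some (some s))

/-- the images of the eleven letters -/
def s7 : Fin 11 → F7 :=
  ![x7 0, x7 1 * x7 1, (x7 1)⁻¹ * x7 2 * x7 1, (x7 1)⁻¹ * x7 3 * x7 4 * (x7 3)⁻¹ * x7 1,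
    (x7 1)⁻¹ * x7 3 * x7 5 * x7 5 * (x7 3)⁻¹ * x7 1,
    (x7 5)⁻¹ * x7 3 * (x7 1)⁻¹ * x7 6 * x7 1 * (x7 3)⁻¹ * x7 5,
    (x7 5)⁻¹ * x7 3 * (x7 1)⁻¹ * x7 0 * x7 1 * (x7 3)⁻¹ * x7 5,
    (x7 5)⁻¹ * x7 3 * x7 2 * (x7 3)⁻¹ * x7 5, (x7 5)⁻¹ * x7 3 * x7 3 * x7 5,
    (x7 5)⁻¹ * x7 4 * x7 5, x7 6]

/-- the images of the thirteen letters -/
def jF : Option (Option (Fin 11)) → F7
  | none => (x7 3)⁻¹ * x7 5
  | some none => (x7 1)⁻¹ * x7 3
  | some (some s) => s7 s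

/-- the map of the free group of rank thirteen -/
def j13 : F13 →* F7 := FreeGroup.lift jF

/-- the sign -/
def sg : F7 →* ℤˣ := FreeGroup.lift ![1, -1, 1, -1, 1, -1, 1]

/-- the representatives of the two cosets -/
def rp (e : Bool) : F7 := if e then x7 1 else 1

/-- the change of the coset -/
def tg (i : Fin 7) (e : Bool) : Bool := if i = 1 ∨ i = 3 ∨ i = 5 then !e else e

/-- the cocycle -/
def mv (i : Fin 7) (e : Bool) : F13 :=
  if e then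
    ![Y13 * s13 6 * Y13⁻¹, s13 1, s13 2, Y13 * s13 8 * Y13⁻¹ * X13⁻¹,
      X13 * Y13 * s13 9 * Y13⁻¹ * X13⁻¹, X13⁻¹ * s13 4 * X13 * Y13⁻¹ * X13⁻¹, Y13 * s13 5 * Y13⁻¹] i
  else
    ![s13 0, 1, Y13 * s13 7 * Y13⁻¹, X13, X13⁻¹ * s13 3 * X13, X13 * Y13, s13 10] i

theorem mv_spec : ∀ i e, x7 i * rp e = rp (tg i e) * j13 (mv i e) := by decide +kernel

theorem tg_tg : ∀ i e, tg i (tg i e) = e := by decide

/-- a letter acts on the pairs of a coset and an element -/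
def ax (i : Fin 7) : Equiv.Perm (Bool × F13) where
  toFun p := (tg i p.1, mv i p.1 * p.2)
  invFun p := (tg i p.1, (mv i (tg i p.1))⁻¹ * p.2)
  left_inv := by
    rintro ⟨e, w⟩
    simp only [tg_tg, inv_mul_cancel_left]
  right_inv := by
    rintro ⟨e, w⟩
    simp only [tg_tg, mul_inv_cancel_left]

/-- the action -/
def act13 : F7 →* Equiv.Perm (Bool × F13) := FreeGroup.lift ax

theorem act13_X : act13 (jF (some none)) (false, 1) = (false, X13) := by decide +kernel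

theorem act13_Y : act13 (jF none) (false, 1) = (false, Y13) := by decide +kernel

theorem act13_s : ∀ s, act13 (s7 s) (false, 1) = (false, s13 s) := by decide +kernel

/-- the index set of the basis -/
abbrev I7 : Type := ℤ × (ℤ × Option (Fin 11))

/-- the twelve classes -/
def q7 : Option (Fin 11) → F7
  | none => P7 * P7
  | some s => s7 s

theorem P7_sq : P7 * P7 = s7 0 * s7 1 * s7 2 * s7 3 * s7 4 *
    (jF (some none) * (jF none)⁻¹ * (jF (some none))⁻¹ * jF none) *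
    (s7 5 * s7 6 * s7 7 * s7 8 * s7 9 * s7 10) := by decide +kernel

/-- the basis of the kernel of the action on the plane -/
def PP : FreeGroup I7 →* F7 :=
  FreeGroup.lift fun p => j13 (X13 ^ p.1 * Y13 ^ p.2.1) * q7 p.2.2 * (j13 (X13 ^ p.1 * Y13 ^ p.2.1))⁻¹

/-- the points of the classes -/
def pts : Option (Fin 11) → Fin 3 → ℤ
  | none => ![3, -3, 3]
  | some s => ![![3, -1, 1], ![3, 0, 0], ![5, -3, 1], ![7, -5, 1], ![6, -6, 3], ![5, -5, 3],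
      ![3, -5, 5], ![1, -3, 5], ![0, -3, 6], ![-1, -1, 5], ![1, -1, 3]] s

/-- the points of the letters -/
def pt7 (i : I7) : Fin 3 → ℤ := pts i.2.2 + embZ ![6 * i.1, 6 * i.2.1]

/-- the action on the plane -/
def φL : F7 →* SL3 := FreeGroup.lift ![1, LU0, 1, LU1, 1, LU2, 1]

/-- the elements of the relation: letters, squares of odd letters, the square of the product -/
def y8 : Fin 8 → F7 :=
  ![x7 0, x7 1 * x7 1, x7 2, x7 3 * x7 3, x7 4, x7 5 * x7 5, x7 6, P7 * P7]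

/-- their points -/
def p8 : Fin 8 → Fin 3 → ℤ :=
  ![![3, -1, 1], ![3, 0, 0], ![1, 3, -1], ![0, 3, 0], ![1, 1, 1], ![0, 0, 3], ![1, -1, 3],
    ![3, -3, 3]]

/-- the relation between conjugates of letters and points -/
def Rl (z : F7) (v : Fin 3 → ℤ) : Prop :=
  ∃ (j : Fin 8) (f : F7), z = f * y8 j * f⁻¹ ∧ v = (φL f : Matrix (Fin 3) (Fin 3) ℤ) *ᵥ p8 j

/-- tables for the automorphisms -/
def tA : Fin 8 → Fin 8 := ![2, 3, 4, 1, 0, 5, 6, 7]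

def hA : Fin 8 → F7 := ![x7 0 * x7 1, x7 0 * x7 1, x7 0 * x7 1, x7 0, 1, 1, 1, 1]

def tA' : Fin 8 → Fin 8 := ![4, 3, 0, 1, 2, 5, 6, 7]

def hA' : Fin 8 → F7 := ![1, (x7 4)⁻¹, (x7 4)⁻¹ * (x7 3)⁻¹, (x7 4)⁻¹ * (x7 3)⁻¹,
  (x7 4)⁻¹ * (x7 3)⁻¹, 1, 1, 1]

def tB : Fin 8 → Fin 8 := ![0, 1, 6, 5, 2, 3, 4, 7]

def hB : Fin 8 → F7 := ![1, 1, x7 2 * x7 3 * x7 4 * x7 5, x7 2 * x7 3 * x7 4, 1, 1, 1, 1]

def tB' : Fin 8 → Fin 8 := ![0, 1, 4, 5, 6, 3, 2, 7]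

def hB' : Fin 8 → F7 := ![1, 1, 1, 1, 1, (x7 4 * x7 5 * x7 6)⁻¹, (x7 3 * x7 4 * x7 5 * x7 6)⁻¹, 1]

theorem dA : ∀ j, αA (y8 j) = hA j * y8 (tA j) * (hA j)⁻¹ := by decide +kernel

theorem dA' : ∀ j, αA⁻¹ (y8 j) = hA' j * y8 (tA' j) * (hA' j)⁻¹ := by decide +kernel

theorem dB : ∀ j, αB (y8 j) = hB j * y8 (tB j) * (hB j)⁻¹ := by decide +kernel

theorem dB' : ∀ j, αB⁻¹ (y8 j) = hB' j * y8 (tB' j) * (hB' j)⁻¹ := by decide +kernel

theorem eA : ∀ j, (LS1 : Matrix (Fin 3) (Fin 3) ℤ) *ᵥ p8 j =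
    (φL (hA j) : Matrix (Fin 3) (Fin 3) ℤ) *ᵥ p8 (tA j) := by decide +kernel

theorem eB : ∀ j, (LS2 : Matrix (Fin 3) (Fin 3) ℤ) *ᵥ p8 j =
    (φL (hB j) : Matrix (Fin 3) (Fin 3) ℤ) *ᵥ p8 (tB j) := by decide +kernel

theorem eA' : ∀ j, ((LS1⁻¹ : SL3) : Matrix (Fin 3) (Fin 3) ℤ) *ᵥ p8 j =
    (φL (hA' j) : Matrix (Fin 3) (Fin 3) ℤ) *ᵥ p8 (tA' j) := by decide +kernel

theorem eB' : ∀ j, ((LS2⁻¹ : SL3) : Matrix (Fin 3) (Fin 3) ℤ) *ᵥ p8 j =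
    (φL (hB' j) : Matrix (Fin 3) (Fin 3) ℤ) *ᵥ p8 (tB' j) := by decide +kernel

theorem φL_A7 : ∀ i, φL (αA (x7 i)) = LS1 * φL (x7 i) * LS1⁻¹ := by decide +kernel

theorem φL_B7 : ∀ i, φL (αB (x7 i)) = LS2 * φL (x7 i) * LS2⁻¹ := by decide +kernel

/-- the classes as conjugates -/
def jo : Option (Fin 11) → Fin 8
  | none => 7
  | some s => ![0, 1, 2, 4, 5, 6, 0, 2, 3, 4, 6] s

def fo : Option (Fin 11) → F7
  | none => 1
  | some s => ![1, 1, (x7 1)⁻¹, (x7 1)⁻¹ * x7 3, (x7 1)⁻¹ * x7 3, (x7 5)⁻¹ * x7 3 * (x7 1)⁻¹,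
      (x7 5)⁻¹ * x7 3 * (x7 1)⁻¹, (x7 5)⁻¹ * x7 3, (x7 5)⁻¹, (x7 5)⁻¹, 1] s

theorem d_o : ∀ o, q7 o = fo o * y8 (jo o) * (fo o)⁻¹ := by decide +kernel

theorem e_o : ∀ o, pts o = (φL (fo o) : Matrix (Fin 3) (Fin 3) ℤ) *ᵥ p8 (jo o) := by
  decide +kernel

/-- the base cases -/
def oo (j : Fin 8) (e : Bool) : Option (Fin 11) :=
  if e then ![some 6, some 1, some 2, some 8, some 9, some 4, some 5, none] j
  else ![some 0, some 1, some 7, some 8, some 3, some 4, some 10, none] j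

def ou (j : Fin 8) (e : Bool) : F13 :=
  if e then ![Y13, 1, 1, X13 * Y13, X13 * Y13, X13 * Y13 * X13⁻¹, Y13,
    Y13 * s13 6 * s13 7 * s13 8 * s13 9 * s13 10] j
  else ![1, 1, Y13, Y13, X13⁻¹, X13⁻¹, 1, 1] j

theorem d_base : ∀ j e, (rp e)⁻¹ * y8 j * rp e =
    j13 (ou j e) * q7 (oo j e) * (j13 (ou j e))⁻¹ := by decide +kernel

theorem e_base : ∀ j e, (φL ((j13 (ou j e))⁻¹ * (rp e)⁻¹) : Matrix (Fin 3) (Fin 3) ℤ) *ᵥ p8 j =
    pts (oo j e) := by decide +kernel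

end Pool.Agent.Lib.MP_9dbb0e_al.DF
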