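import Pool.Agent.Lib.MP_9dbb0e_al.D.TRel
import Pool.Agent.Lib.MP_9dbb0e_al.D.TLin

/-!
# The Artin group of type `G₂~`, abstractly, and its homomorphisms

`G2A G`: generators `a, b, c` (labels `3, 6, 2`), universal property. `F7 = FreeGroup (Fin 7)`, `x7 i = of i`; the automorphisms `αA, αB, αC`.
-/

set_option autoImplicit false
set_option maxRecDepth 100000

namespace Pool.Agent.Lib.MP_9dbb0e_al.DF

open FreeGroup
open scoped Matrix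

/-- the Artin group of type `G₂~`: generators and universal property -/
structure G2A (G : Type) [Group G] where
  a : G
  b : G
  c : G
  hab : a * b * a = b * a * b
  hac : a * c = c * a
  hbc : b * c * b * c * b * c = c * b * c * b * c * b
  gen : Subgroup.closure ({a, b, c} : Set G) = ⊤
  lift : ∀ {H : Type} [Group H] (x y z : H), x * y * x = y * x * y → x * z = z * x →
    y * z * y * z * y * z = z * y * z * y * z * y → ∃ F : G →* H, F a = x ∧ F b = y ∧ F c = z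

/-- the free group of rank seven -/
abbrev F7 : Type := FreeGroup (Fin 7)

/-- the letters -/
def x7 (i : Fin 7) : F7 := of i

/-- automorphisms from two endomorphisms -/
def mkA (f g : F7 →* F7) (h1 : ∀ i, g (f (x7 i)) = x7 i) (h2 : ∀ i, f (g (x7 i)) = x7 i) :
    MulAut F7 :=
  MonoidHom.toMulEquiv f g (FreeGroup.ext_hom _ _ h1) (FreeGroup.ext_hom _ _ h2)

/-- automorphisms are determined by the letters -/
theorem aut7_ext {g h : MulAut F7} (hh : ∀ i, g (x7 i) = h (x7 i)) : g = h := by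
  have h1 : g.toMonoidHom = h.toMonoidHom := FreeGroup.ext_hom _ _ hh
  refine MulEquiv.ext fun w => ?_
  exact DFunLike.congr_fun h1 w

def fA : F7 →* F7 := FreeGroup.lift
  ![x7 0 * x7 1 * x7 2 * (x7 1)⁻¹ * (x7 0)⁻¹, x7 0 * x7 1 * x7 3 * (x7 1)⁻¹ * (x7 0)⁻¹,
    x7 0 * x7 1 * x7 4 * (x7 1)⁻¹ * (x7 0)⁻¹, x7 0 * x7 1 * (x7 0)⁻¹, x7 0, x7 5, x7 6]

def fA' : F7 →* F7 := FreeGroup.lift
  ![x7 4, (x7 4)⁻¹ * x7 3 * x7 4, (x7 4)⁻¹ * (x7 3)⁻¹ * x7 0 * x7 3 * x7 4,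
    (x7 4)⁻¹ * (x7 3)⁻¹ * x7 1 * x7 3 * x7 4, (x7 4)⁻¹ * (x7 3)⁻¹ * x7 2 * x7 3 * x7 4, x7 5, x7 6]

def fB : F7 →* F7 := FreeGroup.lift
  ![x7 0, x7 1, x7 2 * x7 3 * x7 4 * x7 5 * x7 6 * (x7 5)⁻¹ * (x7 4)⁻¹ * (x7 3)⁻¹ * (x7 2)⁻¹,
    x7 2 * x7 3 * x7 4 * x7 5 * (x7 4)⁻¹ * (x7 3)⁻¹ * (x7 2)⁻¹, x7 2, x7 3, x7 4]

def fB' : F7 →* F7 := FreeGroup.lift
  ![x7 0, x7 1, x7 4, x7 5, x7 6, (x7 6)⁻¹ * (x7 5)⁻¹ * (x7 4)⁻¹ * x7 3 * x7 4 * x7 5 * x7 6,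
    (x7 6)⁻¹ * (x7 5)⁻¹ * (x7 4)⁻¹ * (x7 3)⁻¹ * x7 2 * x7 3 * x7 4 * x7 5 * x7 6]

/-- the product of the first five letters -/
def C7 : F7 := x7 0 * x7 1 * x7 2 * x7 3 * x7 4

/-- the product of all letters -/
def P7 : F7 := x7 0 * x7 1 * x7 2 * x7 3 * x7 4 * x7 5 * x7 6

def fC : F7 →* F7 := FreeGroup.lift
  ![x7 0, x7 1 * x7 3 * (x7 1)⁻¹, x7 1 * (x7 3)⁻¹ * x7 2 * x7 3 * (x7 1)⁻¹, x7 1, x7 4,
    C7⁻¹ * x7 5 * C7, C7⁻¹ * x7 6 * C7]

def fC' : F7 →* F7 := FreeGroup.lift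
  ![x7 0, x7 3, (x7 3)⁻¹ * x7 1 * x7 2 * (x7 1)⁻¹ * x7 3, (x7 3)⁻¹ * x7 1 * x7 3, x7 4,
    C7 * x7 5 * C7⁻¹, C7 * x7 6 * C7⁻¹]

def αA : MulAut F7 := mkA fA fA' (by decide +kernel) (by decide +kernel)

def αB : MulAut F7 := mkA fB fB' (by decide +kernel) (by decide +kernel)

def αC : MulAut F7 := mkA fC fC' (by decide +kernel) (by decide +kernel)

theorem αA_apply (w : F7) : αA w = fA w := rfl

theorem αB_apply (w : F7) : αB w = fB w := rfl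

theorem αC_apply (w : F7) : αC w = fC w := rfl

theorem α7_ab : αA * αB * αA = αB * αA * αB := aut7_ext (by decide +kernel)

theorem α7_ac : αA * αC = αC * αA := aut7_ext (by decide +kernel)

theorem α7_bc : αB * αC * αB * αC * αB * αC = αC * αB * αC * αB * αC * αB :=
  aut7_ext (by decide +kernel)

/-- `c = conj (C⁻¹) a³` -/
theorem αC_eq : αC = MulAut.conj C7⁻¹ * (αA * αA * αA) := aut7_ext (by decide +kernel)

/-- `(a b)³ = conj P` -/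
theorem α7_Z : αA * αB * αA * αB * αA * αB = MulAut.conj P7 := aut7_ext (by decide +kernel)

end Pool.Agent.Lib.MP_9dbb0e_al.DF
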