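import Pool.Agent.Lib.MP_9dbb0e_al.D.GDefs
import Pool.Agent.Lib.MP_9dbb0e_al.GT.G2k

/-!
# The Artin group of type `G₂~`: homomorphisms, the map from the free group of rank seven
-/

set_option autoImplicit false
set_option maxRecDepth 100000

namespace Pool.Agent.Lib.MP_9dbb0e_al.DF

open FreeGroup
open scoped Matrix

variable {G : Type} [Group G] (D : G2A G)

theorem g7_exists_T : ∃ F : G →* Equiv.Perm (V3 × V3), F D.a = S1 ∧ F D.b = S2 ∧
    F D.c = U1 * U0 * S1 ^ 3 := by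
  refine D.lift S1 S2 (U1 * U0 * S1 ^ 3) S_braid c6_comm ?_
  have h := c6_rel
  simpa only [pow_succ, pow_zero, one_mul, mul_assoc] using h

theorem g7_exists_L : ∃ F : G →* SL3, F D.a = LS1 ∧ F D.b = LS2 ∧
    F D.c = LU1 * LU0 * (LS1 * LS1 * LS1) := by
  refine D.lift LS1 LS2 (LU1 * LU0 * (LS1 * LS1 * LS1)) ?_ ?_ ?_ <;> decide +kernel

theorem g7_exists_lin : ∃ F : G →* SL2, F D.a = As ∧ F D.b = At ∧ F D.c = As * As * As := by
  refine D.lift As At (As * As * As) ?_ ?_ ?_ <;> decide +kernel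

theorem g7_exists_r : ∃ F : G →* MulAut F7, F D.a = αA ∧ F D.b = αB ∧ F D.c = αC :=
  D.lift αA αB αC α7_ab α7_ac α7_bc

/-- the action by bundle maps -/
noncomputable def G2A.T : G →* Equiv.Perm (V3 × V3) := (g7_exists_T D).choose

theorem G2A.T_spec : D.T D.a = S1 ∧ D.T D.b = S2 ∧ D.T D.c = U1 * U0 * S1 ^ 3 :=
  (g7_exists_T D).choose_spec

/-- the integral matrices -/
noncomputable def G2A.L : G →* SL3 := (g7_exists_L D).choose

theorem G2A.L_spec : D.L D.a = LS1 ∧ D.L D.b = LS2 ∧ D.L D.c = LU1 * LU0 * (LS1 * LS1 * LS1) :=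
  (g7_exists_L D).choose_spec

/-- the linear part -/
noncomputable def G2A.lin : G →* SL2 := (g7_exists_lin D).choose

theorem G2A.lin_spec : D.lin D.a = As ∧ D.lin D.b = At ∧ D.lin D.c = As * As * As :=
  (g7_exists_lin D).choose_spec

/-- the action on the free group of rank seven -/
noncomputable def G2A.r : G →* MulAut F7 := (g7_exists_r D).choose

theorem G2A.r_spec : D.r D.a = αA ∧ D.r D.b = αB ∧ D.r D.c = αC := (g7_exists_r D).choose_spec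

/-- a subgroup which contains the generators -/
theorem G2A.mem_of (H : Subgroup G) (ha : D.a ∈ H) (hb : D.b ∈ H) (hc : D.c ∈ H) (g : G) : g ∈ H := by
  have h : Subgroup.closure ({D.a, D.b, D.c} : Set G) ≤ H := by
    rw [Subgroup.closure_le]
    rintro x (rfl | rfl | hx)
    · exact ha
    · exact hb
    · rw [Set.mem_singleton_iff] at hx
      rw [hx]
      exact hc
  rw [D.gen] at h
  exact h (Subgroup.mem_top g)

/-- the inverses of the conjugates of `c a⁻³` -/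
def G2A.k (w : GT.Wd) : G := (GT.Y D.a D.b D.c w)⁻¹

/-- the element `(a b)³` -/
def G2A.Z : G := GT.Z D.a D.b

def G2A.e01 : G := (D.k [(0, true), (1, true)])⁻¹ * D.Z

def G2A.e34 : G := (D.k [(1, true)])⁻¹ * D.Z

def G2A.e56 : G := (D.k [])⁻¹ * D.Z

def G2A.e2 : G := D.e01⁻¹ * D.k [] * D.e34⁻¹

def G2A.e4 : G := D.e01⁻¹ * D.k [(1, false)] * D.e56⁻¹

def G2A.e3 : G := D.e34 * D.e4⁻¹

def G2A.e1 : G := ((D.e01 * D.e2 * D.e3)⁻¹ * D.k [(0, true), (1, false)] * D.e56⁻¹)⁻¹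

def G2A.e0 : G := D.e01 * D.e1⁻¹

def G2A.e45 : G := (D.e01⁻¹ * D.k [(1, false), (1, false)] * (D.e2 * D.e3 * D.e4 * D.e56)⁻¹)⁻¹

def G2A.e5 : G := D.e4⁻¹ * D.e45

def G2A.e6 : G := D.e5⁻¹ * D.e56

/-- the embedding of the free group of rank seven -/
def G2A.ι : F7 →* G := FreeGroup.lift ![D.e0, D.e1, D.e2, D.e3, D.e4, D.e5, D.e6]

/-- the words of the conjugates: `∅, b, b⁻¹, a b, a b⁻¹, b⁻¹ b⁻¹` -/
def K7 : Fin 6 → F7 :=
  ![C7, P7 * (x7 3 * x7 4)⁻¹, x7 0 * x7 1 * x7 4 * x7 5 * x7 6, P7 * (x7 0 * x7 1)⁻¹,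
    x7 0 * x7 1 * x7 2 * x7 3 * (x7 1)⁻¹ * x7 5 * x7 6,
    x7 0 * x7 1 * (x7 4 * x7 5)⁻¹ * x7 2 * x7 3 * x7 4 * x7 5 * x7 6]

theorem K7_0 : K7 0 = C7 := rfl

theorem K7_1 : αB C7 = K7 1 := by decide +kernel

theorem K7_2 : αB⁻¹ C7 = K7 2 := by decide +kernel

theorem K7_3 : αA (K7 1) = K7 3 := by decide +kernel

theorem K7_4 : αA (K7 2) = K7 4 := by decide +kernel

theorem K7_5 : αB⁻¹ (K7 2) = K7 5 := by decide +kernel

/-- the letters from the words -/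
theorem w56 : (K7 0)⁻¹ * P7 = x7 5 * x7 6 := by decide +kernel

theorem w01 : (K7 3)⁻¹ * P7 = x7 0 * x7 1 := by decide +kernel

theorem w34 : (K7 1)⁻¹ * P7 = x7 3 * x7 4 := by decide +kernel

theorem w2 : (x7 0 * x7 1)⁻¹ * K7 0 * (x7 3 * x7 4)⁻¹ = x7 2 := by decide +kernel

theorem w4 : (x7 0 * x7 1)⁻¹ * K7 2 * (x7 5 * x7 6)⁻¹ = x7 4 := by decide +kernel

theorem w1 : ((x7 0 * x7 1 * x7 2 * x7 3)⁻¹ * K7 4 * (x7 5 * x7 6)⁻¹)⁻¹ = x7 1 := by decide +kernel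

theorem w45 : ((x7 0 * x7 1)⁻¹ * K7 5 * (x7 2 * x7 3 * x7 4 * (x7 5 * x7 6))⁻¹)⁻¹ = x7 4 * x7 5 := by
  decide +kernel

end Pool.Agent.Lib.MP_9dbb0e_al.DF
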