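import Pool.Agent.Lib.MP_9dbb0e_al.D3
import Pool.Agent.Lib.MP_9dbb0e_al.GT.L3
import Pool.Agent.Lib.MP_9dbb0e_al.D.AMain
import Pool.Agent.Lib.MP_9dbb0e_al.D.GHom

/-!
# JOB GDi: the dichotomy for the linear parts, the Artin group of type `G₂~`

READ GHom.lean and the proofs of `dich4`, `B4_of` in `/team-store/MP_9dbb0e_al_DF_BMain.lean` (copy them).

PROOFS. `b3_six`: `s t s = t s t` implies `t s³ t s³ t s³ = s³ t s³ t s³ t`: the right side is `(s³ t)³ = ((s t) ^ 3) ^ 2` (`GT.uuu`: `ev (gg s t) (uw ++ (uw ++ uw)) = Z s t * Z s t`, unfold: `simp [GT.uw, GT.ev_cons, GT.ev_append, GT.lt, GT.gg]`), `Z s t` commutes with `s` and `t` (`GT.Z_a`, `GT.Z_b`), and the left side is `(s³)⁻¹ * (s³ t)³ * s³`.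
`dich7`: as `dich4`: `M = CoxeterMatrix.A 2`, `s = σ M 0`, `t = σ M 1`, `PA (Art M)`, `r : G →* Art M` by `D.lift s t (s * s * s)` (relations: `hst`; `s` commutes with its third power; `b3_six`), `l : Art M →* SL2`, `D.lin = l.comp r` (`D.lin_spec`: `D.lin D.c = As * As * As`).
`G2A_of`: as `B4_of` (`GT.rel_six`, `GT.alt_six`).
-/

set_option autoImplicit false

namespace Pool.Agent.Lib.MP_9dbb0e_al.DF

open FreeGroup
open scoped Matrix

theorem b3_six {H : Type*} [Group H] {s t : H} (h : s * t * s = t * s * t) :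
    t * (s * s * s) * t * (s * s * s) * t * (s * s * s) =
      (s * s * s) * t * (s * s * s) * t * (s * s * s) * t := by
  have h1 := GT.b3_id (GT.gg_braid h)
    [(1, true), (0, true), (0, true), (0, true), (1, true), (0, true), (0, true), (0, true), (1, true), (0, true),
      (0, true), (0, true)]
    [(0, true), (0, true), (0, true), (1, true), (0, true), (0, true), (0, true), (1, true), (0, true), (0, true),
      (0, true), (1, true)] (by decide) (by decide) (by decide +kernel)
  have l0 : GT.lt (GT.gg s t) (0, true) = s := rfl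
  have l1 : GT.lt (GT.gg s t) (1, true) = t := rfl
  simp only [GT.ev_cons, GT.ev_nil, mul_one, l0, l1] at h1
  simp only [mul_assoc]
  exact h1

variable {G : Type} [Group G] (D : G2A G)

theorem dich7 (g h : G) : ∃ n : ℕ, 0 < n ∧
    (D.lin (g ^ n) * D.lin (h ^ n) = D.lin (h ^ n) * D.lin (g ^ n) ∨ FreeTwo (g ^ n) (h ^ n)) := by
  obtain ⟨M, hM⟩ : ∃ M : CoxeterMatrix (Fin 2), M = CoxeterMatrix.A 2 := ⟨_, rfl⟩
  have h01 : M.M 0 1 = 3 := by
    rw [hM]
    rfl
  have h10 : M.M 1 0 = 3 := by
    rw [hM]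
    rfl
  have hPA : PA (Art M) := PA_dih_odd M 0 1 (by decide) (by decide) 1 (by rw [h01])
  have hst : σ M 0 * σ M 1 * σ M 0 = σ M 1 * σ M 0 * σ M 1 := GT.rel_three M (by decide) h01
  obtain ⟨r, ra, rb, rc⟩ := D.lift (σ M 0) (σ M 1) (σ M 0 * σ M 0 * σ M 0) hst
    (by simp only [mul_assoc]) (b3_six hst)
  have hA : As * At * As = At * As * At := by decide
  obtain ⟨l, hl⟩ := exists_lift M ![As, At] (by
    intro i j hij _
    fin_cases i <;> fin_cases j
    · exact absurd rfl hij
    · show alt As At (M.M 0 1) = alt At As (M.M 0 1)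
      rw [h01, GT.alt_three, GT.alt_three, hA]
    · show alt At As (M.M 1 0) = alt As At (M.M 1 0)
      rw [h10, GT.alt_three, GT.alt_three, hA]
    · exact absurd rfl hij)
  have l0 : l (σ M 0) = As := hl 0
  have l1 : l (σ M 1) = At := hl 1
  have hlin : ∀ x, D.lin x = l (r x) := by
    intro x
    refine D.mem_of (MonoidHom.eqLocus D.lin (l.comp r)) ?_ ?_ ?_ x
    · show D.lin D.a = l (r D.a)
      rw [D.lin_spec.1, ra, l0]
    · show D.lin D.b = l (r D.b)
      rw [D.lin_spec.2.1, rb, l1]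
    · show D.lin D.c = l (r D.c)
      rw [D.lin_spec.2.2, rc, _root_.map_mul, _root_.map_mul, l0]
  obtain ⟨n, hn, h1⟩ := hPA (r g) (r h)
  refine ⟨n, hn, ?_⟩
  rw [← _root_.map_pow r, ← _root_.map_pow r] at h1
  rcases h1 with h1 | h1
  · left
    rw [hlin, hlin, ← _root_.map_mul l, ← _root_.map_mul l, h1.eq]
  · right
    exact FreeTwo.of_map r h1

theorem G2A_of {B : Type} (M : CoxeterMatrix B) {a b c : B} (hu : ∀ i, i = a ∨ i = b ∨ i = c)
    (hab : M.M a b = 3) (hac : M.M a c = 2) (hbc : M.M b c = 6) : Nonempty (G2A (Art M)) := by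
  have nab : a ≠ b := by
    rintro rfl
    rw [M.diagonal] at hab
    exact absurd hab (by decide)
  have nac : a ≠ c := by
    rintro rfl
    rw [M.diagonal] at hac
    exact absurd hac (by decide)
  have nbc : b ≠ c := by
    rintro rfl
    rw [M.diagonal] at hbc
    exact absurd hbc (by decide)
  exact ⟨{ a := σ M a
           b := σ M b
           c := σ M c
           hab := GT.rel_three M nab hab
           hac := GT.rel_two M nac hac
           hbc := GT.rel_six M nbc hbc
           gen := GT.closure3 M hu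
           lift := fun x y z h1 h2 h3 => GT.lift3 M nab nac nbc hu x y z
             (fun _ => by rw [hab, GT.alt_three, GT.alt_three, h1])
             (fun _ => by rw [hac, alt_two, alt_two, h2])
             (fun _ => by rw [hbc, GT.alt_six, GT.alt_six, h3]) }⟩

end Pool.Agent.Lib.MP_9dbb0e_al.DF
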