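import Pool.Agent.Lib.MP_9dbb0e_al.D.GHom
import Pool.Agent.Lib.MP_9dbb0e_al.D.MCt

/-!
# JOB GIota: the normal free subgroup of the Artin group of type `G₂~`

READ GHom.lean, GDefs.lean first. `D.k w = (GT.Y D.a D.b D.c w)⁻¹`, `GT.Y a b c w = ev (gg a b) w * (c * (a * a * a)⁻¹) * (ev (gg a b) w)⁻¹`, `D.Z = GT.Z D.a D.b = ev (gg a b) zw` (`= a b a b a b`; `simp [GT.zw, GT.ev_cons, GT.ev_nil, GT.lt, GT.gg]`). `GT.bs : Fin 6 → Wd` are the six words `[], b, b⁻¹, a b, a b⁻¹, b⁻¹ b⁻¹`, in the order of `K7`.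

PROOFS. (`open FreeGroup` makes `map_mul`, `mul_inv_rev` ambiguous: write `_root_.map_mul`.)
`gen_K`: let `F, φ` be as in `gen_hom`. First `F D.a * φ w * (F D.a)⁻¹ = φ (αA w)` for all `w` (`FreeGroup.ext_hom` for the homs `(MulAut.conj (F D.a)).toMonoidHom.comp φ` and `φ.comp αA.toMonoidHom`), the same for `b`; from this `(F D.b)⁻¹ * φ w * F D.b = φ (αB⁻¹ w)` (put `w = αB (αB⁻¹ w)`).
 `F (D.k w) = F (ev w) * F (c a⁻³)⁻¹ * F (ev w)⁻¹ = F (ev w) * φ C7 * F (ev w)⁻¹`. For the six words `ev w` is `1, b, b⁻¹, a b, a b⁻¹, b⁻¹ b⁻¹` and `K7_0, .., K7_5` give `φ (K7 j)`: e.g. `F (a b) * φ C7 * F (a b)⁻¹ = F a * φ (K7 1) * F a⁻¹ = φ (K7 3)`.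
`gen_hom`: it is enough to check the seven letters (`FreeGroup.ext_hom`): `F e01 = φ (K7 3)⁻¹ * φ P7 = φ (x7 0 * x7 1)` (`w01`), `F e34 = φ (x7 3 * x7 4)`, `F e56 = φ (x7 5 * x7 6)`, `F e2 = φ (x7 2)` (`w2`), `F e4 = φ (x7 4)` (`w4`), `F e3 = φ (x7 3)`, `F e1 = φ (x7 1)` (`w1`), `F e0 = φ (x7 0)`, `F e45 = φ (x7 4 * x7 5)` (`w45`), `F e5`, `F e6`.
`r7_ι`: `gen_hom` for `F = D.r`, `φ = MulAut.conj`: `αA * conj w * αA⁻¹ = conj (αA w)` (`MulEquiv.ext`, `simp`); `D.r (c (a a a)⁻¹) = αC * (αA αA αA)⁻¹ = conj C7⁻¹` (`αC_eq`); `D.r Z = conj P7` (`α7_Z`).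
`ι_P7`, `ι_K7`: identities between the words `e_i`: `e01 = e0 * e1`, `e34 = e3 * e4`, `e56 = e5 * e6`, `e45 = e4 * e5`, `k [] = e01 * e2 * e34`, `k [b⁻¹] = e01 * e4 * e56`, `k [a, b⁻¹] = e01 * e2 * e3 * e1⁻¹ * e56`, `k [b⁻¹, b⁻¹] = e01 * e45⁻¹ * (e2 e3 e4 e56)`, `Z = k [] * e56`, `k [b] = Z * e34⁻¹`, `k [a, b] = Z * e01⁻¹`, all by unfolding one definition and `group`.
 (`D.ι (x7 i) = e_i`: `FreeGroup.lift_apply_of`, `rfl`; prove the seven equations first.)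
`ι_range`: `≤`: each `e_i ∈ Ns` (products of `Z`, `k (bs j)` and inverses: `GT.Z_mem`, `GT.bs_mem`); `≥`: `Ns = closure (range gn)`, `gn 0 = Z = ι P7`, `gn (j + 1) = Y (bs j) = (ι (K7 j))⁻¹` (`Fin.cases`).
`ι7_conj`: the set of the `g` with `∀ w, g * ι w * g⁻¹ = ι (r g w)` is a subgroup (inverse: put `w = r g (r g⁻¹ w)`). `a, b`: `g * ι w * g⁻¹ ∈ Ns` (`GT.Ns_conj` with `s = (0, true)`, `(1, true)`; `lt (gg a b) (0, true) = a`), so it is `ι w'`; apply `r`: `r g * conj w * (r g)⁻¹ = conj (r g w) = conj w'`, `conj_inj` (MCt.lean, letters `0 ≠ 1`): `w' = r g w`.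
 `c = (c a⁻³) * (a a a) = (k [])⁻¹ * (a a a) = ι C7⁻¹ * a * a * a`, and `ι h` satisfies the condition (`r7_ι`).
`decomp7`: `GT.g2_rep D.hab D.hac D.hbc D.gen g`: `g = n * ev w`, `n ∈ Ns = range ι`, `ev w ∈ closure {a, b}` (induction on `w`).
`r7_Z` etc. follow.
-/

set_option autoImplicit false
set_option maxRecDepth 100000

namespace Pool.Agent.Lib.MP_9dbb0e_al.DF

open FreeGroup
open scoped Matrix

variable {G : Type} [Group G] (D : G2A G)

private theorem GIota_cj {H : Type*} [Group H] (h : H) (φ : F7 →* H) (α : MulAut F7)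
    (ha : ∀ i, h * φ (x7 i) * h⁻¹ = φ (α (x7 i))) (w : F7) : h * φ w * h⁻¹ = φ (α w) := by
  have h1 : (MulAut.conj h).toMonoidHom.comp φ = φ.comp α.toMonoidHom := FreeGroup.ext_hom _ _ ha
  exact DFunLike.congr_fun h1 w

private theorem GIota_cj' {H : Type*} [Group H] (h : H) (φ : F7 →* H) (α : MulAut F7)
    (ha : ∀ i, h * φ (x7 i) * h⁻¹ = φ (α (x7 i))) (w : F7) : h⁻¹ * φ w * h = φ (α⁻¹ w) := by
  have h1 := GIota_cj h φ α ha (α⁻¹ w)
  rw [MulAut.apply_inv_self] at h1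
  rw [← h1]
  group

private theorem GIota_k0 : D.k [] = (D.c * (D.a * D.a * D.a)⁻¹)⁻¹ := by
  unfold G2A.k GT.Y
  rw [GT.ev_nil, one_mul, inv_one, mul_one]

private theorem GIota_kc (s : ℕ × Bool) (w : GT.Wd) :
    D.k (s :: w) = GT.lt (GT.gg D.a D.b) s * D.k w * (GT.lt (GT.gg D.a D.b) s)⁻¹ := by
  unfold G2A.k
  rw [GT.Y_cons]
  group

private theorem GIota_ka (w : GT.Wd) : D.k ((0, true) :: w) = D.a * D.k w * D.a⁻¹ := GIota_kc D _ w

private theorem GIota_kb (w : GT.Wd) : D.k ((1, true) :: w) = D.b * D.k w * D.b⁻¹ := GIota_kc D _ w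

private theorem GIota_kb' (w : GT.Wd) : D.k ((1, false) :: w) = D.b⁻¹ * D.k w * D.b := by
  have h : D.k ((1, false) :: w) = D.b⁻¹ * D.k w * (D.b⁻¹)⁻¹ := GIota_kc D _ w
  rw [h, inv_inv]

theorem gen_K {H : Type*} [Group H] (F : G →* H) (φ : F7 →* H)
    (ha : ∀ i, F D.a * φ (x7 i) * (F D.a)⁻¹ = φ (αA (x7 i)))
    (hb : ∀ i, F D.b * φ (x7 i) * (F D.b)⁻¹ = φ (αB (x7 i)))
    (hc : F (D.c * (D.a * D.a * D.a)⁻¹) = (φ C7)⁻¹) (j : Fin 6) :
    F (D.k (GT.bs j)) = φ (K7 j) := by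
  have s0 : F (D.k []) = φ C7 := by
    rw [GIota_k0, _root_.map_inv, hc, inv_inv]
  have sa : ∀ (w : GT.Wd) (v : F7), F (D.k w) = φ v → F (D.k ((0, true) :: w)) = φ (αA v) := by
    intro w v h
    rw [GIota_ka, _root_.map_mul, _root_.map_mul, _root_.map_inv, h, GIota_cj (F D.a) φ αA ha]
  have sb : ∀ (w : GT.Wd) (v : F7), F (D.k w) = φ v → F (D.k ((1, true) :: w)) = φ (αB v) := by
    intro w v h
    rw [GIota_kb, _root_.map_mul, _root_.map_mul, _root_.map_inv, h, GIota_cj (F D.b) φ αB hb]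
  have sb' : ∀ (w : GT.Wd) (v : F7), F (D.k w) = φ v → F (D.k ((1, false) :: w)) = φ (αB⁻¹ v) := by
    intro w v h
    rw [GIota_kb', _root_.map_mul, _root_.map_mul, _root_.map_inv, h, GIota_cj' (F D.b) φ αB hb]
  have s1 : F (D.k [(1, true)]) = φ (K7 1) := by
    rw [sb [] C7 s0, K7_1]
  have s2 : F (D.k [(1, false)]) = φ (K7 2) := by
    rw [sb' [] C7 s0, K7_2]
  have s3 : F (D.k [(0, true), (1, true)]) = φ (K7 3) := by
    rw [sa _ _ s1, K7_3]
  have s4 : F (D.k [(0, true), (1, false)]) = φ (K7 4) := by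
    rw [sa _ _ s2, K7_4]
  have s5 : F (D.k [(1, false), (1, false)]) = φ (K7 5) := by
    rw [sb' _ _ s2, K7_5]
  fin_cases j
  · exact s0
  · exact s1
  · exact s2
  · exact s3
  · exact s4
  · exact s5

theorem gen_hom {H : Type*} [Group H] (F : G →* H) (φ : F7 →* H)
    (ha : ∀ i, F D.a * φ (x7 i) * (F D.a)⁻¹ = φ (αA (x7 i)))
    (hb : ∀ i, F D.b * φ (x7 i) * (F D.b)⁻¹ = φ (αB (x7 i)))
    (hc : F (D.c * (D.a * D.a * D.a)⁻¹) = (φ C7)⁻¹) (hZ : F D.Z = φ P7) (w : F7) :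
    F (D.ι w) = φ w := by
  have k0 : F (D.k []) = φ (K7 0) := gen_K D F φ ha hb hc 0
  have k1 : F (D.k [(1, true)]) = φ (K7 1) := gen_K D F φ ha hb hc 1
  have k2 : F (D.k [(1, false)]) = φ (K7 2) := gen_K D F φ ha hb hc 2
  have k3 : F (D.k [(0, true), (1, true)]) = φ (K7 3) := gen_K D F φ ha hb hc 3
  have k4 : F (D.k [(0, true), (1, false)]) = φ (K7 4) := gen_K D F φ ha hb hc 4
  have k5 : F (D.k [(1, false), (1, false)]) = φ (K7 5) := gen_K D F φ ha hb hc 5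
  have e01 : F D.e01 = φ (x7 0 * x7 1) := by
    unfold G2A.e01
    rw [_root_.map_mul, _root_.map_inv, k3, hZ, ← _root_.map_inv, ← _root_.map_mul, w01]
  have e34 : F D.e34 = φ (x7 3 * x7 4) := by
    unfold G2A.e34
    rw [_root_.map_mul, _root_.map_inv, k1, hZ, ← _root_.map_inv, ← _root_.map_mul, w34]
  have e56 : F D.e56 = φ (x7 5 * x7 6) := by
    unfold G2A.e56
    rw [_root_.map_mul, _root_.map_inv, k0, hZ, ← _root_.map_inv, ← _root_.map_mul, w56]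
  have e2 : F D.e2 = φ (x7 2) := by
    unfold G2A.e2
    rw [_root_.map_mul, _root_.map_mul, _root_.map_inv, _root_.map_inv, e01, k0, e34, ← _root_.map_inv,
      ← _root_.map_inv, ← _root_.map_mul, ← _root_.map_mul, w2]
  have e4 : F D.e4 = φ (x7 4) := by
    unfold G2A.e4
    rw [_root_.map_mul, _root_.map_mul, _root_.map_inv, _root_.map_inv, e01, k2, e56, ← _root_.map_inv,
      ← _root_.map_inv, ← _root_.map_mul, ← _root_.map_mul, w4]
  have e3 : F D.e3 = φ (x7 3) := by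
    unfold G2A.e3
    rw [_root_.map_mul, _root_.map_inv, e34, e4, ← _root_.map_inv, ← _root_.map_mul, mul_inv_cancel_right]
  have e1 : F D.e1 = φ (x7 1) := by
    unfold G2A.e1
    rw [_root_.map_inv, _root_.map_mul, _root_.map_mul, _root_.map_inv, _root_.map_inv, _root_.map_mul,
      _root_.map_mul, e01, e2, e3, e56, k4, ← _root_.map_mul, ← _root_.map_mul, ← _root_.map_inv, ← _root_.map_inv,
      ← _root_.map_mul, ← _root_.map_mul, ← _root_.map_inv, w1]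
  have e0 : F D.e0 = φ (x7 0) := by
    unfold G2A.e0
    rw [_root_.map_mul, _root_.map_inv, e01, e1, ← _root_.map_inv, ← _root_.map_mul, mul_inv_cancel_right]
  have e45 : F D.e45 = φ (x7 4 * x7 5) := by
    unfold G2A.e45
    rw [_root_.map_inv, _root_.map_mul, _root_.map_mul, _root_.map_inv, _root_.map_inv, _root_.map_mul,
      _root_.map_mul, _root_.map_mul, e01, e2, e3, e4, e56, k5, ← _root_.map_mul, ← _root_.map_mul, ← _root_.map_mul,
      ← _root_.map_inv, ← _root_.map_inv, ← _root_.map_mul, ← _root_.map_mul, ← _root_.map_inv, w45]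
  have e5 : F D.e5 = φ (x7 5) := by
    unfold G2A.e5
    rw [_root_.map_mul, _root_.map_inv, e4, e45, ← _root_.map_inv, ← _root_.map_mul, inv_mul_cancel_left]
  have e6 : F D.e6 = φ (x7 6) := by
    unfold G2A.e6
    rw [_root_.map_mul, _root_.map_inv, e5, e56, ← _root_.map_inv, ← _root_.map_mul, inv_mul_cancel_left]
  have h : F.comp D.ι = φ := by
    refine FreeGroup.ext_hom _ _ fun i => ?_
    have h1 : D.ι (of i) = ![D.e0, D.e1, D.e2, D.e3, D.e4, D.e5, D.e6] i := FreeGroup.lift_apply_of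
    rw [MonoidHom.comp_apply, h1]
    fin_cases i
    · exact e0
    · exact e1
    · exact e2
    · exact e3
    · exact e4
    · exact e5
    · exact e6
  exact DFunLike.congr_fun h w

private theorem GIota_conj (α : MulAut F7) (w : F7) :
    α * MulAut.conj w * α⁻¹ = MulAut.conj (α w) := by
  rw [mul_inv_eq_iff_eq_mul]
  refine MulEquiv.ext fun v => ?_
  show α (w * v * w⁻¹) = α w * α v * (α w)⁻¹
  rw [_root_.map_mul, _root_.map_mul, _root_.map_inv]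

private theorem GIota_Z : D.Z = D.a * D.b * D.a * D.b * D.a * D.b := by
  show D.a * (D.b * (D.a * (D.b * (D.a * (D.b * 1))))) = _
  simp only [mul_one, mul_assoc]

theorem r7_ι (f : F7) : D.r (D.ι f) = MulAut.conj f := by
  obtain ⟨ra, rb, rc⟩ := D.r_spec
  refine gen_hom D D.r MulAut.conj ?_ ?_ ?_ ?_ f
  · intro i
    rw [ra, GIota_conj]
  · intro i
    rw [rb, GIota_conj]
  · rw [_root_.map_mul, _root_.map_inv, _root_.map_mul, _root_.map_mul, ra, rc, αC_eq, mul_inv_cancel_right,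
      _root_.map_inv]
  · rw [GIota_Z, _root_.map_mul, _root_.map_mul, _root_.map_mul, _root_.map_mul, _root_.map_mul, ra, rb, α7_Z]

private theorem GIota_ι (i : Fin 7) :
    D.ι (x7 i) = ![D.e0, D.e1, D.e2, D.e3, D.e4, D.e5, D.e6] i := FreeGroup.lift_apply_of

private theorem GIota_ι0 : D.ι (x7 0) = D.e0 := GIota_ι D 0

private theorem GIota_ι1 : D.ι (x7 1) = D.e1 := GIota_ι D 1

private theorem GIota_ι2 : D.ι (x7 2) = D.e2 := GIota_ι D 2

private theorem GIota_ι3 : D.ι (x7 3) = D.e3 := GIota_ι D 3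

private theorem GIota_ι4 : D.ι (x7 4) = D.e4 := GIota_ι D 4

private theorem GIota_ι5 : D.ι (x7 5) = D.e5 := GIota_ι D 5

private theorem GIota_ι6 : D.ι (x7 6) = D.e6 := GIota_ι D 6

private theorem GIota_e01 : D.e0 * D.e1 = D.e01 := by
  unfold G2A.e0
  rw [inv_mul_cancel_right]

private theorem GIota_e34 : D.e3 * D.e4 = D.e34 := by
  unfold G2A.e3
  rw [inv_mul_cancel_right]

private theorem GIota_e45 : D.e4 * D.e5 = D.e45 := by
  unfold G2A.e5
  rw [mul_inv_cancel_left]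

private theorem GIota_e56 : D.e5 * D.e6 = D.e56 := by
  unfold G2A.e6
  rw [mul_inv_cancel_left]

private theorem GIota_C : D.e0 * D.e1 * D.e2 * D.e3 * D.e4 = D.k [] := by
  rw [mul_assoc _ D.e3 D.e4, GIota_e34, GIota_e01]
  unfold G2A.e2
  group

theorem ι_P7 : D.ι P7 = D.Z := by
  unfold P7
  rw [_root_.map_mul, _root_.map_mul, _root_.map_mul, _root_.map_mul, _root_.map_mul, _root_.map_mul, GIota_ι0,
    GIota_ι1, GIota_ι2, GIota_ι3, GIota_ι4, GIota_ι5, GIota_ι6, mul_assoc _ D.e5 D.e6, GIota_e56, GIota_C]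
  unfold G2A.e56
  rw [mul_inv_cancel_left]

private theorem GIota_K0 : D.ι (K7 0) = D.k [] := by
  show D.ι (x7 0 * x7 1 * x7 2 * x7 3 * x7 4) = D.k []
  rw [_root_.map_mul, _root_.map_mul, _root_.map_mul, _root_.map_mul, GIota_ι0, GIota_ι1, GIota_ι2, GIota_ι3,
    GIota_ι4, GIota_C]

private theorem GIota_K1 : D.ι (K7 1) = D.k [(1, true)] := by
  show D.ι (P7 * (x7 3 * x7 4)⁻¹) = _
  rw [_root_.map_mul, _root_.map_inv, _root_.map_mul, ι_P7, GIota_ι3, GIota_ι4, GIota_e34]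
  unfold G2A.e34
  group

private theorem GIota_K2 : D.ι (K7 2) = D.k [(1, false)] := by
  show D.ι (x7 0 * x7 1 * x7 4 * x7 5 * x7 6) = _
  rw [_root_.map_mul, _root_.map_mul, _root_.map_mul, _root_.map_mul, GIota_ι0, GIota_ι1, GIota_ι4, GIota_ι5,
    GIota_ι6, GIota_e01, mul_assoc _ D.e5 D.e6, GIota_e56]
  unfold G2A.e4
  group

private theorem GIota_K3 : D.ι (K7 3) = D.k [(0, true), (1, true)] := by
  show D.ι (P7 * (x7 0 * x7 1)⁻¹) = _
  rw [_root_.map_mul, _root_.map_inv, _root_.map_mul, ι_P7, GIota_ι0, GIota_ι1, GIota_e01]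
  unfold G2A.e01
  group

private theorem GIota_K4 : D.ι (K7 4) = D.k [(0, true), (1, false)] := by
  show D.ι (x7 0 * x7 1 * x7 2 * x7 3 * (x7 1)⁻¹ * x7 5 * x7 6) = _
  rw [_root_.map_mul, _root_.map_mul, _root_.map_mul, _root_.map_mul, _root_.map_mul, _root_.map_mul,
    _root_.map_inv, GIota_ι0, GIota_ι1, GIota_ι2, GIota_ι3, GIota_ι5, GIota_ι6, GIota_e01, mul_assoc _ D.e5 D.e6,
    GIota_e56]
  have h : D.e1⁻¹ = (D.e01 * D.e2 * D.e3)⁻¹ * D.k [(0, true), (1, false)] * D.e56⁻¹ := by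
    unfold G2A.e1
    rw [inv_inv]
  rw [h]
  group

private theorem GIota_K5 : D.ι (K7 5) = D.k [(1, false), (1, false)] := by
  show D.ι (x7 0 * x7 1 * (x7 4 * x7 5)⁻¹ * x7 2 * x7 3 * x7 4 * x7 5 * x7 6) = _
  rw [_root_.map_mul, _root_.map_mul, _root_.map_mul, _root_.map_mul, _root_.map_mul, _root_.map_mul,
    _root_.map_mul, _root_.map_inv, _root_.map_mul, GIota_ι0, GIota_ι1, GIota_ι2, GIota_ι3, GIota_ι4, GIota_ι5,
    GIota_ι6, GIota_e01, mul_assoc _ D.e5 D.e6, GIota_e56, GIota_e45]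
  have h : D.e45⁻¹ = D.e01⁻¹ * D.k [(1, false), (1, false)] * (D.e2 * D.e3 * D.e4 * D.e56)⁻¹ := by
    unfold G2A.e45
    rw [inv_inv]
  rw [h]
  group

theorem ι_K7 (j : Fin 6) : D.ι (K7 j) = D.k (GT.bs j) := by
  fin_cases j
  · exact GIota_K0 D
  · exact GIota_K1 D
  · exact GIota_K2 D
  · exact GIota_K3 D
  · exact GIota_K4 D
  · exact GIota_K5 D

private theorem GIota_km (j : Fin 6) : D.k (GT.bs j) ∈ GT.Ns D.a D.b D.c :=
  Subgroup.inv_mem _ (GT.bs_mem j)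

theorem ι_range : D.ι.range = GT.Ns D.a D.b D.c := by
  have k0 : D.k [] ∈ GT.Ns D.a D.b D.c := GIota_km D 0
  have k1 : D.k [(1, true)] ∈ GT.Ns D.a D.b D.c := GIota_km D 1
  have k2 : D.k [(1, false)] ∈ GT.Ns D.a D.b D.c := GIota_km D 2
  have k3 : D.k [(0, true), (1, true)] ∈ GT.Ns D.a D.b D.c := GIota_km D 3
  have k4 : D.k [(0, true), (1, false)] ∈ GT.Ns D.a D.b D.c := GIota_km D 4
  have k5 : D.k [(1, false), (1, false)] ∈ GT.Ns D.a D.b D.c := GIota_km D 5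
  have kZ : D.Z ∈ GT.Ns D.a D.b D.c := GT.Z_mem
  obtain ⟨N, hN⟩ : ∃ N, N = GT.Ns D.a D.b D.c := ⟨_, rfl⟩
  refine le_antisymm ?_ ?_
  · rw [← hN] at k0 k1 k2 k3 k4 k5 kZ ⊢
    have e01 : D.e01 ∈ N := N.mul_mem (N.inv_mem k3) kZ
    have e34 : D.e34 ∈ N := N.mul_mem (N.inv_mem k1) kZ
    have e56 : D.e56 ∈ N := N.mul_mem (N.inv_mem k0) kZ
    have e2 : D.e2 ∈ N := N.mul_mem (N.mul_mem (N.inv_mem e01) k0) (N.inv_mem e34)
    have e4 : D.e4 ∈ N := N.mul_mem (N.mul_mem (N.inv_mem e01) k2) (N.inv_mem e56)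
    have e3 : D.e3 ∈ N := N.mul_mem e34 (N.inv_mem e4)
    have e1 : D.e1 ∈ N := N.inv_mem (N.mul_mem (N.mul_mem (N.inv_mem (N.mul_mem (N.mul_mem e01 e2) e3)) k4)
      (N.inv_mem e56))
    have e0 : D.e0 ∈ N := N.mul_mem e01 (N.inv_mem e1)
    have e45 : D.e45 ∈ N := N.inv_mem (N.mul_mem (N.mul_mem (N.inv_mem e01) k5)
      (N.inv_mem (N.mul_mem (N.mul_mem (N.mul_mem e2 e3) e4) e56)))
    have e5 : D.e5 ∈ N := N.mul_mem (N.inv_mem e4) e45
    have e6 : D.e6 ∈ N := N.mul_mem (N.inv_mem e5) e56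
    refine FreeGroup.range_lift_le ?_
    rintro x ⟨i, rfl⟩
    fin_cases i
    · exact e0
    · exact e1
    · exact e2
    · exact e3
    · exact e4
    · exact e5
    · exact e6
  · unfold GT.Ns
    rw [Subgroup.closure_le]
    rintro x ⟨i, rfl⟩
    refine Fin.cases ?_ (fun j => ?_) i
    · exact ⟨P7, ι_P7 D⟩
    · refine ⟨(K7 j)⁻¹, ?_⟩
      rw [_root_.map_inv, ι_K7]
      unfold G2A.k
      rw [inv_inv]
      rfl

theorem c_eq : D.c = D.ι C7⁻¹ * (D.a * D.a * D.a) := by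
  have h := GIota_K0 D
  rw [K7_0, GIota_k0] at h
  rw [_root_.map_inv, h, inv_inv, inv_mul_cancel_right]

/-- the elements with the conjugation formula -/
private def GIota_H : Subgroup G where
  carrier := {g | ∀ w, g * D.ι w * g⁻¹ = D.ι (D.r g w)}
  one_mem' := by
    intro w
    rw [one_mul, inv_one, mul_one, _root_.map_one]
    rfl
  mul_mem' := by
    intro g h hg hh w
    have h1 : g * h * D.ι w * (g * h)⁻¹ = g * (h * D.ι w * h⁻¹) * g⁻¹ := by group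
    rw [h1, hh w, hg, _root_.map_mul]
    rfl
  inv_mem' := by
    intro g hg w
    have h1 := hg (D.r g⁻¹ w)
    have h2 : D.r g (D.r g⁻¹ w) = w := by
      rw [_root_.map_inv]
      exact MulAut.apply_inv_self _ _ _
    rw [h2] at h1
    rw [← h1]
    group

private theorem GIota_gen (g : G) (h : ∀ n ∈ GT.Ns D.a D.b D.c, g * n * g⁻¹ ∈ GT.Ns D.a D.b D.c) :
    g ∈ GIota_H D := by
  intro w
  have h1 := h (D.ι w) (by
    rw [← ι_range]
    exact ⟨w, rfl⟩)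
  rw [← ι_range] at h1
  obtain ⟨w', hw'⟩ := h1
  have h2 := congrArg D.r hw'
  rw [_root_.map_mul, _root_.map_mul, _root_.map_inv, r7_ι, r7_ι, GIota_conj] at h2
  rw [← hw', conj_inj (a := (0 : Fin 7)) (b := 1) (by decide) h2]

theorem ι7_conj (g : G) (w : F7) : g * D.ι w * g⁻¹ = D.ι (D.r g w) := by
  have ha : D.a ∈ GIota_H D := GIota_gen D D.a
    (GT.Ns_conj D.hab D.hac D.hbc (0, true) (by decide))
  have hb : D.b ∈ GIota_H D := GIota_gen D D.b
    (GT.Ns_conj D.hab D.hac D.hbc (1, true) (by decide))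
  have hi : ∀ h : F7, D.ι h ∈ GIota_H D := by
    intro h w
    rw [r7_ι, ← _root_.map_inv, ← _root_.map_mul, ← _root_.map_mul]
    rfl
  have hc : D.c ∈ GIota_H D := by
    rw [c_eq]
    exact (GIota_H D).mul_mem (hi _) ((GIota_H D).mul_mem ((GIota_H D).mul_mem ha ha) ha)
  exact D.mem_of (GIota_H D) ha hb hc g w

theorem decomp7 (g : G) : ∃ f : F7, ∃ h ∈ Subgroup.closure ({D.a, D.b} : Set G), g = D.ι f * h := by
  obtain ⟨n, hn, w, hw, rfl⟩ := GT.g2_rep D.hab D.hac D.hbc D.gen g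
  rw [← ι_range] at hn
  obtain ⟨f, rfl⟩ := hn
  refine ⟨f, _, ?_, rfl⟩
  have ma : D.a ∈ Subgroup.closure ({D.a, D.b} : Set G) := Subgroup.subset_closure (Or.inl rfl)
  have mb : D.b ∈ Subgroup.closure ({D.a, D.b} : Set G) := Subgroup.subset_closure (Or.inr rfl)
  induction w with
  | nil => exact Subgroup.one_mem _
  | cons s w ih =>
    rw [GT.ev_cons]
    refine Subgroup.mul_mem _ ?_ (ih fun q hq => hw q (List.mem_cons_of_mem _ hq))
    obtain ⟨i, t⟩ := s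
    have hi : i < 2 := hw (i, t) List.mem_cons_self
    interval_cases i
    · cases t
      · exact Subgroup.inv_mem _ ma
      · exact ma
    · cases t
      · exact Subgroup.inv_mem _ mb
      · exact mb

end Pool.Agent.Lib.MP_9dbb0e_al.DF
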