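import Pool.Agent.Lib.MP_9dbb0e_al.D.GDat

set_option autoImplicit false
set_option maxRecDepth 100000

namespace Pool.Agent.Lib.MP_9dbb0e_al.DF

open FreeGroup
open scoped Matrix

/-- the permutations which commute with right multiplications -/
private def gjR : Subgroup (Equiv.Perm (Bool × F13)) where
  carrier := {p | ∀ e w, p (e, w) = ((p (e, 1)).1, (p (e, 1)).2 * w)}
  one_mem' := by
    intro e w
    simp
  mul_mem' := by
    intro p q hp hq e w
    show p (q (e, w)) = ((p (q (e, 1))).1, (p (q (e, 1))).2 * w)
    rw [hq e w]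
    obtain ⟨e', m⟩ := q (e, 1)
    rw [hp e' (m * w), hp e' m]
    simp only [mul_assoc]
  inv_mem' := by
    intro p hp e w
    show p.symm (e, w) = ((p.symm (e, 1)).1, (p.symm (e, 1)).2 * w)
    rw [Equiv.symm_apply_eq]
    obtain ⟨⟨e', m⟩, h⟩ : ∃ x, x = p.symm (e, 1) := ⟨_, rfl⟩
    rw [← h]
    have h1 : p (e', m) = (e, 1) := by
      rw [h, Equiv.apply_symm_apply]
    have h2 := hp e' m
    rw [h1] at h2
    have h3 := hp e' (m * w)
    rw [Prod.ext_iff] at h2
    simp only at h2
    show (e, w) = p (e', m * w)
    rw [h3, ← h2.1, ← mul_assoc, ← h2.2, one_mul]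

theorem act_right (f : F7) (e : Bool) (w : F13) :
    act13 f (e, w) = ((act13 f (e, 1)).1, (act13 f (e, 1)).2 * w) := by
  have h : act13 f ∈ gjR := by
    have h1 : (⊤ : Subgroup F7) ≤ gjR.comap act13 := by
      rw [← FreeGroup.closure_range_of, Subgroup.closure_le]
      rintro x ⟨i, rfl⟩
      show act13 (of i) ∈ gjR
      unfold act13
      rw [FreeGroup.lift_apply_of]
      intro e w
      show (tg i e, mv i e * w) = (tg i e, mv i e * 1 * w)
      rw [mul_one]
    exact h1 (Subgroup.mem_top f)
  exact h e w

theorem coset_eq (f : F7) (e : Bool) :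
    f * rp e = rp (act13 f (e, 1)).1 * j13 (act13 f (e, 1)).2 := by
  revert e
  induction f using FreeGroup.induction_on with
  | C1 =>
    intro e
    rw [_root_.map_one act13]
    show 1 * rp e = rp e * j13 1
    rw [_root_.map_one, one_mul, mul_one]
  | of i =>
    intro e
    unfold act13
    rw [FreeGroup.lift_apply_of]
    show x7 i * rp e = rp (tg i e) * j13 (mv i e * 1)
    rw [mul_one]
    exact mv_spec i e
  | inv_of i _ =>
    intro e
    unfold act13
    rw [_root_.map_inv, FreeGroup.lift_apply_of]
    show (x7 i)⁻¹ * rp e = rp (tg i e) * j13 ((mv i (tg i e))⁻¹ * 1)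
    have h := mv_spec i (tg i e)
    rw [tg_tg] at h
    rw [mul_one, _root_.map_inv, inv_mul_eq_iff_eq_mul, ← mul_assoc, h, mul_inv_cancel_right]
  | mul f g hf hg =>
    intro e
    rw [mul_assoc, hg e, ← mul_assoc]
    obtain ⟨⟨e', m⟩, h⟩ : ∃ x, x = act13 g (e, 1) := ⟨_, rfl⟩
    have h1 : act13 (f * g) (e, 1) = act13 f (e', m) := by
      rw [_root_.map_mul, Equiv.Perm.mul_apply, h]
    rw [h1, ← h, act_right f e' m, hf e']
    simp only [_root_.map_mul, mul_assoc]

theorem j13_act (u w : F13) : act13 (j13 u) (false, w) = (false, u * w) := by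
  have key : ∀ i, act13 (j13 (of i)) (false, 1) = (false, of i) := by
    intro i
    unfold j13
    rw [FreeGroup.lift_apply_of]
    match i with
    | none => exact act13_Y
    | some none => exact act13_X
    | some (some s) => exact act13_s s
  revert w
  induction u using FreeGroup.induction_on with
  | C1 =>
    intro w
    rw [_root_.map_one, _root_.map_one, one_mul]
    rfl
  | of i =>
    intro w
    rw [act_right, key]
  | inv_of i h =>
    intro w
    rw [_root_.map_inv, _root_.map_inv]
    show (act13 (j13 (of i))).symm (false, w) = (false, (of i)⁻¹ * w)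
    rw [Equiv.symm_apply_eq, h, mul_inv_cancel_left]
  | mul f g hf hg =>
    intro w
    rw [_root_.map_mul, _root_.map_mul, Equiv.Perm.mul_apply, hg, hf, mul_assoc]

theorem j13_inj : Function.Injective j13 := by
  rw [injective_iff_map_eq_one]
  intro u hu
  have h := j13_act u 1
  rw [hu, _root_.map_one, mul_one] at h
  have h1 : ((false, 1) : Bool × F13) = (false, u) := h
  exact (Prod.ext_iff.1 h1).2.symm

theorem sg_act (f : F7) (e : Bool) : (act13 f (e, 1)).1 = if sg f = 1 then e else !e := by
  have key : ∀ (i : Fin 7) (e : Bool), tg i e = if sg (x7 i) = 1 then e else !e := by decide +kernel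
  revert e
  induction f using FreeGroup.induction_on with
  | C1 =>
    intro e
    rw [_root_.map_one, _root_.map_one, if_pos rfl]
    rfl
  | of i =>
    intro e
    unfold act13
    rw [FreeGroup.lift_apply_of]
    exact key i e
  | inv_of i _ =>
    intro e
    unfold act13
    rw [_root_.map_inv, FreeGroup.lift_apply_of]
    have h : sg (of i)⁻¹ = sg (x7 i) := by
      rw [_root_.map_inv, Int.units_inv_eq_self]
      rfl
    show tg i e = if sg (of i)⁻¹ = 1 then e else !e
    rw [h]
    exact key i e
  | mul f g hf hg =>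
    intro e
    obtain ⟨⟨e', m⟩, h⟩ : ∃ x, x = act13 g (e, 1) := ⟨_, rfl⟩
    have h1 : act13 (f * g) (e, 1) = act13 f (e', m) := by
      rw [_root_.map_mul, Equiv.Perm.mul_apply, h]
    have h2 := hg e
    rw [← h] at h2
    simp only at h2
    rw [h1, act_right f e' m]
    simp only
    rw [hf e', h2, _root_.map_mul]
    rcases Int.units_eq_one_or (sg f) with h3 | h3 <;> rcases Int.units_eq_one_or (sg g) with h4 | h4 <;>
      rw [h3, h4] <;> cases e <;> decide

theorem j13_range (f : F7) : (∃ u, j13 u = f) ↔ sg f = 1 := by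
  constructor
  · rintro ⟨u, rfl⟩
    have h : sg.comp j13 = 1 := by
      refine FreeGroup.ext_hom _ _ ?_
      intro i
      rw [MonoidHom.comp_apply, MonoidHom.one_apply]
      unfold j13
      rw [FreeGroup.lift_apply_of]
      have key : ∀ i, sg (jF i) = 1 := by decide +kernel
      exact key i
    exact DFunLike.congr_fun h u
  · intro h
    have h1 := coset_eq f false
    have h2 := sg_act f false
    rw [if_pos h] at h2
    rw [h2] at h1
    have h3 : rp false = 1 := rfl
    rw [h3, mul_one, one_mul] at h1
    exact ⟨_, h1.symm⟩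

/-- every element is in the image of `j13` times `(rp e)⁻¹` -/
theorem coset_j (f : F7) : ∃ u e, f = j13 u * (rp e)⁻¹ := by
  by_cases h : sg f = 1
  · obtain ⟨u, hu⟩ := (j13_range f).2 h
    refine ⟨u, false, ?_⟩
    have h3 : rp false = 1 := rfl
    rw [h3, inv_one, mul_one, hu]
  · have h1 : sg f = -1 := (Int.units_eq_one_or (sg f)).resolve_left h
    have h2 : sg (f * rp true) = 1 := by
      rw [_root_.map_mul, h1]
      decide +kernel
    obtain ⟨u, hu⟩ := (j13_range _).2 h2
    exact ⟨u, true, by rw [hu, mul_inv_cancel_right]⟩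

end Pool.Agent.Lib.MP_9dbb0e_al.DF
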