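import Pool.Agent.Lib.MP_9dbb0e_al.D.GIota
import Pool.Agent.Lib.MP_9dbb0e_al.D.GDat
import Pool.Agent.Lib.MP_9dbb0e_al.D.NB3

/-!
# JOB GLin: the homomorphisms `T`, `L`, `lin` on the normal free subgroup

READ GHom.lean, GIota.lean, GDat.lean first. `φT`, `φL`, `φS`: the letters `1, 3, 5` go to `U0, U1, U2` (`LU0, LU1, LU2`; `-1`), the even letters to `1`.

PROOFS. (`open FreeGroup` makes `map_mul`, `mul_inv_rev` ambiguous: write `_root_.map_mul`.)
`T_ι7`: `gen_hom` (GIota.lean) for `F = D.T`, `φ = φT`. On the letters (`fin_cases i`; compute `φT (αA (x7 i)) = φT (fA (x7 i))`, `simp [fA, x7, φT, αA_apply]`): with `S1 U0 S1⁻¹ = U0 U1 U0`, `S1 U1 S1⁻¹ = U0`, `S1 U2 S1⁻¹ = U2`, `S2 U0 S2⁻¹ = U0`, `S2 U1 S2⁻¹ = U1 U2 U1`, `S2 U2 S2⁻¹ = U1` (TRel.lean) and `U_i⁻¹ = U_i`.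
 `T (c (a a a)⁻¹) = U1 * U0 = (φT C7)⁻¹` (`φT C7 = U0 * U1`); `T Z = (S1 S2)^3 = U0 U1 U2 = φT P7` (`S_cube`).
`L_ι7`: the same for `D.L`, `φL`, letters by `φL_A7`, `φL_B7`; the other two conditions by `decide +kernel` (after rewriting with `D.L_spec`). `lin_ι7`: for `D.lin`, `φS`; `decide +kernel` for everything.
`lin_sg`: `D.lin (D.ι f) = 1 ↔ sg f = 1`, and `= -1` otherwise: `φS f = (if sg f = 1 then 1 else -1)`: both sides are homs in `f` (`ℤˣ → SL2`, `1 ↦ 1`, `-1 ↦ -1`), or `FreeGroup.induction_on`.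
`L_lin7`: `{g | (D.L g, D.lin g) ∈ LG}` is a subgroup (comap of `LG` under `D.L.prod D.lin`), generators: `LS1_mem`, `LS2_mem`, `(LU1 * LU0 * (LS1 LS1 LS1), As As As) = (LU1, -1) * (LU0, -1) * (LS1, As) ^ 3`. `T_L7`: the same for `BG` (`S1_mem` ..). `D.mem_of`.
`lin_surj7`: `SL(2, ℤ)` is generated by `S, T` (`Matrix.SpecialLinearGroup.SL2Z_generators`): as in the job BInn (`/team-store/MP_9dbb0e_al_DF_BInn.lean`, theorem `lin_surj4`, copy the proof).
`lin_pm`: `decomp7`: `g = ι f * h`, `h ∈ closure {a, b}`, `lin (ι f) = ± 1` (`lin_sg`), so `lin h = ± 1` (`-1` is central, `(-1)(-1) = 1`). `b3_ker` (NB3.lean) for the subgroup `H₀ = closure {a, b}` with the generators `⟨a, _⟩, ⟨b, _⟩` (see the proof of `lin_one` in `/team-store/MP_9dbb0e_al_DF_BIota.lean`: the same argument): `h = ((a b) ^ 3) ^ k = Z ^ k = ι (P7 ^ k)` (`ι_P7`). So `g = ι (f * P7 ^ k)`.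
`base7`: `g = ι f` (`lin_pm`), `T g = φT f`; `(φT f p).1 = p.1` for all `f` (the permutations with this property form a subgroup, `U0, U1, U2` are in it by `rfl`).
`trans7`: `φL (j13 (X13 ^ m * Y13 ^ n)) *ᵥ v = v + smZ v • embZ ![2 * m, 2 * n]`: more generally for all `u : F13` with `m, n` the exponents of `X`, `Y`: `φL (j13 u) *ᵥ v = v + smZ v • embZ ![2 * m, 2 * n]`: on the letters: `φL (s7 s) = 1` (`decide +kernel`), `φL (jF (some none)) = LU0 * LU1` (adds `embZ ![2, 0] * smZ v`), `φL (jF none) = LU1 * LU2` (adds `embZ ![0, 2] * smZ v`); these matrices multiply by adding `(m, n)` (`smZ (embZ w) = 0`); `FreeGroup.induction_on` (or closure).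
  (`wd i : FreeGroup I →* Multiplicative ℤ` is the exponent homomorphism, MRs.lean.)
`φL_one`: `φL f = 1` implies `sg f = 1` (the linear part: `L_lin7`-like: `(φL f, φS f) ∈ LG` for all `f`, so if `φL f = 1` then `embZ w = embZ (φS f *ᵥ w)` for all `w`, `φS f = 1`, and `φS f = -1` if `sg f ≠ 1`). `φS_eq`: `φS f = 1 ↔ sg f = 1`.
-/

set_option autoImplicit false
set_option maxRecDepth 100000

namespace Pool.Agent.Lib.MP_9dbb0e_al.DF

open FreeGroup
open scoped Matrix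

/-- bundle maps of the letters -/
def φT : F7 →* Equiv.Perm (V3 × V3) := FreeGroup.lift ![1, U0, 1, U1, 1, U2, 1]

/-- linear parts of the letters -/
def φS : F7 →* SL2 := FreeGroup.lift ![1, -1, 1, -1, 1, -1, 1]

private theorem GLin_sgS : ∀ i : Fin 7, (sg (x7 i) = 1 ∧ φS (x7 i) = 1) ∨ (sg (x7 i) = -1 ∧ φS (x7 i) = -1) := by
  decide +kernel

private theorem GLin_units (u : ℤˣ) : u = 1 ∨ u = -1 := Int.units_eq_one_or u

private theorem GLin_pm (f : F7) : (sg f = 1 ∧ φS f = 1) ∨ (sg f = -1 ∧ φS f = -1) := by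
  refine FreeGroup.induction_on (C := fun f => (sg f = 1 ∧ φS f = 1) ∨ (sg f = -1 ∧ φS f = -1)) f
    ?_ ?_ ?_ ?_
  · exact Or.inl ⟨_root_.map_one _, _root_.map_one _⟩
  · intro i
    exact GLin_sgS i
  · intro i hi
    rcases hi with ⟨h1, h2⟩ | ⟨h1, h2⟩
    · left
      rw [_root_.map_inv, _root_.map_inv, h1, h2, inv_one, inv_one]
      exact ⟨rfl, rfl⟩
    · right
      rw [_root_.map_inv, _root_.map_inv, h1, h2]
      exact ⟨by decide, by decide⟩
  · intro x y hx hy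
    rw [_root_.map_mul, _root_.map_mul]
    rcases hx with ⟨h1, h2⟩ | ⟨h1, h2⟩ <;> rcases hy with ⟨h3, h4⟩ | ⟨h3, h4⟩ <;>
      rw [h1, h2, h3, h4]
    · left; exact ⟨by decide, by decide⟩
    · right; exact ⟨by decide, by decide⟩
    · right; exact ⟨by decide, by decide⟩
    · left; exact ⟨by decide, by decide⟩

theorem φS_eq (f : F7) : (sg f = 1 → φS f = 1) ∧ (sg f ≠ 1 → φS f = -1) := by
  rcases GLin_pm f with ⟨h1, h2⟩ | ⟨h1, h2⟩
  · exact ⟨fun _ => h2, fun h => absurd h1 h⟩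
  · refine ⟨fun h => ?_, fun _ => h2⟩
    rw [h1] at h
    exact absurd h (by decide)

private theorem GLin_let (i : Fin 7) : (φL (x7 i), φS (x7 i)) ∈ LG := by
  have h1 : ∀ i, (φL (x7 i) = 1 ∧ φS (x7 i) = 1) ∨ (φL (x7 i) = LU0 ∧ φS (x7 i) = -1) ∨
      (φL (x7 i) = LU1 ∧ φS (x7 i) = -1) ∨ (φL (x7 i) = LU2 ∧ φS (x7 i) = -1) := by
    decide +kernel
  rcases h1 i with ⟨h1, h2⟩ | ⟨h1, h2⟩ | ⟨h1, h2⟩ | ⟨h1, h2⟩ <;> rw [h1, h2]
  · exact LG.one_mem
  · exact LU0_mem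
  · exact LU1_mem
  · exact LU2_mem

theorem φLS_mem (f : F7) : (φL f, φS f) ∈ LG := by
  refine FreeGroup.induction_on (C := fun f => (φL f, φS f) ∈ LG) f ?_ ?_ ?_ ?_
  · rw [_root_.map_one, _root_.map_one]
    exact LG.one_mem
  · exact GLin_let
  · intro i hi
    have h := LG.inv_mem hi
    rw [_root_.map_inv, _root_.map_inv]
    exact h
  · intro x y hx hy
    have h := LG.mul_mem hx hy
    rw [_root_.map_mul, _root_.map_mul]
    exact h

private theorem GLin_embZ_inj {w w' : Fin 2 → ℤ} (h : embZ w = embZ w') : w = w' := by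
  have h0 := congrFun h 0
  have h2 := congrFun h 2
  have e0 : w 0 = w' 0 := h0
  have e2 : -w 1 = -w' 1 := h2
  funext i
  fin_cases i
  · exact e0
  · exact neg_injective e2

private theorem GLin_lin_one {L : SL3} {A : SL2} (h : (L, A) ∈ LG) (hL : L = 1) : A = 1 := by
  have h2 : ∀ w : Fin 2 → ℤ, (A : Matrix (Fin 2) (Fin 2) ℤ) *ᵥ w = w := by
    intro w
    have h4 : (L : Matrix (Fin 3) (Fin 3) ℤ) *ᵥ embZ w =
      embZ ((A : Matrix (Fin 2) (Fin 2) ℤ) *ᵥ w) := h.2 w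
    rw [hL, Matrix.SpecialLinearGroup.coe_one, Matrix.one_mulVec] at h4
    exact (GLin_embZ_inj h4).symm
  refine Subtype.ext ?_
  have h3 : (A : Matrix (Fin 2) (Fin 2) ℤ) = 1 := by
    refine Matrix.ext_of_mulVec_single fun i => ?_
    rw [h2, Matrix.one_mulVec]
  exact h3

theorem φL_one (f : F7) (h : φL f = 1) : sg f = 1 := by
  have h1 : φS f = 1 := GLin_lin_one (φLS_mem f) h
  rcases GLin_pm f with ⟨h2, h3⟩ | ⟨h2, h3⟩
  · exact h2
  · rw [h3] at h1
    exact absurd h1 (by decide)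

private theorem GLin_smZ (w : Fin 2 → ℤ) : smZ (embZ w) = 0 := by
  simp [smZ, embZ]

private theorem GLin_smZ_add (v v' : Fin 3 → ℤ) : smZ (v + v') = smZ v + smZ v' := by
  simp only [smZ, Pi.add_apply]
  ring

private theorem GLin_smZ_smul (c : ℤ) (v : Fin 3 → ℤ) : smZ (c • v) = c * smZ v := by
  simp only [smZ, Pi.smul_apply, smul_eq_mul]
  ring

private theorem GLin_embZ_add (w w' : Fin 2 → ℤ) : embZ (w + w') = embZ w + embZ w' := by
  funext i
  fin_cases i <;> simp [embZ] <;> ring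

/-- translations multiply -/
private def GLin_Tr (u : F13) : Fin 2 → ℤ :=
  ![2 * Multiplicative.toAdd (wd (some none) u), 2 * Multiplicative.toAdd (wd none u)]

private theorem GLin_Tr_mul (u u' : F13) : GLin_Tr (u * u') = GLin_Tr u + GLin_Tr u' := by
  unfold GLin_Tr
  funext i
  fin_cases i
  · show 2 * Multiplicative.toAdd (wd (some none) (u * u')) = 2 * Multiplicative.toAdd (wd (some none) u) +
      2 * Multiplicative.toAdd (wd (some none) u')
    rw [_root_.map_mul, toAdd_mul]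
    ring
  · show 2 * Multiplicative.toAdd (wd none (u * u')) = 2 * Multiplicative.toAdd (wd none u) +
      2 * Multiplicative.toAdd (wd none u')
    rw [_root_.map_mul, toAdd_mul]
    ring

private theorem GLin_Tr_one : GLin_Tr 1 = 0 := by
  unfold GLin_Tr
  have h1 : wd (some none : Option (Option (Fin 11))) 1 = 1 := _root_.map_one _
  have h2 : wd (none : Option (Option (Fin 11))) 1 = 1 := _root_.map_one _
  rw [h1, h2]
  funext i
  fin_cases i <;> rfl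

private theorem GLin_embZ_zero : embZ 0 = 0 := by
  funext i
  fin_cases i <;> simp [embZ]

private theorem GLin_mul {u u' : F13}
    (h : ∀ v : Fin 3 → ℤ, (φL (j13 u) : Matrix (Fin 3) (Fin 3) ℤ) *ᵥ v =
      v + smZ v • embZ (GLin_Tr u))
    (h' : ∀ v : Fin 3 → ℤ, (φL (j13 u') : Matrix (Fin 3) (Fin 3) ℤ) *ᵥ v =
      v + smZ v • embZ (GLin_Tr u')) (v : Fin 3 → ℤ) :
    (φL (j13 (u * u')) : Matrix (Fin 3) (Fin 3) ℤ) *ᵥ v =
      v + smZ v • embZ (GLin_Tr (u * u')) := by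
  rw [_root_.map_mul, _root_.map_mul, Matrix.SpecialLinearGroup.coe_mul, ← Matrix.mulVec_mulVec,
    h', h, GLin_smZ_add, GLin_smZ_smul, GLin_smZ, mul_zero, add_zero, add_assoc, ← smul_add,
    ← GLin_embZ_add, GLin_Tr_mul, add_comm (GLin_Tr u)]

private theorem GLin_inv {u : F13}
    (h : ∀ v : Fin 3 → ℤ, (φL (j13 u) : Matrix (Fin 3) (Fin 3) ℤ) *ᵥ v =
      v + smZ v • embZ (GLin_Tr u)) (v : Fin 3 → ℤ) :
    (φL (j13 u⁻¹) : Matrix (Fin 3) (Fin 3) ℤ) *ᵥ v =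
      v + smZ v • embZ (GLin_Tr u⁻¹) := by
  have h1 := h (v + smZ v • embZ (GLin_Tr u⁻¹))
  rw [GLin_smZ_add, GLin_smZ_smul, GLin_smZ, mul_zero, add_zero, add_assoc, ← smul_add,
    ← GLin_embZ_add, ← GLin_Tr_mul, inv_mul_cancel, GLin_Tr_one, GLin_embZ_zero, smul_zero,
    add_zero] at h1
  have h3 : (φL (j13 u⁻¹) : Matrix (Fin 3) (Fin 3) ℤ) *
      (φL (j13 u) : Matrix (Fin 3) (Fin 3) ℤ) = 1 := by
    rw [← Matrix.SpecialLinearGroup.coe_mul, ← _root_.map_mul, ← _root_.map_mul, inv_mul_cancel,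
      _root_.map_one, _root_.map_one]
    rfl
  conv_lhs => rw [← h1]
  rw [Matrix.mulVec_mulVec, h3, Matrix.one_mulVec]

private theorem GLin_s : ∀ s, φL (s7 s) = 1 := by decide +kernel

private theorem GLin_X : φL (jF (some none)) = LU0 * LU1 := by decide +kernel

private theorem GLin_Y : φL (jF none) = LU1 * LU2 := by decide +kernel

private theorem GLin_letter (o : Option (Option (Fin 11))) (v : Fin 3 → ℤ) :
    (φL (j13 (of o)) : Matrix (Fin 3) (Fin 3) ℤ) *ᵥ v = v + smZ v • embZ (GLin_Tr (of o)) := by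
  have hj : j13 (of o) = jF o := FreeGroup.lift_apply_of
  rw [hj]
  unfold GLin_Tr
  rcases o with _ | _ | s
  · rw [GLin_Y]
    have h1 : wd (some none : Option (Option (Fin 11))) (of none) = 1 := by
      unfold wd
      rw [FreeGroup.lift_apply_of]
      rfl
    have h2 : wd (none : Option (Option (Fin 11))) (of none) = Multiplicative.ofAdd 1 := by
      unfold wd
      rw [FreeGroup.lift_apply_of]
      rfl
    rw [h1, h2]
    funext i
    fin_cases i <;> simp [LU1, LU2, smZ, embZ, Matrix.mulVec, dotProduct, Matrix.mul_apply,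
      Fin.sum_univ_three] <;> ring
  · rw [GLin_X]
    have h1 : wd (some none : Option (Option (Fin 11))) (of (some none)) =
        Multiplicative.ofAdd 1 := by
      unfold wd
      rw [FreeGroup.lift_apply_of]
      rfl
    have h2 : wd (none : Option (Option (Fin 11))) (of (some none)) = 1 := by
      unfold wd
      rw [FreeGroup.lift_apply_of]
      rfl
    rw [h1, h2]
    funext i
    fin_cases i <;> simp [LU0, LU1, smZ, embZ, Matrix.mulVec, dotProduct, Matrix.mul_apply,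
      Fin.sum_univ_three] <;> ring
  · have h0 : jF (some (some s)) = s7 s := rfl
    rw [h0, GLin_s]
    have h1 : wd (some none : Option (Option (Fin 11))) (of (some (some s))) = 1 := by
      unfold wd
      rw [FreeGroup.lift_apply_of, if_neg]
      intro h
      cases h
    have h2 : wd (none : Option (Option (Fin 11))) (of (some (some s))) = 1 := by
      unfold wd
      rw [FreeGroup.lift_apply_of, if_neg]
      intro h
      cases h
    rw [h1, h2]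
    have h3 : (![2 * Multiplicative.toAdd (1 : Multiplicative ℤ),
        2 * Multiplicative.toAdd (1 : Multiplicative ℤ)] : Fin 2 → ℤ) = 0 := by
      funext i
      fin_cases i <;> rfl
    rw [h3, GLin_embZ_zero, smul_zero, add_zero]
    exact Matrix.one_mulVec v

theorem trans7 (u : F13) (v : Fin 3 → ℤ) :
    (φL (j13 u) : Matrix (Fin 3) (Fin 3) ℤ) *ᵥ v =
      v + smZ v • embZ ![2 * Multiplicative.toAdd (wd (some none) u),
        2 * Multiplicative.toAdd (wd none u)] := by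
  refine FreeGroup.induction_on (C := fun u => ∀ v : Fin 3 → ℤ,
    (φL (j13 u) : Matrix (Fin 3) (Fin 3) ℤ) *ᵥ v = v + smZ v • embZ (GLin_Tr u)) u ?_ ?_ ?_ ?_ v
  · intro v
    rw [_root_.map_one, _root_.map_one, GLin_Tr_one, GLin_embZ_zero, smul_zero, add_zero]
    exact Matrix.one_mulVec v
  · intro o v
    exact GLin_letter o v
  · intro o ho v
    exact GLin_inv ho v
  · intro x y hx hy v
    exact GLin_mul hx hy v

variable {G : Type} [Group G] (D : G2A G)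

private theorem GLin_inv_sq {H : Type*} [Group H] {u : H} (h : u * u = 1) : u⁻¹ = u :=
  inv_eq_of_mul_eq_one_left h

private theorem GLin_Tφ (i : Fin 7) : φT (x7 i) = ![1, U0, 1, U1, 1, U2, 1] i :=
  FreeGroup.lift_apply_of

private theorem GLin_cj {H : Type*} [Group H] {s u w : H} (h : s * u = w * s) : s * u * s⁻¹ = w := by
  rw [h, mul_inv_cancel_right]

private theorem GLin_TA (i : Fin 7) : S1 * φT (x7 i) * S1⁻¹ = φT (αA (x7 i)) := by
  have i0 := GLin_inv_sq U0_sq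
  have h0 : S1 * U0 * S1⁻¹ = U0 * U1 * U0 := GLin_cj S1_U0
  have h1 : S1 * U1 * S1⁻¹ = U0 := GLin_cj S1_U1
  have h2 : S1 * U2 * S1⁻¹ = U2 := GLin_cj S1_U2
  have h3 : S1 * 1 * S1⁻¹ = (1 : Equiv.Perm (V3 × V3)) := by group
  rw [αA_apply]
  have e : φT (fA (x7 i)) = φT (![x7 0 * x7 1 * x7 2 * (x7 1)⁻¹ * (x7 0)⁻¹,
    x7 0 * x7 1 * x7 3 * (x7 1)⁻¹ * (x7 0)⁻¹,
    x7 0 * x7 1 * x7 4 * (x7 1)⁻¹ * (x7 0)⁻¹, x7 0 * x7 1 * (x7 0)⁻¹, x7 0, x7 5, x7 6] i) :=
    congrArg φT FreeGroup.lift_apply_of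
  rw [e, GLin_Tφ]
  fin_cases i
  · show S1 * 1 * S1⁻¹ = φT (x7 0 * x7 1 * x7 2 * (x7 1)⁻¹ * (x7 0)⁻¹)
    simp only [_root_.map_mul, _root_.map_inv, GLin_Tφ]
    rw [h3]
    show (1 : Equiv.Perm (V3 × V3)) = 1 * U0 * 1 * U0⁻¹ * 1⁻¹
    group
  · show S1 * U0 * S1⁻¹ = φT (x7 0 * x7 1 * x7 3 * (x7 1)⁻¹ * (x7 0)⁻¹)
    simp only [_root_.map_mul, _root_.map_inv, GLin_Tφ]
    rw [h0]
    show U0 * U1 * U0 = 1 * U0 * U1 * U0⁻¹ * 1⁻¹
    rw [i0, one_mul, inv_one, mul_one]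
  · show S1 * 1 * S1⁻¹ = φT (x7 0 * x7 1 * x7 4 * (x7 1)⁻¹ * (x7 0)⁻¹)
    simp only [_root_.map_mul, _root_.map_inv, GLin_Tφ]
    rw [h3]
    show (1 : Equiv.Perm (V3 × V3)) = 1 * U0 * 1 * U0⁻¹ * 1⁻¹
    group
  · show S1 * U1 * S1⁻¹ = φT (x7 0 * x7 1 * (x7 0)⁻¹)
    simp only [_root_.map_mul, _root_.map_inv, GLin_Tφ]
    rw [h1]
    show U0 = 1 * U0 * 1⁻¹
    rw [one_mul, inv_one, mul_one]
  · show S1 * 1 * S1⁻¹ = φT (x7 0)
    rw [GLin_Tφ]
    exact h3
  · show S1 * U2 * S1⁻¹ = φT (x7 5)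
    rw [GLin_Tφ]
    exact h2
  · show S1 * 1 * S1⁻¹ = φT (x7 6)
    rw [GLin_Tφ]
    exact h3

private theorem GLin_TB (i : Fin 7) : S2 * φT (x7 i) * S2⁻¹ = φT (αB (x7 i)) := by
  have i1 := GLin_inv_sq U1_sq
  have h0 : S2 * U0 * S2⁻¹ = U0 := GLin_cj S2_U0
  have h1 : S2 * U1 * S2⁻¹ = U1 * U2 * U1 := GLin_cj S2_U1
  have h2 : S2 * U2 * S2⁻¹ = U1 := GLin_cj S2_U2
  have h3 : S2 * 1 * S2⁻¹ = (1 : Equiv.Perm (V3 × V3)) := by group
  rw [αB_apply]
  have e : φT (fB (x7 i)) = φT (![x7 0, x7 1,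
    x7 2 * x7 3 * x7 4 * x7 5 * x7 6 * (x7 5)⁻¹ * (x7 4)⁻¹ * (x7 3)⁻¹ * (x7 2)⁻¹,
    x7 2 * x7 3 * x7 4 * x7 5 * (x7 4)⁻¹ * (x7 3)⁻¹ * (x7 2)⁻¹, x7 2, x7 3, x7 4] i) :=
    congrArg φT FreeGroup.lift_apply_of
  rw [e, GLin_Tφ]
  fin_cases i
  · show S2 * 1 * S2⁻¹ = φT (x7 0)
    rw [GLin_Tφ]
    exact h3
  · show S2 * U0 * S2⁻¹ = φT (x7 1)
    rw [GLin_Tφ]
    exact h0
  · show S2 * 1 * S2⁻¹ = φT (x7 2 * x7 3 * x7 4 * x7 5 * x7 6 * (x7 5)⁻¹ * (x7 4)⁻¹ * (x7 3)⁻¹ *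
      (x7 2)⁻¹)
    simp only [_root_.map_mul, _root_.map_inv, GLin_Tφ]
    rw [h3]
    show (1 : Equiv.Perm (V3 × V3)) = 1 * U1 * 1 * U2 * 1 * U2⁻¹ * 1⁻¹ * U1⁻¹ * 1⁻¹
    group
  · show S2 * U1 * S2⁻¹ = φT (x7 2 * x7 3 * x7 4 * x7 5 * (x7 4)⁻¹ * (x7 3)⁻¹ * (x7 2)⁻¹)
    simp only [_root_.map_mul, _root_.map_inv, GLin_Tφ]
    rw [h1]
    show U1 * U2 * U1 = 1 * U1 * 1 * U2 * 1⁻¹ * U1⁻¹ * 1⁻¹
    rw [i1, one_mul, inv_one, mul_one, mul_one, mul_one]
  · show S2 * 1 * S2⁻¹ = φT (x7 2)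
    rw [GLin_Tφ]
    exact h3
  · show S2 * U2 * S2⁻¹ = φT (x7 3)
    rw [GLin_Tφ]
    exact h2
  · show S2 * 1 * S2⁻¹ = φT (x7 4)
    rw [GLin_Tφ]
    exact h3

private theorem GLin_Zeq : D.Z = D.a * D.b * D.a * D.b * D.a * D.b := by
  unfold G2A.Z GT.Z
  simp [GT.zw, GT.ev_cons, GT.ev_nil, GT.lt, GT.gg, mul_assoc]

private theorem GLin_FZ {H : Type*} [Group H] (F : G →* H) : F D.Z = (F D.a * F D.b) ^ 3 := by
  rw [GLin_Zeq]
  simp only [_root_.map_mul, pow_succ, pow_zero, one_mul, mul_assoc]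

private theorem GLin_Fc {H : Type*} [Group H] (F : G →* H) :
    F (D.c * (D.a * D.a * D.a)⁻¹) = F D.c * (F D.a * F D.a * F D.a)⁻¹ := by
  simp only [_root_.map_mul, _root_.map_inv]

theorem T_ι7 (f : F7) : D.T (D.ι f) = φT f := by
  refine gen_hom D D.T φT ?_ ?_ ?_ ?_ f
  · intro i
    rw [D.T_spec.1]
    exact GLin_TA i
  · intro i
    rw [D.T_spec.2.1]
    exact GLin_TB i
  · rw [GLin_Fc, D.T_spec.1, D.T_spec.2.2]
    have h1 : U1 * U0 * S1 ^ 3 * (S1 * S1 * S1)⁻¹ = U1 * U0 := by group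
    have h2 : φT C7 = U0 * U1 := by
      unfold C7
      simp only [_root_.map_mul, GLin_Tφ]
      show 1 * U0 * 1 * U1 * 1 = U0 * U1
      group
    rw [h1, h2, mul_inv_rev, GLin_inv_sq U0_sq, GLin_inv_sq U1_sq]
  · rw [GLin_FZ, D.T_spec.1, D.T_spec.2.1, S_cube]
    unfold P7
    simp only [_root_.map_mul, GLin_Tφ]
    show U0 * U1 * U2 = 1 * U0 * 1 * U1 * 1 * U2 * 1
    group

theorem L_ι7 (f : F7) : D.L (D.ι f) = φL f := by
  refine gen_hom D D.L φL ?_ ?_ ?_ ?_ f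
  · intro i
    rw [D.L_spec.1]
    exact (φL_A7 i).symm
  · intro i
    rw [D.L_spec.2.1]
    exact (φL_B7 i).symm
  · rw [GLin_Fc, D.L_spec.1, D.L_spec.2.2]
    decide +kernel
  · rw [GLin_FZ, D.L_spec.1, D.L_spec.2.1]
    decide +kernel

private theorem GLin_SA : ∀ i, As * φS (x7 i) * As⁻¹ = φS (αA (x7 i)) := by decide +kernel

private theorem GLin_SB : ∀ i, At * φS (x7 i) * At⁻¹ = φS (αB (x7 i)) := by decide +kernel

theorem lin_ι7 (f : F7) : D.lin (D.ι f) = φS f := by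
  refine gen_hom D D.lin φS ?_ ?_ ?_ ?_ f
  · intro i
    rw [D.lin_spec.1]
    exact GLin_SA i
  · intro i
    rw [D.lin_spec.2.1]
    exact GLin_SB i
  · rw [GLin_Fc, D.lin_spec.1, D.lin_spec.2.2]
    decide +kernel
  · rw [GLin_FZ, D.lin_spec.1, D.lin_spec.2.1]
    decide +kernel

theorem L_lin7 (g : G) : (D.L g, D.lin g) ∈ LG := by
  refine D.mem_of (LG.comap (D.L.prod D.lin)) ?_ ?_ ?_ g
  · show (D.L D.a, D.lin D.a) ∈ LG
    rw [D.L_spec.1, D.lin_spec.1]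
    exact LS1_mem
  · show (D.L D.b, D.lin D.b) ∈ LG
    rw [D.L_spec.2.1, D.lin_spec.2.1]
    exact LS2_mem
  · show (D.L D.c, D.lin D.c) ∈ LG
    rw [D.L_spec.2.2, D.lin_spec.2.2]
    have h1 := LG.mul_mem (LG.mul_mem LU1_mem LU0_mem)
      (LG.mul_mem (LG.mul_mem LS1_mem LS1_mem) LS1_mem)
    have h2 : ((LU1, -1) * (LU0, -1) * ((LS1, As) * (LS1, As) * (LS1, As)) : SL3 × SL2) =
        (LU1 * LU0 * (LS1 * LS1 * LS1), As * As * As) :=
      Prod.ext rfl (by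
        show (-1) * (-1) * (As * As * As) = As * As * As
        rw [neg_mul_neg, one_mul, one_mul])
    rw [h2] at h1
    exact h1

theorem T_L7 (g : G) : (D.T g, D.L g) ∈ BG := by
  refine D.mem_of (BG.comap (D.T.prod D.L)) ?_ ?_ ?_ g
  · show (D.T D.a, D.L D.a) ∈ BG
    rw [D.T_spec.1, D.L_spec.1]
    exact S1_mem
  · show (D.T D.b, D.L D.b) ∈ BG
    rw [D.T_spec.2.1, D.L_spec.2.1]
    exact S2_mem
  · show (D.T D.c, D.L D.c) ∈ BG
    rw [D.T_spec.2.2, D.L_spec.2.2]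
    have h1 := BG.mul_mem (BG.mul_mem U1_mem U0_mem)
      (BG.mul_mem (BG.mul_mem S1_mem S1_mem) S1_mem)
    have h2 : ((U1, LU1) * (U0, LU0) * ((S1, LS1) * (S1, LS1) * (S1, LS1)) :
        Equiv.Perm (V3 × V3) × SL3) = (U1 * U0 * S1 ^ 3, LU1 * LU0 * (LS1 * LS1 * LS1)) :=
      Prod.ext (by
        show U1 * U0 * (S1 * S1 * S1) = U1 * U0 * S1 ^ 3
        simp only [pow_succ, pow_zero, one_mul]) rfl
    rw [h2] at h1
    exact h1

theorem lin_surj7 : Function.Surjective D.lin := by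
  rw [← MonoidHom.range_eq_top, eq_top_iff, ← SpecialLinearGroup.SL2Z_generators,
    Subgroup.closure_le]
  rintro x (rfl | hx)
  · refine ⟨(D.a * D.b * D.a)⁻¹, ?_⟩
    rw [_root_.map_inv, _root_.map_mul, _root_.map_mul, D.lin_spec.1, D.lin_spec.2.1]
    refine inv_eq_of_mul_eq_one_right ?_
    refine Subtype.ext ?_
    ext i j
    fin_cases i <;> fin_cases j <;>
      simp [As, At, ModularGroup.S, Matrix.mul_apply, Fin.sum_univ_two]
  · rw [Set.mem_singleton_iff] at hx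
    subst hx
    refine ⟨D.a, ?_⟩
    rw [D.lin_spec.1]
    rfl

theorem lin_pm (g : G) (hg : D.lin g = 1 ∨ D.lin g = -1) : ∃ f, g = D.ι f := by
  obtain ⟨f, h, hh, rfl⟩ := decomp7 D g
  have hl : D.lin h = 1 ∨ D.lin h = -1 := by
    rw [_root_.map_mul, lin_ι7] at hg
    rcases GLin_pm f with ⟨_, h2⟩ | ⟨_, h2⟩
    · rw [h2, one_mul] at hg
      exact hg
    · rw [h2, neg_one_mul] at hg
      rcases hg with hg | hg
      · right
        rw [← hg, neg_neg]
      · left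
        exact neg_injective hg
  have haK : D.a ∈ Subgroup.closure ({D.a, D.b} : Set G) := Subgroup.subset_closure (by simp)
  have hbK : D.b ∈ Subgroup.closure ({D.a, D.b} : Set G) := Subgroup.subset_closure (by simp)
  have hgen : Subgroup.closure ({⟨D.a, haK⟩, ⟨D.b, hbK⟩} :
      Set (Subgroup.closure ({D.a, D.b} : Set G))) = ⊤ := by
    have e : ({⟨D.a, haK⟩, ⟨D.b, hbK⟩} : Set (Subgroup.closure ({D.a, D.b} : Set G))) =
        ((↑) : Subgroup.closure ({D.a, D.b} : Set G) → G) ⁻¹' {D.a, D.b} := by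
      ext x
      simp only [Set.mem_insert_iff, Set.mem_singleton_iff, Set.mem_preimage, Subtype.ext_iff]
    rw [e]
    exact Subgroup.closure_closure_coe_preimage
  obtain ⟨k, hk⟩ := b3_ker (⟨D.a, haK⟩ : Subgroup.closure ({D.a, D.b} : Set G)) ⟨D.b, hbK⟩
    (Subtype.ext D.hab) hgen (D.lin.comp (Subgroup.closure ({D.a, D.b} : Set G)).subtype)
    (by
      change (D.lin D.a).1 = _
      rw [D.lin_spec.1]; rfl)
    (by
      change (D.lin D.b).1 = _
      rw [D.lin_spec.2.1]; rfl) ⟨h, hh⟩ hl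
  have hk' : h = ((D.a * D.b) ^ 3) ^ k := by
    have h1 := congrArg (fun x : Subgroup.closure ({D.a, D.b} : Set G) => (x : G)) hk
    simpa using h1
  have hZ : (D.a * D.b) ^ 3 = D.Z := by
    rw [GLin_Zeq]
    simp only [pow_succ, pow_zero, one_mul, mul_assoc]
  refine ⟨f * P7 ^ k, ?_⟩
  rw [_root_.map_mul, map_zpow, ι_P7, hk', hZ]

/-- the permutations which fix the base -/
private def GLin_B : Subgroup (Equiv.Perm (V3 × V3)) where
  carrier := {q | ∀ p, (q p).1 = p.1}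
  one_mem' := fun p => rfl
  mul_mem' := by
    intro q q' h h' p
    change (q (q' p)).1 = p.1
    rw [h, h']
  inv_mem' := by
    intro q h p
    have h1 := h (q⁻¹ p)
    have h2 : q (q⁻¹ p) = p := q.apply_symm_apply p
    rw [h2] at h1
    exact h1.symm

theorem base7 (g : G) (hg : D.lin g = 1) (p : V3 × V3) : (D.T g p).1 = p.1 := by
  obtain ⟨f, rfl⟩ := lin_pm D g (Or.inl hg)
  rw [T_ι7]
  have h1 : φT f ∈ GLin_B := by
    refine FreeGroup.induction_on (C := fun f => φT f ∈ GLin_B) f ?_ ?_ ?_ ?_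
    · rw [_root_.map_one]
      exact Subgroup.one_mem _
    · intro i
      show φT (x7 i) ∈ GLin_B
      rw [GLin_Tφ]
      have h1 : (1 : Equiv.Perm (V3 × V3)) ∈ GLin_B := Subgroup.one_mem _
      have h2 : U0 ∈ GLin_B := fun _ => rfl
      have h3 : U1 ∈ GLin_B := fun _ => rfl
      have h4 : U2 ∈ GLin_B := fun _ => rfl
      fin_cases i
      · exact h1
      · exact h2
      · exact h1
      · exact h3
      · exact h1
      · exact h4
      · exact h1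
    · intro i hi
      rw [_root_.map_inv]
      exact Subgroup.inv_mem _ hi
    · intro x y hx hy
      rw [_root_.map_mul]
      exact Subgroup.mul_mem _ hx hy
  exact h1 p

end Pool.Agent.Lib.MP_9dbb0e_al.DF
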