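import Pool.Agent.Lib.MP_9dbb0e_al.D.GJ

/-!
# JOB GPP: the basis `PP`

READ GDat.lean, KBas.lean, GJ.lean first. `PP (of (m, (n, o))) = j13 (X ^ m Y ^ n) * q7 o * (j13 (X ^ m Y ^ n))⁻¹`.

PROOFS. (`open FreeGroup` makes `map_mul`, `mul_inv_rev` ambiguous: write `_root_.map_mul`.)
`χ` is the endomorphism `(m, (n, some s)) ↦ itself`, `(m, (n, none)) ↦ s_0 .. s_4 * (m, (n, none)) * s_5 .. s_10` (letters `(m, (n, some s))`); `χ'`: `(m, (n, none)) ↦ (s_0 .. s_4)⁻¹ * (m, (n, none)) * (s_5 .. s_10)⁻¹`; `χ ∘ χ' = id = χ' ∘ χ` (`FreeGroup.ext_hom`): `chi_bij`.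
`PP_eq`: `PP = j13 ∘ kb (Fin 11) ∘ χ`: on the letter `(m, (n, some s))`: `kb` gives `X ^ m Y ^ n s Y ^ (-n) X ^ (-m)`, `j13 (s13 s) = s7 s`; on `(m, (n, none))`: `kb (Π_1 * (m, (n, none)) * Π_2) = e * (s_0 .. s_4 * (X Y⁻¹ X⁻¹ Y) * s_5 .. s_10) * e⁻¹`, `e = X ^ m Y ^ n` (`of (some none) = X13`, `of none = Y13`; telescoping: `group` or conjugation as a homomorphism); `P7_sq`.
`PP_inj`: composition of injective maps (`j13_inj`, `kb_inj`, `chi_bij`).
`PP_range`: `PP v = f` for some `v` iff `f = j13 u`, `u = kb v'`, iff `wd none u = 1` and `wd (some none) u = 1` (`kb_range`).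
`PP_split`: `j13 w = PP k * j13 (X ^ m * Y ^ n)` with `m, n` the exponents of `w`: `w * (X ^ m * Y ^ n)⁻¹` has both exponents zero (`wd i (of j) = if i = j ..`: see MRs.lean).
`PP_conj`: `j13 w * q7 o * (j13 w)⁻¹ = PP (k * of (m, (n, o)) * k⁻¹)`: from `PP_split`.
`PP_of`: `FreeGroup.lift_apply_of`.
`PP_normal`: `f * PP v * f⁻¹` is in the range of `PP`: `φL` version: see GPi.lean; not needed here.
-/

set_option autoImplicit false
set_option maxRecDepth 100000

namespace Pool.Agent.Lib.MP_9dbb0e_al.DF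

open FreeGroup
open scoped Matrix

/-- the letters over `(m, n)` -/
def sI (m n : ℤ) (s : Fin 11) : FreeGroup I7 := of (m, (n, some s))

/-- the change of the basis -/
def chi : FreeGroup I7 →* FreeGroup I7 := FreeGroup.lift fun p =>
  match p with
  | (m, (n, none)) => sI m n 0 * sI m n 1 * sI m n 2 * sI m n 3 * sI m n 4 * of (m, (n, none)) *
      (sI m n 5 * sI m n 6 * sI m n 7 * sI m n 8 * sI m n 9 * sI m n 10)
  | (m, (n, some s)) => of (m, (n, some s))

private def GPP_a (m n : ℤ) : FreeGroup I7 := sI m n 0 * sI m n 1 * sI m n 2 * sI m n 3 * sI m n 4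

private def GPP_b (m n : ℤ) : FreeGroup I7 :=
  sI m n 5 * sI m n 6 * sI m n 7 * sI m n 8 * sI m n 9 * sI m n 10

private def GPP_chi : FreeGroup I7 →* FreeGroup I7 := FreeGroup.lift fun p =>
  match p with
  | (m, (n, none)) => (GPP_a m n)⁻¹ * of (m, (n, none)) * (GPP_b m n)⁻¹
  | (m, (n, some s)) => of (m, (n, some s))

private theorem GPP_n (m n : ℤ) : chi (of (m, (n, none))) = GPP_a m n * of (m, (n, none)) * GPP_b m n := by
  unfold chi
  rw [FreeGroup.lift_apply_of]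
  rfl

private theorem GPP_s (m n : ℤ) (s : Fin 11) : chi (of (m, (n, some s))) = of (m, (n, some s)) := by
  unfold chi
  rw [FreeGroup.lift_apply_of]

private theorem GPP_n' (m n : ℤ) :
    GPP_chi (of (m, (n, none))) = (GPP_a m n)⁻¹ * of (m, (n, none)) * (GPP_b m n)⁻¹ := by
  unfold GPP_chi
  rw [FreeGroup.lift_apply_of]

private theorem GPP_s' (m n : ℤ) (s : Fin 11) : GPP_chi (of (m, (n, some s))) = of (m, (n, some s)) := by
  unfold GPP_chi
  rw [FreeGroup.lift_apply_of]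

private theorem GPP_ca (m n : ℤ) : chi (GPP_a m n) = GPP_a m n := by
  unfold GPP_a sI
  simp only [_root_.map_mul, GPP_s]

private theorem GPP_cb (m n : ℤ) : chi (GPP_b m n) = GPP_b m n := by
  unfold GPP_b sI
  simp only [_root_.map_mul, GPP_s]

private theorem GPP_ca' (m n : ℤ) : GPP_chi (GPP_a m n) = GPP_a m n := by
  unfold GPP_a sI
  simp only [_root_.map_mul, GPP_s']

private theorem GPP_cb' (m n : ℤ) : GPP_chi (GPP_b m n) = GPP_b m n := by
  unfold GPP_b sI
  simp only [_root_.map_mul, GPP_s']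

theorem chi_bij : Function.Bijective chi := by
  have h1 : GPP_chi.comp chi = MonoidHom.id _ := by
    refine FreeGroup.ext_hom _ _ fun p => ?_
    obtain ⟨m, n, o⟩ := p
    rcases o with _ | s
    · rw [MonoidHom.comp_apply, GPP_n, _root_.map_mul, _root_.map_mul, GPP_ca', GPP_cb', GPP_n', MonoidHom.id_apply,
        mul_assoc, mul_assoc, mul_assoc, mul_inv_cancel_left, inv_mul_cancel, mul_one]
    · rw [MonoidHom.comp_apply, GPP_s, GPP_s', MonoidHom.id_apply]
  have h2 : chi.comp GPP_chi = MonoidHom.id _ := by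
    refine FreeGroup.ext_hom _ _ fun p => ?_
    obtain ⟨m, n, o⟩ := p
    rcases o with _ | s
    · rw [MonoidHom.comp_apply, GPP_n', _root_.map_mul, _root_.map_mul, _root_.map_inv, _root_.map_inv, GPP_ca, GPP_cb,
        GPP_n, MonoidHom.id_apply, mul_assoc, mul_assoc, mul_assoc, inv_mul_cancel_left, mul_inv_cancel, mul_one]
    · rw [MonoidHom.comp_apply, GPP_s', GPP_s, MonoidHom.id_apply]
  exact Function.bijective_iff_has_inverse.2 ⟨GPP_chi, fun x => DFunLike.congr_fun h1 x, fun x => DFunLike.congr_fun h2 x⟩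

theorem PP_of (m n : ℤ) (o : Option (Fin 11)) : PP (of (m, (n, o))) =
    j13 (X13 ^ m * Y13 ^ n) * q7 o * (j13 (X13 ^ m * Y13 ^ n))⁻¹ := by
  unfold PP
  rw [FreeGroup.lift_apply_of]

private theorem GPP_js (s : Fin 11) : j13 (s13 s) = s7 s := by
  unfold j13 s13
  rw [FreeGroup.lift_apply_of]
  rfl

private theorem GPP_kb (m n : ℤ) (o : Option (Fin 11)) : kb (Fin 11) (of (m, (n, o))) =
    MulAut.conj (X13 ^ m * Y13 ^ n) (kbF (Fin 11) o) := by
  unfold kb
  rw [FreeGroup.lift_apply_of, MulAut.conj_apply, _root_.mul_inv_rev, ← mul_assoc]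
  rfl

private theorem GPP_kbs (m n : ℤ) (s : Fin 11) : kb (Fin 11) (sI m n s) = MulAut.conj (X13 ^ m * Y13 ^ n) (s13 s) :=
  GPP_kb m n (some s)

private theorem GPP_mid : j13 (s13 0 * s13 1 * s13 2 * s13 3 * s13 4 * kbF (Fin 11) none *
    (s13 5 * s13 6 * s13 7 * s13 8 * s13 9 * s13 10)) = P7 * P7 := by
  have h : j13 (kbF (Fin 11) none) = jF (some none) * (jF none)⁻¹ * (jF (some none))⁻¹ * jF none := by
    unfold kbF j13
    rw [_root_.map_mul, _root_.map_mul, _root_.map_mul, _root_.map_inv, _root_.map_inv, FreeGroup.lift_apply_of,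
      FreeGroup.lift_apply_of]
  rw [P7_sq, ← h]
  simp only [_root_.map_mul, GPP_js]

private theorem GPP_jc (E z : F13) : j13 (MulAut.conj E z) = j13 E * j13 z * (j13 E)⁻¹ := by
  rw [MulAut.conj_apply, _root_.map_mul, _root_.map_mul, _root_.map_inv]

theorem PP_eq : PP = j13.comp ((kb (Fin 11)).comp chi) := by
  refine FreeGroup.ext_hom _ _ fun p => ?_
  obtain ⟨m, n, o⟩ := p
  rw [PP_of, MonoidHom.comp_apply, MonoidHom.comp_apply]
  rcases o with _ | s
  · have h : kb (Fin 11) (chi (of (m, (n, none)))) = MulAut.conj (X13 ^ m * Y13 ^ n)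
        (s13 0 * s13 1 * s13 2 * s13 3 * s13 4 * kbF (Fin 11) none *
          (s13 5 * s13 6 * s13 7 * s13 8 * s13 9 * s13 10)) := by
      rw [GPP_n]
      unfold GPP_a GPP_b
      simp only [_root_.map_mul, GPP_kbs, GPP_kb]
    rw [h, GPP_jc, GPP_mid]
    rfl
  · have h : j13 (kbF (Fin 11) (some s)) = s7 s := GPP_js s
    rw [GPP_s, GPP_kb, GPP_jc, h]
    rfl

private theorem GPP_app (v : FreeGroup I7) : PP v = j13 (kb (Fin 11) (chi v)) := by
  rw [PP_eq]
  rfl

theorem PP_inj : Function.Injective PP := by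
  intro v w h
  rw [GPP_app, GPP_app] at h
  exact chi_bij.1 (kb_inj (Fin 11) (j13_inj h))

theorem PP_range (f : F7) : (∃ v, PP v = f) ↔
    ∃ u, j13 u = f ∧ wd none u = 1 ∧ wd (some none) u = 1 := by
  constructor
  · rintro ⟨v, hv⟩
    refine ⟨kb (Fin 11) (chi v), ?_, (kb_range (Fin 11) _).1 ⟨chi v, rfl⟩⟩
    rw [← GPP_app, hv]
  · rintro ⟨u, hu, h⟩
    obtain ⟨v', hv'⟩ := (kb_range (Fin 11) u).2 h
    obtain ⟨v, hv⟩ := chi_bij.2 v'
    exact ⟨v, by rw [GPP_app, hv, hv', hu]⟩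

private theorem GPP_wn (m n : ℤ) : wd none (X13 ^ m * Y13 ^ n) = Multiplicative.ofAdd n := by
  have h1 : wd none X13 = 1 := by
    unfold wd X13
    rw [FreeGroup.lift_apply_of]
    rfl
  have h2 : wd none Y13 = Multiplicative.ofAdd 1 := by
    unfold wd Y13
    rw [FreeGroup.lift_apply_of]
    rfl
  rw [_root_.map_mul, _root_.map_zpow, _root_.map_zpow, h1, h2, one_zpow, one_mul, ← ofAdd_zsmul, smul_eq_mul, mul_one]

private theorem GPP_ws (m n : ℤ) : wd (some none) (X13 ^ m * Y13 ^ n) = Multiplicative.ofAdd m := by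
  have h1 : wd (some none) X13 = Multiplicative.ofAdd 1 := by
    unfold wd X13
    rw [FreeGroup.lift_apply_of]
    rfl
  have h2 : wd (some none) Y13 = 1 := by
    unfold wd Y13
    rw [FreeGroup.lift_apply_of]
    rfl
  rw [_root_.map_mul, _root_.map_zpow, _root_.map_zpow, h1, h2, one_zpow, mul_one, ← ofAdd_zsmul, smul_eq_mul, mul_one]

theorem PP_split (w : F13) : ∃ k, j13 w = PP k *
    j13 (X13 ^ Multiplicative.toAdd (wd (some none) w) * Y13 ^ Multiplicative.toAdd (wd none w)) := by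
  obtain ⟨E, hE⟩ : ∃ E, E = X13 ^ Multiplicative.toAdd (wd (some none) w) *
    Y13 ^ Multiplicative.toAdd (wd none w) := ⟨_, rfl⟩
  have h1 : wd none (w * E⁻¹) = 1 := by
    rw [_root_.map_mul, _root_.map_inv, hE, GPP_wn, ofAdd_toAdd, mul_inv_cancel]
  have h2 : wd (some none) (w * E⁻¹) = 1 := by
    rw [_root_.map_mul, _root_.map_inv, hE, GPP_ws, ofAdd_toAdd, mul_inv_cancel]
  obtain ⟨k, hk⟩ := (PP_range (j13 (w * E⁻¹))).2 ⟨_, rfl, h1, h2⟩
  refine ⟨k, ?_⟩
  rw [hk, ← hE, ← _root_.map_mul, inv_mul_cancel_right]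

theorem PP_conj (w : F13) (o : Option (Fin 11)) : ∃ k, j13 w * q7 o * (j13 w)⁻¹ =
    PP (k * of (Multiplicative.toAdd (wd (some none) w), (Multiplicative.toAdd (wd none w), o)) *
      k⁻¹) := by
  obtain ⟨k, hk⟩ := PP_split w
  refine ⟨k, ?_⟩
  have h : ∀ a b c : F7, a * b * c * (a * b)⁻¹ = a * (b * c * b⁻¹) * a⁻¹ := fun a b c => by
    rw [_root_.mul_inv_rev]
    simp only [mul_assoc]
  rw [hk, h, ← PP_of, ← _root_.map_inv, ← _root_.map_mul, ← _root_.map_mul]

end Pool.Agent.Lib.MP_9dbb0e_al.DF
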