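import Pool.Agent.Lib.MP_9dbb0e_al.D.GDefs
import Pool.Agent.Lib.MP_9dbb0e_al.D.MCt
import Pool.Agent.Lib.MP_9dbb0e_al.D.GAm

/-!
# JOB GTw: the twist `t7` and the group `E7`

`t7 = αA ^ 6`, `D7 = x1 x3`, `z7 = x3⁻¹ x2 x3`, `C7 = x0 D7 z7 x4`. `E7 = F7 ⋊ ℤ`, the generator of `ℤ` acts as `t7`; `j7 (f, k) = conj f * t7 ^ k`.

PROOFS. (`open FreeGroup` makes `map_mul`, `mul_inv_rev` ambiguous: write `_root_.map_mul`.)
`t7_C`, `t7_D` follow from the seven identities above (checked by `decide +kernel`), or `decide +kernel` directly.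
`conj_aut`: `g * conj w * g⁻¹ = conj (g w)` for `g : MulAut F7`: `MulEquiv.ext`, `simp [MulAut.conj_apply]`.
`t7_zpow`: `t7 ^ k = conj f` implies `f = 1` and `k = 0`: apply to `x7 5`: `t7 ^ k` fixes `x7 5` (`Int.induction_on`, or `MulAut` stabilizer subgroup), so `f` commutes with `x7 5`, the same for `x7 6`: `center_free` (MCt.lean): `f = 1`. So `t7 ^ k = 1`; `t7 ^ k (x7 0) = C7 ^ (2 k) * x7 0 * C7 ^ (-(2 k))` (induction: `t7 (C7 ^ m) = C7 ^ m`; or: `(conj (C7 * C7))⁻¹ * t7` commutes with .. and fixes `x7 0`: the element `s = (conj (C7 * C7))⁻¹ * t7` fixes `x7 0` and `x7 4`, commutes with `conj C7`; so `t7 ^ k = conj (C7 * C7) ^ k * s ^ k`),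
 the same for `x7 4`; so `C7 ^ (2 k)` commutes with `x7 0` and `x7 4`, `center_free`: `C7 ^ (2 k) = 1`; the exponent sum `FreeGroup.lift (fun _ => ofAdd 1) : F7 →* Multiplicative ℤ` gives `10 k = 0`.
`j7_inj`: `injective_iff_map_eq_one`: `conj f * t7 ^ k = 1`: `t7 ^ k = conj f⁻¹`.
-/

set_option autoImplicit false
set_option maxRecDepth 100000

namespace Pool.Agent.Lib.MP_9dbb0e_al.DF

open FreeGroup
open scoped Matrix

/-- the sixth power of `αA` -/
def t7 : MulAut F7 := (αA * αA * αA) * (αA * αA * αA)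

def D7 : F7 := x7 1 * x7 3

def z7 : F7 := (x7 3)⁻¹ * x7 2 * x7 3

theorem C7_eq : C7 = x7 0 * D7 * z7 * x7 4 := by decide +kernel

theorem t7_0 : t7 (x7 0) = C7 * C7 * x7 0 * (C7 * C7)⁻¹ := by decide +kernel

theorem t7_1 : t7 (x7 1) = C7 * C7 * D7 * x7 1 * (C7 * C7 * D7)⁻¹ := by decide +kernel

theorem t7_3 : t7 (x7 3) = C7 * C7 * D7 * x7 3 * (C7 * C7 * D7)⁻¹ := by decide +kernel

theorem t7_z : t7 z7 = C7 * C7 * z7 * (C7 * C7)⁻¹ := by decide +kernel

theorem t7_4 : t7 (x7 4) = C7 * C7 * x7 4 * (C7 * C7)⁻¹ := by decide +kernel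

theorem t7_5 : t7 (x7 5) = x7 5 := by decide +kernel

theorem t7_6 : t7 (x7 6) = x7 6 := by decide +kernel

theorem t7_D : t7 D7 = C7 * C7 * D7 * (C7 * C7)⁻¹ := by decide +kernel

theorem t7_C : t7 C7 = C7 := by decide +kernel

theorem t7_pow : t7 = αA ^ 6 := by
  unfold t7
  simp only [pow_succ, pow_zero, one_mul, mul_assoc]

theorem conj_aut (g : MulAut F7) (w : F7) : g * MulAut.conj w * g⁻¹ = MulAut.conj (g w) := by
  refine MulEquiv.ext fun v => ?_
  have h1 : g (g⁻¹ v) = v := by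
    rw [← MulAut.mul_apply, mul_inv_cancel, MulAut.one_apply]
  rw [MulAut.mul_apply, MulAut.mul_apply, MulAut.conj_apply, MulAut.conj_apply,
    _root_.map_mul, _root_.map_mul, _root_.map_inv, h1]

private theorem GTw_fix {g : MulAut F7} {x : F7} (h : g x = x) (k : ℤ) : (g ^ k) x = x := by
  have h1 : g ∈ MulAction.stabilizer (MulAut F7) x := by
    rw [MulAction.mem_stabilizer_iff]
    exact h
  have h2 := Subgroup.zpow_mem _ h1 k
  rw [MulAction.mem_stabilizer_iff] at h2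
  exact h2

private theorem GTw_comm {f x : F7} (h : MulAut.conj f x = x) : x * f = f * x := by
  rw [MulAut.conj_apply] at h
  calc x * f = (f * x * f⁻¹) * f := by rw [h]
    _ = f * x := by group

private theorem GTw_five (k : ℤ) (f : F7) (h : t7 ^ k = MulAut.conj f) : f = 1 := by
  have h5 : x7 5 * f = f * x7 5 := by
    refine GTw_comm ?_
    rw [← h]
    exact GTw_fix t7_5 k
  have h6 : x7 6 * f = f * x7 6 := by
    refine GTw_comm ?_
    rw [← h]
    exact GTw_fix t7_6 k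
  exact center_free (a := (5 : Fin 7)) (b := (6 : Fin 7)) (by decide) f h5 h6

private theorem GTw_com : Commute (MulAut.conj (C7 * C7)) ((MulAut.conj (C7 * C7))⁻¹ * t7) := by
  have h1 : t7 * MulAut.conj (C7 * C7) * t7⁻¹ = MulAut.conj (C7 * C7) := by
    rw [conj_aut, _root_.map_mul, t7_C]
  have h2 : Commute (MulAut.conj (C7 * C7)) t7 := by
    show MulAut.conj (C7 * C7) * t7 = t7 * MulAut.conj (C7 * C7)
    calc MulAut.conj (C7 * C7) * t7 = (t7 * MulAut.conj (C7 * C7) * t7⁻¹) * t7 := by rw [h1]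
      _ = t7 * MulAut.conj (C7 * C7) := by group
  exact Commute.mul_right (Commute.inv_right (Commute.refl _)) h2

private theorem GTw_key {x : F7} (hx : t7 x = C7 * C7 * x * (C7 * C7)⁻¹) (k : ℤ)
    (h : t7 ^ k = 1) : x * (C7 * C7) ^ k = (C7 * C7) ^ k * x := by
  have hs : ((MulAut.conj (C7 * C7))⁻¹ * t7) x = x := by
    rw [MulAut.mul_apply, hx, ← _root_.map_inv, MulAut.conj_apply]
    group
  have h1 : t7 = MulAut.conj (C7 * C7) * ((MulAut.conj (C7 * C7))⁻¹ * t7) := by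
    rw [mul_inv_cancel_left]
  have h2 : (MulAut.conj (C7 * C7)) ^ k * ((MulAut.conj (C7 * C7))⁻¹ * t7) ^ k = 1 := by
    rw [← GTw_com.mul_zpow, ← h1, h]
  refine GTw_comm ?_
  have h3 : ((MulAut.conj (C7 * C7)) ^ k * ((MulAut.conj (C7 * C7))⁻¹ * t7) ^ k) x = x := by
    rw [h2, MulAut.one_apply]
  rw [MulAut.mul_apply, GTw_fix hs k, ← map_zpow] at h3
  exact h3

theorem t7_zpow (k : ℤ) (f : F7) (h : t7 ^ k = MulAut.conj f) : f = 1 ∧ k = 0 := by
  have hf : f = 1 := GTw_five k f h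
  refine ⟨hf, ?_⟩
  have h1 : t7 ^ k = 1 := by
    rw [h, hf, _root_.map_one]
  have h2 : (C7 * C7) ^ k = 1 :=
    center_free (a := (0 : Fin 7)) (b := (4 : Fin 7)) (by decide) _ (GTw_key t7_0 k h1)
      (GTw_key t7_4 k h1)
  have h4 : FreeGroup.lift (fun _ : Fin 7 => Multiplicative.ofAdd (1 : ℤ)) (C7 * C7) =
      Multiplicative.ofAdd (10 : ℤ) := by decide +kernel
  have h3 : (Multiplicative.ofAdd (10 : ℤ)) ^ k = 1 := by
    rw [← h4, ← map_zpow, h2]
    exact MonoidHom.map_one _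
  rw [← ofAdd_zsmul, smul_eq_mul] at h3
  have h5 : k * 10 = 0 := h3
  omega

/-- the action of the integers on the free group -/
def t7H : Zm →* MulAut F7 := zpowersHom (MulAut F7) t7

/-- the parabolic group -/
abbrev E7 : Type := F7 ⋊[t7H] Zm

/-- the parabolic group acts on the free group -/
def j7 : E7 →* MulAut F7 := SemidirectProduct.lift MulAut.conj t7H (by
  intro k
  refine MonoidHom.ext fun w => ?_
  refine MulEquiv.ext fun v => ?_
  simp [MulAut.conj_apply])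

theorem j7_apply (f : F7) (k : Zm) : j7 ⟨f, k⟩ = MulAut.conj f * t7H k := rfl

theorem j7_inj : Function.Injective j7 := by
  rw [injective_iff_map_eq_one]
  rintro ⟨f, k⟩ h
  rw [j7_apply] at h
  have h1 : t7H k = t7 ^ (Multiplicative.toAdd k) := rfl
  have h2 : t7 ^ (Multiplicative.toAdd k) = MulAut.conj f⁻¹ := by
    rw [_root_.map_inv, ← h1]
    exact eq_inv_of_mul_eq_one_right h
  obtain ⟨h3, h4⟩ := t7_zpow _ _ h2
  have h5 : f = 1 := inv_eq_one.mp h3
  have h6 : k = 1 := h4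
  rw [h5, h6]
  rfl

end Pool.Agent.Lib.MP_9dbb0e_al.DF
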