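import Pool.Agent.Lib.MP_9dbb0e_al.D.GTow
import Pool.Agent.Lib.MP_9dbb0e_al.D.GTw

/-!
# JOB GPar: the power alternative for the group `E7`

READ GTow.lean (`exists_tower`), GTw.lean first. `C7 = x0 D7 z7 x4`, `D7 = x1 x3`. (`open FreeGroup` makes `map_mul`, `mul_inv_rev` ambiguous: write `_root_.map_mul`.)

PROOF. Let `P, X0, .., t` be as in `exists_tower`, with `C, D, t', t''`.
`Θ = SemidirectProduct.lift f₁ f₂ : E7 →* P`, `f₁ : F7 →* P` with the letters `X0, X1, X3 * Z * X3⁻¹, X3, X4, X5, X6`; `f₂ = zpowersHom P t`. `f₁ D7 = D`, `f₁ z7 = Z`, `f₁ C7 = C` (`C7_eq`). The compatibility `f₁ (t7 w) = t * f₁ w * t⁻¹`: as homs in `w` (`FreeGroup.ext_hom`), on the letters: `t7_0`: `t X0 t⁻¹ = C C t' X0 t'⁻¹ (C C)⁻¹ = C C X0 (C C)⁻¹`; `t7_4` in the same way, and `t7_z` (use it for the letter `2`: `x7 2 = x7 3 * z7 * (x7 3)⁻¹`);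
 `t7_1`, `t7_3`: `t X1 t⁻¹ = C C D t'' X1 t''⁻¹ (C C D)⁻¹ = C C D X1 (C C D)⁻¹`; `t7_5`, `t7_6`. Then for all `k : Zm` (`t7H k = t7 ^ (toAdd k)`, `f₂ k = t ^ (toAdd k)`): the pairs `(α, p) : MulAut F7 × P` with `∀ w, f₁ (α w) = p * f₁ w * p⁻¹` form a subgroup, which contains `(t7, t)`, hence its powers.
`Ψ : P →* MulAut F7` by the universal property with `x_i = conj (x7 i)`, `z = conj z7`, `s = t7`, `d = conj D7`, `c = conj C7`, `s' = (conj (C7 * C7))⁻¹ * t7`, `s'' = (conj D7)⁻¹ * s'` (the conditions: `conj_aut`: `t7 * conj w = conj (t7 w) * t7`, with `t7_0`, `t7_D`, `t7_z`, `t7_4`, `t7_1`, `t7_3`, `t7_C`, `t7_5`, `t7_6`, `C7_eq`).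
`Ψ (Θ x) = j7 x`: `SemidirectProduct.hom_ext`, `FreeGroup.ext_hom` (letter `2`: `conj (x7 3) * conj z7 * (conj (x7 3))⁻¹ = conj (x7 2)`), and for `Zm`: `MonoidHom.ext_mint` (on `ofAdd 1`). So `Θ` is injective (`j7_inj`), `PA_of_injective Θ`.
-/

set_option autoImplicit false
set_option maxRecDepth 100000

namespace Pool.Agent.Lib.MP_9dbb0e_al.DF

open FreeGroup
open scoped Matrix

/-- the conjugation identity moved to one side -/
private theorem GPar_ca (w : F7) : t7 * MulAut.conj w = MulAut.conj (t7 w) * t7 := by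
  rw [← conj_aut t7 w]; group

private theorem GPar_lift (P : Type) [Group P] (y : Fin 7 → P) (t : P)
    (h : ∀ i, FreeGroup.lift y (t7 (x7 i)) = t * y i * t⁻¹) (w : F7) :
    FreeGroup.lift y (t7 w) = t * FreeGroup.lift y w * t⁻¹ := by
  have h1 : (FreeGroup.lift y).comp t7.toMonoidHom =
      (MulAut.conj t).toMonoidHom.comp (FreeGroup.lift y) := by
    refine FreeGroup.ext_hom _ _ fun i => ?_
    have h2 := h i
    simp only [MonoidHom.comp_apply, MulEquiv.coe_toMonoidHom, MulAut.conj_apply, lift_apply_of]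
    exact h2
  have h2 := DFunLike.congr_fun h1 w
  simpa only [MonoidHom.comp_apply, MulEquiv.coe_toMonoidHom, MulAut.conj_apply] using h2

private theorem GPar_zpow (P : Type) [Group P] (f : F7 →* P) (t : P)
    (h : ∀ w, f (t7 w) = t * f w * t⁻¹) (k : ℤ) (w : F7) :
    f ((t7 ^ k) w) = t ^ k * f w * (t ^ k)⁻¹ := by
  induction k using Int.induction_on generalizing w with
  | zero => simp
  | succ i ih =>
    rw [zpow_add_one, zpow_add_one, MulAut.mul_apply, ih, h]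
    group
  | pred i ih =>
    have h3 : f (t7⁻¹ w) = t⁻¹ * f w * t := by
      have h4 := h (t7⁻¹ w)
      rw [MulAut.apply_inv_self] at h4
      rw [h4]; group
    rw [zpow_sub_one, zpow_sub_one, MulAut.mul_apply, ih, h3]
    group

theorem PA_E7 : PA E7 := by
  obtain ⟨P, instP, X0, X1, X3, Z, X4, X5, X6, t, hPA, ⟨C, D, t', t'', hD, hC, ht, ht', h0, hd, hz,
    h4, h1, h3, hc, h5, h6⟩, hU⟩ := exists_tower
  -- the map `f₁`
  set y : Fin 7 → P := ![X0, X1, X3 * Z * X3⁻¹, X3, X4, X5, X6] with hy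
  set f₁ : F7 →* P := FreeGroup.lift y with hf₁
  have e0 : f₁ (x7 0) = X0 := by simp [hf₁, x7, hy]
  have e1 : f₁ (x7 1) = X1 := by simp [hf₁, x7, hy]
  have e2 : f₁ (x7 2) = X3 * Z * X3⁻¹ := by simp [hf₁, x7, hy]
  have e3 : f₁ (x7 3) = X3 := by simp [hf₁, x7, hy]
  have e4 : f₁ (x7 4) = X4 := by simp [hf₁, x7, hy]
  have e5 : f₁ (x7 5) = X5 := by simp [hf₁, x7, hy]
  have e6 : f₁ (x7 6) = X6 := by simp [hf₁, x7, hy]
  have eD : f₁ D7 = D := by rw [D7, _root_.map_mul, e1, e3, hD]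
  have eZ : f₁ z7 = Z := by
    rw [z7, _root_.map_mul, _root_.map_mul, _root_.map_inv, e2, e3]; group
  have eC : f₁ C7 = C := by
    rw [C7_eq, _root_.map_mul, _root_.map_mul, _root_.map_mul, e0, eD, eZ, e4, hC]
  -- conjugation by `t`
  have c0 : t * X0 * t⁻¹ = C * C * X0 * (C * C)⁻¹ := by
    rw [ht]
    have : C * C * t' * X0 = C * C * X0 * t' := by rw [mul_assoc, h0, ← mul_assoc]
    rw [this]; group
  have c4 : t * X4 * t⁻¹ = C * C * X4 * (C * C)⁻¹ := by
    rw [ht]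
    have : C * C * t' * X4 = C * C * X4 * t' := by rw [mul_assoc, h4, ← mul_assoc]
    rw [this]; group
  have cz : t * Z * t⁻¹ = C * C * Z * (C * C)⁻¹ := by
    rw [ht]
    have : C * C * t' * Z = C * C * Z * t' := by rw [mul_assoc, hz, ← mul_assoc]
    rw [this]; group
  have c1 : t * X1 * t⁻¹ = C * C * D * X1 * (C * C * D)⁻¹ := by
    rw [ht, ht']
    have : C * C * (D * t'') * X1 = C * C * D * X1 * t'' := by
      simp only [mul_assoc]; rw [h1]
    rw [this]; group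
  have c3 : t * X3 * t⁻¹ = C * C * D * X3 * (C * C * D)⁻¹ := by
    rw [ht, ht']
    have : C * C * (D * t'') * X3 = C * C * D * X3 * t'' := by
      simp only [mul_assoc]; rw [h3]
    rw [this]; group
  have c5 : t * X5 * t⁻¹ = X5 := by rw [h5]; group
  have c6 : t * X6 * t⁻¹ = X6 := by rw [h6]; group
  have hf : ∀ w, f₁ (t7 w) = t * f₁ w * t⁻¹ := by
    have k1 : ∀ i, FreeGroup.lift y (t7 (x7 i)) = t * y i * t⁻¹ := by
      intro i
      have hyi : y i = f₁ (x7 i) := by simp [hf₁, x7]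
      rw [hyi]
      fin_cases i
      · show f₁ (t7 (x7 0)) = t * f₁ (x7 0) * t⁻¹
        rw [t7_0, e0, c0]; simp only [_root_.map_mul, _root_.map_inv, eC, e0]
      · show f₁ (t7 (x7 1)) = t * f₁ (x7 1) * t⁻¹
        rw [t7_1, e1, c1]; simp only [_root_.map_mul, _root_.map_inv, eC, eD, e1]
      · show f₁ (t7 (x7 2)) = t * f₁ (x7 2) * t⁻¹
        have hx2 : x7 2 = x7 3 * z7 * (x7 3)⁻¹ := by rw [z7]; group
        have k3 : f₁ (t7 (x7 3)) = t * f₁ (x7 3) * t⁻¹ := by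
          rw [t7_3, e3, c3]; simp only [_root_.map_mul, _root_.map_inv, eC, eD, e3]
        have kz : f₁ (t7 z7) = t * f₁ z7 * t⁻¹ := by
          rw [t7_z, eZ, cz]; simp only [_root_.map_mul, _root_.map_inv, eC, eZ]
        rw [hx2]
        simp only [_root_.map_mul, _root_.map_inv, k3, kz]
        group
      · show f₁ (t7 (x7 3)) = t * f₁ (x7 3) * t⁻¹
        rw [t7_3, e3, c3]; simp only [_root_.map_mul, _root_.map_inv, eC, eD, e3]
      · show f₁ (t7 (x7 4)) = t * f₁ (x7 4) * t⁻¹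
        rw [t7_4, e4, c4]; simp only [_root_.map_mul, _root_.map_inv, eC, e4]
      · show f₁ (t7 (x7 5)) = t * f₁ (x7 5) * t⁻¹
        rw [t7_5, e5, c5]
      · show f₁ (t7 (x7 6)) = t * f₁ (x7 6) * t⁻¹
        rw [t7_6, e6, c6]
    exact GPar_lift P y t k1
  set f₂ : Zm →* P := zpowersHom P t with hf₂
  have hf₂a : ∀ k : Zm, f₂ k = t ^ (Multiplicative.toAdd k) := fun k => rfl
  have ht7a : ∀ k : Zm, t7H k = t7 ^ (Multiplicative.toAdd k) := fun k => rfl
  let Θ : E7 →* P := SemidirectProduct.lift f₁ f₂ (by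
    intro k
    refine MonoidHom.ext fun w => ?_
    simp only [MonoidHom.comp_apply, MulEquiv.coe_toMonoidHom, MulAut.conj_apply]
    rw [ht7a, hf₂a]
    exact GPar_zpow P f₁ t hf _ w)
  -- the map `Ψ`
  have ca := GPar_ca
  have cj : ∀ a b : F7, MulAut.conj (a * b) = MulAut.conj a * MulAut.conj b := fun a b =>
    _root_.map_mul _ a b
  have cinv : ∀ a : F7, MulAut.conj a⁻¹ = (MulAut.conj a)⁻¹ := fun a => _root_.map_inv _ a
  obtain ⟨Ψ, p0, p1, p3, pz, p4, p5, p6, pt⟩ := hU (MulAut F7) (MulAut.conj (x7 0))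
    (MulAut.conj (x7 1)) (MulAut.conj (x7 3)) (MulAut.conj z7) (MulAut.conj (x7 4))
    (MulAut.conj (x7 5)) (MulAut.conj (x7 6)) t7 (MulAut.conj C7) (MulAut.conj D7)
    ((MulAut.conj (C7 * C7))⁻¹ * t7) ((MulAut.conj D7)⁻¹ * ((MulAut.conj (C7 * C7))⁻¹ * t7))
    (by rw [← cj]; rfl) (by rw [← cj, ← cj, ← cj, ← C7_eq]) (by rw [cj]; group) (by group)
    (by rw [mul_assoc, ca, t7_0]; simp only [cj, cinv]; group)
    (by rw [mul_assoc, ca, t7_D]; simp only [cj, cinv]; group)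
    (by rw [mul_assoc, ca, t7_z]; simp only [cj, cinv]; group)
    (by rw [mul_assoc, ca, t7_4]; simp only [cj, cinv]; group)
    (by
      have := ca (x7 1)
      rw [t7_1, cj, cinv, cj (C7 * C7 * D7), cj (C7 * C7)] at this
      rw [mul_assoc, mul_assoc (MulAut.conj (C7 * C7))⁻¹, this]; group)
    (by
      have := ca (x7 3)
      rw [t7_3, cj, cinv, cj (C7 * C7 * D7), cj (C7 * C7)] at this
      rw [mul_assoc, mul_assoc (MulAut.conj (C7 * C7))⁻¹, this]; group)
    (by rw [ca, t7_C]) (by rw [ca, t7_5]) (by rw [ca, t7_6])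
  have hcomp : Ψ.comp Θ = j7 := by
    refine SemidirectProduct.hom_ext ?_ ?_
    · refine FreeGroup.ext_hom _ _ fun i => ?_
      have hΘ : ∀ w : F7, Θ (SemidirectProduct.inl w) = f₁ w := fun w =>
        SemidirectProduct.lift_inl _ _ _ w
      have hj : ∀ w : F7, j7 (SemidirectProduct.inl w) = MulAut.conj w := fun w =>
        SemidirectProduct.lift_inl _ _ _ w
      show Ψ (Θ (SemidirectProduct.inl (x7 i))) = j7 (SemidirectProduct.inl (x7 i))
      rw [hΘ, hj]
      fin_cases i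
      · show Ψ (f₁ (x7 0)) = MulAut.conj (x7 0)
        rw [e0, p0]
      · show Ψ (f₁ (x7 1)) = MulAut.conj (x7 1)
        rw [e1, p1]
      · show Ψ (f₁ (x7 2)) = MulAut.conj (x7 2)
        have hx2 : x7 2 = x7 3 * z7 * (x7 3)⁻¹ := by rw [z7]; group
        rw [e2, _root_.map_mul, _root_.map_mul, _root_.map_inv, p3, pz, ← cj, ← cinv, ← cj, ← hx2]
      · show Ψ (f₁ (x7 3)) = MulAut.conj (x7 3)
        rw [e3, p3]
      · show Ψ (f₁ (x7 4)) = MulAut.conj (x7 4)
        rw [e4, p4]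
      · show Ψ (f₁ (x7 5)) = MulAut.conj (x7 5)
        rw [e5, p5]
      · show Ψ (f₁ (x7 6)) = MulAut.conj (x7 6)
        rw [e6, p6]
    · refine MonoidHom.ext fun k => ?_
      have hΘ : Θ (SemidirectProduct.inr k) = f₂ k := SemidirectProduct.lift_inr _ _ _ k
      have hj : j7 (SemidirectProduct.inr k) = t7H k := SemidirectProduct.lift_inr _ _ _ k
      show Ψ (Θ (SemidirectProduct.inr k)) = j7 (SemidirectProduct.inr k)
      rw [hΘ, hj, ht7a, hf₂a, map_zpow, pt]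
  have hinj : Function.Injective Θ := by
    intro a b hab
    apply j7_inj
    rw [← hcomp, MonoidHom.comp_apply, MonoidHom.comp_apply, hab]
  exact PA_of_injective Θ hinj hPA

end Pool.Agent.Lib.MP_9dbb0e_al.DF
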