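import Mathlib

/-!
# JOB GPm: an action on an invariant set of points as permutations

PROOF. For `g, i` choose `f g i` with `pt (f g i) = Λ g (pt i)`. `f 1 i = i`, `f (g * h) i = f g (f h i)` by `hpt`. `π g = {toFun := f g, invFun := f g⁻¹, ..}`; multiplicative: `Equiv.ext`.
-/

set_option autoImplicit false

namespace Pool.Agent.Lib.MP_9dbb0e_al.DF

theorem exists_perm {I X G : Type*} [Group G] (pt : I → X) (hpt : Function.Injective pt)
    (Λ : G → X → X) (h1 : ∀ x, Λ 1 x = x) (hmul : ∀ g h x, Λ (g * h) x = Λ g (Λ h x))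
    (hr : ∀ g i, ∃ i', pt i' = Λ g (pt i)) :
    ∃ π : G →* Equiv.Perm I, ∀ g i, pt (π g i) = Λ g (pt i) := by
  choose f hf using hr
  have hf1 : ∀ i, f 1 i = i := fun i => hpt ((hf 1 i).trans (h1 _))
  have hfm : ∀ g h i, f (g * h) i = f g (f h i) := fun g h i => hpt (by
    rw [hf, hmul, hf, hf])
  refine ⟨{ toFun := fun g =>
              { toFun := f g
                invFun := f g⁻¹
                left_inv := fun i => by rw [← hfm, inv_mul_cancel, hf1]
                right_inv := fun i => by rw [← hfm, mul_inv_cancel, hf1] }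
            map_one' := Equiv.ext hf1
            map_mul' := fun g h => Equiv.ext (hfm g h) }, fun g i => hf g i⟩

end Pool.Agent.Lib.MP_9dbb0e_al.DF
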