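import Pool.Agent.Lib.MP_9dbb0e_al.D.GRo
import Pool.Agent.Lib.MP_9dbb0e_al.D.GPm
import Pool.Agent.Lib.MP_9dbb0e_al.D.KRes

/-!
# JOB GPi: the action of the Artin group of type `G₂~` on the basis and on the points

READ GRl.lean, GRo.lean, GLin.lean, GIota.lean first.

PROOFS. (`open FreeGroup` makes `map_mul`, `mul_inv_rev` ambiguous: write `_root_.map_mul`.)
`Rl_g`: the set of the `g` with `∀ z v, Rl z v ↔ Rl (D.r g z) (D.L g *ᵥ v)` is a subgroup (`D.r (g h) z = D.r g (D.r h z)`, `Matrix.mulVec_mulVec`, `D.L` multiplicative; for `g⁻¹`: put `z' = D.r g⁻¹ z`, `v' = D.L g⁻¹ *ᵥ v`, `D.r g z' = z`). It contains `a` (`D.r_spec`, `D.L_spec`; `→` is `Rl_A`, `←` from `Rl_A'`: `αA⁻¹ (αA z) = z`, `LS1⁻¹ *ᵥ (LS1 *ᵥ v) = v`), `b`, and `ι h` for all `h : F7`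
 (`D.r (ι h) = conj h`, `D.L (ι h) = φL h`; `→`: `Rl_conj h`, `←`: `Rl_conj h⁻¹`), so it contains `c = ι C7⁻¹ * (a a a)` (`c_eq`). `D.mem_of`.
`PP_ker`: `←`: `sg f = 1` (`φL_one`), `f = j13 u` (`j13_range`); `trans7` at `v = ![1, 0, 0]` (`smZ v = 1`): `embZ ![2 m, 2 n] = 0`, so `m = n = 0`; `PP_range`. `→`: `PP_range`, `trans7`: `φL f *ᵥ v = v` for all `v`: `φL f = 1` (`Subtype.ext`, `Matrix.ext`, `v = Pi.single j 1`, `Matrix.mulVec_single_one` or the like).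
`φL_conj`: `φL (D.r g f) = D.L g * φL f * (D.L g)⁻¹` (`L_ι7`, `ι7_conj`).
`exists_ρ7`: `exists_restrict PP PP_inj D.r` (KRes.lean) and `PP_ker`, `φL_conj`. `exists_π7`: `exists_perm pt7 pt7_inj (fun g v => D.L g *ᵥ v)`: for `g, i`: `Rl_g g (Rl_PP i)`, `Rl_out`.
`ρ_π7`: `Rl_g g (Rl_PP i)` and `Rl_out`: `D.r g (PP (of i)) = PP (k * of i' * k⁻¹)`, `D.L g *ᵥ pt7 i = pt7 i'`; so `pt7 i' = pt7 (π g i)`, `i' = π g i` (`pt7_inj`); `PP (ρ g (of i)) = PP (k * of i' * k⁻¹)`, `PP_inj`.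
-/

set_option autoImplicit false
set_option maxRecDepth 100000

namespace Pool.Agent.Lib.MP_9dbb0e_al.DF

open FreeGroup
open scoped Matrix

private theorem GPi_ext (A B : SL3)
    (h : ∀ v : Fin 3 → ℤ, (A : Matrix (Fin 3) (Fin 3) ℤ) *ᵥ v = (B : Matrix (Fin 3) (Fin 3) ℤ) *ᵥ v) :
    A = B := by
  apply Subtype.ext
  exact Matrix.mulVec_injective (funext h)

private theorem GPi_one (A : SL3) (h : ∀ v : Fin 3 → ℤ, (A : Matrix (Fin 3) (Fin 3) ℤ) *ᵥ v = v) :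
    A = 1 := by
  refine GPi_ext A 1 fun v => ?_
  rw [h v]
  show v = (1 : Matrix (Fin 3) (Fin 3) ℤ) *ᵥ v
  rw [Matrix.one_mulVec]

private theorem GPi_mul (A B : SL3) (v : Fin 3 → ℤ) :
    ((A * B : SL3) : Matrix (Fin 3) (Fin 3) ℤ) *ᵥ v =
      (A : Matrix (Fin 3) (Fin 3) ℤ) *ᵥ ((B : Matrix (Fin 3) (Fin 3) ℤ) *ᵥ v) := by
  rw [Matrix.mulVec_mulVec]
  rfl

private theorem GPi_id (v : Fin 3 → ℤ) : ((1 : SL3) : Matrix (Fin 3) (Fin 3) ℤ) *ᵥ v = v := by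
  show (1 : Matrix (Fin 3) (Fin 3) ℤ) *ᵥ v = v
  rw [Matrix.one_mulVec]

theorem PP_ker (f : F7) : (∃ v, PP v = f) ↔ φL f = 1 := by
  rw [PP_range]
  constructor
  · rintro ⟨u, rfl, h1, h2⟩
    refine GPi_one _ fun v => ?_
    rw [trans7, h1, h2]
    have h0 : embZ ![2 * Multiplicative.toAdd (1 : Multiplicative ℤ),
        2 * Multiplicative.toAdd (1 : Multiplicative ℤ)] = 0 := by
      funext i
      fin_cases i
      · rfl
      · rfl
      · rfl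
    rw [h0, smul_zero, add_zero]
  · intro hf
    obtain ⟨u, hu⟩ := (j13_range f).2 (φL_one f hf)
    refine ⟨u, hu, ?_⟩
    have h := trans7 u ![1, 0, 0]
    rw [hu, hf, GPi_id] at h
    have hs : smZ ![1, 0, 0] = 1 := by simp [smZ]
    rw [hs, one_smul] at h
    have h0 := congrFun h 0
    have h2 := congrFun h 2
    simp [embZ] at h0 h2
    exact ⟨h2, h0⟩

variable {G : Type} [Group G] (D : G2A G)

theorem φL_conj (g : G) (f : F7) : φL (D.r g f) = D.L g * φL f * (D.L g)⁻¹ := by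
  rw [← L_ι7 D (D.r g f), ← ι7_conj D g f, _root_.map_mul, _root_.map_mul, L_ι7, _root_.map_inv]

private theorem GPi_r_inv (g : G) (z : F7) : D.r g (D.r g⁻¹ z) = z := by
  have h : D.r (g * g⁻¹) z = z := by
    rw [mul_inv_cancel, _root_.map_one]
    rfl
  rw [_root_.map_mul] at h
  exact h

private theorem GPi_L_inv (g : G) (v : Fin 3 → ℤ) : (D.L g : Matrix (Fin 3) (Fin 3) ℤ) *ᵥ
    ((D.L g⁻¹ : Matrix (Fin 3) (Fin 3) ℤ) *ᵥ v) = v := by
  rw [← GPi_mul, ← _root_.map_mul, mul_inv_cancel, _root_.map_one, GPi_id]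

/-- the elements which respect the relation -/
private def GPi_K : Subgroup G where
  carrier := {g | ∀ (z : F7) (v : Fin 3 → ℤ), Rl z v ↔
    Rl (D.r g z) ((D.L g : Matrix (Fin 3) (Fin 3) ℤ) *ᵥ v)}
  one_mem' := by
    intro z v
    rw [_root_.map_one, _root_.map_one, GPi_id]
    exact Iff.rfl
  mul_mem' := by
    intro g h hg hh z v
    have h1 : D.r (g * h) z = D.r g (D.r h z) := by
      rw [_root_.map_mul]
      rfl
    have h2 : ((D.L (g * h) : SL3) : Matrix (Fin 3) (Fin 3) ℤ) *ᵥ v =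
        (D.L g : Matrix (Fin 3) (Fin 3) ℤ) *ᵥ ((D.L h : Matrix (Fin 3) (Fin 3) ℤ) *ᵥ v) := by
      rw [_root_.map_mul, GPi_mul]
    rw [h1, h2]
    exact (hh z v).trans (hg _ _)
  inv_mem' := by
    intro g hg z v
    have h := hg (D.r g⁻¹ z) ((D.L g⁻¹ : Matrix (Fin 3) (Fin 3) ℤ) *ᵥ v)
    rw [GPi_r_inv, GPi_L_inv] at h
    exact h.symm

private theorem GPi_a : D.a ∈ GPi_K D := by
  intro z v
  rw [D.r_spec.1, D.L_spec.1]
  constructor
  · exact Rl_A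
  · intro h
    have h1 := Rl_A' h
    have h2 : αA⁻¹ (αA z) = z := by
      have h3 : (αA⁻¹ * αA) z = z := by
        rw [inv_mul_cancel]
        rfl
      exact h3
    rw [h2, ← GPi_mul, inv_mul_cancel, GPi_id] at h1
    exact h1

private theorem GPi_b : D.b ∈ GPi_K D := by
  intro z v
  rw [D.r_spec.2.1, D.L_spec.2.1]
  constructor
  · exact Rl_B
  · intro h
    have h1 := Rl_B' h
    have h2 : αB⁻¹ (αB z) = z := by
      have h3 : (αB⁻¹ * αB) z = z := by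
        rw [inv_mul_cancel]
        rfl
      exact h3
    rw [h2, ← GPi_mul, inv_mul_cancel, GPi_id] at h1
    exact h1

private theorem GPi_ι (h : F7) : D.ι h ∈ GPi_K D := by
  intro z v
  rw [r7_ι, L_ι7]
  show Rl z v ↔ Rl (h * z * h⁻¹) _
  constructor
  · exact Rl_conj h
  · intro hz
    have h1 := Rl_conj h⁻¹ hz
    rw [← GPi_mul, ← _root_.map_mul, inv_mul_cancel, _root_.map_one, GPi_id] at h1
    have h2 : h⁻¹ * (h * z * h⁻¹) * h⁻¹⁻¹ = z := by group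
    rw [h2] at h1
    exact h1

private theorem GPi_mem (g : G) : g ∈ GPi_K D := by
  refine D.mem_of (GPi_K D) (GPi_a D) (GPi_b D) ?_ g
  rw [c_eq D]
  exact (GPi_K D).mul_mem (GPi_ι D _)
    ((GPi_K D).mul_mem ((GPi_K D).mul_mem (GPi_a D) (GPi_a D)) (GPi_a D))

theorem Rl_g (g : G) {z : F7} {v : Fin 3 → ℤ} (hz : Rl z v) :
    Rl (D.r g z) ((D.L g : Matrix (Fin 3) (Fin 3) ℤ) *ᵥ v) :=
  (GPi_mem D g z v).1 hz

theorem exists_ρ7 : ∃ ρ : G →* MulAut (FreeGroup I7), ∀ g v, PP (ρ g v) = D.r g (PP v) := by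
  refine exists_restrict PP PP_inj D.r ?_
  intro g v
  rw [PP_ker, φL_conj, (PP_ker (PP v)).1 ⟨v, rfl⟩, mul_one, mul_inv_cancel]

theorem exists_π7 : ∃ π : G →* Equiv.Perm I7,
    ∀ g i, pt7 (π g i) = (D.L g : Matrix (Fin 3) (Fin 3) ℤ) *ᵥ pt7 i := by
  refine exists_perm pt7 pt7_inj
    (fun g v => (D.L g : Matrix (Fin 3) (Fin 3) ℤ) *ᵥ v) ?_ ?_ ?_
  · intro v
    show ((D.L 1 : SL3) : Matrix (Fin 3) (Fin 3) ℤ) *ᵥ v = v
    rw [_root_.map_one, GPi_id]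
  · intro g h v
    show ((D.L (g * h) : SL3) : Matrix (Fin 3) (Fin 3) ℤ) *ᵥ v =
      (D.L g : Matrix (Fin 3) (Fin 3) ℤ) *ᵥ ((D.L h : Matrix (Fin 3) (Fin 3) ℤ) *ᵥ v)
    rw [_root_.map_mul, GPi_mul]
  · intro g i
    obtain ⟨i', k, -, h⟩ := Rl_out (Rl_g D g (Rl_PP i))
    exact ⟨i', h.symm⟩

/-- the action on the letters -/
noncomputable def G2A.ρ : G →* MulAut (FreeGroup I7) := (exists_ρ7 D).choose

theorem G2A.ρ_spec (g : G) (v : FreeGroup I7) : PP (D.ρ g v) = D.r g (PP v) :=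
  (exists_ρ7 D).choose_spec g v

/-- the permutation of the letters -/
noncomputable def G2A.π : G →* Equiv.Perm I7 := (exists_π7 D).choose

theorem G2A.π_spec (g : G) (i : I7) :
    pt7 (D.π g i) = (D.L g : Matrix (Fin 3) (Fin 3) ℤ) *ᵥ pt7 i := (exists_π7 D).choose_spec g i

theorem ρ_π7 (g : G) (i : I7) : ∃ k, D.ρ g (of i) = k * of (D.π g i) * k⁻¹ := by
  obtain ⟨i', k, h1, h2⟩ := Rl_out (Rl_g D g (Rl_PP i))
  rw [← D.π_spec g i] at h2
  have h3 : D.π g i = i' := pt7_inj h2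
  rw [h3]
  refine ⟨k, PP_inj ?_⟩
  rw [D.ρ_spec, h1]

end Pool.Agent.Lib.MP_9dbb0e_al.DF
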