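import Pool.Agent.Lib.MP_9dbb0e_al.D.GDat

/-!
# JOB GRl: the relation between conjugates of letters and points is equivariant

READ GDat.lean first (all the tables are checked there). `Rl z v`: `z = f * y8 j * f⁻¹`, `v = φL f *ᵥ p8 j` for some `j, f`.

PROOFS. (`open FreeGroup` makes `map_mul`, `mul_inv_rev` ambiguous: write `_root_.map_mul`.)
`φL_A`: the homs `φL.comp αA.toMonoidHom` and `(MulAut.conj LS1).toMonoidHom.comp φL` agree on the letters (`φL_A7`): `FreeGroup.ext_hom`. `φL_A'`: put `f = αA (αA⁻¹ f)`.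
`Rl_conj`: `h * (f * y8 j * f⁻¹) * h⁻¹ = (h * f) * y8 j * (h * f)⁻¹`, `φL (h * f) *ᵥ p = φL h *ᵥ (φL f *ᵥ p)` (`_root_.map_mul`, `Matrix.SpecialLinearGroup.coe_mul`, `Matrix.mulVec_mulVec`).
`Rl_A`: `αA (f * y8 j * f⁻¹) = (αA f * hA j) * y8 (tA j) * (αA f * hA j)⁻¹` (`dA`); `φL (αA f * hA j) *ᵥ p8 (tA j) = LS1 * φL f * LS1⁻¹ *ᵥ (φL (hA j) *ᵥ p8 (tA j)) = LS1 * φL f * LS1⁻¹ *ᵥ (LS1 *ᵥ p8 j) = LS1 *ᵥ (φL f *ᵥ p8 j)` (`eA`). `Rl_A'`, `Rl_B`, `Rl_B'` in the same way.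
A general private lemma is best: for `α : MulAut F7`, `S : SL3`, `h : Fin 8 → F7`, `t : Fin 8 → Fin 8` with `∀ f, φL (α f) = S * φL f * S⁻¹`, `∀ j, α (y8 j) = h j * y8 (t j) * (h j)⁻¹`, `∀ j, S *ᵥ p8 j = φL (h j) *ᵥ p8 (t j)`: `Rl z v → Rl (α z) (S *ᵥ v)`.
-/

set_option autoImplicit false
set_option maxRecDepth 100000

namespace Pool.Agent.Lib.MP_9dbb0e_al.DF

open FreeGroup
open scoped Matrix

theorem φL_A (f : F7) : φL (αA f) = LS1 * φL f * LS1⁻¹ := by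
  have h : φL.comp αA.toMonoidHom = (MulAut.conj LS1).toMonoidHom.comp φL := by
    refine FreeGroup.ext_hom _ _ fun i => ?_
    exact φL_A7 i
  exact DFunLike.congr_fun h f

theorem φL_B (f : F7) : φL (αB f) = LS2 * φL f * LS2⁻¹ := by
  have h : φL.comp αB.toMonoidHom = (MulAut.conj LS2).toMonoidHom.comp φL := by
    refine FreeGroup.ext_hom _ _ fun i => ?_
    exact φL_B7 i
  exact DFunLike.congr_fun h f

theorem φL_A' (f : F7) : φL (αA⁻¹ f) = LS1⁻¹ * φL f * LS1⁻¹⁻¹ := by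
  have h := φL_A (αA⁻¹ f)
  rw [MulAut.apply_inv_self] at h
  rw [h]
  group

theorem φL_B' (f : F7) : φL (αB⁻¹ f) = LS2⁻¹ * φL f * LS2⁻¹⁻¹ := by
  have h := φL_B (αB⁻¹ f)
  rw [MulAut.apply_inv_self] at h
  rw [h]
  group

theorem Rl_conj {z : F7} {v : Fin 3 → ℤ} (h : F7) (hz : Rl z v) :
    Rl (h * z * h⁻¹) ((φL h : Matrix (Fin 3) (Fin 3) ℤ) *ᵥ v) := by
  obtain ⟨j, f, rfl, rfl⟩ := hz
  refine ⟨j, h * f, ?_, ?_⟩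
  · group
  · rw [_root_.map_mul, Matrix.SpecialLinearGroup.coe_mul, Matrix.mulVec_mulVec]

/-- the general case -/
private theorem GRl_gen (α : MulAut F7) (S : SL3) (h : Fin 8 → F7) (t : Fin 8 → Fin 8)
    (hα : ∀ f, φL (α f) = S * φL f * S⁻¹) (hy : ∀ j, α (y8 j) = h j * y8 (t j) * (h j)⁻¹)
    (hp : ∀ j, (S : Matrix (Fin 3) (Fin 3) ℤ) *ᵥ p8 j =
      (φL (h j) : Matrix (Fin 3) (Fin 3) ℤ) *ᵥ p8 (t j)) {z : F7} {v : Fin 3 → ℤ} (hz : Rl z v) :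
    Rl (α z) ((S : Matrix (Fin 3) (Fin 3) ℤ) *ᵥ v) := by
  obtain ⟨j, f, rfl, rfl⟩ := hz
  refine ⟨t j, α f * h j, ?_, ?_⟩
  · rw [_root_.map_mul, _root_.map_mul, _root_.map_inv, hy]
    group
  · have e1 : ∀ w : Fin 3 → ℤ, ((S⁻¹ : SL3) : Matrix (Fin 3) (Fin 3) ℤ) *ᵥ
        ((S : Matrix (Fin 3) (Fin 3) ℤ) *ᵥ w) = w := by
      intro w
      rw [Matrix.mulVec_mulVec, ← Matrix.SpecialLinearGroup.coe_mul, inv_mul_cancel,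
        Matrix.SpecialLinearGroup.coe_one, Matrix.one_mulVec]
    rw [_root_.map_mul, hα, Matrix.SpecialLinearGroup.coe_mul, Matrix.SpecialLinearGroup.coe_mul,
      Matrix.SpecialLinearGroup.coe_mul, ← Matrix.mulVec_mulVec, ← hp, ← Matrix.mulVec_mulVec, e1,
      Matrix.mulVec_mulVec]

theorem Rl_A {z : F7} {v : Fin 3 → ℤ} (hz : Rl z v) :
    Rl (αA z) ((LS1 : Matrix (Fin 3) (Fin 3) ℤ) *ᵥ v) :=
  GRl_gen αA LS1 hA tA φL_A dA eA hz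

theorem Rl_A' {z : F7} {v : Fin 3 → ℤ} (hz : Rl z v) :
    Rl (αA⁻¹ z) (((LS1⁻¹ : SL3) : Matrix (Fin 3) (Fin 3) ℤ) *ᵥ v) :=
  GRl_gen αA⁻¹ LS1⁻¹ hA' tA' φL_A' dA' eA' hz

theorem Rl_B {z : F7} {v : Fin 3 → ℤ} (hz : Rl z v) :
    Rl (αB z) ((LS2 : Matrix (Fin 3) (Fin 3) ℤ) *ᵥ v) :=
  GRl_gen αB LS2 hB tB φL_B dB eB hz

theorem Rl_B' {z : F7} {v : Fin 3 → ℤ} (hz : Rl z v) :
    Rl (αB⁻¹ z) (((LS2⁻¹ : SL3) : Matrix (Fin 3) (Fin 3) ℤ) *ᵥ v) :=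
  GRl_gen αB⁻¹ LS2⁻¹ hB' tB' φL_B' dB' eB' hz

end Pool.Agent.Lib.MP_9dbb0e_al.DF
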