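import Pool.Agent.Lib.MP_9dbb0e_al.D.GPP
import Pool.Agent.Lib.MP_9dbb0e_al.D.GLin
import Pool.Agent.Lib.MP_9dbb0e_al.D.GRl

/-!
# JOB GRo: the letters of the basis `PP` and the relation `Rl`

READ GDat.lean first (all the tables are checked there); GPP.lean, GLin.lean (`trans7`), GRl.lean, GJ.lean (`coset_j`).

PROOFS. (`open FreeGroup` makes `map_mul`, `mul_inv_rev` ambiguous: write `_root_.map_mul`.)
`pt7_sum`: `smZ (pts o) = 3` (`decide +kernel`), `smZ (embZ w) = 0`, additive. `pt7_inj`: `pt7 (m, (n, o))` has the coordinates `pts o 0 + 6 m` and `pts o 2 - 6 n` (`embZ ![x, y] = ![x, y - x, -y]`, see HFix.lean/HMb.lean for the definition of `embZ`); modulo 6 the pair `(pts o 0, pts o 2)` determines `o` (`decide`: for all `o, o'`: `pts o 0 % 6 = pts o' 0 % 6 ∧ pts o 2 % 6 = pts o' 2 % 6 → o = o'`); then `m`, `n` (`omega`).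
`tr6`: for `u : F13` with exponents `m, n` and `o`: `φL (j13 u) *ᵥ pts o = pt7 (m, (n, o))`: `trans7` and `smZ (pts o) = 3`: `3 • embZ ![2 m, 2 n] = embZ ![6 m, 6 n]`.
`Rl_PP`: `PP (of (m, (n, o))) = j13 w * q7 o * (j13 w)⁻¹`, `w = X ^ m Y ^ n` (`PP_of`), `q7 o = fo o * y8 (jo o) * (fo o)⁻¹` (`d_o`), `pts o = φL (fo o) *ᵥ p8 (jo o)` (`e_o`): so `Rl (q7 o) (pts o)`; `Rl_conj (j13 w)`; `tr6` (the exponents of `w` are `m, n`).
`Rl_out`: `z = f * y8 j * f⁻¹`, `v = φL f *ᵥ p8 j`; `f = j13 u * (rp e)⁻¹` (`coset_j`). `z = j13 u * ((rp e)⁻¹ * y8 j * rp e) * (j13 u)⁻¹ = j13 (u * ou j e) * q7 (oo j e) * (j13 (u * ou j e))⁻¹` (`d_base`); `PP_conj`: this is `PP (k * of (m, (n, oo j e)) * k⁻¹)` with `m, n` the exponents of `u * ou j e`.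
 `v = φL (j13 (u * ou j e)) *ᵥ (φL ((j13 (ou j e))⁻¹ * (rp e)⁻¹) *ᵥ p8 j) = φL (j13 (u * ou j e)) *ᵥ pts (oo j e)` (`e_base`), `tr6`.
-/

set_option autoImplicit false
set_option maxRecDepth 100000

namespace Pool.Agent.Lib.MP_9dbb0e_al.DF

open FreeGroup
open scoped Matrix

theorem pt7_sum (i : I7) : smZ (pt7 i) = 3 := by
  have h : ∀ o, smZ (pts o) = 3 := by decide +kernel
  have h1 := h i.2.2
  simp only [smZ] at h1
  simp only [smZ, pt7, Pi.add_apply, embZ, Matrix.cons_val]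
  linarith only [h1]

theorem pt7_inj : Function.Injective pt7 := by
  rintro ⟨m, n, o⟩ ⟨m', n', o'⟩ h
  have h0 := congr_fun h 0
  have h2 := congr_fun h 2
  simp only [pt7, Pi.add_apply, embZ, Matrix.cons_val] at h0 h2
  have key : ∀ o o' : Option (Fin 11), pts o 0 % 6 = pts o' 0 % 6 ∧ pts o 2 % 6 = pts o' 2 % 6 →
      o = o' := by decide +kernel
  have ho : o = o' := key o o' ⟨by omega, by omega⟩
  subst ho
  have hm : m = m' := by omega
  have hn : n = n' := by omega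
  rw [hm, hn]

theorem tr6 (u : F13) (o : Option (Fin 11)) :
    (φL (j13 u) : Matrix (Fin 3) (Fin 3) ℤ) *ᵥ pts o =
      pt7 (Multiplicative.toAdd (wd (some none) u), (Multiplicative.toAdd (wd none u), o)) := by
  have h : ∀ o, smZ (pts o) = 3 := by decide +kernel
  rw [trans7, h o]
  funext k
  fin_cases k <;>
    simp only [pt7, Pi.add_apply, embZ, Pi.smul_apply, Matrix.cons_val, smul_eq_mul,
      Fin.zero_eta, Fin.mk_one, Fin.reduceFinMk] <;> ring

theorem Rl_PP (i : I7) : Rl (PP (of i)) (pt7 i) := by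
  obtain ⟨m, n, o⟩ := i
  have h1 : Rl (q7 o) (pts o) := ⟨jo o, fo o, d_o o, e_o o⟩
  have h2 := Rl_conj (j13 (X13 ^ m * Y13 ^ n)) h1
  rw [← PP_of, tr6] at h2
  have a1 : wd (some none) X13 = Multiplicative.ofAdd 1 := by
    simp [wd, X13]
  have a2 : wd (some none) Y13 = 1 := by
    simp [wd, Y13]
  have a3 : wd none X13 = 1 := by
    simp [wd, X13]
  have a4 : wd none Y13 = Multiplicative.ofAdd 1 := by
    simp [wd, Y13]
  have e1 : wd (some none) (X13 ^ m * Y13 ^ n) = Multiplicative.ofAdd m := by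
    rw [_root_.map_mul, map_zpow, map_zpow, a1, a2, one_zpow, mul_one, ← ofAdd_zsmul, smul_eq_mul,
      mul_one]
  have e2 : wd none (X13 ^ m * Y13 ^ n) = Multiplicative.ofAdd n := by
    rw [_root_.map_mul, map_zpow, map_zpow, a3, a4, one_zpow, one_mul, ← ofAdd_zsmul, smul_eq_mul,
      mul_one]
  rw [e1, e2] at h2
  exact h2

theorem Rl_out {z : F7} {v : Fin 3 → ℤ} (h : Rl z v) :
    ∃ i k, z = PP (k * of i * k⁻¹) ∧ v = pt7 i := by
  obtain ⟨j, f, rfl, rfl⟩ := h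
  obtain ⟨u, e, rfl⟩ := coset_j f
  obtain ⟨k, hk⟩ := PP_conj (u * ou j e) (oo j e)
  refine ⟨(Multiplicative.toAdd (wd (some none) (u * ou j e)),
    (Multiplicative.toAdd (wd none (u * ou j e)), oo j e)), k, ?_, ?_⟩
  · rw [← hk]
    have h1 := d_base j e
    rw [_root_.map_mul j13 u (ou j e)]
    have h2 : j13 u * (rp e)⁻¹ * y8 j * (j13 u * (rp e)⁻¹)⁻¹ =
        j13 u * ((rp e)⁻¹ * y8 j * rp e) * (j13 u)⁻¹ := by
      group
    rw [h2, h1]
    group
  · rw [← tr6, ← e_base j e, Matrix.mulVec_mulVec, ← Matrix.SpecialLinearGroup.coe_mul,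
      ← _root_.map_mul, _root_.map_mul j13]
    have h3 : j13 u * j13 (ou j e) * ((j13 (ou j e))⁻¹ * (rp e)⁻¹) = j13 u * (rp e)⁻¹ := by
      group
    rw [h3]

end Pool.Agent.Lib.MP_9dbb0e_al.DF
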