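import Pool.Agent.Lib.MP_9dbb0e_al.D1
import Pool.Agent.Lib.MP_9dbb0e_al.Q
import Pool.Agent.Lib.MP_9dbb0e_al.D.GAm

/-!
# JOB GTow: the tower of groups

READ GAm.lean first. (`of = FreeGroup.of`, `ofAdd = Multiplicative.ofAdd`.)

PROOF.
Vertex groups `W1 = FreeGroup (Fin 3) × Zm` (letters `C, x5, x6`; `t`), `W2 = FreeGroup (Fin 4) × Zm` (letters `x0, D, z, x4`; `t'`), `W3 = FreeGroup (Fin 2) × Zm` (letters `x1, x3`; `t''`). All have the power alternative: `PA_prod` (D1.lean), `PA_free` (Q.lean), `PA_comm` (U.lean).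
Level one: `φ2 : Zm × Zm →* W2`, `(ofAdd 1, 1) ↦ (of 1, 1)`, `(1, ofAdd 1) ↦ (1, ofAdd 1)`; `φ3 : Zm × Zm →* W3`, `(ofAdd 1, 1) ↦ (of 0 * of 1, 1)`, `(1, ofAdd 1) ↦ (of 0 * of 1, ofAdd 1)` (`exists_zz`); `Φ2 : W2 →* Zm × Zm`, `of 1 ↦ (ofAdd 1, 1)`, `of 0, of 2, of 3 ↦ 1`, `(1, ofAdd 1) ↦ (1, ofAdd 1)`;
 `Φ3 : W3 →* Zm × Zm`, `of 0 ↦ (ofAdd 1, 1)`, `of 1 ↦ 1`, `(1, ofAdd 1) ↦ (ofAdd (-1), ofAdd 1)` (`exists_fz`). `Φ2 φ2 = id = Φ3 φ3` (`zz_ext`). `PA_amalg φ2 φ3 Φ2 Φ3`: `P1, i2, i3`, `PA P1`, `i2 φ2 = i3 φ3`.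
Level two: `φ1 : Zm × Zm →* W1`, `(ofAdd 1, 1) ↦ (of 0, 1)`, `(1, ofAdd 1) ↦ (1, ofAdd 1)`; with `c = of 0 * of 1 * of 2 * of 3 : FreeGroup (Fin 4)`: `φ4 : Zm × Zm →* P1`, `(ofAdd 1, 1) ↦ i2 (c, 1)`, `(1, ofAdd 1) ↦ i2 (c * c, ofAdd 1)`. `Φ1 : W1 →* Zm × Zm`: `of 0 ↦ (ofAdd 1, 1)`, `of 1, of 2 ↦ 1`, `(1, ofAdd 1) ↦ (1, ofAdd 1)`.
 `Φ4 : P1 →* Zm × Zm` by the universal property of `P1` from `Φ2'`: `of 0 ↦ (ofAdd 1, 1)`, `of 1, of 2, of 3 ↦ 1`, `(1, ofAdd 1) ↦ (ofAdd (-2), ofAdd 1)` and `Φ3'`: `of 0, of 1 ↦ 1`, `(1, ofAdd 1) ↦ (ofAdd (-2), ofAdd 1)` (`Φ2' φ2 = Φ3' φ3`: `zz_ext`). `Φ1 φ1 = id = Φ4 φ4`. `PA_amalg φ1 φ4 Φ1 Φ4`: `P, k1 : W1 →* P, k4 : P1 →* P`, `PA P`, `k1 φ1 = k4 φ4`.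
 Write `k2 = k4 i2`, `k3 = k4 i3`; `X0 = k2 (of 0, 1)`, `D = k2 (of 1, 1) = k3 (of 0 * of 1, 1)`, `Z = k2 (of 2, 1)`, `X4 = k2 (of 3, 1)`, `X1 = k3 (of 0, 1)`, `X3 = k3 (of 1, 1)`, `D = X1 * X3`, `C = k1 (of 0, 1) = k2 (c, 1) = X0 * D * Z * X4`, `X5 = k1 (of 1, 1)`, `X6 = k1 (of 2, 1)`, `t = k1 (1, ofAdd 1) = k2 (c * c, ofAdd 1) = C * C * t'`,
 `t' = k2 (1, ofAdd 1) = k3 (of 0 * of 1, ofAdd 1) = D * t''`, `t'' = k3 (1, ofAdd 1)`. `t'` commutes with `X0, D, Z, X4`; `t''` with `X1, X3`; `t` with `C, X5, X6` (in a product `(w, 1)` and `(1, k)` commute).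
Universal property: `f2 : W2 →* M` with `x0, d, z, x4; s'`, `f3 : W3 →* M` with `x1, x3; s''` (`exists_fz`), `f2 φ2 = f3 φ3` (`zz_ext`: `d = x1 * x3`, `s' = x1 * x3 * s''`), so `F1 : P1 →* M`; `f1 : W1 →* M` with `c, x5, x6; s`; `f1 φ1 = F1 φ4` (`zz_ext`: `c = x0 * d * z * x4`, `s = c * c * s'`), so `F : P →* M`.
(`f2 (c, 1) = FreeGroup.lift ![..] c` by `exists_fz`; `simp` computes it; `(c * c, ofAdd 1) = (c, 1) * (c, 1) * (1, ofAdd 1)`.)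
-/

set_option autoImplicit false

namespace Pool.Agent.Lib.MP_9dbb0e_al.DF

open FreeGroup

private theorem gTow_split {n : ℕ} (w : FreeGroup (Fin n)) (k : Zm) :
    ((w, k) : FreeGroup (Fin n) × Zm) = (w, 1) * (1, k) := by
  rw [Prod.mk_mul_mk, mul_one, one_mul]

private theorem gTow_comm {n : ℕ} (w : FreeGroup (Fin n)) (k : Zm) :
    ((1, k) : FreeGroup (Fin n) × Zm) * (w, 1) = (w, 1) * (1, k) := by
  rw [Prod.mk_mul_mk, Prod.mk_mul_mk, mul_one, one_mul, mul_one, one_mul]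

private theorem gTow_mul {n : ℕ} (v w : FreeGroup (Fin n)) :
    ((v * w, 1) : FreeGroup (Fin n) × Zm) = (v, 1) * (w, 1) := by
  rw [Prod.mk_mul_mk, mul_one]

private theorem gTow_map_comm {n : ℕ} {M : Type} [Group M] (k : FreeGroup (Fin n) × Zm →* M)
    (w : FreeGroup (Fin n)) :
    k (1, Multiplicative.ofAdd 1) * k (w, 1) = k (w, 1) * k (1, Multiplicative.ofAdd 1) := by
  rw [← _root_.map_mul, ← _root_.map_mul, gTow_comm]

/-- the commutation of scalars with values -/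
private theorem gTow_PA (n : ℕ) : PA (FreeGroup (Fin n) × Zm) :=
  PA_prod (PA_free (Fin n)) (PA_comm fun a b => Commute.all a b)

private theorem gTow_one : ∃ (P : Type) (_ : Group P) (i2 : FreeGroup (Fin 4) × Zm →* P)
    (i3 : FreeGroup (Fin 2) × Zm →* P), PA P ∧
    i2 (FreeGroup.of 1, 1) = i3 (FreeGroup.of 0 * FreeGroup.of 1, 1) ∧
    i2 (1, Multiplicative.ofAdd 1) = i3 (FreeGroup.of 0 * FreeGroup.of 1, Multiplicative.ofAdd 1) ∧
    ∀ (M : Type) [Group M] (f2 : FreeGroup (Fin 4) × Zm →* M) (f3 : FreeGroup (Fin 2) × Zm →* M),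
      f2 (FreeGroup.of 1, 1) = f3 (FreeGroup.of 0 * FreeGroup.of 1, 1) →
      f2 (1, Multiplicative.ofAdd 1) =
        f3 (FreeGroup.of 0 * FreeGroup.of 1, Multiplicative.ofAdd 1) →
      ∃ F : P →* M, (∀ x, F (i2 x) = f2 x) ∧ (∀ x, F (i3 x) = f3 x) := by
  obtain ⟨φ2, h2a, h2b⟩ := exists_zz (M := FreeGroup (Fin 4) × Zm) (FreeGroup.of 1, 1)
    (1, Multiplicative.ofAdd 1) (gTow_comm _ _).symm
  obtain ⟨φ3, h3a, h3b⟩ := exists_zz (M := FreeGroup (Fin 2) × Zm)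
    (FreeGroup.of 0 * FreeGroup.of 1, 1)
    (FreeGroup.of 0 * FreeGroup.of 1, Multiplicative.ofAdd 1) (by
      rw [Prod.mk_mul_mk, Prod.mk_mul_mk, mul_one, one_mul])
  obtain ⟨Φ2, -, hΦ2, hΦ2'⟩ := exists_fz (n := 4) (M := Zm × Zm)
    ![1, (Multiplicative.ofAdd 1, 1), 1, 1] (1, Multiplicative.ofAdd 1)
    (fun i => mul_comm _ _)
  obtain ⟨Φ3, -, hΦ3, hΦ3'⟩ := exists_fz (n := 2) (M := Zm × Zm)
    ![(Multiplicative.ofAdd 1, 1), 1] (Multiplicative.ofAdd (-1), Multiplicative.ofAdd 1)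
    (fun i => mul_comm _ _)
  obtain ⟨P, gP, iA, iB, hPA, hi, hun⟩ := PA_amalg φ2 φ3 Φ2 Φ3
    (by
      refine zz_ext ?_ ?_
      · rw [MonoidHom.comp_apply, h2a, hΦ2 1, MonoidHom.id_apply]
        rfl
      · rw [MonoidHom.comp_apply, h2b, hΦ2', MonoidHom.id_apply])
    (by
      refine zz_ext ?_ ?_
      · rw [MonoidHom.comp_apply, h3a, gTow_mul, _root_.map_mul, hΦ3 0, hΦ3 1,
          MonoidHom.id_apply]
        rfl
      · rw [MonoidHom.comp_apply, h3b, gTow_split, gTow_mul, _root_.map_mul, _root_.map_mul,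
          hΦ3 0, hΦ3 1, hΦ3', MonoidHom.id_apply]
        rfl)
    (gTow_PA 4) (gTow_PA 2)
  refine ⟨P, gP, iA, iB, hPA, ?_, ?_, ?_⟩
  · have h := DFunLike.congr_fun hi (Multiplicative.ofAdd 1, 1)
    rw [MonoidHom.comp_apply, MonoidHom.comp_apply, h2a, h3a] at h
    exact h
  · have h := DFunLike.congr_fun hi (1, Multiplicative.ofAdd 1)
    rw [MonoidHom.comp_apply, MonoidHom.comp_apply, h2b, h3b] at h
    exact h
  · intro M _ f2 f3 ha hb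
    obtain ⟨F, h1, h2⟩ := hun M f2 f3 (by
      refine zz_ext ?_ ?_
      · rw [MonoidHom.comp_apply, MonoidHom.comp_apply, h2a, h3a]
        exact ha
      · rw [MonoidHom.comp_apply, MonoidHom.comp_apply, h2b, h3b]
        exact hb)
    exact ⟨F, fun x => DFunLike.congr_fun h1 x, fun x => DFunLike.congr_fun h2 x⟩

/-- the element `c` of the free group of rank four -/
private def gTow_c : FreeGroup (Fin 4) :=
  FreeGroup.of 0 * FreeGroup.of 1 * FreeGroup.of 2 * FreeGroup.of 3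

private theorem gTow_c1 {M : Type} [Group M] (f : FreeGroup (Fin 4) × Zm →* M) :
    f (gTow_c, 1) = f (FreeGroup.of 0, 1) * f (FreeGroup.of 1, 1) * f (FreeGroup.of 2, 1) *
      f (FreeGroup.of 3, 1) := by
  unfold gTow_c
  rw [gTow_mul, gTow_mul, gTow_mul, _root_.map_mul, _root_.map_mul, _root_.map_mul]

private theorem gTow_c2 {M : Type} [Group M] (f : FreeGroup (Fin 4) × Zm →* M) :
    f (gTow_c * gTow_c, Multiplicative.ofAdd 1) =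
      f (gTow_c, 1) * f (gTow_c, 1) * f (1, Multiplicative.ofAdd 1) := by
  rw [gTow_split, gTow_mul, _root_.map_mul, _root_.map_mul]

private theorem gTow_two : ∃ (P : Type) (_ : Group P) (k1 : FreeGroup (Fin 3) × Zm →* P)
    (k2 : FreeGroup (Fin 4) × Zm →* P) (k3 : FreeGroup (Fin 2) × Zm →* P), PA P ∧
    k2 (FreeGroup.of 1, 1) = k3 (FreeGroup.of 0 * FreeGroup.of 1, 1) ∧
    k2 (1, Multiplicative.ofAdd 1) = k3 (FreeGroup.of 0 * FreeGroup.of 1, Multiplicative.ofAdd 1) ∧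
    k1 (FreeGroup.of 0, 1) = k2 (gTow_c, 1) ∧
    k1 (1, Multiplicative.ofAdd 1) = k2 (gTow_c * gTow_c, Multiplicative.ofAdd 1) ∧
    ∀ (M : Type) [Group M] (f1 : FreeGroup (Fin 3) × Zm →* M) (f2 : FreeGroup (Fin 4) × Zm →* M)
      (f3 : FreeGroup (Fin 2) × Zm →* M),
      f2 (FreeGroup.of 1, 1) = f3 (FreeGroup.of 0 * FreeGroup.of 1, 1) →
      f2 (1, Multiplicative.ofAdd 1) =
        f3 (FreeGroup.of 0 * FreeGroup.of 1, Multiplicative.ofAdd 1) →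
      f1 (FreeGroup.of 0, 1) = f2 (gTow_c, 1) →
      f1 (1, Multiplicative.ofAdd 1) = f2 (gTow_c * gTow_c, Multiplicative.ofAdd 1) →
      ∃ F : P →* M, (∀ x, F (k1 x) = f1 x) ∧ (∀ x, F (k2 x) = f2 x) ∧ (∀ x, F (k3 x) = f3 x) := by
  obtain ⟨P1, gP1, i2, i3, hPA1, hi1, hi2, hun1⟩ := gTow_one
  obtain ⟨φ1, h1a, h1b⟩ := exists_zz (M := FreeGroup (Fin 3) × Zm) (FreeGroup.of 0, 1)
    (1, Multiplicative.ofAdd 1) (gTow_comm _ _).symm
  obtain ⟨φ4, h4a, h4b⟩ := exists_zz (M := P1) (i2 (gTow_c, 1))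
    (i2 (gTow_c * gTow_c, Multiplicative.ofAdd 1)) (by
      rw [← _root_.map_mul, ← _root_.map_mul, Prod.mk_mul_mk, Prod.mk_mul_mk, mul_one, one_mul,
        mul_assoc])
  obtain ⟨Φ1, -, hΦ1, hΦ1'⟩ := exists_fz (n := 3) (M := Zm × Zm)
    ![(Multiplicative.ofAdd 1, 1), 1, 1] (1, Multiplicative.ofAdd 1)
    (fun i => mul_comm _ _)
  obtain ⟨Ψ2, -, hΨ2, hΨ2'⟩ := exists_fz (n := 4) (M := Zm × Zm)
    ![(Multiplicative.ofAdd 1, 1), 1, 1, 1] (Multiplicative.ofAdd (-2), Multiplicative.ofAdd 1)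
    (fun i => mul_comm _ _)
  obtain ⟨Ψ3, -, hΨ3, hΨ3'⟩ := exists_fz (n := 2) (M := Zm × Zm)
    ![1, 1] (Multiplicative.ofAdd (-2), Multiplicative.ofAdd 1)
    (fun i => mul_comm _ _)
  obtain ⟨Φ4, hΦ4, -⟩ := hun1 (Zm × Zm) Ψ2 Ψ3
    (by
      rw [gTow_mul, _root_.map_mul, hΨ2 1, hΨ3 0, hΨ3 1]
      rfl)
    (by
      rw [gTow_split (FreeGroup.of 0 * FreeGroup.of 1), gTow_mul, _root_.map_mul,
        _root_.map_mul, hΨ2', hΨ3 0, hΨ3 1, hΨ3']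
      rfl)
  obtain ⟨P, gP, iA, iB, hPA, hi, hun⟩ := PA_amalg φ1 φ4 Φ1 Φ4
    (by
      refine zz_ext ?_ ?_
      · rw [MonoidHom.comp_apply, h1a, hΦ1 0, MonoidHom.id_apply]
        rfl
      · rw [MonoidHom.comp_apply, h1b, hΦ1', MonoidHom.id_apply])
    (by
      refine zz_ext ?_ ?_
      · rw [MonoidHom.comp_apply, h4a, hΦ4, gTow_c1, hΨ2 0, hΨ2 1, hΨ2 2, hΨ2 3,
          MonoidHom.id_apply]
        rfl
      · rw [MonoidHom.comp_apply, h4b, hΦ4, gTow_c2, gTow_c1, hΨ2 0, hΨ2 1, hΨ2 2, hΨ2 3,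
          hΨ2', MonoidHom.id_apply]
        rfl)
    (gTow_PA 3) hPA1
  refine ⟨P, gP, iA, iB.comp i2, iB.comp i3, hPA, ?_, ?_, ?_, ?_, ?_⟩
  · rw [MonoidHom.comp_apply, MonoidHom.comp_apply, hi1]
  · rw [MonoidHom.comp_apply, MonoidHom.comp_apply, hi2]
  · have h := DFunLike.congr_fun hi (Multiplicative.ofAdd 1, 1)
    rw [MonoidHom.comp_apply, MonoidHom.comp_apply, h1a, h4a] at h
    exact h
  · have h := DFunLike.congr_fun hi (1, Multiplicative.ofAdd 1)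
    rw [MonoidHom.comp_apply, MonoidHom.comp_apply, h1b, h4b] at h
    exact h
  · intro M _ f1 f2 f3 ha hb hc hd
    obtain ⟨F1, hF2, hF3⟩ := hun1 M f2 f3 ha hb
    obtain ⟨F, h1, h2⟩ := hun M f1 F1 (by
      refine zz_ext ?_ ?_
      · rw [MonoidHom.comp_apply, MonoidHom.comp_apply, h1a, h4a, hF2]
        exact hc
      · rw [MonoidHom.comp_apply, MonoidHom.comp_apply, h1b, h4b, hF2]
        exact hd)
    refine ⟨F, fun x => DFunLike.congr_fun h1 x, fun x => ?_, fun x => ?_⟩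
    · have h := DFunLike.congr_fun h2 (i2 x)
      rw [MonoidHom.comp_apply] at h
      rw [MonoidHom.comp_apply, h, hF2]
    · have h := DFunLike.congr_fun h2 (i3 x)
      rw [MonoidHom.comp_apply] at h
      rw [MonoidHom.comp_apply, h, hF3]

/-- the graph of groups: a group with the power alternative, with elements and a universal property -/
theorem exists_tower : ∃ (P : Type) (_ : Group P) (X0 X1 X3 Z X4 X5 X6 t : P), PA P ∧
    (∃ C D t' t'' : P, D = X1 * X3 ∧ C = X0 * D * Z * X4 ∧ t = C * C * t' ∧ t' = D * t'' ∧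
      t' * X0 = X0 * t' ∧ t' * D = D * t' ∧ t' * Z = Z * t' ∧ t' * X4 = X4 * t' ∧
      t'' * X1 = X1 * t'' ∧ t'' * X3 = X3 * t'' ∧ t * C = C * t ∧ t * X5 = X5 * t ∧
      t * X6 = X6 * t) ∧
    ∀ (M : Type) [Group M] (x0 x1 x3 z x4 x5 x6 s : M) (c d s' s'' : M), d = x1 * x3 →
      c = x0 * d * z * x4 → s = c * c * s' → s' = d * s'' → s' * x0 = x0 * s' → s' * d = d * s' →
      s' * z = z * s' → s' * x4 = x4 * s' → s'' * x1 = x1 * s'' → s'' * x3 = x3 * s'' →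
      s * c = c * s → s * x5 = x5 * s → s * x6 = x6 * s →
      ∃ F : P →* M, F X0 = x0 ∧ F X1 = x1 ∧ F X3 = x3 ∧ F Z = z ∧ F X4 = x4 ∧ F X5 = x5 ∧
        F X6 = x6 ∧ F t = s := by
  obtain ⟨P, gP, k1, k2, k3, hPA, hD, ht', hC, ht, hun⟩ := gTow_two
  refine ⟨P, gP, k2 (FreeGroup.of 0, 1), k3 (FreeGroup.of 0, 1), k3 (FreeGroup.of 1, 1),
    k2 (FreeGroup.of 2, 1), k2 (FreeGroup.of 3, 1), k1 (FreeGroup.of 1, 1),
    k1 (FreeGroup.of 2, 1), k1 (1, Multiplicative.ofAdd 1), hPA,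
    ⟨k1 (FreeGroup.of 0, 1), k2 (FreeGroup.of 1, 1), k2 (1, Multiplicative.ofAdd 1),
      k3 (1, Multiplicative.ofAdd 1), ?_, ?_, ?_, ?_, gTow_map_comm _ _, gTow_map_comm _ _,
      gTow_map_comm _ _, gTow_map_comm _ _, gTow_map_comm _ _, gTow_map_comm _ _,
      gTow_map_comm _ _, gTow_map_comm _ _, gTow_map_comm _ _⟩, ?_⟩
  · rw [hD, gTow_mul, _root_.map_mul]
  · rw [hC, gTow_c1]
  · rw [ht, gTow_c2, hC]
  · rw [ht', hD, gTow_split, _root_.map_mul]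
  · intro M _ x0 x1 x3 z x4 x5 x6 s c d s' s'' hd hc hs hs' h0 h1 h2 h3 h4 h5 h6 h7 h8
    obtain ⟨f1, -, hf1, hf1'⟩ := exists_fz ![c, x5, x6] s (by
      intro i
      fin_cases i
      · exact h6
      · exact h7
      · exact h8)
    obtain ⟨f2, -, hf2, hf2'⟩ := exists_fz ![x0, d, z, x4] s' (by
      intro i
      fin_cases i
      · exact h0
      · exact h1
      · exact h2
      · exact h3)
    obtain ⟨f3, -, hf3, hf3'⟩ := exists_fz ![x1, x3] s'' (by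
      intro i
      fin_cases i
      · exact h4
      · exact h5)
    have e10 : f1 (FreeGroup.of 0, 1) = c := hf1 0
    have e11 : f1 (FreeGroup.of 1, 1) = x5 := hf1 1
    have e12 : f1 (FreeGroup.of 2, 1) = x6 := hf1 2
    have e20 : f2 (FreeGroup.of 0, 1) = x0 := hf2 0
    have e21 : f2 (FreeGroup.of 1, 1) = d := hf2 1
    have e22 : f2 (FreeGroup.of 2, 1) = z := hf2 2
    have e23 : f2 (FreeGroup.of 3, 1) = x4 := hf2 3
    have e30 : f3 (FreeGroup.of 0, 1) = x1 := hf3 0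
    have e31 : f3 (FreeGroup.of 1, 1) = x3 := hf3 1
    obtain ⟨F, g1, g2, g3⟩ := hun M f1 f2 f3
      (by rw [gTow_mul, _root_.map_mul, e21, e30, e31]; exact hd)
      (by
        rw [gTow_split (FreeGroup.of 0 * FreeGroup.of 1), gTow_mul, _root_.map_mul,
          _root_.map_mul, hf2', hf3', e30, e31, ← hd]
        exact hs')
      (by rw [gTow_c1, e10, e20, e21, e22, e23]; exact hc)
      (by
        rw [gTow_c2, gTow_c1, e20, e21, e22, e23, hf1', hf2', ← hc]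
        exact hs)
    refine ⟨F, ?_, ?_, ?_, ?_, ?_, ?_, ?_, ?_⟩
    · rw [g2, e20]
    · rw [g3, e30]
    · rw [g3, e31]
    · rw [g2, e22]
    · rw [g2, e23]
    · rw [g1, e11]
    · rw [g1, e12]
    · rw [g1, hf1']

end Pool.Agent.Lib.MP_9dbb0e_al.DF
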