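import Pool.Agent.Lib.MP_9dbb0e_al.D.HDefs

/-!
# JOB HAlg: algebra of the forms

PROOFS. Everything is a polynomial identity after unfolding `qf, emb, lm, dl0, ds` (`simp [qf, emb, lm, dl0, ds]`, `ring`, `nlinarith`, `linear_combination`).
`qf_emb`: `ring`. `qf_dl0`: `ring`. `ds_dl0`: `(d - a) ^ 2 + 4 b c = (a + d) ^ 2 - 4 (a d - b c)`.
`qf_inj`: take `w = (1, 0), (0, 1), (1, 1)` in `qf_emb`: `- x 0`, `- x 2`, `- x 0 + (x 0 - x 1 + x 2) - x 2 = - x 1`.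
Put for a form `x`: `p = - x 0`, `q = x 0 - x 1 + x 2`, `r = - x 2`, so `qf x (emb w) = p w 0 ^ 2 + q w 0 w 1 + r w 1 ^ 2`; the hypothesis `hx : ∀ w, qf x' (emb (lm a b c d w)) = qf x (emb w)` at `w = (1, 0), (0, 1), (1, 1)` gives
 `p = p' a ^ 2 + q' a c + r' c ^ 2`, `r = p' b ^ 2 + q' b d + r' d ^ 2`, `q = 2 p' a b + q' (a d + b c) + 2 r' c d`.
`ds_inv`: `ds x y = q_x q_y - 2 (p_x r_y + r_x p_y)` (check by `ring`), and this is `(a d - b c) ^ 2` times the same for `x', y'`.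
`ker_dl0`: here `x' = x`. The relations `p (a - d) + c q = 0`, `c r + b p = 0`, `b q + r (d - a) = 0` follow: multiply the three equations suitably using `a d - b c = 1`: e.g. `d * (p = p a ^ 2 + q a c + r c ^ 2)` and `c * (..q..)`: in matrix form `Lᵀ Q L = Q` gives `Lᵀ Q = Q L⁻¹`, `L⁻¹ = (d, -b; -c, a)`:
 (1,1): `a p + c q / 2 = p d - c q / 2`; (1,2): `a q / 2 + c r = - b p + a q / 2`; (2,2): `b q / 2 + d r = - b q / 2 + a r`. [Entry (1,1) of `Lᵀ Q L L⁻¹`: `(eq p) * d + (eq of the (1,2) entry q/2) * (-c)`.] Then `ds δ δ • x = ds x δ • δ` coordinatewise: `linear_combination` of these three relations with polynomial coefficients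
 (`x` and `δ` are proportional: `(p, q, r)` and `(c, d - a, -b)` have vanishing 2x2 minors).
-/

set_option autoImplicit false

namespace Pool.Agent.Lib.MP_9dbb0e_al.DF

open Matrix

private theorem HAlg_e0 (w : Fin 2 → ℝ) : emb w 0 = w 0 := rfl
private theorem HAlg_e1 (w : Fin 2 → ℝ) : emb w 1 = w 1 - w 0 := rfl
private theorem HAlg_e2 (w : Fin 2 → ℝ) : emb w 2 = - w 1 := rfl
private theorem HAlg_l0 (a b c d : ℝ) (w : Fin 2 → ℝ) : lm a b c d w 0 = a * w 0 + b * w 1 := rfl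
private theorem HAlg_l1 (a b c d : ℝ) (w : Fin 2 → ℝ) : lm a b c d w 1 = c * w 0 + d * w 1 := rfl
private theorem HAlg_d0 (a b c d : ℝ) : dl0 a b c d 0 = -c := rfl
private theorem HAlg_d1 (a b c d : ℝ) : dl0 a b c d 1 = a + b - c - d := rfl
private theorem HAlg_d2 (a b c d : ℝ) : dl0 a b c d 2 = b := rfl

theorem qf_emb (x : V3) (w : Fin 2 → ℝ) :
    qf x (emb w) = - x 0 * w 0 ^ 2 + (x 0 - x 1 + x 2) * (w 0 * w 1) - x 2 * w 1 ^ 2 := by
  unfold qf
  rw [HAlg_e0, HAlg_e1, HAlg_e2]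
  ring

theorem qf_dl0 (a b c d : ℝ) (w : Fin 2 → ℝ) :
    qf (dl0 a b c d) (emb w) = w 0 * (c * w 0 + d * w 1) - w 1 * (a * w 0 + b * w 1) := by
  rw [qf_emb, HAlg_d0, HAlg_d1, HAlg_d2]
  ring

theorem sm_emb (w : Fin 2 → ℝ) : sm (emb w) = 0 := by
  unfold sm
  rw [HAlg_e0, HAlg_e1, HAlg_e2]
  ring

theorem exists_emb (v : V3) (h : sm v = 0) : ∃ w, v = emb w := by
  unfold sm at h
  refine ⟨![v 0, - v 2], funext fun i => ?_⟩
  fin_cases i
  · rfl
  · change v 1 = - v 2 - v 0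
    linarith
  · change v 2 = - - v 2
    ring

private theorem HAlg_ev (x x' : V3) (a b c d : ℝ) (hx : ∀ w, qf x' (emb (lm a b c d w)) = qf x (emb w)) :
    - x 0 = - x' 0 * a ^ 2 + (x' 0 - x' 1 + x' 2) * (a * c) - x' 2 * c ^ 2 ∧
    - x 2 = - x' 0 * b ^ 2 + (x' 0 - x' 1 + x' 2) * (b * d) - x' 2 * d ^ 2 ∧
    x 0 - x 1 + x 2 = - x' 0 * (2 * a * b) + (x' 0 - x' 1 + x' 2) * (a * d + b * c) - x' 2 * (2 * c * d) := by
  have h1 := hx ![1, 0]
  have h2 := hx ![0, 1]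
  have h3 := hx ![1, 1]
  rw [qf_emb, qf_emb, HAlg_l0, HAlg_l1] at h1 h2 h3
  have e0 : (![1, 0] : Fin 2 → ℝ) 0 = 1 := rfl
  have e1 : (![1, 0] : Fin 2 → ℝ) 1 = 0 := rfl
  have e2 : (![0, 1] : Fin 2 → ℝ) 0 = 0 := rfl
  have e3 : (![0, 1] : Fin 2 → ℝ) 1 = 1 := rfl
  have e4 : (![1, 1] : Fin 2 → ℝ) 0 = 1 := rfl
  have e5 : (![1, 1] : Fin 2 → ℝ) 1 = 1 := rfl
  rw [e0, e1] at h1
  rw [e2, e3] at h2
  rw [e4, e5] at h3
  refine ⟨?_, ?_, ?_⟩
  · linear_combination -h1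
  · linear_combination -h2
  · linear_combination h1 + h2 - h3

theorem qf_inj (x y : V3) (h : ∀ w, qf x (emb w) = qf y (emb w)) : x = y := by
  have h0 : ∀ w, qf x (emb (lm 1 0 0 1 w)) = qf y (emb w) := by
    intro w
    have e : lm 1 0 0 1 w = w := by
      funext i
      fin_cases i
      · change 1 * w 0 + 0 * w 1 = w 0
        ring
      · change 0 * w 0 + 1 * w 1 = w 1
        ring
    rw [e]
    exact h w
  obtain ⟨h1, h2, h3⟩ := HAlg_ev y x 1 0 0 1 h0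
  funext i
  fin_cases i
  · change x 0 = y 0
    linarith
  · change x 1 = y 1
    linarith
  · change x 2 = y 2
    linarith

theorem ds_dl0 (a b c d : ℝ) (h : a * d - b * c = 1) :
    ds (dl0 a b c d) (dl0 a b c d) = (a + d) ^ 2 - 4 := by
  unfold ds
  rw [HAlg_d0, HAlg_d1, HAlg_d2]
  linear_combination (-4) * h

theorem qf_dl0_inv (a b c d : ℝ) (h : a * d - b * c = 1) (w : Fin 2 → ℝ) :
    qf (dl0 a b c d) (emb (lm a b c d w)) = qf (dl0 a b c d) (emb w) := by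
  rw [qf_dl0, qf_dl0, HAlg_l0, HAlg_l1]
  linear_combination (w 0 * (c * w 0 + d * w 1) - w 1 * (a * w 0 + b * w 1)) * h

theorem ds_inv (a b c d : ℝ) (h : a * d - b * c = 1) (x x' y y' : V3)
    (hx : ∀ w, qf x' (emb (lm a b c d w)) = qf x (emb w))
    (hy : ∀ w, qf y' (emb (lm a b c d w)) = qf y (emb w)) : ds x' y' = ds x y := by
  obtain ⟨p1, p2, p3⟩ := HAlg_ev x x' a b c d hx
  obtain ⟨q1, q2, q3⟩ := HAlg_ev y y' a b c d hy
  have e1 : ds x y = (x 0 - x 1 + x 2) * (y 0 - y 1 + y 2) - 2 * ((- x 0) * (- y 2)) - 2 * ((- x 2) * (- y 0)) := by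
    unfold ds
    ring
  rw [e1, p1, p2, p3, q1, q2, q3]
  have e2 : ds x' y' = (a * d - b * c) ^ 2 * ds x' y' := by rw [h, one_pow, one_mul]
  rw [e2]
  unfold ds
  ring

theorem ker_dl0 (a b c d : ℝ) (h : a * d - b * c = 1) (x : V3)
    (hx : ∀ w, qf x (emb (lm a b c d w)) = qf x (emb w)) :
    ds (dl0 a b c d) (dl0 a b c d) • x = ds x (dl0 a b c d) • dl0 a b c d := by
  obtain ⟨E1, E3, E2⟩ := HAlg_ev x x a b c d hx
  have R1 : (- x 0) * (a - d) + c * (x 0 - x 1 + x 2) = 0 := by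
    linear_combination (-(a * (- x 0) + c * (x 0 - x 1 + x 2) / 2)) * h + (-d) * E1 + (c / 2) * E2
  have R2 : c * (- x 2) + b * (- x 0) = 0 := by
    linear_combination (-(a * (x 0 - x 1 + x 2) / 2 + c * (- x 2))) * h + b * E1 - (a / 2) * E2
  have R3 : b * (x 0 - x 1 + x 2) + (- x 2) * (d - a) = 0 := by
    linear_combination (-(b * (x 0 - x 1 + x 2) / 2 + d * (- x 2))) * h + (b / 2) * E2 - a * E3
  have k0 : ds (dl0 a b c d) (dl0 a b c d) * x 0 = ds x (dl0 a b c d) * -c := by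
    unfold ds
    rw [HAlg_d0, HAlg_d1, HAlg_d2]
    linear_combination (d - a) * R1 - 2 * c * R2
  have k1 : ds (dl0 a b c d) (dl0 a b c d) * x 1 = ds x (dl0 a b c d) * (a + b - c - d) := by
    unfold ds
    rw [HAlg_d0, HAlg_d1, HAlg_d2]
    linear_combination ((d - a) - 2 * b) * R1 + (-2 * c - 2 * b) * R2 + (-2 * c - (d - a)) * R3
  have k2 : ds (dl0 a b c d) (dl0 a b c d) * x 2 = ds x (dl0 a b c d) * b := by
    unfold ds
    rw [HAlg_d0, HAlg_d1, HAlg_d2]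
    linear_combination (-(d - a)) * R3 - 2 * b * R2
  funext i
  rw [Pi.smul_apply, Pi.smul_apply, smul_eq_mul, smul_eq_mul]
  fin_cases i
  · exact k0
  · exact k1
  · exact k2

/-- linearity of `ds` -/
theorem ds_add (x x' y : V3) : ds (x + x') y = ds x y + ds x' y := by
  unfold ds
  simp only [Pi.add_apply]
  ring

theorem ds_smul (c : ℝ) (x y : V3) : ds (c • x) y = c * ds x y := by
  unfold ds
  simp only [Pi.smul_apply, smul_eq_mul]
  ring

end Pool.Agent.Lib.MP_9dbb0e_al.DF
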