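import Pool.Agent.Lib.MP_9dbb0e_al.D.HAlg

/-!
# JOB HCur: the curve (inverse function theorem)

PROOF. `Ψ y = β y - y + (ds (y - t0) δ / ds δ δ) • δ`. `Ψ t0 = 0`. `Ψ` has the strict derivative `E` at `t0`: `HasStrictFDerivAt β D t0`, the rest is affine (the linear map `L x = (ds x δ / ds δ δ) • δ` as a continuous linear map, e.g. `LinearMap.toContinuousLinearMap`, `ds_add`, `ds_smul`; or `E - D + id`, which is a continuous linear map and equal to
`x ↦ (ds x δ / ds δ δ) • δ`; so `Ψ y = β y - y + ((E : V3 →L[ℝ] V3) - D + id) (y - t0)`, and `HasStrictFDerivAt` of this is `D - id + (E - D + id) = E`).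
`g = HasStrictFDerivAt.localInverse Ψ E t0 h`: `h.to_localInverse : HasStrictFDerivAt g (E.symm : ..) (Ψ t0)`, `h.eventually_right_inverse : ∀ᶠ y in 𝓝 (Ψ t0), Ψ (g y) = y`, `h.localInverse_apply_image : g (Ψ t0) = t0`.
`x ε = g (ε • δ)`: `x 0 = g 0 = t0`; derivative at `0`: `E.symm δ = δ`, because `E δ = D δ - δ + 1 • δ = δ`; `Ψ (x ε) = ε • δ` for small `ε` (`ε • δ → 0`), which is the claim rearranged.
-/

set_option autoImplicit false

namespace Pool.Agent.Lib.MP_9dbb0e_al.DF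

open Matrix Filter Topology

theorem exists_curve (β : V3 → V3) (D : V3 →L[ℝ] V3) (hβ : HasStrictFDerivAt β D t0)
    (h0 : β t0 = t0) (δ : V3) (hδ : ds δ δ ≠ 0) (hD : D δ = δ) (E : V3 ≃L[ℝ] V3)
    (hE : ∀ x, E x = D x - x + (ds x δ / ds δ δ) • δ) :
    ∃ x : ℝ → V3, x 0 = t0 ∧ HasDerivAt x δ 0 ∧
      ∀ᶠ ε in 𝓝 (0 : ℝ), β (x ε) = x ε + (ε - ds (x ε - t0) δ / ds δ δ) • δ := by
  obtain ⟨A, hA⟩ : ∃ A : V3 →L[ℝ] V3, A = (E : V3 →L[ℝ] V3) - D + ContinuousLinearMap.id ℝ V3 := ⟨_, rfl⟩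
  have hAx : ∀ x, A x = (ds x δ / ds δ δ) • δ := by
    intro x
    have h1 : A x = E x - D x + x := by
      rw [hA]
      rfl
    rw [h1, hE]
    abel
  have hEδ : E δ = δ := by
    rw [hE, hD, div_self hδ, one_smul]
    abel
  obtain ⟨Ψ, hΨ⟩ : ∃ Ψ : V3 → V3, Ψ = fun y => β y - y + A (y - t0) := ⟨_, rfl⟩
  have hΨ0 : Ψ t0 = 0 := by
    rw [hΨ]
    show β t0 - t0 + A (t0 - t0) = 0
    rw [h0, sub_self, map_zero, add_zero]
  have hd : HasStrictFDerivAt Ψ (E : V3 →L[ℝ] V3) t0 := by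
    have h1 : HasStrictFDerivAt (fun y : V3 => A (y - t0)) A t0 := by
      have h2 : HasStrictFDerivAt (fun y : V3 => y - t0) (ContinuousLinearMap.id ℝ V3) t0 :=
        (hasStrictFDerivAt_id t0).sub_const t0
      have h3 : HasStrictFDerivAt (fun y : V3 => A (y - t0)) (A.comp (ContinuousLinearMap.id ℝ V3)) t0 :=
        HasStrictFDerivAt.comp (f := fun y : V3 => y - t0) t0 A.hasStrictFDerivAt h2
      rwa [ContinuousLinearMap.comp_id] at h3
    have h4 := (hβ.sub (hasStrictFDerivAt_id t0)).add h1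
    have h5 : D - ContinuousLinearMap.id ℝ V3 + A = (E : V3 →L[ℝ] V3) := by
      rw [hA]
      abel
    rw [h5] at h4
    rw [hΨ]
    exact h4
  refine ⟨fun ε => hd.localInverse Ψ E t0 (ε • δ), ?_, ?_, ?_⟩
  · show hd.localInverse Ψ E t0 ((0 : ℝ) • δ) = t0
    rw [zero_smul, ← hΨ0]
    exact hd.localInverse_apply_image
  · have h1 : HasFDerivAt (hd.localInverse Ψ E t0) (E.symm : V3 →L[ℝ] V3) ((0 : ℝ) • δ) := by
      rw [zero_smul, ← hΨ0]
      exact hd.to_localInverse.hasFDerivAt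
    have h2 : HasDerivAt (fun ε : ℝ => ε • δ) δ 0 := by
      have h3 := (hasDerivAt_id (0 : ℝ)).smul_const δ
      rw [one_smul] at h3
      exact h3
    have h4 := h1.comp_hasDerivAt (0 : ℝ) h2
    have h5 : (E.symm : V3 →L[ℝ] V3) δ = δ := by
      show E.symm δ = δ
      rw [ContinuousLinearEquiv.symm_apply_eq, hEδ]
    rw [h5] at h4
    exact h4
  · have h1 : Tendsto (fun ε : ℝ => ε • δ) (𝓝 0) (𝓝 (Ψ t0)) := by
      rw [hΨ0]
      have h2 : Continuous fun ε : ℝ => ε • δ := continuous_id.smul continuous_const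
      have h3 := h2.tendsto (0 : ℝ)
      rwa [zero_smul] at h3
    refine (h1.eventually hd.eventually_right_inverse).mono fun ε hε => ?_
    have h2 : ∀ y, Ψ y = β y - y + (ds (y - t0) δ / ds δ δ) • δ := by
      intro y
      rw [hΨ]
      show β y - y + A (y - t0) = _
      rw [hAx]
    rw [h2] at hε
    show β (hd.localInverse Ψ E t0 (ε • δ)) = hd.localInverse Ψ E t0 (ε • δ) +
      (ε - ds (hd.localInverse Ψ E t0 (ε • δ) - t0) δ / ds δ δ) • δ
    rw [sub_smul]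
    generalize hy : hd.localInverse Ψ E t0 (ε • δ) = y at hε ⊢
    rw [← hε]
    abel

end Pool.Agent.Lib.MP_9dbb0e_al.DF
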