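import Mathlib

/-!
# Definitions: bundle maps over the space of characters

`V3 = ℝ ^ 3`. `Gm t`: the symmetric matrix with diagonal `2` and off-diagonal entries `t 0, t 1, t 2` (places 01, 02, 12). `t0 = (2, 2, 2)`.
`Bun`: a bundle map `(x, v) ↦ (β x, M x v)` of `V3 × V3`, of class `C ^ 1`, isometric for `Gm`, of determinant one, fixing `t0` in the base.
`qf δ v = δ 0 v 0 v 1 + δ 1 v 0 v 2 + δ 2 v 1 v 2`, so `v ⬝ᵥ Gm x *ᵥ v = 2 |v| ^ 2 + 2 qf x v`.
`ds`: the polar form of the discriminant. `emb w = (w 0, w 1 - w 0, - w 1)`: coordinates of the plane of the vectors with sum zero.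
`dl0 a b c d`: the fixed direction belonging to the matrix `(a, b; c, d)`: `qf (dl0 a b c d) (emb w) = w 0 (c w 0 + d w 1) - w 1 (a w 0 + b w 1)`.
-/

set_option autoImplicit false

namespace Pool.Agent.Lib.MP_9dbb0e_al.DF

open Matrix

/-- the space -/
abbrev V3 : Type := Fin 3 → ℝ

/-- real matrices -/
abbrev Mt : Type := Matrix (Fin 3) (Fin 3) ℝ

/-- the Gram matrix -/
def Gm (t : V3) : Mt := !![2, t 0, t 1; t 0, 2, t 2; t 1, t 2, 2]

/-- the base point -/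
def t0 : V3 := ![2, 2, 2]

/-- the sum of the coordinates -/
def sm (v : V3) : ℝ := v 0 + v 1 + v 2

/-- the off-diagonal quadratic form -/
def qf (x v : V3) : ℝ := x 0 * (v 0 * v 1) + x 1 * (v 0 * v 2) + x 2 * (v 1 * v 2)

/-- the polar form of the discriminant -/
def ds (x y : V3) : ℝ :=
  x 0 * y 0 + x 1 * y 1 + x 2 * y 2 - (x 0 * y 1 + x 1 * y 0) - (x 0 * y 2 + x 2 * y 0) -
    (x 1 * y 2 + x 2 * y 1)

/-- coordinates of the plane with sum zero -/
def emb (w : Fin 2 → ℝ) : V3 := ![w 0, w 1 - w 0, - w 1]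

/-- the matrix `(a, b; c, d)` applied to `w` -/
def lm (a b c d : ℝ) (w : Fin 2 → ℝ) : Fin 2 → ℝ := ![a * w 0 + b * w 1, c * w 0 + d * w 1]

/-- the fixed direction -/
def dl0 (a b c d : ℝ) : V3 := ![-c, a + b - c - d, b]

/-- bundle maps -/
structure Bun where
  β : V3 → V3
  M : V3 → Mt
  β_c : ContDiff ℝ 1 β
  M_c : ∀ i j, ContDiff ℝ 1 (fun x => M x i j)
  iso : ∀ x, (M x)ᵀ * Gm (β x) * M x = Gm x
  det : ∀ x, (M x).det = 1
  fix : β t0 = t0

/-- the bundle map on the total space -/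
def Bun.app (B : Bun) (p : V3 × V3) : V3 × V3 := (B.β p.1, B.M p.1 *ᵥ p.2)

/-- the bilinear form of a matrix -/
def bl (B : Mt) (v w : V3) : ℝ := v ⬝ᵥ (B *ᵥ w)

/-- the eigenvectors of a hyperbolic isometry: `p, m` isotropic with eigenvalues `l, l⁻¹`, `e` fixed -/
structure Eig (B g : Mt) (l : ℝ) (p e m : V3) : Prop where
  l0 : l ≠ 0
  gp : g *ᵥ p = l • p
  gm : g *ᵥ m = l⁻¹ • m
  ge : g *ᵥ e = e
  pp : bl B p p = 0
  mm : bl B m m = 0
  pe : bl B p e = 0
  me : bl B m e = 0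
  pm : bl B p m ≠ 0
  ee : bl B e e ≠ 0
  span : ∀ v : V3, ∃ x y z : ℝ, v = x • p + y • m + z • e

end Pool.Agent.Lib.MP_9dbb0e_al.DF
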