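import Pool.Agent.Lib.MP_9dbb0e_al.D.HDefs

/-!
# JOB HDer: the derivative of the base map

PROOF of `qf_deriv`. Fix `δ, v` with `sm v = 0`. Let `c : ℝ → V3`, `c s = t0 + s • δ`, `y s = B.β (c s)`, `u s = B.M (c s) *ᵥ v`. The isometry (`B.iso (c s)`, applied to `v` on both sides: `u s ⬝ᵥ (Gm (y s) *ᵥ u s) = v ⬝ᵥ (Gm (c s) *ᵥ v)`) reads, with
`quad x w = 2 * (w 0 ^ 2 + w 1 ^ 2 + w 2 ^ 2) + 2 * qf x w = w ⬝ᵥ (Gm x *ᵥ w)` (lemma `quad_eq`): `quad (y s) (u s) = quad (c s) v` for all `s`. Differentiate at `s = 0`: `y` has derivative `D δ` (`fderiv`, chain rule: `HasFDerivAt.comp_hasDerivAt`), each `u · i` is differentiable at `0` with some derivative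
`u' i` (`B.M_c`: the entries are `C ^ 1`, hence differentiable; `u s i = ∑ j, B.M (c s) i j * v j`). The derivative of the left side at `0` is
`2 * qf (D δ) (u 0) + [4 (u 0 · u') + 2 * (derivative of qf (t0) in the second variable)] = 2 * qf (D δ) (u 0) + 4 * (u 0 0 + u 0 1 + u 0 2) * (u' 0 + u' 1 + u' 2)`
(since `y 0 = t0 = (2, 2, 2)`: `quad t0 w = 2 * (w 0 + w 1 + w 2) ^ 2`), and `sm (u 0) = sm (A *ᵥ v) = sm v = 0`. The derivative of the right side is `2 * qf δ v`.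
Compute both derivatives coordinatewise: write `y s 0, y s 1, ..` as real functions with `HasDerivAt` (`hasDerivAt_pi`), and build the `HasDerivAt` of the polynomial by `HasDerivAt.mul`, `.add`; uniqueness of the derivative (`HasDerivAt.unique`).
-/

set_option autoImplicit false

namespace Pool.Agent.Lib.MP_9dbb0e_al.DF

open Matrix

theorem quad_eq (x w : V3) :
    w ⬝ᵥ (Gm x *ᵥ w) = 2 * (w 0 ^ 2 + w 1 ^ 2 + w 2 ^ 2) + 2 * qf x w := by
  unfold Gm qf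
  simp only [dotProduct, mulVec, Fin.sum_univ_three, Matrix.of_apply, Matrix.cons_val', Matrix.cons_val_zero,
    Matrix.cons_val_one, Matrix.cons_val, Matrix.cons_val_fin_one]
  ring

theorem qf_deriv (B : Bun) (A : Mt) (hA : B.M t0 = A) (hσ : ∀ v, sm (A *ᵥ v) = sm v) (δ v : V3)
    (hv : sm v = 0) : qf (fderiv ℝ B.β t0 δ) (A *ᵥ v) = qf δ v := by
  have hc : HasDerivAt (fun s : ℝ => t0 + s • δ) δ 0 := by
    have h := ((hasDerivAt_id (0 : ℝ)).smul_const δ).const_add t0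
    rw [one_smul] at h
    exact h
  have hc0 : t0 + (0 : ℝ) • δ = t0 := by rw [zero_smul, add_zero]
  have hy : HasDerivAt (fun s : ℝ => B.β (t0 + s • δ)) (fderiv ℝ B.β t0 δ) 0 := by
    have h1 : HasFDerivAt B.β (fderiv ℝ B.β (t0 + (0 : ℝ) • δ)) (t0 + (0 : ℝ) • δ) :=
      ((B.β_c.differentiable one_ne_zero) _).hasFDerivAt
    have h2 := h1.comp_hasDerivAt (0 : ℝ) hc
    rw [hc0] at h2
    exact h2
  have hyi := fun i => hasDerivAt_pi.1 hy i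
  have hM : ∀ i j, ∃ m : ℝ, HasDerivAt (fun s : ℝ => B.M (t0 + s • δ) i j) m 0 := by
    intro i j
    have h1 : DifferentiableAt ℝ (fun x => B.M x i j) (t0 + (0 : ℝ) • δ) :=
      (B.M_c i j).differentiable one_ne_zero _
    have h2 := h1.hasFDerivAt.comp_hasDerivAt (0 : ℝ) hc
    exact ⟨_, h2⟩
  choose m hm using hM
  have hu : ∀ i, HasDerivAt (fun s : ℝ => (B.M (t0 + s • δ) *ᵥ v) i) (m i 0 * v 0 + m i 1 * v 1 + m i 2 * v 2) 0 := by
    intro i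
    have h1 : (fun s : ℝ => (B.M (t0 + s • δ) *ᵥ v) i) = fun s : ℝ =>
        B.M (t0 + s • δ) i 0 * v 0 + B.M (t0 + s • δ) i 1 * v 1 + B.M (t0 + s • δ) i 2 * v 2 := by
      funext s
      simp only [mulVec, dotProduct, Fin.sum_univ_three]
    rw [h1]
    exact (((hm i 0).mul_const (v 0)).add ((hm i 1).mul_const (v 1))).add ((hm i 2).mul_const (v 2))
  obtain ⟨u', hu'⟩ : ∃ u' : Fin 3 → ℝ, ∀ i, u' i = m i 0 * v 0 + m i 1 * v 1 + m i 2 * v 2 := ⟨_, fun _ => rfl⟩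
  have hu2 : ∀ i, HasDerivAt (fun s : ℝ => (B.M (t0 + s • δ) *ᵥ v) i) (u' i) 0 := by
    intro i
    rw [hu']
    exact hu i
  have hq : ∀ s : ℝ, 2 * ((B.M (t0 + s • δ) *ᵥ v) 0 * (B.M (t0 + s • δ) *ᵥ v) 0 +
      (B.M (t0 + s • δ) *ᵥ v) 1 * (B.M (t0 + s • δ) *ᵥ v) 1 + (B.M (t0 + s • δ) *ᵥ v) 2 * (B.M (t0 + s • δ) *ᵥ v) 2) +
      2 * (B.β (t0 + s • δ) 0 * ((B.M (t0 + s • δ) *ᵥ v) 0 * (B.M (t0 + s • δ) *ᵥ v) 1) +
        B.β (t0 + s • δ) 1 * ((B.M (t0 + s • δ) *ᵥ v) 0 * (B.M (t0 + s • δ) *ᵥ v) 2) +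
        B.β (t0 + s • δ) 2 * ((B.M (t0 + s • δ) *ᵥ v) 1 * (B.M (t0 + s • δ) *ᵥ v) 2)) =
      2 * (v 0 * v 0 + v 1 * v 1 + v 2 * v 2) + 2 * ((t0 + s • δ) 0 * (v 0 * v 1) + (t0 + s • δ) 1 * (v 0 * v 2) +
        (t0 + s • δ) 2 * (v 1 * v 2)) := by
    intro s
    have h1 := B.iso (t0 + s • δ)
    have h2 : (B.M (t0 + s • δ) *ᵥ v) ⬝ᵥ (Gm (B.β (t0 + s • δ)) *ᵥ (B.M (t0 + s • δ) *ᵥ v)) =
        v ⬝ᵥ (Gm (t0 + s • δ) *ᵥ v) := by
      rw [← h1, ← mulVec_mulVec, ← mulVec_mulVec, dotProduct_mulVec v, vecMul_transpose]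
    rw [quad_eq, quad_eq] at h2
    unfold qf at h2
    linear_combination h2
  have hL := ((((hu2 0).mul (hu2 0)).add ((hu2 1).mul (hu2 1))).add ((hu2 2).mul (hu2 2))).const_mul 2 |>.add
    (((((hyi 0).mul ((hu2 0).mul (hu2 1))).add ((hyi 1).mul ((hu2 0).mul (hu2 2)))).add
      ((hyi 2).mul ((hu2 1).mul (hu2 2)))).const_mul 2)
  have hci := fun i => hasDerivAt_pi.1 hc i
  have hR := (((((hci 0).mul_const (v 0 * v 1)).add ((hci 1).mul_const (v 0 * v 2))).add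
      ((hci 2).mul_const (v 1 * v 2))).const_mul 2).const_add (2 * (v 0 * v 0 + v 1 * v 1 + v 2 * v 2))
  have hLR := hL.congr_of_eventuallyEq (Filter.Eventually.of_forall fun s => (hq s).symm)
  have h3 := hLR.unique hR
  have hz : ∀ i, t0 i = 2 := by
    intro i
    fin_cases i <;> rfl
  simp only [Pi.mul_apply, hc0, B.fix, hA, hz] at h3
  have hs := hσ v
  rw [hv] at hs
  unfold sm at hs
  unfold qf
  linear_combination (1 / 2) * h3 - 2 * (u' 0 + u' 1 + u' 2) * hs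

end Pool.Agent.Lib.MP_9dbb0e_al.DF
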