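import Pool.Agent.Lib.MP_9dbb0e_al.D.HDefs

/-!
# JOB HEig: the eigenvectors of an isometry with trace bigger than three

PROOF. `bl B v w = v ⬝ᵥ (B *ᵥ w)` is bilinear, symmetric (`Bᵀ = B`), and `bl B (g *ᵥ v) (g *ᵥ w) = bl B v w` (from `gᵀ * B * g = B`; `bl_g`). Nondegenerate: if `bl B v w = 0` for all `v` then `B *ᵥ w = 0`, `w = 0` (`bl_nondeg`; `Matrix.det_ne_zero`: `Matrix.eq_zero_of_mulVec_eq_zero`).
(1) `char`: `(l • 1 - g).det = l ^ 3 - t l ^ 2 + t l - 1` with `t = g.trace`: in general `= l ^ 3 - (trace g) l ^ 2 + (trace (adjugate g)) l - det g` (`det_fin_three`, `adjugate_fin_three`, `ring`), and `trace (adjugate g) = trace g`: `adjugate g = g⁻¹` (`det = 1`; `Matrix.inv_def`), and `g⁻¹ = B⁻¹ * gᵀ * B`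
 (from `gᵀ * B * g = B`), `Matrix.trace_mul_comm`, `Matrix.trace_transpose`. So `(l • 1 - g).det = (l - 1) * (l ^ 2 - (t - 1) l + 1)`.
(2) Since `t - 1 > 2` there is `l > 1` with `l ^ 2 - (t - 1) l + 1 = 0`: `l = (t - 1 + √((t - 1) ^ 2 - 4)) / 2` (or intermediate value theorem). Also `l⁻¹` is a root.
(3) `Matrix.exists_mulVec_eq_zero_iff`: for `l, l⁻¹, 1` there are `p, m, e ≠ 0` with `g p = l p`, `g m = l⁻¹ m`, `g e = e`.
(4) `bl B p p = l ^ 2 * bl B p p`, so `bl B p p = 0`; in the same way `bl B m m = 0`, `bl B p e = l * bl B p e`, so `= 0`, `bl B m e = 0`.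
(5) `p, m, e` are linearly independent (eigenvectors for the different eigenvalues `l, l⁻¹, 1`: `x p + y m + z e = 0`; apply `g` and `g²`, or: `Module.End.eigenvectors_linearIndependent`), so they span (`finrank V3 = 3`; `basisOfLinearIndependentOfCardEqFinrank`): `span`.
 By hand: if `x p + y m + z e = 0` then applying `g - 1`: `x (l - 1) p + y (l⁻¹ - 1) m = 0`, applying `g - l⁻¹`: `x (l - 1) (l - l⁻¹) p = 0`, so `x = 0`, etc.
(6) `bl B p m ≠ 0`: otherwise `bl B v p = 0` for all `v` (`span`), so `p = 0`. `bl B e e ≠ 0`: the same.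
-/

set_option autoImplicit false

namespace Pool.Agent.Lib.MP_9dbb0e_al.DF

open Matrix

theorem bl_add_left (B : Mt) (v v' w : V3) : bl B (v + v') w = bl B v w + bl B v' w := by
  unfold bl
  rw [add_dotProduct]

theorem bl_add_right (B : Mt) (v w w' : V3) : bl B v (w + w') = bl B v w + bl B v w' := by
  unfold bl
  rw [Matrix.mulVec_add, dotProduct_add]

theorem bl_smul_left (B : Mt) (c : ℝ) (v w : V3) : bl B (c • v) w = c * bl B v w := by
  unfold bl
  rw [smul_dotProduct, smul_eq_mul]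

theorem bl_smul_right (B : Mt) (c : ℝ) (v w : V3) : bl B v (c • w) = c * bl B v w := by
  unfold bl
  rw [Matrix.mulVec_smul, dotProduct_smul, smul_eq_mul]

theorem bl_symm {B : Mt} (hs : Bᵀ = B) (v w : V3) : bl B v w = bl B w v := by
  unfold bl
  rw [Matrix.dotProduct_mulVec, dotProduct_comm, ← Matrix.mulVec_transpose, hs]

theorem bl_g {B g : Mt} (hg : gᵀ * B * g = B) (v w : V3) : bl B (g *ᵥ v) (g *ᵥ w) = bl B v w := by
  unfold bl
  have h1 : (g *ᵥ v) ⬝ᵥ (B *ᵥ (g *ᵥ w)) = v ⬝ᵥ (gᵀ *ᵥ (B *ᵥ (g *ᵥ w))) := by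
    rw [Matrix.dotProduct_mulVec v, Matrix.vecMul_transpose]
  rw [h1, Matrix.mulVec_mulVec, Matrix.mulVec_mulVec, hg]

theorem bl_nondeg {B : Mt} (hB : B.det ≠ 0) (w : V3) (h : ∀ v, bl B v w = 0) : w = 0 := by
  refine Matrix.eq_zero_of_mulVec_eq_zero hB ?_
  funext i
  have h1 := h (Pi.single i 1)
  unfold bl at h1
  rw [single_dotProduct, one_mul] at h1
  exact h1

private theorem HEig_tr {B g : Mt} (hB : B.det ≠ 0) (hg : gᵀ * B * g = B) (hd : g.det = 1) :
    (Matrix.adjugate g).trace = g.trace := by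
  have hu : IsUnit B.det := isUnit_iff_ne_zero.2 hB
  have h1 : B * g = Matrix.adjugate gᵀ * B := by
    have h2 : Matrix.adjugate gᵀ * (gᵀ * B * g) = B * g := by
      rw [Matrix.mul_assoc gᵀ, ← Matrix.mul_assoc, Matrix.adjugate_mul, Matrix.det_transpose, hd, one_smul,
        Matrix.one_mul]
    rw [hg] at h2
    exact h2.symm
  have h3 : g = B⁻¹ * (Matrix.adjugate gᵀ * B) := by
    rw [← h1, ← Matrix.mul_assoc, Matrix.nonsing_inv_mul _ hu, Matrix.one_mul]
  have h4 : g.trace = (Matrix.adjugate gᵀ).trace := by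
    calc g.trace = (B⁻¹ * (Matrix.adjugate gᵀ * B)).trace := by rw [← h3]
      _ = (Matrix.adjugate gᵀ * B * B⁻¹).trace := Matrix.trace_mul_comm _ _
      _ = (Matrix.adjugate gᵀ).trace := by rw [Matrix.mul_assoc, Matrix.mul_nonsing_inv _ hu, Matrix.mul_one]
  rw [h4, ← Matrix.adjugate_transpose, Matrix.trace_transpose]

private theorem HEig_char {g : Mt} (hd : g.det = 1) (ha : (Matrix.adjugate g).trace = g.trace) (r : ℝ) :
    (r • (1 : Mt) - g).det = (r - 1) * (r ^ 2 - (g.trace - 1) * r + 1) := by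
  rw [Matrix.adjugate_fin_three, Matrix.trace_fin_three, Matrix.trace_fin_three] at ha
  rw [Matrix.det_fin_three] at hd
  rw [Matrix.det_fin_three, Matrix.trace_fin_three]
  simp [Matrix.sub_apply, Matrix.smul_apply] at ha ⊢
  linear_combination r * ha - hd

private theorem HEig_vec {g : Mt} {r : ℝ} (h : (r • (1 : Mt) - g).det = 0) : ∃ p : V3, p ≠ 0 ∧ g *ᵥ p = r • p := by
  obtain ⟨p, hp, h1⟩ := Matrix.exists_mulVec_eq_zero_iff.2 h
  refine ⟨p, hp, ?_⟩
  rw [Matrix.sub_mulVec, Matrix.smul_mulVec, Matrix.one_mulVec] at h1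
  exact (sub_eq_zero.1 h1).symm

private theorem HEig_coef {g : Mt} {a b c : ℝ} {p m e : V3} (gp : g *ᵥ p = a • p) (gm : g *ᵥ m = b • m)
    (ge : g *ᵥ e = c • e) (hab : a ≠ b) (hac : a ≠ c) (hp : p ≠ 0) {x y z : ℝ}
    (h : x • p + y • m + z • e = 0) : x = 0 := by
  have h1 : (x * a) • p + (y * b) • m + (z * c) • e = 0 := by
    have h2 : g *ᵥ (x • p + y • m + z • e) = 0 := by
      rw [h, Matrix.mulVec_zero]
    rw [Matrix.mulVec_add, Matrix.mulVec_add, Matrix.mulVec_smul, Matrix.mulVec_smul, Matrix.mulVec_smul, gp, gm, ge,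
      smul_smul, smul_smul, smul_smul] at h2
    exact h2
  have h3 : (x * a * a) • p + (y * b * b) • m + (z * c * c) • e = 0 := by
    have h2 : g *ᵥ ((x * a) • p + (y * b) • m + (z * c) • e) = 0 := by
      rw [h1, Matrix.mulVec_zero]
    rw [Matrix.mulVec_add, Matrix.mulVec_add, Matrix.mulVec_smul, Matrix.mulVec_smul, Matrix.mulVec_smul, gp, gm, ge,
      smul_smul, smul_smul, smul_smul] at h2
    exact h2
  obtain ⟨i, hi⟩ : ∃ i, p i ≠ 0 := by
    by_contra hc
    push Not at hc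
    exact hp (funext hc)
  have k1 := congrFun h i
  have k2 := congrFun h1 i
  have k3 := congrFun h3 i
  simp only [Pi.add_apply, Pi.smul_apply, smul_eq_mul, Pi.zero_apply] at k1 k2 k3
  have k4 : x * ((a - b) * (a - c) * p i) = 0 := by
    linear_combination k3 - (b + c) * k2 + b * c * k1
  rcases mul_eq_zero.1 k4 with h5 | h5
  · exact h5
  · exfalso
    exact mul_ne_zero (mul_ne_zero (sub_ne_zero.2 hab) (sub_ne_zero.2 hac)) hi h5

theorem exists_eig (B g : Mt) (hs : Bᵀ = B) (hB : B.det ≠ 0) (hg : gᵀ * B * g = B)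
    (hd : g.det = 1) (ht : 3 < g.trace) : ∃ (l : ℝ) (p e m : V3), 1 < l ∧ Eig B g l p e m := by
  have ha := HEig_tr hB hg hd
  obtain ⟨l, hl1, hl⟩ : ∃ l : ℝ, 1 < l ∧ l ^ 2 - (g.trace - 1) * l + 1 = 0 := by
    have hD : 0 ≤ (g.trace - 1) ^ 2 - 4 := by nlinarith
    refine ⟨(g.trace - 1 + √((g.trace - 1) ^ 2 - 4)) / 2, ?_, ?_⟩
    · have := Real.sqrt_nonneg ((g.trace - 1) ^ 2 - 4)
      linarith
    · have h2 := Real.sq_sqrt hD
      linear_combination (1 / 4 : ℝ) * h2
  have l0 : l ≠ 0 := by linarith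
  have li : l * l⁻¹ = 1 := mul_inv_cancel₀ l0
  have hli : l⁻¹ < 1 := inv_lt_one_of_one_lt₀ hl1
  have hl' : (l⁻¹) ^ 2 - (g.trace - 1) * l⁻¹ + 1 = 0 := by
    have h3 : (l⁻¹) ^ 2 * (l ^ 2 - (g.trace - 1) * l + 1) = (l⁻¹) ^ 2 - (g.trace - 1) * l⁻¹ + 1 := by
      field_simp
      ring
    rw [← h3, hl, mul_zero]
  obtain ⟨p, hp, gp⟩ := HEig_vec (g := g) (r := l) (by rw [HEig_char hd ha, hl, mul_zero])
  obtain ⟨m, hm, gm⟩ := HEig_vec (g := g) (r := l⁻¹) (by rw [HEig_char hd ha, hl', mul_zero])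
  obtain ⟨e, he, ge⟩ := HEig_vec (g := g) (r := 1) (by rw [HEig_char hd ha, sub_self, zero_mul])
  have span : ∀ v : V3, ∃ x y z : ℝ, v = x • p + y • m + z • e := by
    have hli3 : LinearIndependent ℝ ![p, m, e] := by
      rw [Fintype.linearIndependent_iff]
      intro c hc
      rw [Fin.sum_univ_three] at hc
      simp only [Matrix.cons_val_zero, Matrix.cons_val_one, Matrix.cons_val] at hc
      have c0 : c 0 = 0 := HEig_coef gp gm ge (by linarith) (by linarith) hp hc
      have c1 : c 1 = 0 := HEig_coef gm gp ge (by linarith) (by linarith) hm (by rw [add_comm (c 1 • m)]; exact hc)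
      have c2 : c 2 = 0 := HEig_coef ge gp gm (by linarith) (by linarith) he (by rw [add_assoc, add_comm]; exact hc)
      intro i
      fin_cases i
      · exact c0
      · exact c1
      · exact c2
    have hsp := hli3.span_eq_top_of_card_eq_finrank (by simp)
    intro v
    have hv : v ∈ Submodule.span ℝ (Set.range ![p, m, e]) := by
      rw [hsp]
      trivial
    obtain ⟨c, hc⟩ := (Submodule.mem_span_range_iff_exists_fun ℝ).1 hv
    rw [Fin.sum_univ_three] at hc
    simp only [Matrix.cons_val_zero, Matrix.cons_val_one, Matrix.cons_val] at hc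
    exact ⟨c 0, c 1, c 2, hc.symm⟩
  have ge' : g *ᵥ e = e := by rw [ge, one_smul]
  have pp : bl B p p = 0 := by
    have h1 := bl_g hg p p
    rw [gp, bl_smul_left, bl_smul_right] at h1
    have h2 : (l - 1) * ((l + 1) * bl B p p) = 0 := by linear_combination h1
    have h3 : l - 1 ≠ 0 := by linarith
    have h4 : l + 1 ≠ 0 := by linarith
    simpa [h3, h4] using h2
  have mm : bl B m m = 0 := by
    have h1 := bl_g hg m m
    rw [gm, bl_smul_left, bl_smul_right] at h1
    have h2 : (1 - l) * ((1 + l) * bl B m m) = 0 := by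
      linear_combination l ^ 2 * h1 - (l * l⁻¹ + 1) * bl B m m * li
    have h3 : 1 - l ≠ 0 := by linarith
    have h4 : 1 + l ≠ 0 := by linarith
    simpa [h3, h4] using h2
  have pe : bl B p e = 0 := by
    have h1 := bl_g hg p e
    rw [gp, ge', bl_smul_left] at h1
    have h2 : (l - 1) * bl B p e = 0 := by linear_combination h1
    have h3 : l - 1 ≠ 0 := by linarith
    simpa [h3] using h2
  have me : bl B m e = 0 := by
    have h1 := bl_g hg m e
    rw [gm, ge', bl_smul_left] at h1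
    have h2 : (l⁻¹ - 1) * bl B m e = 0 := by linear_combination h1
    have h3 : l⁻¹ - 1 ≠ 0 := by linarith
    simpa [h3] using h2
  have mp := bl_symm hs m p
  have ep := bl_symm hs e p
  have em := bl_symm hs e m
  refine ⟨l, p, e, m, hl1, ⟨l0, gp, gm, ge', pp, mm, pe, me, ?_, ?_, span⟩⟩
  · intro h0
    refine hp (bl_nondeg hB p fun v => ?_)
    obtain ⟨x, y, z, rfl⟩ := span v
    rw [bl_add_left, bl_add_left, bl_smul_left, bl_smul_left, bl_smul_left, pp, mp, h0, ep, pe]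
    ring
  · intro h0
    refine he (bl_nondeg hB e fun v => ?_)
    obtain ⟨x, y, z, rfl⟩ := span v
    rw [bl_add_left, bl_add_left, bl_smul_left, bl_smul_left, bl_smul_left, pe, me, h0]
    ring

end Pool.Agent.Lib.MP_9dbb0e_al.DF
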