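import Pool.Agent.Lib.MP_9dbb0e_al.D.HAlg

/-!
# JOB HFix: the points of the curve are fixed

PROOFS. `det_Gm`: `Matrix.det_fin_three`: `(Gm (t0 + u)).det = -2 * ds u u + 2 * (u 0 * u 1 * u 2)` (`simp [Gm, t0, ds, det_fin_three]; ring`).
`curve_fixed`: `u ε = x ε - t0` (derivative `δ` at `0`, `u 0 = 0`), `h ε = ε - ds (u ε) δ / ds δ δ` (derivative `1 - 1 = 0` at `0`, `h 0 = 0`; `ds` is bilinear: coordinatewise `HasDerivAt`). For small `ε`: `β (x ε) = x ε + h ε • δ = t0 + (u ε + h ε • δ)` and `(Gm (β (x ε))).det = (Gm (x ε)).det`: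
`-2 * ds (u + h • δ) (u + h • δ) + 2 * e3 (u + h • δ) = -2 * ds u u + 2 * e3 u`, `e3 u = u 0 * u 1 * u 2`. The difference is `h * b`, with
`b ε = -4 * ds u δ - 2 * h * ds δ δ + 2 * (δ 0 * u 1 * u 2 + u 0 * δ 1 * u 2 + u 0 * u 1 * δ 2 + h * (δ 0 * δ 1 * u 2 + δ 0 * u 1 * δ 2 + u 0 * δ 1 * δ 2) + h ^ 2 * δ 0 * δ 1 * δ 2)`.
`b` is differentiable at `0` with derivative `-4 * ds δ δ ≠ 0`, `b 0 = 0`: so `b ε ≠ 0` for small `ε ≠ 0` (`HasDerivAt.eventually_ne`, or: `HasDerivAt.tendsto_slope` / `hasDerivAt_iff_tendsto_slope`). So `h ε = 0`.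
`curve_det`: `(Gm (x ε)).det = -2 * ds (u ε) (u ε) + 2 * e3 (u ε) = ε ^ 2 * (-2 * ds (s ε) (s ε) + 2 * ε * e3 (s ε))` with `s ε = ε⁻¹ • u ε → δ` (`hasDerivAt_iff_tendsto_slope`, `slope u 0 ε = ε⁻¹ • (u ε - u 0)`); the bracket tends to `-2 * ds δ δ ≠ 0` along `𝓝[≠] 0` (continuity of polynomials in the coordinates: `tendsto_pi_nhds`),
so it is nonzero for small `ε ≠ 0`.
-/

set_option autoImplicit false

namespace Pool.Agent.Lib.MP_9dbb0e_al.DF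

open Matrix Filter Topology

theorem det_Gm (u : V3) : (Gm (t0 + u)).det = -2 * ds u u + 2 * (u 0 * u 1 * u 2) := by
  rw [Matrix.det_fin_three]
  simp [Gm, t0, ds]
  ring

private theorem hfix_coord {δ : V3} {x : ℝ → V3} (hx : HasDerivAt x δ 0) (i : Fin 3) :
    HasDerivAt (fun ε => (x ε - t0) i) (δ i) 0 := by
  have h1 := (hasDerivAt_pi.1 hx i).sub_const (t0 i)
  exact h1

theorem curve_fixed (β : V3 → V3) (hG : ∀ y, (Gm (β y)).det = (Gm y).det) (δ : V3)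
    (hδ : ds δ δ ≠ 0) (x : ℝ → V3) (hx0 : x 0 = t0) (hx : HasDerivAt x δ 0)
    (h : ∀ᶠ ε in 𝓝 (0 : ℝ), β (x ε) = x ε + (ε - ds (x ε - t0) δ / ds δ δ) • δ) :
    ∀ᶠ ε in 𝓝[≠] (0 : ℝ), β (x ε) = x ε := by
  have hU0 := hfix_coord hx 0
  have hU1 := hfix_coord hx 1
  have hU2 := hfix_coord hx 2
  have hz : ∀ i, (x 0 - t0) i = 0 := fun i => by rw [hx0, sub_self]; rfl
  have hD : HasDerivAt (fun ε => ds (x ε - t0) δ) (ds δ δ) 0 := by
    have h1 := ((((hU0.mul_const (δ 0)).add (hU1.mul_const (δ 1))).add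
      (hU2.mul_const (δ 2))).sub ((hU0.mul_const (δ 1)).add (hU1.mul_const (δ 0)))).sub
      ((hU0.mul_const (δ 2)).add (hU2.mul_const (δ 0)))
    have h2 := h1.sub ((hU1.mul_const (δ 2)).add (hU2.mul_const (δ 1)))
    exact h2
  have hH : HasDerivAt (fun ε => ε - ds (x ε - t0) δ / ds δ δ) 0 0 := by
    have h1 := (hasDerivAt_id (0 : ℝ)).sub (hD.div_const (ds δ δ))
    rw [div_self hδ, sub_self] at h1
    exact h1
  have hd0 : ds (x 0 - t0) δ = 0 := by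
    have h1 : x 0 - t0 = 0 := by rw [hx0, sub_self]
    rw [h1]
    simp [ds]
  have hb : HasDerivAt (fun ε => -4 * ds (x ε - t0) δ -
      2 * (ε - ds (x ε - t0) δ / ds δ δ) * ds δ δ +
      2 * (δ 0 * ((x ε - t0) 1 * (x ε - t0) 2) + δ 1 * ((x ε - t0) 0 * (x ε - t0) 2) +
        δ 2 * ((x ε - t0) 0 * (x ε - t0) 1) +
        (ε - ds (x ε - t0) δ / ds δ δ) * (δ 0 * δ 1 * (x ε - t0) 2 + δ 0 * δ 2 * (x ε - t0) 1 +
          δ 1 * δ 2 * (x ε - t0) 0) +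
        (ε - ds (x ε - t0) δ / ds δ δ) ^ 2 * (δ 0 * δ 1 * δ 2))) (-4 * ds δ δ) 0 := by
    have h1 := ((hD.const_mul (-4)).sub ((hH.const_mul 2).mul_const (ds δ δ))).add
      (((((((hU1.mul hU2).const_mul (δ 0)).add ((hU0.mul hU2).const_mul (δ 1))).add
        ((hU0.mul hU1).const_mul (δ 2))).add
        (hH.mul (((hU2.const_mul (δ 0 * δ 1)).add (hU1.const_mul (δ 0 * δ 2))).add
          (hU0.const_mul (δ 1 * δ 2))))).add ((hH.pow 2).mul_const (δ 0 * δ 1 * δ 2))).const_mul 2)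
    refine h1.congr_deriv ?_
    rw [hz 0, hz 1, hz 2, hd0]
    simp
  have hne := hb.eventually_ne (c := 0) (mul_ne_zero (by norm_num) hδ)
  filter_upwards [hne, h.filter_mono nhdsWithin_le_nhds] with ε h1 h2
  have h3 : (Gm (β (x ε))).det = (Gm (x ε)).det := hG (x ε)
  have h4 : x ε = t0 + (x ε - t0) := by abel
  have h5 : β (x ε) = t0 + ((x ε - t0) + (ε - ds (x ε - t0) δ / ds δ δ) • δ) := by
    rw [h2]; abel
  have h6 : (Gm (x ε)).det = -2 * ds (x ε - t0) (x ε - t0) +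
      2 * ((x ε - t0) 0 * (x ε - t0) 1 * (x ε - t0) 2) := by
    rw [← det_Gm, ← h4]
  rw [h5, det_Gm, h6] at h3
  generalize hg : ε - ds (x ε - t0) δ / ds δ δ = k at h1 h2 h3
  generalize x ε - t0 = u at h1 h3
  have h7 : k * (-4 * ds u δ - 2 * k * ds δ δ + 2 * (δ 0 * (u 1 * u 2) + δ 1 * (u 0 * u 2) +
      δ 2 * (u 0 * u 1) + k * (δ 0 * δ 1 * u 2 + δ 0 * δ 2 * u 1 + δ 1 * δ 2 * u 0) +
      k ^ 2 * (δ 0 * δ 1 * δ 2))) = 0 := by
    simp only [ds, Pi.add_apply, Pi.smul_apply, smul_eq_mul] at h3 ⊢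
    linear_combination h3
  rcases mul_eq_zero.1 h7 with h8 | h8
  · rw [h2, h8, zero_smul, add_zero]
  · exact absurd h8 h1

theorem curve_det (δ : V3) (hδ : ds δ δ ≠ 0) (x : ℝ → V3) (hx0 : x 0 = t0)
    (hx : HasDerivAt x δ 0) : ∀ᶠ ε in 𝓝[≠] (0 : ℝ), (Gm (x ε)).det ≠ 0 := by
  have hs : ∀ i, Tendsto (fun ε => ε⁻¹ * (x ε - t0) i) (𝓝[≠] (0 : ℝ)) (𝓝 (δ i)) := by
    intro i
    have h1 := hasDerivAt_iff_tendsto_slope.1 (hfix_coord hx i)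
    refine h1.congr fun ε => ?_
    rw [slope_def_field, hx0, sub_self]
    show ((x ε - t0) i - 0) / (ε - 0) = _
    rw [sub_zero, sub_zero, div_eq_inv_mul]
  have hid : Tendsto (fun ε : ℝ => ε) (𝓝[≠] (0 : ℝ)) (𝓝 0) := nhdsWithin_le_nhds
  have hlim : Tendsto (fun ε => -2 * ds (fun i => ε⁻¹ * (x ε - t0) i)
      (fun i => ε⁻¹ * (x ε - t0) i) + 2 * (ε * (ε⁻¹ * (x ε - t0) 0 * (ε⁻¹ * (x ε - t0) 1) *
        (ε⁻¹ * (x ε - t0) 2)))) (𝓝[≠] (0 : ℝ))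
      (𝓝 (-2 * ds δ δ + 2 * (0 * (δ 0 * δ 1 * δ 2)))) := by
    refine Tendsto.add (Tendsto.const_mul _ ?_) (Tendsto.const_mul _
      (hid.mul (((hs 0).mul (hs 1)).mul (hs 2))))
    have h0 := hs 0
    have h1 := hs 1
    have h2 := hs 2
    exact (((((h0.mul h0).add (h1.mul h1)).add (h2.mul h2)).sub ((h0.mul h1).add (h1.mul h0))).sub
      ((h0.mul h2).add (h2.mul h0))).sub ((h1.mul h2).add (h2.mul h1))
  have hne : -2 * ds δ δ + 2 * (0 * (δ 0 * δ 1 * δ 2)) ≠ 0 := by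
    rw [zero_mul, mul_zero, add_zero]
    exact mul_ne_zero (by norm_num) hδ
  filter_upwards [hlim.eventually_ne hne, self_mem_nhdsWithin] with ε h1 h2
  have h3 : ε ≠ 0 := h2
  have h4 : x ε = t0 + (x ε - t0) := by abel
  rw [h4, det_Gm]
  intro h5
  apply h1
  generalize x ε - t0 = u at h5
  have h6 : ds (fun i => ε⁻¹ * u i) (fun i => ε⁻¹ * u i) = ε⁻¹ ^ 2 * ds u u := by
    simp only [ds]
    ring
  have h7 : ε * (ε⁻¹ * u 0 * (ε⁻¹ * u 1) * (ε⁻¹ * u 2)) = ε⁻¹ ^ 2 * (u 0 * u 1 * u 2) := by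
    field_simp
  rw [h6, h7]
  linear_combination (ε⁻¹ ^ 2) * h5

end Pool.Agent.Lib.MP_9dbb0e_al.DF
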