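import Pool.Agent.Lib.MP_9dbb0e_al.D.HAlg

/-!
# JOB HInv: the corrected derivative is invertible

PROOF. `δ = dl0 a b c d`, `ds δ δ = (a + d) ^ 2 - 4 > 0` (`ds_dl0`).
`D_dl0`: `qf (D δ) (emb (lm w)) = qf δ (emb w) = qf δ (emb (lm w))` (`qf_dl0_inv`), and every `w'` is `lm a b c d w` (`w = (d w' 0 - b w' 1, - c w' 0 + a w' 1)`), so `D δ = δ` by `qf_inj`.
`exists_E`: the linear map `E₀ x = D x - x + (ds x δ / ds δ δ) • δ` (linear by `ds_add`, `ds_smul`) is injective: let `E₀ x = 0`. Apply `ds · δ`: `ds (D x) δ = ds (D x) (D δ) = ds x δ` (`ds_inv`, `D_dl0`), so `0 = ds x δ - ds x δ + ds x δ`, i.e. `ds x δ = 0`; so `D x = x`, and `ker_dl0` gives `ds δ δ • x = 0`, `x = 0`.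
`LinearMap.injective_iff_surjective` / `LinearEquiv.ofInjectiveEndo`, `LinearEquiv.toContinuousLinearEquiv`.
-/

set_option autoImplicit false

namespace Pool.Agent.Lib.MP_9dbb0e_al.DF

open Matrix

theorem D_dl0 (D : V3 →L[ℝ] V3) (a b c d : ℝ) (h : a * d - b * c = 1)
    (hD : ∀ x w, qf (D x) (emb (lm a b c d w)) = qf x (emb w)) :
    D (dl0 a b c d) = dl0 a b c d := by
  refine qf_inj _ _ fun w => ?_
  have hw : w = lm a b c d ![d * w 0 - b * w 1, -c * w 0 + a * w 1] := by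
    funext i
    fin_cases i
    · simp only [lm, Fin.zero_eta, Fin.isValue, Matrix.cons_val_zero, Matrix.cons_val_one]
      linear_combination (-(w 0)) * h
    · simp only [lm, Fin.mk_one, Fin.isValue, Matrix.cons_val_zero, Matrix.cons_val_one]
      linear_combination (-(w 1)) * h
  rw [hw, hD, qf_dl0_inv a b c d h]

theorem exists_E (D : V3 →L[ℝ] V3) (a b c d : ℝ) (h : a * d - b * c = 1) (ht : 2 < a + d)
    (hD : ∀ x w, qf (D x) (emb (lm a b c d w)) = qf x (emb w)) :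
    ∃ E : V3 ≃L[ℝ] V3, ∀ x, E x = D x - x +
      (ds x (dl0 a b c d) / ds (dl0 a b c d) (dl0 a b c d)) • dl0 a b c d := by
  obtain ⟨δ, hδ⟩ : ∃ δ, δ = dl0 a b c d := ⟨_, rfl⟩
  have hDδ : D δ = δ := by
    rw [hδ]
    exact D_dl0 D a b c d h hD
  have hpos : 0 < ds δ δ := by
    rw [hδ, ds_dl0 a b c d h]
    nlinarith
  obtain ⟨L, hL⟩ : ∃ L : V3 →ₗ[ℝ] ℝ, ∀ x, L x = ds x δ :=
    ⟨{ toFun := fun x => ds x δ, map_add' := fun x y => ds_add x y δ, map_smul' := fun c x => ds_smul c x δ },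
      fun _ => rfl⟩
  obtain ⟨E0, hE0⟩ : ∃ E0 : V3 →ₗ[ℝ] V3, ∀ x, E0 x = D x - x + (ds x δ / ds δ δ) • δ := by
    refine ⟨(D : V3 →ₗ[ℝ] V3) - LinearMap.id + ((ds δ δ)⁻¹ • L).smulRight δ, fun x => ?_⟩
    rw [LinearMap.add_apply, LinearMap.sub_apply, LinearMap.id_apply, LinearMap.smulRight_apply, LinearMap.smul_apply,
      hL, smul_eq_mul, div_eq_inv_mul]
    rfl
  have hinj : Function.Injective E0 := by
    rw [injective_iff_map_eq_zero]
    intro x hx
    rw [hE0] at hx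
    have h1 : ds (D x) δ = ds x δ := ds_inv a b c d h x (D x) δ δ (hD x) fun w => by
      have h2 := hD δ w
      rwa [hDδ] at h2
    have h2 : D x + (ds x δ / ds δ δ) • δ = x := by
      have h3 : D x + (ds x δ / ds δ δ) • δ = D x - x + (ds x δ / ds δ δ) • δ + x := by abel
      rw [h3, hx, zero_add]
    have h3 := congrArg (fun y => ds y δ) h2
    simp only [ds_add, ds_smul] at h3
    rw [h1, div_mul_cancel₀ _ hpos.ne'] at h3
    have h4 : ds x δ = 0 := by linarith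
    rw [h4, zero_div, zero_smul, add_zero] at h2
    have h5 := ker_dl0 a b c d h x fun w => by
      have h6 := hD x w
      rwa [h2] at h6
    rw [← hδ, h4, zero_smul] at h5
    rcases smul_eq_zero.1 h5 with h6 | h6
    · exact absurd h6 hpos.ne'
    · exact h6
  rw [← hδ]
  exact ⟨(LinearEquiv.ofInjectiveEndo E0 hinj).toContinuousLinearEquiv, hE0⟩

end Pool.Agent.Lib.MP_9dbb0e_al.DF
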