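import Pool.Agent.Lib.MP_9dbb0e_al.D.HEig

/-!
# JOB HLine: isotropic vectors and compactness

PROOFS.
`Eig.ne`: `p ≠ 0` etc. because `bl B p m ≠ 0`, `bl B e e ≠ 0`.
`iso_p`: `w = x • p + y • m + z • e` (`span`). `bl B w p = y * bl B m p = 0`, so `y = 0`; `bl B w w = 2 x y bl B p m + z ^ 2 bl B e e = 0`, so `z = 0`: `w = x • p`. (Use `bl_add_left`, .. and `bl_symm`.) `iso_m`: the same.
`exists_kappa`: let `Cn = {w | bl B w w = 0 ∧ ‖w‖ = 1}`, compact (closed subset of the unit sphere: `isCompact_sphere`, `IsCompact.inter_right`; `bl` is continuous: `Continuous.dotProduct`, `Continuous.matrix_mulVec` or unfold to a polynomial in the coordinates).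
 `F w = min |bl B w p| |bl B w m| + min |bl B w q| |bl B w n|` is continuous and positive on `Cn`: if `F w = 0` then one of `bl B w p, bl B w m` and one of `bl B w q, bl B w n` vanish, so `w = s • p` or `s • m` and `w = s' • q` or `s' • n` with `w ≠ 0`, hence `s, s' ≠ 0` and one of `q, n` is a multiple of one of `p, m`: contradiction with the hypotheses.
 If `Cn` is empty there is nothing to prove (`κ = 2`). Otherwise `F ≥ μ > 0` on `Cn` (`IsCompact.exists_isMinOn`), and `|bl B w p|, |bl B w m|, |bl B w q|, |bl B w n| ≤ R` on `Cn`, `R > 0` (`IsCompact.exists_bound_of_continuousOn` or maximum). Take `κ = 2 R / μ + 2`. Suppose `w ≠ 0` isotropic with `κ * min |bl B w p| |bl B w m| ≤ max |..| |..|` and the same for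
 `q, n`. All is homogeneous: replace `w` by `‖w‖⁻¹ • w`. Then `κ * F w ≤ 2 R`, but `κ * F w ≥ κ μ > 2 R`. Contradiction.
`Pr B κ p m w`: the condition `κ * min |bl B w p| |bl B w m| ≤ max |bl B w p| |bl B w m|`.
-/

set_option autoImplicit false

namespace Pool.Agent.Lib.MP_9dbb0e_al.DF

open Matrix

/-- `w` is close to one of the lines `p, m` -/
def Pr (B : Mt) (κ : ℝ) (p m w : V3) : Prop :=
  κ * min |bl B w p| |bl B w m| ≤ max |bl B w p| |bl B w m|

private theorem HLine_zl (B : Mt) (w : V3) : bl B 0 w = 0 := by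
  have h := bl_smul_left B 0 0 w
  rwa [zero_smul, zero_mul] at h

private theorem HLine_zr (B : Mt) (w : V3) : bl B w 0 = 0 := by
  have h := bl_smul_right B 0 w 0
  rwa [zero_smul, zero_mul] at h

theorem Eig.ne {B g : Mt} {l : ℝ} {p e m : V3} (h : Eig B g l p e m) : p ≠ 0 ∧ m ≠ 0 ∧ e ≠ 0 := by
  refine ⟨?_, ?_, ?_⟩
  · rintro rfl
    exact h.pm (HLine_zl B m)
  · rintro rfl
    exact h.pm (HLine_zr B p)
  · rintro rfl
    exact h.ee (HLine_zl B 0)

theorem iso_p {B g : Mt} (hs : Bᵀ = B) {l : ℝ} {p e m : V3} (h : Eig B g l p e m) (w : V3)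
    (hw : bl B w w = 0) (h0 : bl B w p = 0) : ∃ s : ℝ, w = s • p := by
  obtain ⟨x, y, z, rfl⟩ := h.span w
  have hmp := bl_symm hs m p
  have hep := bl_symm hs e p
  have hem := bl_symm hs e m
  simp only [bl_add_left, bl_add_right, bl_smul_left, bl_smul_right, h.pp, h.mm, h.pe, h.me, hmp, hep, hem,
    mul_zero, add_zero, zero_add] at hw h0
  obtain rfl : y = 0 := (mul_eq_zero.1 h0).resolve_right h.pm
  simp only [zero_mul, mul_zero, add_zero, zero_add] at hw
  obtain rfl : z = 0 := by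
    rcases mul_eq_zero.1 hw with h1 | h1
    · exact h1
    · exact (mul_eq_zero.1 h1).resolve_right h.ee
  exact ⟨x, by rw [zero_smul, zero_smul, add_zero, add_zero]⟩

theorem iso_m {B g : Mt} (hs : Bᵀ = B) {l : ℝ} {p e m : V3} (h : Eig B g l p e m) (w : V3)
    (hw : bl B w w = 0) (h0 : bl B w m = 0) : ∃ s : ℝ, w = s • m := by
  obtain ⟨x, y, z, rfl⟩ := h.span w
  have hmp := bl_symm hs m p
  have hep := bl_symm hs e p
  have hem := bl_symm hs e m
  simp only [bl_add_left, bl_add_right, bl_smul_left, bl_smul_right, h.pp, h.mm, h.pe, h.me, hmp, hep, hem,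
    mul_zero, add_zero, zero_add] at hw h0
  obtain rfl : x = 0 := (mul_eq_zero.1 h0).resolve_right h.pm
  simp only [zero_mul, mul_zero, add_zero, zero_add] at hw
  obtain rfl : z = 0 := by
    rcases mul_eq_zero.1 hw with h1 | h1
    · exact h1
    · exact (mul_eq_zero.1 h1).resolve_right h.ee
  exact ⟨y, by rw [zero_smul, zero_smul, add_zero, zero_add]⟩

private theorem HLine_cont (B : Mt) (p : V3) : Continuous (fun w : V3 => |bl B w p|) := by
  unfold bl dotProduct
  fun_prop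

private theorem HLine_cont2 (B : Mt) : Continuous (fun w : V3 => bl B w w) := by
  unfold bl Matrix.mulVec dotProduct
  fun_prop

private theorem HLine_Pr {B : Mt} {κ : ℝ} {p m w : V3} {c : ℝ} (hc : 0 < c) (h : Pr B κ p m w) :
    Pr B κ p m (c • w) := by
  unfold Pr at h ⊢
  rw [bl_smul_left, bl_smul_left, abs_mul, abs_mul, abs_of_pos hc, ← mul_min_of_nonneg _ _ hc.le,
    ← mul_max_of_nonneg _ _ hc.le]
  have h1 := mul_le_mul_of_nonneg_left h hc.le
  linarith

private theorem HLine_prop {w q p : V3} (hw : w ≠ 0) {s t : ℝ} (h1 : w = s • p) (h2 : w = t • q) :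
    ∃ r : ℝ, q = r • p := by
  have ht : t ≠ 0 := by
    rintro rfl
    rw [zero_smul] at h2
    exact hw h2
  refine ⟨t⁻¹ * s, ?_⟩
  rw [mul_smul, ← h1, h2, smul_smul, inv_mul_cancel₀ ht, one_smul]

private theorem HLine_min {a b : ℝ} (h : min |a| |b| = 0) : a = 0 ∨ b = 0 := by
  rcases min_choice |a| |b| with h1 | h1
  · left
    rw [h1] at h
    exact abs_eq_zero.1 h
  · right
    rw [h1] at h
    exact abs_eq_zero.1 h

theorem exists_kappa {B g k : Mt} (hs : Bᵀ = B) {l : ℝ} {p e m : V3} (h : Eig B g l p e m)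
    {l' : ℝ} {q f n : V3} (h' : Eig B k l' q f n) (h1 : ∀ s : ℝ, q ≠ s • p)
    (h2 : ∀ s : ℝ, q ≠ s • m) (h3 : ∀ s : ℝ, n ≠ s • p) (h4 : ∀ s : ℝ, n ≠ s • m) :
    ∃ κ : ℝ, 1 < κ ∧ ∀ w : V3, w ≠ 0 → bl B w w = 0 → Pr B κ p m w → ¬ Pr B κ q n w := by
  have hFc : Continuous (fun w : V3 => min |bl B w p| |bl B w m| + min |bl B w q| |bl B w n|) :=
    ((HLine_cont B p).min (HLine_cont B m)).add ((HLine_cont B q).min (HLine_cont B n))
  have hGc : Continuous (fun w : V3 => max |bl B w p| |bl B w m| + max |bl B w q| |bl B w n|) :=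
    ((HLine_cont B p).max (HLine_cont B m)).add ((HLine_cont B q).max (HLine_cont B n))
  have hC : IsCompact ({w : V3 | bl B w w = 0} ∩ Metric.sphere 0 1) :=
    (isCompact_sphere 0 1).inter_left (isClosed_eq (HLine_cont2 B) continuous_const)
  have hpos : ∀ w ∈ ({w : V3 | bl B w w = 0} ∩ Metric.sphere 0 1),
      0 < min |bl B w p| |bl B w m| + min |bl B w q| |bl B w n| := by
    rintro w ⟨hw1, hw2⟩
    have hw1' : bl B w w = 0 := hw1
    have hw0 : w ≠ 0 := by
      rintro rfl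
      rw [mem_sphere_zero_iff_norm, norm_zero] at hw2
      exact zero_ne_one hw2
    have e1 : 0 ≤ min |bl B w p| |bl B w m| := le_min (abs_nonneg _) (abs_nonneg _)
    have e2 : 0 ≤ min |bl B w q| |bl B w n| := le_min (abs_nonneg _) (abs_nonneg _)
    by_contra hcon
    have e3 : min |bl B w p| |bl B w m| = 0 := by linarith
    have e4 : min |bl B w q| |bl B w n| = 0 := by linarith
    rcases HLine_min e3 with e5 | e5
    · obtain ⟨s, hs1⟩ := iso_p hs h w hw1' e5
      rcases HLine_min e4 with e6 | e6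
      · obtain ⟨t, ht⟩ := iso_p hs h' w hw1' e6
        obtain ⟨r, hr⟩ := HLine_prop hw0 hs1 ht
        exact h1 r hr
      · obtain ⟨t, ht⟩ := iso_m hs h' w hw1' e6
        obtain ⟨r, hr⟩ := HLine_prop hw0 hs1 ht
        exact h3 r hr
    · obtain ⟨s, hs1⟩ := iso_m hs h w hw1' e5
      rcases HLine_min e4 with e6 | e6
      · obtain ⟨t, ht⟩ := iso_p hs h' w hw1' e6
        obtain ⟨r, hr⟩ := HLine_prop hw0 hs1 ht
        exact h2 r hr
      · obtain ⟨t, ht⟩ := iso_m hs h' w hw1' e6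
        obtain ⟨r, hr⟩ := HLine_prop hw0 hs1 ht
        exact h4 r hr
  obtain ⟨μ, hμ0, hμ⟩ : ∃ μ : ℝ, 0 < μ ∧ ∀ w ∈ ({w : V3 | bl B w w = 0} ∩ Metric.sphere 0 1),
      μ ≤ min |bl B w p| |bl B w m| + min |bl B w q| |bl B w n| := by
    rcases Set.eq_empty_or_nonempty ({w : V3 | bl B w w = 0} ∩ Metric.sphere 0 1) with he | he
    · refine ⟨1, one_pos, fun w hw => ?_⟩
      rw [he] at hw
      exact absurd hw (Set.notMem_empty w)
    · obtain ⟨x, hx, hmin⟩ := hC.exists_isMinOn he hFc.continuousOn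
      exact ⟨_, hpos x hx, fun w hw => hmin hw⟩
  obtain ⟨R, hR⟩ := hC.exists_bound_of_continuousOn hGc.continuousOn
  refine ⟨|R| / μ + 2, by
    have h0 : 0 ≤ |R| / μ := by positivity
    linarith, ?_⟩
  intro w hw0 hww hP hQ
  have hn : 0 < ‖w‖⁻¹ := inv_pos.2 (norm_pos_iff.2 hw0)
  have hP' := HLine_Pr hn hP
  have hQ' := HLine_Pr hn hQ
  have hmem : ‖w‖⁻¹ • w ∈ ({w : V3 | bl B w w = 0} ∩ Metric.sphere 0 1) := by
    refine ⟨?_, ?_⟩
    · change bl B (‖w‖⁻¹ • w) (‖w‖⁻¹ • w) = 0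
      rw [bl_smul_left, bl_smul_right, hww, mul_zero, mul_zero]
    · rw [mem_sphere_zero_iff_norm, norm_smul, norm_inv, norm_norm, inv_mul_cancel₀ (norm_ne_zero_iff.2 hw0)]
  have e1 := hμ _ hmem
  have e2 := (le_abs_self _).trans (hR _ hmem)
  unfold Pr at hP' hQ'
  have e3 : (|R| / μ + 2) * μ = |R| + 2 * μ := by
    field_simp
  have e4 := mul_le_mul_of_nonneg_left e1 (by positivity : 0 ≤ |R| / μ + 2)
  have e5 := le_abs_self R
  rw [e3] at e4
  rw [mul_add] at e4
  linarith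

end Pool.Agent.Lib.MP_9dbb0e_al.DF
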