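import Pool.Agent.Lib.MP_9dbb0e_al.D.HDefs

/-!
# JOB HTr: the derivative of the trace

`N ε` is a family of isometries of `Gm (x ε)` of determinant one with `N 0 = 1 + v σᵀ` (`N 0 i j = δ i j + v i`), `sm v = 0`. Then the trace has derivative `- qf δ v` at `0`.

PROOF. Write `N' i j` for the derivatives of the entries at `0`, `Γ i j` for the derivatives of the entries of `Gm (x ε)` (`Γ i i = 0`, `Γ 0 1 = δ 0`, `Γ 0 2 = δ 1`, `Γ 1 2 = δ 2`). Let `r j = ∑ i, N' i j`.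
(1) The diagonal entry `j` of `(N ε)ᵀ * Gm (x ε) * N ε = Gm (x ε)` is: `∑ i k, N ε i j * Gm (x ε) i k * N ε k j = 2`. Differentiate at `0` (constant on a neighbourhood: derivative `0`, `HasDerivAt.congr_of_eventuallyEq`, `HasDerivAt.unique`): with `n i = δ i j + v i`, `∑ i, n i = 1`, `Gm t0 i k = 2`:
 `2 * (∑ i, N' i j) * 2 * 1 + ∑ i k, n i * Γ i k * n k = 0`, i.e. `4 * r j + 2 * (δ 0 * n 0 * n 1 + δ 1 * n 0 * n 2 + δ 2 * n 1 * n 2) = 0`, i.e. `2 * r j = - qf δ (e j + v)`.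
(2) The determinant is constant: its derivative at `0` is `0`; with `Matrix.det_fin_three` the derivative at `N 0 = 1 + v σᵀ` (using `v 0 + v 1 + v 2 = 0`) is `(N' 0 0 + N' 1 1 + N' 2 2) - (r 0 * v 0 + r 1 * v 1 + r 2 * v 2)`. (Check: the adjugate of `1 + v σᵀ` is `1 - v σᵀ`.)
(3) So the derivative of the trace is `∑ j, v j * r j = - (1/2) ∑ j, v j * qf δ (e j + v)`, and `∑ j, v j * qf δ (e j + v) = 2 * qf δ v` when `sm v = 0`: `qf δ (e 0 + v) = qf δ v + δ 0 * v 1 + δ 1 * v 2`, etc., so the sum is `(sm v) * qf δ v + 2 * qf δ v`.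
In Lean: get the nine functions `N · i j` and the three functions `x · 0, x · 1, x · 2` with `HasDerivAt` (`hasDerivAt_pi`), and build the derivative of the polynomials with `HasDerivAt.mul`, `HasDerivAt.add` (three times for (1), once for (2)); everything at the end is `linear_combination` / `nlinarith`-free `linear_combination`.
-/

set_option autoImplicit false

namespace Pool.Agent.Lib.MP_9dbb0e_al.DF

open Matrix Filter Topology

private theorem HTr_P {a b c x0 x1 x2 : ℝ → ℝ} {a' b' c' d0 d1 d2 : ℝ} (ha : HasDerivAt a a' 0)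
    (hb : HasDerivAt b b' 0) (hc : HasDerivAt c c' 0) (h0 : HasDerivAt x0 d0 0) (h1 : HasDerivAt x1 d1 0)
    (h2 : HasDerivAt x2 d2 0) (e0 : x0 0 = 2) (e1 : x1 0 = 2) (e2 : x2 0 = 2)
    (h : ∀ᶠ ε in 𝓝 (0 : ℝ), a ε * a ε + b ε * b ε + c ε * c ε + x0 ε * (a ε * b ε) + x1 ε * (a ε * c ε) +
      x2 ε * (b ε * c ε) = 1) :
    2 * (a 0 + b 0 + c 0) * (a' + b' + c') + d0 * (a 0 * b 0) + d1 * (a 0 * c 0) + d2 * (b 0 * c 0) = 0 := by
  have k1 := (((((ha.mul ha).add (hb.mul hb)).add (hc.mul hc)).add (h0.mul (ha.mul hb))).add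
    (h1.mul (ha.mul hc))).add (h2.mul (hb.mul hc))
  have k2 : HasDerivAt (fun _ : ℝ => (1 : ℝ)) 0 0 := hasDerivAt_const 0 1
  have k3 := (k2.congr_of_eventuallyEq h)
  have k4 := k3.unique k1
  simp only [Pi.mul_apply] at k4
  rw [e0, e1, e2] at k4
  linear_combination - k4

private theorem HTr_D {a : Fin 3 → Fin 3 → ℝ → ℝ} {a' : Fin 3 → Fin 3 → ℝ} (ha : ∀ i j, HasDerivAt (a i j) (a' i j) 0)
    (h : ∀ᶠ ε in 𝓝 (0 : ℝ), a 0 0 ε * (a 1 1 ε * a 2 2 ε - a 1 2 ε * a 2 1 ε) -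
      a 0 1 ε * (a 1 0 ε * a 2 2 ε - a 1 2 ε * a 2 0 ε) + a 0 2 ε * (a 1 0 ε * a 2 1 ε - a 1 1 ε * a 2 0 ε) = 1) :
    a' 0 0 * (a 1 1 0 * a 2 2 0 - a 1 2 0 * a 2 1 0) - a' 0 1 * (a 1 0 0 * a 2 2 0 - a 1 2 0 * a 2 0 0) +
      a' 0 2 * (a 1 0 0 * a 2 1 0 - a 1 1 0 * a 2 0 0) +
      a 0 0 0 * (a' 1 1 * a 2 2 0 + a 1 1 0 * a' 2 2 - (a' 1 2 * a 2 1 0 + a 1 2 0 * a' 2 1)) -
      a 0 1 0 * (a' 1 0 * a 2 2 0 + a 1 0 0 * a' 2 2 - (a' 1 2 * a 2 0 0 + a 1 2 0 * a' 2 0)) +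
      a 0 2 0 * (a' 1 0 * a 2 1 0 + a 1 0 0 * a' 2 1 - (a' 1 1 * a 2 0 0 + a 1 1 0 * a' 2 0)) = 0 := by
  have k1 := (((ha 0 0).mul (((ha 1 1).mul (ha 2 2)).sub ((ha 1 2).mul (ha 2 1)))).sub
    ((ha 0 1).mul (((ha 1 0).mul (ha 2 2)).sub ((ha 1 2).mul (ha 2 0))))).add
    ((ha 0 2).mul (((ha 1 0).mul (ha 2 1)).sub ((ha 1 1).mul (ha 2 0))))
  have k2 : HasDerivAt (fun _ : ℝ => (1 : ℝ)) 0 0 := hasDerivAt_const 0 1
  have k3 := (k2.congr_of_eventuallyEq h)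
  have k4 := k3.unique k1
  simp only [Pi.mul_apply, Pi.sub_apply] at k4
  linear_combination - k4

theorem trace_deriv (N : ℝ → Mt) (N' : Mt) (hN : ∀ i j, HasDerivAt (fun ε => N ε i j) (N' i j) 0)
    (x : ℝ → V3) (δ : V3) (hx0 : x 0 = t0) (hx : HasDerivAt x δ 0) (v : V3) (hv : sm v = 0)
    (hN0 : ∀ i j, N 0 i j = (if i = j then 1 else 0) + v i)
    (hiso : ∀ᶠ ε in 𝓝 (0 : ℝ), (N ε)ᵀ * Gm (x ε) * N ε = Gm (x ε))
    (hdet : ∀ᶠ ε in 𝓝 (0 : ℝ), (N ε).det = 1) :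
    HasDerivAt (fun ε => (N ε).trace) (- qf δ v) 0 := by
  have hxi : ∀ i, HasDerivAt (fun ε => x ε i) (δ i) 0 := hasDerivAt_pi.1 hx
  have e0 : x 0 0 = 2 := by
    rw [hx0]
    simp [t0]
  have e1 : x 0 1 = 2 := by
    rw [hx0]
    simp [t0]
  have e2 : x 0 2 = 2 := by
    rw [hx0]
    simp [t0]
  have hP : ∀ j, ∀ᶠ ε in 𝓝 (0 : ℝ), N ε 0 j * N ε 0 j + N ε 1 j * N ε 1 j + N ε 2 j * N ε 2 j +
      x ε 0 * (N ε 0 j * N ε 1 j) + x ε 1 * (N ε 0 j * N ε 2 j) + x ε 2 * (N ε 1 j * N ε 2 j) = 1 := by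
    intro j
    filter_upwards [hiso] with ε h
    have h1 := congrFun (congrFun h j) j
    have h2 : Gm (x ε) j j = 2 := by
      fin_cases j <;> simp [Gm]
    rw [h2, Matrix.mul_apply, Fin.sum_univ_three, Matrix.mul_apply, Matrix.mul_apply, Matrix.mul_apply,
      Fin.sum_univ_three, Fin.sum_univ_three, Fin.sum_univ_three] at h1
    simp only [Matrix.transpose_apply] at h1
    have g00 : Gm (x ε) 0 0 = 2 := by simp [Gm]
    have g01 : Gm (x ε) 0 1 = x ε 0 := by simp [Gm]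
    have g02 : Gm (x ε) 0 2 = x ε 1 := by simp [Gm]
    have g10 : Gm (x ε) 1 0 = x ε 0 := by simp [Gm]
    have g11 : Gm (x ε) 1 1 = 2 := by simp [Gm]
    have g12 : Gm (x ε) 1 2 = x ε 2 := by simp [Gm]
    have g20 : Gm (x ε) 2 0 = x ε 1 := by simp [Gm]
    have g21 : Gm (x ε) 2 1 = x ε 2 := by simp [Gm]
    have g22 : Gm (x ε) 2 2 = 2 := by simp [Gm]
    rw [g00, g01, g02, g10, g11, g12, g20, g21, g22] at h1
    linear_combination (1 / 2 : ℝ) * h1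
  have q : ∀ j, 2 * (N 0 0 j + N 0 1 j + N 0 2 j) * (N' 0 j + N' 1 j + N' 2 j) + δ 0 * (N 0 0 j * N 0 1 j) +
      δ 1 * (N 0 0 j * N 0 2 j) + δ 2 * (N 0 1 j * N 0 2 j) = 0 := by
    intro j
    exact HTr_P (hN 0 j) (hN 1 j) (hN 2 j) (hxi 0) (hxi 1) (hxi 2) e0 e1 e2 (hP j)
  have hD := HTr_D (a := fun i j ε => N ε i j) (a' := fun i j => N' i j) hN (by
    filter_upwards [hdet] with ε h
    rw [Matrix.det_fin_three] at h
    linear_combination h)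
  have n00 : N 0 0 0 = 1 + v 0 := by rw [hN0]; simp
  have n01 : N 0 0 1 = v 0 := by rw [hN0]; simp
  have n02 : N 0 0 2 = v 0 := by rw [hN0]; simp
  have n10 : N 0 1 0 = v 1 := by rw [hN0]; simp
  have n11 : N 0 1 1 = 1 + v 1 := by rw [hN0]; simp
  have n12 : N 0 1 2 = v 1 := by rw [hN0]; simp
  have n20 : N 0 2 0 = v 2 := by rw [hN0]; simp
  have n21 : N 0 2 1 = v 2 := by rw [hN0]; simp
  have n22 : N 0 2 2 = 1 + v 2 := by rw [hN0]; simp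
  have q0 := q 0
  have q1 := q 1
  have q2 := q 2
  simp only [n00, n01, n02, n10, n11, n12, n20, n21, n22] at q0 q1 q2 hD
  unfold sm at hv
  have hv2 : v 2 = - v 0 - v 1 := by linear_combination hv
  have ht : HasDerivAt (fun ε => (N ε).trace) (N' 0 0 + N' 1 1 + N' 2 2) 0 := by
    have h1 := ((hN 0 0).add (hN 1 1)).add (hN 2 2)
    refine h1.congr_of_eventuallyEq (Filter.Eventually.of_forall fun ε => ?_)
    simp [Matrix.trace_fin_three]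
  have hfin : N' 0 0 + N' 1 1 + N' 2 2 = - qf δ v := by
    unfold qf
    rw [hv2] at q0 q1 q2 hD ⊢
    linear_combination hD + (1 / 2 : ℝ) * v 0 * q0 + (1 / 2 : ℝ) * v 1 * q1 + (1 / 2 : ℝ) * (- v 0 - v 1) * q2
  rw [hfin] at ht
  exact ht

end Pool.Agent.Lib.MP_9dbb0e_al.DF
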