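import Pool.Agent.Lib.MP_9dbb0e_al.D.HDer
import Pool.Agent.Lib.MP_9dbb0e_al.D.HInv
import Pool.Agent.Lib.MP_9dbb0e_al.D.HCur
import Pool.Agent.Lib.MP_9dbb0e_al.D.HFix
import Pool.Agent.Lib.MP_9dbb0e_al.D.HTr

/-!
# JOB HMa: the curve of fixed points of a hyperbolic bundle map; the trace along a curve

PROOFS.
`exists_fixed_curve`: `D = fderiv ℝ B.β t0`. `hD`: `qf_deriv` with `v = emb w` (`sm_emb`) and `A *ᵥ emb w = emb (lm a b c d w)`. `D_dl0`, `exists_E`, `ds_dl0` (so `ds δ δ = (a + d) ^ 2 - 4 ≠ 0`), `exists_curve` (strict derivative: `B.β_c.contDiffAt.hasStrictFDerivAt (le_refl 1)` / `ContDiffAt.hasStrictFDerivAt` with `1 ≤ 1`), `curve_fixed`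
 (`hG`: take determinants in `B.iso`, `B.det`, `det_transpose`), `curve_det`.
`trace_curve`: `N ε = B.M (x ε)`; its entries are differentiable at `0` (`B.M_c i j` is `C ^ 1`, so differentiable, composed with `x`: `HasFDerivAt.comp_hasDerivAt`), `trace_deriv`; `hiso`: where `B.β (x ε) = x ε`, by `B.iso`; at `ε = 0` by `B.fix`: so it holds eventually in `𝓝 0` (`eventually_nhdsWithin_iff` and the point `0`: `Filter.Eventually` of
 `ε ≠ 0 → P ε` together with `P 0`).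
`trace_tendsto`: continuity of the entries.
-/

set_option autoImplicit false

namespace Pool.Agent.Lib.MP_9dbb0e_al.DF

open Matrix Filter Topology

private theorem HMa_entry (B : Bun) (x : ℝ → V3) (δ : V3) (hx0 : x 0 = t0)
    (hx : HasDerivAt x δ 0) (i j : Fin 3) :
    HasDerivAt (fun ε => B.M (x ε) i j) (fderiv ℝ (fun y => B.M y i j) t0 δ) 0 := by
  have h1 : HasFDerivAt (fun y => B.M y i j) (fderiv ℝ (fun y => B.M y i j) t0) (x 0) := by
    rw [hx0]
    exact ((B.M_c i j).differentiable (by norm_num)).differentiableAt.hasFDerivAt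
  exact h1.comp_hasDerivAt (0 : ℝ) hx

private theorem HMa_sm_single (j : Fin 3) : sm (Pi.single j (1 : ℝ) : V3) = 1 := by
  fin_cases j <;> simp [sm, Pi.single_apply]

private theorem HMa_M0 (B : Bun) (v : V3) (h0 : ∀ w, B.M t0 *ᵥ w = w + sm w • v) (i j : Fin 3) :
    B.M t0 i j = (if i = j then 1 else 0) + v i := by
  have h1 := congrFun (h0 (Pi.single j (1 : ℝ))) i
  rw [HMa_sm_single] at h1
  simpa [Pi.single_apply] using h1

theorem exists_fixed_curve (B : Bun) (A : Mt) (hA : B.M t0 = A) (hσ : ∀ v, sm (A *ᵥ v) = sm v)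
    (a b c d : ℝ) (h : a * d - b * c = 1) (ht : 2 < a + d)
    (hlin : ∀ w, A *ᵥ emb w = emb (lm a b c d w)) :
    ∃ x : ℝ → V3, x 0 = t0 ∧ HasDerivAt x (dl0 a b c d) 0 ∧
      (∀ᶠ ε in 𝓝[≠] (0 : ℝ), B.β (x ε) = x ε) ∧ ∀ᶠ ε in 𝓝[≠] (0 : ℝ), (Gm (x ε)).det ≠ 0 := by
  have hstrict : HasStrictFDerivAt B.β (fderiv ℝ B.β t0) t0 :=
    B.β_c.contDiffAt.hasStrictFDerivAt (by norm_num)
  have hD : ∀ x w, qf (fderiv ℝ B.β t0 x) (emb (lm a b c d w)) = qf x (emb w) := by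
    intro x w
    rw [← hlin w]
    exact qf_deriv B A hA hσ x (emb w) (sm_emb w)
  have hDδ := D_dl0 (fderiv ℝ B.β t0) a b c d h hD
  obtain ⟨E, hE⟩ := exists_E (fderiv ℝ B.β t0) a b c d h ht hD
  have hds : ds (dl0 a b c d) (dl0 a b c d) ≠ 0 := by
    rw [ds_dl0 a b c d h]
    nlinarith
  obtain ⟨x, hx0, hx, hcur⟩ := exists_curve B.β (fderiv ℝ B.β t0) hstrict B.fix (dl0 a b c d) hds
    hDδ E hE
  have hG : ∀ y, (Gm (B.β y)).det = (Gm y).det := by
    intro y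
    have h1 := congrArg Matrix.det (B.iso y)
    rwa [det_mul, det_mul, det_transpose, B.det, one_mul, mul_one] at h1
  exact ⟨x, hx0, hx, curve_fixed B.β hG (dl0 a b c d) hds x hx0 hx hcur,
    curve_det (dl0 a b c d) hds x hx0 hx⟩

theorem trace_curve (B : Bun) (x : ℝ → V3) (δ : V3) (hx0 : x 0 = t0) (hx : HasDerivAt x δ 0)
    (hfix : ∀ᶠ ε in 𝓝[≠] (0 : ℝ), B.β (x ε) = x ε) (v : V3) (hv : sm v = 0)
    (h0 : ∀ w, B.M t0 *ᵥ w = w + sm w • v) :
    HasDerivAt (fun ε => (B.M (x ε)).trace) (- qf δ v) 0 ∧ (B.M (x 0)).trace = 3 := by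
  have hN0 : ∀ i j, B.M (x 0) i j = (if i = j then 1 else 0) + v i := by
    intro i j
    rw [hx0]
    exact HMa_M0 B v h0 i j
  have hiso : ∀ᶠ ε in 𝓝 (0 : ℝ), (B.M (x ε))ᵀ * Gm (x ε) * B.M (x ε) = Gm (x ε) := by
    rw [eventually_nhdsWithin_iff] at hfix
    filter_upwards [hfix] with ε hε
    have h1 : B.β (x ε) = x ε := by
      by_cases h2 : ε = 0
      · rw [h2, hx0]
        exact B.fix
      · exact hε h2
    have h3 := B.iso (x ε)
    rwa [h1] at h3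
  refine ⟨trace_deriv (fun ε => B.M (x ε)) (fun i j => fderiv ℝ (fun y => B.M y i j) t0 δ)
    (fun i j => HMa_entry B x δ hx0 hx i j) x δ hx0 hx v hv hN0 hiso
    (Eventually.of_forall fun ε => B.det (x ε)), ?_⟩
  unfold sm at hv
  rw [Matrix.trace, Fin.sum_univ_three]
  simp only [Matrix.diag_apply, hN0, if_true]
  linarith

theorem trace_tendsto (B : Bun) (x : ℝ → V3) (δ : V3) (hx0 : x 0 = t0) (hx : HasDerivAt x δ 0) :
    Tendsto (fun ε => (B.M (x ε)).trace) (𝓝 0) (𝓝 (B.M t0).trace) := by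
  unfold Matrix.trace
  refine tendsto_finsetSum _ fun i _ => ?_
  have h1 : Tendsto x (𝓝 0) (𝓝 t0) := by
    have h2 := hx.continuousAt.tendsto
    rwa [hx0] at h2
  exact ((B.M_c i i).continuous.tendsto t0).comp h1

end Pool.Agent.Lib.MP_9dbb0e_al.DF
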