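import Pool.Agent.Lib.MP_9dbb0e_al.U
import Pool.Agent.Lib.MP_9dbb0e_al.D.HLine

/-!
# JOB HPp: ping-pong

PROOFS.
`zpow_mulVec`: `g : GL (Fin 3) ℝ` with `(g : Mt) *ᵥ p = l • p`, `l ≠ 0`: `((g ^ k : GL (Fin 3) ℝ) : Mt) *ᵥ p = l ^ k • p` for `k : ℤ` (`Int.induction_on`; `(g⁻¹ : Mt) *ᵥ p = l⁻¹ • p`).
`zpow_bl`: `bl B (g ^ k *ᵥ w) p = l ^ (-k) * bl B w p` if `g p = l p` (isometry: `bl B (g^k w) (g^k p) = bl B w p`, `g^k p = l^k p`; `g ^ k` is an isometry too: `Int.induction_on` or the subgroup of isometries).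
`push`: `w` isotropic nonzero, `¬ Pr B κ p m w` (so `u = |bl B w p|`, `v = |bl B w m|` satisfy `κ * min u v > max u v`; in particular both are positive), `l > 1`, `l ^ (2 * N) ≥ κ ^ 2`, `k ≠ 0`: then `Pr B κ p m ((g ^ N) ^ k *ᵥ w)`: the new values are `u' = l ^ (- N k) * u`, `v' = l ^ (N k) * v`
 (`g m = l⁻¹ m`). If `k ≥ 1`: `v' / u' = l ^ (2 N k) v / u ≥ κ ^ 2 * κ⁻¹ = κ`, so `κ * u' ≤ v'`, `κ * min u' v' ≤ κ u' ≤ v' ≤ max u' v'`. If `k ≤ -1`: symmetric.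
`pp_core`: `exists_kappa` gives `κ`. Choose `N ≥ 1` with `l ^ N ≥ κ` and `l' ^ N ≥ κ` (`pow_unbounded_of_one_lt`, monotone). `free_of_pp` (U.lean) for the group `GL (Fin 3) ℝ` acting on `V3` by `g • w = (g : Mt) *ᵥ w` (is there an instance? otherwise define it: `MulAction.ofEndHom` or a local `MulAction` with `smul g w := (g : Mt) *ᵥ w`, `one_smul`: `Matrix.one_mulVec`, `mul_smul`: `Matrix.mulVec_mulVec`; use `letI`),
 elements `g ^ N`, `k ^ N`, `X = {w | w ≠ 0 ∧ bl B w w = 0 ∧ Pr B κ p m w}`, `Y = {w | w ≠ 0 ∧ bl B w w = 0 ∧ Pr B κ q n w}`. Nonempty: `p ∈ X` (`bl B p p = 0`, so the minimum is `0`), `q ∈ Y`. Disjoint: `exists_kappa`. The action of powers maps nonzero isotropic vectors to nonzero isotropic vectors (invertible, isometry). `free_of_pp .. 1 1`.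
-/

set_option autoImplicit false

namespace Pool.Agent.Lib.MP_9dbb0e_al.DF

open Matrix

theorem zpow_mulVec (g : GL (Fin 3) ℝ) {l : ℝ} (hl : l ≠ 0) {p : V3} (hp : (g : Mt) *ᵥ p = l • p)
    (k : ℤ) : ((g ^ k : GL (Fin 3) ℝ) : Mt) *ᵥ p = l ^ k • p := by
  have hinv : ((g⁻¹ : GL (Fin 3) ℝ) : Mt) *ᵥ p = l⁻¹ • p := by
    have h1 : ((g⁻¹ : GL (Fin 3) ℝ) : Mt) *ᵥ ((g : Mt) *ᵥ p) = p := by
      rw [Matrix.mulVec_mulVec, Units.inv_mul, Matrix.one_mulVec]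
    rw [hp, Matrix.mulVec_smul] at h1
    calc ((g⁻¹ : GL (Fin 3) ℝ) : Mt) *ᵥ p = l⁻¹ • (l • (((g⁻¹ : GL (Fin 3) ℝ) : Mt) *ᵥ p)) := by
          rw [smul_smul, inv_mul_cancel₀ hl, one_smul]
      _ = l⁻¹ • p := by rw [h1]
  induction k using Int.induction_on with
  | zero => rw [zpow_zero, zpow_zero, Units.val_one, Matrix.one_mulVec, one_smul]
  | succ i ih =>
    rw [_root_.zpow_add_one, Units.val_mul, ← Matrix.mulVec_mulVec, hp, Matrix.mulVec_smul, ih, smul_smul,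
      zpow_add_one₀ hl, mul_comm]
  | pred i ih =>
    rw [_root_.zpow_sub_one, Units.val_mul, ← Matrix.mulVec_mulVec, hinv, Matrix.mulVec_smul, ih, smul_smul,
      zpow_sub_one₀ hl, mul_comm]

private theorem HPp_mul {B a b : Mt} (ha : aᵀ * B * a = B) (hb : bᵀ * B * b = B) : (a * b)ᵀ * B * (a * b) = B := by
  rw [Matrix.transpose_mul]
  calc bᵀ * aᵀ * B * (a * b) = bᵀ * (aᵀ * B * a) * b := by simp only [Matrix.mul_assoc]
    _ = B := by rw [ha, hb]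

theorem zpow_iso {B : Mt} (g : GL (Fin 3) ℝ) (hg : (g : Mt)ᵀ * B * (g : Mt) = B) (k : ℤ) :
    ((g ^ k : GL (Fin 3) ℝ) : Mt)ᵀ * B * ((g ^ k : GL (Fin 3) ℝ) : Mt) = B := by
  have hinv : ((g⁻¹ : GL (Fin 3) ℝ) : Mt)ᵀ * B * ((g⁻¹ : GL (Fin 3) ℝ) : Mt) = B := by
    have h1 : ((g : Mt) * ((g⁻¹ : GL (Fin 3) ℝ) : Mt)) = 1 := Units.mul_inv g
    calc ((g⁻¹ : GL (Fin 3) ℝ) : Mt)ᵀ * B * ((g⁻¹ : GL (Fin 3) ℝ) : Mt)
        = ((g⁻¹ : GL (Fin 3) ℝ) : Mt)ᵀ * ((g : Mt)ᵀ * B * (g : Mt)) * ((g⁻¹ : GL (Fin 3) ℝ) : Mt) := by rw [hg]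
      _ = ((g : Mt) * ((g⁻¹ : GL (Fin 3) ℝ) : Mt))ᵀ * B * ((g : Mt) * ((g⁻¹ : GL (Fin 3) ℝ) : Mt)) := by
          rw [Matrix.transpose_mul]
          simp only [Matrix.mul_assoc]
      _ = B := by rw [h1, Matrix.transpose_one, Matrix.one_mul, Matrix.mul_one]
  induction k using Int.induction_on with
  | zero => rw [zpow_zero, Units.val_one, Matrix.transpose_one, Matrix.one_mul, Matrix.mul_one]
  | succ i ih =>
    rw [_root_.zpow_add_one, Units.val_mul]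
    exact HPp_mul ih hg
  | pred i ih =>
    rw [_root_.zpow_sub_one, Units.val_mul]
    exact HPp_mul ih hinv

private theorem HPp_num {κ L u v : ℝ} (hκ : 1 < κ) (hL : κ ≤ L) (h : max u v < κ * min u v) (hu : 0 ≤ u) :
    κ * min (L⁻¹ * u) (L * v) ≤ max (L⁻¹ * u) (L * v) := by
  have k0 : 0 < κ := by linarith
  have l0 : 0 < L := by linarith
  have hm : 0 < min u v := by
    by_contra hc
    push Not at hc
    have h1 : κ * min u v ≤ 0 := mul_nonpos_of_nonneg_of_nonpos k0.le hc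
    have h2 : u ≤ max u v := le_max_left _ _
    linarith
  have hv : 0 < v := lt_of_lt_of_le hm (min_le_right _ _)
  have h1 : κ * min (L⁻¹ * u) (L * v) ≤ κ * (L⁻¹ * u) := mul_le_mul_of_nonneg_left (min_le_left _ _) k0.le
  have h2 : κ * (L⁻¹ * u) ≤ u := by
    have h3 : κ * L⁻¹ ≤ 1 := by
      rw [← div_eq_mul_inv]
      exact (div_le_one l0).2 hL
    calc κ * (L⁻¹ * u) = κ * L⁻¹ * u := by ring
      _ ≤ 1 * u := mul_le_mul_of_nonneg_right h3 hu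
      _ = u := one_mul u
  have h3 : u ≤ max u v := le_max_left _ _
  have h4 : κ * min u v ≤ κ * v := mul_le_mul_of_nonneg_left (min_le_right _ _) k0.le
  have h5 : κ * v ≤ L * v := mul_le_mul_of_nonneg_right hL hv.le
  have h6 : L * v ≤ max (L⁻¹ * u) (L * v) := le_max_right _ _
  linarith

private theorem HPp_val {B : Mt} (g : GL (Fin 3) ℝ) (hg : (g : Mt)ᵀ * B * (g : Mt) = B) {l : ℝ} (hl : l ≠ 0)
    {p : V3} (hp : (g : Mt) *ᵥ p = l • p) (w : V3) (k : ℤ) :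
    bl B (((g ^ k : GL (Fin 3) ℝ) : Mt) *ᵥ w) p = (l ^ k)⁻¹ * bl B w p := by
  have h1 := bl_g (zpow_iso g hg k) w p
  rw [zpow_mulVec g hl hp, bl_smul_right] at h1
  rw [← h1, ← mul_assoc, inv_mul_cancel₀ (zpow_ne_zero k hl), one_mul]

theorem push {B : Mt} (hs : Bᵀ = B) (g : GL (Fin 3) ℝ) (hg : (g : Mt)ᵀ * B * (g : Mt) = B)
    {l : ℝ} {p e m : V3} (h : Eig B (g : Mt) l p e m) (hl : 1 < l) {κ : ℝ} (hκ : 1 < κ) {N : ℕ}
    (hN : κ ≤ l ^ N) {w : V3} (hw : ¬ Pr B κ p m w) {k : ℤ} (hk : k ≠ 0) :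
    Pr B κ p m (((g ^ N) ^ k : GL (Fin 3) ℝ) *ᵥ w) := by
  have l0 : 0 < l := by linarith
  have hgk : ((g ^ N) ^ k : GL (Fin 3) ℝ) = g ^ ((N : ℤ) * k) := by
    rw [_root_.zpow_mul, zpow_natCast]
  unfold Pr at hw ⊢
  push Not at hw
  rw [hgk, HPp_val g hg h.l0 h.gp w, HPp_val g hg (inv_ne_zero h.l0) h.gm w, _root_.inv_zpow, inv_inv, abs_mul, abs_mul]
  have hL : 0 < l ^ ((N : ℤ) * k) := zpow_pos l0 _
  rw [abs_inv, abs_of_pos hL]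
  rcases lt_or_gt_of_ne hk with h1 | h1
  · have h2 : κ ≤ (l ^ ((N : ℤ) * k))⁻¹ := by
      rw [← _root_.zpow_neg]
      refine le_trans hN ?_
      rw [← zpow_natCast]
      refine zpow_le_zpow_right₀ hl.le ?_
      nlinarith [Int.natCast_nonneg N]
    have h3 : max |bl B w m| |bl B w p| < κ * min |bl B w m| |bl B w p| := by
      rw [max_comm, min_comm]
      exact hw
    have h4 := HPp_num hκ h2 h3 (abs_nonneg _)
    rw [inv_inv] at h4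
    rw [min_comm, max_comm]
    exact h4
  · have h2 : κ ≤ l ^ ((N : ℤ) * k) := by
      refine le_trans hN ?_
      rw [← zpow_natCast]
      refine zpow_le_zpow_right₀ hl.le ?_
      nlinarith [Int.natCast_nonneg N]
    exact HPp_num hκ h2 hw (abs_nonneg _)

theorem pp_core {B : Mt} (hs : Bᵀ = B) (g k : GL (Fin 3) ℝ) (hg : (g : Mt)ᵀ * B * (g : Mt) = B)
    (hk : (k : Mt)ᵀ * B * (k : Mt) = B) {l : ℝ} {p e m : V3} (h : Eig B (g : Mt) l p e m)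
    (hl : 1 < l) {l' : ℝ} {q f n : V3} (h' : Eig B (k : Mt) l' q f n) (hl' : 1 < l')
    (h1 : ∀ s : ℝ, q ≠ s • p) (h2 : ∀ s : ℝ, q ≠ s • m) (h3 : ∀ s : ℝ, n ≠ s • p)
    (h4 : ∀ s : ℝ, n ≠ s • m) : ∃ N : ℕ, 0 < N ∧ FreeTwo (g ^ N) (k ^ N) := by
  obtain ⟨κ, hκ, hd⟩ := exists_kappa hs h h' h1 h2 h3 h4
  obtain ⟨N1, hN1⟩ := pow_unbounded_of_one_lt κ hl
  obtain ⟨N2, hN2⟩ := pow_unbounded_of_one_lt κ hl'
  obtain ⟨N, hN0, hNl, hNl'⟩ : ∃ N : ℕ, 0 < N ∧ κ ≤ l ^ N ∧ κ ≤ l' ^ N := by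
    refine ⟨N1 + N2 + 1, by omega, ?_, ?_⟩
    · exact le_trans hN1.le (pow_le_pow_right₀ hl.le (by omega))
    · exact le_trans hN2.le (pow_le_pow_right₀ hl'.le (by omega))
  refine ⟨N, hN0, ?_⟩
  let act : MulAction (GL (Fin 3) ℝ) V3 :=
    { smul := fun a w => (a : Mt) *ᵥ w
      one_smul := fun w => by
        show ((1 : GL (Fin 3) ℝ) : Mt) *ᵥ w = w
        rw [Units.val_one, Matrix.one_mulVec]
      mul_smul := fun a b w => by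
        show ((a * b : GL (Fin 3) ℝ) : Mt) *ᵥ w = (a : Mt) *ᵥ ((b : Mt) *ᵥ w)
        rw [Units.val_mul, Matrix.mulVec_mulVec] }
  have hsm : ∀ (a : GL (Fin 3) ℝ) (w : V3), a • w = (a : Mt) *ᵥ w := fun a w => rfl
  have hne : ∀ (a : GL (Fin 3) ℝ) (w : V3), w ≠ 0 → (a : Mt) *ᵥ w ≠ 0 := by
    intro a w hw h0
    apply hw
    have h5 : ((a⁻¹ : GL (Fin 3) ℝ) : Mt) *ᵥ ((a : Mt) *ᵥ w) = w := by
      rw [Matrix.mulVec_mulVec, Units.inv_mul, Matrix.one_mulVec]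
    rw [← h5, h0, Matrix.mulVec_zero]
  have hiso : ∀ (a : GL (Fin 3) ℝ), (a : Mt)ᵀ * B * (a : Mt) = B → ∀ (j : ℤ) (w : V3), bl B w w = 0 →
      bl B ((((a ^ N) ^ j : GL (Fin 3) ℝ) : Mt) *ᵥ w) ((((a ^ N) ^ j : GL (Fin 3) ℝ) : Mt) *ᵥ w) = 0 := by
    intro a ha j w hw
    have h6 := zpow_iso a ha (N : ℤ)
    rw [zpow_natCast] at h6
    rw [bl_g (zpow_iso (a ^ N) h6 j), hw]
  have hfr := free_of_pp (G := GL (Fin 3) ℝ) (α := V3) (g ^ N) (k ^ N)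
    {w | w ≠ 0 ∧ bl B w w = 0 ∧ Pr B κ p m w} {w | w ≠ 0 ∧ bl B w w = 0 ∧ Pr B κ q n w} ?_ ?_ ?_ ?_ ?_ 1 1
    one_pos one_pos
  · rw [pow_one, pow_one] at hfr
    exact hfr
  · refine ⟨p, h.ne.1, h.pp, ?_⟩
    unfold Pr
    rw [h.pp, abs_zero, min_eq_left (abs_nonneg _), mul_zero]
    exact le_max_left _ _
  · refine ⟨q, h'.ne.1, h'.pp, ?_⟩
    unfold Pr
    rw [h'.pp, abs_zero, min_eq_left (abs_nonneg _), mul_zero]
    exact le_max_left _ _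
  · rw [Set.disjoint_left]
    rintro w ⟨w0, w1, w2⟩ ⟨-, -, w3⟩
    exact hd w w0 w1 w2 w3
  · rintro j hj w ⟨w0, w1, w2⟩
    rw [hsm]
    exact ⟨hne _ w w0, hiso g hg j w w1, push hs g hg h hl hκ hNl (fun hc => hd w w0 w1 hc w2) hj⟩
  · rintro j hj w ⟨w0, w1, w2⟩
    rw [hsm]
    exact ⟨hne _ w w0, hiso k hk j w w1, push hs k hk h' hl' hκ hNl' (hd w w0 w1 w2) hj⟩

end Pool.Agent.Lib.MP_9dbb0e_al.DF
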