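import Pool.Agent.Lib.MP_9dbb0e_al.D.MRs

/-!
# JOB KRs: the kernel of the exponent of the letter `none`

`rsO T : FreeGroup (ℤ × T) →* FreeGroup (Option T)`, `(n, t) ↦ none ^ n * some t * none ^ (-n)`.

PROOFS. (`open FreeGroup` makes `map_mul` ambiguous: write `_root_.map_mul`.) By `rs_inj`, `rs_range` (MRs.lean) for `I = Option T`, `x = none`, and the equivalence `T ≃ {s : Option T // s ≠ none}` (`t ↦ ⟨some t, _⟩`; `Equiv.ofBijective` or explicit):
`rsO = (rs none).comp (FreeGroup.freeGroupCongr ((Equiv.refl ℤ).prodCongr e))` by `FreeGroup.ext_hom`.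
-/

set_option autoImplicit false

namespace Pool.Agent.Lib.MP_9dbb0e_al.DF

open FreeGroup

variable (T : Type) [DecidableEq T]

/-- the free basis of the kernel of the exponent of `none` -/
def rsO : FreeGroup (ℤ × T) →* FreeGroup (Option T) :=
  FreeGroup.lift fun p => of none ^ p.1 * of (some p.2) * of none ^ (-p.1)

private theorem KRs_e : ∃ e : ℤ × T ≃ ℤ × {s : Option T // s ≠ none},
    ∀ p, (e p).1 = p.1 ∧ (e p).2.1 = some p.2 := by
  have hb : Function.Bijective (fun t : T => (⟨some t, by simp⟩ : {s : Option T // s ≠ none})) := by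
    constructor
    · intro a b hab
      have h1 := congrArg (fun s : {s : Option T // s ≠ none} => s.1) hab
      exact Option.some_injective _ h1
    · rintro ⟨_ | t, ht⟩
      · exact absurd rfl ht
      · exact ⟨t, rfl⟩
  exact ⟨(Equiv.refl ℤ).prodCongr (Equiv.ofBijective _ hb), fun p => ⟨rfl, rfl⟩⟩

private theorem KRs_eq (e : ℤ × T ≃ ℤ × {s : Option T // s ≠ none})
    (he : ∀ p, (e p).1 = p.1 ∧ (e p).2.1 = some p.2) (w : FreeGroup (ℤ × T)) :
    rsO T w = rs none (FreeGroup.freeGroupCongr e w) := by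
  have h : rsO T = (rs (none : Option T)).comp (FreeGroup.freeGroupCongr e).toMonoidHom := by
    refine FreeGroup.ext_hom _ _ ?_
    intro p
    have h1 : (FreeGroup.freeGroupCongr e).toMonoidHom (of p) = of (e p) := by simp
    rw [MonoidHom.comp_apply, h1]
    unfold rsO rs
    rw [FreeGroup.lift_apply_of, FreeGroup.lift_apply_of, (he p).1, (he p).2]
  exact DFunLike.congr_fun h w

theorem rsO_inj : Function.Injective (rsO T) := by
  obtain ⟨e, he⟩ := KRs_e T
  intro v w hvw
  rw [KRs_eq T e he, KRs_eq T e he] at hvw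
  exact (FreeGroup.freeGroupCongr e).injective (rs_inj _ hvw)

theorem rsO_range (v : FreeGroup (Option T)) : (∃ y, rsO T y = v) ↔ wd none v = 1 := by
  obtain ⟨e, he⟩ := KRs_e T
  rw [← rs_range]
  constructor
  · rintro ⟨y, hy⟩
    exact ⟨FreeGroup.freeGroupCongr e y, by rw [← KRs_eq T e he, hy]⟩
  · rintro ⟨y, hy⟩
    refine ⟨(FreeGroup.freeGroupCongr e).symm y, ?_⟩
    rw [KRs_eq T e he, MulEquiv.apply_symm_apply, hy]

end Pool.Agent.Lib.MP_9dbb0e_al.DF
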