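import Pool.Agent.Lib.MP_106261_lc.Magnus

/-!
# JOB MEv: evaluation of a Magnus series in operators

`Sm s N f k g`: the sum over the words `u` of length `k` with letters in `s` of `g u • N u₁ (N u₂ (.. f))`.
`ev_main`: if `φ (of i) = 1 + N i` (`i ∈ s`), the `N i` raise the order (`Lo`) by `d ≥ 1` and `v` is in the subgroup
generated by the letters in `s`, then `φ v f` is the sum of the `Sm s N f k (mu v dl)`, `k < D`, up to order `e + d * D`.

PROOFS. (`mu w dl` is the Magnus series of `w`; `E_apply`, `mu_of`, `mu_mul`, `Lo.add`, `Lo.sub`, `Lo.mono`, `Lo.Xm` in Magnus.lean.)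
`Sm_add`, `Sm_zero`: induction on `k` (`Finset.sum_add_distrib`, `map_add`, `map_zero`).
`Sm_congr`: induction on `k`, generalizing `g g'`.
`Sm_lo`: induction on `k` (a sum of elements of `Lo e` is in `Lo e`: `Finset.sum_induction` or directly `Finset.sum_apply`, `Finset.sum_eq_zero`);
 `e + d * (k + 1) = e + d * k + d`.
`Sm_Xm`: `Sm s N f (k + 1) (Xm i g) = ∑ j ∈ s, N j (Sm s N f k (fun u => Xm i g (j :: u)))`, and `Xm i g (j :: u) = if j = i then g u else 0`:
 `Finset.sum_eq_single i`, `Sm_zero`.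
`Lo_of_N`: let `h + N i h ∈ Lo e`. Show `Lo m h` for all `m ≤ e` by induction on `m` (`Lo 0` is trivial): if `Lo m h`, then
 `h = (h + N i h) - N i h`, `Lo (m + d) (N i h)`, so `Lo (min e (m + d)) h`, `m + 1 ≤ min e (m + d)`.
`phi_lo`: induction over `v ∈ Subgroup.closure (of '' s)` (`Subgroup.closure_induction_left` or
 `Subgroup.closure_induction''`; or prove that `{v | ∀ e f, Lo e f ↔ Lo e (φ v f)}` is a subgroup containing `of '' s`:
 `φ (of i) f = f + N i f`; `←` is `Lo_of_N`).
`ev_main`: case `D = 0`: `phi_lo`. `D = D' + 1`: put `E g = ∑ k ∈ Finset.range D, Sm s N f k g`.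
 (1) `E dl = f`: `dl [] = 1`, `dl (i :: u) = 0` (`Sm_zero` for the terms `k + 1`, `Finset.sum_range_succ'`).
 (2) for `i ∈ s`: `E (fun u => g u + Xm i g u) - (E g + N i (E g)) = - N i (Sm s N f D' g)` is in `Lo (e + d * D)`:
 `E (Xm i g) = ∑ k < D', N i (Sm s N f k g)` by `Sm_Xm` (`Sm s N f 0 (Xm i g) = 0`), and `E g = ∑ k < D' .. + Sm s N f D' g`.
 (3) The set of the `v` with the claim is closed under `v ↦ of i * v` and `v ↦ (of i)⁻¹ * v` (`i ∈ s`):
 first: `φ (of i * v) f = φ v f + N i (φ v f)` and `mu (of i * v) dl u = mu v dl u + Xm i (mu v dl) u` (`mu_mul`, `mu_of`); use (2) for `g = mu v dl` and that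
 `A ∈ Lo m` implies `A + N i A ∈ Lo m`. Second: with `v' = (of i)⁻¹ * v` and `A = φ v' f - E (mu v' dl)`: `A + N i A ∈ Lo m` by (2) and the claim for
 `v = of i * v'`; so `A ∈ Lo m` by `Lo_of_N`. Then `Subgroup.closure_induction_left`.
-/

set_option autoImplicit false

namespace Pool.Agent.Lib.MP_9dbb0e_al.DF

open Pool.Agent.Lib.MP_106261_lc.Magnus FreeGroup

variable {ι I : Type} [DecidableEq ι] [DecidableEq I]

/-- the sum over the words of length `k` with letters in `s` -/
def Sm (s : Finset ι) (N : ι → (PS I →ₗ[ℤ] PS I)) (f : PS I) : ℕ → PS ι → PS I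
  | 0, g => g [] • f
  | k + 1, g => ∑ i ∈ s, N i (Sm s N f k (fun u => g (i :: u)))

variable (s : Finset ι) (N : ι → (PS I →ₗ[ℤ] PS I)) (f : PS I)

theorem Sm_add (k : ℕ) (g g' : PS ι) : Sm s N f k (g + g') = Sm s N f k g + Sm s N f k g' := by
  induction k generalizing g g' with
  | zero =>
    show (g + g') [] • f = g [] • f + g' [] • f
    rw [Pi.add_apply, add_smul]
  | succ k ih =>
    show ∑ i ∈ s, N i (Sm s N f k (fun u => (g + g') (i :: u))) = _
    have h1 : ∀ i, (fun u : List ι => (g + g') (i :: u)) = (fun u => g (i :: u)) + fun u => g' (i :: u) := fun i => rfl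
    simp only [h1, ih]
    simp only [_root_.map_add]
    exact Finset.sum_add_distrib

theorem Sm_zero (k : ℕ) : Sm s N f k (0 : PS ι) = 0 := by
  have h := Sm_add s N f k 0 0
  rw [add_zero] at h
  exact left_eq_add.1 h

theorem Sm_congr (k : ℕ) (g g' : PS ι)
    (h : ∀ u : List ι, u.length = k → (∀ x ∈ u, x ∈ s) → g u = g' u) :
    Sm s N f k g = Sm s N f k g' := by
  induction k generalizing g g' with
  | zero =>
    show g [] • f = g' [] • f
    rw [h [] rfl (fun x hx => absurd hx (List.not_mem_nil))]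
  | succ k ih =>
    show ∑ i ∈ s, N i (Sm s N f k (fun u => g (i :: u))) = ∑ i ∈ s, N i (Sm s N f k (fun u => g' (i :: u)))
    refine Finset.sum_congr rfl fun i hi => ?_
    rw [ih (fun u => g (i :: u)) (fun u => g' (i :: u)) fun u hu hu' => h (i :: u) (by rw [List.length_cons, hu]) fun x hx => by
      rcases List.mem_cons.1 hx with hx | hx
      · rw [hx]
        exact hi
      · exact hu' x hx]

private theorem MEv_lo_sum {α : Type} (t : Finset α) (F : α → PS I) {e : ℕ} (h : ∀ i ∈ t, Lo e (F i)) :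
    Lo e (∑ i ∈ t, F i) := by
  intro u hu
  rw [Finset.sum_apply]
  exact Finset.sum_eq_zero fun i hi => h i hi u hu

theorem Sm_lo {d e : ℕ} (hN : ∀ i ∈ s, ∀ e f, Lo e f → Lo (e + d) (N i f)) (hf : Lo e f) (k : ℕ)
    (g : PS ι) : Lo (e + d * k) (Sm s N f k g) := by
  induction k generalizing g with
  | zero =>
    intro u hu
    show (g [] • f) u = 0
    rw [Pi.smul_apply, hf u (by simpa using hu), smul_zero]
  | succ k ih =>
    refine MEv_lo_sum s _ fun i hi => ?_
    have h := hN i hi _ _ (ih (fun u => g (i :: u)))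
    rwa [show e + d * k + d = e + d * (k + 1) by ring] at h

theorem Sm_Xm {i : ι} (hi : i ∈ s) (k : ℕ) (g : PS ι) :
    Sm s N f (k + 1) (Xm i g) = N i (Sm s N f k g) := by
  show ∑ j ∈ s, N j (Sm s N f k (fun u => Xm i g (j :: u))) = _
  rw [Finset.sum_eq_single i]
  · have h : (fun u : List ι => Xm i g (i :: u)) = g := by
      funext u
      show (if i = i then g u else 0) = g u
      rw [if_pos rfl]
    rw [h]
  · intro j _ hj
    have h : (fun u : List ι => Xm i g (j :: u)) = 0 := by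
      funext u
      show (if j = i then g u else 0) = 0
      rw [if_neg hj]
    rw [h, Sm_zero, _root_.map_zero]
  · intro h
    exact absurd hi h

theorem Lo_of_N {N : PS I →ₗ[ℤ] PS I} {d : ℕ} (hd : 1 ≤ d)
    (hN : ∀ e f, Lo e f → Lo (e + d) (N f)) {e : ℕ} {h : PS I} (hh : Lo e (h + N h)) : Lo e h := by
  have key : ∀ m, m ≤ e → Lo m h := by
    intro m
    induction m with
    | zero => intro _ u hu; exact absurd hu (Nat.not_lt_zero _)
    | succ m ih =>
      intro hm
      have h1 := hN m h (ih (by omega))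
      have h2 : Lo (m + 1) (h + N h) := hh.mono hm
      have h3 : Lo (m + 1) (N h) := h1.mono (by omega)
      have h4 := h2.sub h3
      rwa [add_sub_cancel_right] at h4
  exact key e le_rfl

private theorem MEv_phi (φ : FreeGroup ι →* (PS I ≃ₗ[ℤ] PS I)) (v w : FreeGroup ι) (f : PS I) :
    φ (v * w) f = φ v (φ w f) := by
  rw [_root_.map_mul]
  rfl

private theorem MEv_inv (φ : FreeGroup ι →* (PS I ≃ₗ[ℤ] PS I)) (v : FreeGroup ι) (f : PS I) :
    φ v (φ v⁻¹ f) = f := by
  rw [← MEv_phi, mul_inv_cancel, _root_.map_one]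
  rfl

theorem phi_lo (φ : FreeGroup ι →* (PS I ≃ₗ[ℤ] PS I)) (hφ : ∀ i ∈ s, ∀ f, φ (of i) f = f + N i f)
    {d : ℕ} (hd : 1 ≤ d) (hN : ∀ i ∈ s, ∀ e f, Lo e f → Lo (e + d) (N i f)) (v : FreeGroup ι)
    (hv : v ∈ Subgroup.closure (of '' (s : Set ι))) {e : ℕ} {f : PS I} (hf : Lo e f) :
    Lo e (φ v f) := by
  have key : ∀ v ∈ Subgroup.closure (of '' (s : Set ι)), ∀ (e : ℕ) (f : PS I), Lo e f ↔ Lo e (φ v f) := by
    intro v hv
    refine Subgroup.closure_induction (p := fun v _ => ∀ (e : ℕ) (f : PS I), Lo e f ↔ Lo e (φ v f)) ?_ ?_ ?_ ?_ hv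
    · rintro _ ⟨i, hi, rfl⟩ e f
      rw [hφ i hi]
      constructor
      · intro h
        exact h.add ((hN i hi e f h).mono (Nat.le_add_right _ _))
      · exact Lo_of_N hd (hN i hi)
    · intro e f
      rw [_root_.map_one]
      exact Iff.rfl
    · intro x y _ _ hx hy e f
      rw [MEv_phi]
      exact (hy e f).trans (hx e _)
    · intro x _ hx e f
      have h := hx e (φ x⁻¹ f)
      rw [MEv_inv] at h
      exact h.symm
  exact (key v hv e f).1 hf

private theorem MEv_dl_cons (i : ι) (u : List ι) : (dl : PS ι) (i :: u) = 0 := rfl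

private theorem MEv_dl_nil : (dl : PS ι) [] = 1 := rfl

private theorem MEv_E_dl (D : ℕ) (hD : 1 ≤ D) : ∑ k ∈ Finset.range D, Sm s N f k dl = f := by
  obtain ⟨D', rfl⟩ := Nat.exists_eq_add_of_le' hD
  rw [Finset.sum_range_succ', Finset.sum_eq_zero, zero_add]
  · show (dl : PS ι) [] • f = f
    rw [MEv_dl_nil, one_smul]
  · intro k _
    show ∑ i ∈ s, N i (Sm s N f k (fun u => (dl : PS ι) (i :: u))) = 0
    refine Finset.sum_eq_zero fun i _ => ?_
    have h : (fun u : List ι => (dl : PS ι) (i :: u)) = 0 := funext fun u => MEv_dl_cons i u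
    rw [h, Sm_zero, _root_.map_zero]

private theorem MEv_step {i : ι} (hi : i ∈ s) (D' : ℕ) (g : PS ι) :
    (∑ k ∈ Finset.range (D' + 1), Sm s N f k (fun u => g u + Xm i g u)) -
      (∑ k ∈ Finset.range (D' + 1), Sm s N f k g + N i (∑ k ∈ Finset.range (D' + 1), Sm s N f k g)) =
      - N i (Sm s N f D' g) := by
  have h1 : (fun u => g u + Xm i g u) = g + Xm i g := rfl
  rw [h1]
  have h2 : ∑ k ∈ Finset.range (D' + 1), Sm s N f k (g + Xm i g) =
      ∑ k ∈ Finset.range (D' + 1), Sm s N f k g + ∑ k ∈ Finset.range (D' + 1), Sm s N f k (Xm i g) := by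
    rw [← Finset.sum_add_distrib]
    exact Finset.sum_congr rfl fun k _ => Sm_add s N f k g (Xm i g)
  have h3 : ∑ k ∈ Finset.range (D' + 1), Sm s N f k (Xm i g) = N i (∑ k ∈ Finset.range D', Sm s N f k g) := by
    rw [Finset.sum_range_succ', _root_.map_sum]
    have h4 : Sm s N f 0 (Xm i g) = 0 := by
      show Xm i g [] • f = 0
      show (0 : ℤ) • f = 0
      rw [zero_smul]
    rw [h4, add_zero]
    exact Finset.sum_congr rfl fun k _ => Sm_Xm s N f hi k g
  have h5 : N i (∑ k ∈ Finset.range (D' + 1), Sm s N f k g) =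
      N i (∑ k ∈ Finset.range D', Sm s N f k g) + N i (Sm s N f D' g) := by
    rw [Finset.sum_range_succ, _root_.map_add]
  rw [h2, h3, h5]
  abel

theorem ev_main (φ : FreeGroup ι →* (PS I ≃ₗ[ℤ] PS I)) (hφ : ∀ i ∈ s, ∀ f, φ (of i) f = f + N i f)
    {d : ℕ} (hd : 1 ≤ d) (hN : ∀ i ∈ s, ∀ e f, Lo e f → Lo (e + d) (N i f)) (v : FreeGroup ι)
    (hv : v ∈ Subgroup.closure (of '' (s : Set ι))) {e : ℕ} (hf : Lo e f) (D : ℕ) :
    Lo (e + d * D) (φ v f - ∑ k ∈ Finset.range D, Sm s N f k (mu v dl)) := by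
  rcases Nat.eq_zero_or_pos D with hD | hD
  · subst hD
    rw [Finset.range_zero, Finset.sum_empty, sub_zero, mul_zero, add_zero]
    exact phi_lo s N φ hφ hd hN v hv hf
  · obtain ⟨D', rfl⟩ := Nat.exists_eq_add_of_le' (show 1 ≤ D from hD)
    have hst : ∀ i ∈ s, ∀ g : PS ι, Lo (e + d * (D' + 1))
        ((∑ k ∈ Finset.range (D' + 1), Sm s N f k (fun u => g u + Xm i g u)) -
          (∑ k ∈ Finset.range (D' + 1), Sm s N f k g + N i (∑ k ∈ Finset.range (D' + 1), Sm s N f k g))) := by
      intro i hi g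
      rw [MEv_step s N f hi D' g]
      have h1 := hN i hi _ _ (Sm_lo s N f hN hf D' g)
      rw [show e + d * D' + d = e + d * (D' + 1) by ring] at h1
      exact h1.neg
    have hup : ∀ i ∈ s, ∀ A : PS I, Lo (e + d * (D' + 1)) A → Lo (e + d * (D' + 1)) (A + N i A) :=
      fun i hi A hA => hA.add ((hN i hi _ _ hA).mono (Nat.le_add_right _ _))
    have hmu : ∀ (i : ι) (w : FreeGroup ι), mu (of i * w) (dl : PS ι) = fun u => mu w dl u + Xm i (mu w dl) u := by
      intro i w
      funext u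
      rw [mu_mul, mu_of]
    refine Subgroup.closure_induction_left (p := fun v _ => Lo (e + d * (D' + 1))
      (φ v f - ∑ k ∈ Finset.range (D' + 1), Sm s N f k (mu v dl))) ?_ ?_ ?_ hv
    · rw [mu_one, MEv_E_dl s N f (D' + 1) (by omega), _root_.map_one]
      show Lo _ (f - f)
      rw [sub_self]
      intro u _
      rfl
    · rintro _ ⟨i, hi, rfl⟩ w _ hw
      have hi' : i ∈ s := hi
      rw [MEv_phi, hφ i hi', hmu]
      have h1 := (hup i hi' _ hw).sub (hst i hi' (mu w dl))
      have h2 : (φ w f - ∑ k ∈ Finset.range (D' + 1), Sm s N f k (mu w dl) +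
            N i (φ w f - ∑ k ∈ Finset.range (D' + 1), Sm s N f k (mu w dl))) -
          ((∑ k ∈ Finset.range (D' + 1), Sm s N f k (fun u => mu w dl u + Xm i (mu w dl) u)) -
            (∑ k ∈ Finset.range (D' + 1), Sm s N f k (mu w dl) +
              N i (∑ k ∈ Finset.range (D' + 1), Sm s N f k (mu w dl)))) =
          φ w f + N i (φ w f) -
            ∑ k ∈ Finset.range (D' + 1), Sm s N f k (fun u => mu w dl u + Xm i (mu w dl) u) := by
        rw [_root_.map_sub]
        abel
      rw [h2] at h1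
      exact h1
    · rintro _ ⟨i, hi, rfl⟩ w _ hw
      have hi' : i ∈ s := hi
      obtain ⟨w', hw'⟩ : ∃ w', w' = (of i)⁻¹ * w := ⟨_, rfl⟩
      have hww : w = of i * w' := by rw [hw', mul_inv_cancel_left]
      rw [← hw']
      rw [hww, MEv_phi, hφ i hi', hmu] at hw
      refine Lo_of_N hd (hN i hi') ?_
      have h1 := hw.add (hst i hi' (mu w' dl))
      have h2 : φ w' f + N i (φ w' f) -
            ∑ k ∈ Finset.range (D' + 1), Sm s N f k (fun u => mu w' dl u + Xm i (mu w' dl) u) +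
          ((∑ k ∈ Finset.range (D' + 1), Sm s N f k (fun u => mu w' dl u + Xm i (mu w' dl) u)) -
            (∑ k ∈ Finset.range (D' + 1), Sm s N f k (mu w' dl) +
              N i (∑ k ∈ Finset.range (D' + 1), Sm s N f k (mu w' dl)))) =
          (φ w' f - ∑ k ∈ Finset.range (D' + 1), Sm s N f k (mu w' dl)) +
            N i (φ w' f - ∑ k ∈ Finset.range (D' + 1), Sm s N f k (mu w' dl)) := by
        rw [_root_.map_sub]
        abel
      rw [h2] at h1
      exact h1

/-- every element uses finitely many letters -/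
theorem exists_supp (v : FreeGroup ι) (t : Finset ι) :
    ∃ s : Finset ι, t ⊆ s ∧ v ∈ Subgroup.closure (of '' (s : Set ι)) := by
  have hmono : ∀ {s s' : Finset ι}, s ⊆ s' → Subgroup.closure (of '' (s : Set ι)) ≤
      Subgroup.closure (of '' (s' : Set ι)) := fun h =>
    Subgroup.closure_mono (Set.image_mono (Finset.coe_subset.2 h))
  have key : ∃ s : Finset ι, v ∈ Subgroup.closure (of '' (s : Set ι)) := by
    refine FreeGroup.induction_on (C := fun v => ∃ s : Finset ι, v ∈ Subgroup.closure (of '' (s : Set ι))) v ?_ ?_ ?_ ?_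
    · exact ⟨∅, Subgroup.one_mem _⟩
    · intro i
      exact ⟨{i}, Subgroup.subset_closure ⟨i, by simp, rfl⟩⟩
    · rintro i ⟨s, hs⟩
      exact ⟨s, Subgroup.inv_mem _ hs⟩
    · rintro x y ⟨s, hs⟩ ⟨s', hs'⟩
      exact ⟨s ∪ s', Subgroup.mul_mem _ (hmono Finset.subset_union_left hs) (hmono Finset.subset_union_right hs')⟩
  obtain ⟨s, hs⟩ := key
  exact ⟨t ∪ s, Finset.subset_union_left, hmono Finset.subset_union_right hs⟩

end Pool.Agent.Lib.MP_9dbb0e_al.DF
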