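import Pool.Agent.Lib.MP_9dbb0e_al.D.MEv

/-!
# JOB MLc: leading coefficients

PROOFS. `Xl i : PS I →ₗ[ℤ] PS I` is the multiplication by the variable.
`Sm_Xl`: induction on `m` (generalizing `g`): `Sm s Xl f (k + 1) g = ∑ i ∈ s, Xl i (Sm .. (g (i :: ·)))`, evaluated at `j :: (m ++ u)`: only the term `i = j` (`Xm`), `Finset.sum_eq_single`.
`mu_nil`: `(mu w f) [] = f []`: `S_one_all w 0 f`: `Lo 1 (mu w f - f)` at `[]`.
`S_iff`, `→`: `h 0 dl` (`Lo 0` is trivial) at `u`, `dl u = 0`. `←`: let `f ∈ Lo e`; `exists_supp w ∅` gives `s`; `ev_main s Xl f mu` with `d := 1`, `D := d`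
 (`hN`: `Lo.Xm`) gives `Lo (e + 1 * d) (mu w f - ∑ k < d, Sm s Xl f k (mu w dl))`; in the sum the terms `1 ≤ k` are `0` (`Sm_congr` with `g' = 0`, `Sm_zero`), the term `0` is `(mu w dl []) • f = f` (`Finset.sum_range_succ'`; `d = d' + 1`).
`exists_lead`: `mu_dl_ne` gives `u ≠ []` with `mu w dl u ≠ 0`; take one of minimal length (`Nat.find` or `exists_minimal_length`: well-founded minimum of `{n | ∃ u ≠ [], u.length = n ∧ mu w dl u ≠ 0}`), `d = u.length`, `S_iff`.
`lead_app`: `ev_main` with `d := 1`, `D := d + 1`, `s` containing the letters of `w` and of `m` (`exists_supp w m.toFinset`): `mu w f - (f + Sm s Xl f d (mu w dl)) ∈ Lo (e + d + 1)`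
 (the terms `0 < k < d` vanish by `S_iff` and `Sm_congr`), evaluate at `m ++ u` (length `d + e`): `Sm_Xl`.
`lc_mul`, `lc_conj`: `ph_mul`, `ph_conj` for the index `(0, dl, u)`: `ph d (0, dl, u) w = (mu w dl - dl) u = mu w dl u` since `u ≠ []`.
-/

set_option autoImplicit false

namespace Pool.Agent.Lib.MP_9dbb0e_al.DF

open Pool.Agent.Lib.MP_106261_lc.Magnus FreeGroup

variable {I : Type} [DecidableEq I]

/-- multiplication by a variable, as a linear map -/
def Xl (i : I) : PS I →ₗ[ℤ] PS I where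
  toFun := Xm i
  map_add' f g := funext fun u => Xm_add i f g u
  map_smul' c f := funext fun u => Xm_smul i c f u

theorem Xl_apply (i : I) (f : PS I) : Xl i f = Xm i f := rfl

theorem Sm_Xl (s : Finset I) (f : PS I) (m : List I) (hm : ∀ x ∈ m, x ∈ s) (g : PS I) (u : List I) :
    Sm s Xl f m.length g (m ++ u) = g m * f u := by
  induction m generalizing g with
  | nil =>
    show (g [] • f) u = g [] * f u
    rw [Pi.smul_apply, smul_eq_mul]
  | cons j m ih =>
    have hj : j ∈ s := hm j (by simp)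
    have ih' := ih (fun x hx => hm x (List.mem_cons_of_mem _ hx)) (fun v => g (j :: v))
    show (∑ i ∈ s, Xl i (Sm s Xl f m.length (fun v => g (i :: v)))) (j :: (m ++ u)) = _
    rw [Finset.sum_apply]
    have h1 : ∀ i ∈ s, Xl i (Sm s Xl f m.length (fun v => g (i :: v))) (j :: (m ++ u)) =
        if j = i then Sm s Xl f m.length (fun v => g (i :: v)) (m ++ u) else 0 :=
      fun i _ => rfl
    rw [Finset.sum_congr rfl h1, Finset.sum_ite_eq s j, if_pos hj]
    exact ih'

theorem mu_nil (w : FreeGroup I) (f : PS I) : mu w f [] = f [] := by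
  have h := S_one_all w 0 f (fun v hv => absurd hv (Nat.not_lt_zero _)) [] (by simp)
  rw [Pi.sub_apply] at h
  omega

private theorem MLc_phi (s : Finset I) (i : I) (_ : i ∈ s) (f : PS I) :
    mu (of i) f = f + Xl i f :=
  funext fun u => mu_of i f u

private theorem MLc_N (s : Finset I) (i : I) (_ : i ∈ s) (e : ℕ) (f : PS I) (hf : Lo e f) :
    Lo (e + 1) (Xl i f) := hf.Xm i

private theorem MLc_dl {u : List I} (hu : u ≠ []) : (dl : PS I) u = 0 := by
  unfold dl
  rw [if_neg hu]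

private theorem MLc_dl0 (d : ℕ) : Lo 0 (dl : PS I) := fun v hv => absurd hv (Nat.not_lt_zero _)

private theorem MLc_sum {d : ℕ} (hd : 1 ≤ d) (w : FreeGroup I)
    (hz : ∀ u : List I, u ≠ [] → u.length < d → mu w dl u = 0) (s : Finset I) (f : PS I) :
    ∑ k ∈ Finset.range d, Sm s Xl f k (mu w dl) = f := by
  obtain ⟨d', rfl⟩ : ∃ d', d = d' + 1 := ⟨d - 1, by omega⟩
  rw [Finset.sum_range_succ']
  have h0 : Sm s Xl f 0 (mu w dl) = f := by
    show (mu w dl []) • f = f
    rw [mu_nil]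
    have : (dl : PS I) [] = 1 := by
      unfold dl
      rw [if_pos rfl]
    rw [this, one_smul]
  have h1 : ∀ k ∈ Finset.range d', Sm s Xl f (k + 1) (mu w dl) = 0 := by
    intro k hk
    have hk' : k < d' := Finset.mem_range.1 hk
    have h2 := Sm_congr s Xl f (k + 1) (mu w dl) 0 (fun u hu _ => by
      rw [hz u (fun h => by rw [h] at hu; simp at hu) (by omega)]
      rfl)
    rw [h2, Sm_zero]
  rw [Finset.sum_eq_zero h1, h0, zero_add]

theorem S_iff {d : ℕ} (hd : 1 ≤ d) (w : FreeGroup I) :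
    S d w ↔ ∀ u : List I, u ≠ [] → u.length < d → mu w dl u = 0 := by
  constructor
  · intro h u hu hl
    have h1 := h 0 dl (MLc_dl0 d) u (by omega)
    rw [Pi.sub_apply, MLc_dl hu, sub_zero] at h1
    exact h1
  · intro hz e f hf
    obtain ⟨s, -, hs⟩ := exists_supp w (∅ : Finset I)
    have h := ev_main s Xl f mu (MLc_phi s) (le_refl 1) (MLc_N s) w hs hf d
    rw [MLc_sum hd w hz s f, one_mul] at h
    exact h

theorem exists_lead {w : FreeGroup I} (hw : w ≠ 1) :
    ∃ d, 1 ≤ d ∧ S d w ∧ ∃ u : List I, u.length = d ∧ mu w dl u ≠ 0 := by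
  classical
  have hex : ∃ n : ℕ, ∃ u : List I, u ≠ [] ∧ u.length = n ∧ mu w dl u ≠ 0 := by
    obtain ⟨u, hu, h⟩ := mu_dl_ne hw
    exact ⟨u.length, u, hu, rfl, h⟩
  obtain ⟨d, ⟨u, hu, hl, hne⟩, hmin⟩ : ∃ d : ℕ, (∃ u : List I, u ≠ [] ∧ u.length = d ∧
      mu w dl u ≠ 0) ∧ ∀ m < d, ¬ ∃ u : List I, u ≠ [] ∧ u.length = m ∧ mu w dl u ≠ 0 :=
    ⟨Nat.find hex, Nat.find_spec hex, fun m hm => Nat.find_min hex hm⟩
  have hd : 1 ≤ d := by
    rw [← hl]
    exact List.length_pos_iff.2 hu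
  refine ⟨d, hd, (S_iff hd w).2 fun v hv hlv => ?_, u, hl, hne⟩
  by_contra hc
  exact hmin v.length hlv ⟨v, hv, rfl, hc⟩

theorem lead_app {d e : ℕ} (hd : 1 ≤ d) {w : FreeGroup I} (hw : S d w) {f : PS I} (hf : Lo e f)
    (m u : List I) (hm : m.length = d) (hu : u.length = e) :
    mu w f (m ++ u) - f (m ++ u) = mu w dl m * f u := by
  obtain ⟨s, hms, hs⟩ := exists_supp w m.toFinset
  have h := ev_main s Xl f mu (MLc_phi s) (le_refl 1) (MLc_N s) w hs hf (d + 1)
  have h1 := h (m ++ u) (by rw [List.length_append]; omega)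
  rw [Finset.sum_range_succ, MLc_sum hd w ((S_iff hd w).1 hw) s f, Pi.sub_apply, Pi.add_apply] at h1
  have h2 := Sm_Xl s f m (fun x hx => hms (List.mem_toFinset.2 hx)) (mu w dl) u
  rw [hm] at h2
  rw [h2] at h1
  linarith

private theorem MLc_ph {d : ℕ} (hd : 1 ≤ d) (w : FreeGroup I) (u : List I) (hu : u.length = d) :
    ph d (0, (dl : PS I), u) w = mu w dl u := by
  have hne : u ≠ [] := fun h => by rw [h] at hu; simp at hu; omega
  unfold ph
  rw [if_pos ⟨MLc_dl0 d, by rw [zero_add]; exact hu⟩]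
  show ((mu w dl - dl : PS I)) u = mu w dl u
  rw [Pi.sub_apply, MLc_dl hne, sub_zero]

theorem lc_mul {d : ℕ} (hd : 1 ≤ d) {w w' : FreeGroup I} (h : S d w) (h' : S d w') (u : List I)
    (hu : u.length = d) : mu (w * w') dl u = mu w dl u + mu w' dl u := by
  have h1 := ph_mul hd (0, (dl : PS I), u) h h'
  rw [MLc_ph hd _ u hu, MLc_ph hd _ u hu, MLc_ph hd _ u hu] at h1
  exact h1

theorem lc_conj {d : ℕ} (hd : 1 ≤ d) {w : FreeGroup I} (h : S d w) (g : FreeGroup I) (u : List I)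
    (hu : u.length = d) : mu (g * w * g⁻¹) dl u = mu w dl u := by
  have h1 := ph_conj hd (0, (dl : PS I), u) h g
  rw [MLc_ph hd _ u hu, MLc_ph hd _ u hu] at h1
  exact h1

end Pool.Agent.Lib.MP_9dbb0e_al.DF
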