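import Pool.Agent.Lib.MP_9dbb0e_al.D.MPerm
import Pool.Agent.Lib.MP_9dbb0e_al.D.MInd

/-!
# JOB MML: the orbit of an element under a free action is a free family

`J` is a linearly ordered abelian group (`ℤ` or `ℤ ×ₗ ℤ`) acting freely on the letters.

PROOF. `exists_lead`: `d ≥ 1`, `S d w`, `u₀` of length `d` with `W u₀ ≠ 0`, where `W u = mu w dl u`. By `lc_perm`, for every `j`: `S d (ψ j w)` and
`mu (ψ j w) dl (u.map (π j)) = W u` for `u` of length `d`; so for `v` of length `d`: `mu (ψ j w) dl v = W (v.map (π (-j)))` (`u = v.map (π (-j))`, `π j * π (-j) = π 0 = 1`).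
`free_of_indep` for `x j = ψ j w`. Let `∑ j ∈ s, W (v.map (π (-j))) * c j = 0` for all `v` of length `d`. Suppose some `c j ≠ 0`, `j ∈ s`; let `j₁` be the maximal one (`Finset.exists_max_image` of the filtered set).
Let `Σ = {t : J | W (u₀.map (π t)) ≠ 0}`: it contains `0` and is finite: `W` vanishes on the words which have a letter outside a finite set `s₀`
(lemma `supp`: `exists_supp w ∅` gives `s₀`, `w ∈ closure (of '' s₀)`; by `Subgroup.closure_induction_left` (or `ev_main s₀ Xl dl mu` with `D = u.length + 1` and `Sm_out` below) `mu w dl u = 0` if `u` has a letter outside `s₀`), and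
`u₀ = a :: _` (`d ≥ 1`), so `π t a ∈ s₀` for `t ∈ Σ`, and `t ↦ π t a` is injective (`π t a = π t' a` gives `π (t - t') a'= a'` with `a' = π t' a`, so `t = t'`): `Set.Finite.of_injOn` / `Set.Finite.subset` of the preimage.
Let `t₁` be the maximum of `Σ`. Take `v = u₀.map (π (t₁ + j₁))`: `v.map (π (-j)) = u₀.map (π (t₁ + j₁ - j))`. In the sum the terms `j > j₁` vanish (`c j = 0`), the terms `j < j₁` vanish (`t₁ + j₁ - j > t₁`), so
`W (u₀.map (π t₁)) * c j₁ = 0`, contradiction.
`supp`, second proof: show by induction over `closure_induction_left` the statement: for all `f` with `f u = 0` whenever `u` has a letter outside `s₀`, the same holds for `mu w f`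
(`mu (of i) f u = f u + Xm i f u`, and for `(of i)⁻¹`: `mu_of_inv`, `Ei i f (j :: u) = f (j :: u) - if j = i then Ei i f u else 0`, induction on `u`).
-/

set_option autoImplicit false

namespace Pool.Agent.Lib.MP_9dbb0e_al.DF

open Pool.Agent.Lib.MP_106261_lc.Magnus FreeGroup

variable {I J : Type} [DecidableEq I] [DecidableEq J]

/-- series supported on the words with letters in `s` -/
def Zs (s : Finset I) (f : PS I) : Prop := ∀ (u : List I) (x : I), x ∈ u → x ∉ s → f u = 0

theorem Zs_of {s : Finset I} {f : PS I} (hf : Zs s f) {i : I} (hi : i ∈ s) :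
    Zs s (mu (FreeGroup.of i) f) := by
  intro u x hx hxs
  rw [mu_of, hf u x hx hxs, zero_add]
  cases u with
  | nil => rfl
  | cons j u =>
    show (if j = i then f u else 0) = 0
    split_ifs with h
    · subst h
      rcases List.mem_cons.1 hx with h1 | h1
      · exact absurd (h1 ▸ hi) hxs
      · exact hf u x h1 hxs
    · rfl

theorem Zs_of_inv {s : Finset I} {f : PS I} (hf : Zs s f) {i : I} (hi : i ∈ s) :
    Zs s (mu (FreeGroup.of i)⁻¹ f) := by
  intro u x hx hxs
  rw [mu_of_inv]
  induction u with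
  | nil => exact absurd hx (List.not_mem_nil)
  | cons j u ih =>
    show f (j :: u) - (if j = i then Ei i f u else 0) = 0
    rw [hf _ x hx hxs, zero_sub, neg_eq_zero]
    split_ifs with h
    · subst h
      rcases List.mem_cons.1 hx with h1 | h1
      · exact absurd (h1 ▸ hi) hxs
      · exact ih h1
    · rfl

theorem Zs_mu (w : FreeGroup I) (s : Finset I)
    (hw : w ∈ Subgroup.closure (FreeGroup.of '' (s : Set I))) :
    (∀ f, Zs s f → Zs s (mu w f)) ∧ ∀ f, Zs s f → Zs s (mu w⁻¹ f) := by
  induction hw using Subgroup.closure_induction with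
  | mem x hx =>
    obtain ⟨i, hi, rfl⟩ := hx
    exact ⟨fun f hf => Zs_of hf hi, fun f hf => Zs_of_inv hf hi⟩
  | one =>
    refine ⟨fun f hf => ?_, fun f hf => ?_⟩
    · rw [mu_one]; exact hf
    · rw [inv_one, mu_one]; exact hf
  | mul x y _ _ hx hy =>
    refine ⟨fun f hf => ?_, fun f hf => ?_⟩
    · rw [mu_mul]; exact hx.1 _ (hy.1 f hf)
    · rw [mul_inv_rev, mu_mul]; exact hy.2 _ (hx.2 f hf)
  | inv x _ hx =>
    refine ⟨hx.2, fun f hf => ?_⟩
    rw [inv_inv]; exact hx.1 f hf

theorem supp (w : FreeGroup I) (s : Finset I) (hw : w ∈ Subgroup.closure (of '' (s : Set I)))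
    (u : List I) (x : I) (hx : x ∈ u) (hxs : x ∉ s) : mu w dl u = 0 := by
  refine (Zs_mu w s hw).1 dl ?_ u x hx hxs
  intro v y hy _
  refine if_neg fun h => ?_
  rw [h] at hy
  exact List.not_mem_nil hy

theorem free_orbit [AddCommGroup J] [LinearOrder J] [IsOrderedAddMonoid J]
    (π : J → Equiv.Perm I) (h0 : π 0 = 1) (hadd : ∀ j j', π (j + j') = π j * π j')
    (hfree : ∀ j i, π j i = i → j = 0) (ψ : J → FreeGroup I →* FreeGroup I)
    (hψ : ∀ j i, ∃ k, ψ j (of i) = k * of (π j i) * k⁻¹) (w : FreeGroup I) (hw : w ≠ 1) :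
    Function.Injective (FreeGroup.lift (fun j => ψ j w) : FreeGroup J →* FreeGroup I) := by
  obtain ⟨d, hd, hS, u₀, hu₀, hne⟩ := exists_lead hw
  have hcan : ∀ j x, π j (π (-j) x) = x := by
    intro j x
    rw [← Equiv.Perm.mul_apply, ← hadd, add_neg_cancel, h0, Equiv.Perm.one_apply]
  have hval : ∀ j (v : List I), v.length = d → mu (ψ j w) dl v = mu w dl (v.map (π (-j))) := by
    intro j v hv
    have h1 := (lc_perm (ψ j) (π j) (π j).injective (hψ j) hd hS).2 (v.map (π (-j)))
      (by rw [List.length_map, hv])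
    rw [← h1, List.map_map]
    have h2 : (π j : I → I) ∘ (π (-j) : I → I) = id := funext fun x => hcan j x
    rw [h2, List.map_id]
  refine free_of_indep (fun j => ψ j w) hd
    (fun j => (lc_perm (ψ j) (π j) (π j).injective (hψ j) hd hS).1) ?_
  intro s c hc j hj
  by_contra hcj
  obtain ⟨j₁, hj₁, hmax⟩ := Finset.exists_max_image (s.filter fun j => c j ≠ 0) id
    ⟨j, Finset.mem_filter.2 ⟨hj, hcj⟩⟩
  rw [Finset.mem_filter] at hj₁
  obtain ⟨s₀, -, hs₀⟩ := exists_supp w ∅
  obtain ⟨a, u₁, rfl⟩ : ∃ a u₁, u₀ = a :: u₁ := by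
    cases u₀ with
    | nil => rw [List.length_nil] at hu₀; omega
    | cons a u₁ => exact ⟨a, u₁, rfl⟩
  have hinj : Function.Injective fun t => π t a := by
    intro t t' h
    have h1 : π t a = π t' a := h
    have h2 : π (-t' + t) a = a := by
      rw [hadd, Equiv.Perm.mul_apply, h1, ← Equiv.Perm.mul_apply, ← hadd, neg_add_cancel, h0,
        Equiv.Perm.one_apply]
    have h3 := hfree _ _ h2
    exact (neg_add_eq_zero.1 h3).symm
  have hfin : {t : J | mu w dl ((a :: u₁).map (π t)) ≠ 0}.Finite := by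
    refine (s₀.finite_toSet.preimage hinj.injOn).subset fun t ht => ?_
    by_contra hts
    refine ht (supp w s₀ hs₀ _ (π t a) ?_ hts)
    rw [List.map_cons]
    exact List.mem_cons_self
  obtain ⟨t₁, ht₁, htmax⟩ := Set.exists_max_image _ id hfin
    ⟨0, by
      show mu w dl ((a :: u₁).map (π 0)) ≠ 0
      rw [h0]
      have h1 : (((1 : Equiv.Perm I) : I → I)) = id := rfl
      rw [h1, List.map_id]
      exact hne⟩
  have hmm : ∀ j, ((a :: u₁).map (π (t₁ + j₁))).map (π (-j)) =
      (a :: u₁).map (π (-j + (t₁ + j₁))) := by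
    intro j
    rw [List.map_map]
    congr 1
    funext x
    rw [hadd (-j)]
    rfl
  have hl : ((a :: u₁).map (π (t₁ + j₁))).length = d := by rw [List.length_map, hu₀]
  have h1 := hc ((a :: u₁).map (π (t₁ + j₁))) hl
  rw [Finset.sum_eq_single j₁] at h1
  · rw [hval _ _ hl, hmm] at h1
    have h2 : -j₁ + (t₁ + j₁) = t₁ := by abel
    rw [h2] at h1
    rcases mul_eq_zero.1 h1 with h3 | h3
    · exact ht₁ h3
    · exact hj₁.2 h3
  · intro j hj hjj
    by_cases hcj : c j = 0
    · rw [hcj, mul_zero]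
    · have h2 : j ≤ j₁ := hmax j (Finset.mem_filter.2 ⟨hj, hcj⟩)
      have h3 : j < j₁ := lt_of_le_of_ne h2 hjj
      rw [hval _ _ hl, hmm]
      have h4 : mu w dl ((a :: u₁).map (π (-j + (t₁ + j₁)))) = 0 := by
        by_contra h5
        have h6 : -j + (t₁ + j₁) ≤ t₁ := htmax _ h5
        have h7 : t₁ < -j + (t₁ + j₁) := by
          have h8 : -j + (t₁ + j₁) = t₁ + (j₁ - j) := by abel
          rw [h8]
          exact lt_add_of_pos_right _ (sub_pos.2 h3)
        exact absurd h6 (not_le.2 h7)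
      rw [h4, zero_mul]
  · intro h
    exact absurd hj₁.1 h

end Pool.Agent.Lib.MP_9dbb0e_al.DF
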