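import Pool.Agent.Lib.MP_9dbb0e_al.D.MLc

/-!
# JOB MPerm: endomorphisms which permute the generators up to conjugation

PROOFS.
`Sm_diff`: induction on `k` (generalizing `g`): `N i (A) - N' i (A') = N i (A - A') + (N i A' - N' i A')`, with `A - A' ∈ Lo (e + k + 1)` and `A' ∈ Lo (e + k)` (`Sm_lo` with `d = 1`).
`Nk_diff`: `ψ(of i) = k * of j * k⁻¹`: `mu (k * of j * k⁻¹) f - f = mu k (Xm j (mu k⁻¹ f))` (`mu_mul`, `mu_of`, `map_add`, `mu_mu_inv`). `h = mu k⁻¹ f`, `h - f ∈ Lo (e + 1)` (`S_one_all`),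
 `Xm j h - Xm j f = Xm j (h - f) ∈ Lo (e + 2)`, `mu k (Xm j h) - Xm j h ∈ Lo (e + 2)` (`S_one_all` and `Lo.Xm`, `h ∈ Lo e` by `Lo.mu`).
`Sm_perm`: as `Sm_Xl`: induction on `u`: at `π j :: ..` only the term `i = j` of the sum survives (`π` injective).
`lc_perm`: `N i := (mu (ψ (of i)) : linear map) - id`, `φ := mu.comp ψ`; `hN` with `d = 1`: `S_one_all`. Let `u` be a word; `exists_supp w u.toFinset` gives `s`.
 `ev_main s N f φ` with `D := d`: the sum is `f` (as in the proof of `S_iff` in MLc.lean: the terms `0 < k < d` vanish by `S_iff`, the term `0` is `f` by `mu_nil`), so `S d (ψ w)`.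
 With `f := dl`, `e := 0`, `D := d + 1`: `mu (ψ w) dl - (dl + Sm s N dl d (mu w dl)) ∈ Lo (d + 1)`. By `Sm_diff` (with `N' i = Xl (π i)`, `Nk_diff`): `Sm s N dl d W - Sm s N' dl d W ∈ Lo (d + 1)`. Evaluate at `u.map π`
 (length `d ≥ 1`): `Sm_perm`.
-/

set_option autoImplicit false

namespace Pool.Agent.Lib.MP_9dbb0e_al.DF

open Pool.Agent.Lib.MP_106261_lc.Magnus FreeGroup

variable {ι I : Type} [DecidableEq ι] [DecidableEq I]

theorem Sm_diff (s : Finset ι) (N N' : ι → (PS I →ₗ[ℤ] PS I))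
    (hN : ∀ i ∈ s, ∀ e f, Lo e f → Lo (e + 1) (N i f))
    (hN' : ∀ i ∈ s, ∀ e f, Lo e f → Lo (e + 1) (N' i f))
    (hd : ∀ i ∈ s, ∀ e f, Lo e f → Lo (e + 2) (N i f - N' i f)) {e : ℕ} {f : PS I} (hf : Lo e f)
    (k : ℕ) (g : PS ι) : Lo (e + k + 1) (Sm s N f k g - Sm s N' f k g) := by
  induction k generalizing g with
  | zero =>
    intro u _
    show (g [] • f - g [] • f) u = 0
    rw [sub_self]
    rfl
  | succ k ih =>
    have h1 : Sm s N f (k + 1) g - Sm s N' f (k + 1) g =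
        ∑ i ∈ s, (N i (Sm s N f k (fun u => g (i :: u)) - Sm s N' f k (fun u => g (i :: u))) +
          (N i (Sm s N' f k (fun u => g (i :: u))) - N' i (Sm s N' f k (fun u => g (i :: u))))) := by
      show ∑ i ∈ s, N i (Sm s N f k (fun u => g (i :: u))) -
        ∑ i ∈ s, N' i (Sm s N' f k (fun u => g (i :: u))) = _
      rw [← Finset.sum_sub_distrib]
      refine Finset.sum_congr rfl fun i _ => ?_
      rw [map_sub]
      abel
    rw [h1]
    intro u hu
    rw [Finset.sum_apply]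
    refine Finset.sum_eq_zero fun i hi => ?_
    have h2 := hN i hi _ _ (ih (fun u => g (i :: u)))
    have h3 := Sm_lo s N' f hN' hf k (fun u => g (i :: u))
    rw [one_mul] at h3
    have h4 := hd i hi _ _ h3
    have h5 : e + k + 1 + 1 = e + (k + 1) + 1 := by omega
    have h6 : e + k + 2 = e + (k + 1) + 1 := by omega
    rw [h5] at h2
    rw [h6] at h4
    exact (h2.add h4) u hu

theorem Nk_diff (k : FreeGroup I) (j : I) {e : ℕ} {f : PS I} (hf : Lo e f) :
    Lo (e + 2) (mu (k * of j * k⁻¹) f - f - Xm j f) := by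
  have h0 : mu (of j) (mu k⁻¹ f) = mu k⁻¹ f + Xm j (mu k⁻¹ f) := funext fun u => mu_of j _ u
  have h1 : mu (k * of j * k⁻¹) f - f - Xm j f =
      (mu k (Xm j (mu k⁻¹ f)) - Xm j (mu k⁻¹ f)) + Xl j (mu k⁻¹ f - f) := by
    rw [mu_mul, mu_mul, h0, _root_.map_add, mu_mu_inv, _root_.map_sub, Xl_apply, Xl_apply]
    abel
  rw [h1]
  refine Lo.add ?_ ?_
  · exact S_one_all k (e + 1) _ ((hf.mu k⁻¹).Xm j)
  · rw [Xl_apply]
    exact (S_one_all k⁻¹ e f hf).Xm j

theorem Sm_perm (s : Finset I) (π : I → I) (hπ : Function.Injective π) (u : List I)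
    (hu : ∀ x ∈ u, x ∈ s) (g : PS I) :
    Sm s (fun i => Xl (π i)) dl u.length g (u.map π) = g u := by
  induction u generalizing g with
  | nil =>
    show g [] • (if ([] : List I) = [] then (1 : ℤ) else 0) = g []
    rw [if_pos rfl, smul_eq_mul, mul_one]
  | cons x u ih =>
    have h1 : Sm s (fun i => Xl (π i)) dl (x :: u).length g ((x :: u).map π) =
        ∑ i ∈ s, (if π x = π i then
          Sm s (fun i => Xl (π i)) dl u.length (fun v => g (i :: v)) (u.map π) else 0) := by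
      show (∑ i ∈ s, Xl (π i) (Sm s (fun i => Xl (π i)) dl u.length (fun v => g (i :: v))))
        (π x :: u.map π) = _
      rw [Finset.sum_apply]
      rfl
    rw [h1, Finset.sum_eq_single x]
    · rw [if_pos rfl]
      exact ih (fun y hy => hu y (List.mem_cons_of_mem _ hy)) _
    · intro i _ hi
      exact if_neg fun h => hi (hπ h).symm
    · intro hx
      exact absurd (hu x List.mem_cons_self) hx

/-- the terms of degree less than `d` of the evaluation of an element of `S d` -/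
theorem sum_low (s : Finset ι) (N : ι → (PS I →ₗ[ℤ] PS I)) (f : PS I) {d : ℕ} (hd : 1 ≤ d)
    {w : FreeGroup ι} (hw : S d w) : ∑ k ∈ Finset.range d, Sm s N f k (mu w dl) = f := by
  obtain ⟨d, rfl⟩ : ∃ d', d = d' + 1 := ⟨d - 1, by omega⟩
  rw [Finset.sum_range_succ', Finset.sum_eq_zero, zero_add]
  · show mu w dl [] • f = f
    rw [mu_nil]
    show (if ([] : List ι) = [] then (1 : ℤ) else 0) • f = f
    rw [if_pos rfl, one_smul]
  · intro k hk
    rw [Finset.mem_range] at hk
    rw [Sm_congr s N f (k + 1) (mu w dl) 0, Sm_zero]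
    intro u hu _
    refine (S_iff hd w).1 hw u ?_ (by omega)
    rintro rfl
    simp at hu

/-- the operator of a generator -/
def NN (ψ : FreeGroup I →* FreeGroup I) (i : I) : PS I →ₗ[ℤ] PS I :=
  (mu (ψ (of i))).toLinearMap - LinearMap.id

theorem lc_perm (ψ : FreeGroup I →* FreeGroup I) (π : I → I) (hπ : Function.Injective π)
    (hψ : ∀ i, ∃ k, ψ (of i) = k * of (π i) * k⁻¹) {d : ℕ} (hd : 1 ≤ d) {w : FreeGroup I}
    (hw : S d w) :
    S d (ψ w) ∧ ∀ u : List I, u.length = d → mu (ψ w) dl (u.map π) = mu w dl u := by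
  have hφ : ∀ s : Finset I, ∀ i ∈ s, ∀ f : PS I, (mu.comp ψ) (of i) f =
      f + NN ψ i f := by
    intro s i _ f
    show mu (ψ (of i)) f = f + (mu (ψ (of i)) f - f)
    abel
  have hN : ∀ s : Finset I, ∀ i ∈ s, ∀ (e : ℕ) (f : PS I), Lo e f →
      Lo (e + 1) (NN ψ i f) := by
    intro s i _ e f hf
    exact S_one_all (ψ (of i)) e f hf
  constructor
  · intro e f hf
    obtain ⟨s, -, hs⟩ := exists_supp w ∅
    have h1 := ev_main s (NN ψ) f (mu.comp ψ)
      (hφ s) le_rfl (hN s) w hs hf d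
    rw [sum_low s _ f hd hw, one_mul] at h1
    exact h1
  · intro u hu
    obtain ⟨s, hus, hs⟩ := exists_supp w u.toFinset
    have h0 : Lo 0 (dl : PS I) := fun v hv => absurd hv (Nat.not_lt_zero _)
    have h1 := ev_main s (NN ψ) dl (mu.comp ψ)
      (hφ s) le_rfl (hN s) w hs h0 (d + 1)
    rw [Finset.sum_range_succ, sum_low s _ dl hd hw] at h1
    have h2 := Sm_diff s (NN ψ)
      (fun i => Xl (π i)) (hN s) (fun i _ e f hf => hf.Xm (π i)) (fun i _ e f hf => by
        obtain ⟨k, hk⟩ := hψ i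
        have := Nk_diff k (π i) hf
        rw [← hk] at this
        exact this) h0 d (mu w dl)
    have hl : (u.map π).length = d := by rw [List.length_map, hu]
    have h3 := h1 (u.map π) (by omega)
    have h4 := h2 (u.map π) (by omega)
    have h5 := Sm_perm s π hπ u (fun x hx => hus (List.mem_toFinset.2 hx)) (mu w dl)
    rw [hu] at h5
    have h6 : (dl : PS I) (u.map π) = 0 := by
      refine if_neg fun h => ?_
      rw [h] at hl
      simp at hl
      omega
    rw [Pi.sub_apply, Pi.add_apply, h6, zero_add] at h3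
    rw [Pi.sub_apply, h5] at h4
    have h7 : (mu.comp ψ) w dl (u.map π) = mu (ψ w) dl (u.map π) := rfl
    rw [h7] at h3
    exact (sub_eq_zero.1 h3).trans (sub_eq_zero.1 h4)

end Pool.Agent.Lib.MP_9dbb0e_al.DF
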