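import Mathlib

/-!
# JOB MRs: the kernel of the exponent of one letter

`wd x : FreeGroup I →* Multiplicative ℤ`: exponent sum of the letter `x`. `rs x : FreeGroup (ℤ × {s // s ≠ x}) →* FreeGroup I`, `(n, s) ↦ x ^ n s x ^ (-n)`.

PROOFS.
`rs_inj`: let `P = FreeGroup (ℤ × {s // s ≠ x}) ⋊[α] Multiplicative ℤ`, `α : Multiplicative ℤ →* MulAut (FreeGroup (ℤ × _))`, `α m = FreeGroup.freeGroupCongr ((Equiv.addRight (toAdd m)).prodCongr (Equiv.refl _))`: `of (n, s) ↦ of (n + m, s)`.
 `F : FreeGroup I →* P`, `F (of i) = if h : i = x then inr (ofAdd 1) else inl (of (0, ⟨i, h⟩))`. `F (rs x v) = inl v`: check on generators (`FreeGroup.ext_hom`): `F (of x ^ n * of s * of x ^ (-n)) = inr (ofAdd n) * inl (of (0, s)) * (inr (ofAdd n))⁻¹ = inl (α (ofAdd n) (of (0, s)))`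
 (`SemidirectProduct.inl_aut`, `map_zpow`, `ofAdd_zsmul`), `= inl (of (n, s))`. `SemidirectProduct.inl_injective`.
 (Or without semidirect products, with a group of permutations.)
`rs_conj`: `of x ^ m * rs x v * of x ^ (-m) = rs x (FreeGroup.map (fun p => (p.1 + m, p.2)) v)`: `FreeGroup.induction_on` or `ext_hom` of two homs.
`rs_norm`: every `v` is `rs x y * of x ^ m`: the set of these is closed under right multiplication by `of x ^ (±1)` (trivial) and `(of s) ^ (±1)`, `s ≠ x`: `rs x y * of x ^ m * of s = rs x (y * of (m, s)) * of x ^ m`. `Subgroup.closure_induction_right` with `FreeGroup.closure_range_of`.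
`rs_range`: `wd x (rs x y) = 1`; if `wd x v = 1`, `v = rs x y * of x ^ m`, then `ofAdd m = 1`, `m = 0`.
-/

set_option autoImplicit false

namespace Pool.Agent.Lib.MP_9dbb0e_al.DF

open FreeGroup

variable {I : Type} [DecidableEq I]

/-- the exponent sum of the letter `x` -/
def wd (x : I) : FreeGroup I →* Multiplicative ℤ :=
  FreeGroup.lift fun i => if i = x then Multiplicative.ofAdd 1 else 1

/-- the free basis `x ^ n s x ^ (-n)` of the kernel -/
def rs (x : I) : FreeGroup (ℤ × {s : I // s ≠ x}) →* FreeGroup I :=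
  FreeGroup.lift fun p => of x ^ p.1 * of p.2.1 * of x ^ (-p.1)

omit [DecidableEq I] in
private theorem MRs_sh_add (x : I) (a b : ℤ) (v : FreeGroup (ℤ × {s : I // s ≠ x})) :
    FreeGroup.map (fun p : ℤ × {s : I // s ≠ x} => (p.1 + (a + b), p.2)) v =
      FreeGroup.map (fun p : ℤ × {s : I // s ≠ x} => (p.1 + a, p.2))
        (FreeGroup.map (fun p : ℤ × {s : I // s ≠ x} => (p.1 + b, p.2)) v) := by
  rw [FreeGroup.map.comp]
  congr 2
  funext p
  simp only [Function.comp]
  rw [Prod.mk.injEq]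
  exact ⟨by ring, rfl⟩

omit [DecidableEq I] in
private theorem MRs_sh_zero (x : I) (v : FreeGroup (ℤ × {s : I // s ≠ x})) :
    FreeGroup.map (fun p : ℤ × {s : I // s ≠ x} => (p.1 + 0, p.2)) v = v := by
  have h : (fun p : ℤ × {s : I // s ≠ x} => (p.1 + 0, p.2)) = id := by
    funext p
    rw [add_zero]
    rfl
  rw [h]
  exact FreeGroup.map.id v

/-- the shift automorphism -/
private def MRs_aut (x : I) : Multiplicative ℤ →* MulAut (FreeGroup (ℤ × {s : I // s ≠ x})) where
  toFun m :=
    { toFun := FreeGroup.map (fun p : ℤ × {s : I // s ≠ x} => (p.1 + Multiplicative.toAdd m, p.2))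
      invFun := FreeGroup.map (fun p : ℤ × {s : I // s ≠ x} => (p.1 + -Multiplicative.toAdd m, p.2))
      left_inv := by
        intro v
        rw [← MRs_sh_add, neg_add_cancel, MRs_sh_zero]
      right_inv := by
        intro v
        rw [← MRs_sh_add, add_neg_cancel, MRs_sh_zero]
      map_mul' := by
        intro v w
        exact _root_.map_mul _ v w }
  map_one' := by
    refine MulEquiv.ext fun v => ?_
    exact MRs_sh_zero x v
  map_mul' a b := by
    refine MulEquiv.ext fun v => ?_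
    exact MRs_sh_add x _ _ v

omit [DecidableEq I] in
private theorem MRs_aut_of (x : I) (n : ℤ) (s : {s : I // s ≠ x}) :
    MRs_aut x (Multiplicative.ofAdd n) (of (0, s)) = of (n, s) := by
  show FreeGroup.map (fun p : ℤ × {s : I // s ≠ x} => (p.1 + n, p.2)) (of (0, s)) = of (n, s)
  rw [FreeGroup.map.of, zero_add]

/-- the map to the semidirect product -/
private def MRs_F (x : I) :
    FreeGroup I →* FreeGroup (ℤ × {s : I // s ≠ x}) ⋊[MRs_aut x] Multiplicative ℤ :=
  FreeGroup.lift fun i => if h : i = x then SemidirectProduct.inr (Multiplicative.ofAdd 1)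
    else SemidirectProduct.inl (of (0, ⟨i, h⟩))

private theorem MRs_F_x (x : I) : MRs_F x (of x) = SemidirectProduct.inr (Multiplicative.ofAdd 1) := by
  show FreeGroup.lift _ (of x) = _
  rw [FreeGroup.lift_apply_of, dif_pos rfl]

private theorem MRs_F_s (x : I) (s : {s : I // s ≠ x}) :
    MRs_F x (of s.1) = SemidirectProduct.inl (of (0, s)) := by
  show FreeGroup.lift _ (of s.1) = _
  rw [FreeGroup.lift_apply_of, dif_neg s.2]

private theorem MRs_F_zpow (x : I) (n : ℤ) :
    MRs_F x (of x ^ n) = SemidirectProduct.inr (Multiplicative.ofAdd n) := by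
  rw [_root_.map_zpow, MRs_F_x, ← _root_.map_zpow, ← ofAdd_zsmul, smul_eq_mul, mul_one]

private theorem MRs_F_rs (x : I) (v : FreeGroup (ℤ × {s : I // s ≠ x})) :
    MRs_F x (rs x v) = SemidirectProduct.inl v := by
  have h : (MRs_F x).comp (rs x) = SemidirectProduct.inl := by
    refine FreeGroup.ext_hom _ _ fun p => ?_
    obtain ⟨n, s⟩ := p
    have h1 : rs x (of (n, s)) = of x ^ n * of s.1 * of x ^ (-n) := by
      show FreeGroup.lift _ (of (n, s)) = _
      rw [FreeGroup.lift_apply_of]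
    rw [MonoidHom.comp_apply, h1, _root_.map_mul, _root_.map_mul, MRs_F_zpow, MRs_F_zpow, MRs_F_s,
      ofAdd_neg, ← SemidirectProduct.inl_aut, MRs_aut_of]
  exact DFunLike.congr_fun h v

theorem rs_inj (x : I) : Function.Injective (rs x) := by
  intro v w hvw
  have h1 := MRs_F_rs x v
  rw [hvw, MRs_F_rs] at h1
  exact (SemidirectProduct.inl_injective h1).symm

omit [DecidableEq I] in
private theorem MRs_rs_of (x : I) (n : ℤ) (s : {s : I // s ≠ x}) :
    rs x (of (n, s)) = of x ^ n * of s.1 * of x ^ (-n) := by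
  show FreeGroup.lift _ (of (n, s)) = _
  rw [FreeGroup.lift_apply_of]

theorem rs_conj (x : I) (m : ℤ) (v : FreeGroup (ℤ × {s : I // s ≠ x})) :
    of x ^ m * rs x v * of x ^ (-m) =
      rs x (FreeGroup.map (fun p : ℤ × {s : I // s ≠ x} => (p.1 + m, p.2)) v) := by
  have h : ((MulAut.conj (of x ^ m)).toMonoidHom).comp (rs x) =
      (rs x).comp (FreeGroup.map (fun p : ℤ × {s : I // s ≠ x} => (p.1 + m, p.2))) := by
    refine FreeGroup.ext_hom _ _ fun p => ?_
    obtain ⟨n, s⟩ := p
    show of x ^ m * rs x (of (n, s)) * (of x ^ m)⁻¹ =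
      rs x (FreeGroup.map (fun p : ℤ × {s : I // s ≠ x} => (p.1 + m, p.2)) (of (n, s)))
    rw [FreeGroup.map.of, MRs_rs_of, MRs_rs_of]
    show of x ^ m * (of x ^ n * of s.1 * of x ^ (-n)) * (of x ^ m)⁻¹ =
      of x ^ (n + m) * of s.1 * of x ^ (-(n + m))
    rw [add_comm n m, neg_add_rev, zpow_add, zpow_add, zpow_neg, zpow_neg]
    simp only [mul_assoc]
  have h1 := DFunLike.congr_fun h v
  rw [zpow_neg]
  exact h1

theorem rs_norm (x : I) (v : FreeGroup I) : ∃ y m, v = rs x y * of x ^ (m : ℤ) := by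
  have hmul : ∀ v w : FreeGroup I, (∃ y m, v = rs x y * of x ^ (m : ℤ)) →
      (∃ y m, w = rs x y * of x ^ (m : ℤ)) → ∃ y m, v * w = rs x y * of x ^ (m : ℤ) := by
    rintro v w ⟨y, m, rfl⟩ ⟨y', m', rfl⟩
    refine ⟨y * FreeGroup.map (fun p : ℤ × {s : I // s ≠ x} => (p.1 + m, p.2)) y', m + m', ?_⟩
    rw [_root_.map_mul, ← rs_conj, zpow_add, zpow_neg]
    group
  have hof : ∀ i : I, ∃ y m, of i = rs x y * of x ^ (m : ℤ) := by
    intro i
    by_cases h : i = x
    · refine ⟨1, 1, ?_⟩
      rw [_root_.map_one, zpow_one, one_mul, h]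
    · refine ⟨of (0, ⟨i, h⟩), 0, ?_⟩
      rw [MRs_rs_of]
      simp
  have hinv : ∀ i : I, ∃ y m, (of i)⁻¹ = rs x y * of x ^ (m : ℤ) := by
    intro i
    by_cases h : i = x
    · refine ⟨1, -1, ?_⟩
      rw [_root_.map_one, zpow_neg_one, one_mul, h]
    · refine ⟨(of (0, ⟨i, h⟩))⁻¹, 0, ?_⟩
      rw [_root_.map_inv, MRs_rs_of]
      simp
  induction v using FreeGroup.induction_on with
  | C1 => exact ⟨1, 0, by simp⟩
  | of i => exact hof i
  | inv_of i _ => exact hinv i
  | mul v w hv hw => exact hmul v w hv hw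

theorem rs_range (x : I) (v : FreeGroup I) : (∃ y, rs x y = v) ↔ wd x v = 1 := by
  have hx : wd x (of x) = Multiplicative.ofAdd 1 := by
    show FreeGroup.lift _ (of x) = _
    rw [FreeGroup.lift_apply_of, if_pos rfl]
  have h1 : ∀ y, wd x (rs x y) = 1 := by
    intro y
    have h : (wd x).comp (rs x) = 1 := by
      refine FreeGroup.ext_hom _ _ fun p => ?_
      obtain ⟨n, s⟩ := p
      have hs : wd x (of s.1) = 1 := by
        show FreeGroup.lift _ (of s.1) = _
        rw [FreeGroup.lift_apply_of, if_neg s.2]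
      rw [MonoidHom.comp_apply, MRs_rs_of, _root_.map_mul, _root_.map_mul, hs, mul_one, ← _root_.map_mul,
        ← zpow_add, add_neg_cancel, zpow_zero, _root_.map_one, MonoidHom.one_apply]
    exact DFunLike.congr_fun h y
  constructor
  · rintro ⟨y, rfl⟩
    exact h1 y
  · intro hv
    obtain ⟨y, m, rfl⟩ := rs_norm x v
    rw [_root_.map_mul, h1, one_mul, _root_.map_zpow, hx, ← ofAdd_zsmul, smul_eq_mul, mul_one] at hv
    have hm : m = 0 := by
      have := congrArg Multiplicative.toAdd hv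
      exact this
    exact ⟨y, by rw [hm, zpow_zero, mul_one]⟩

end Pool.Agent.Lib.MP_9dbb0e_al.DF
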