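import Mathlib

/-!
# JOB NTr: traces in SL(2, ℤ)

PROOFS. `trace_mul_inv`: `A⁻¹ = ![![d, -b], ![-c, a]]` (`Matrix.SpecialLinearGroup.coe_inv`, `adjugate_fin_two`); explicit computation: with `A = (a b; c d)`, `B`: `ring` and nothing else (the determinant is not needed). `trZ`: the trace.
`tr_pow12`: `trZ (A ^ 2) = t ^ 2 - 2` (from `trace_mul_inv A A`: `trZ (A * A) + trZ 1 = t ^ 2`), `trZ (A ^ 3) = t ^ 3 - 3 t` (`trace_mul_inv (A ^ 2) A`: `trZ (A ^ 3) + trZ A = trZ (A ^ 2) * t`). So with `t₂ = t ^ 2 - 2`, `t₄ = t₂ ^ 2 - 2`, `trZ (A ^ 12) = t₄ ^ 3 - 3 t₄` (`A ^ 12 = ((A ^ 2) ^ 2) ^ 3`).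
 `t = 0, ±1`: the value is `2`; `|t| ≥ 2`: `t₂ ≥ 2`, `t₄ ≥ 2`, `t₄ ^ 3 - 3 t₄ - 2 = (t₄ - 2) (t₄ + 1) ^ 2 ≥ 0`.
`tr_pow_gt`: for `2 < trZ A`, by strong induction `trZ (A ^ n) < trZ (A ^ (n + 1))` and `2 ≤ trZ (A ^ n)` : `trZ (A ^ (n + 2)) = trZ A * trZ (A ^ (n + 1)) - trZ (A ^ n) > trZ (A ^ (n + 1))` since `trZ A ≥ 3`.
-/

set_option autoImplicit false

namespace Pool.Agent.Lib.MP_9dbb0e_al.DF

open Matrix

/-- the trace -/
def trZ (A : Matrix.SpecialLinearGroup (Fin 2) ℤ) : ℤ := A.1 0 0 + A.1 1 1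

theorem trace_mul_inv (A B : Matrix.SpecialLinearGroup (Fin 2) ℤ) :
    trZ (A * B) + trZ (A * B⁻¹) = trZ A * trZ B := by
  simp only [trZ, Matrix.SpecialLinearGroup.coe_mul, Matrix.SpecialLinearGroup.coe_inv,
    adjugate_fin_two, Matrix.mul_apply, Fin.sum_univ_two, Matrix.of_apply, Matrix.cons_val_zero,
    Matrix.cons_val_one]
  ring

theorem trZ_one : trZ 1 = 2 := by
  simp [trZ]

theorem trZ_inv (A : Matrix.SpecialLinearGroup (Fin 2) ℤ) : trZ A⁻¹ = trZ A := by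
  simp only [trZ, Matrix.SpecialLinearGroup.coe_inv, adjugate_fin_two, Matrix.of_apply,
    Matrix.cons_val_zero, Matrix.cons_val_one]
  ring

private theorem nTr_comm (A B : Matrix.SpecialLinearGroup (Fin 2) ℤ) :
    trZ (A * B) = trZ (B * A) := by
  simp only [trZ, Matrix.SpecialLinearGroup.coe_mul, Matrix.mul_apply, Fin.sum_univ_two]
  ring

theorem trZ_conj (A g : Matrix.SpecialLinearGroup (Fin 2) ℤ) : trZ (g * A * g⁻¹) = trZ A := by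
  rw [nTr_comm, inv_mul_cancel_left]

private theorem nTr_rec (A : Matrix.SpecialLinearGroup (Fin 2) ℤ) (n : ℕ) :
    trZ (A ^ (n + 2)) = trZ A * trZ (A ^ (n + 1)) - trZ (A ^ n) := by
  have h1 := trace_mul_inv (A ^ (n + 1)) A
  have h2 : A ^ (n + 1) * A = A ^ (n + 2) := (pow_succ A (n + 1)).symm
  have h3 : A ^ (n + 1) * A⁻¹ = A ^ n := by rw [pow_succ, mul_inv_cancel_right]
  rw [h2, h3] at h1
  linear_combination h1

private theorem nTr_two (A : Matrix.SpecialLinearGroup (Fin 2) ℤ) :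
    trZ (A ^ 2) = trZ A ^ 2 - 2 := by
  have h := nTr_rec A 0
  rw [pow_zero, trZ_one, zero_add, pow_one] at h
  rw [h]; ring

private theorem nTr_three (A : Matrix.SpecialLinearGroup (Fin 2) ℤ) :
    trZ (A ^ 3) = trZ A ^ 3 - 3 * trZ A := by
  have h := nTr_rec A 1
  have h1 : trZ (A ^ (1 + 1)) = trZ A ^ 2 - 2 := nTr_two A
  have h2 : A ^ (1 + 2) = A ^ 3 := rfl
  rw [h1, h2, pow_one] at h
  rw [h]; ring

theorem tr_pow12 (A : Matrix.SpecialLinearGroup (Fin 2) ℤ) : 2 ≤ trZ (A ^ 12) := by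
  have h1 : A ^ 12 = ((A ^ 2) ^ 2) ^ 3 := by
    rw [← pow_mul, ← pow_mul]
  rw [h1, nTr_three, nTr_two, nTr_two]
  generalize trZ A = t
  have h2 : ((t ^ 2 - 2) ^ 2 - 2) ^ 3 - 3 * ((t ^ 2 - 2) ^ 2 - 2) - 2 =
      t ^ 2 * (t ^ 2 - 4) * ((t ^ 2 - 2) ^ 2 - 1) ^ 2 := by ring
  have h3 : 0 ≤ t ^ 2 * (t ^ 2 - 4) * ((t ^ 2 - 2) ^ 2 - 1) ^ 2 := by
    by_cases h4 : 2 ≤ |t|
    · have h5 : 4 ≤ t ^ 2 := by
        rw [← sq_abs]
        nlinarith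
      exact mul_nonneg (mul_nonneg (sq_nonneg _) (by linarith)) (sq_nonneg _)
    · have h5 : |t| < 2 := not_le.1 h4
      rw [abs_lt] at h5
      have h6 : t = -1 ∨ t = 0 ∨ t = 1 := by omega
      rcases h6 with rfl | rfl | rfl <;> norm_num
  linarith

private theorem nTr_mono (A : Matrix.SpecialLinearGroup (Fin 2) ℤ) (h : 2 < trZ A) (n : ℕ) :
    2 ≤ trZ (A ^ n) ∧ trZ (A ^ n) < trZ (A ^ (n + 1)) := by
  induction n with
  | zero =>
    rw [pow_zero, trZ_one, zero_add, pow_one]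
    exact ⟨le_rfl, h⟩
  | succ n ih =>
    refine ⟨by linarith [ih.1, ih.2], ?_⟩
    have h1 := nTr_rec A n
    show trZ (A ^ (n + 1)) < trZ (A ^ (n + 2))
    rw [h1]
    nlinarith [ih.1, ih.2]

theorem tr_pow_gt (A : Matrix.SpecialLinearGroup (Fin 2) ℤ) (h : 2 < trZ A) (n : ℕ) (hn : 0 < n) :
    2 < trZ (A ^ n) := by
  obtain ⟨m, rfl⟩ : ∃ m, n = m + 1 := ⟨n - 1, by omega⟩
  exact (nTr_mono A h m).1.trans_lt (nTr_mono A h m).2

theorem tr_zpow_gt (A : Matrix.SpecialLinearGroup (Fin 2) ℤ) (h : 2 < trZ A) (n : ℤ)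
    (hn : n ≠ 0) : 2 < trZ (A ^ n) := by
  rcases Int.natAbs_eq n with h1 | h1
  · rw [h1, zpow_natCast]
    exact tr_pow_gt A h _ (Int.natAbs_pos.2 hn)
  · rw [h1, _root_.zpow_neg, zpow_natCast, trZ_inv]
    exact tr_pow_gt A h _ (Int.natAbs_pos.2 hn)

/-- a hyperbolic matrix has no fixed vectors -/
theorem fix_zero (A : Matrix.SpecialLinearGroup (Fin 2) ℤ) (h : 2 < trZ A) (w : Fin 2 → ℤ)
    (hw : A.1 *ᵥ w = w) : w = 0 := by
  have hd := A.2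
  rw [Matrix.det_fin_two] at hd
  have h0 := congrFun hw 0
  have h1 := congrFun hw 1
  simp only [Matrix.mulVec, dotProduct, Fin.sum_univ_two] at h0 h1
  unfold trZ at h
  have h2 : (A.1 0 0 + A.1 1 1 - 2) * w 0 = 0 := by
    linear_combination (1 - A.1 1 1) * h0 + A.1 0 1 * h1 + w 0 * hd
  have h3 : (A.1 0 0 + A.1 1 1 - 2) * w 1 = 0 := by
    linear_combination (1 - A.1 0 0) * h1 + A.1 1 0 * h0 + w 1 * hd
  have h4 : A.1 0 0 + A.1 1 1 - 2 ≠ 0 := by omega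
  funext i
  fin_cases i
  · exact (mul_eq_zero.1 h2).resolve_left h4
  · exact (mul_eq_zero.1 h3).resolve_left h4

end Pool.Agent.Lib.MP_9dbb0e_al.DF
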