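import Pool.Agent.Lib.MP_9dbb0e_al.D.TDefs

/-!
# JOB TBun: the generators are bundle maps

`IsB q`: the permutation `q.1` is the map of a bundle map whose matrix at `t0` is the integral matrix `q.2`. `BG`: the pairs such that `q` and `q⁻¹` have this property.

PROOFS.
`IsB.mul`: the composition of the bundle maps `B, B'`: `β = B.β ∘ B'.β`, `M x = B.M (B'.β x) * B'.M x`; `C ^ 1`: sums of products of compositions (`Matrix.mul_apply`, `ContDiff.sum`, `ContDiff.mul`, `ContDiff.comp`); isometry: `(M M')ᵀ Gm (β (β' x)) (M M') = M'ᵀ (Mᵀ Gm (β (β' x)) M) M' = M'ᵀ Gm (β' x) M' = Gm x`; determinant: `det_mul`; at `t0`: `B'.fix`, `Matrix.map_mul` (`Matrix.map_mul` for the ring homomorphism `Int.castRingHom ℝ`).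
`isB_S1` etc.: give `β` and `M` explicitly, e.g. for `S1`: `β x = ![x 0, x 2, x 0 * x 2 - x 1]`, `M x = !![x 0, 1, 0; -1, 0, 0; 0, 0, 1]`; for `S1⁻¹`: `β x = ![x 0, x 0 * x 1 - x 2, x 1]`, `M x = !![0, -1, 0; 1, x 0, 0; 0, 0, 1]`; for `S2`: `β x = ![x 1, x 1 * x 2 - x 0, x 2]`, `M x = !![1, 0, 0; 0, x 2, 1; 0, -1, 0]`;
 for `S2⁻¹`: `β x = ![x 0 * x 2 - x 1, x 0, x 2]`, `M x = !![1, 0, 0; 0, 0, -1; 0, 1, x 2]`; for `U0`: `β x = x`, `M x = !![1, x 0, x 1; 0, -1, 0; 0, 0, -1]`, `U1`: `!![-1, 0, 0; x 0, 1, x 2; 0, 0, -1]`, `U2`: `!![-1, 0, 0; 0, -1, 0; x 1, x 2, 1]` (`U0⁻¹ = U0` as maps, `LU0⁻¹ = LU0`).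
 Smoothness: `contDiff_pi`, `fin_cases`, `fun_prop` / `ContDiff.mul`, `contDiff_apply`. Isometry: `ext i j; fin_cases i; fin_cases j; simp [Gm, Matrix.mul_apply, Fin.sum_univ_three]; ring`. At `t0`: entries. The inverse in `SL(3, ℤ)`: `(LS1⁻¹ : Matrix) = adjugate` (`Matrix.SpecialLinearGroup.coe_inv`), `decide` or `simp`; or show `LS1⁻¹ = ⟨!![0, -1, 0; 1, 2, 0; 0, 0, 1], _⟩` by `inv_eq_of_mul_eq_one_right` and `decide`/`ext`.
-/

set_option autoImplicit false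

namespace Pool.Agent.Lib.MP_9dbb0e_al.DF

open Matrix

/-- the special linear group of rank three -/
abbrev SL3 : Type := Matrix.SpecialLinearGroup (Fin 3) ℤ

def LS1 : SL3 := ⟨!![2, 1, 0; -1, 0, 0; 0, 0, 1], by simp [Matrix.det_fin_three]⟩

def LS2 : SL3 := ⟨!![1, 0, 0; 0, 2, 1; 0, -1, 0], by simp [Matrix.det_fin_three]⟩

def LU0 : SL3 := ⟨!![1, 2, 2; 0, -1, 0; 0, 0, -1], by simp [Matrix.det_fin_three]⟩

def LU1 : SL3 := ⟨!![-1, 0, 0; 2, 1, 2; 0, 0, -1], by simp [Matrix.det_fin_three]⟩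

def LU2 : SL3 := ⟨!![-1, 0, 0; 0, -1, 0; 2, 2, 1], by simp [Matrix.det_fin_three]⟩

/-- bundle maps with a given integral matrix at `t0` -/
def IsB (q : Equiv.Perm (V3 × V3) × SL3) : Prop :=
  ∃ B : Bun, (∀ p, q.1 p = B.app p) ∧
    B.M t0 = (q.2 : Matrix (Fin 3) (Fin 3) ℤ).map (Int.cast : ℤ → ℝ)

theorem IsB.one : IsB 1 := by
  refine ⟨⟨fun x => x, fun _ => 1, contDiff_id, fun i j => contDiff_const, fun x => ?_, fun x => Matrix.det_one,
    rfl⟩, fun p => ?_, ?_⟩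
  · rw [Matrix.transpose_one, Matrix.one_mul, Matrix.mul_one]
  · show p = (p.1, (1 : Mt) *ᵥ p.2)
    rw [Matrix.one_mulVec]
  · show (1 : Mt) = ((1 : SL3) : Matrix (Fin 3) (Fin 3) ℤ).map (Int.cast : ℤ → ℝ)
    rw [Matrix.SpecialLinearGroup.coe_one, Matrix.map_one _ Int.cast_zero Int.cast_one]

/-- the composition of bundle maps -/
private def TBun_comp (B B' : Bun) : Bun where
  β x := B.β (B'.β x)
  M x := B.M (B'.β x) * B'.M x
  β_c := B.β_c.comp B'.β_c
  M_c i j := by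
    have h : (fun x => (B.M (B'.β x) * B'.M x) i j) = fun x => ∑ k, B.M (B'.β x) i k * B'.M x k j := by
      funext x
      rw [Matrix.mul_apply]
    rw [h]
    exact ContDiff.sum fun k _ => ((B.M_c i k).comp B'.β_c).mul (B'.M_c k j)
  iso x := by
    rw [Matrix.transpose_mul]
    calc (B'.M x)ᵀ * (B.M (B'.β x))ᵀ * Gm (B.β (B'.β x)) * (B.M (B'.β x) * B'.M x) =
        (B'.M x)ᵀ * ((B.M (B'.β x))ᵀ * Gm (B.β (B'.β x)) * B.M (B'.β x)) * B'.M x := by
          simp only [Matrix.mul_assoc]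
      _ = Gm x := by rw [B.iso, B'.iso]
  det x := by rw [Matrix.det_mul, B.det, B'.det, one_mul]
  fix := by rw [B'.fix, B.fix]

theorem IsB.mul {q q' : Equiv.Perm (V3 × V3) × SL3} (h : IsB q) (h' : IsB q') : IsB (q * q') := by
  obtain ⟨B, h1, h2⟩ := h
  obtain ⟨B', h3, h4⟩ := h'
  refine ⟨TBun_comp B B', fun p => ?_, ?_⟩
  · show q.1 (q'.1 p) = (B.β (B'.β p.1), (B.M (B'.β p.1) * B'.M p.1) *ᵥ p.2)
    rw [h1, h3, ← Matrix.mulVec_mulVec]
    rfl
  · show B.M (B'.β t0) * B'.M t0 = ((q.2 * q'.2 : SL3) : Matrix (Fin 3) (Fin 3) ℤ).map (Int.cast : ℤ → ℝ)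
    rw [B'.fix, h2, h4, Matrix.SpecialLinearGroup.coe_mul]
    exact (Matrix.map_mul (L := (q.2 : Matrix (Fin 3) (Fin 3) ℤ)) (M := (q'.2 : Matrix (Fin 3) (Fin 3) ℤ))
      (f := Int.castRingHom ℝ)).symm

private theorem TBun_inv {g h : SL3} (hgh : (g : Matrix (Fin 3) (Fin 3) ℤ) * h = 1) : g⁻¹ = h := by
  refine inv_eq_of_mul_eq_one_right (Subtype.ext ?_)
  rw [Matrix.SpecialLinearGroup.coe_mul, hgh]
  rfl

private noncomputable def TBun_s1 : Bun where
  β x := ![x 0, x 2, x 0 * x 2 - x 1]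
  M x := !![x 0, 1, 0; -1, 0, 0; 0, 0, 1]
  β_c := by
    rw [contDiff_pi]
    intro i
    fin_cases i <;> simp <;> fun_prop
  M_c i j := by fin_cases i <;> fin_cases j <;> simp <;> fun_prop
  iso x := by
    ext i j
    fin_cases i <;> fin_cases j <;> simp [Gm, Matrix.mul_apply, Fin.sum_univ_three] <;> ring
  det x := by simp [Matrix.det_fin_three]
  fix := by
    funext i
    fin_cases i <;> simp [t0] <;> norm_num

private noncomputable def TBun_s1' : Bun where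
  β x := ![x 0, x 0 * x 1 - x 2, x 1]
  M x := !![0, -1, 0; 1, x 0, 0; 0, 0, 1]
  β_c := by
    rw [contDiff_pi]
    intro i
    fin_cases i <;> simp <;> fun_prop
  M_c i j := by fin_cases i <;> fin_cases j <;> simp <;> fun_prop
  iso x := by
    ext i j
    fin_cases i <;> fin_cases j <;> simp [Gm, Matrix.mul_apply, Fin.sum_univ_three] <;> ring
  det x := by simp [Matrix.det_fin_three]
  fix := by
    funext i
    fin_cases i <;> simp [t0] <;> norm_num

private noncomputable def TBun_s2 : Bun where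
  β x := ![x 1, x 1 * x 2 - x 0, x 2]
  M x := !![1, 0, 0; 0, x 2, 1; 0, -1, 0]
  β_c := by
    rw [contDiff_pi]
    intro i
    fin_cases i <;> simp <;> fun_prop
  M_c i j := by fin_cases i <;> fin_cases j <;> simp <;> fun_prop
  iso x := by
    ext i j
    fin_cases i <;> fin_cases j <;> simp [Gm, Matrix.mul_apply, Fin.sum_univ_three] <;> ring
  det x := by simp [Matrix.det_fin_three]
  fix := by
    funext i
    fin_cases i <;> simp [t0] <;> norm_num

private noncomputable def TBun_s2' : Bun where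
  β x := ![x 0 * x 2 - x 1, x 0, x 2]
  M x := !![1, 0, 0; 0, 0, -1; 0, 1, x 2]
  β_c := by
    rw [contDiff_pi]
    intro i
    fin_cases i <;> simp <;> fun_prop
  M_c i j := by fin_cases i <;> fin_cases j <;> simp <;> fun_prop
  iso x := by
    ext i j
    fin_cases i <;> fin_cases j <;> simp [Gm, Matrix.mul_apply, Fin.sum_univ_three] <;> ring
  det x := by simp [Matrix.det_fin_three]
  fix := by
    funext i
    fin_cases i <;> simp [t0] <;> norm_num

private noncomputable def TBun_u0 : Bun where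
  β x := x
  M x := !![1, x 0, x 1; 0, -1, 0; 0, 0, -1]
  β_c := contDiff_id
  M_c i j := by fin_cases i <;> fin_cases j <;> simp <;> fun_prop
  iso x := by
    ext i j
    fin_cases i <;> fin_cases j <;> simp [Gm, Matrix.mul_apply, Fin.sum_univ_three] <;> ring
  det x := by simp [Matrix.det_fin_three]
  fix := rfl

private noncomputable def TBun_u1 : Bun where
  β x := x
  M x := !![-1, 0, 0; x 0, 1, x 2; 0, 0, -1]
  β_c := contDiff_id
  M_c i j := by fin_cases i <;> fin_cases j <;> simp <;> fun_prop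
  iso x := by
    ext i j
    fin_cases i <;> fin_cases j <;> simp [Gm, Matrix.mul_apply, Fin.sum_univ_three] <;> ring
  det x := by simp [Matrix.det_fin_three]
  fix := rfl

private noncomputable def TBun_u2 : Bun where
  β x := x
  M x := !![-1, 0, 0; 0, -1, 0; x 1, x 2, 1]
  β_c := contDiff_id
  M_c i j := by fin_cases i <;> fin_cases j <;> simp <;> fun_prop
  iso x := by
    ext i j
    fin_cases i <;> fin_cases j <;> simp [Gm, Matrix.mul_apply, Fin.sum_univ_three] <;> ring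
  det x := by simp [Matrix.det_fin_three]
  fix := rfl

/-- the group of these pairs -/
def BG : Subgroup (Equiv.Perm (V3 × V3) × SL3) where
  carrier := {q | IsB q ∧ IsB q⁻¹}
  one_mem' := ⟨IsB.one, by rw [inv_one]; exact IsB.one⟩
  mul_mem' := by
    rintro q q' ⟨h1, h2⟩ ⟨h3, h4⟩
    refine ⟨h1.mul h3, ?_⟩
    rw [_root_.mul_inv_rev]
    exact h4.mul h2
  inv_mem' := by
    rintro q ⟨h1, h2⟩
    refine ⟨h2, ?_⟩
    rw [inv_inv]
    exact h1

theorem S1_mem : (S1, LS1) ∈ BG := by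
  refine ⟨⟨TBun_s1, fun p => ?_, ?_⟩, ⟨TBun_s1', fun p => ?_, ?_⟩⟩
  · obtain ⟨x, v⟩ := p
    refine Prod.ext ?_ ?_ <;> funext i <;> fin_cases i <;>
      simp [S1, TBun_s1, Bun.app, dotProduct, Fin.sum_univ_three]
  · ext i j
    fin_cases i <;> fin_cases j <;> simp [TBun_s1, LS1, t0]
  · obtain ⟨x, v⟩ := p
    show S1.invFun (x, v) = TBun_s1'.app (x, v)
    refine Prod.ext ?_ ?_ <;> funext i <;> fin_cases i <;>
      simp [S1, TBun_s1', Bun.app, dotProduct, Fin.sum_univ_three]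
  · have h : LS1⁻¹ = ⟨!![0, -1, 0; 1, 2, 0; 0, 0, 1], by simp [Matrix.det_fin_three]⟩ := by
      refine TBun_inv ?_
      ext i j
      fin_cases i <;> fin_cases j <;> simp [LS1, Matrix.mul_apply, Fin.sum_univ_three]
    show TBun_s1'.M t0 = ((LS1⁻¹ : SL3) : Matrix (Fin 3) (Fin 3) ℤ).map (Int.cast : ℤ → ℝ)
    rw [h]
    ext i j
    fin_cases i <;> fin_cases j <;> simp [TBun_s1', t0]

theorem S2_mem : (S2, LS2) ∈ BG := by
  refine ⟨⟨TBun_s2, fun p => ?_, ?_⟩, ⟨TBun_s2', fun p => ?_, ?_⟩⟩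
  · obtain ⟨x, v⟩ := p
    refine Prod.ext ?_ ?_ <;> funext i <;> fin_cases i <;>
      simp [S2, TBun_s2, Bun.app, dotProduct, Fin.sum_univ_three]
  · ext i j
    fin_cases i <;> fin_cases j <;> simp [TBun_s2, LS2, t0]
  · obtain ⟨x, v⟩ := p
    show S2.invFun (x, v) = TBun_s2'.app (x, v)
    refine Prod.ext ?_ ?_ <;> funext i <;> fin_cases i <;>
      simp [S2, TBun_s2', Bun.app, dotProduct, Fin.sum_univ_three]
  · have h : LS2⁻¹ = ⟨!![1, 0, 0; 0, 0, -1; 0, 1, 2], by simp [Matrix.det_fin_three]⟩ := by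
      refine TBun_inv ?_
      ext i j
      fin_cases i <;> fin_cases j <;> simp [LS2, Matrix.mul_apply, Fin.sum_univ_three]
    show TBun_s2'.M t0 = ((LS2⁻¹ : SL3) : Matrix (Fin 3) (Fin 3) ℤ).map (Int.cast : ℤ → ℝ)
    rw [h]
    ext i j
    fin_cases i <;> fin_cases j <;> simp [TBun_s2', t0]

theorem U0_mem : (U0, LU0) ∈ BG := by
  refine ⟨⟨TBun_u0, fun p => ?_, ?_⟩, ⟨TBun_u0, fun p => ?_, ?_⟩⟩
  · obtain ⟨x, v⟩ := p
    refine Prod.ext ?_ ?_ <;> funext i <;> fin_cases i <;>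
      simp [U0, TBun_u0, Bun.app, dotProduct, Fin.sum_univ_three]
  · ext i j
    fin_cases i <;> fin_cases j <;> simp [TBun_u0, LU0, t0]
  · obtain ⟨x, v⟩ := p
    show U0.invFun (x, v) = TBun_u0.app (x, v)
    refine Prod.ext ?_ ?_ <;> funext i <;> fin_cases i <;>
      simp [U0, TBun_u0, Bun.app, dotProduct, Fin.sum_univ_three]
  · have h : LU0⁻¹ = ⟨!![1, 2, 2; 0, -1, 0; 0, 0, -1], by simp [Matrix.det_fin_three]⟩ := by
      refine TBun_inv ?_
      ext i j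
      fin_cases i <;> fin_cases j <;> simp [LU0, Matrix.mul_apply, Fin.sum_univ_three]
    show TBun_u0.M t0 = ((LU0⁻¹ : SL3) : Matrix (Fin 3) (Fin 3) ℤ).map (Int.cast : ℤ → ℝ)
    rw [h]
    ext i j
    fin_cases i <;> fin_cases j <;> simp [TBun_u0, t0]

theorem U1_mem : (U1, LU1) ∈ BG := by
  refine ⟨⟨TBun_u1, fun p => ?_, ?_⟩, ⟨TBun_u1, fun p => ?_, ?_⟩⟩
  · obtain ⟨x, v⟩ := p
    refine Prod.ext ?_ ?_ <;> funext i <;> fin_cases i <;>
      simp [U1, TBun_u1, Bun.app, dotProduct, Fin.sum_univ_three] <;> ring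
  · ext i j
    fin_cases i <;> fin_cases j <;> simp [TBun_u1, LU1, t0]
  · obtain ⟨x, v⟩ := p
    show U1.invFun (x, v) = TBun_u1.app (x, v)
    refine Prod.ext ?_ ?_ <;> funext i <;> fin_cases i <;>
      simp [U1, TBun_u1, Bun.app, dotProduct, Fin.sum_univ_three] <;> ring
  · have h : LU1⁻¹ = ⟨!![-1, 0, 0; 2, 1, 2; 0, 0, -1], by simp [Matrix.det_fin_three]⟩ := by
      refine TBun_inv ?_
      ext i j
      fin_cases i <;> fin_cases j <;> simp [LU1, Matrix.mul_apply, Fin.sum_univ_three]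
    show TBun_u1.M t0 = ((LU1⁻¹ : SL3) : Matrix (Fin 3) (Fin 3) ℤ).map (Int.cast : ℤ → ℝ)
    rw [h]
    ext i j
    fin_cases i <;> fin_cases j <;> simp [TBun_u1, t0]

theorem U2_mem : (U2, LU2) ∈ BG := by
  refine ⟨⟨TBun_u2, fun p => ?_, ?_⟩, ⟨TBun_u2, fun p => ?_, ?_⟩⟩
  · obtain ⟨x, v⟩ := p
    refine Prod.ext ?_ ?_ <;> funext i <;> fin_cases i <;>
      simp [U2, TBun_u2, Bun.app, dotProduct, Fin.sum_univ_three] <;> ring
  · ext i j
    fin_cases i <;> fin_cases j <;> simp [TBun_u2, LU2, t0]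
  · obtain ⟨x, v⟩ := p
    show U2.invFun (x, v) = TBun_u2.app (x, v)
    refine Prod.ext ?_ ?_ <;> funext i <;> fin_cases i <;>
      simp [U2, TBun_u2, Bun.app, dotProduct, Fin.sum_univ_three] <;> ring
  · have h : LU2⁻¹ = ⟨!![-1, 0, 0; 0, -1, 0; 2, 2, 1], by simp [Matrix.det_fin_three]⟩ := by
      refine TBun_inv ?_
      ext i j
      fin_cases i <;> fin_cases j <;> simp [LU2, Matrix.mul_apply, Fin.sum_univ_three]
    show TBun_u2.M t0 = ((LU2⁻¹ : SL3) : Matrix (Fin 3) (Fin 3) ℤ).map (Int.cast : ℤ → ℝ)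
    rw [h]
    ext i j
    fin_cases i <;> fin_cases j <;> simp [TBun_u2, t0]

end Pool.Agent.Lib.MP_9dbb0e_al.DF
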