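import Pool.Agent.Lib.MP_9dbb0e_al.D.HDefs

/-!
# The bundle maps `S1, S2` (braids) and `U0, U1, U2` (reflections)

For `x = (x, y, z)` and `v = (p, q, r)`:
`S1 = ((x, z, x z - y), (x p + q, - p, r))`, `S2 = ((y, y z - x, z), (p, z q + r, - q))`, `U0: (p + x q + y r, - q, - r)`, `U1: (- p, q + x p + z r, - r)`, `U2: (- p, - q, r + y p + z q)` (base fixed).
-/

set_option autoImplicit false

namespace Pool.Agent.Lib.MP_9dbb0e_al.DF

open Matrix

/-- first braid generator -/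
def S1 : Equiv.Perm (V3 × V3) where
  toFun p := (![p.1 0, p.1 2, p.1 0 * p.1 2 - p.1 1], ![p.1 0 * p.2 0 + p.2 1, - p.2 0, p.2 2])
  invFun p := (![p.1 0, p.1 0 * p.1 1 - p.1 2, p.1 1], ![- p.2 1, p.2 0 + p.1 0 * p.2 1, p.2 2])
  left_inv := by
    rintro ⟨x, v⟩
    refine Prod.ext ?_ ?_ <;> funext i <;> fin_cases i <;> simp
  right_inv := by
    rintro ⟨x, v⟩
    refine Prod.ext ?_ ?_ <;> funext i <;> fin_cases i <;> simp

/-- second braid generator -/
def S2 : Equiv.Perm (V3 × V3) where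
  toFun p := (![p.1 1, p.1 1 * p.1 2 - p.1 0, p.1 2], ![p.2 0, p.1 2 * p.2 1 + p.2 2, - p.2 1])
  invFun p := (![p.1 0 * p.1 2 - p.1 1, p.1 0, p.1 2], ![p.2 0, - p.2 2, p.2 1 + p.1 2 * p.2 2])
  left_inv := by
    rintro ⟨x, v⟩
    refine Prod.ext ?_ ?_ <;> funext i <;> fin_cases i <;> simp
  right_inv := by
    rintro ⟨x, v⟩
    refine Prod.ext ?_ ?_ <;> funext i <;> fin_cases i <;> simp

/-- reflection -/
def U0 : Equiv.Perm (V3 × V3) where
  toFun p := (p.1, ![p.2 0 + p.1 0 * p.2 1 + p.1 1 * p.2 2, - p.2 1, - p.2 2])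
  invFun p := (p.1, ![p.2 0 + p.1 0 * p.2 1 + p.1 1 * p.2 2, - p.2 1, - p.2 2])
  left_inv := by
    rintro ⟨x, v⟩
    refine Prod.ext rfl ?_
    funext i
    fin_cases i <;> simp
    ring
  right_inv := by
    rintro ⟨x, v⟩
    refine Prod.ext rfl ?_
    funext i
    fin_cases i <;> simp
    ring

/-- reflection -/
def U1 : Equiv.Perm (V3 × V3) where
  toFun p := (p.1, ![- p.2 0, p.2 1 + p.1 0 * p.2 0 + p.1 2 * p.2 2, - p.2 2])
  invFun p := (p.1, ![- p.2 0, p.2 1 + p.1 0 * p.2 0 + p.1 2 * p.2 2, - p.2 2])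
  left_inv := by
    rintro ⟨x, v⟩
    refine Prod.ext rfl ?_
    funext i
    fin_cases i <;> simp
    ring
  right_inv := by
    rintro ⟨x, v⟩
    refine Prod.ext rfl ?_
    funext i
    fin_cases i <;> simp
    ring

/-- reflection -/
def U2 : Equiv.Perm (V3 × V3) where
  toFun p := (p.1, ![- p.2 0, - p.2 1, p.2 2 + p.1 1 * p.2 0 + p.1 2 * p.2 1])
  invFun p := (p.1, ![- p.2 0, - p.2 1, p.2 2 + p.1 1 * p.2 0 + p.1 2 * p.2 1])
  left_inv := by
    rintro ⟨x, v⟩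
    refine Prod.ext rfl ?_
    funext i
    fin_cases i <;> simp
    ring
  right_inv := by
    rintro ⟨x, v⟩
    refine Prod.ext rfl ?_
    funext i
    fin_cases i <;> simp
    ring

end Pool.Agent.Lib.MP_9dbb0e_al.DF
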