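import Pool.Agent.Lib.MP_9dbb0e_al.D.TDefs

/-!
# JOB TRel: relations between the bundle maps

PROOFS. Every relation is an identity of maps: `Equiv.ext`, `rintro ⟨x, v⟩`, `refine Prod.ext ?_ ?_ <;> funext i <;> fin_cases i <;> simp [S1, S2, U0, U1, U2, Equiv.Perm.mul_apply] <;> ring`. (`simp` should evaluate both sides to polynomials in the coordinates `x 0, x 1, x 2, v 0, v 1, v 2`;
unfold with `show` or `Equiv.coe_fn_mk` if necessary. `pow_succ` for the third power.) The last four follow from the others by group theory (or directly):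
`S1 * (U1 * U0 * S1) = U0 * S1 * U0 * S1 = U0 * U0 * U1 * U0 * S1 * S1`.
`c3_braid`: `S2 * (U1 * U0 * S1) * S2 = U1 * U2 * U1 * U0 * (S2 * S1 * S2)` and `(U1 * U0 * S1) * S2 * (U1 * U0 * S1)`, move all `U` to the left.
-/

set_option autoImplicit false

namespace Pool.Agent.Lib.MP_9dbb0e_al.DF

private theorem TRel_S1 (x v : V3) : S1 (x, v) = (![x 0, x 2, x 0 * x 2 - x 1], ![x 0 * v 0 + v 1, - v 0, v 2]) := rfl

private theorem TRel_S2 (x v : V3) : S2 (x, v) = (![x 1, x 1 * x 2 - x 0, x 2], ![v 0, x 2 * v 1 + v 2, - v 1]) := rfl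

private theorem TRel_U0 (x v : V3) : U0 (x, v) = (x, ![v 0 + x 0 * v 1 + x 1 * v 2, - v 1, - v 2]) := rfl

private theorem TRel_U1 (x v : V3) : U1 (x, v) = (x, ![- v 0, v 1 + x 0 * v 0 + x 2 * v 2, - v 2]) := rfl

private theorem TRel_U2 (x v : V3) : U2 (x, v) = (x, ![- v 0, - v 1, v 2 + x 1 * v 0 + x 2 * v 1]) := rfl

theorem S_braid : S1 * S2 * S1 = S2 * S1 * S2 := by
  refine Equiv.ext ?_
  rintro ⟨x, v⟩
  simp only [Equiv.Perm.mul_apply, TRel_S1, TRel_S2]
  refine Prod.ext ?_ ?_ <;> funext i <;> fin_cases i <;> simp <;> ring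

theorem U0_sq : U0 * U0 = 1 := by
  refine Equiv.ext ?_
  rintro ⟨x, v⟩
  simp only [Equiv.Perm.mul_apply, TRel_U0, Equiv.Perm.one_apply]
  refine Prod.ext rfl ?_
  funext i
  fin_cases i <;> simp
  ring

theorem U1_sq : U1 * U1 = 1 := by
  refine Equiv.ext ?_
  rintro ⟨x, v⟩
  simp only [Equiv.Perm.mul_apply, TRel_U1, Equiv.Perm.one_apply]
  refine Prod.ext rfl ?_
  funext i
  fin_cases i <;> simp
  ring

theorem U2_sq : U2 * U2 = 1 := by
  refine Equiv.ext ?_
  rintro ⟨x, v⟩
  simp only [Equiv.Perm.mul_apply, TRel_U2, Equiv.Perm.one_apply]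
  refine Prod.ext rfl ?_
  funext i
  fin_cases i <;> simp
  ring

theorem S1_U0 : S1 * U0 = U0 * U1 * U0 * S1 := by
  refine Equiv.ext ?_
  rintro ⟨x, v⟩
  simp only [Equiv.Perm.mul_apply, TRel_S1, TRel_U0, TRel_U1]
  refine Prod.ext ?_ ?_ <;> funext i <;> fin_cases i <;> simp <;> ring

theorem S1_U1 : S1 * U1 = U0 * S1 := by
  refine Equiv.ext ?_
  rintro ⟨x, v⟩
  simp only [Equiv.Perm.mul_apply, TRel_S1, TRel_U0, TRel_U1]
  refine Prod.ext ?_ ?_ <;> funext i <;> fin_cases i <;> simp <;> ring

theorem S1_U2 : S1 * U2 = U2 * S1 := by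
  refine Equiv.ext ?_
  rintro ⟨x, v⟩
  simp only [Equiv.Perm.mul_apply, TRel_S1, TRel_U2]
  refine Prod.ext ?_ ?_ <;> funext i <;> fin_cases i <;> simp <;> ring

theorem S2_U0 : S2 * U0 = U0 * S2 := by
  refine Equiv.ext ?_
  rintro ⟨x, v⟩
  simp only [Equiv.Perm.mul_apply, TRel_S2, TRel_U0]
  refine Prod.ext ?_ ?_ <;> funext i <;> fin_cases i <;> simp <;> ring

theorem S2_U1 : S2 * U1 = U1 * U2 * U1 * S2 := by
  refine Equiv.ext ?_
  rintro ⟨x, v⟩
  simp only [Equiv.Perm.mul_apply, TRel_S2, TRel_U1, TRel_U2]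
  refine Prod.ext ?_ ?_ <;> funext i <;> fin_cases i <;> simp <;> ring

theorem S2_U2 : S2 * U2 = U1 * S2 := by
  refine Equiv.ext ?_
  rintro ⟨x, v⟩
  simp only [Equiv.Perm.mul_apply, TRel_S2, TRel_U1, TRel_U2]
  refine Prod.ext ?_ ?_ <;> funext i <;> fin_cases i <;> simp <;> ring

theorem S_cube : (S1 * S2) ^ 3 = U0 * U1 * U2 := by
  have h : (S1 * S2) ^ 3 = S1 * S2 * (S1 * S2) * (S1 * S2) := by
    rw [pow_succ, pow_two]
  rw [h]
  refine Equiv.ext ?_
  rintro ⟨x, v⟩
  simp only [Equiv.Perm.mul_apply, TRel_S1, TRel_S2, TRel_U0, TRel_U1, TRel_U2]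
  refine Prod.ext ?_ ?_ <;> funext i <;> fin_cases i <;> simp <;> ring

section

variable {G : Type} [Group G] {a b u v w : G}

private theorem TRel_c3 (uu : u * u = 1) (au : a * u = u * v * u * a) (av : a * v = u * a) :
    a * (v * u * a) = (v * u * a) * a := by
  calc a * (v * u * a) = (a * v) * u * a := by group
    _ = u * (a * u) * a := by rw [av]; group
    _ = (u * u) * v * u * a * a := by rw [au]; group
    _ = (v * u * a) * a := by rw [uu]; group

private theorem TRel_braid3 (uu : u * u = 1) (au : a * u = u * v * u * a) (av : a * v = u * a) (aw : a * w = w * a)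
    (bu : b * u = u * b) (bv : b * v = v * w * v * b) (hb : a * b * a = b * a * b) :
    b * (v * u * a) * b = (v * u * a) * b * (v * u * a) := by
  calc b * (v * u * a) * b = (b * v) * u * a * b := by group
    _ = v * w * v * (b * u) * a * b := by rw [bv]; group
    _ = v * w * v * u * (b * a * b) := by rw [bu]; group
    _ = v * w * v * u * (a * b * a) := by rw [hb]
    _ = v * w * (1 * (v * u * (a * b * a))) := by group
    _ = v * w * (u * u * (v * u * (a * b * a))) := by rw [uu]
    _ = v * w * u * (u * v * u * a) * b * a := by group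
    _ = v * w * u * a * (u * b) * a := by rw [← au]; group
    _ = v * w * (u * a) * b * u * a := by rw [← bu]; group
    _ = v * (w * a) * v * b * u * a := by rw [← av]; group
    _ = 1 * (v * a * w * v * b * u * a) := by rw [← aw]; group
    _ = v * (1 * a * w * v * b * u * a) := by group
    _ = v * u * (u * a) * w * v * b * u * a := by rw [← uu]; group
    _ = v * u * a * (v * w * v * b) * u * a := by rw [← av]; group
    _ = (v * u * a) * b * (v * u * a) := by rw [← bv]; group

private theorem TRel_c6a (uu : u * u = 1) (au : a * u = u * v * u * a) (av : a * v = u * a) :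
    a * (v * u * a ^ 3) = (v * u * a ^ 3) * a := by
  calc a * (v * u * a ^ 3) = (a * (v * u * a)) * a ^ 2 := by group
    _ = (v * u * a) * a * a ^ 2 := by rw [TRel_c3 uu au av]
    _ = (v * u * a ^ 3) * a := by group

private theorem TRel_cube (hb : a * b * a = b * a * b) :
    b * (a * (a * (a * (b * (a * (a * (a * (b * (a * (a * a)))))))))) =
      a * (a * (a * (b * (a * (a * (a * (b * (a * (a * (a * b)))))))))) := by
  have e1 : (a * b * a) * a = b * (a * b * a) := by
    rw [hb]
    have : b * a * b * a = b * (a * b * a) := by group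
    rw [this, hb]
  have e2 : (a * b * a) * b = a * (a * b * a) := by
    have : a * (a * b * a) = a * (b * a * b) := by rw [hb]
    rw [this]
    group
  obtain ⟨d, hd⟩ : ∃ d, d = a * b * a := ⟨_, rfl⟩
  rw [← hd] at e1 e2
  have hd' : d = b * a * b := by rw [hd, hb]
  have l : b * (a * (a * (a * (b * (a * (a * (a * (b * (a * (a * a)))))))))) = b * a * a * d * a * d * a * a := by
    rw [hd]
    group
  have r : a * (a * (a * (b * (a * (a * (a * (b * (a * (a * (a * b)))))))))) = a * a * d * a * d * a * a * b := by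
    rw [hd]
    group
  have l1 : b * a * a * d * a * d * a * a = d * d * d * d := by
    calc b * a * a * d * a * d * a * a = b * a * (a * d) * (a * d) * a * a := by group
      _ = b * a * (d * b) * (d * b) * a * a := by rw [← e2]
      _ = b * a * d * (b * d) * b * a * a := by group
      _ = b * a * d * (d * a) * b * a * a := by rw [← e1]
      _ = b * a * d * d * (a * b * a) * a := by group
      _ = b * (a * d) * d * d * a := by rw [← hd]; group
      _ = b * (d * b) * d * d * a := by rw [← e2]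
      _ = (b * d) * b * d * d * a := by group
      _ = (d * a) * b * d * d * a := by rw [← e1]
      _ = d * a * b * d * (d * a) := by group
      _ = d * a * (b * d) * b * d := by rw [e1]; group
      _ = d * (a * d) * a * b * d := by rw [← e1]; group
      _ = d * d * (b * a * b) * d := by rw [← e2]; group
      _ = d * d * d * d := by rw [← hd']
  have r1 : a * a * d * a * d * a * a * b = d * d * d * d := by
    calc a * a * d * a * d * a * a * b = a * (a * d) * (a * d) * a * a * b := by group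
      _ = a * (d * b) * (d * b) * a * a * b := by rw [← e2]
      _ = (a * d) * (b * d) * b * a * a * b := by group
      _ = (d * b) * (d * a) * b * a * a * b := by rw [← e2, ← e1]
      _ = d * (b * d) * (a * b * a) * a * b := by group
      _ = d * (d * a) * d * a * b := by rw [← hd, ← e1]
      _ = d * d * (a * d) * a * b := by group
      _ = d * d * d * (b * a * b) := by rw [← e2]; group
      _ = d * d * d * d := by rw [← hd']
  rw [l, r, l1, r1]

private theorem TRel_c6 (uu : u * u = 1) (vv : v * v = 1) (ww : w * w = 1) (au : a * u = u * v * u * a)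
    (av : a * v = u * a) (aw : a * w = w * a)
    (bu : b * u = u * b) (bv : b * v = v * w * v * b) (bw : b * w = v * b) (hb : a * b * a = b * a * b) :
    (b * (v * u * a ^ 3)) ^ 3 = ((v * u * a ^ 3) * b) ^ 3 := by
  have uu' : ∀ t, u * (u * t) = t := fun t => by rw [← mul_assoc, uu, one_mul]
  have vv' : ∀ t, v * (v * t) = t := fun t => by rw [← mul_assoc, vv, one_mul]
  have ww' : ∀ t, w * (w * t) = t := fun t => by rw [← mul_assoc, ww, one_mul]
  have au' : ∀ t, a * (u * t) = u * (v * (u * (a * t))) := fun t => by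
    rw [← mul_assoc, au]
    group
  have av' : ∀ t, a * (v * t) = u * (a * t) := fun t => by rw [← mul_assoc, av, mul_assoc]
  have aw' : ∀ t, a * (w * t) = w * (a * t) := fun t => by rw [← mul_assoc, aw, mul_assoc]
  have bu' : ∀ t, b * (u * t) = u * (b * t) := fun t => by rw [← mul_assoc, bu, mul_assoc]
  have bv' : ∀ t, b * (v * t) = v * (w * (v * (b * t))) := fun t => by
    rw [← mul_assoc, bv]
    group
  have bw' : ∀ t, b * (w * t) = v * (b * t) := fun t => by rw [← mul_assoc, bw, mul_assoc]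
  have p3 : ∀ x : G, x ^ 3 = x * (x * x) := fun x => by rw [pow_succ, pow_two, mul_assoc]
  rw [p3, p3, p3]
  simp only [mul_assoc, au', av', aw', bu', bv', bw', uu', vv', ww']
  rw [TRel_cube hb]

end

theorem c3_comm : S1 * (U1 * U0 * S1) = (U1 * U0 * S1) * S1 := TRel_c3 U0_sq S1_U0 S1_U1

theorem c3_braid : S2 * (U1 * U0 * S1) * S2 = (U1 * U0 * S1) * S2 * (U1 * U0 * S1) :=
  TRel_braid3 U0_sq S1_U0 S1_U1 S1_U2 S2_U0 S2_U1 S_braid

theorem c6_comm : S1 * (U1 * U0 * S1 ^ 3) = (U1 * U0 * S1 ^ 3) * S1 := TRel_c6a U0_sq S1_U0 S1_U1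

theorem c6_rel : (S2 * (U1 * U0 * S1 ^ 3)) ^ 3 = ((U1 * U0 * S1 ^ 3) * S2) ^ 3 :=
  TRel_c6 U0_sq U1_sq U2_sq S1_U0 S1_U1 S1_U2 S2_U0 S2_U1 S2_U2 S_braid

end Pool.Agent.Lib.MP_9dbb0e_al.DF
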